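import Pool.Agent.W_7d29a1_S90.DefsS90

/-!
The polymer mean is a probability mean; replicas are at distance of order the square root of the
length with positive probability.
-/

namespace Pool.Agent.W_7d29a1_S90

open MeasureTheory ProbabilityTheory Filter Topology Pool.Agent.W_MP_7d29a1_pr
  Pool.Agent.W_7d29a1_h46 Pool.Agent.W_7d29a1_h46u Pool.Agent.W_7d29a1_D2.B35
  Pool.Agent.W_7d29a1_Q29

variable {d n : ℕ}

/-! ### The polymer mean -/

lemma pe_mono73 (hd : 0 < d) (β : ℝ) (h : Vec d) (η : Env d) {f g : (Fin n → Step d) → ℝ}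
    (hfg : ∀ s, f s ≤ g s) : pe β h η f ≤ pe β h η g :=
  div_le_div_of_nonneg_right (Finset.sum_le_sum fun s _ =>
    mul_le_mul_of_nonneg_left (hfg s) (Real.exp_pos _).le) (Z_pos hd β h η n).le

lemma pe_const73 (hd : 0 < d) (β : ℝ) (h : Vec d) (η : Env d) (c : ℝ) :
    pe β h η (fun _ : Fin n → Step d => c) = c := by
  unfold pe
  rw [← Finset.sum_mul, ← Z_eq, mul_comm]
  exact mul_div_cancel_right₀ c (Z_pos hd β h η n).ne'

lemma pe_nonneg73 (hd : 0 < d) (β : ℝ) (h : Vec d) (η : Env d) {f : (Fin n → Step d) → ℝ}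
    (hf : ∀ s, 0 ≤ f s) : 0 ≤ pe β h η f := by
  have h1 := pe_mono73 hd β h η hf
  rwa [pe_const73 hd] at h1

lemma pe_add73 (β : ℝ) (h : Vec d) (η : Env d) (f g : (Fin n → Step d) → ℝ) :
    pe β h η (fun s => f s + g s) = pe β h η f + pe β h η g := by
  unfold pe
  rw [← add_div, ← Finset.sum_add_distrib]
  congr 1
  exact Finset.sum_congr rfl fun s _ => mul_add _ _ _

lemma pe_sub73 (β : ℝ) (h : Vec d) (η : Env d) (f g : (Fin n → Step d) → ℝ) :
    pe β h η (fun s => f s - g s) = pe β h η f - pe β h η g := by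
  unfold pe
  rw [← sub_div, ← Finset.sum_sub_distrib]
  congr 1
  exact Finset.sum_congr rfl fun s _ => mul_sub _ _ _

lemma pe_mul73 (β : ℝ) (h : Vec d) (η : Env d) (c : ℝ) (f : (Fin n → Step d) → ℝ) :
    pe β h η (fun s => c * f s) = c * pe β h η f := by
  unfold pe
  rw [← mul_div_assoc, Finset.mul_sum]
  congr 1
  exact Finset.sum_congr rfl fun s _ => by ring

lemma pe_sum73 {ι : Type*} (S : Finset ι) (β : ℝ) (h : Vec d) (η : Env d)
    (f : ι → (Fin n → Step d) → ℝ) :
    pe β h η (fun s => ∑ i ∈ S, f i s) = ∑ i ∈ S, pe β h η (f i) := by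
  unfold pe
  rw [← Finset.sum_div, Finset.sum_comm]
  congr 1
  exact Finset.sum_congr rfl fun s _ => Finset.mul_sum _ _ _

lemma abs_pe_le73 (hd : 0 < d) (β : ℝ) (h : Vec d) (η : Env d) {f : (Fin n → Step d) → ℝ} {C : ℝ}
    (hf : ∀ s, |f s| ≤ C) : |pe β h η f| ≤ C := by
  rw [abs_le]
  constructor
  · have h1 := pe_mono73 hd β h η (f := fun _ => -C) (g := f) fun s => (abs_le.1 (hf s)).1
    rwa [pe_const73 hd] at h1
  · have h1 := pe_mono73 hd β h η (f := f) (g := fun _ => C) fun s => (abs_le.1 (hf s)).2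
    rwa [pe_const73 hd] at h1

lemma measurable_pe73 (β : ℝ) (h : Vec d) {f : Env d → (Fin n → Step d) → ℝ}
    (hf : ∀ s, Measurable fun η => f η s) : Measurable fun η : Env d => pe β h η (f η) := by
  unfold pe
  exact (Finset.measurable_sum _ fun s _ => (measurable_wgt β h s).mul (hf s)).div
    (measurable_Z β h n)

lemma integrable_pe73 {ρ : Measure ℝ} [IsProbabilityMeasure ρ] (hd : 0 < d) (β : ℝ) (h : Vec d)
    {f : Env d → (Fin n → Step d) → ℝ} (hf : ∀ s, Measurable fun η => f η s) {C : ℝ}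
    (hC : ∀ η s, |f η s| ≤ C) : Integrable (fun η : Env d => pe β h η (f η)) (law d ρ) := by
  refine (integrable_const C).mono' (measurable_pe73 β h hf).aestronglyMeasurable
    (Eventually.of_forall fun η => ?_)
  rw [Real.norm_eq_abs]
  exact abs_pe_le73 hd β h η (hC η)

/-- A function of the walk alone. -/
lemma integrable_pe_fun73 {ρ : Measure ℝ} [IsProbabilityMeasure ρ] (hd : 0 < d) (β : ℝ)
    (h : Vec d) (f : (Fin n → Step d) → ℝ) :
    Integrable (fun η : Env d => pe β h η f) (law d ρ) := by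
  refine integrable_pe73 hd β h (f := fun _ => f) (fun s => measurable_const)
    (C := ∑ s, |f s|) fun _ s => ?_
  exact Finset.single_le_sum (f := fun s => |f s|) (fun _ _ => abs_nonneg _) (Finset.mem_univ s)

/-- Two replicas. -/
lemma integrable_pe2_fun73 {ρ : Measure ℝ} [IsProbabilityMeasure ρ] (hd : 0 < d) (β : ℝ)
    (h : Vec d) (f : (Fin n → Step d) → (Fin n → Step d) → ℝ) :
    Integrable (fun η : Env d => pe2 β h η f) (law d ρ) := by
  unfold pe2
  refine integrable_pe73 hd β h (f := fun η s => pe β h η fun s' => f s s')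
    (fun s => measurable_pe73 β h (f := fun _ s' => f s s') fun _ => measurable_const)
    (C := ∑ s, ∑ s', |f s s'|) fun η s => ?_
  refine abs_pe_le73 hd β h η fun s' => ?_
  refine (Finset.single_le_sum (f := fun s' => |f s s'|) (fun _ _ => abs_nonneg _)
    (Finset.mem_univ s')).trans ?_
  exact Finset.single_le_sum (f := fun s => ∑ s', |f s s'|)
    (fun _ _ => Finset.sum_nonneg fun _ _ => abs_nonneg _) (Finset.mem_univ s)

lemma pe2_mono73 (hd : 0 < d) (β : ℝ) (h : Vec d) (η : Env d)
    {f g : (Fin n → Step d) → (Fin n → Step d) → ℝ} (hfg : ∀ s s', f s s' ≤ g s s') :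
    pe2 β h η f ≤ pe2 β h η g :=
  pe_mono73 hd β h η fun s => pe_mono73 hd β h η fun s' => hfg s s'

/-- The second moment of the difference of two replicas. -/
lemma pe2_sq73 (hd : 0 < d) (β : ℝ) (h : Vec d) (η : Env d) (x : (Fin n → Step d) → ℝ) :
    pe2 β h η (fun s s' => (x s - x s') ^ 2) =
      2 * (pe β h η (fun s => x s ^ 2) - pe β h η x ^ 2) := by
  have h1 : ∀ s : Fin n → Step d, pe β h η (fun s' => (x s - x s') ^ 2) =
      x s ^ 2 - 2 * pe β h η x * x s + pe β h η (fun s => x s ^ 2) := by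
    intro s
    have h2 : (fun s' : Fin n → Step d => (x s - x s') ^ 2) =
        fun s' => (x s ^ 2 - 2 * x s * x s') + x s' ^ 2 := by
      funext s'
      ring
    rw [h2, pe_add73, pe_sub73, pe_const73 hd, pe_mul73]
    ring
  unfold pe2
  simp_rw [h1]
  rw [pe_add73, pe_sub73, pe_const73 hd, pe_mul73]
  ring

lemma pe2_fst73 (hd : 0 < d) (β : ℝ) (h : Vec d) (η : Env d) (x : (Fin n → Step d) → ℝ) :
    pe2 β h η (fun s _ => x s) = pe β h η x := by
  unfold pe2
  simp_rw [pe_const73 hd]

lemma pe2_snd73 (hd : 0 < d) (β : ℝ) (h : Vec d) (η : Env d) (x : (Fin n → Step d) → ℝ) :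
    pe2 β h η (fun _ s' => x s') = pe β h η x := by
  unfold pe2
  rw [pe_const73 hd]

/-! ### The replicas -/

lemma emb_zero73 : emb (0 : Site d) = 0 := by
  ext j
  simp [emb]

lemma pos_zero73 (s : Fin n → Step d) : pos s 0 = 0 := by
  unfold pos
  exact Finset.sum_eq_zero fun j _ => if_neg (Nat.not_lt_zero _)

open Classical in
/-- Leaf I5. -/
theorem rpT73 {ρ : Measure ℝ} [IsProbabilityMeasure ρ] (hd : 0 < d) (β : ℝ) : RpT d ρ β := by
  intro h e n t α R c he hn ht htn hα hR hc hW hV
  obtain ⟨m, hm⟩ := hW 0 t (by omega) htn (by simpa using hα)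
  have hn0 : (0 : ℝ) < n := by exact_mod_cast (by omega : 0 < n)
  have htn' : (t : ℝ) ≤ n := by exact_mod_cast htn
  set x : (Fin n → Step d) → ℝ := fun s => inner ℝ e (emb (pos s t)) with hx
  set q : (Fin n → Step d) → ℝ := fun s => inc 0 t m s ^ 4 with hq
  set D : (Fin n → Step d) → (Fin n → Step d) → ℝ :=
    fun s s' => ‖emb (pos s t) - emb (pos s' t)‖ with hD
  set I : (Fin n → Step d) → (Fin n → Step d) → ℝ :=
    fun s s' => if Real.sqrt (c * n) < D s s' then (1 : ℝ) else 0 with hI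
  set L : ℝ := c / (16 * R * n) with hL
  have hL0 : 0 < L := by positivity
  have hcn : 0 < c * n := by positivity
  -- the inequality for two walks
  have hpt : ∀ s s' : Fin n → Step d, (x s - x s') ^ 2 ≤
      (c * n + 4 * L * q s + 4 * L * q s') + 1 / (2 * L) * I s s' := by
    intro s s'
    have hD0 : 0 ≤ D s s' := norm_nonneg _
    have h1 : (x s - x s') ^ 2 ≤ D s s' ^ 2 := by
      have h2 : x s - x s' = inner ℝ e (emb (pos s t) - emb (pos s' t)) := by
        rw [hx, inner_sub_right]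
      have h3 := abs_real_inner_le_norm e (emb (pos s t) - emb (pos s' t))
      rw [he, one_mul, ← h2] at h3
      exact sq_le_sq' (by have := neg_abs_le (x s - x s'); linarith) ((le_abs_self _).trans h3)
    have h4 : D s s' ^ 4 ≤ 8 * (q s + q s') := by
      have h5 : D s s' ≤ inc 0 t m s + inc 0 t m s' := by
        have h6 : emb (pos s t) - emb (pos s' t) =
            (emb (pos s t) - emb (pos s 0) - m) - (emb (pos s' t) - emb (pos s' 0) - m) := by
          rw [pos_zero73, pos_zero73]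
          abel
        rw [hD]
        simp only
        rw [h6]
        exact norm_sub_le _ _
      have h7 : 0 ≤ inc 0 t m s := norm_nonneg _
      have h8 : 0 ≤ inc 0 t m s' := norm_nonneg _
      have h9 : D s s' ^ 4 ≤ (inc 0 t m s + inc 0 t m s') ^ 4 := pow_le_pow_left₀ hD0 h5 4
      have h10 : (inc 0 t m s + inc 0 t m s') ^ 4 ≤ 8 * (q s + q s') := by
        rw [hq]
        simp only
        nlinarith [sq_nonneg (inc 0 t m s - inc 0 t m s'),
          sq_nonneg (inc 0 t m s ^ 2 - inc 0 t m s' ^ 2),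
          sq_nonneg (inc 0 t m s + inc 0 t m s'), mul_nonneg h7 h8,
          mul_nonneg (sq_nonneg (inc 0 t m s + inc 0 t m s'))
            (sq_nonneg (inc 0 t m s - inc 0 t m s'))]
      exact h9.trans h10
    have hq0 : 0 ≤ q s := by rw [hq]; positivity
    have hq0' : 0 ≤ q s' := by rw [hq]; positivity
    refine h1.trans ?_
    by_cases hb : Real.sqrt (c * n) < D s s'
    · have h5 : I s s' = 1 := if_pos hb
      rw [h5, mul_one]
      have h6 : D s s' ^ 2 ≤ L / 2 * D s s' ^ 4 + 1 / (2 * L) := by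
        have h7 : 0 ≤ (L * D s s' ^ 2 - 1) ^ 2 := sq_nonneg _
        have h8 : L / 2 * D s s' ^ 4 + 1 / (2 * L) - D s s' ^ 2 =
            (L * D s s' ^ 2 - 1) ^ 2 / (2 * L) := by
          field_simp
          ring
        have h9 : 0 ≤ (L * D s s' ^ 2 - 1) ^ 2 / (2 * L) := by positivity
        linarith
      have h7 : L / 2 * D s s' ^ 4 ≤ 4 * L * q s + 4 * L * q s' := by nlinarith
      linarith
    · have h5 : I s s' = 0 := if_neg hb
      rw [h5, mul_zero, add_zero]
      have h6 : D s s' ^ 2 ≤ c * n := by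
        have h7 := pow_le_pow_left₀ hD0 (not_lt.1 hb) 2
        rwa [Real.sq_sqrt hcn.le] at h7
      have h8 : 0 ≤ 4 * L * q s + 4 * L * q s' := by positivity
      linarith
  -- under the polymer measure
  have hpol : ∀ η : Env d, 2 * (pe β h η (fun s => x s ^ 2) - pe β h η x ^ 2) ≤
      c * n + 8 * L * pe β h η q + 1 / (2 * L) * pe2 β h η I := by
    intro η
    have h1 := pe2_mono73 hd β h η hpt
    rw [pe2_sq73 hd] at h1
    have h2 : pe2 β h η (fun s s' =>
        (c * n + 4 * L * q s + 4 * L * q s') + 1 / (2 * L) * I s s') =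
        c * n + 8 * L * pe β h η q + 1 / (2 * L) * pe2 β h η I := by
      unfold pe2
      simp only [pe_add73, pe_mul73, pe_const73 hd]
      ring
    rwa [h2] at h1
  have hi1 : Integrable (fun η : Env d => pe β h η (fun s => x s ^ 2) - pe β h η x ^ 2)
      (law d ρ) := by
    have h1 : (fun η : Env d => pe β h η (fun s => x s ^ 2) - pe β h η x ^ 2) =
        fun η => 1 / 2 * pe2 β h η (fun s s' => (x s - x s') ^ 2) := by
      funext η
      rw [pe2_sq73 hd]
      ring
    rw [h1]
    exact (integrable_pe2_fun73 hd β h _).const_mul _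
  have hiq : Integrable (fun η : Env d => pe β h η q) (law d ρ) := integrable_pe_fun73 hd β h q
  have hiI : Integrable (fun η : Env d => pe2 β h η I) (law d ρ) :=
    integrable_pe2_fun73 hd β h I
  have hint := integral_mono (hi1.const_mul 2)
    (((integrable_const (c * n)).add (hiq.const_mul (8 * L))).add (hiI.const_mul (1 / (2 * L))))
    hpol
  have hA : ∫ η, (c * n + 8 * L * pe β h η q + 1 / (2 * L) * pe2 β h η I) ∂(law d ρ) =
      c * n + 8 * L * ∫ η, pe β h η q ∂(law d ρ) +
        1 / (2 * L) * ∫ η, pe2 β h η I ∂(law d ρ) := by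
    have h1 : Integrable (fun η : Env d => c * n + 8 * L * pe β h η q) (law d ρ) :=
      (integrable_const (c * n)).add (hiq.const_mul (8 * L))
    rw [integral_add h1 (hiI.const_mul _), integral_add (integrable_const _) (hiq.const_mul _),
      integral_const_mul, integral_const_mul, integral_const_mul, integral_const, probReal_univ,
      one_smul]
  have hB : ∫ η, 2 * (pe β h η (fun s => x s ^ 2) - pe β h η x ^ 2) ∂(law d ρ) =
      2 * Vr ρ β h e n t := by
    rw [integral_const_mul]
    rfl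
  have hRp : ∫ η, pe2 β h η I ∂(law d ρ) = Rp ρ β h n t (Real.sqrt (c * n)) := rfl
  have hqm : ∫ η, pe β h η q ∂(law d ρ) ≤ R * (n : ℝ) ^ 2 := by
    refine hm.trans ?_
    have h1 : ((t : ℝ) - ((0 : ℕ) : ℝ)) ^ 2 ≤ (n : ℝ) ^ 2 := by
      rw [Nat.cast_zero, sub_zero]
      exact pow_le_pow_left₀ (Nat.cast_nonneg t) htn' 2
    exact mul_le_mul_of_nonneg_left h1 (by linarith)
  have hfin : 2 * Vr ρ β h e n t ≤ c * n + 8 * L * (R * (n : ℝ) ^ 2) +
      1 / (2 * L) * Rp ρ β h n t (Real.sqrt (c * n)) := by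
    have h1 : 8 * L * ∫ η, pe β h η q ∂(law d ρ) ≤ 8 * L * (R * (n : ℝ) ^ 2) :=
      mul_le_mul_of_nonneg_left hqm (by positivity)
    have h2 : 2 * Vr ρ β h e n t ≤ c * n + 8 * L * ∫ η, pe β h η q ∂(law d ρ) +
        1 / (2 * L) * ∫ η, pe2 β h η I ∂(law d ρ) := by
      rw [← hA, ← hB]
      exact hint
    rw [hRp] at h2
    linarith
  have h1 : 8 * L * (R * (n : ℝ) ^ 2) = c * n / 2 := by
    rw [hL]
    field_simp
    ring
  have h2 : 1 / (2 * L) = 8 * R * n / c := by
    rw [hL]
    field_simp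
    ring
  rw [h1, h2] at hfin
  have h3 : c * n / 2 ≤ 8 * R * n / c * Rp ρ β h n t (Real.sqrt (c * n)) := by linarith
  have h4 : c ^ 2 / (16 * R) = c * n / 2 * (c / (8 * R * n)) := by
    field_simp
    ring
  rw [h4]
  have h5 : 0 < c / (8 * R * n) := by positivity
  calc c * n / 2 * (c / (8 * R * n))
      ≤ 8 * R * n / c * Rp ρ β h n t (Real.sqrt (c * n)) * (c / (8 * R * n)) :=
        mul_le_mul_of_nonneg_right h3 h5.le
    _ = Rp ρ β h n t (Real.sqrt (c * n)) := by
      field_simp

end Pool.Agent.W_7d29a1_S90
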