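import Pool.Agent.W_7d29a1_S90.ScI39

/-!
Leaf I2 (the influence of one site of the row `τ` on the law of `S_t`), first in the form without
weight.
-/

namespace Pool.Agent.W_7d29a1_S90

open MeasureTheory ProbabilityTheory Filter Topology Pool.Agent.W_MP_7d29a1_pr
  Pool.Agent.W_7d29a1_h46 Pool.Agent.W_7d29a1_h46u Pool.Agent.W_7d29a1_D2.B35
  Pool.Agent.W_7d29a1_Q29

variable {ρ : Measure ℝ} [IsProbabilityMeasure ρ]

/-! ### The polymer -/

variable {d : ℕ}

open Classical in
/-- Sums over the walks as a function of the value of one site. -/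
lemma sum39 {n : ℕ} (β : ℝ) (h : Vec d) (η : Env d) {τ : ℕ} (y : Site d) (hτ : 1 ≤ τ)
    (hτn : τ ≤ n) (F : (Fin n → Step d) → ℝ) (r : ℝ) :
    ∑ s : Fin n → Step d, wgt β h (Function.update η (τ, y) r) s * F s =
      (∑ s : Fin n → Step d, if pos s τ = y then
        wgt β h (Function.update η (τ, y) 0) s * F s else 0) * Real.exp (β * r) +
      ∑ s : Fin n → Step d, if pos s τ = y then 0 else
        wgt β h (Function.update η (τ, y) 0) s * F s := by
  rw [Finset.sum_mul, ← Finset.sum_add_distrib]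
  refine Finset.sum_congr rfl fun s _ => ?_
  rw [s39_wgt β h η s y r hτ hτn]
  split_ifs <;> ring

open Classical in
/-- The three means which occur, as functions of the value of one site. -/
lemma shape39 (hd : 0 < d) {n : ℕ} (β : ℝ) (h : Vec d) (η : Env d) {τ : ℕ} (y : Site d)
    (hτ : 1 ≤ τ) (hτn : τ ≤ n) (Fr : (Fin n → Step d) → Prop) :
    ∃ a b e f : ℝ, 0 ≤ e ∧ e ≤ a ∧ 0 ≤ f ∧ f ≤ b ∧ 0 < a + b ∧ ∀ r : ℝ,
      pe β h (Function.update η (τ, y) r) (fun s => if pos s τ = y ∧ Fr s then (1 : ℝ) else 0) =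
        e * Real.exp (β * r) / (b + a * Real.exp (β * r)) ∧
      pe β h (Function.update η (τ, y) r) (fun s => if ¬ Fr s then (1 : ℝ) else 0) =
        ((a - e) * Real.exp (β * r) + (b - f)) / (b + a * Real.exp (β * r)) ∧
      pe2 β h (Function.update η (τ, y) r) (fun s s' => if pos s τ = y ∧ pos s' τ ≠ y ∧ Fr s'
        then (1 : ℝ) else 0) = a * Real.exp (β * r) / (b + a * Real.exp (β * r)) *
          (f / (b + a * Real.exp (β * r))) := by
  set W : (Fin n → Step d) → ℝ := fun s => wgt β h (Function.update η (τ, y) 0) s with hW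
  have hW0 : ∀ s, 0 ≤ W s := fun s => (wgt_pos _ _ _ _).le
  set a : ℝ := ∑ s, if pos s τ = y then W s else 0 with ha
  set b : ℝ := ∑ s, if pos s τ = y then 0 else W s with hb
  set e : ℝ := ∑ s, if pos s τ = y ∧ Fr s then W s else 0 with he
  set f : ℝ := ∑ s, if pos s τ ≠ y ∧ Fr s then W s else 0 with hf
  have hZ : ∀ r, Z β h (Function.update η (τ, y) r) n = b + a * Real.exp (β * r) := by
    intro r
    have h1 := sum39 β h η y hτ hτn (fun _ => 1) r
    simp only [mul_one] at h1
    rw [Z_eq, h1]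
    ring
  refine ⟨a, b, e, f, ?_, ?_, ?_, ?_, ?_, fun r => ⟨?_, ?_, ?_⟩⟩
  · exact Finset.sum_nonneg fun s _ => by
      split_ifs
      · exact hW0 s
      · exact le_rfl
  · refine Finset.sum_le_sum fun s _ => ?_
    by_cases h1 : pos s τ = y
    · by_cases h2 : Fr s
      · rw [if_pos ⟨h1, h2⟩, if_pos h1]
      · rw [if_neg (fun h3 => h2 h3.2), if_pos h1]
        exact hW0 s
    · rw [if_neg (fun h3 => h1 h3.1), if_neg h1]
  · exact Finset.sum_nonneg fun s _ => by
      split_ifs
      · exact hW0 s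
      · exact le_rfl
  · refine Finset.sum_le_sum fun s _ => ?_
    by_cases h1 : pos s τ = y
    · rw [if_neg (fun h3 => h3.1 h1), if_pos h1]
    · by_cases h2 : Fr s
      · rw [if_pos ⟨h1, h2⟩, if_neg h1]
      · rw [if_neg (fun h3 => h2 h3.2), if_neg h1]
        exact hW0 s
  · have h1 := hZ 0
    rw [mul_zero, Real.exp_zero, mul_one] at h1
    rw [add_comm, ← h1]
    exact Z_pos hd β h _ _
  · unfold pe
    rw [hZ r, sum39 β h η y hτ hτn]
    congr 1
    have h1 : (∑ s : Fin n → Step d, if pos s τ = y then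
        W s * (if pos s τ = y ∧ Fr s then (1 : ℝ) else 0) else 0) = e := by
      refine Finset.sum_congr rfl fun s _ => ?_
      by_cases h1 : pos s τ = y
      · by_cases h2 : Fr s
        · simp [h1, h2]
        · simp [h1, h2]
      · simp [h1]
    have h2 : (∑ s : Fin n → Step d, if pos s τ = y then (0 : ℝ) else
        W s * (if pos s τ = y ∧ Fr s then (1 : ℝ) else 0)) = 0 := by
      refine Finset.sum_eq_zero fun s _ => ?_
      by_cases h1 : pos s τ = y
      · simp [h1]
      · simp [h1]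
    rw [h1, h2, add_zero]
  · unfold pe
    rw [hZ r, sum39 β h η y hτ hτn]
    congr 1
    have h1 : (∑ s : Fin n → Step d, if pos s τ = y then
        W s * (if ¬ Fr s then (1 : ℝ) else 0) else 0) = a - e := by
      rw [ha, he, ← Finset.sum_sub_distrib]
      refine Finset.sum_congr rfl fun s _ => ?_
      by_cases h1 : pos s τ = y
      · by_cases h2 : Fr s
        · simp [h1, h2]
        · simp [h1, h2]
      · simp [h1]
    have h2 : (∑ s : Fin n → Step d, if pos s τ = y then (0 : ℝ) else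
        W s * (if ¬ Fr s then (1 : ℝ) else 0)) = b - f := by
      rw [hb, hf, ← Finset.sum_sub_distrib]
      refine Finset.sum_congr rfl fun s _ => ?_
      by_cases h1 : pos s τ = y
      · simp [h1]
      · by_cases h2 : Fr s
        · simp [h1, h2]
        · simp [h1, h2]
    rw [h1, h2]
  · unfold pe2
    have h0 : ∀ s : Fin n → Step d, pe β h (Function.update η (τ, y) r)
        (fun s' : Fin n → Step d => if pos s τ = y ∧ pos s' τ ≠ y ∧ Fr s' then (1 : ℝ) else 0) =
        if pos s τ = y then f / (b + a * Real.exp (β * r)) else 0 := by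
      intro s
      by_cases hs : pos s τ = y
      · rw [if_pos hs]
        unfold pe
        rw [hZ r, sum39 β h η y hτ hτn]
        congr 1
        have h1 : (∑ s' : Fin n → Step d, if pos s' τ = y then
            W s' * (if pos s τ = y ∧ pos s' τ ≠ y ∧ Fr s' then (1 : ℝ) else 0) else 0) = 0 := by
          refine Finset.sum_eq_zero fun s' _ => ?_
          by_cases h1 : pos s' τ = y
          · simp [h1]
          · simp [h1]
        have h2 : (∑ s' : Fin n → Step d, if pos s' τ = y then (0 : ℝ) else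
            W s' * (if pos s τ = y ∧ pos s' τ ≠ y ∧ Fr s' then (1 : ℝ) else 0)) = f := by
          refine Finset.sum_congr rfl fun s' _ => ?_
          by_cases h1 : pos s' τ = y
          · simp [h1]
          · by_cases h2 : Fr s'
            · simp [h1, h2, hs]
            · simp [h1, h2]
        rw [h1, h2, zero_mul, zero_add]
      · rw [if_neg hs]
        unfold pe
        rw [Finset.sum_eq_zero, zero_div]
        intro s' _
        simp [hs]
    simp only [h0]
    unfold pe
    rw [hZ r, sum39 β h η y hτ hτn]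
    have h1 : ∀ K : ℝ, (∑ s : Fin n → Step d, if pos s τ = y then
        W s * (if pos s τ = y then K else 0) else 0) = a * K := by
      intro K
      rw [ha, Finset.sum_mul]
      refine Finset.sum_congr rfl fun s _ => ?_
      by_cases h1 : pos s τ = y
      · simp [h1]
      · simp [h1]
    have h2 : (∑ s : Fin n → Step d, if pos s τ = y then (0 : ℝ) else
        W s * (if pos s τ = y then f / (b + a * Real.exp (β * r)) else 0)) = 0 := by
      refine Finset.sum_eq_zero fun s _ => ?_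
      by_cases h1 : pos s τ = y
      · simp [h1]
      · simp [h1]
    rw [h1 (f / (b + a * Real.exp (β * r))), h2, add_zero]
    ring

lemma meas_pe39 (β : ℝ) (h : Vec d) {n : ℕ} (f : (Fin n → Step d) → ℝ) :
    Measurable fun η : Env d => pe β h η f := by
  unfold pe
  exact (Finset.measurable_sum _ fun s _ => (measurable_wgt β h s).mul_const _).div
    (measurable_Z β h n)

lemma pe_bd39 (hd : 0 < d) (β : ℝ) (h : Vec d) (η : Env d) {n : ℕ} {f : (Fin n → Step d) → ℝ}
    (hf : ∀ s, 0 ≤ f s ∧ f s ≤ 1) : 0 ≤ pe β h η f ∧ pe β h η f ≤ 1 := by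
  unfold pe
  have hZ := Z_pos hd β h η n
  refine ⟨div_nonneg (Finset.sum_nonneg fun s _ => mul_nonneg (wgt_pos _ _ _ _).le (hf s).1) hZ.le,
    ?_⟩
  rw [div_le_one hZ, Z_eq]
  exact Finset.sum_le_sum fun s _ => mul_le_of_le_one_right (wgt_pos _ _ _ _).le (hf s).2

lemma meas_pe239 (β : ℝ) (h : Vec d) {n : ℕ} (f : (Fin n → Step d) → (Fin n → Step d) → ℝ) :
    Measurable fun η : Env d => pe2 β h η f := by
  unfold pe2
  have h1 : (fun η : Env d => pe β h η fun s => pe β h η fun s' => f s s') =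
      fun η : Env d => (∑ s, wgt β h η s * pe β h η fun s' => f s s') / Z β h η n := rfl
  rw [h1]
  exact (Finset.measurable_sum _ fun s _ => (measurable_wgt β h s).mul (meas_pe39 β h _)).div
    (measurable_Z β h n)

lemma pe2_bd39 (hd : 0 < d) (β : ℝ) (h : Vec d) (η : Env d) {n : ℕ}
    {f : (Fin n → Step d) → (Fin n → Step d) → ℝ} (hf : ∀ s s', 0 ≤ f s s' ∧ f s s' ≤ 1) :
    0 ≤ pe2 β h η f ∧ pe2 β h η f ≤ 1 :=
  pe_bd39 hd β h η fun s => pe_bd39 hd β h η fun s' => hf s s'

lemma int_bd39 {F : Env d → ℝ} (hF : Measurable F) (h0 : ∀ η, 0 ≤ F η ∧ F η ≤ 1) :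
    Integrable F (law d ρ) :=
  Integrable.of_bound hF.aestronglyMeasurable 1 (Eventually.of_forall fun η => by
    rw [Real.norm_eq_abs, abs_of_nonneg (h0 η).1]
    exact (h0 η).2)

lemma zt_bd39 (ρ : Measure ℝ) [IsProbabilityMeasure ρ] (q v : ℝ) : |zt ρ q v| ≤ 1 := by
  unfold zt
  have h1 : ρ.real (Set.Ioi q) ≤ 1 := measureReal_le_one
  have h2 : 0 ≤ ρ.real (Set.Ioi q) := measureReal_nonneg
  rw [abs_le]
  split_ifs <;> constructor <;> linarith

lemma meas_zt39 (ρ : Measure ℝ) (q : ℝ) : Measurable (zt ρ q) := by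
  unfold zt
  exact (Measurable.ite measurableSet_Ioi measurable_const measurable_const).sub_const _

open Classical in
/-- **The influence of one site of the row `τ` on the law of `S_t`, without weight.** -/
theorem siF39 (hd : 0 < d) (hρ : EM ρ) (hnc : ∀ c : ℝ, ρ {c} ≠ 1) {β : ℝ} (hβ : 0 < β) :
    ∃ q c : ℝ, 0 < c ∧ c ≤ 1 ∧ ∀ (h : Vec d) (n τ t : ℕ), 1 ≤ τ → τ < t → t ≤ n →
      ∀ (y : Site d) (m : Vec d) (r : ℝ),
        c * (∫ η, pe2 β h η (fun s s' : Fin n → Step d =>
            if pos s τ = y ∧ pos s' τ ≠ y ∧ r < ‖emb (pos s' t) - emb y - m‖ then (1 : ℝ) else 0)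
              ∂(law d ρ)) -
          (∫ η, pe β h η (fun s : Fin n → Step d =>
            if pos s τ = y ∧ r < ‖emb (pos s t) - emb y - m‖ then (1 : ℝ) else 0) ∂(law d ρ)) ≤
        ∫ η, zt ρ q (η (τ, y)) * pe β h η (fun s : Fin n → Step d =>
          if ‖emb (pos s t) - emb y - m‖ ≤ r then (1 : ℝ) else 0) ∂(law d ρ) := by
  obtain ⟨q, c, hc0, hc1, hmain⟩ := scalarI39 hρ hnc hβ
  refine ⟨q, c, hc0, hc1, fun h n τ t hτ htt htn y m r => ?_⟩
  have hτn : τ ≤ n := htt.le.trans htn
  set Fr : (Fin n → Step d) → Prop := fun s => r < ‖emb (pos s t) - emb y - m‖ with hFr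
  have hfe : (fun s : Fin n → Step d => if ‖emb (pos s t) - emb y - m‖ ≤ r then (1 : ℝ) else 0) =
      fun s => if ¬ Fr s then (1 : ℝ) else 0 := by
    funext s
    by_cases h1 : ‖emb (pos s t) - emb y - m‖ ≤ r
    · rw [if_pos h1, if_pos (not_lt.2 h1)]
    · rw [if_neg h1, if_neg (fun h2 => h1 (not_lt.1 h2))]
  rw [hfe]
  have b2 : ∀ s s' : Fin n → Step d, (0 : ℝ) ≤ (if pos s τ = y ∧ pos s' τ ≠ y ∧ Fr s' then (1 : ℝ)
      else 0) ∧ (if pos s τ = y ∧ pos s' τ ≠ y ∧ Fr s' then (1 : ℝ) else 0) ≤ 1 := by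
    intro s s'
    split_ifs <;> constructor <;> norm_num
  have b1 : ∀ s : Fin n → Step d, (0 : ℝ) ≤ (if pos s τ = y ∧ Fr s then (1 : ℝ)
      else 0) ∧ (if pos s τ = y ∧ Fr s then (1 : ℝ) else 0) ≤ 1 := by
    intro s
    split_ifs <;> constructor <;> norm_num
  have b0 : ∀ s : Fin n → Step d, (0 : ℝ) ≤ (if ¬ Fr s then (1 : ℝ) else 0) ∧
      (if ¬ Fr s then (1 : ℝ) else 0) ≤ 1 := by
    intro s
    split_ifs <;> constructor <;> norm_num
  have I2 : Integrable (fun η : Env d => pe2 β h η (fun s s' : Fin n → Step d =>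
      if pos s τ = y ∧ pos s' τ ≠ y ∧ Fr s' then (1 : ℝ) else 0)) (law d ρ) :=
    int_bd39 (meas_pe239 β h _) fun η => pe2_bd39 hd β h η b2
  have I1 : Integrable (fun η : Env d => pe β h η (fun s : Fin n → Step d =>
      if pos s τ = y ∧ Fr s then (1 : ℝ) else 0)) (law d ρ) :=
    int_bd39 (meas_pe39 β h _) fun η => pe_bd39 hd β h η b1
  have I0 : Integrable (fun η : Env d => zt ρ q (η (τ, y)) *
      pe β h η (fun s : Fin n → Step d => if ¬ Fr s then (1 : ℝ) else 0)) (law d ρ) := by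
    refine Integrable.of_bound (((meas_zt39 ρ q).comp (measurable_pi_apply (τ, y))).mul
      (meas_pe39 β h _)).aestronglyMeasurable 1 (Eventually.of_forall fun η => ?_)
    rw [norm_mul, Real.norm_eq_abs, Real.norm_eq_abs]
    have h1 := pe_bd39 hd β h η b0
    rw [abs_of_nonneg h1.1]
    exact mul_le_one₀ (zt_bd39 ρ q _) h1.1 h1.2
  rw [D85.integral_upd (τ, y) I2, D85.integral_upd (τ, y) I1, D85.integral_upd (τ, y) I0,
    ← integral_const_mul, ← integral_sub ((D85.integrable_upd (τ, y) I2).const_mul c)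
      (D85.integrable_upd (τ, y) I1)]
  refine integral_mono (((D85.integrable_upd (τ, y) I2).const_mul c).sub
    (D85.integrable_upd (τ, y) I1)) (D85.integrable_upd (τ, y) I0) fun η => ?_
  obtain ⟨a, b, e, f, he, hea, hf, hfb, hab, hsh⟩ := shape39 hd β h η y hτ hτn Fr
  have h1 := hmain a b e f he hea hf hfb hab
  simp only [Function.update_self]
  have e1 : ∀ r' : ℝ, pe β h (Function.update η (τ, y) r')
      (fun s => if pos s τ = y ∧ Fr s then (1 : ℝ) else 0) = _ := fun r' => (hsh r').1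
  have e2 : ∀ r' : ℝ, pe β h (Function.update η (τ, y) r')
      (fun s => if ¬ Fr s then (1 : ℝ) else 0) = _ := fun r' => (hsh r').2.1
  have e3 : ∀ r' : ℝ, pe2 β h (Function.update η (τ, y) r') (fun s s' => if pos s τ = y ∧
      pos s' τ ≠ y ∧ Fr s' then (1 : ℝ) else 0) = _ := fun r' => (hsh r').2.2
  simp only [e1, e2, e3]
  exact h1

open Classical in
/-- **Leaf I2.** -/
theorem siI39 (hd : 0 < d) (hρ : EM ρ) (hnc : ∀ c : ℝ, ρ {c} ≠ 1) {β : ℝ} (hβ : 0 < β) :
    SiI d ρ β := by
  obtain ⟨q, c, hc0, hc1, hmain⟩ := siF39 (d := d) hd hρ hnc hβ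
  refine ⟨q, c, hc0, hc1, fun h n τ t hτ htt htn y m r => ?_⟩
  refine le_trans ?_ (hmain h n τ t hτ htt htn y m r)
  refine sub_le_sub_right (mul_le_mul_of_nonneg_left ?_ hc0.le) _
  have b2 : ∀ s s' : Fin n → Step d, (0 : ℝ) ≤ (if pos s τ = y ∧ pos s' τ ≠ y ∧
      r < ‖emb (pos s' t) - emb y - m‖ then (1 : ℝ) else 0) ∧ (if pos s τ = y ∧ pos s' τ ≠ y ∧
      r < ‖emb (pos s' t) - emb y - m‖ then (1 : ℝ) else 0) ≤ 1 := by
    intro s s'
    split_ifs <;> constructor <;> norm_num
  refine integral_mono_of_nonneg (Eventually.of_forall fun η => ?_)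
    (int_bd39 (meas_pe239 β h _) fun η => pe2_bd39 hd β h η b2)
    (Eventually.of_forall fun η => ?_)
  · exact mul_nonneg (Real.exp_pos _).le (pe2_bd39 hd β h η b2).1
  · refine mul_le_of_le_one_left (pe2_bd39 hd β h η b2).1 (Real.exp_le_one_iff.2 ?_)
    have := abs_nonneg (η (τ, y))
    nlinarith

end Pool.Agent.W_7d29a1_S90
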