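import Pool.Agent.W_7d29a1_S90.DefsS90
import Pool.Agent.W_7d29a1_Q29.Qf39

/-!
Theorem SUP, leaf V4: the mass of the good sites.
-/

namespace Pool.Agent.W_7d29a1_S90

open MeasureTheory ProbabilityTheory Filter Topology Pool.Agent.W_MP_7d29a1_pr
  Pool.Agent.W_7d29a1_h46 Pool.Agent.W_7d29a1_h46u Pool.Agent.W_7d29a1_D2.B35
  Pool.Agent.W_7d29a1_Q29

variable {d : ℕ} {ρ : Measure ℝ}

/-- The mean of a function of `S_t` as a sum over sites. -/
lemma pe_pos86 (β : ℝ) (h : Vec d) (η : Env d) {n t : ℕ} (ht : t ≤ n) (f : Site d → ℝ) :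
    pe β h η (fun s : Fin n → Step d => f (pos s t)) =
      ∑ y ∈ boxF d n, Qt β h n t y η * f y := by
  classical
  have h1 : ∀ y ∈ boxF d n, Qt β h n t y η * f y =
      (∑ s : Fin n → Step d, (if pos s t = y then wgt β h η s * f y else 0)) / Z β h η n := by
    intro y _
    rw [Qt_eq39 β h ht, div_mul_eq_mul_div, Finset.sum_mul]
    congr 1
    refine Finset.sum_congr rfl fun s _ => ?_
    split_ifs
    · rfl
    · rw [zero_mul]
  rw [Finset.sum_congr rfl h1, ← Finset.sum_div, Finset.sum_comm]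
  unfold pe
  congr 1
  refine Finset.sum_congr rfl fun s _ => ?_
  rw [Finset.sum_ite_eq, if_pos (pos_mem_boxF39 s ht)]

lemma int_Qt86 [IsProbabilityMeasure ρ] (β : ℝ) (h : Vec d) {n t : ℕ} (ht : t ≤ n) (y : Site d) :
    Integrable (Qt β h n t y) (law d ρ) := by
  refine Integrable.mono' (integrable_const 1) (measurable_Qt39 β h n t y).aestronglyMeasurable
    (Eventually.of_forall fun η => ?_)
  rw [Real.norm_eq_abs, abs_of_nonneg (Qt_nonneg39 β h n t y η)]
  exact Qt_le_one39 β h ht y η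

lemma Sm_eq86 (ρ : Measure ℝ) (β : ℝ) (h e : Vec d) {n t : ℕ} (ht : t ≤ n) (a : ℝ) :
    Sm ρ β h e n t a =
      ∫ η, ∑ y ∈ boxF d n, Qt β h n t y η * (inner ℝ e (emb y) - a) ^ 2 ∂(law d ρ) := by
  unfold Sm
  refine integral_congr_ae (Eventually.of_forall fun η => ?_)
  exact pe_pos86 β h η ht fun y => (inner ℝ e (emb y) - a) ^ 2

open Classical in
/-- Chebyshev. -/
lemma cheb86 [IsProbabilityMeasure ρ] (β : ℝ) (h e : Vec d) {n t : ℕ} (ht : t ≤ n) {a r B : ℝ}
    (hr : 0 < r) (hB : Sm ρ β h e n t a ≤ B) (G : Finset (Site d)) (hG : G ⊆ boxF d n)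
    (hfar : ∀ y ∈ G, r ≤ |inner ℝ e (emb y) - a|) :
    ∫ η, ∑ y ∈ G, Qt β h n t y η ∂(law d ρ) ≤ B / r ^ 2 := by
  rw [le_div_iff₀ (by positivity), ← integral_mul_const]
  rw [Sm_eq86 ρ β h e ht a] at hB
  refine le_trans (integral_mono ?_ ?_ fun η => ?_) hB
  · exact (integrable_finsetSum _ fun y _ => int_Qt86 β h ht y).mul_const _
  · exact integrable_finsetSum _ fun y _ => (int_Qt86 β h ht y).mul_const _
  · show (∑ y ∈ G, Qt β h n t y η) * r ^ 2 ≤
      ∑ y ∈ boxF d n, Qt β h n t y η * (inner ℝ e (emb y) - a) ^ 2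
    rw [Finset.sum_mul]
    refine (Finset.sum_le_sum fun y hy => ?_).trans
      (Finset.sum_le_sum_of_subset_of_nonneg hG fun y _ _ =>
        mul_nonneg (Qt_nonneg39 β h n t y η) (sq_nonneg _))
    refine mul_le_mul_of_nonneg_left ?_ (Qt_nonneg39 β h n t y η)
    rw [← sq_abs (inner ℝ e (emb y) - a)]
    exact pow_le_pow_left₀ hr.le (hfar y hy) 2

/-- Leaf V4: the mass of the good sites. -/
theorem stM86 [IsProbabilityMeasure ρ] (hd : 0 < d) (β : ℝ) : StM d ρ β := by
  classical
  intro h h' e n t c C r B he ht1 htn hc hC hr hsep hS hS'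
  set F : ℝ := Ft ρ β h e n t with hF
  set F' : ℝ := Ft ρ β h' e n t with hF'
  set G : Finset (Site d) := (boxF d n).filter fun y => |inner ℝ e (emb y) - F| < r with hGdef
  set S : Set (ℕ × Site d) := Pa d (t - 1) with hSdef
  have hGsub : G ⊆ boxF d n := Finset.filter_subset _ _
  -- integrability
  have hbd : ∀ (k : Vec d) (y : Site d) (η : Env d), |Qt β k n t y η| ≤ 1 := fun k y η => by
    rw [abs_of_nonneg (Qt_nonneg39 β k n t y η)]
    exact Qt_le_one39 β k htn y η
  have hcEm : ∀ (k : Vec d) (y : Site d), Measurable (cE ρ S (Qt β k n t y)) := fun k y =>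
    measurable_cE (measurable_Qt39 β k n t y) S
  have hcEi : ∀ (k : Vec d) (y : Site d), Integrable (cE ρ S (Qt β k n t y)) (law d ρ) :=
    fun k y => Integrable.mono' (integrable_const 1) (hcEm k y).aestronglyMeasurable
      (Eventually.of_forall fun η => cE_abs_le (hbd k y) S η)
  have hawi : ∀ y : Site d, Integrable (aw ρ β h h' n t c C y) (law d ρ) := fun y => by
    refine Integrable.mono' (g := fun η => c * |cE ρ S (Qt β h n t y) η| +
      C * |cE ρ S (Qt β h' n t y) η|) ?_ ?_ (Eventually.of_forall fun η => ?_)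
    · exact ((hcEi h y).abs.const_mul c).add ((hcEi h' y).abs.const_mul C)
    · unfold aw
      exact (measurable_const.max (((hcEm h y).const_mul c).sub
        ((hcEm h' y).const_mul C))).aestronglyMeasurable
    · have h1 : 0 ≤ aw ρ β h h' n t c C y η := le_max_left _ _
      rw [Real.norm_eq_abs, abs_of_nonneg h1]
      unfold aw
      have h2 := mul_le_mul_of_nonneg_left (le_abs_self (cE ρ S (Qt β h n t y) η)) hc
      have h3 := mul_le_mul_of_nonneg_left (neg_abs_le (cE ρ S (Qt β h' n t y) η)) hC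
      have h4 : 0 ≤ c * |cE ρ S (Qt β h n t y) η| := mul_nonneg hc (abs_nonneg _)
      have h5 : 0 ≤ C * |cE ρ S (Qt β h' n t y) η| := mul_nonneg hC (abs_nonneg _)
      refine max_le (by linarith) ?_
      show c * cE ρ S (Qt β h n t y) η - C * cE ρ S (Qt β h' n t y) η ≤ _
      nlinarith
  -- the two masses
  have hmass : ∀ k : Vec d, ∫ η, ∑ y ∈ G, cE ρ S (Qt β k n t y) η ∂(law d ρ) =
      ∫ η, ∑ y ∈ G, Qt β k n t y η ∂(law d ρ) := fun k => by
    rw [integral_finsetSum _ fun y _ => hcEi k y,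
      integral_finsetSum _ fun y _ => int_Qt86 β k htn y]
    exact Finset.sum_congr rfl fun y _ => int_cE S (int_Qt86 β k htn y)
  have hgood : 1 - B / r ^ 2 ≤ ∫ η, ∑ y ∈ G, Qt β h n t y η ∂(law d ρ) := by
    have h1 := cheb86 (ρ := ρ) β h e htn hr hS ((boxF d n).filter fun y => ¬ |inner ℝ e (emb y) - F| < r)
      (Finset.filter_subset _ _) (fun y hy => not_lt.1 (Finset.mem_filter.1 hy).2)
    have h2 : ∫ η, (∑ y ∈ G, Qt β h n t y η) ∂(law d ρ) +
        ∫ η, (∑ y ∈ (boxF d n).filter (fun y => ¬ |inner ℝ e (emb y) - F| < r),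
          Qt β h n t y η) ∂(law d ρ) = 1 := by
      rw [← integral_add (integrable_finsetSum _ fun y _ => int_Qt86 β h htn y)
        (integrable_finsetSum _ fun y _ => int_Qt86 β h htn y)]
      have h3 : ∀ η : Env d, (∑ y ∈ G, Qt β h n t y η) +
          ∑ y ∈ (boxF d n).filter (fun y => ¬ |inner ℝ e (emb y) - F| < r), Qt β h n t y η = 1 := by
        intro η
        rw [Finset.sum_filter_add_sum_filter_not]
        exact Qt_sum_box39 hd β h htn htn η
      simp only [h3]
      simp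
    linarith
  have hbad : ∫ η, ∑ y ∈ G, Qt β h' n t y η ∂(law d ρ) ≤ B / r ^ 2 := by
    refine cheb86 (ρ := ρ) β h' e htn hr hS' G hGsub fun y hy => ?_
    have h1 : |inner ℝ e (emb y) - F| < r := (Finset.mem_filter.1 hy).2
    have h2 : |F - F'| ≤ |inner ℝ e (emb y) - F| + |inner ℝ e (emb y) - F'| := by
      have h3 : F - F' = -(inner ℝ e (emb y) - F) + (inner ℝ e (emb y) - F') := by ring
      rw [h3]
      exact (abs_add_le _ _).trans (by rw [abs_neg])
    linarith
  -- the sum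
  have hlow : ∫ η, (c * (∑ y ∈ G, cE ρ S (Qt β h n t y) η) -
      C * ∑ y ∈ G, cE ρ S (Qt β h' n t y) η) ∂(law d ρ) ≤
      ∫ η, ∑ y ∈ boxF d n, aw ρ β h h' n t c C y η ∂(law d ρ) := by
    refine integral_mono ?_ (integrable_finsetSum _ fun y _ => hawi y) fun η => ?_
    · exact ((integrable_finsetSum _ fun y _ => hcEi h y).const_mul c).sub
        ((integrable_finsetSum _ fun y _ => hcEi h' y).const_mul C)
    · show c * (∑ y ∈ G, cE ρ S (Qt β h n t y) η) - C * ∑ y ∈ G, cE ρ S (Qt β h' n t y) η ≤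
        ∑ y ∈ boxF d n, aw ρ β h h' n t c C y η
      rw [Finset.mul_sum, Finset.mul_sum, ← Finset.sum_sub_distrib]
      exact (Finset.sum_le_sum fun y _ => le_max_right _ _).trans
        (Finset.sum_le_sum_of_subset_of_nonneg hGsub fun y _ _ => le_max_left _ _)
  refine le_trans ?_ hlow
  rw [integral_sub ((integrable_finsetSum _ fun y _ => hcEi h y).const_mul c)
    ((integrable_finsetSum _ fun y _ => hcEi h' y).const_mul C), integral_const_mul,
    integral_const_mul, hmass, hmass]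
  have h1 := mul_le_mul_of_nonneg_left hgood hc
  have h2 := mul_le_mul_of_nonneg_left hbad hC
  linarith

end Pool.Agent.W_7d29a1_S90
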