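import Pool.Agent.W_7d29a1_S90.Top17

/-!
Theorem SUP for an arbitrary probability space.
-/

namespace Pool.Agent.W_7d29a1_S90

open MeasureTheory ProbabilityTheory Filter Topology Pool.Agent.W_MP_7d29a1_pr
  Pool.Agent.W_7d29a1_h46 Pool.Agent.W_7d29a1_h46u Pool.Agent.W_7d29a1_D2.B35
  Pool.Agent.W_7d29a1_Q29

variable {Ω : Type*} [MeasurableSpace Ω] {μ : Measure Ω} [IsProbabilityMeasure μ] {d : ℕ}
  {ρ : Measure ℝ} [IsProbabilityMeasure ρ] {ω : ℕ × Site d → Ω → ℝ} {β : ℝ}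

lemma PolT_single17 (β : ℝ) (h : Vec d) (η : Env d) {n : ℕ} (s : Fin n → Step d) :
    PolT β h η {s} = wgt β h η s / Z β h η n := by
  have h1 : ZT β h η ({s} : Set (Fin n → Step d)) = wgt β h η s := by
    classical
    unfold ZT
    simp only [Set.mem_singleton_iff]
    rw [Finset.sum_ite_eq' Finset.univ s fun s => wgt β h η s]
    simp
  unfold PolT
  rw [h1]
  rfl

/-- Transfer of the mean of a function of the walk. -/
lemma tr17 (hd : 0 < d) (hω : IID μ ρ ω) (h : Vec d) {n : ℕ} (f : (Fin n → Step d) → ℝ) :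
    ∫ x, ∑ s : Fin n → Step d, PolT β h (fun p => ω p x) {s} * f s ∂μ =
      ∫ η, pe β h η f ∂(law d ρ) := by
  have hmp := mp_env hω
  have hm : Measurable fun η : Env d => pe β h η f := by
    unfold pe Z
    exact (Finset.measurable_sum _ fun s _ => (measurable_wgt β h s).mul_const _).div
      (measurable_ZT β h _)
  rw [← hmp.map_eq, integral_map hmp.measurable.aemeasurable hm.aestronglyMeasurable]
  refine integral_congr_ae (ae_of_all _ fun x => ?_)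
  simp only
  unfold pe
  rw [Finset.sum_div]
  refine Finset.sum_congr rfl fun s _ => ?_
  rw [PolT_single17]
  ring

/-- **Superdiffusive windows in dimension two**, from the main statement. -/
theorem topP17 (hω : IID μ ρ ω) (hρ : EM ρ) (hnc : ∀ c : ℝ, ρ {c} ≠ 1) (hβ : 0 < β)
    (hM : MainS ρ β) (hd : d = 2) {α : ℝ} (hα : α < 1) :
    (∀ U : Set (Vec d), IsOpen U → U.Nonempty → ∀ᶠ n : ℕ in atTop, ∃ h ∈ U, ∃ τ t : ℕ,
      τ < t ∧ t ≤ n ∧ (n : ℝ) ^ α ≤ (t : ℝ) - τ ∧ ∀ m : Vec d,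
        Real.log n ^ ((1 : ℝ) / 20) * ((t : ℝ) - τ) ^ 2 ≤
          ∫ x, ∑ s : Fin n → Step d, PolT β h (fun p => ω p x) {s} *
            ‖emb (pos s t) - emb (pos s τ) - m‖ ^ 4 ∂μ) ∧
    ∀ᶠ h : Vec d in residual (Vec d), ∃ᶠ n : ℕ in atTop, ∃ τ t : ℕ,
      τ < t ∧ t ≤ n ∧ (n : ℝ) ^ α ≤ (t : ℝ) - τ ∧ ∀ m : Vec d,
        Real.log n ^ ((1 : ℝ) / 20) * ((t : ℝ) - τ) ^ 2 ≤
          ∫ x, ∑ s : Fin n → Step d, PolT β h (fun p => ω p x) {s} *
            ‖emb (pos s t) - emb (pos s τ) - m‖ ^ 4 ∂μ := by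
  subst hd
  have key : ∀ (h : Vec 2) (n : ℕ) (R : ℝ), ¬ W4 ρ β h n α R → ∃ τ t : ℕ,
      τ < t ∧ t ≤ n ∧ (n : ℝ) ^ α ≤ (t : ℝ) - τ ∧ ∀ m : Vec 2, R * ((t : ℝ) - τ) ^ 2 ≤
          ∫ x, ∑ s : Fin n → Step 2, PolT β h (fun p => ω p x) {s} *
            ‖emb (pos s t) - emb (pos s τ) - m‖ ^ 4 ∂μ := by
    intro h n R hW
    unfold W4 at hW
    push Not at hW
    obtain ⟨τ, t, h1, h2, h3, h4⟩ := hW
    refine ⟨τ, t, h1, h2, h3, fun m => ?_⟩
    have h5 := tr17 (β := β) (by norm_num : 0 < 2) hω h (fun s : Fin n → Step 2 => inc τ t m s ^ 4)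
    unfold inc at h5
    rw [h5]
    exact (h4 m).le
  refine ⟨fun U hU hne => ?_, ?_⟩
  · filter_upwards [topA17 hρ hnc hβ hM hU hne hα, log17, eventually_ge_atTop 1] with n hn hl hn1
    obtain ⟨h, hh, hW⟩ := hn
    obtain ⟨τ, t, h1, h2, h3, h4⟩ := key h n _ hW
    refine ⟨h, hh, τ, t, h1, h2, h3, fun m => le_trans ?_ (h4 m)⟩
    have h5 : 0 ≤ Real.log n := Real.log_natCast_nonneg n
    have h6 : Real.log n ^ ((1 : ℝ) / 20) ≤ Real.log n ^ ((1 : ℝ) / 18) := by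
      have := Real.rpow_nonneg h5 ((1 : ℝ) / 20)
      linarith
    exact mul_le_mul_of_nonneg_right h6 (sq_nonneg _)
  · filter_upwards [topB17 hρ hnc hβ hM] with h hh
    exact (hh α hα).mono fun n hn => key h n _ hn

end Pool.Agent.W_7d29a1_S90
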