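import Pool.Agent.W_7d29a1_Q29.Ce39

/-!
Information: the entropy of a conditional law drops by at least what a test function sees.
-/

namespace Pool.Agent.W_7d29a1_S90

open MeasureTheory ProbabilityTheory Filter Topology Pool.Agent.W_MP_7d29a1_pr
  Pool.Agent.W_7d29a1_h46 Pool.Agent.W_7d29a1_h46u Pool.Agent.W_7d29a1_Q29

variable {d : ℕ} {ρ : Measure ℝ}

/-- The Young inequality of the entropy with a test value of size at most one. -/
lemma young99 {p q f : ℝ} (hp : 0 ≤ p) (hq : 0 < q) (hf : |f| ≤ 1) :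
    f * (p - q) - f ^ 2 * q ≤ p * Real.log p - p * Real.log q - p + q := by
  have h1 : Real.exp f ≤ 1 + f + f ^ 2 := by
    have := abs_le.1 (Real.abs_exp_sub_one_sub_id_le hf)
    linarith [this.2]
  have h2 : p * f - q * Real.exp f + q ≤ p * Real.log p - p * Real.log q - p + q := by
    rcases hp.eq_or_lt with hp0 | hp0
    · subst hp0
      have : 0 ≤ q * Real.exp f := by positivity
      simp only [zero_mul, zero_sub, sub_zero, zero_add]
      linarith
    · have h3 : Real.log (q * Real.exp f / p) ≤ q * Real.exp f / p - 1 :=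
        Real.log_le_sub_one_of_pos (by positivity)
      rw [Real.log_div (by positivity) hp0.ne', Real.log_mul hq.ne' (Real.exp_pos f).ne',
        Real.log_exp] at h3
      have h4 := mul_le_mul_of_nonneg_left h3 hp0.le
      have h5 : p * (q * Real.exp f / p - 1) = q * Real.exp f - p := by
        field_simp
      rw [h5] at h4
      linarith
  have h3 : q * Real.exp f ≤ q * (1 + f + f ^ 2) := mul_le_mul_of_nonneg_left h1 hq.le
  nlinarith

/-- The regularised form: no positivity of `q` is needed. -/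
lemma youngE99 {p q f ε : ℝ} (hp : 0 ≤ p) (hq : 0 ≤ q) (hf : |f| ≤ 1) (hε : 0 < ε) :
    f * (p - q) - f ^ 2 * q - 3 * ε ≤ p * Real.log p - p * Real.log (q + ε) - p + q := by
  have h1 := young99 hp (by linarith : 0 < q + ε) hf
  have h2 := abs_le.1 hf
  have h3 : f ^ 2 ≤ 1 := by nlinarith
  nlinarith

lemma qlog99 {q ε : ℝ} (hq : 0 ≤ q) (hε : 0 < ε) :
    q * Real.log q ≤ q * Real.log (q + ε) := by
  rcases hq.eq_or_lt with hq0 | hq0
  · subst hq0; simp
  · exact mul_le_mul_of_nonneg_left (Real.log_le_log hq0 (by linarith)) hq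

lemma logb99 {q ε : ℝ} (hq : 0 ≤ q) (hq1 : q ≤ 1) (hε : 0 < ε) (hε1 : ε ≤ 1) :
    |Real.log (q + ε)| ≤ 1 / ε := by
  have h1 : Real.log (q + ε) ≤ q + ε - 1 := Real.log_le_sub_one_of_pos (by linarith)
  have h2 : Real.log ε ≤ Real.log (q + ε) := Real.log_le_log hε (by linarith)
  have h3 : Real.log (1 / ε) ≤ 1 / ε - 1 := Real.log_le_sub_one_of_pos (by positivity)
  rw [Real.log_div one_ne_zero hε.ne', Real.log_one] at h3
  have h4 : 1 ≤ 1 / ε := by rw [le_div_iff₀ hε]; linarith
  rw [abs_le]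
  constructor <;> linarith

/-- **One site set more**: the mean entropy of the conditional law drops by at least
`E sum f (p - q) - E sum f ^ 2 q` for every test function of size at most one. -/
theorem info99 [IsProbabilityMeasure ρ] {ι : Type*} (B : Finset ι) {F : ι → Env d → ℝ}
    (hm : ∀ x, Measurable (F x)) (h0 : ∀ x η, 0 ≤ F x η) (h1 : ∀ x η, F x η ≤ 1)
    {S S' : Set (ℕ × Site d)} (hS : S ⊆ S') (f : ι → Env d → ℝ) (hfm : ∀ x, Measurable (f x))
    (hf : ∀ x η, |f x η| ≤ 1) :
    ∫ η, ∑ x ∈ B, (f x η * (cE ρ S' (F x) η - cE ρ S (F x) η) -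
        f x η ^ 2 * cE ρ S (F x) η) ∂(law d ρ) ≤
      ∫ η, ∑ x ∈ B, Real.negMulLog (cE ρ S (F x) η) ∂(law d ρ) -
        ∫ η, ∑ x ∈ B, Real.negMulLog (cE ρ S' (F x) η) ∂(law d ρ) := by
  classical
  have hp0 : ∀ (T : Set (ℕ × Site d)) x η, 0 ≤ cE ρ T (F x) η := fun T x η =>
    cE_nonneg (h0 x) T η
  have hp1 : ∀ (T : Set (ℕ × Site d)) x η, cE ρ T (F x) η ≤ 1 := fun T x η =>
    cE_le (hm x) (h0 x) (h1 x) T η
  have hpm : ∀ (T : Set (ℕ × Site d)) x, Measurable (cE ρ T (F x)) := fun T x =>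
    measurable_cE (hm x) T
  have hn0 : ∀ (T : Set (ℕ × Site d)) x η, 0 ≤ Real.negMulLog (cE ρ T (F x) η) := fun T x η =>
    Real.negMulLog_nonneg (hp0 T x η) (hp1 T x η)
  have hn1 : ∀ (T : Set (ℕ × Site d)) x η, Real.negMulLog (cE ρ T (F x) η) ≤ 1 := by
    intro T x η
    unfold Real.negMulLog
    rcases (hp0 T x η).eq_or_lt with h | h
    · rw [← h]; simp
    · have h2 := Real.one_sub_inv_le_log_of_pos h
      have h3 : cE ρ T (F x) η * (1 - (cE ρ T (F x) η)⁻¹) ≤
          cE ρ T (F x) η * Real.log (cE ρ T (F x) η) := mul_le_mul_of_nonneg_left h2 h.le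
      have h4 : cE ρ T (F x) η * (1 - (cE ρ T (F x) η)⁻¹) = cE ρ T (F x) η - 1 := by
        field_simp
      nlinarith
  have hnm : ∀ (T : Set (ℕ × Site d)) x, Measurable fun η => Real.negMulLog (cE ρ T (F x) η) :=
    fun T x => Real.continuous_negMulLog.measurable.comp (hpm T x)
  have hni : ∀ (T : Set (ℕ × Site d)) x,
      Integrable (fun η => Real.negMulLog (cE ρ T (F x) η)) (law d ρ) := fun T x =>
    Integrable.mono' (integrable_const 1) (hnm T x).aestronglyMeasurable
      (Eventually.of_forall fun η => by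
        rw [Real.norm_eq_abs, abs_of_nonneg (hn0 T x η)]; exact hn1 T x η)
  have hpi : ∀ (T : Set (ℕ × Site d)) x, Integrable (cE ρ T (F x)) (law d ρ) := fun T x =>
    Integrable.mono' (integrable_const 1) (hpm T x).aestronglyMeasurable
      (Eventually.of_forall fun η => by
        rw [Real.norm_eq_abs, abs_of_nonneg (hp0 T x η)]; exact hp1 T x η)
  have hfi : ∀ x, Integrable (fun η => f x η * (cE ρ S' (F x) η - cE ρ S (F x) η) -
      f x η ^ 2 * cE ρ S (F x) η) (law d ρ) := by
    intro x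
    refine Integrable.mono' (integrable_const 2)
      (((hfm x).mul ((hpm S' x).sub (hpm S x))).sub
        (((hfm x).pow_const 2).mul (hpm S x))).aestronglyMeasurable
      (Eventually.of_forall fun η => ?_)
    have a1 := abs_le.1 (hf x η)
    have a2 : f x η ^ 2 ≤ 1 := by nlinarith
    have a3 : |f x η * (cE ρ S' (F x) η - cE ρ S (F x) η)| ≤ 1 := by
      rw [abs_mul]
      have : |cE ρ S' (F x) η - cE ρ S (F x) η| ≤ 1 := by
        rw [abs_le]
        constructor <;> linarith [hp0 S x η, hp0 S' x η, hp1 S x η, hp1 S' x η]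
      calc _ ≤ 1 * 1 := mul_le_mul (hf x η) this (abs_nonneg _) zero_le_one
        _ = 1 := one_mul 1
    have a4 : |f x η ^ 2 * cE ρ S (F x) η| ≤ 1 := by
      rw [abs_of_nonneg (mul_nonneg (sq_nonneg _) (hp0 S x η))]
      calc _ ≤ 1 * 1 := mul_le_mul a2 (hp1 S x η) (hp0 S x η) zero_le_one
        _ = 1 := one_mul 1
    rw [Real.norm_eq_abs]
    calc _ ≤ _ := abs_sub _ _
      _ ≤ 1 + 1 := add_le_add a3 a4
      _ = 2 := by norm_num
  -- the regularised logarithm of `q`
  have hlm : ∀ (ε : ℝ) x, Measurable fun η => Real.log (cE ρ S (F x) η + ε) := fun ε x =>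
    Real.measurable_log.comp ((hpm S x).add_const ε)
  have hli : ∀ (T : Set (ℕ × Site d)) (ε : ℝ), 0 < ε → ε ≤ 1 → ∀ x,
      Integrable (fun η => cE ρ T (F x) η * Real.log (cE ρ S (F x) η + ε)) (law d ρ) := by
    intro T ε hε hε1 x
    refine Integrable.mono' (integrable_const (1 / ε))
      ((hpm T x).mul (hlm ε x)).aestronglyMeasurable (Eventually.of_forall fun η => ?_)
    rw [Real.norm_eq_abs, abs_mul, abs_of_nonneg (hp0 T x η)]
    calc _ ≤ 1 * (1 / ε) := mul_le_mul (hp1 T x η)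
            (logb99 (hp0 S x η) (hp1 S x η) hε hε1) (abs_nonneg _) zero_le_one
      _ = 1 / ε := one_mul _
  have htow : ∀ (ε : ℝ), 0 < ε → ε ≤ 1 → ∀ x,
      ∫ η, cE ρ S' (F x) η * Real.log (cE ρ S (F x) η + ε) ∂(law d ρ) =
        ∫ η, cE ρ S (F x) η * Real.log (cE ρ S (F x) η + ε) ∂(law d ρ) := by
    intro ε hε hε1 x
    have hd1 : DependsOn (fun η => Real.log (cE ρ S (F x) η + ε)) S := by
      intro η η' h
      show Real.log (cE ρ S (F x) η + ε) = Real.log (cE ρ S (F x) η' + ε)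
      rw [cE_dep S (F x) h]
    have hd2 : DependsOn (fun η => Real.log (cE ρ S (F x) η + ε)) S' := by
      intro η η' h
      exact hd1 fun p hp => h p (hS hp)
    have hi : Integrable (fun η => F x η * Real.log (cE ρ S (F x) η + ε)) (law d ρ) := by
      refine Integrable.mono' (integrable_const (1 / ε))
        ((hm x).mul (hlm ε x)).aestronglyMeasurable (Eventually.of_forall fun η => ?_)
      rw [Real.norm_eq_abs, abs_mul, abs_of_nonneg (h0 x η)]
      calc _ ≤ 1 * (1 / ε) := mul_le_mul (h1 x η)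
              (logb99 (hp0 S x η) (hp1 S x η) hε hε1) (abs_nonneg _) zero_le_one
        _ = 1 / ε := one_mul _
    rw [← int_mul_cE S' hi hd2, int_mul_cE S hi hd1]
  have hmean : ∀ x, ∫ η, cE ρ S' (F x) η ∂(law d ρ) = ∫ η, cE ρ S (F x) η ∂(law d ρ) := by
    intro x
    have hi : Integrable (F x) (law d ρ) :=
      Integrable.mono' (integrable_const 1) (hm x).aestronglyMeasurable
        (Eventually.of_forall fun η => by
          rw [Real.norm_eq_abs, abs_of_nonneg (h0 x η)]; exact h1 x η)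
    rw [int_cE S' hi, int_cE S hi]
  -- one `x`
  have hone : ∀ (ε : ℝ), 0 < ε → ε ≤ 1 → ∀ x,
      ∫ η, (f x η * (cE ρ S' (F x) η - cE ρ S (F x) η) - f x η ^ 2 * cE ρ S (F x) η)
        ∂(law d ρ) - 3 * ε ≤
      ∫ η, Real.negMulLog (cE ρ S (F x) η) ∂(law d ρ) -
        ∫ η, Real.negMulLog (cE ρ S' (F x) η) ∂(law d ρ) := by
    intro ε hε hε1 x
    have a1 : ∫ η, ((f x η * (cE ρ S' (F x) η - cE ρ S (F x) η) -
        f x η ^ 2 * cE ρ S (F x) η) - 3 * ε) ∂(law d ρ) ≤
        ∫ η, ((-Real.negMulLog (cE ρ S' (F x) η) -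
          cE ρ S' (F x) η * Real.log (cE ρ S (F x) η + ε)) -
          (cE ρ S' (F x) η - cE ρ S (F x) η)) ∂(law d ρ) := by
      refine integral_mono ((hfi x).sub (integrable_const _))
        (((hni S' x).neg.sub (hli S' ε hε hε1 x)).sub ((hpi S' x).sub (hpi S x)))
        (fun η => ?_)
      have := youngE99 (hp0 S' x η) (hp0 S x η) (hf x η) hε
      simp only [Real.negMulLog] at this ⊢
      linarith
    have e1 : ∫ η, ((f x η * (cE ρ S' (F x) η - cE ρ S (F x) η) -
        f x η ^ 2 * cE ρ S (F x) η) - 3 * ε) ∂(law d ρ) =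
        ∫ η, (f x η * (cE ρ S' (F x) η - cE ρ S (F x) η) - f x η ^ 2 * cE ρ S (F x) η)
        ∂(law d ρ) - 3 * ε := by
      rw [integral_sub (hfi x) (integrable_const _)]
      simp
    have e2 : ∫ η, ((-Real.negMulLog (cE ρ S' (F x) η) -
          cE ρ S' (F x) η * Real.log (cE ρ S (F x) η + ε)) -
          (cE ρ S' (F x) η - cE ρ S (F x) η)) ∂(law d ρ) =
        -∫ η, Real.negMulLog (cE ρ S' (F x) η) ∂(law d ρ) -
          ∫ η, cE ρ S (F x) η * Real.log (cE ρ S (F x) η + ε) ∂(law d ρ) := by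
      have i1 : Integrable (fun η => -Real.negMulLog (cE ρ S' (F x) η)) (law d ρ) := (hni S' x).neg
      have i2 := hli S' ε hε hε1 x
      have i3 : Integrable (fun η => -Real.negMulLog (cE ρ S' (F x) η) -
          cE ρ S' (F x) η * Real.log (cE ρ S (F x) η + ε)) (law d ρ) := i1.sub i2
      have i4 : Integrable (fun η => cE ρ S' (F x) η - cE ρ S (F x) η) (law d ρ) :=
        (hpi S' x).sub (hpi S x)
      rw [integral_sub i3 i4, integral_sub i1 i2, integral_sub (hpi S' x) (hpi S x),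
        integral_neg, htow ε hε hε1 x, hmean x]
      ring
    have e3 : -∫ η, Real.negMulLog (cE ρ S (F x) η) ∂(law d ρ) ≤
        ∫ η, cE ρ S (F x) η * Real.log (cE ρ S (F x) η + ε) ∂(law d ρ) := by
      rw [← integral_neg]
      refine integral_mono (hni S x).neg (hli S ε hε hε1 x) (fun η => ?_)
      have := qlog99 (hp0 S x η) hε
      simp only [Real.negMulLog]
      linarith
    rw [e1, e2] at a1
    linarith
  have hone0 : ∀ x,
      ∫ η, (f x η * (cE ρ S' (F x) η - cE ρ S (F x) η) - f x η ^ 2 * cE ρ S (F x) η)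
        ∂(law d ρ) ≤
      ∫ η, Real.negMulLog (cE ρ S (F x) η) ∂(law d ρ) -
        ∫ η, Real.negMulLog (cE ρ S' (F x) η) ∂(law d ρ) := by
    intro x
    refine le_of_forall_pos_le_add fun δ hδ => ?_
    have := hone (min 1 (δ / 3)) (by positivity) (min_le_left _ _) x
    have h2 : min 1 (δ / 3) ≤ δ / 3 := min_le_right _ _
    linarith
  rw [integral_finsetSum B fun x _ => hfi x, integral_finsetSum B fun x _ => hni S x,
    integral_finsetSum B fun x _ => hni S' x, ← Finset.sum_sub_distrib]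
  exact Finset.sum_le_sum fun x _ => hone0 x

end Pool.Agent.W_7d29a1_S90
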