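import Pool.Agent.W_7d29a1_S90.DefsS90
import Pool.Agent.W_7d29a1_S90.Info99
import Pool.Agent.W_7d29a1_Q29.Qf39
import Pool.Agent.W_7d29a1_Q29.Brid72

/-!
Leaf DuI: the information of one row, dual form.
-/

namespace Pool.Agent.W_7d29a1_S90

open MeasureTheory ProbabilityTheory Filter Topology Pool.Agent.W_MP_7d29a1_pr
  Pool.Agent.W_7d29a1_h46 Pool.Agent.W_7d29a1_h46u Pool.Agent.W_7d29a1_D2.B35
  Pool.Agent.W_7d29a1_Q29

variable {d : ℕ} {ρ : Measure ℝ}

open Classical in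
/-- The polymer mean of a function of `S_t`. -/
lemma pe_pos99 (β : ℝ) (h : Vec d) (η : Env d) {n t : ℕ} (ht : t ≤ n) (G : Site d → ℝ) :
    pe β h η (fun s : Fin n → Step d => G (pos s t)) =
      ∑ x ∈ boxF d n, Qt β h n t x η * G x := by
  have h1 : ∀ x ∈ boxF d n, Qt β h n t x η * G x =
      (∑ s : Fin n → Step d, (if pos s t = x then wgt β h η s * G x else 0)) / Z β h η n := by
    intro x _
    rw [Qt_eq39 β h ht, div_mul_eq_mul_div, Finset.sum_mul]
    simp only [ite_mul, zero_mul]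
  rw [Finset.sum_congr rfl h1, ← Finset.sum_div, Finset.sum_comm]
  unfold pe
  congr 1
  refine Finset.sum_congr rfl fun s _ => ?_
  rw [Finset.sum_ite_eq, if_pos (pos_mem_boxF39 s ht)]

/-- The law of one site. -/
lemma mp_site99 [IsProbabilityMeasure ρ] (p : ℕ × Site d) :
    MeasurePreserving (fun η : Env d => η p) (law d ρ) ρ := by
  unfold law
  exact measurePreserving_eval_infinitePi (fun _ => ρ) p

lemma measurable_zt99 (q : ℝ) : Measurable (zt ρ q) := by
  classical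
  unfold zt
  exact (Measurable.ite measurableSet_Ioi measurable_const measurable_const).sub_const _

lemma zt_abs99 [IsProbabilityMeasure ρ] (q v : ℝ) : |zt ρ q v| ≤ 1 := by
  classical
  have h1 : 0 ≤ ρ.real (Set.Ioi q) := measureReal_nonneg
  have h2 : ρ.real (Set.Ioi q) ≤ 1 := measureReal_le_one
  unfold zt
  rw [abs_le]
  split_ifs <;> constructor <;> linarith

lemma zt_int99 [IsProbabilityMeasure ρ] (q : ℝ) : ∫ v, zt ρ q v ∂ρ = 0 := by
  classical
  have h1 : (fun v => zt ρ q v) = fun v => (Set.Ioi q).indicator (fun _ => (1 : ℝ)) v -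
      ρ.real (Set.Ioi q) := by
    funext v
    unfold zt
    simp only [Set.indicator, Set.mem_Ioi]
  rw [h1, integral_sub ((integrable_const (1 : ℝ)).indicator measurableSet_Ioi)
    (integrable_const _), integral_indicator measurableSet_Ioi]
  simp

lemma zt_law99 [IsProbabilityMeasure ρ] (q : ℝ) (p : ℕ × Site d) :
    ∫ η : Env d, zt ρ q (η p) ∂(law d ρ) = 0 := by
  rw [LawU_integral (F := zt ρ q) (mp_site99 p) (measurable_zt99 q).aestronglyMeasurable]
  exact zt_int99 q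

/-- Different sites are uncorrelated. -/
lemma zt_pair99 [IsProbabilityMeasure ρ] (q : ℝ) {p p' : ℕ × Site d} (hp : p ≠ p') :
    ∫ η : Env d, zt ρ q (η p) * zt ρ q (η p') ∂(law d ρ) = 0 := by
  have h1 := integral_indep (ρ := ρ) ({p} : Set (ℕ × Site d))
    (F := fun η : Env d => zt ρ q (η p)) (G := fun η : Env d => zt ρ q (η p'))
    ((measurable_zt99 q).comp (measurable_pi_apply p))
    ((measurable_zt99 q).comp (measurable_pi_apply p'))
    (fun η η' h => by
      show zt ρ q (η p) = zt ρ q (η' p)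
      rw [h p rfl])
    (fun η η' h => by
      show zt ρ q (η p') = zt ρ q (η' p')
      rw [h p' (fun h2 => hp (Set.mem_singleton_iff.1 h2).symm)])
  rw [h1, zt_law99, zero_mul]

/-- The local average of the centred indicators of the row `τ` over the finite set `Y`. -/
noncomputable def fa99 (ρ : Measure ℝ) (q g : ℝ) (τ : ℕ) (Y : Finset (Site d)) (η : Env d) : ℝ :=
  g * ∑ y ∈ Y, zt ρ q (η (τ, y))

lemma fa_meas99 (q g : ℝ) (τ : ℕ) (Y : Finset (Site d)) : Measurable (fa99 ρ q g τ Y) := by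
  unfold fa99
  exact (Finset.measurable_sum Y fun y _ =>
    (measurable_zt99 q).comp (measurable_pi_apply (τ, y))).const_mul g

lemma fa_abs99 [IsProbabilityMeasure ρ] (q : ℝ) {g : ℝ} (hg : 0 ≤ g) (τ : ℕ)
    (Y : Finset (Site d)) (hY : g * Y.card ≤ 1) (η : Env d) : |fa99 ρ q g τ Y η| ≤ 1 := by
  unfold fa99
  rw [abs_mul, abs_of_nonneg hg]
  refine (mul_le_mul_of_nonneg_left (Finset.abs_sum_le_sum_abs _ _) hg).trans ?_
  refine (mul_le_mul_of_nonneg_left (Finset.sum_le_sum fun y _ => zt_abs99 q _) hg).trans ?_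
  simpa using hY

lemma fa_dep99 (q g : ℝ) (τ : ℕ) (Y : Finset (Site d)) :
    DependsOn (fa99 ρ q g τ Y) {p : ℕ × Site d | p.1 = τ} := by
  intro η η' h
  unfold fa99
  congr 1
  exact Finset.sum_congr rfl fun y _ => by rw [h (τ, y) rfl]

lemma zt_integrable99 [IsProbabilityMeasure ρ] (q : ℝ) (p : ℕ × Site d) :
    Integrable (fun η : Env d => zt ρ q (η p)) (law d ρ) :=
  Integrable.mono' (integrable_const 1)
    ((measurable_zt99 q).comp (measurable_pi_apply p)).aestronglyMeasurable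
    (Eventually.of_forall fun η => by rw [Real.norm_eq_abs]; exact zt_abs99 q _)

lemma fa_int99 [IsProbabilityMeasure ρ] (q g : ℝ) (τ : ℕ) (Y : Finset (Site d)) :
    ∫ η, fa99 ρ q g τ Y η ∂(law d ρ) = 0 := by
  unfold fa99
  rw [integral_const_mul, integral_finsetSum Y fun y _ => zt_integrable99 q (τ, y)]
  simp [zt_law99]

/-- The second moment of the local average. -/
lemma fa_sq99 [IsProbabilityMeasure ρ] (q g : ℝ) (τ : ℕ) (Y : Finset (Site d)) :
    ∫ η, fa99 ρ q g τ Y η ^ 2 ∂(law d ρ) ≤ g ^ 2 * Y.card := by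
  classical
  have hi : ∀ p p' : ℕ × Site d,
      Integrable (fun η : Env d => zt ρ q (η p) * zt ρ q (η p')) (law d ρ) := fun p p' =>
    Integrable.mono' (integrable_const 1)
      (((measurable_zt99 q).comp (measurable_pi_apply p)).mul
        ((measurable_zt99 q).comp (measurable_pi_apply p'))).aestronglyMeasurable
      (Eventually.of_forall fun η => by
        rw [Real.norm_eq_abs, abs_mul]
        calc _ ≤ 1 * 1 := mul_le_mul (zt_abs99 q _) (zt_abs99 q _) (abs_nonneg _) zero_le_one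
          _ = 1 := one_mul 1)
  have h1 : (fun η : Env d => fa99 ρ q g τ Y η ^ 2) = fun η =>
      g ^ 2 * ∑ y ∈ Y, ∑ y' ∈ Y, zt ρ q (η (τ, y)) * zt ρ q (η (τ, y')) := by
    funext η
    unfold fa99
    rw [mul_pow, sq (∑ y ∈ Y, zt ρ q (η (τ, y))), Finset.sum_mul_sum]
  rw [h1, integral_const_mul]
  refine mul_le_mul_of_nonneg_left ?_ (sq_nonneg g)
  rw [integral_finsetSum Y fun y _ => integrable_finsetSum _ fun y' _ => hi _ _]
  have h2 : ∀ y ∈ Y, ∫ η : Env d, ∑ y' ∈ Y, zt ρ q (η (τ, y)) * zt ρ q (η (τ, y')) ∂(law d ρ) ≤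
      1 := by
    intro y hy
    rw [integral_finsetSum Y fun y' _ => hi _ _, Finset.sum_eq_single y]
    · have h3 := integral_mono (hi (τ, y) (τ, y)) (integrable_const (1 : ℝ)) fun η => by
        have := zt_abs99 (ρ := ρ) q (η (τ, y))
        have h4 := abs_le.1 this
        show zt ρ q (η (τ, y)) * zt ρ q (η (τ, y)) ≤ 1
        nlinarith
      simpa using h3
    · intro y' _ hy'
      exact zt_pair99 q fun h => hy' (Prod.mk.inj h).2.symm
    · intro h
      exact absurd hy h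
  calc _ ≤ ∑ y ∈ Y, (1 : ℝ) := Finset.sum_le_sum h2
    _ = Y.card := by simp

/-- One local average against a function of the past. -/
lemma fa_past99 [IsProbabilityMeasure ρ] (q g : ℝ) {τ : ℕ} (hτ : 1 ≤ τ) (Y : Finset (Site d))
    {F : Env d → ℝ} (hm : Measurable F) (h0 : ∀ η, 0 ≤ F η) (h1 : ∀ η, F η ≤ 1) :
    ∫ η, fa99 ρ q g τ Y η * cE ρ (Pa d (τ - 1)) F η ∂(law d ρ) = 0 ∧
      ∫ η, fa99 ρ q g τ Y η ^ 2 * cE ρ (Pa d (τ - 1)) F η ∂(law d ρ) ≤
        g ^ 2 * Y.card * ∫ η, F η ∂(law d ρ) := by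
  have hsub : ∀ p : ℕ × Site d, p.1 = τ → p ∈ (Pa d (τ - 1))ᶜ := by
    intro p hp h2
    have h3 : p.1 ≤ τ - 1 := h2
    omega
  have hdep : DependsOn (fa99 ρ q g τ Y) (Pa d (τ - 1))ᶜ := fun η η' h =>
    fa_dep99 q g τ Y fun p hp => h p (hsub p hp)
  have hi : Integrable F (law d ρ) :=
    Integrable.mono' (integrable_const 1) hm.aestronglyMeasurable
      (Eventually.of_forall fun η => by rw [Real.norm_eq_abs, abs_of_nonneg (h0 η)]; exact h1 η)
  constructor
  · have h2 := integral_indep (ρ := ρ) (Pa d (τ - 1)) (measurable_cE (ρ := ρ) hm (Pa d (τ - 1)))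
      (fa_meas99 (ρ := ρ) q g τ Y) (cE_dep _ _) hdep
    rw [fa_int99, mul_zero] at h2
    rw [← h2]
    exact integral_congr_ae (Eventually.of_forall fun η => mul_comm _ _)
  · have h2 := integral_indep (ρ := ρ) (Pa d (τ - 1)) (measurable_cE (ρ := ρ) hm (Pa d (τ - 1)))
      ((fa_meas99 (ρ := ρ) q g τ Y).pow_const 2) (cE_dep _ _) (fun η η' h => by
        show fa99 ρ q g τ Y η ^ 2 = fa99 ρ q g τ Y η' ^ 2
        rw [hdep h])
    rw [int_cE _ hi] at h2
    have h3 : ∫ η, fa99 ρ q g τ Y η ^ 2 * cE ρ (Pa d (τ - 1)) F η ∂(law d ρ) =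
        ∫ η, cE ρ (Pa d (τ - 1)) F η * fa99 ρ q g τ Y η ^ 2 ∂(law d ρ) :=
      integral_congr_ae (Eventually.of_forall fun η => mul_comm _ _)
    rw [h3, h2, mul_comm]
    exact mul_le_mul_of_nonneg_right (fa_sq99 q g τ Y) (integral_nonneg h0)

/-- One local average against a function, given the rows up to `τ`. -/
lemma fa_now99 [IsProbabilityMeasure ρ] (q : ℝ) {g : ℝ} (hg : 0 ≤ g) (τ : ℕ)
    (Y : Finset (Site d)) (hY : g * Y.card ≤ 1)
    {F : Env d → ℝ} (hm : Measurable F) (h0 : ∀ η, 0 ≤ F η) (h1 : ∀ η, F η ≤ 1) :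
    ∫ η, fa99 ρ q g τ Y η * cE ρ (Pa d τ) F η ∂(law d ρ) =
      ∫ η, fa99 ρ q g τ Y η * F η ∂(law d ρ) := by
  have hdep : DependsOn (fa99 ρ q g τ Y) (Pa d τ) := fun η η' h =>
    fa_dep99 q g τ Y fun p hp => h p (show p.1 ≤ τ from le_of_eq hp)
  have hi : Integrable (fun η => F η * fa99 ρ q g τ Y η) (law d ρ) :=
    Integrable.mono' (integrable_const 1) (hm.mul (fa_meas99 q g τ Y)).aestronglyMeasurable
      (Eventually.of_forall fun η => by
        rw [Real.norm_eq_abs, abs_mul, abs_of_nonneg (h0 η)]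
        calc _ ≤ 1 * 1 := mul_le_mul (h1 η) (fa_abs99 q hg τ Y hY η) (abs_nonneg _) zero_le_one
          _ = 1 := one_mul 1)
  have h2 := int_mul_cE (ρ := ρ) (Pa d τ) hi hdep
  have h3 : ∫ η, fa99 ρ q g τ Y η * cE ρ (Pa d τ) F η ∂(law d ρ) =
      ∫ η, cE ρ (Pa d τ) F η * fa99 ρ q g τ Y η ∂(law d ρ) :=
    integral_congr_ae (Eventually.of_forall fun η => mul_comm _ _)
  have h4 : ∫ η, fa99 ρ q g τ Y η * F η ∂(law d ρ) =
      ∫ η, F η * fa99 ρ q g τ Y η ∂(law d ρ) :=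
    integral_congr_ae (Eventually.of_forall fun η => mul_comm _ _)
  rw [h3, h4, h2]

open Classical in
/-- Leaf DuI. -/
theorem DuI99 [IsProbabilityMeasure ρ] (hd : 0 < d) {β : ℝ} : DuI d ρ β := by
  intro q h n τ t hτ hτt htn m r g hr hg hgr
  have hn : 0 ≤ r := by linarith
  -- the sites near `x - m`
  set Y : Site d → Finset (Site d) := fun x =>
    (boxF d n).filter fun y => ‖emb (x : Site d) - emb y - m‖ ≤ r with hYdef
  have hcard : ∀ x, ((Y x).card : ℝ) ≤ (3 * r) ^ d := by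
    intro x
    have h1 : Y x ⊆ ballW (emb x - m) r := by
      intro y hy
      refine mem_ballW ?_
      have h2 := (Finset.mem_filter.1 hy).2
      rw [← norm_neg]
      have h3 : -(emb y - (emb x - m)) = emb x - emb y - m := by abel
      rw [h3]
      exact h2
    calc ((Y x).card : ℝ) ≤ ((ballW (emb x - m) r).card : ℝ) := by
          exact_mod_cast Finset.card_le_card h1
      _ ≤ (2 * r + 1) ^ d := card_ballW _ hn
      _ ≤ (3 * r) ^ d := pow_le_pow_left₀ (by linarith) (by linarith) d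
  have hYg : ∀ x, g * ((Y x).card : ℝ) ≤ 1 := fun x =>
    (mul_le_mul_of_nonneg_left (hcard x) hg).trans hgr
  have hFm : ∀ x, Measurable (Qt β h n t x) := fun x => measurable_Qt39 β h n t x
  have hF0 : ∀ x η, 0 ≤ Qt β h n t x η := fun x η => Qt_nonneg39 β h n t x η
  have hF1 : ∀ x η, Qt β h n t x η ≤ 1 := fun x η => Qt_le_one39 β h htn x η
  have hFi : ∀ x, Integrable (Qt β h n t x) (law d ρ) := fun x =>
    Integrable.mono' (integrable_const 1) (hFm x).aestronglyMeasurable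
      (Eventually.of_forall fun η => by
        rw [Real.norm_eq_abs, abs_of_nonneg (hF0 x η)]; exact hF1 x η)
  have hbd : ∀ (a : Env d → ℝ) (b : Env d → ℝ), Measurable a → Measurable b →
      (∀ η, |a η| ≤ 1) → (∀ η, 0 ≤ b η) → (∀ η, b η ≤ 1) →
      Integrable (fun η => a η * b η) (law d ρ) := by
    intro a b ha hb ha1 hb0 hb1
    refine Integrable.mono' (integrable_const 1) (ha.mul hb).aestronglyMeasurable
      (Eventually.of_forall fun η => ?_)
    rw [Real.norm_eq_abs, abs_mul, abs_of_nonneg (hb0 η)]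
    calc _ ≤ 1 * 1 := mul_le_mul (ha1 η) (hb1 η) (hb0 η) zero_le_one
      _ = 1 := one_mul 1
  have hc0 : ∀ (T : Set (ℕ × Site d)) x η, 0 ≤ cE ρ T (Qt β h n t x) η := fun T x η =>
    cE_nonneg (hF0 x) T η
  have hc1 : ∀ (T : Set (ℕ × Site d)) x η, cE ρ T (Qt β h n t x) η ≤ 1 := fun T x η =>
    cE_le (hFm x) (hF0 x) (hF1 x) T η
  have hcm : ∀ (T : Set (ℕ × Site d)) x, Measurable (cE ρ T (Qt β h n t x)) := fun T x =>
    measurable_cE (hFm x) T
  have hS : Pa d (τ - 1) ⊆ Pa d τ := fun p hp => by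
    have : p.1 ≤ τ - 1 := hp
    show p.1 ≤ τ
    omega
  have hmain := info99 (ρ := ρ) (boxF d n) (F := fun x => Qt β h n t x) hFm hF0 hF1 hS
    (fun x => fa99 ρ q g τ (Y x)) (fun x => fa_meas99 q g τ (Y x))
    (fun x η => fa_abs99 q hg τ (Y x) (hYg x) η)
  have hsqb : ∀ x η, |fa99 ρ q g τ (Y x) η ^ 2| ≤ 1 := by
    intro x η
    have h1 := abs_le.1 (fa_abs99 (ρ := ρ) q hg τ (Y x) (hYg x) η)
    rw [abs_of_nonneg (sq_nonneg _)]
    nlinarith
  have i1 : ∀ (T : Set (ℕ × Site d)) x, Integrable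
      (fun η => fa99 ρ q g τ (Y x) η * cE ρ T (Qt β h n t x) η) (law d ρ) := fun T x =>
    hbd _ _ (fa_meas99 q g τ (Y x)) (hcm T x) (fa_abs99 q hg τ (Y x) (hYg x)) (hc0 T x) (hc1 T x)
  have i2 : ∀ x, Integrable
      (fun η => fa99 ρ q g τ (Y x) η ^ 2 * cE ρ (Pa d (τ - 1)) (Qt β h n t x) η) (law d ρ) :=
    fun x => hbd _ _ ((fa_meas99 q g τ (Y x)).pow_const 2) (hcm _ x) (hsqb x) (hc0 _ x) (hc1 _ x)
  have i3 : ∀ x, Integrable (fun η => fa99 ρ q g τ (Y x) η * Qt β h n t x η) (law d ρ) := fun x =>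
    hbd _ _ (fa_meas99 q g τ (Y x)) (hFm x) (fa_abs99 q hg τ (Y x) (hYg x)) (hF0 x) (hF1 x)
  -- one `x`
  have hx : ∀ x, ∫ η, fa99 ρ q g τ (Y x) η * Qt β h n t x η ∂(law d ρ) -
      g ^ 2 * (3 * r) ^ d * ∫ η, Qt β h n t x η ∂(law d ρ) ≤
      ∫ η, (fa99 ρ q g τ (Y x) η * (cE ρ (Pa d τ) (Qt β h n t x) η -
        cE ρ (Pa d (τ - 1)) (Qt β h n t x) η) -
        fa99 ρ q g τ (Y x) η ^ 2 * cE ρ (Pa d (τ - 1)) (Qt β h n t x) η) ∂(law d ρ) := by
    intro x
    have e1 : ∫ η, (fa99 ρ q g τ (Y x) η * (cE ρ (Pa d τ) (Qt β h n t x) η -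
        cE ρ (Pa d (τ - 1)) (Qt β h n t x) η) -
        fa99 ρ q g τ (Y x) η ^ 2 * cE ρ (Pa d (τ - 1)) (Qt β h n t x) η) ∂(law d ρ) =
        ∫ η, fa99 ρ q g τ (Y x) η * cE ρ (Pa d τ) (Qt β h n t x) η ∂(law d ρ) -
        ∫ η, fa99 ρ q g τ (Y x) η * cE ρ (Pa d (τ - 1)) (Qt β h n t x) η ∂(law d ρ) -
        ∫ η, fa99 ρ q g τ (Y x) η ^ 2 * cE ρ (Pa d (τ - 1)) (Qt β h n t x) η ∂(law d ρ) := by
      have i4 : Integrable (fun η => fa99 ρ q g τ (Y x) η * cE ρ (Pa d τ) (Qt β h n t x) η -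
          fa99 ρ q g τ (Y x) η * cE ρ (Pa d (τ - 1)) (Qt β h n t x) η) (law d ρ) :=
        (i1 _ x).sub (i1 _ x)
      rw [← integral_sub (i1 _ x) (i1 _ x), ← integral_sub i4 (i2 x)]
      refine integral_congr_ae (Eventually.of_forall fun η => ?_)
      show _ = _
      ring
    obtain ⟨h1, h2⟩ := fa_past99 (ρ := ρ) q g hτ (Y x) (hFm x) (hF0 x) (hF1 x)
    rw [e1, fa_now99 q hg τ (Y x) (hYg x) (hFm x) (hF0 x) (hF1 x), h1]
    have h3 : g ^ 2 * ((Y x).card : ℝ) * ∫ η, Qt β h n t x η ∂(law d ρ) ≤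
        g ^ 2 * (3 * r) ^ d * ∫ η, Qt β h n t x η ∂(law d ρ) :=
      mul_le_mul_of_nonneg_right (mul_le_mul_of_nonneg_left (hcard x) (sq_nonneg g))
        (integral_nonneg (hF0 x))
    linarith
  have hsum := Finset.sum_le_sum (s := boxF d n) fun x _ => hx x
  rw [Finset.sum_sub_distrib, ← Finset.mul_sum, ← integral_finsetSum _ fun x _ => hFi x,
    ← integral_finsetSum _ fun x _ => i3 x] at hsum
  have hone : ∫ η, ∑ x ∈ boxF d n, Qt β h n t x η ∂(law d ρ) = 1 := by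
    have : (fun η : Env d => ∑ x ∈ boxF d n, Qt β h n t x η) = fun _ => 1 := by
      funext η
      exact Qt_sum_box39 hd β h htn htn η
    rw [this]
    simp
  rw [hone, mul_one, ← integral_finsetSum] at hsum
  · have hfst : ∫ η, ∑ x ∈ boxF d n, fa99 ρ q g τ (Y x) η * Qt β h n t x η ∂(law d ρ) =
        g * (∫ η, pe β h η (fun s : Fin n → Step d => ∑ y ∈ boxF d n,
          if ‖emb (pos s t) - emb y - m‖ ≤ r then zt ρ q (η (τ, y)) else 0) ∂(law d ρ)) := by
      rw [← integral_const_mul]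
      refine integral_congr_ae (Eventually.of_forall fun η => ?_)
      show _ = _
      simp only
      rw [pe_pos99 β h η htn (fun x => ∑ y ∈ boxF d n,
        if ‖emb x - emb y - m‖ ≤ r then zt ρ q (η (τ, y)) else 0), Finset.mul_sum]
      refine Finset.sum_congr rfl fun x _ => ?_
      unfold fa99
      rw [hYdef, Finset.sum_filter]
      ring
    rw [hfst] at hsum
    unfold En
    exact hsum.trans hmain
  · intro x _
    have i5 : Integrable (fun η => fa99 ρ q g τ (Y x) η * cE ρ (Pa d τ) (Qt β h n t x) η -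
        fa99 ρ q g τ (Y x) η * cE ρ (Pa d (τ - 1)) (Qt β h n t x) η -
        fa99 ρ q g τ (Y x) η ^ 2 * cE ρ (Pa d (τ - 1)) (Qt β h n t x) η) (law d ρ) :=
      ((i1 _ x).sub (i1 _ x)).sub (i2 x)
    refine i5.congr (Eventually.of_forall fun η => ?_)
    show _ = _
    simp only
    ring

end Pool.Agent.W_7d29a1_S90
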