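import Pool.Agent.W_7d29a1_Q29.Ce39

/-!
The Hellinger inequality of one row: a conditional law whose mean square root does not drop is not
seen by a test function.
-/

namespace Pool.Agent.W_7d29a1_S90

open MeasureTheory ProbabilityTheory Filter Topology Pool.Agent.W_MP_7d29a1_pr
  Pool.Agent.W_7d29a1_h46 Pool.Agent.W_7d29a1_h46u Pool.Agent.W_7d29a1_Q29

variable {d : ℕ} {ρ : Measure ℝ}

lemma spl_spl99 {S S' : Set (ℕ × Site d)} (hS : S ⊆ S') (η ξ ξ' : Env d) :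
    spl S' (spl S η ξ) ξ' = spl S η (spl S' ξ ξ') := by
  ext p
  by_cases hp : p ∈ S
  · rw [spl_mem _ _ (hS hp), spl_mem _ _ hp, spl_mem _ _ hp]
  · by_cases hp' : p ∈ S'
    · rw [spl_mem _ _ hp', spl_not_mem _ _ hp, spl_not_mem _ _ hp, spl_mem _ _ hp']
    · rw [spl_not_mem _ _ hp', spl_not_mem _ _ hp, spl_not_mem _ _ hp']

/-- The tower property, pointwise, against a function `H` of the sites of `S'`. -/
lemma tower99 [IsProbabilityMeasure ρ] {S S' : Set (ℕ × Site d)} (hS : S ⊆ S') {F H : Env d → ℝ}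
    (hFm : Measurable F) (hHm : Measurable H) {b : ℝ} (hb : ∀ η, |F η * H η| ≤ b)
    (hH : DependsOn H S') (η : Env d) :
    cE ρ S (fun ξ => cE ρ S' F ξ * H ξ) η = cE ρ S (fun ξ => F ξ * H ξ) η := by
  have hm : Measurable fun ξ : Env d => F (spl S η ξ) * H (spl S η ξ) :=
    (hFm.comp (measurable_spl_right S η)).mul (hHm.comp (measurable_spl_right S η))
  have h1 : cE ρ S (fun ξ => F ξ * H ξ) η =
      ∫ w : Env d × Env d, F (spl S η (spl S' w.1 w.2)) * H (spl S η (spl S' w.1 w.2))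
        ∂((law d ρ).prod (law d ρ)) := by
    unfold cE
    exact (LawU_integral (F := fun g => F (spl S η g) * H (spl S η g)) (mp_spl (ρ := ρ) S')
      hm.aestronglyMeasurable).symm
  have h2 : Integrable (fun w : Env d × Env d => F (spl S η (spl S' w.1 w.2)) *
      H (spl S η (spl S' w.1 w.2))) ((law d ρ).prod (law d ρ)) :=
    Integrable.mono' (integrable_const b) (hm.comp (measurable_spl S')).aestronglyMeasurable
      (Eventually.of_forall fun w => by rw [Real.norm_eq_abs]; exact hb _)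
  rw [h1, integral_prod _ h2]
  unfold cE
  refine integral_congr_ae (Eventually.of_forall fun ξ => ?_)
  show (∫ ξ', F (spl S' (spl S η ξ) ξ') ∂(law d ρ)) * H (spl S η ξ) =
    ∫ ξ', F (spl S η (spl S' ξ ξ')) * H (spl S η (spl S' ξ ξ')) ∂(law d ρ)
  rw [← integral_mul_const]
  refine integral_congr_ae (Eventually.of_forall fun ξ' => ?_)
  show F (spl S' (spl S η ξ) ξ') * H (spl S η ξ) =
    F (spl S η (spl S' ξ ξ')) * H (spl S η (spl S' ξ ξ'))
  rw [← spl_spl99 hS η ξ ξ', hH (x := spl S' (spl S η ξ) ξ') (y := spl S η ξ) fun p hp =>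
    spl_mem _ _ hp]

/-- Scalar: the square root against a centred density. -/
lemma sqrt99 {N f l : ℝ} (hN : 0 ≤ N) (hf : |f| ≤ 1 / 2) (hl : 0 < l) :
    2 * Real.sqrt N ≤ l * (N - N * f + 2 * (N * f ^ 2)) + (1 + f) / l := by
  have h1 := abs_le.1 hf
  have h2 : 0 < 1 + f := by linarith
  -- `N / (1 + f) ≤ N (1 - f + 2 f ^ 2)`
  have h3 : N / (1 + f) ≤ N - N * f + 2 * (N * f ^ 2) := by
    rw [div_le_iff₀ h2]
    have h4 : (N - N * f + 2 * (N * f ^ 2)) * (1 + f) = N + N * f ^ 2 * (1 + 2 * f) := by ring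
    rw [h4]
    have h5 : 0 ≤ N * f ^ 2 * (1 + 2 * f) :=
      mul_nonneg (mul_nonneg hN (sq_nonneg f)) (by linarith)
    linarith
  have h4 : 2 * Real.sqrt N ≤ l * (N / (1 + f)) + (1 + f) / l := by
    set x := Real.sqrt N with hx
    have hx2 : N = x ^ 2 := (Real.sq_sqrt hN).symm
    rw [hx2]
    have h5 : l * (x ^ 2 / (1 + f)) + (1 + f) / l - 2 * x =
        (l * x - (1 + f)) ^ 2 / (l * (1 + f)) := by
      field_simp
      ring
    have h6 : 0 ≤ (l * x - (1 + f)) ^ 2 / (l * (1 + f)) := by positivity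
    linarith
  have h5 := mul_le_mul_of_nonneg_left h3 hl.le
  linarith

/-- **Hellinger, one row.** -/
theorem hel99 [IsProbabilityMeasure ρ] {G f : Env d → ℝ} (hGm : Measurable G)
    (hG0 : ∀ η, 0 ≤ G η) (hG1 : ∀ η, G η ≤ 1) {S S' : Set (ℕ × Site d)} (hS : S ⊆ S')
    (hfm : Measurable f) (hf : ∀ η, |f η| ≤ 1 / 2) (hfd : DependsOn f S')
    (hf0 : ∀ η, cE ρ S f η = 0) {a : ℝ} (η : Env d)
    (hL : Real.exp (-a) * Real.sqrt (cE ρ S G η) <
      cE ρ S (fun ξ => Real.sqrt (cE ρ S' G ξ)) η) :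
    cE ρ S (fun ξ => G ξ * f ξ) η - 2 * cE ρ S (fun ξ => G ξ * f ξ ^ 2) η ≤
      2 * a * cE ρ S G η := by
  have hf2 : ∀ η, f η ^ 2 ≤ 1 := fun η => by
    have := abs_le.1 (hf η)
    nlinarith
  have hN0 : ∀ ξ, 0 ≤ cE ρ S' G ξ := fun ξ => cE_nonneg hG0 S' ξ
  have hN1 : ∀ ξ, cE ρ S' G ξ ≤ 1 := fun ξ => cE_le hGm hG0 hG1 S' ξ
  have hNm : Measurable (cE ρ S' G) := measurable_cE hGm S'
  have hq0 : 0 ≤ cE ρ S (fun ξ => G ξ * f ξ ^ 2) η :=
    cE_nonneg (fun ξ => mul_nonneg (hG0 ξ) (sq_nonneg _)) S η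
  have hG00 : 0 ≤ cE ρ S G η := cE_nonneg hG0 S η
  -- integrability of the functions along the resampling
  have hint : ∀ {F : Env d → ℝ} (_ : Measurable F) (_ : ∀ ξ, |F ξ| ≤ 2),
      Integrable (fun ξ => F (spl S η ξ)) (law d ρ) := fun hm hb => integrable_spl hm hb S η
  have hGf : ∀ ξ, |G ξ * f ξ| ≤ 1 := fun ξ => by
    rw [abs_mul, abs_of_nonneg (hG0 ξ)]
    calc _ ≤ 1 * (1 / 2) := mul_le_mul (hG1 ξ) (hf ξ) (abs_nonneg _) zero_le_one
      _ ≤ 1 := by norm_num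
  have hGf2 : ∀ ξ, |G ξ * f ξ ^ 2| ≤ 1 := fun ξ => by
    rw [abs_of_nonneg (mul_nonneg (hG0 ξ) (sq_nonneg _))]
    calc _ ≤ 1 * 1 := mul_le_mul (hG1 ξ) (hf2 ξ) (sq_nonneg _) zero_le_one
      _ = 1 := one_mul 1
  rcases hG00.eq_or_lt with h0 | h0
  · -- the degenerate case
    have h1 : cE ρ S (fun ξ => G ξ * f ξ) η ≤ cE ρ S G η := by
      unfold cE
      refine integral_mono (hint (hGm.mul hfm) fun ξ => (hGf ξ).trans (by norm_num))
        (hint hGm fun ξ => by rw [abs_of_nonneg (hG0 ξ)]; linarith [hG1 ξ]) fun ξ => ?_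
      have h2 := abs_le.1 (hf (spl S η ξ))
      have h3 := hG0 (spl S η ξ)
      show G (spl S η ξ) * f (spl S η ξ) ≤ G (spl S η ξ)
      nlinarith
    rw [← h0] at h1 ⊢
    linarith
  · have t0 : cE ρ S (cE ρ S' G) η = cE ρ S G η := by
      have := tower99 (ρ := ρ) hS hGm (measurable_const (a := (1 : ℝ))) (b := 1)
        (fun ξ => by rw [mul_one, abs_of_nonneg (hG0 ξ)]; exact hG1 ξ) (fun _ _ _ => rfl) η
      simpa using this
    have t1 : cE ρ S (fun ξ => cE ρ S' G ξ * f ξ) η = cE ρ S (fun ξ => G ξ * f ξ) η :=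
      tower99 hS hGm hfm hGf hfd η
    have t2 : cE ρ S (fun ξ => cE ρ S' G ξ * f ξ ^ 2) η = cE ρ S (fun ξ => G ξ * f ξ ^ 2) η :=
      tower99 hS hGm (hfm.pow_const 2) hGf2 (fun x y h => by
        show f x ^ 2 = f y ^ 2
        rw [hfd h]) η
    set g : ℝ := cE ρ S G η with hg
    set l : ℝ := Real.exp a / Real.sqrt g with hl
    have hsg : 0 < Real.sqrt g := Real.sqrt_pos.2 h0
    have hl0 : 0 < l := by positivity
    set J : ℝ := g - cE ρ S (fun ξ => G ξ * f ξ) η + 2 * cE ρ S (fun ξ => G ξ * f ξ ^ 2) η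
      with hJ
    have hNf : ∀ ξ, |cE ρ S' G ξ * f ξ| ≤ 1 := fun ξ => by
      rw [abs_mul, abs_of_nonneg (hN0 ξ)]
      calc _ ≤ 1 * (1 / 2) := mul_le_mul (hN1 ξ) (hf ξ) (abs_nonneg _) zero_le_one
        _ ≤ 1 := by norm_num
    have hNf2 : ∀ ξ, |cE ρ S' G ξ * f ξ ^ 2| ≤ 1 := fun ξ => by
      rw [abs_of_nonneg (mul_nonneg (hN0 ξ) (sq_nonneg _))]
      calc _ ≤ 1 * 1 := mul_le_mul (hN1 ξ) (hf2 ξ) (sq_nonneg _) zero_le_one
        _ = 1 := one_mul 1
    have i0 : Integrable (fun ξ => cE ρ S' G (spl S η ξ)) (law d ρ) :=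
      hint hNm fun ξ => by rw [abs_of_nonneg (hN0 ξ)]; linarith [hN1 ξ]
    have i1 : Integrable (fun ξ => cE ρ S' G (spl S η ξ) * f (spl S η ξ)) (law d ρ) :=
      hint (hNm.mul hfm) fun ξ => (hNf ξ).trans (by norm_num)
    have i2 : Integrable (fun ξ => cE ρ S' G (spl S η ξ) * f (spl S η ξ) ^ 2) (law d ρ) :=
      hint (hNm.mul (hfm.pow_const 2)) fun ξ => (hNf2 ξ).trans (by norm_num)
    have i3 : Integrable (fun ξ => f (spl S η ξ)) (law d ρ) :=
      hint hfm fun ξ => (hf ξ).trans (by norm_num)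
    have i4 : Integrable (fun ξ => Real.sqrt (cE ρ S' G (spl S η ξ))) (law d ρ) :=
      hint (F := fun ξ => Real.sqrt (cE ρ S' G ξ)) hNm.sqrt fun ξ => by
        rw [abs_of_nonneg (Real.sqrt_nonneg _)]
        have : Real.sqrt (cE ρ S' G ξ) ≤ 1 := Real.sqrt_le_one.2 (hN1 ξ)
        linarith
    have h1 : 2 * cE ρ S (fun ξ => Real.sqrt (cE ρ S' G ξ)) η ≤ l * J + 1 / l := by
      have h2 : ∫ ξ, 2 * Real.sqrt (cE ρ S' G (spl S η ξ)) ∂(law d ρ) ≤
          ∫ ξ, (l * (cE ρ S' G (spl S η ξ) - cE ρ S' G (spl S η ξ) * f (spl S η ξ) +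
            2 * (cE ρ S' G (spl S η ξ) * f (spl S η ξ) ^ 2)) + (1 + f (spl S η ξ)) / l)
            ∂(law d ρ) :=
        integral_mono (i4.const_mul 2)
          ((((i0.sub i1).add (i2.const_mul 2)).const_mul l).add
            (((integrable_const (1 : ℝ)).add i3).div_const l))
          fun ξ => sqrt99 (hN0 _) (hf _) hl0
      have h3 : ∫ ξ, (l * (cE ρ S' G (spl S η ξ) - cE ρ S' G (spl S η ξ) * f (spl S η ξ) +
            2 * (cE ρ S' G (spl S η ξ) * f (spl S η ξ) ^ 2)) + (1 + f (spl S η ξ)) / l)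
            ∂(law d ρ) = l * (∫ ξ, cE ρ S' G (spl S η ξ) ∂(law d ρ) -
              ∫ ξ, cE ρ S' G (spl S η ξ) * f (spl S η ξ) ∂(law d ρ) +
              2 * ∫ ξ, cE ρ S' G (spl S η ξ) * f (spl S η ξ) ^ 2 ∂(law d ρ)) +
              (1 + ∫ ξ, f (spl S η ξ) ∂(law d ρ)) / l := by
        have j1 : Integrable (fun ξ => cE ρ S' G (spl S η ξ) -
            cE ρ S' G (spl S η ξ) * f (spl S η ξ)) (law d ρ) := i0.sub i1
        have j2 : Integrable (fun ξ => 2 * (cE ρ S' G (spl S η ξ) * f (spl S η ξ) ^ 2))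
            (law d ρ) := i2.const_mul 2
        have j3 : Integrable (fun ξ => cE ρ S' G (spl S η ξ) -
            cE ρ S' G (spl S η ξ) * f (spl S η ξ) +
            2 * (cE ρ S' G (spl S η ξ) * f (spl S η ξ) ^ 2)) (law d ρ) := j1.add j2
        have j4 : Integrable (fun ξ => 1 + f (spl S η ξ)) (law d ρ) :=
          (integrable_const (1 : ℝ)).add i3
        rw [integral_add (j3.const_mul l) (j4.div_const l), integral_const_mul,
          integral_add j1 j2, integral_sub i0 i1, integral_const_mul, integral_div,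
          integral_add (integrable_const (1 : ℝ)) i3]
        simp
      rw [h3, integral_const_mul] at h2
      have e0 : ∫ ξ, cE ρ S' G (spl S η ξ) ∂(law d ρ) = g := t0
      have e1 : ∫ ξ, cE ρ S' G (spl S η ξ) * f (spl S η ξ) ∂(law d ρ) =
          cE ρ S (fun ξ => G ξ * f ξ) η := t1
      have e2 : ∫ ξ, cE ρ S' G (spl S η ξ) * f (spl S η ξ) ^ 2 ∂(law d ρ) =
          cE ρ S (fun ξ => G ξ * f ξ ^ 2) η := t2
      have e3 : ∫ ξ, f (spl S η ξ) ∂(law d ρ) = 0 := hf0 η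
      rw [e0, e1, e2, e3, add_zero] at h2
      exact h2
    -- the choice of `l`
    have h2 : Real.exp (-a) * Real.sqrt g = 1 / l := by
      rw [hl, one_div_div, Real.exp_neg, div_eq_inv_mul]
    have h3 : 1 / l < l * J := by
      rw [h2] at hL
      linarith
    have h4 : Real.exp (-(2 * a)) * g < J := by
      have h5 : 1 / l * (1 / l) < J := by
        have h6 := mul_lt_mul_of_pos_left h3 (by positivity : (0 : ℝ) < 1 / l)
        have h7 : 1 / l * (l * J) = J := by field_simp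
        rwa [h7] at h6
      have h6 : 1 / l * (1 / l) = Real.exp (-(2 * a)) * g := by
        rw [← h2]
        have h7 : Real.exp (-(2 * a)) = Real.exp (-a) * Real.exp (-a) := by
          rw [← Real.exp_add]; congr 1; ring
        rw [h7]
        calc Real.exp (-a) * Real.sqrt g * (Real.exp (-a) * Real.sqrt g) =
            Real.exp (-a) * Real.exp (-a) * (Real.sqrt g * Real.sqrt g) := by ring
          _ = _ := by rw [Real.mul_self_sqrt h0.le]
      rwa [h6] at h5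
    have h5 : 1 - 2 * a ≤ Real.exp (-(2 * a)) := by
      have := Real.add_one_le_exp (-(2 * a))
      linarith
    have h6 : (1 - 2 * a) * g ≤ Real.exp (-(2 * a)) * g := mul_le_mul_of_nonneg_right h5 h0.le
    rw [hJ] at h4
    linarith

/-- The integrated form against a weight of the past which vanishes off the low environments. -/
theorem helI99 [IsProbabilityMeasure ρ] {G f k : Env d → ℝ} (hGm : Measurable G)
    (hG0 : ∀ η, 0 ≤ G η) (hG1 : ∀ η, G η ≤ 1) {S S' : Set (ℕ × Site d)} (hS : S ⊆ S')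
    (hfm : Measurable f) (hf : ∀ η, |f η| ≤ 1 / 2) (hfd : DependsOn f S')
    (hf0 : ∀ η, cE ρ S f η = 0) {a : ℝ} (hkm : Measurable k)
    (hk0 : ∀ η, 0 ≤ k η) (hk1 : ∀ η, k η ≤ 1) (hkd : DependsOn k S)
    (hL : ∀ η, k η ≠ 0 → Real.exp (-a) * Real.sqrt (cE ρ S G η) <
      cE ρ S (fun ξ => Real.sqrt (cE ρ S' G ξ)) η) :
    ∫ η, k η * (G η * f η) ∂(law d ρ) - 2 * ∫ η, k η * (G η * f η ^ 2) ∂(law d ρ) ≤
      2 * a * ∫ η, k η * G η ∂(law d ρ) := by
  have hf2 : ∀ η, f η ^ 2 ≤ 1 := fun η => by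
    have := abs_le.1 (hf η)
    nlinarith
  have hGf : ∀ ξ, |G ξ * f ξ| ≤ 1 := fun ξ => by
    rw [abs_mul, abs_of_nonneg (hG0 ξ)]
    calc _ ≤ 1 * (1 / 2) := mul_le_mul (hG1 ξ) (hf ξ) (abs_nonneg _) zero_le_one
      _ ≤ 1 := by norm_num
  have hGf2 : ∀ ξ, |G ξ * f ξ ^ 2| ≤ 1 := fun ξ => by
    rw [abs_of_nonneg (mul_nonneg (hG0 ξ) (sq_nonneg _))]
    calc _ ≤ 1 * 1 := mul_le_mul (hG1 ξ) (hf2 ξ) (sq_nonneg _) zero_le_one
      _ = 1 := one_mul 1
  have hG : ∀ ξ, |G ξ| ≤ 1 := fun ξ => by rw [abs_of_nonneg (hG0 ξ)]; exact hG1 ξ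
  have key : ∀ (F : Env d → ℝ) (_ : Measurable F) (_ : ∀ ξ, |F ξ| ≤ 1),
      ∫ η, k η * F η ∂(law d ρ) = ∫ η, k η * cE ρ S F η ∂(law d ρ) := by
    intro F hFm hF1
    have hi : Integrable (fun η => F η * k η) (law d ρ) :=
      Integrable.mono' (integrable_const 1) (hFm.mul hkm).aestronglyMeasurable
        (Eventually.of_forall fun η => by
          rw [Real.norm_eq_abs, abs_mul, abs_of_nonneg (hk0 η)]
          calc _ ≤ 1 * 1 := mul_le_mul (hF1 η) (hk1 η) (hk0 η) zero_le_one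
            _ = 1 := one_mul 1)
    have h1 := int_mul_cE (ρ := ρ) S hi hkd
    simp only [mul_comm (k _)]
    exact h1
  have hki : ∀ (F : Env d → ℝ) (_ : Measurable F) (_ : ∀ ξ, |F ξ| ≤ 1),
      Integrable (fun η => k η * cE ρ S F η) (law d ρ) := by
    intro F hFm hF1
    refine Integrable.mono' (integrable_const 1)
      (hkm.mul (measurable_cE hFm S)).aestronglyMeasurable (Eventually.of_forall fun η => ?_)
    rw [Real.norm_eq_abs, abs_mul, abs_of_nonneg (hk0 η)]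
    calc _ ≤ 1 * 1 := mul_le_mul (hk1 η) (cE_abs_le hF1 S η) (abs_nonneg _) zero_le_one
      _ = 1 := one_mul 1
  have m1 : Measurable fun ξ => G ξ * f ξ := hGm.mul hfm
  have m2 : Measurable fun ξ => G ξ * f ξ ^ 2 := hGm.mul (hfm.pow_const 2)
  have k1 := key (fun ξ => G ξ * f ξ) m1 hGf
  have k2 := key (fun ξ => G ξ * f ξ ^ 2) m2 hGf2
  have j1 := hki (fun ξ => G ξ * f ξ) m1 hGf
  have j2 := (hki (fun ξ => G ξ * f ξ ^ 2) m2 hGf2).const_mul 2
  rw [k1, k2, key G hGm hG, ← integral_const_mul, ← integral_const_mul, ← integral_sub j1 j2]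
  refine integral_mono (j1.sub j2) ((hki G hGm hG).const_mul (2 * a)) fun η => ?_
  show k η * cE ρ S (fun ξ => G ξ * f ξ) η - 2 * (k η * cE ρ S (fun ξ => G ξ * f ξ ^ 2) η) ≤
    2 * a * (k η * cE ρ S G η)
  by_cases h0 : k η = 0
  · rw [h0]; simp
  · have h1 := hel99 hGm hG0 hG1 hS hfm hf hfd hf0 η (hL η h0)
    have h2 := mul_le_mul_of_nonneg_left h1 (hk0 η)
    linarith

end Pool.Agent.W_7d29a1_S90
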