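import Pool.Agent.W_7d29a1_S90.DefsS90

/-!
Theorem SUP, leaf InT: the information of one row (helper64).
-/

namespace Pool.Agent.W_7d29a1_S90

open MeasureTheory ProbabilityTheory Filter Topology Pool.Agent.W_MP_7d29a1_pr
  Pool.Agent.W_7d29a1_h46 Pool.Agent.W_7d29a1_h46u Pool.Agent.W_7d29a1_D2.B35
  Pool.Agent.W_7d29a1_Q29

variable {d n : ℕ}

/-! ### The polymer mean -/

theorem IT_sum (β : ℝ) (h : Vec d) (η : Env d) {ι : Type} (I : Finset ι)
    (f : ι → (Fin n → Step d) → ℝ) :
    pe β h η (fun s => ∑ y ∈ I, f y s) = ∑ y ∈ I, pe β h η (f y) := by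
  unfold pe
  simp only [Finset.mul_sum]
  rw [Finset.sum_comm, Finset.sum_div]

theorem IT_sub (β : ℝ) (h : Vec d) (η : Env d) (f g : (Fin n → Step d) → ℝ) :
    pe β h η (fun s => f s - g s) = pe β h η f - pe β h η g := by
  unfold pe
  rw [← sub_div, ← Finset.sum_sub_distrib]
  congr 1
  exact Finset.sum_congr rfl fun s _ => by ring

theorem IT_mul (β : ℝ) (h : Vec d) (η : Env d) (c : ℝ) (f : (Fin n → Step d) → ℝ) :
    pe β h η (fun s => c * f s) = c * pe β h η f := by
  unfold pe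
  rw [mul_div_assoc', Finset.mul_sum]
  congr 1
  exact Finset.sum_congr rfl fun s _ => by ring

theorem IT_mono (hd : 0 < d) (β : ℝ) (h : Vec d) (η : Env d) {f g : (Fin n → Step d) → ℝ}
    (hfg : ∀ s, f s ≤ g s) : pe β h η f ≤ pe β h η g := by
  unfold pe
  exact div_le_div_of_nonneg_right (Finset.sum_le_sum fun s _ =>
    mul_le_mul_of_nonneg_left (hfg s) (wgt_pos β h η s).le) (Z_pos hd β h η n).le

theorem IT_const (hd : 0 < d) (β : ℝ) (h : Vec d) (η : Env d) (c : ℝ) :
    pe β h η (fun _ : Fin n → Step d => c) = c := by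
  unfold pe
  rw [← Finset.sum_mul, ← Z_eq, mul_comm, mul_div_assoc, div_self (Z_pos hd β h η n).ne', mul_one]

theorem IT_meas (β : ℝ) (h : Vec d) {f : Env d → (Fin n → Step d) → ℝ}
    (hf : ∀ s, Measurable fun η => f η s) : Measurable fun η => pe β h η (f η) := by
  unfold pe
  exact (Finset.measurable_sum _ fun s _ => (measurable_wgt β h s).mul (hf s)).div
    (measurable_Z β h n)

theorem IT_abs (hd : 0 < d) (β : ℝ) (h : Vec d) (η : Env d) {f : (Fin n → Step d) → ℝ} {B : ℝ}
    (hB : ∀ s, |f s| ≤ B) : |pe β h η f| ≤ B := by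
  rw [abs_le]
  constructor
  · calc -B = pe β h η (fun _ : Fin n → Step d => -B) := (IT_const hd β h η (-B)).symm
      _ ≤ _ := IT_mono hd β h η fun s => (abs_le.mp (hB s)).1
  · calc pe β h η f ≤ pe β h η (fun _ : Fin n → Step d => B) :=
        IT_mono hd β h η fun s => (abs_le.mp (hB s)).2
      _ = B := IT_const hd β h η B

theorem IT_int (hd : 0 < d) (ρ : Measure ℝ) [IsProbabilityMeasure ρ] (β : ℝ) (h : Vec d)
    {f : Env d → (Fin n → Step d) → ℝ} (hf : ∀ s, Measurable fun η => f η s) {B : ℝ}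
    (hB : ∀ η s, |f η s| ≤ B) : Integrable (fun η => pe β h η (f η)) (law d ρ) := by
  refine Integrable.of_bound (IT_meas β h hf).aestronglyMeasurable B (ae_of_all _ fun η => ?_)
  rw [Real.norm_eq_abs]
  exact IT_abs hd β h η (hB η)

/-! ### Indicators -/

open Classical in
/-- The indicator of `S_t ∈ B_y`. -/
noncomputable def K1 (_τ t : ℕ) (m : Vec d) (r : ℝ) (y : Site d) (s : Fin n → Step d) : ℝ :=
  if ‖emb (pos s t) - emb y - m‖ ≤ r then (1 : ℝ) else 0

open Classical in
/-- The indicator of `S_τ = y`, `S_t ∉ B_y`. -/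
noncomputable def K2 (τ t : ℕ) (m : Vec d) (r : ℝ) (y : Site d) (s : Fin n → Step d) : ℝ :=
  if pos s τ = y ∧ r < ‖emb (pos s t) - emb y - m‖ then (1 : ℝ) else 0

open Classical in
/-- The indicator of `S_τ = y`, `S'_τ ≠ y`, `S'_t ∉ B_y`. -/
noncomputable def K3 (τ t : ℕ) (m : Vec d) (r : ℝ) (y : Site d) (s s' : Fin n → Step d) : ℝ :=
  if pos s τ = y ∧ pos s' τ ≠ y ∧ r < ‖emb (pos s' t) - emb y - m‖ then (1 : ℝ) else 0

theorem ite_abs64 (p : Prop) [Decidable p] : |(if p then (1 : ℝ) else 0)| ≤ 1 := by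
  split_ifs <;> simp

theorem int_sub64 {μ : Measure (Env d)} {f1 f2 f3 : Env d → ℝ} (h1 : Integrable f1 μ)
    (h2 : Integrable f2 μ) (h3 : Integrable f3 μ) :
    ∫ η, (f1 η - f2 η - f2 η - f3 η) ∂μ =
      (∫ η, f1 η ∂μ) - 2 * (∫ η, f2 η ∂μ) - ∫ η, f3 η ∂μ := by
  have a1 : ∫ η, (f1 η - f2 η) ∂μ = (∫ η, f1 η ∂μ) - ∫ η, f2 η ∂μ := integral_sub h1 h2
  have a2 : ∫ η, (f1 η - f2 η - f2 η) ∂μ = (∫ η, (f1 η - f2 η) ∂μ) - ∫ η, f2 η ∂μ :=
    integral_sub (h1.sub h2) h2
  have a3 : ∫ η, (f1 η - f2 η - f2 η - f3 η) ∂μ =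
      (∫ η, (f1 η - f2 η - f2 η) ∂μ) - ∫ η, f3 η ∂μ := integral_sub ((h1.sub h2).sub h2) h3
  rw [a3, a2, a1]
  ring

theorem zt_meas64 (ρ : Measure ℝ) (q : ℝ) : Measurable (zt ρ q) := by
  unfold zt
  refine Measurable.sub_const ?_ _
  exact Measurable.ite measurableSet_Ioi measurable_const measurable_const

theorem zt_abs64 (ρ : Measure ℝ) [IsProbabilityMeasure ρ] (q v : ℝ) : |zt ρ q v| ≤ 1 := by
  have h0 : 0 ≤ ρ.real (Set.Ioi q) := measureReal_nonneg
  have h1 : ρ.real (Set.Ioi q) ≤ 1 := measureReal_le_one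
  unfold zt
  rw [abs_le]
  by_cases hv : q < v
  · rw [if_pos hv]
    constructor <;> linarith
  · rw [if_neg hv]
    constructor <;> linarith

/-- (i) The mean of the test function. -/
theorem IT_zt (hd : 0 < d) (ρ : Measure ℝ) [IsProbabilityMeasure ρ] (β q : ℝ) (h : Vec d)
    (n τ t : ℕ) (m : Vec d) (r : ℝ) :
    ∑ y ∈ boxF d n, ∫ η, zt ρ q (η (τ, y)) * pe β h η (K1 (n := n) τ t m r y) ∂(law d ρ) =
      ∫ η, pe β h η (fun s : Fin n → Step d =>
        ∑ y ∈ boxF d n, zt ρ q (η (τ, y)) * K1 τ t m r y s) ∂(law d ρ) := by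
  rw [← integral_finsetSum]
  · refine integral_congr_ae (ae_of_all _ fun η => ?_)
    simp only
    rw [IT_sum]
    exact Finset.sum_congr rfl fun y _ => (IT_mul β h η _ _).symm
  · intro y _
    have h1 : (fun η : Env d => zt ρ q (η (τ, y)) * pe β h η (K1 (n := n) τ t m r y)) =
        fun η => pe β h η (fun s : Fin n → Step d => zt ρ q (η (τ, y)) * K1 τ t m r y s) := by
      funext η
      rw [IT_mul]
    rw [h1]
    refine IT_int hd ρ β h (fun s => ?_) (B := 1) fun η s => ?_
    · exact ((zt_meas64 ρ q).comp (measurable_pi_apply _)).mul_const _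
    · rw [abs_mul]
      have h2 : |K1 τ t m r y s| ≤ 1 := ite_abs64 _
      have h3 := zt_abs64 ρ q (η (τ, y))
      nlinarith [abs_nonneg (K1 τ t m r y s), abs_nonneg (zt ρ q (η (τ, y)))]

theorem K2_sum64 (τ t : ℕ) (m : Vec d) (r : ℝ) (s : Fin n → Step d) :
    ∑ y ∈ boxF d n, K2 τ t m r y s = (if r < inc τ t m s then (1 : ℝ) else 0) := by
  classical
  rw [Finset.sum_eq_single (pos s τ)]
  · unfold K2 inc
    by_cases hr : r < ‖emb (pos s t) - emb (pos s τ) - m‖
    · rw [if_pos ⟨rfl, hr⟩, if_pos hr]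
    · rw [if_neg (fun hh => hr hh.2), if_neg hr]
  · intro y _ hy
    unfold K2
    rw [if_neg (fun hh => hy hh.1.symm)]
  · intro hy
    exact absurd (pos_mem_box s τ) hy

/-- (ii) The tail of the window. -/
theorem IT_tl (hd : 0 < d) (ρ : Measure ℝ) [IsProbabilityMeasure ρ] (β : ℝ) (h : Vec d)
    (n τ t : ℕ) (m : Vec d) (r : ℝ) :
    ∑ y ∈ boxF d n, ∫ η, pe β h η (K2 (n := n) τ t m r y) ∂(law d ρ) = Tl ρ β h n τ t m r := by
  unfold Tl
  rw [← integral_finsetSum]
  · refine integral_congr_ae (ae_of_all _ fun η => ?_)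
    simp only
    rw [← IT_sum]
    congr 1
    funext s
    convert K2_sum64 τ t m r s
  · intro y _
    exact IT_int hd ρ β h (fun s => measurable_const) (B := 1) fun η s => by
      unfold K2
      exact ite_abs64 _

open Classical in
theorem K3_le64 (β b : ℝ) (hβ : 0 ≤ β) (η : Env d) (τ t : ℕ) (m : Vec d) (r : ℝ)
    (s s' : Fin n → Step d) :
    Real.exp (-(2 * β * b)) * ((if 2 * r < ‖emb (pos s t) - emb (pos s' t)‖ then (1 : ℝ) else 0) -
      (if r < inc τ t m s then (1 : ℝ) else 0) - (if r < inc τ t m s' then (1 : ℝ) else 0) -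
      (if b < |η (τ, pos s τ)| then (1 : ℝ) else 0)) ≤
      ∑ y ∈ boxF d n, Real.exp (-(2 * β * |η (τ, y)|)) * K3 τ t m r y s s' := by
  have h1 : ∑ y ∈ boxF d n, Real.exp (-(2 * β * |η (τ, y)|)) * K3 τ t m r y s s' =
      Real.exp (-(2 * β * |η (τ, pos s τ)|)) * (if pos s' τ ≠ pos s τ ∧
        r < ‖emb (pos s' t) - emb (pos s τ) - m‖ then (1 : ℝ) else 0) := by
    rw [Finset.sum_eq_single (pos s τ)]
    · unfold K3
      by_cases hr : pos s' τ ≠ pos s τ ∧ r < ‖emb (pos s' t) - emb (pos s τ) - m‖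
      · rw [if_pos hr, if_pos ⟨rfl, hr⟩]
      · rw [if_neg hr, if_neg (fun hh => hr hh.2)]
    · intro y _ hy
      unfold K3
      rw [if_neg (fun hh => hy hh.1.symm), mul_zero]
    · intro hy
      exact absurd (pos_mem_box s τ) hy
  rw [h1]
  have h0 : 0 ≤ Real.exp (-(2 * β * |η (τ, pos s τ)|)) * (if pos s' τ ≠ pos s τ ∧
        r < ‖emb (pos s' t) - emb (pos s τ) - m‖ then (1 : ℝ) else 0) := by
    refine mul_nonneg (Real.exp_pos _).le ?_
    split_ifs <;> norm_num
  have hE := Real.exp_pos (-(2 * β * b))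
  by_cases ha : 2 * r < ‖emb (pos s t) - emb (pos s' t)‖
  · by_cases hi : r < inc τ t m s
    · refine le_trans ?_ h0
      rw [if_pos ha, if_pos hi]
      have h2 : (0 : ℝ) ≤ if r < inc τ t m s' then (1 : ℝ) else 0 := by split_ifs <;> norm_num
      have h3 : (0 : ℝ) ≤ if b < |η (τ, pos s τ)| then (1 : ℝ) else 0 := by
        split_ifs <;> norm_num
      nlinarith
    · by_cases hi' : r < inc τ t m s'
      · refine le_trans ?_ h0
        rw [if_pos ha, if_neg hi, if_pos hi']
        have h3 : (0 : ℝ) ≤ if b < |η (τ, pos s τ)| then (1 : ℝ) else 0 := by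
          split_ifs <;> norm_num
        nlinarith
      · by_cases hb : b < |η (τ, pos s τ)|
        · refine le_trans ?_ h0
          rw [if_pos ha, if_neg hi, if_neg hi', if_pos hb]
          simp
        · have hd2 : r < ‖emb (pos s' t) - emb (pos s τ) - m‖ := by
            have e1 : emb (pos s t) - emb (pos s' t) =
                (emb (pos s t) - emb (pos s τ) - m) - (emb (pos s' t) - emb (pos s τ) - m) := by
              abel
            have e2 : ‖emb (pos s t) - emb (pos s' t)‖ ≤ ‖emb (pos s t) - emb (pos s τ) - m‖ +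
                ‖emb (pos s' t) - emb (pos s τ) - m‖ := by
              rw [e1]
              exact norm_sub_le _ _
            have e3 : ‖emb (pos s t) - emb (pos s τ) - m‖ ≤ r := not_lt.mp hi
            linarith
          have hne : pos s' τ ≠ pos s τ := by
            intro hh
            apply hi'
            unfold inc
            rw [hh]
            exact hd2
          rw [if_pos ha, if_neg hi, if_neg hi', if_neg hb, if_pos ⟨hne, hd2⟩]
          simp only [sub_zero, mul_one]
          rw [Real.exp_le_exp, neg_le_neg_iff]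
          exact mul_le_mul_of_nonneg_left (not_lt.mp hb) (by positivity)
  · refine le_trans ?_ h0
    rw [if_neg ha]
    have h2 : (0 : ℝ) ≤ if r < inc τ t m s' then (1 : ℝ) else 0 := by split_ifs <;> norm_num
    have h3 : (0 : ℝ) ≤ if b < |η (τ, pos s τ)| then (1 : ℝ) else 0 := by
      split_ifs <;> norm_num
    have h4 : (0 : ℝ) ≤ if r < inc τ t m s then (1 : ℝ) else 0 := by split_ifs <;> norm_num
    nlinarith

open Classical in
/-- (iii), at one environment. -/
theorem IT_rp1 (hd : 0 < d) (β b : ℝ) (hβ : 0 ≤ β) (h : Vec d) (η : Env d) (n τ t : ℕ)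
    (m : Vec d) (r : ℝ) :
    Real.exp (-(2 * β * b)) * (pe2 β h η (fun s s' : Fin n → Step d =>
        if 2 * r < ‖emb (pos s t) - emb (pos s' t)‖ then (1 : ℝ) else 0) -
      pe β h η (fun s : Fin n → Step d => if r < inc τ t m s then (1 : ℝ) else 0) -
      pe β h η (fun s : Fin n → Step d => if r < inc τ t m s then (1 : ℝ) else 0) -
      pe β h η (fun s : Fin n → Step d => if b < |η (τ, pos s τ)| then (1 : ℝ) else 0)) ≤
    ∑ y ∈ boxF d n, Real.exp (-(2 * β * |η (τ, y)|)) * pe2 β h η (K3 (n := n) τ t m r y) := by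
  have h1 : ∑ y ∈ boxF d n, Real.exp (-(2 * β * |η (τ, y)|)) *
      pe2 β h η (K3 (n := n) τ t m r y) = pe β h η (fun s : Fin n → Step d =>
        pe β h η fun s' : Fin n → Step d =>
          ∑ y ∈ boxF d n, Real.exp (-(2 * β * |η (τ, y)|)) * K3 τ t m r y s s') := by
    simp only [IT_sum, IT_mul]
    rfl
  rw [h1]
  have h2 : Real.exp (-(2 * β * b)) * (pe2 β h η (fun s s' : Fin n → Step d =>
        if 2 * r < ‖emb (pos s t) - emb (pos s' t)‖ then (1 : ℝ) else 0) -
      pe β h η (fun s : Fin n → Step d => if r < inc τ t m s then (1 : ℝ) else 0) -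
      pe β h η (fun s : Fin n → Step d => if r < inc τ t m s then (1 : ℝ) else 0) -
      pe β h η (fun s : Fin n → Step d => if b < |η (τ, pos s τ)| then (1 : ℝ) else 0)) =
      pe β h η (fun s : Fin n → Step d => pe β h η fun s' : Fin n → Step d =>
        Real.exp (-(2 * β * b)) * ((if 2 * r < ‖emb (pos s t) - emb (pos s' t)‖ then (1 : ℝ)
          else 0) - (if r < inc τ t m s then (1 : ℝ) else 0) -
          (if r < inc τ t m s' then (1 : ℝ) else 0) -
          (if b < |η (τ, pos s τ)| then (1 : ℝ) else 0))) := by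
    simp only [IT_mul, IT_sub, IT_const hd]
    rfl
  rw [h2]
  exact IT_mono hd β h η fun s => IT_mono hd β h η fun s' => K3_le64 β b hβ η τ t m r s s'

open Classical in
/-- (iii) The separated replicas. -/
theorem IT_rp (hd : 0 < d) (ρ : Measure ℝ) [IsProbabilityMeasure ρ] (β b : ℝ) (hβ : 0 ≤ β)
    (h : Vec d) (n τ t : ℕ) (m : Vec d) (r : ℝ) :
    Real.exp (-(2 * β * b)) *
      (Rp ρ β h n t (2 * r) - 2 * Tl ρ β h n τ t m r - Dl ρ β h n τ b) ≤
    ∑ y ∈ boxF d n, ∫ η, Real.exp (-(2 * β * |η (τ, y)|)) *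
      pe2 β h η (K3 (n := n) τ t m r y) ∂(law d ρ) := by
  have i1 : Integrable (fun η => pe2 β h η (fun s s' : Fin n → Step d =>
      if 2 * r < ‖emb (pos s t) - emb (pos s' t)‖ then (1 : ℝ) else 0)) (law d ρ) := by
    unfold pe2
    refine IT_int hd ρ β h (fun s => IT_meas β h fun s' => measurable_const) (B := 1)
      fun η s => IT_abs hd β h η fun s' => ite_abs64 _
  have i2 : Integrable (fun η => pe β h η (fun s : Fin n → Step d =>
      if r < inc τ t m s then (1 : ℝ) else 0)) (law d ρ) :=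
    IT_int hd ρ β h (fun s => measurable_const) (B := 1) fun η s => ite_abs64 _
  have i3 : Integrable (fun η => pe β h η (fun s : Fin n → Step d =>
      if b < |η (τ, pos s τ)| then (1 : ℝ) else 0)) (law d ρ) := by
    refine IT_int hd ρ β h (fun s => ?_) (B := 1) fun η s => ite_abs64 _
    refine Measurable.ite ?_ measurable_const measurable_const
    exact measurableSet_lt measurable_const (continuous_abs.measurable.comp
      (measurable_pi_apply _))
  have i4 : ∀ y ∈ boxF d n, Integrable (fun η => Real.exp (-(2 * β * |η (τ, y)|)) *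
      pe2 β h η (K3 (n := n) τ t m r y)) (law d ρ) := by
    intro y _
    have h1 : (fun η : Env d => Real.exp (-(2 * β * |η (τ, y)|)) *
        pe2 β h η (K3 (n := n) τ t m r y)) =
        fun η => pe β h η (fun s : Fin n → Step d => Real.exp (-(2 * β * |η (τ, y)|)) *
          pe β h η (K3 (n := n) τ t m r y s)) := by
      funext η
      rw [IT_mul]
      rfl
    rw [h1]
    refine IT_int hd ρ β h (fun s => ?_) (B := 1) fun η s => ?_
    · refine Measurable.mul ?_ (IT_meas β h fun s' => measurable_const)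
      refine Real.measurable_exp.comp (Measurable.neg (Measurable.const_mul ?_ _))
      exact continuous_abs.measurable.comp (measurable_pi_apply _)
    · rw [abs_mul]
      have h2 : |pe β h η (K3 (n := n) τ t m r y s)| ≤ 1 :=
        IT_abs hd β h η fun s' => by
          unfold K3
          exact ite_abs64 _
      have h3 : |Real.exp (-(2 * β * |η (τ, y)|))| ≤ 1 := by
        rw [abs_of_pos (Real.exp_pos _), Real.exp_le_one_iff, neg_nonpos]
        positivity
      calc |Real.exp (-(2 * β * |η (τ, y)|))| * |pe β h η (K3 (n := n) τ t m r y s)| ≤ 1 * 1 :=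
            mul_le_mul h3 h2 (abs_nonneg _) zero_le_one
        _ = 1 := one_mul 1
  have e1 : Real.exp (-(2 * β * b)) *
      (Rp ρ β h n t (2 * r) - 2 * Tl ρ β h n τ t m r - Dl ρ β h n τ b) =
      ∫ η, Real.exp (-(2 * β * b)) * (pe2 β h η (fun s s' : Fin n → Step d =>
        if 2 * r < ‖emb (pos s t) - emb (pos s' t)‖ then (1 : ℝ) else 0) -
      pe β h η (fun s : Fin n → Step d => if r < inc τ t m s then (1 : ℝ) else 0) -
      pe β h η (fun s : Fin n → Step d => if r < inc τ t m s then (1 : ℝ) else 0) -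
      pe β h η (fun s : Fin n → Step d => if b < |η (τ, pos s τ)| then (1 : ℝ) else 0))
        ∂(law d ρ) := by
    rw [integral_const_mul, int_sub64 i1 i2 i3]
    rfl
  rw [e1, ← integral_finsetSum _ i4]
  refine integral_mono ?_ (integrable_finsetSum _ i4) fun η => ?_
  · exact (((i1.sub i2).sub i2).sub i3).const_mul _
  · exact IT_rp1 hd β b hβ h η n τ t m r

open Classical in
/-- **Leaf InT.** -/
theorem InT64 {ρ : Measure ℝ} [IsProbabilityMeasure ρ] (hd : 0 < d) {β : ℝ} (hβ : 0 < β)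
    (hDu : DuI d ρ β) (hSi : SiI d ρ β) : InT d ρ β := by
  obtain ⟨q, c, hc0, hc1, hSi⟩ := hSi
  refine ⟨c, hc0, hc1, fun h n τ t hτ hτt htn m r b hr hb => ?_⟩
  have hD : 0 < (3 * r) ^ d := by positivity
  have hΔ : 0 ≤ En ρ β h n t (τ - 1) - En ρ β h n t τ := by
    have := hDu q h n τ t hτ hτt htn m r 0 hr le_rfl (by rw [zero_mul]; exact zero_le_one)
    simpa using this
  refine ⟨by linarith, fun hU => ?_⟩
  set E : ℝ := Real.exp (-(2 * β * b)) with hE
  set U : ℝ := c * E * (Rp ρ β h n t (2 * r) - 2 * Tl ρ β h n τ t m r - Dl ρ β h n τ b) -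
    Tl ρ β h n τ t m r with hUd
  have hEpos : 0 < E := Real.exp_pos _
  have hE1 : E ≤ 1 := by
    rw [hE, Real.exp_le_one_iff, neg_nonpos]
    positivity
  have hTl : 0 ≤ Tl ρ β h n τ t m r := by
    refine integral_nonneg fun η => ?_
    have h1 := IT_mono hd β h η (f := fun _ : Fin n → Step d => (0 : ℝ))
      (g := fun s => if r < inc τ t m s then (1 : ℝ) else 0)
      (fun s => by split_ifs <;> norm_num)
    rw [IT_const hd] at h1
    exact h1
  have hDl : 0 ≤ Dl ρ β h n τ b := by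
    refine integral_nonneg fun η => ?_
    have h1 := IT_mono hd β h η (f := fun _ : Fin n → Step d => (0 : ℝ))
      (g := fun s => if b < |η (τ, pos s τ)| then (1 : ℝ) else 0)
      (fun s => by split_ifs <;> norm_num)
    rw [IT_const hd] at h1
    exact h1
  have hRp : Rp ρ β h n t (2 * r) ≤ 1 := by
    have h1 : Rp ρ β h n t (2 * r) ≤ ∫ η : Env d, (1 : ℝ) ∂(law d ρ) := by
      refine integral_mono_of_nonneg (ae_of_all _ fun η => ?_) (integrable_const 1)
        (ae_of_all _ fun η => ?_)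
      · have h1 := IT_mono hd β h η (f := fun _ : Fin n → Step d => (0 : ℝ))
          (g := fun s => pe β h η fun s' : Fin n → Step d =>
            if 2 * r < ‖emb (pos s t) - emb (pos s' t)‖ then (1 : ℝ) else 0)
          (fun s => by
            have h2 := IT_mono hd β h η (f := fun _ : Fin n → Step d => (0 : ℝ))
              (g := fun s' : Fin n → Step d =>
                if 2 * r < ‖emb (pos s t) - emb (pos s' t)‖ then (1 : ℝ) else 0)
              (fun s' => by split_ifs <;> norm_num)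
            rw [IT_const hd] at h2
            exact h2)
        rw [IT_const hd] at h1
        exact h1
      · exact (abs_le.mp (IT_abs hd β h η fun s => IT_abs hd β h η fun s' => ite_abs64 _)).2
    simpa using h1
  have hU1 : U ≤ 1 := by
    have h1 : Rp ρ β h n t (2 * r) - 2 * Tl ρ β h n τ t m r - Dl ρ β h n τ b ≤ 1 := by linarith
    have h2 : c * E * (Rp ρ β h n t (2 * r) - 2 * Tl ρ β h n τ t m r - Dl ρ β h n τ b) ≤
        c * E * 1 := mul_le_mul_of_nonneg_left h1 (by positivity)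
    have h3 : c * E ≤ 1 := by nlinarith
    rw [hUd]
    linarith
  -- the sum of the influences
  have hS : U ≤ ∑ y ∈ boxF d n, ∫ η, zt ρ q (η (τ, y)) *
      pe β h η (K1 (n := n) τ t m r y) ∂(law d ρ) := by
    have h1 : ∑ y ∈ boxF d n, (c * (∫ η, Real.exp (-(2 * β * |η (τ, y)|)) *
        pe2 β h η (K3 (n := n) τ t m r y) ∂(law d ρ)) -
        ∫ η, pe β h η (K2 (n := n) τ t m r y) ∂(law d ρ)) ≤
        ∑ y ∈ boxF d n, ∫ η, zt ρ q (η (τ, y)) *
          pe β h η (K1 (n := n) τ t m r y) ∂(law d ρ) :=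
      Finset.sum_le_sum fun y _ => hSi h n τ t hτ hτt htn y m r
    rw [Finset.sum_sub_distrib, ← Finset.mul_sum, IT_tl hd] at h1
    have h2 := mul_le_mul_of_nonneg_left (IT_rp hd ρ β b hβ.le h n τ t m r) hc0.le
    rw [hUd]
    calc c * E * (Rp ρ β h n t (2 * r) - 2 * Tl ρ β h n τ t m r - Dl ρ β h n τ b) -
        Tl ρ β h n τ t m r = c * (E * (Rp ρ β h n t (2 * r) - 2 * Tl ρ β h n τ t m r -
          Dl ρ β h n τ b)) - Tl ρ β h n τ t m r := by ring
      _ ≤ _ := by linarith
  have hg0 : 0 ≤ U / (2 * (3 * r) ^ d) := by positivity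
  have hgD : U / (2 * (3 * r) ^ d) * (3 * r) ^ d = U / 2 := by
    field_simp
  have hdu := hDu q h n τ t hτ hτt htn m r (U / (2 * (3 * r) ^ d)) hr hg0 (by
    rw [hgD]
    linarith)
  have h5 : ∫ η, pe β h η (fun s : Fin n → Step d => ∑ y ∈ boxF d n,
      if ‖emb (pos s t) - emb y - m‖ ≤ r then zt ρ q (η (τ, y)) else 0) ∂(law d ρ) =
      ∑ y ∈ boxF d n, ∫ η, zt ρ q (η (τ, y)) *
        pe β h η (K1 (n := n) τ t m r y) ∂(law d ρ) := by
    rw [IT_zt hd]
    refine integral_congr_ae (ae_of_all _ fun η => ?_)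
    simp only
    congr 1
    funext s
    refine Finset.sum_congr rfl fun y _ => ?_
    unfold K1
    split_ifs <;> simp
  rw [h5] at hdu
  have h6 : U / (2 * (3 * r) ^ d) * U - (U / (2 * (3 * r) ^ d)) ^ 2 * (3 * r) ^ d ≤
      En ρ β h n t (τ - 1) - En ρ β h n t τ := by
    refine le_trans ?_ hdu
    have := mul_le_mul_of_nonneg_left hS hg0
    linarith
  have h7 : U / (2 * (3 * r) ^ d) * U - (U / (2 * (3 * r) ^ d)) ^ 2 * (3 * r) ^ d =
      U ^ 2 / (4 * (3 * r) ^ d) := by
    field_simp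
    ring
  rw [h7, div_le_iff₀ (by positivity)] at h6
  linarith

end Pool.Agent.W_7d29a1_S90
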