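import Pool.Agent.W_7d29a1_S90.SiI39

/-!
The one site inequality for any event of the walks and with a weight which does not see the site.
-/

namespace Pool.Agent.W_7d29a1_S90

open MeasureTheory ProbabilityTheory Filter Topology Pool.Agent.W_MP_7d29a1_pr
  Pool.Agent.W_7d29a1_h46 Pool.Agent.W_7d29a1_h46u Pool.Agent.W_7d29a1_D2.B35
  Pool.Agent.W_7d29a1_Q29

variable {d : ℕ} {ρ : Measure ℝ} [IsProbabilityMeasure ρ]

open Classical in
/-- **The one site inequality**, any event `Fr` of the walks, any weight `χ`. -/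
theorem sibG39 (hd : 0 < d) (hρ : EM ρ) (hnc : ∀ c : ℝ, ρ {c} ≠ 1) {β : ℝ} (hβ : 0 < β) :
    ∃ q c : ℝ, 0 < c ∧ c ≤ 1 ∧ ∀ (h : Vec d) (n τ : ℕ), 1 ≤ τ → τ ≤ n →
      ∀ (y : Site d) (Fr : (Fin n → Step d) → Prop) (χ : Env d → ℝ), Measurable χ →
        (∀ η, 0 ≤ χ η ∧ χ η ≤ 1) → DependsOn χ {(τ, y)}ᶜ →
        c * (∫ η, χ η * pe2 β h η (fun s s' : Fin n → Step d =>
            if pos s τ = y ∧ pos s' τ ≠ y ∧ Fr s' then (1 : ℝ) else 0) ∂(law d ρ)) -
          (∫ η, χ η * pe β h η (fun s : Fin n → Step d =>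
            if pos s τ = y ∧ Fr s then (1 : ℝ) else 0) ∂(law d ρ)) ≤
        ∫ η, χ η * (zt ρ q (η (τ, y)) * pe β h η (fun s : Fin n → Step d =>
          if ¬ Fr s then (1 : ℝ) else 0)) ∂(law d ρ) := by
  obtain ⟨q, c, hc0, hc1, hmain⟩ := scalarI39 hρ hnc hβ
  refine ⟨q, c, hc0, hc1, fun h n τ hτ hτn y Fr χ hχm hχ hχd => ?_⟩
  have b2 : ∀ s s' : Fin n → Step d, (0 : ℝ) ≤ (if pos s τ = y ∧ pos s' τ ≠ y ∧ Fr s' then (1 : ℝ)
      else 0) ∧ (if pos s τ = y ∧ pos s' τ ≠ y ∧ Fr s' then (1 : ℝ) else 0) ≤ 1 := by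
    intro s s'
    split_ifs <;> constructor <;> norm_num
  have b1 : ∀ s : Fin n → Step d, (0 : ℝ) ≤ (if pos s τ = y ∧ Fr s then (1 : ℝ)
      else 0) ∧ (if pos s τ = y ∧ Fr s then (1 : ℝ) else 0) ≤ 1 := by
    intro s
    split_ifs <;> constructor <;> norm_num
  have b0 : ∀ s : Fin n → Step d, (0 : ℝ) ≤ (if ¬ Fr s then (1 : ℝ) else 0) ∧
      (if ¬ Fr s then (1 : ℝ) else 0) ≤ 1 := by
    intro s
    split_ifs <;> constructor <;> norm_num
  have I2 : Integrable (fun η : Env d => χ η * pe2 β h η (fun s s' : Fin n → Step d =>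
      if pos s τ = y ∧ pos s' τ ≠ y ∧ Fr s' then (1 : ℝ) else 0)) (law d ρ) :=
    int_bd39 (hχm.mul (meas_pe239 β h _)) fun η =>
      ⟨mul_nonneg (hχ η).1 (pe2_bd39 hd β h η b2).1,
        mul_le_one₀ (hχ η).2 (pe2_bd39 hd β h η b2).1 (pe2_bd39 hd β h η b2).2⟩
  have I1 : Integrable (fun η : Env d => χ η * pe β h η (fun s : Fin n → Step d =>
      if pos s τ = y ∧ Fr s then (1 : ℝ) else 0)) (law d ρ) :=
    int_bd39 (hχm.mul (meas_pe39 β h _)) fun η =>
      ⟨mul_nonneg (hχ η).1 (pe_bd39 hd β h η b1).1,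
        mul_le_one₀ (hχ η).2 (pe_bd39 hd β h η b1).1 (pe_bd39 hd β h η b1).2⟩
  have I0 : Integrable (fun η : Env d => χ η * (zt ρ q (η (τ, y)) *
      pe β h η (fun s : Fin n → Step d => if ¬ Fr s then (1 : ℝ) else 0))) (law d ρ) := by
    refine Integrable.of_bound (hχm.mul (((meas_zt39 ρ q).comp (measurable_pi_apply (τ, y))).mul
      (meas_pe39 β h _))).aestronglyMeasurable 1 (Eventually.of_forall fun η => ?_)
    have h1 := pe_bd39 hd β h η b0
    have h2 := zt_bd39 ρ q (η (τ, y))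
    rw [norm_mul, norm_mul, Real.norm_eq_abs, Real.norm_eq_abs, Real.norm_eq_abs,
      abs_of_nonneg (hχ η).1, abs_of_nonneg h1.1]
    exact mul_le_one₀ (hχ η).2 (mul_nonneg (abs_nonneg _) h1.1) (mul_le_one₀ h2 h1.1 h1.2)
  rw [D85.integral_upd (τ, y) I2, D85.integral_upd (τ, y) I1, D85.integral_upd (τ, y) I0,
    ← integral_const_mul, ← integral_sub ((D85.integrable_upd (τ, y) I2).const_mul c)
      (D85.integrable_upd (τ, y) I1)]
  refine integral_mono (((D85.integrable_upd (τ, y) I2).const_mul c).sub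
    (D85.integrable_upd (τ, y) I1)) (D85.integrable_upd (τ, y) I0) fun η => ?_
  obtain ⟨a, b, e, f, he, hea, hf, hfb, hab, hsh⟩ := shape39 hd β h η y hτ hτn Fr
  have h1 := mul_le_mul_of_nonneg_left (hmain a b e f he hea hf hfb hab) (hχ η).1
  simp only [Function.update_self]
  have e1 : ∀ r' : ℝ, pe β h (Function.update η (τ, y) r')
      (fun s => if pos s τ = y ∧ Fr s then (1 : ℝ) else 0) = _ := fun r' => (hsh r').1
  have e2 : ∀ r' : ℝ, pe β h (Function.update η (τ, y) r')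
      (fun s => if ¬ Fr s then (1 : ℝ) else 0) = _ := fun r' => (hsh r').2.1
  have e3 : ∀ r' : ℝ, pe2 β h (Function.update η (τ, y) r') (fun s s' => if pos s τ = y ∧
      pos s' τ ≠ y ∧ Fr s' then (1 : ℝ) else 0) = _ := fun r' => (hsh r').2.2
  have e4 : ∀ r' : ℝ, χ (Function.update η (τ, y) r') = χ η := fun r' => D85.dep_upd hχd η r'
  simp only [e1, e2, e3, e4, integral_const_mul]
  refine le_trans (le_of_eq ?_) h1
  ring

open Classical in
/-- The same with a set of end points and a weight of the past: helper63's literal. -/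
theorem sib39 (hd : 0 < d) (hρ : EM ρ) (hnc : ∀ c : ℝ, ρ {c} ≠ 1) {β : ℝ} (hβ : 0 < β) :
    ∃ q c : ℝ, 0 < c ∧ c ≤ 1 ∧ ∀ (h : Vec d) (n τ t : ℕ), 1 ≤ τ → τ < t → t ≤ n →
      ∀ (y : Site d) (B : Set (Site d)) (χ : Env d → ℝ), Measurable χ →
        (∀ η, 0 ≤ χ η ∧ χ η ≤ 1) → DependsOn χ {p | p.1 < τ} →
        c * (∫ η, χ η * pe2 β h η (fun s s' : Fin n → Step d =>
            if pos s τ = y ∧ pos s' τ ≠ y ∧ pos s' t ∉ B then (1 : ℝ) else 0) ∂(law d ρ)) -
          (∫ η, χ η * pe β h η (fun s : Fin n → Step d =>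
            if pos s τ = y ∧ pos s t ∉ B then (1 : ℝ) else 0) ∂(law d ρ)) ≤
        ∫ η, χ η * (zt ρ q (η (τ, y)) * pe β h η (fun s : Fin n → Step d =>
          if pos s t ∈ B then (1 : ℝ) else 0)) ∂(law d ρ) := by
  obtain ⟨q, c, hc0, hc1, hmain⟩ := sibG39 (d := d) hd hρ hnc hβ
  refine ⟨q, c, hc0, hc1, fun h n τ t hτ htt htn y B χ hχm hχ hχd => ?_⟩
  have h1 := hmain h n τ hτ (htt.le.trans htn) y (fun s => pos s t ∉ B) χ hχm hχ (by
    intro η η' hη
    refine hχd fun p hp => hη p ?_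
    rw [Set.mem_compl_iff, Set.mem_singleton_iff]
    rintro rfl
    exact absurd hp (lt_irrefl τ))
  have key : ∀ (P Q : Prop) (_ : Decidable P) (_ : Decidable Q), (P ↔ Q) →
      (if P then (1 : ℝ) else 0) = if Q then (1 : ℝ) else 0 := by
    intro P Q _ _ hPQ
    by_cases hP : P
    · rw [if_pos hP, if_pos (hPQ.1 hP)]
    · rw [if_neg hP, if_neg (fun hQ => hP (hPQ.2 hQ))]
  refine le_trans (le_of_eq ?_) (h1.trans (le_of_eq ?_))
  · refine congrArg₂ (· - ·) (congrArg (c * ·) ?_) ?_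
    · refine integral_congr_ae (Eventually.of_forall fun η => ?_)
      show χ η * _ = χ η * _
      congr 2
      funext s s'
      exact key _ _ _ _ Iff.rfl
    · refine integral_congr_ae (Eventually.of_forall fun η => ?_)
      show χ η * _ = χ η * _
      congr 2
      funext s
      exact key _ _ _ _ Iff.rfl
  · refine integral_congr_ae (Eventually.of_forall fun η => ?_)
    show χ η * (zt ρ q (η (τ, y)) * _) = χ η * (zt ρ q (η (τ, y)) * _)
    congr 3
    funext s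
    exact key _ _ _ _ not_not

end Pool.Agent.W_7d29a1_S90
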