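import Pool.Agent.W_7d29a1_S90.Top2x17
import Pool.Agent.W_7d29a1_S90.TopP17

/-!
Two replicas in the same environment: transfer to an arbitrary probability space.
-/

namespace Pool.Agent.W_7d29a1_S90

open MeasureTheory ProbabilityTheory Filter Topology Pool.Agent.W_MP_7d29a1_pr
  Pool.Agent.W_7d29a1_h46 Pool.Agent.W_7d29a1_h46u Pool.Agent.W_7d29a1_D2.B35
  Pool.Agent.W_7d29a1_Q29

variable {Ω : Type*} [MeasurableSpace Ω] {μ : Measure Ω} [IsProbabilityMeasure μ] {d : ℕ}
  {ρ : Measure ℝ} [IsProbabilityMeasure ρ] {ω : ℕ × Site d → Ω → ℝ} {β : ℝ}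

lemma pe_meas17 (β : ℝ) (h : Vec d) {n : ℕ} (f : (Fin n → Step d) → ℝ) :
    Measurable fun η : Env d => pe β h η f := by
  unfold pe Z
  exact (Finset.measurable_sum _ fun s _ => (measurable_wgt β h s).mul_const _).div
    (measurable_ZT β h _)

lemma pe2_eq17 (β : ℝ) (h : Vec d) (η : Env d) {n : ℕ}
    (g : (Fin n → Step d) → (Fin n → Step d) → ℝ) :
    pe2 β h η g = ∑ s : Fin n → Step d, ∑ s' : Fin n → Step d,
      PolT β h η {s} * PolT β h η {s'} * g s s' := by
  unfold pe2 pe
  rw [Finset.sum_div]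
  refine Finset.sum_congr rfl fun s _ => ?_
  simp only
  rw [Finset.sum_div, Finset.mul_sum, Finset.sum_div]
  refine Finset.sum_congr rfl fun s' _ => ?_
  rw [PolT_single17, PolT_single17]
  ring

/-- Transfer of the mean of a function of two walks in the same environment. -/
lemma tr2x17 (hω : IID μ ρ ω) (h : Vec d) {n : ℕ}
    (g : (Fin n → Step d) → (Fin n → Step d) → ℝ) :
    ∫ x, ∑ s : Fin n → Step d, ∑ s' : Fin n → Step d, PolT β h (fun p => ω p x) {s} *
      PolT β h (fun p => ω p x) {s'} * g s s' ∂μ = ∫ η, pe2 β h η g ∂(law d ρ) := by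
  have hmp := mp_env hω
  have hm : Measurable fun η : Env d => pe2 β h η g := by
    have h1 : (fun η : Env d => pe2 β h η g) =
        fun η => ∑ s : Fin n → Step d, wgt β h η s / Z β h η n * pe β h η (fun s' => g s s') := by
      funext η
      unfold pe2 pe
      rw [Finset.sum_div]
      refine Finset.sum_congr rfl fun s _ => ?_
      ring
    rw [h1]
    exact Finset.measurable_sum _ fun s _ => (pw17_meas β h s).mul (pe_meas17 β h _)
  rw [← hmp.map_eq, integral_map hmp.measurable.aemeasurable hm.aestronglyMeasurable]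
  refine integral_congr_ae (ae_of_all _ fun x => ?_)
  exact (pe2_eq17 β h _ g).symm

open Classical in
/-- The probability of separated replicas. -/
lemma rp17 (hω : IID μ ρ ω) (h : Vec d) (n t : ℕ) (r : ℝ) :
    ∫ x, ∑ s : Fin n → Step d, ∑ s' : Fin n → Step d, PolT β h (fun p => ω p x) {s} *
      PolT β h (fun p => ω p x) {s'} *
        (if r < ‖emb (pos s t) - emb (pos s' t)‖ then (1 : ℝ) else 0) ∂μ =
      Rp ρ β h n t r := tr2x17 hω h _

lemma Rp_anti17 (hd : 0 < d) (h : Vec d) (n t : ℕ) {r r' : ℝ} (hr : r ≤ r') :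
    Rp ρ β h n t r' ≤ Rp ρ β h n t r := by
  classical
  have e : ∀ r : ℝ, Rp ρ β h n t r = ∑ s : Fin n → Step d, ∑ s' : Fin n → Step d,
      (∫ η, wgt β h η s / Z β h η n * (wgt β h η s' / Z β h η n) ∂(law d ρ)) *
        (if r < ‖emb (pos s t) - emb (pos s' t)‖ then (1 : ℝ) else 0) := by
    intro r
    have hint : ∀ s s' : Fin n → Step d, Integrable (fun η : Env d =>
        wgt β h η s / Z β h η n * (wgt β h η s' / Z β h η n)) (law d ρ) := by
      intro s s'
      refine Integrable.of_bound ((pw17_meas β h s).mul (pw17_meas β h s')).aestronglyMeasurable 1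
        (ae_of_all _ fun η => ?_)
      rw [Real.norm_eq_abs, abs_of_nonneg (mul_nonneg (pw17_nonneg β h η s)
        (pw17_nonneg β h η s'))]
      exact mul_le_one₀ (pw17_le_one hd β h η s) (pw17_nonneg β h η s') (pw17_le_one hd β h η s')
    have e1 : ∀ η : Env d, pe2 β h η (fun s s' : Fin n → Step d =>
        if r < ‖emb (pos s t) - emb (pos s' t)‖ then (1 : ℝ) else 0) =
        ∑ s : Fin n → Step d, ∑ s' : Fin n → Step d,
          wgt β h η s / Z β h η n * (wgt β h η s' / Z β h η n) *
            (if r < ‖emb (pos s t) - emb (pos s' t)‖ then (1 : ℝ) else 0) := by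
      intro η
      rw [pe2_eq17]
      refine Finset.sum_congr rfl fun s _ => Finset.sum_congr rfl fun s' _ => ?_
      rw [PolT_single17, PolT_single17]
    unfold Rp
    simp only [e1]
    rw [integral_finsetSum _ fun s _ => integrable_finsetSum _ fun s' _ =>
      (hint s s').mul_const _]
    refine Finset.sum_congr rfl fun s _ => ?_
    rw [integral_finsetSum _ fun s' _ => (hint s s').mul_const _]
    refine Finset.sum_congr rfl fun s' _ => ?_
    rw [integral_mul_const]
  rw [e, e]
  refine Finset.sum_le_sum fun s _ => Finset.sum_le_sum fun s' _ => ?_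
  refine mul_le_mul_of_nonneg_left ?_ (integral_nonneg fun η =>
    mul_nonneg (pw17_nonneg β h η s) (pw17_nonneg β h η s'))
  split_ifs with h1 h2
  · exact le_rfl
  · exact absurd (lt_of_le_of_lt hr h1) h2
  · exact zero_le_one
  · exact le_rfl

end Pool.Agent.W_7d29a1_S90
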