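import Pool.Agent.W_7d29a1_S90.DefsS90
import Pool.Agent.W_7d29a1_h46u.ConcV

/-!
Theorem SUP, leaf V5: the upper bound of the variance of the difference of the free energies.
-/

namespace Pool.Agent.W_7d29a1_S90

open MeasureTheory ProbabilityTheory Filter Topology Pool.Agent.W_MP_7d29a1_pr
  Pool.Agent.W_7d29a1_h46 Pool.Agent.W_7d29a1_h46u Pool.Agent.W_7d29a1_D2.B35
  Pool.Agent.W_7d29a1_Q29

variable {d n : ℕ} {ρ : Measure ℝ}

/-! ### The mean under the polymer measure -/

lemma pe_add31 (β : ℝ) (h : Vec d) (η : Env d) (f g : (Fin n → Step d) → ℝ) :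
    pe β h η (fun s => f s + g s) = pe β h η f + pe β h η g := by
  unfold pe
  rw [← add_div, ← Finset.sum_add_distrib]
  congr 1
  exact Finset.sum_congr rfl fun s _ => mul_add _ _ _

lemma pe_smul31 (β : ℝ) (h : Vec d) (η : Env d) (c : ℝ) (f : (Fin n → Step d) → ℝ) :
    pe β h η (fun s => c * f s) = c * pe β h η f := by
  unfold pe
  rw [← mul_div_assoc, Finset.mul_sum]
  congr 1
  exact Finset.sum_congr rfl fun s _ => by ring

lemma pe_const31 (hd : 0 < d) (β : ℝ) (h : Vec d) (η : Env d) (c : ℝ) :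
    pe β h η (fun _ : Fin n → Step d => c) = c := by
  unfold pe
  rw [← Finset.sum_mul, ← Z_eq, mul_comm, mul_div_assoc, div_self (Z_pos hd β h η n).ne', mul_one]

lemma pe_mono31 (hd : 0 < d) (β : ℝ) (h : Vec d) (η : Env d) {f g : (Fin n → Step d) → ℝ}
    (hfg : ∀ s, f s ≤ g s) : pe β h η f ≤ pe β h η g := by
  unfold pe
  refine div_le_div_of_nonneg_right ?_ (Z_pos hd β h η n).le
  exact Finset.sum_le_sum fun s _ => mul_le_mul_of_nonneg_left (hfg s) (wgt_pos _ _ _ _).le

lemma abs_pe31 (hd : 0 < d) (β : ℝ) (h : Vec d) (η : Env d) {f : (Fin n → Step d) → ℝ} {C : ℝ}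
    (hf : ∀ s, |f s| ≤ C) : |pe β h η f| ≤ C := by
  rw [abs_le]
  constructor
  · have h1 := pe_mono31 hd β h η (f := fun _ => -C) (g := f) fun s => (abs_le.1 (hf s)).1
    rwa [pe_const31 hd] at h1
  · have h1 := pe_mono31 hd β h η (f := f) (g := fun _ => C) fun s => (abs_le.1 (hf s)).2
    rwa [pe_const31 hd] at h1

lemma measurable_pe31 (β : ℝ) (h : Vec d) (f : (Fin n → Step d) → ℝ) :
    Measurable fun η : Env d => pe β h η f := by
  unfold pe
  exact (Finset.measurable_sum _ fun s _ => (measurable_wgt β h s).mul_const _).div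
    (measurable_Z β h n)

lemma integrable_pe31 [IsProbabilityMeasure ρ] (hd : 0 < d) (β : ℝ) (h : Vec d)
    {f : (Fin n → Step d) → ℝ} {C : ℝ} (hf : ∀ s, |f s| ≤ C) :
    Integrable (fun η : Env d => pe β h η f) (law d ρ) :=
  Integrable.of_bound (measurable_pe31 β h f).aestronglyMeasurable C
    (Eventually.of_forall fun η => by
      rw [Real.norm_eq_abs]
      exact abs_pe31 hd β h η hf)

/-- The square of the mean is at most the mean of the square. -/
lemma pe_sq31 (hd : 0 < d) (β : ℝ) (h : Vec d) (η : Env d) (f : (Fin n → Step d) → ℝ) :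
    pe β h η f ^ 2 ≤ pe β h η fun s => f s ^ 2 := by
  have h1 := pe_mono31 hd β h η (f := fun s => 2 * pe β h η f * f s + -(pe β h η f ^ 2))
    (g := fun s => f s ^ 2) fun s => by nlinarith [sq_nonneg (f s - pe β h η f)]
  rw [pe_add31, pe_smul31, pe_const31 hd] at h1
  nlinarith

/-- Jensen for the change of the tilt. -/
lemma X_tilt31 (hd : 0 < d) (β : ℝ) (h e : Vec d) (η : Env d) (n : ℕ) (k : ℝ) :
    k * pe β h η (fun s : Fin n → Step d => inner ℝ e (emb (pos s n))) ≤
      X β (h + k • e) η n - X β h η n := by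
  set a : ℝ := pe β h η (fun s : Fin n → Step d => inner ℝ e (emb (pos s n))) with ha
  have hZ := Z_pos hd β h η n
  have h1 : Z β h η n * Real.exp (k * a) ≤ Z β (h + k • e) η n := by
    rw [Z_eq β (h + k • e)]
    have h2 : ∀ s : Fin n → Step d, Real.exp (k * a) * (wgt β h η s *
        (1 + (k * inner ℝ e (emb (pos s n)) - k * a))) ≤ wgt β (h + k • e) η s := by
      intro s
      have h3 : wgt β (h + k • e) η s =
          wgt β h η s * Real.exp (k * inner ℝ e (emb (pos s n))) := by
        unfold wgt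
        rw [← Real.exp_add, inner_add_left, real_inner_smul_left]
        congr 1
        ring
      have h4 : Real.exp (k * inner ℝ e (emb (pos s n))) =
          Real.exp (k * a) * Real.exp (k * inner ℝ e (emb (pos s n)) - k * a) := by
        rw [← Real.exp_add]
        congr 1
        ring
      have h5 := Real.add_one_le_exp (k * inner ℝ e (emb (pos s n)) - k * a)
      rw [h3, h4]
      calc Real.exp (k * a) * (wgt β h η s * (1 + (k * inner ℝ e (emb (pos s n)) - k * a)))
          = wgt β h η s * (Real.exp (k * a) * (k * inner ℝ e (emb (pos s n)) - k * a + 1)) := by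
            ring
        _ ≤ _ := mul_le_mul_of_nonneg_left (mul_le_mul_of_nonneg_left h5 (Real.exp_pos _).le)
            (wgt_pos _ _ _ _).le
    refine le_trans (le_of_eq ?_) (Finset.sum_le_sum fun s _ => h2 s)
    rw [← Finset.mul_sum, mul_comm]
    congr 1
    have h3 : ∑ s : Fin n → Step d, wgt β h η s * inner ℝ e (emb (pos s n)) =
        a * Z β h η n := by
      rw [ha]
      unfold pe
      rw [div_mul_cancel₀ _ hZ.ne']
    have h4 : ∑ s : Fin n → Step d, wgt β h η s *
        (1 + (k * inner ℝ e (emb (pos s n)) - k * a)) =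
        (1 - k * a) * ∑ s : Fin n → Step d, wgt β h η s +
          k * ∑ s : Fin n → Step d, wgt β h η s * inner ℝ e (emb (pos s n)) := by
      rw [Finset.mul_sum, Finset.mul_sum, ← Finset.sum_add_distrib]
      exact Finset.sum_congr rfl fun s _ => by ring
    rw [h4, h3, ← Z_eq]
    ring
  have h2 := Real.log_le_log (mul_pos hZ (Real.exp_pos _)) h1
  rw [Real.log_mul hZ.ne' (Real.exp_pos _).ne', Real.log_exp] at h2
  unfold X
  linarith

lemma abs_inner31 (e : Vec d) (s : Fin n → Step d) (i : ℕ) :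
    |inner ℝ e (emb (pos s i))| ≤ ‖e‖ * n := by
  refine (abs_real_inner_le_norm _ _).trans (mul_le_mul_of_nonneg_left ?_ (norm_nonneg e))
  rw [norm_emb]
  exact nrm_pos_le s i

/-- **Leaf V5.** -/
theorem vuT31 [IsProbabilityMeasure ρ] (hd : 0 < d) (hρ : EM ρ) (β : ℝ) : VuT d ρ β := by
  intro h e n k B hk hB hB'
  set f : (Fin n → Step d) → ℝ := fun s => inner ℝ e (emb (pos s n)) with hf
  set F : ℝ := Ft ρ β h e n n with hF
  set F' : ℝ := Ft ρ β (h + k • e) e n n with hF'
  have hfb : ∀ s, |f s| ≤ ‖e‖ * n := fun s => abs_inner31 e s n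
  have ia : Integrable (fun η : Env d => pe β h η f) (law d ρ) := integrable_pe31 hd β h hfb
  have ia' : Integrable (fun η : Env d => pe β (h + k • e) η f) (law d ρ) :=
    integrable_pe31 hd β _ hfb
  have hX : ∀ h : Vec d, Integrable (fun η : Env d => X β h η n) (law d ρ) := fun h =>
    (concU hd hρ β h n).1
  -- the two bounds
  have lo : ∀ η : Env d, k * pe β h η f ≤ X β (h + k • e) η n - X β h η n := fun η =>
    X_tilt31 hd β h e η n k
  have up : ∀ η : Env d, X β (h + k • e) η n - X β h η n ≤ k * pe β (h + k • e) η f := by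
    intro η
    have h1 := X_tilt31 hd β (h + k • e) e η n (-k)
    have h2 : h + k • e + (-k) • e = h := by
      rw [neg_smul, add_neg_cancel_right]
    rw [h2] at h1
    linarith
  -- second moments
  have sm : ∀ (h : Vec d), Sm ρ β h e n n (Ft ρ β h e n n) ≤ B →
      Integrable (fun η : Env d => (pe β h η f - Ft ρ β h e n n) ^ 2) (law d ρ) ∧
        ∫ η, (pe β h η f - Ft ρ β h e n n) ^ 2 ∂(law d ρ) ≤ B := by
    intro h hB
    have hc : ∀ s, |f s - Ft ρ β h e n n| ≤ ‖e‖ * n + |Ft ρ β h e n n| := fun s =>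
      (abs_sub _ _).trans (add_le_add (hfb s) le_rfl)
    have hc2 : ∀ s, |(f s - Ft ρ β h e n n) ^ 2| ≤ (‖e‖ * n + |Ft ρ β h e n n|) ^ 2 := by
      intro s
      rw [abs_pow]
      exact pow_le_pow_left₀ (abs_nonneg _) (hc s) 2
    have e1 : ∀ η : Env d, pe β h η f - Ft ρ β h e n n =
        pe β h η fun s => f s - Ft ρ β h e n n := by
      intro η
      have h1 : (fun s => f s - Ft ρ β h e n n) = fun s => f s + -Ft ρ β h e n n := by
        funext s
        ring
      rw [h1, pe_add31, pe_const31 hd]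
      ring
    have i1 : Integrable (fun η : Env d => (pe β h η f - Ft ρ β h e n n) ^ 2) (law d ρ) := by
      refine Integrable.of_bound
        (((measurable_pe31 β h f).sub_const _).pow_const 2).aestronglyMeasurable
        ((‖e‖ * n + |Ft ρ β h e n n|) ^ 2) (Eventually.of_forall fun η => ?_)
      rw [Real.norm_eq_abs, e1, abs_pow]
      exact pow_le_pow_left₀ (abs_nonneg _) (abs_pe31 hd β h η hc) 2
    refine ⟨i1, le_trans ?_ hB⟩
    unfold Sm
    refine integral_mono i1 (integrable_pe31 hd β h hc2) fun η => ?_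
    simp only
    rw [e1]
    exact pe_sq31 hd β h η _
  obtain ⟨i1, b1⟩ := sm h hB
  obtain ⟨i2, b2⟩ := sm (h + k • e) hB'
  rw [← hF] at i1 b1
  rw [← hF'] at i2 b2
  -- the difference
  set D : Env d → ℝ := fun η => X β (h + k • e) η n - X β h η n with hD
  set c : ℝ := k * (F + F') / 2 with hc
  have hDm : Measurable D := (measurable_X β _ n).sub (measurable_X β h n)
  have hDb : ∀ η, |D η| ≤ k * (‖e‖ * n) := by
    intro η
    have h1 := lo η
    have h2 := up η
    have h3 := abs_le.1 (abs_pe31 hd β h η hfb)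
    have h4 := abs_le.1 (abs_pe31 hd β (h + k • e) η hfb)
    have h5 := mul_le_mul_of_nonneg_left h3.1 hk
    have h6 := mul_le_mul_of_nonneg_left h4.2 hk
    rw [abs_le]
    constructor
    · show -(k * (‖e‖ * n)) ≤ X β (h + k • e) η n - X β h η n
      linarith
    · show X β (h + k • e) η n - X β h η n ≤ k * (‖e‖ * n)
      linarith
  have iD : Integrable D (law d ρ) :=
    Integrable.of_bound hDm.aestronglyMeasurable _ (Eventually.of_forall fun η => by
      rw [Real.norm_eq_abs]
      exact hDb η)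
  have iDc : ∀ c : ℝ, Integrable (fun η => (D η - c) ^ 2) (law d ρ) := by
    intro c
    refine Integrable.of_bound ((hDm.sub_const _).pow_const 2).aestronglyMeasurable
      ((k * (‖e‖ * n) + |c|) ^ 2) (Eventually.of_forall fun η => ?_)
    rw [Real.norm_eq_abs, abs_pow]
    exact pow_le_pow_left₀ (abs_nonneg _) ((abs_sub _ _).trans (add_le_add (hDb η) le_rfl)) 2
  have eD : ∫ η, D η ∂(law d ρ) = A ρ β (h + k • e) n - A ρ β h n := by
    rw [hD, integral_sub (hX _) (hX _)]
    rfl
  -- the variance is the smallest second moment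
  have hvar : ∫ η, (D η - (A ρ β (h + k • e) n - A ρ β h n)) ^ 2 ∂(law d ρ) ≤
      ∫ η, (D η - c) ^ 2 ∂(law d ρ) := by
    set M : ℝ := A ρ β (h + k • e) n - A ρ β h n with hM
    have h1 : ∫ η, (D η - c) ^ 2 ∂(law d ρ) =
        ∫ η, ((D η - M) ^ 2 + (2 * (M - c) * D η + ((c ^ 2 - M ^ 2)))) ∂(law d ρ) := by
      congr 1
      funext η
      ring
    have h2 : Integrable (fun η => 2 * (M - c) * D η) (law d ρ) := iD.const_mul _
    have h3 : Integrable (fun η => 2 * (M - c) * D η + (c ^ 2 - M ^ 2)) (law d ρ) :=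
      h2.add (integrable_const _)
    rw [h1, integral_add (iDc M) h3, integral_add h2 (integrable_const _), integral_const_mul, eD,
      integral_const, probReal_univ, one_smul]
    nlinarith [sq_nonneg (M - c)]
  refine hvar.trans ?_
  have hpt : ∀ η, (D η - c) ^ 2 ≤ k ^ 2 * ((pe β h η f - F) ^ 2 - (F' - F) * (pe β h η f - F)) +
      k ^ 2 * ((pe β (h + k • e) η f - F') ^ 2 + (F' - F) * (pe β (h + k • e) η f - F')) +
      k ^ 2 * ((F' - F) ^ 2 / 2) := by
    intro η
    have h1 : k * (pe β h η f - F - (F' - F) / 2) ≤ D η - c := by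
      have := lo η
      show _ ≤ X β (h + k • e) η n - X β h η n - c
      rw [hc]
      linarith
    have h2 : D η - c ≤ k * (pe β (h + k • e) η f - F' + (F' - F) / 2) := by
      have := up η
      show X β (h + k • e) η n - X β h η n - c ≤ _
      rw [hc]
      linarith
    have h3 : (D η - c) ^ 2 ≤ (k * (pe β h η f - F - (F' - F) / 2)) ^ 2 +
        (k * (pe β (h + k • e) η f - F' + (F' - F) / 2)) ^ 2 := by
      rcases le_total 0 (D η - c) with h4 | h4
      · have h5 := pow_le_pow_left₀ h4 h2 2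
        have h6 := sq_nonneg (k * (pe β h η f - F - (F' - F) / 2))
        linarith
      · have h5 : (D η - c) ^ 2 ≤ (k * (pe β h η f - F - (F' - F) / 2)) ^ 2 := by
          nlinarith
        have h6 := sq_nonneg (k * (pe β (h + k • e) η f - F' + (F' - F) / 2))
        linarith
    refine h3.trans (le_of_eq ?_)
    ring
  have j1 : ∀ (g : Env d → ℝ) (G : ℝ), Integrable g (law d ρ) → ∫ η, g η ∂(law d ρ) = G →
      ∫ η, (g η - G) ∂(law d ρ) = 0 := by
    intro g G hg hG
    rw [integral_sub hg (integrable_const _), hG, integral_const, probReal_univ, one_smul,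
      sub_self]
  have z1 : ∫ η, (pe β h η f - F) ∂(law d ρ) = 0 := j1 _ _ ia rfl
  have z2 : ∫ η, (pe β (h + k • e) η f - F') ∂(law d ρ) = 0 := j1 _ _ ia' rfl
  have k1 : Integrable (fun η : Env d => k ^ 2 * ((pe β h η f - F) ^ 2 -
      (F' - F) * (pe β h η f - F))) (law d ρ) :=
    (i1.sub ((ia.sub (integrable_const _)).const_mul _)).const_mul _
  have k2 : Integrable (fun η : Env d => k ^ 2 * ((pe β (h + k • e) η f - F') ^ 2 +
      (F' - F) * (pe β (h + k • e) η f - F'))) (law d ρ) :=
    (i2.add ((ia'.sub (integrable_const _)).const_mul _)).const_mul _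
  refine (integral_mono (iDc c) ((k1.add k2).add (integrable_const _)) hpt).trans ?_
  have e1 : ∫ η, (k ^ 2 * ((pe β h η f - F) ^ 2 - (F' - F) * (pe β h η f - F)) +
      k ^ 2 * ((pe β (h + k • e) η f - F') ^ 2 + (F' - F) * (pe β (h + k • e) η f - F')) +
      k ^ 2 * ((F' - F) ^ 2 / 2)) ∂(law d ρ) =
      k ^ 2 * (∫ η, (pe β h η f - F) ^ 2 ∂(law d ρ)) +
        k ^ 2 * (∫ η, (pe β (h + k • e) η f - F') ^ 2 ∂(law d ρ)) +
          k ^ 2 * ((F' - F) ^ 2 / 2) := by
    have k3 : Integrable (fun η : Env d => k ^ 2 * ((pe β h η f - F) ^ 2 -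
        (F' - F) * (pe β h η f - F)) + k ^ 2 * ((pe β (h + k • e) η f - F') ^ 2 +
        (F' - F) * (pe β (h + k • e) η f - F'))) (law d ρ) := k1.add k2
    have l1 : Integrable (fun η : Env d => (F' - F) * (pe β h η f - F)) (law d ρ) :=
      (ia.sub (integrable_const _)).const_mul _
    have l2 : Integrable (fun η : Env d => (F' - F) * (pe β (h + k • e) η f - F')) (law d ρ) :=
      (ia'.sub (integrable_const _)).const_mul _
    rw [integral_add k3 (integrable_const _), integral_add k1 k2, integral_const_mul,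
      integral_const_mul, integral_sub i1 l1, integral_add i2 l2, integral_const_mul,
      integral_const_mul, integral_const, probReal_univ, one_smul]
    rw [z1, z2]
    ring
  have h9 : 0 ≤ k ^ 2 := sq_nonneg k
  calc _ = k ^ 2 * (∫ η, (pe β h η f - F) ^ 2 ∂(law d ρ)) +
        k ^ 2 * (∫ η, (pe β (h + k • e) η f - F') ^ 2 ∂(law d ρ)) +
          k ^ 2 * ((F' - F) ^ 2 / 2) := e1
    _ ≤ k ^ 2 * B + k ^ 2 * B + k ^ 2 * (F' - F) ^ 2 := by
        have h7 := mul_le_mul_of_nonneg_left b1 h9
        have h8 := mul_le_mul_of_nonneg_left b2 h9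
        have h10 := mul_nonneg h9 (sq_nonneg (F' - F))
        nlinarith
    _ = _ := by ring

end Pool.Agent.W_7d29a1_S90
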