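import Pool.Agent.W_7d29a1_S90.DefsP45
import Pool.Agent.W_7d29a1_S90.VuT31

/-!
Theorem SUP with second moments, leaf K5: second moments from `W2`.
-/

namespace Pool.Agent.W_7d29a1_S90

open MeasureTheory ProbabilityTheory Filter Topology Pool.Agent.W_MP_7d29a1_pr
  Pool.Agent.W_7d29a1_h46 Pool.Agent.W_7d29a1_h46u Pool.Agent.W_7d29a1_D2.B35
  Pool.Agent.W_7d29a1_Q29

variable {d n : ℕ} {ρ : Measure ℝ}

lemma integrable_pe54 [IsProbabilityMeasure ρ] (hd : 0 < d) (β : ℝ) (h : Vec d)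
    (f : (Fin n → Step d) → ℝ) : Integrable (fun η : Env d => pe β h η f) (law d ρ) :=
  integrable_pe31 hd β h (C := ∑ s, |f s|) fun s =>
    Finset.single_le_sum (f := fun s => |f s|) (fun _ _ => abs_nonneg _) (Finset.mem_univ s)

lemma Sm_eq54 [IsProbabilityMeasure ρ] (hd : 0 < d) (β : ℝ) (h e : Vec d) (t : ℕ) (a : ℝ) :
    Sm ρ β h e n t a = (∫ η, pe β h η (fun s : Fin n → Step d =>
      inner ℝ e (emb (pos s t)) ^ 2) ∂(law d ρ)) - 2 * a * Ft ρ β h e n t + a ^ 2 := by
  unfold Sm Ft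
  have h1 : ∀ η : Env d, pe β h η (fun s : Fin n → Step d => (inner ℝ e (emb (pos s t)) - a) ^ 2) =
      pe β h η (fun s : Fin n → Step d => inner ℝ e (emb (pos s t)) ^ 2) +
        ((-(2 * a)) * pe β h η (fun s : Fin n → Step d => inner ℝ e (emb (pos s t))) + a ^ 2) := by
    intro η
    have h2 : (fun s : Fin n → Step d => (inner ℝ e (emb (pos s t)) - a) ^ 2) = fun s =>
        inner ℝ e (emb (pos s t)) ^ 2 + ((-(2 * a)) * inner ℝ e (emb (pos s t)) + a ^ 2) := by
      funext s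
      ring
    rw [h2, pe_add31 β h η (fun s => inner ℝ e (emb (pos s t)) ^ 2),
      pe_add31 β h η (fun s => (-(2 * a)) * inner ℝ e (emb (pos s t))) (fun _ => a ^ 2),
      pe_smul31, pe_const31 hd]
  have h3 : ∀ (p q : Env d → ℝ) (c k : ℝ), Integrable p (law d ρ) → Integrable q (law d ρ) →
      ∫ η, (p η + (c * q η + k)) ∂(law d ρ) = ∫ η, p η ∂(law d ρ) + (c * ∫ η, q η ∂(law d ρ) + k) := by
    intro p q c k hp hq
    have h4 : Integrable (fun η => c * q η + k) (law d ρ) :=
      (hq.const_mul c).add (integrable_const k)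
    rw [integral_add hp h4, integral_add (hq.const_mul c) (integrable_const k), integral_const_mul]
    simp
  simp only [h1]
  rw [h3 _ _ _ _ (integrable_pe54 hd β h _) (integrable_pe54 hd β h _)]
  ring

theorem csK54 [IsProbabilityMeasure ρ] (hd : 0 < d) (β : ℝ) : CsK d ρ β := by
  intro h e n t α R he ht1 htn hα hR hW
  obtain ⟨m, hm⟩ := hW 0 t (by omega) htn (by simpa using hα)
  have h1 : Sm ρ β h e n t (Ft ρ β h e n t) ≤ Sm ρ β h e n t (inner ℝ e m) := by
    rw [Sm_eq54 hd, Sm_eq54 hd]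
    nlinarith [sq_nonneg (inner ℝ e m - Ft ρ β h e n t)]
  have h2 : Sm ρ β h e n t (inner ℝ e m) ≤
      ∫ η, pe β h η (fun s : Fin n → Step d => inc 0 t m s ^ 2) ∂(law d ρ) := by
    unfold Sm
    refine integral_mono (integrable_pe54 hd β h _) (integrable_pe54 hd β h _) fun η => ?_
    refine pe_mono31 hd β h η fun s => ?_
    have h3 : inc 0 t m s = ‖emb (pos s t) - m‖ := by
      unfold inc
      have h4 : emb (pos s 0) = (0 : Vec d) := by
        ext j
        simp [emb, pos]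
      rw [h4, sub_zero]
    have h5 : inner ℝ e (emb (pos s t)) - inner ℝ e m = inner ℝ e (emb (pos s t) - m) := by
      rw [inner_sub_right]
    have h6 : |inner ℝ e (emb (pos s t) - m)| ≤ ‖emb (pos s t) - m‖ := by
      have h7 := abs_real_inner_le_norm e (emb (pos s t) - m)
      rwa [he, one_mul] at h7
    rw [h3, h5]
    exact sq_le_sq' (by linarith [(abs_le.1 h6).1]) (abs_le.1 h6).2
  have h8 : R * ((t : ℝ) - ((0 : ℕ) : ℝ)) = R * t := by simp
  rw [h8] at hm
  exact h1.trans (h2.trans hm)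

end Pool.Agent.W_7d29a1_S90
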