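import Pool.Agent.W_7d29a1_S90.RpT73

/-!
Cauchy-Schwarz and the second moments of the position of the polymer.
-/

namespace Pool.Agent.W_7d29a1_S90

open MeasureTheory ProbabilityTheory Filter Topology Pool.Agent.W_MP_7d29a1_pr
  Pool.Agent.W_7d29a1_h46 Pool.Agent.W_7d29a1_h46u Pool.Agent.W_7d29a1_D2.B35
  Pool.Agent.W_7d29a1_Q29

variable {d n : ℕ}

/-- The variance under the polymer measure is nonnegative. -/
lemma pvar75 (hd : 0 < d) (β : ℝ) (h : Vec d) (η : Env d) (x : (Fin n → Step d) → ℝ) :
    0 ≤ pe β h η (fun s => x s ^ 2) - pe β h η x ^ 2 := by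
  have h1 : 0 ≤ pe2 β h η (fun s s' : Fin n → Step d => (x s - x s') ^ 2) :=
    pe_nonneg73 hd β h η fun s => pe_nonneg73 hd β h η fun s' => sq_nonneg _
  rw [pe2_sq73 hd] at h1
  linarith

lemma ipvar75 {ρ : Measure ℝ} [IsProbabilityMeasure ρ] (hd : 0 < d) (β : ℝ) (h : Vec d)
    (x : (Fin n → Step d) → ℝ) :
    Integrable (fun η : Env d => pe β h η (fun s => x s ^ 2) - pe β h η x ^ 2) (law d ρ) := by
  have h1 : (fun η : Env d => pe β h η (fun s => x s ^ 2) - pe β h η x ^ 2) =
      fun η => 1 / 2 * pe2 β h η (fun s s' => (x s - x s') ^ 2) := by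
    funext η
    rw [pe2_sq73 hd]
    ring
  rw [h1]
  exact (integrable_pe2_fun73 hd β h _).const_mul _

/-- The variance of `x + l y`. -/
lemma pvar_add75 (β : ℝ) (h : Vec d) (η : Env d) (x y : (Fin n → Step d) → ℝ) (l : ℝ) :
    pe β h η (fun s => (x s + l * y s) ^ 2) - pe β h η (fun s => x s + l * y s) ^ 2 =
      (pe β h η (fun s => x s ^ 2) - pe β h η x ^ 2) +
        2 * l * (pe β h η (fun s => x s * y s) - pe β h η x * pe β h η y) +
        l ^ 2 * (pe β h η (fun s => y s ^ 2) - pe β h η y ^ 2) := by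
  have h1 : (fun s : Fin n → Step d => (x s + l * y s) ^ 2) =
      fun s => (x s ^ 2 + 2 * l * (x s * y s)) + l ^ 2 * y s ^ 2 := by
    funext s
    ring
  rw [h1, pe_add73, pe_add73, pe_mul73, pe_mul73, pe_add73, pe_mul73]
  ring

/-- The covariance under the polymer measure is integrable. -/
lemma ipcov75 {ρ : Measure ℝ} [IsProbabilityMeasure ρ] (hd : 0 < d) (β : ℝ) (h : Vec d)
    (x y : (Fin n → Step d) → ℝ) :
    Integrable (fun η : Env d => pe β h η (fun s => x s * y s) - pe β h η x * pe β h η y)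
      (law d ρ) := by
  have h1 : (fun η : Env d => pe β h η (fun s => x s * y s) - pe β h η x * pe β h η y) =
      fun η => 1 / 2 * (((pe β h η (fun s => (x s + 1 * y s) ^ 2) -
        pe β h η (fun s => x s + 1 * y s) ^ 2) -
        (pe β h η (fun s => x s ^ 2) - pe β h η x ^ 2)) -
        (pe β h η (fun s => y s ^ 2) - pe β h η y ^ 2)) := by
    funext η
    rw [pvar_add75 β h η x y 1]
    ring
  rw [h1]
  exact (((ipvar75 hd β h _).sub (ipvar75 hd β h _)).sub (ipvar75 hd β h _)).const_mul _

/-- Cauchy-Schwarz for the mean covariance. -/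
lemma cs75 {ρ : Measure ℝ} [IsProbabilityMeasure ρ] (hd : 0 < d) (β : ℝ) (h : Vec d)
    (x y : (Fin n → Step d) → ℝ) :
    (∫ η, (pe β h η (fun s => x s * y s) - pe β h η x * pe β h η y) ∂(law d ρ)) ^ 2 ≤
      (∫ η, (pe β h η (fun s => x s ^ 2) - pe β h η x ^ 2) ∂(law d ρ)) *
        ∫ η, (pe β h η (fun s => y s ^ 2) - pe β h η y ^ 2) ∂(law d ρ) := by
  set C := ∫ η, (pe β h η (fun s => x s * y s) - pe β h η x * pe β h η y) ∂(law d ρ) with hC
  set V := ∫ η, (pe β h η (fun s => x s ^ 2) - pe β h η x ^ 2) ∂(law d ρ) with hV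
  set W := ∫ η, (pe β h η (fun s => y s ^ 2) - pe β h η y ^ 2) ∂(law d ρ) with hW
  have h1 : ∀ l : ℝ, 0 ≤ W * (l * l) + 2 * C * l + V := by
    intro l
    have h2 : 0 ≤ ∫ η, (pe β h η (fun s => (x s + l * y s) ^ 2) -
        pe β h η (fun s => x s + l * y s) ^ 2) ∂(law d ρ) :=
      integral_nonneg fun η => pvar75 hd β h η _
    have h3 : ∫ η, (pe β h η (fun s => (x s + l * y s) ^ 2) -
        pe β h η (fun s => x s + l * y s) ^ 2) ∂(law d ρ) = V + 2 * l * C + l ^ 2 * W := by
      simp_rw [pvar_add75 β h _ x y l]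
      have i1 : Integrable (fun η : Env d => pe β h η (fun s => x s ^ 2) - pe β h η x ^ 2)
          (law d ρ) := ipvar75 hd β h x
      have i2 : Integrable (fun η : Env d =>
          2 * l * (pe β h η (fun s => x s * y s) - pe β h η x * pe β h η y)) (law d ρ) :=
        (ipcov75 hd β h x y).const_mul _
      have i3 : Integrable (fun η : Env d => (pe β h η (fun s => x s ^ 2) - pe β h η x ^ 2) +
          2 * l * (pe β h η (fun s => x s * y s) - pe β h η x * pe β h η y)) (law d ρ) :=
        i1.add i2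
      have i4 : Integrable (fun η : Env d =>
          l ^ 2 * (pe β h η (fun s => y s ^ 2) - pe β h η y ^ 2)) (law d ρ) :=
        (ipvar75 hd β h y).const_mul _
      rw [integral_add i3 i4, integral_add i1 i2, integral_const_mul, integral_const_mul]
    rw [h3] at h2
    linarith
  have h4 := discrim_le_zero h1
  unfold discrim at h4
  nlinarith

/-- The second moment about `a`. -/
lemma sm_eq75 {ρ : Measure ℝ} [IsProbabilityMeasure ρ] (hd : 0 < d) (β : ℝ) (h e : Vec d)
    (t : ℕ) (a : ℝ) : Sm ρ β h e n t a =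
      Sm ρ β h e n t (Ft ρ β h e n t) + (Ft ρ β h e n t - a) ^ 2 := by
  have key : ∀ b : ℝ, Sm ρ β h e n t b =
      (∫ η, pe β h η (fun s : Fin n → Step d => inner ℝ e (emb (pos s t)) ^ 2) ∂(law d ρ)) -
        2 * b * Ft ρ β h e n t + b ^ 2 := by
    intro b
    unfold Sm Ft
    have h1 : ∀ η : Env d, pe β h η (fun s : Fin n → Step d =>
        (inner ℝ e (emb (pos s t)) - b) ^ 2) =
        (pe β h η (fun s : Fin n → Step d => inner ℝ e (emb (pos s t)) ^ 2) -
          2 * b * pe β h η (fun s : Fin n → Step d => inner ℝ e (emb (pos s t)))) + b ^ 2 := by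
      intro η
      have h2 : (fun s : Fin n → Step d => (inner ℝ e (emb (pos s t)) - b) ^ 2) =
          fun s => (inner ℝ e (emb (pos s t)) ^ 2 - 2 * b * inner ℝ e (emb (pos s t))) +
            b ^ 2 := by
        funext s
        ring
      rw [h2, pe_add73, pe_sub73, pe_mul73, pe_const73 hd]
    simp_rw [h1]
    have i1 : Integrable (fun η : Env d =>
        pe β h η (fun s : Fin n → Step d => inner ℝ e (emb (pos s t)) ^ 2)) (law d ρ) :=
      integrable_pe_fun73 hd β h _
    have i2 : Integrable (fun η : Env d =>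
        2 * b * pe β h η (fun s : Fin n → Step d => inner ℝ e (emb (pos s t)))) (law d ρ) :=
      (integrable_pe_fun73 hd β h _).const_mul _
    have i3 : Integrable (fun η : Env d =>
        pe β h η (fun s : Fin n → Step d => inner ℝ e (emb (pos s t)) ^ 2) -
          2 * b * pe β h η (fun s : Fin n → Step d => inner ℝ e (emb (pos s t)))) (law d ρ) :=
      i1.sub i2
    rw [integral_add i3 (integrable_const _), integral_sub i1 i2, integral_const_mul,
      integral_const, probReal_univ, one_smul]
  rw [key a, key (Ft ρ β h e n t)]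
  ring

lemma step75 (e : Step d) : ‖emb (vec e)‖ ≤ 1 := by
  have h1 : emb (vec e) = (if e.2 then (1 : ℝ) else -1) • EuclideanSpace.single e.1 (1 : ℝ) := by
    ext j
    rcases eq_or_ne j e.1 with rfl | hj
    · by_cases hb : e.2 <;> simp [emb, vec, hb]
    · by_cases hb : e.2 <;> simp [emb, vec, hb, hj]
  rw [h1, norm_smul]
  by_cases hb : e.2 <;> simp [hb]

/-- The position at two times. -/
lemma pos_sub75 (s : Fin n → Step d) {t : ℕ} (ht : t ≤ n) :
    ‖emb (pos s n) - emb (pos s t)‖ ≤ (n : ℝ) - t := by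
  have hp : ∀ i : ℕ, emb (pos s i) = ∑ k : Fin n, if (k : ℕ) < i then emb (vec (s k)) else 0 := by
    intro i
    unfold pos
    ext j
    simp only [emb, PiLp.toLp_apply, Finset.sum_apply, WithLp.ofLp_sum]
    push_cast
    refine Finset.sum_congr rfl fun k _ => ?_
    split_ifs <;> simp
  rw [hp n, hp t, ← Finset.sum_sub_distrib]
  have h2 : ∀ k : Fin n, ‖((if (k : ℕ) < n then emb (vec (s k)) else 0) -
      (if (k : ℕ) < t then emb (vec (s k)) else 0) : Vec d)‖ ≤
      1 - if (k : ℕ) < t then (1 : ℝ) else 0 := by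
    intro k
    rw [if_pos k.2]
    split_ifs
    · simp
    · rw [sub_zero, sub_zero]
      exact step75 (s k)
  refine (norm_sum_le _ _).trans ((Finset.sum_le_sum fun k _ => h2 k).trans (le_of_eq ?_))
  rw [Finset.sum_sub_distrib, Finset.sum_const, Finset.card_univ, Fintype.card_fin, nsmul_eq_mul,
    mul_one, Fin.sum_univ_eq_sum_range (fun k => if k < t then (1 : ℝ) else 0) n, Finset.sum_ite]
  simp only [Finset.sum_const_zero, add_zero, Finset.sum_const, nsmul_eq_mul, mul_one]
  have h3 : (Finset.range n).filter (fun k => k < t) = Finset.range t := by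
    ext k
    simp only [Finset.mem_filter, Finset.mem_range]
    omega
  rw [h3, Finset.card_range]

/-- Leaf C2. -/
theorem csT75 {ρ : Measure ℝ} [IsProbabilityMeasure ρ] (hd : 0 < d) (β : ℝ) : CsT d ρ β := by
  intro h e n t htn
  refine ⟨integral_nonneg fun η => pvar75 hd β h η _, cs75 hd β h _ _, fun a => ⟨?_, ?_⟩,
    fun he => ?_, fun α R he ht hα hR hW => ?_⟩
  · -- the variance is at most the second moment
    unfold Vr Sm
    refine integral_mono (ipvar75 hd β h _) (integrable_pe_fun73 hd β h _) fun η => ?_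
    have h2 : (fun s : Fin n → Step d => (inner ℝ e (emb (pos s t)) - Ft ρ β h e n t) ^ 2) =
        fun s => (inner ℝ e (emb (pos s t)) ^ 2 -
          2 * Ft ρ β h e n t * inner ℝ e (emb (pos s t))) + Ft ρ β h e n t ^ 2 := by
      funext s
      ring
    simp only
    rw [h2, pe_add73, pe_sub73, pe_mul73, pe_const73 hd]
    nlinarith [sq_nonneg (pe β h η (fun s : Fin n → Step d => inner ℝ e (emb (pos s t))) -
      Ft ρ β h e n t)]
  · rw [sm_eq75 hd β h e t a]
    nlinarith [sq_nonneg (Ft ρ β h e n t - a)]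
  · -- the drift between the times `t` and `n`
    have h1 : Ft ρ β h e n n - Ft ρ β h e n t = ∫ η, pe β h η (fun s : Fin n → Step d =>
        inner ℝ e (emb (pos s n)) - inner ℝ e (emb (pos s t))) ∂(law d ρ) := by
      unfold Ft
      rw [← integral_sub (integrable_pe_fun73 hd β h _) (integrable_pe_fun73 hd β h _)]
      simp_rw [pe_sub73]
    rw [h1]
    have h2 : ∀ η : Env d, ‖pe β h η (fun s : Fin n → Step d =>
        inner ℝ e (emb (pos s n)) - inner ℝ e (emb (pos s t)))‖ ≤ (n : ℝ) - t := by
      intro η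
      rw [Real.norm_eq_abs]
      refine abs_pe_le73 hd β h η fun s => ?_
      rw [← inner_sub_right]
      refine (abs_real_inner_le_norm _ _).trans ?_
      rw [he, one_mul]
      exact pos_sub75 s htn
    have h3 := norm_integral_le_of_norm_le_const (μ := law d ρ) (Eventually.of_forall h2)
    rwa [probReal_univ, mul_one, Real.norm_eq_abs] at h3
  · -- the second moment from the fourth moment
    obtain ⟨m, hm⟩ := hW 0 t (by omega) htn (by simpa using hα)
    have hm' : ∫ η, pe β h η (fun s : Fin n → Step d => inc 0 t m s ^ 4) ∂(law d ρ) ≤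
        R * (t : ℝ) ^ 2 := by simpa using hm
    refine le_trans (b := Sm ρ β h e n t (inner ℝ e m)) ?_ ?_
    · rw [sm_eq75 hd β h e t (inner ℝ e m)]
      nlinarith [sq_nonneg (Ft ρ β h e n t - inner ℝ e m)]
    set I := ∫ η, pe β h η (fun s : Fin n → Step d => inc 0 t m s ^ 2) ∂(law d ρ) with hI
    have h1 : Sm ρ β h e n t (inner ℝ e m) ≤ I := by
      unfold Sm
      refine integral_mono (integrable_pe_fun73 hd β h _) (integrable_pe_fun73 hd β h _)
        fun η => pe_mono73 hd β h η fun s => ?_
      have h2 : inner ℝ e (emb (pos s t)) - inner ℝ e m =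
          inner ℝ e (emb (pos s t) - emb (pos s 0) - m) := by
        rw [pos_zero73, emb_zero73, sub_zero, inner_sub_right]
      rw [h2, ← sq_abs]
      have h3 := abs_real_inner_le_norm e (emb (pos s t) - emb (pos s 0) - m)
      rw [he, one_mul] at h3
      exact pow_le_pow_left₀ (abs_nonneg _) h3 2
    have h2 : I ^ 2 ≤ ∫ η, pe β h η (fun s : Fin n → Step d => inc 0 t m s ^ 4) ∂(law d ρ) := by
      have h3 : 0 ≤ ∫ η, pe β h η (fun s : Fin n → Step d => (inc 0 t m s ^ 2 - I) ^ 2)
          ∂(law d ρ) := integral_nonneg fun η => pe_nonneg73 hd β h η fun s => sq_nonneg _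
      have h4 : ∀ η : Env d, pe β h η (fun s : Fin n → Step d => (inc 0 t m s ^ 2 - I) ^ 2) =
          (pe β h η (fun s : Fin n → Step d => inc 0 t m s ^ 4) -
            2 * I * pe β h η (fun s : Fin n → Step d => inc 0 t m s ^ 2)) + I ^ 2 := by
        intro η
        have h5 : (fun s : Fin n → Step d => (inc 0 t m s ^ 2 - I) ^ 2) =
            fun s => (inc 0 t m s ^ 4 - 2 * I * inc 0 t m s ^ 2) + I ^ 2 := by
          funext s
          ring
        rw [h5, pe_add73, pe_sub73, pe_mul73, pe_const73 hd]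
      simp_rw [h4] at h3
      have i1 : Integrable (fun η : Env d =>
          pe β h η (fun s : Fin n → Step d => inc 0 t m s ^ 4)) (law d ρ) :=
        integrable_pe_fun73 hd β h _
      have i2 : Integrable (fun η : Env d =>
          2 * I * pe β h η (fun s : Fin n → Step d => inc 0 t m s ^ 2)) (law d ρ) :=
        (integrable_pe_fun73 hd β h _).const_mul _
      have i3 : Integrable (fun η : Env d =>
          pe β h η (fun s : Fin n → Step d => inc 0 t m s ^ 4) -
            2 * I * pe β h η (fun s : Fin n → Step d => inc 0 t m s ^ 2)) (law d ρ) :=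
        i1.sub i2
      rw [integral_add i3 (integrable_const _), integral_sub i1 i2, integral_const_mul,
        integral_const, probReal_univ, one_smul, ← hI] at h3
      nlinarith
    have h3 : I ^ 2 ≤ (Real.sqrt R * t) ^ 2 := by
      rw [mul_pow, Real.sq_sqrt hR]
      exact h2.trans hm'
    exact h1.trans (abs_le_of_sq_le_sq' h3 (by positivity)).2

end Pool.Agent.W_7d29a1_S90
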