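import Pool.Agent.W_7d29a1_S90.DefsS90

/-!
Theorem SUP with second moments: definitions and frozen statements of the leaves which replace
`RpT`, `InS`, `AsT`, `MainS` of `DefsS90`.
-/

namespace Pool.Agent.W_7d29a1_S90

open MeasureTheory ProbabilityTheory Filter Topology Pool.Agent.W_MP_7d29a1_pr
  Pool.Agent.W_7d29a1_h46 Pool.Agent.W_7d29a1_h46u Pool.Agent.W_7d29a1_D2.B35
  Pool.Agent.W_7d29a1_Q29

section Defs

variable {d : ℕ}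

/-- All windows of length at least `n ^ α` of the polymer of length `n` are diffusive (second
moments). -/
def W2 (ρ : Measure ℝ) (β : ℝ) (h : Vec d) (n : ℕ) (α R : ℝ) : Prop :=
  ∀ τ t : ℕ, τ < t → t ≤ n → (n : ℝ) ^ α ≤ (t : ℝ) - τ → ∃ m : Vec d,
    ∫ η, pe β h η (fun s : Fin n → Step d => inc τ t m s ^ 2) ∂(law d ρ) ≤ R * ((t : ℝ) - τ)

/-- The clamp of `⟨e, S_t⟩` to `[a, b]`. -/
noncomputable def cl {n : ℕ} (e : Vec d) (t : ℕ) (a b : ℝ) (s : Fin n → Step d) : ℝ :=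
  max a (min b (inner ℝ e (emb (pos s t))))

/-- The mean of the clamp. -/
noncomputable def Fc (ρ : Measure ℝ) (β : ℝ) (h e : Vec d) (n t : ℕ) (a b : ℝ) : ℝ :=
  ∫ η, pe β h η (fun s : Fin n → Step d => cl e t a b s) ∂(law d ρ)

/-- The mean of the covariance of the clamp and `⟨e, S_n⟩` under the polymer measure. -/
noncomputable def Cc (ρ : Measure ℝ) (β : ℝ) (h e : Vec d) (n t : ℕ) (a b : ℝ) : ℝ :=
  ∫ η, (pe β h η (fun s : Fin n → Step d => cl e t a b s * inner ℝ e (emb (pos s n))) -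
    pe β h η (fun s : Fin n → Step d => cl e t a b s) *
      pe β h η (fun s : Fin n → Step d => inner ℝ e (emb (pos s n)))) ∂(law d ρ)

end Defs

section Leaves

variable (d : ℕ) (ρ : Measure ℝ) (β : ℝ)

/-- Leaf K1: the derivative of the mean of the clamp. -/
def KaT : Prop := ∀ (h e : Vec d) (n t : ℕ) (a b : ℝ), t ≤ n →
  Continuous (fun s : ℝ => Cc ρ β (h + s • e) e n t a b) ∧
    ∀ s : ℝ, HasDerivAt (fun s : ℝ => Fc ρ β (h + s • e) e n t a b)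
      (Cc ρ β (h + s • e) e n t a b) s

/-- Leaf K1': the distance of two replicas depends continuously on the tilt. -/
def KcT : Prop := ∀ (h e : Vec d) (n t : ℕ) (r : ℝ), t ≤ n →
  Continuous (fun s : ℝ => Rp ρ β (h + s • e) n t r)

/-- Leaf K2: the clamp and the distance of two replicas. -/
def KrT : Prop := ∀ (h e : Vec d) (n t : ℕ) (a b : ℝ), ‖e‖ = 1 → t ≤ n → a ≤ b →
  Cc ρ β h e n t a b ^ 2 ≤ Vr ρ β h e n n * Vr ρ β h e n t ∧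
    ∀ r : ℝ, 0 ≤ r →
      2 * Cc ρ β h e n t a b ^ 2 ≤ Vr ρ β h e n n * ((b - a) ^ 2 * Rp ρ β h n t r + r ^ 2)

/-- Leaf K3: the mean of the clamp. -/
def KmT : Prop := ∀ (h e : Vec d) (n t : ℕ) (a b F : ℝ), t ≤ n → a ≤ b →
  (F < a → Fc ρ β h e n t a b ≤ a + Sm ρ β h e n t F / (4 * (a - F))) ∧
    (b < F → b - Sm ρ β h e n t F / (4 * (F - b)) ≤ Fc ρ β h e n t a b)

/-- Leaf K4 (from `KaT`, `KrT`, `KmT`): in every short interval of tilts with a large increment of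
the drift the replicas are separated for a set of tilts of positive proportion. -/
def KsT : Prop := ∀ (h e : Vec d) (n t : ℕ) (u w R c : ℝ), ‖e‖ = 1 → 1 ≤ n → t ≤ n → u < w →
  1 ≤ R → 0 < c → c ≤ 1 →
  (∀ s ∈ Set.Icc u w, Sm ρ β (h + s • e) e n t (Ft ρ β (h + s • e) e n t) ≤ R * n ∧
    Vr ρ β (h + s • e) e n t ≤ R * n ∧ Vr ρ β (h + s • e) e n n ≤ R * n) →
  c * n * (w - u) ≤ Ft ρ β (h + w • e) e n t - Ft ρ β (h + u • e) e n t →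
  Ft ρ β (h + w • e) e n t - Ft ρ β (h + u • e) e n t ≤ R * n * (w - u) →
  8 * R ≤ c ^ 2 * n * (w - u) ^ 2 →
  ENNReal.ofReal (c * (w - u) / (8 * R)) ≤
    volume ({s : ℝ | c ^ 2 / (64 * R ^ 3 * n * (w - u) ^ 2) ≤
      Rp ρ β (h + s • e) n t (Real.sqrt (c ^ 2 / (64 * R) * n))} ∩ Set.Icc u w)

/-- Leaf K5: second moments from `W2`. -/
def CsK : Prop := ∀ (h e : Vec d) (n t : ℕ) (α R : ℝ), ‖e‖ = 1 → 1 ≤ t → t ≤ n →
  (n : ℝ) ^ α ≤ t → 0 ≤ R → W2 ρ β h n α R →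
    Sm ρ β h e n t (Ft ρ β h e n t) ≤ R * t

/-- Leaf K6 (dimension two): the information on `S_t` is a multiple of `log n`; from `InT`, `EnZ`,
`DlT`. -/
def InK : Prop := ∀ α a : ℝ, α < 1 → 0 < a → ∃ c C : ℝ, 0 < c ∧ 0 ≤ C ∧
  ∀ (h : Vec 2) (n t : ℕ) (R κ : ℝ), 1 ≤ n → 1 ≤ t → t ≤ n → n ≤ 2 * t → (n : ℝ) ^ α ≤ t → 1 ≤ R →
    0 < κ → κ ≤ 1 → W2 ρ β h n α R → κ ≤ Rp ρ β h n t (Real.sqrt (a / R * n)) →
      En ρ β h n t (t - 1) ≤ Real.log n - c * κ ^ 6 / R * Real.log n +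
        C * (1 + Real.log R + Real.log (1 / κ))

/-- The main statement: not all windows of all tilts of a segment are diffusive. -/
def MainK : Prop := ∀ (h e : Vec 2) (l α : ℝ), ‖e‖ = 1 → 0 < l → α < 1 →
  2 * lam ρ β (h + (l / 2) • e) < lam ρ β h + lam ρ β (h + l • e) →
    ∃ N₀ : ℕ, ∀ n : ℕ, N₀ ≤ n → ∃ s ∈ Set.Icc (0 : ℝ) l,
      ¬ W2 ρ β (h + s • e) n α (Real.log n ^ ((1 : ℝ) / 30))

end Leaves

/-- Leaf K7: the choice of the tilts. -/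
def AsK : Prop := ∀ (l k R c δ : ℝ) (J A : ℕ) (T : Finset ℕ) (g : ℕ → ℝ → ℝ) (P : ℕ → Set ℝ),
  0 < l → 0 < k → 1 ≤ R → 0 < c → c ≤ 1 → 0 < δ → δ ≤ 1 → 0 < A → J * k = l → T.Nonempty →
  (∀ t ∈ T, Continuous (g t)) → (∀ t ∈ T, ∀ s ∈ Set.Icc (0 : ℝ) l, |g t s| ≤ R) →
  (∀ t ∈ T, 2 * c * l ≤ ∫ s in (0 : ℝ)..l, g t s) → (∀ t ∈ T, MeasurableSet (P t)) →
  (∀ t ∈ T, ∀ u : ℝ, 0 ≤ u → u + k / A ≤ l → c / 2 * (k / A) ≤ ∫ s in u..(u + k / A), g t s →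
    ENNReal.ofReal (δ * (k / A)) ≤ volume (P t ∩ Set.Icc u (u + k / A))) →
    ∃ s ∈ Set.Icc (0 : ℝ) l, ∃ s' ∈ Set.Icc (0 : ℝ) l, |s - s'| ≤ k ∧ ∃ T' ⊆ T,
      c ^ 2 * δ / (4 * R ^ 2) * T.card ≤ (T'.card : ℝ) ∧
        ∀ t ∈ T', s ∈ P t ∧ c * k / 2 ≤ |∫ u in s..s', g t u|

end Pool.Agent.W_7d29a1_S90
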