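import Pool.Agent.W_7d29a1_S90.CaT10
import Pool.Agent.W_7d29a1_S90.DefsP45

/-!
Theorem SUP with second moments, leaves K1 and K1': the derivative of the mean of the clamp and the
continuity of the law of the distance of two replicas.
-/

namespace Pool.Agent.W_7d29a1_S90

open MeasureTheory ProbabilityTheory Filter Topology Pool.Agent.W_MP_7d29a1_pr
  Pool.Agent.W_7d29a1_h46 Pool.Agent.W_7d29a1_h46u Pool.Agent.W_7d29a1_D2.B35
  Pool.Agent.W_7d29a1_Q29

variable {d : ℕ} {ρ : Measure ℝ} [IsProbabilityMeasure ρ]

/-- Leaf K1: the derivative of the mean of the clamp. -/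
theorem kaT10 (hd : 0 < d) (β : ℝ) : KaT d ρ β := by
  intro h e n t a b _
  refine ⟨?_, fun s => ped10 (ρ := ρ) hd β h e (fun s : Fin n → Step d => cl e t a b s) s⟩
  exact (cvc10 (ρ := ρ) hd β (fun s : Fin n → Step d => cl e t a b s)
    (fun s : Fin n → Step d => (inner ℝ e (emb (pos s n)) : ℝ))).comp
      (continuous_const.add (continuous_id.smul continuous_const) :
        Continuous fun s : ℝ => h + s • e)

/-- Leaf K1': the distance of two replicas depends continuously on the tilt. -/
theorem kcT10 (hd : 0 < d) (β : ℝ) : KcT d ρ β := by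
  intro h e n t r _
  exact (lc2_10 (ρ := ρ) hd β _).comp
    (continuous_const.add (continuous_id.smul continuous_const) :
      Continuous fun s : ℝ => h + s • e)

end Pool.Agent.W_7d29a1_S90
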