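import Pool.Agent.W_7d29a1_S90.DefsP45
import Pool.Agent.W_7d29a1_S90.RpT73

/-!
Theorem SUP with second moments, leaf K3: the mean of the clamp.
-/

namespace Pool.Agent.W_7d29a1_S90

open MeasureTheory ProbabilityTheory Filter Topology Pool.Agent.W_MP_7d29a1_pr
  Pool.Agent.W_7d29a1_h46 Pool.Agent.W_7d29a1_h46u Pool.Agent.W_7d29a1_D2.B35
  Pool.Agent.W_7d29a1_Q29

variable {d n : ℕ} {ρ : Measure ℝ}

lemma sub_le_sq71 {r : ℝ} (hr : 0 < r) (y : ℝ) : y - r ≤ y ^ 2 / (4 * r) := by
  rw [le_div_iff₀ (by positivity)]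
  nlinarith [sq_nonneg (y - 2 * r)]

lemma cl_le71 (e : Vec d) (t : ℕ) (a b : ℝ) {F : ℝ} (hF : F < a) (s : Fin n → Step d) :
    cl e t a b s ≤ a + 1 / (4 * (a - F)) * (inner ℝ e (emb (pos s t)) - F) ^ 2 := by
  have hr : 0 < a - F := sub_pos.2 hF
  have h1 := sub_le_sq71 hr (inner ℝ e (emb (pos s t)) - F)
  rw [div_eq_inv_mul, ← one_div] at h1
  have h2 : 0 ≤ 1 / (4 * (a - F)) * (inner ℝ e (emb (pos s t)) - F) ^ 2 := by positivity
  unfold cl
  refine max_le (by linarith) ((min_le_right _ _).trans (by linarith))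

lemma le_cl71 (e : Vec d) (t : ℕ) (a b : ℝ) {F : ℝ} (hF : b < F) (s : Fin n → Step d) :
    b - 1 / (4 * (F - b)) * (inner ℝ e (emb (pos s t)) - F) ^ 2 ≤ cl e t a b s := by
  have hr : 0 < F - b := sub_pos.2 hF
  have h1 := sub_le_sq71 hr (F - inner ℝ e (emb (pos s t)))
  rw [div_eq_inv_mul, ← one_div, sub_sq_comm] at h1
  have h2 : 0 ≤ 1 / (4 * (F - b)) * (inner ℝ e (emb (pos s t)) - F) ^ 2 := by positivity
  unfold cl
  exact (le_min (by linarith) (by linarith)).trans (le_max_right _ _)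

theorem kmT71 [IsProbabilityMeasure ρ] (hd : 0 < d) (β : ℝ) : KmT d ρ β := by
  intro h e n t a b F _ _
  constructor
  · intro hF
    unfold Fc Sm
    rw [div_eq_inv_mul, ← one_div, ← integral_const_mul]
    have h1 : a + ∫ η, 1 / (4 * (a - F)) * pe β h η (fun s : Fin n → Step d =>
        (inner ℝ e (emb (pos s t)) - F) ^ 2) ∂(law d ρ) =
        ∫ η, (a + 1 / (4 * (a - F)) * pe β h η (fun s : Fin n → Step d =>
          (inner ℝ e (emb (pos s t)) - F) ^ 2)) ∂(law d ρ) := by
      rw [integral_add (integrable_const a) ((integrable_pe_fun73 hd β h _).const_mul _)]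
      simp
    rw [h1]
    refine integral_mono (integrable_pe_fun73 hd β h _)
      ((integrable_const a).add ((integrable_pe_fun73 hd β h _).const_mul _)) fun η => ?_
    have h2 := pe_mono73 hd β h η fun s : Fin n → Step d => cl_le71 e t a b hF s
    rwa [pe_add73 β h η (fun _ => a), pe_const73 hd, pe_mul73] at h2
  · intro hF
    unfold Fc Sm
    rw [div_eq_inv_mul, ← one_div, ← integral_const_mul]
    have h1 : b - ∫ η, 1 / (4 * (F - b)) * pe β h η (fun s : Fin n → Step d =>
        (inner ℝ e (emb (pos s t)) - F) ^ 2) ∂(law d ρ) =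
        ∫ η, (b - 1 / (4 * (F - b)) * pe β h η (fun s : Fin n → Step d =>
          (inner ℝ e (emb (pos s t)) - F) ^ 2)) ∂(law d ρ) := by
      rw [integral_sub (integrable_const b) ((integrable_pe_fun73 hd β h _).const_mul _)]
      simp
    rw [h1]
    refine integral_mono ((integrable_const b).sub ((integrable_pe_fun73 hd β h _).const_mul _))
      (integrable_pe_fun73 hd β h _) fun η => ?_
    have h2 := pe_mono73 hd β h η fun s : Fin n → Step d => le_cl71 e t a b hF s
    rwa [pe_sub73 β h η (fun _ => b), pe_const73 hd, pe_mul73] at h2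

end Pool.Agent.W_7d29a1_S90
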