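import Pool.Agent.W_7d29a1_S90.DefsP45
import Pool.Agent.W_7d29a1_S90.RpT73

/-!
The clamp of the position and the distance of two replicas: Cauchy-Schwarz.
-/

namespace Pool.Agent.W_7d29a1_S90

open MeasureTheory ProbabilityTheory Filter Topology Pool.Agent.W_MP_7d29a1_pr
  Pool.Agent.W_7d29a1_h46 Pool.Agent.W_7d29a1_h46u Pool.Agent.W_7d29a1_D2.B35
  Pool.Agent.W_7d29a1_Q29

variable {d n : ℕ}

/-- The covariance under the polymer measure. -/
noncomputable def co28 (β : ℝ) (h : Vec d) (η : Env d) (f g : (Fin n → Step d) → ℝ) : ℝ :=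
  pe β h η (fun s => f s * g s) - pe β h η f * pe β h η g

lemma integrable_co28 {ρ : Measure ℝ} [IsProbabilityMeasure ρ] (hd : 0 < d) (β : ℝ) (h : Vec d)
    (f g : (Fin n → Step d) → ℝ) :
    Integrable (fun η : Env d => co28 β h η f g) (law d ρ) := by
  unfold co28
  refine (integrable_pe_fun73 hd β h _).sub ?_
  refine (integrable_const ((∑ s, |f s|) * ∑ s, |g s|)).mono'
    ((measurable_pe73 β h (f := fun _ => f) fun _ => measurable_const).mul
      (measurable_pe73 β h (f := fun _ => g) fun _ => measurable_const)).aestronglyMeasurable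
    (Eventually.of_forall fun η => ?_)
  rw [Real.norm_eq_abs, abs_mul]
  refine mul_le_mul ?_ ?_ (abs_nonneg _) (Finset.sum_nonneg fun _ _ => abs_nonneg _)
  · exact abs_pe_le73 hd β h η fun s =>
      Finset.single_le_sum (f := fun s => |f s|) (fun _ _ => abs_nonneg _) (Finset.mem_univ s)
  · exact abs_pe_le73 hd β h η fun s =>
      Finset.single_le_sum (f := fun s => |g s|) (fun _ _ => abs_nonneg _) (Finset.mem_univ s)

/-- Twice the variance is the second moment of the difference of two replicas. -/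
lemma two_co28 (hd : 0 < d) (β : ℝ) (h : Vec d) (η : Env d) (f : (Fin n → Step d) → ℝ) :
    pe2 β h η (fun s s' => (f s - f s') ^ 2) = 2 * co28 β h η f f := by
  rw [pe2_sq73 hd]
  unfold co28
  have h1 : (fun s : Fin n → Step d => f s * f s) = fun s => f s ^ 2 := by
    funext s
    ring
  rw [h1]
  ring

lemma co_self_nonneg28 (hd : 0 < d) (β : ℝ) (h : Vec d) (η : Env d)
    (f : (Fin n → Step d) → ℝ) : 0 ≤ co28 β h η f f := by
  have h1 := two_co28 hd β h η f
  have h2 : 0 ≤ pe2 β h η (fun s s' => (f s - f s') ^ 2) := by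
    unfold pe2
    exact pe_nonneg73 hd β h η fun s => pe_nonneg73 hd β h η fun s' => sq_nonneg _
  linarith

lemma co_lin28 (β : ℝ) (h : Vec d) (η : Env d) (f g : (Fin n → Step d) → ℝ)
    (x : ℝ) : co28 β h η (fun s => x * f s + g s) (fun s => x * f s + g s) =
      co28 β h η f f * (x * x) + 2 * co28 β h η f g * x + co28 β h η g g := by
  unfold co28
  have h1 : (fun s : Fin n → Step d => (x * f s + g s) * (x * f s + g s)) =
      fun s => (x ^ 2 * (f s * f s) + 2 * x * (f s * g s)) + g s * g s := by
    funext s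
    ring
  rw [h1, pe_add73, pe_add73, pe_mul73, pe_mul73, pe_add73, pe_mul73]
  ring

/-- Cauchy-Schwarz for the averaged covariances. -/
lemma cs28 {ρ : Measure ℝ} [IsProbabilityMeasure ρ] (hd : 0 < d) (β : ℝ) (h : Vec d)
    (f g : (Fin n → Step d) → ℝ) :
    (∫ η, co28 β h η f g ∂(law d ρ)) ^ 2 ≤
      (∫ η, co28 β h η f f ∂(law d ρ)) * ∫ η, co28 β h η g g ∂(law d ρ) := by
  have hff := integrable_co28 (ρ := ρ) hd β h f f
  have hfg := integrable_co28 (ρ := ρ) hd β h f g
  have hgg := integrable_co28 (ρ := ρ) hd β h g g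
  have h1 : ∀ x : ℝ, 0 ≤ (∫ η, co28 β h η f f ∂(law d ρ)) * (x * x) +
      (2 * ∫ η, co28 β h η f g ∂(law d ρ)) * x + ∫ η, co28 β h η g g ∂(law d ρ) := by
    intro x
    have h2 : 0 ≤ ∫ η, co28 β h η (fun s => x * f s + g s) (fun s => x * f s + g s)
        ∂(law d ρ) := integral_nonneg fun η => co_self_nonneg28 hd β h η _
    have h3 : ∫ η, co28 β h η (fun s => x * f s + g s) (fun s => x * f s + g s) ∂(law d ρ) =
        (∫ η, co28 β h η f f ∂(law d ρ)) * (x * x) +
          (2 * ∫ η, co28 β h η f g ∂(law d ρ)) * x + ∫ η, co28 β h η g g ∂(law d ρ) := by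
      simp_rw [co_lin28]
      have h4 : Integrable (fun η => co28 β h η f f * (x * x)) (law d ρ) := hff.mul_const _
      have h5 : Integrable (fun η => 2 * co28 β h η f g * x) (law d ρ) :=
        (hfg.const_mul 2).mul_const x
      have h6 : Integrable (fun η => co28 β h η f f * (x * x) + 2 * co28 β h η f g * x)
          (law d ρ) := h4.add h5
      rw [integral_add h6 hgg, integral_add h4 h5, integral_mul_const, integral_mul_const,
        integral_const_mul]
    rw [h3] at h2
    exact h2
  have h2 := discrim_le_zero h1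
  unfold discrim at h2
  nlinarith

lemma clamp_nonneg28 {a b : ℝ} (hab : a ≤ b) (x : ℝ) : a ≤ max a (min b x) ∧ max a (min b x) ≤ b :=
  ⟨le_max_left _ _, max_le hab (min_le_left _ _)⟩

lemma clamp_lip28 (a b x y : ℝ) : |max a (min b x) - max a (min b y)| ≤ |x - y| := by
  have h1 := abs_max_sub_max_le_abs (min b x) (min b y) a
  have h2 := abs_min_sub_min_le_max b x b y
  rw [sub_self, abs_zero, max_eq_right (abs_nonneg _)] at h2
  rw [max_comm a, max_comm a]
  exact h1.trans h2

/-- Leaf K2. -/
theorem krT28 {ρ : Measure ℝ} [IsProbabilityMeasure ρ] (hd : 0 < d) (β : ℝ) : KrT d ρ β := by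
  classical
  intro h e n t a b he htn hab
  set x : (Fin n → Step d) → ℝ := fun s => inner ℝ e (emb (pos s t)) with hx
  set y : (Fin n → Step d) → ℝ := fun s => inner ℝ e (emb (pos s n)) with hy
  set f : (Fin n → Step d) → ℝ := fun s => cl e t a b s with hf
  have hCc : Cc ρ β h e n t a b = ∫ η, co28 β h η f y ∂(law d ρ) := rfl
  have hVn : Vr ρ β h e n n = ∫ η, co28 β h η y y ∂(law d ρ) := by
    unfold Vr co28
    refine integral_congr_ae (Eventually.of_forall fun η => ?_)
    simp only [hy, pow_two]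
  have hVt : Vr ρ β h e n t = ∫ η, co28 β h η x x ∂(law d ρ) := by
    unfold Vr co28
    refine integral_congr_ae (Eventually.of_forall fun η => ?_)
    simp only [hx, pow_two]
  have hcs := cs28 (ρ := ρ) hd β h f y
  rw [← hCc, ← hVn] at hcs
  have hVn0 : 0 ≤ Vr ρ β h e n n := by
    rw [hVn]
    exact integral_nonneg fun η => co_self_nonneg28 hd β h η _
  have hlip : ∀ s s' : Fin n → Step d, |f s - f s'| ≤ |x s - x s'| := fun s s' =>
    clamp_lip28 a b _ _
  have hvar : ∫ η, co28 β h η f f ∂(law d ρ) ≤ Vr ρ β h e n t := by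
    rw [hVt]
    refine integral_mono (integrable_co28 hd β h f f) (integrable_co28 hd β h x x) fun η => ?_
    have h1 := two_co28 hd β h η f
    have h2 := two_co28 hd β h η x
    have h3 : pe2 β h η (fun s s' => (f s - f s') ^ 2) ≤
        pe2 β h η (fun s s' => (x s - x s') ^ 2) :=
      pe2_mono73 hd β h η fun s s' => sq_le_sq.2 (hlip s s')
    show co28 β h η f f ≤ co28 β h η x x
    linarith
  refine ⟨?_, fun r hr => ?_⟩
  · calc Cc ρ β h e n t a b ^ 2
        ≤ (∫ η, co28 β h η f f ∂(law d ρ)) * Vr ρ β h e n n := hcs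
      _ ≤ Vr ρ β h e n t * Vr ρ β h e n n := mul_le_mul_of_nonneg_right hvar hVn0
      _ = Vr ρ β h e n n * Vr ρ β h e n t := mul_comm _ _
  · set I : (Fin n → Step d) → (Fin n → Step d) → ℝ :=
      fun s s' => if r < ‖emb (pos s t) - emb (pos s' t)‖ then (1 : ℝ) else 0 with hI
    have hpt : ∀ s s' : Fin n → Step d, (f s - f s') ^ 2 ≤ (b - a) ^ 2 * I s s' + r ^ 2 := by
      intro s s'
      by_cases hb : r < ‖emb (pos s t) - emb (pos s' t)‖
      · have h5 : I s s' = 1 := if_pos hb
        rw [h5, mul_one]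
        have h1 := clamp_nonneg28 hab (inner ℝ e (emb (pos s t)))
        have h2 := clamp_nonneg28 hab (inner ℝ e (emb (pos s' t)))
        have h3 : |f s - f s'| ≤ b - a := by
          rw [abs_le]
          constructor
          · have h4 : a ≤ f s := h1.1
            have h6 : f s' ≤ b := h2.2
            linarith
          · have h4 : f s ≤ b := h1.2
            have h6 : a ≤ f s' := h2.1
            linarith
        have h7 : (f s - f s') ^ 2 ≤ (b - a) ^ 2 := by
          rw [← sq_abs (f s - f s')]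
          exact pow_le_pow_left₀ (abs_nonneg _) h3 2
        have h8 := sq_nonneg r
        linarith
      · have h5 : I s s' = 0 := if_neg hb
        rw [h5, mul_zero, zero_add]
        have h1 : |x s - x s'| ≤ ‖emb (pos s t) - emb (pos s' t)‖ := by
          have h2 : x s - x s' = inner ℝ e (emb (pos s t) - emb (pos s' t)) := by
            rw [hx, inner_sub_right]
          have h3 := abs_real_inner_le_norm e (emb (pos s t) - emb (pos s' t))
          rwa [he, one_mul, ← h2] at h3
        have h3 : |f s - f s'| ≤ r := (hlip s s').trans (h1.trans (not_lt.1 hb))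
        rw [← sq_abs (f s - f s')]
        exact pow_le_pow_left₀ (abs_nonneg _) h3 2
    have hint : 2 * ∫ η, co28 β h η f f ∂(law d ρ) ≤ (b - a) ^ 2 * Rp ρ β h n t r + r ^ 2 := by
      have hiI : Integrable (fun η : Env d => pe2 β h η I) (law d ρ) :=
        integrable_pe2_fun73 hd β h I
      have h1 : ∀ η : Env d, 2 * co28 β h η f f ≤ (b - a) ^ 2 * pe2 β h η I + r ^ 2 := by
        intro η
        have h2 := pe2_mono73 hd β h η hpt
        rw [two_co28 hd] at h2
        have h3 : pe2 β h η (fun s s' => (b - a) ^ 2 * I s s' + r ^ 2) =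
            (b - a) ^ 2 * pe2 β h η I + r ^ 2 := by
          unfold pe2
          simp only [pe_add73, pe_mul73, pe_const73 hd]
        rwa [h3] at h2
      have h2 := integral_mono ((integrable_co28 (ρ := ρ) hd β h f f).const_mul 2)
        ((hiI.const_mul ((b - a) ^ 2)).add (integrable_const (r ^ 2))) h1
      rw [integral_const_mul] at h2
      have h3 : ∫ η, ((b - a) ^ 2 * pe2 β h η I + r ^ 2) ∂(law d ρ) =
          (b - a) ^ 2 * Rp ρ β h n t r + r ^ 2 := by
        rw [integral_add (hiI.const_mul _) (integrable_const _), integral_const_mul,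
          integral_const, probReal_univ, one_smul]
        rfl
      exact h2.trans h3.le
    have hff0 : 0 ≤ ∫ η, co28 β h η f f ∂(law d ρ) :=
      integral_nonneg fun η => co_self_nonneg28 hd β h η _
    calc 2 * Cc ρ β h e n t a b ^ 2
        ≤ 2 * ((∫ η, co28 β h η f f ∂(law d ρ)) * Vr ρ β h e n n) := by linarith
      _ = Vr ρ β h e n n * (2 * ∫ η, co28 β h η f f ∂(law d ρ)) := by ring
      _ ≤ Vr ρ β h e n n * ((b - a) ^ 2 * Rp ρ β h n t r + r ^ 2) :=
          mul_le_mul_of_nonneg_left hint hVn0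

end Pool.Agent.W_7d29a1_S90
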