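import Pool.Agent.W_7d29a1_S90.Lc42

/-!
Theorem SUP, leaf C1: the derivative in the tilt of the mean of a function of the walk is a
covariance; continuity of the covariances and of the means over two replicas.
-/

set_option autoImplicit false

namespace Pool.Agent.W_7d29a1_S90

open MeasureTheory ProbabilityTheory Filter Topology Pool.Agent.W_MP_7d29a1_pr
  Pool.Agent.W_7d29a1_h46 Pool.Agent.W_7d29a1_h46u Pool.Agent.W_7d29a1_D2.B35
  Pool.Agent.W_7d29a1_Q29

variable {d n : ℕ}

/-- The covariance of two functions of the walk under the polymer measure. -/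
noncomputable def cv10 (β : ℝ) (h : Vec d) (η : Env d) (f g : (Fin n → Step d) → ℝ) : ℝ :=
  pe β h η (fun s => f s * g s) - pe β h η f * pe β h η g

lemma wgt_tilt10 (β : ℝ) (h e : Vec d) (η : Env d) (s : Fin n → Step d) (k : ℝ) :
    wgt β (h + k • e) η s = wgt β h η s * Real.exp (k * inner ℝ e (emb (pos s n))) := by
  unfold wgt
  rw [← Real.exp_add, inner_add_left, real_inner_smul_left]
  congr 1
  ring

lemma wgt_deriv10 (β : ℝ) (h e : Vec d) (η : Env d) (s : Fin n → Step d) (k : ℝ) :
    HasDerivAt (fun k : ℝ => wgt β (h + k • e) η s)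
      (wgt β (h + k • e) η s * inner ℝ e (emb (pos s n))) k := by
  have h1 : (fun k : ℝ => wgt β (h + k • e) η s) =
      fun k => wgt β h η s * Real.exp (k * inner ℝ e (emb (pos s n))) := by
    funext k
    exact wgt_tilt10 β h e η s k
  rw [h1, wgt_tilt10]
  have h2 : HasDerivAt (fun k : ℝ => k * (inner ℝ e (emb (pos s n)) : ℝ))
      (inner ℝ e (emb (pos s n))) k := by
    simpa using (hasDerivAt_id k).mul_const (inner ℝ e (emb (pos s n)) : ℝ)
  have h3 := (h2.exp).const_mul (wgt β h η s)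
  refine h3.congr_deriv ?_
  ring

/-- The derivative of the polymer mean in the tilt is the covariance with the displacement. -/
lemma pe_deriv10 (hd : 0 < d) (β : ℝ) (h e : Vec d) (η : Env d) (f : (Fin n → Step d) → ℝ)
    (k : ℝ) : HasDerivAt (fun k : ℝ => pe β (h + k • e) η f)
      (cv10 β (h + k • e) η f fun s => inner ℝ e (emb (pos s n))) k := by
  have hZ := Z_pos hd β (h + k • e) η n
  have hN : HasDerivAt (fun k : ℝ => ∑ s : Fin n → Step d, wgt β (h + k • e) η s * f s)
      (∑ s : Fin n → Step d, wgt β (h + k • e) η s * inner ℝ e (emb (pos s n)) * f s) k :=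
    HasDerivAt.fun_sum fun s _ => (wgt_deriv10 β h e η s k).mul_const (f s)
  have hD : HasDerivAt (fun k : ℝ => Z β (h + k • e) η n)
      (∑ s : Fin n → Step d, wgt β (h + k • e) η s * inner ℝ e (emb (pos s n))) k := by
    simp only [Z_eq]
    exact HasDerivAt.fun_sum fun s _ => wgt_deriv10 β h e η s k
  have h1 := hN.fun_div hD hZ.ne'
  unfold pe
  refine h1.congr_deriv ?_
  unfold cv10 pe
  have h2 : ∑ s : Fin n → Step d, wgt β (h + k • e) η s * (f s * inner ℝ e (emb (pos s n))) =
      ∑ s : Fin n → Step d, wgt β (h + k • e) η s * inner ℝ e (emb (pos s n)) * f s :=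
    Finset.sum_congr rfl fun s _ => by ring
  rw [h2]
  field_simp

lemma cv_meas10 (β : ℝ) (h : Vec d) (f g : (Fin n → Step d) → ℝ) :
    Measurable fun η : Env d => cv10 β h η f g := by
  unfold cv10
  exact (pe_meas42 β h _).sub ((pe_meas42 β h _).mul (pe_meas42 β h _))

lemma cv_abs10 (β : ℝ) (h : Vec d) (η : Env d) {f g : (Fin n → Step d) → ℝ} {C D : ℝ}
    (hC : 0 ≤ C) (hD : 0 ≤ D) (hf : ∀ s, |f s| ≤ C) (hg : ∀ s, |g s| ≤ D) :
    |cv10 β h η f g| ≤ 2 * (C * D) := by
  have h1 : |pe β h η fun s => f s * g s| ≤ C * D := pe_abs42 β h η (mul_nonneg hC hD) fun s => by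
    rw [abs_mul]
    exact mul_le_mul (hf s) (hg s) (abs_nonneg _) hC
  have h2 : |pe β h η f * pe β h η g| ≤ C * D := by
    rw [abs_mul]
    exact mul_le_mul (pe_abs42 β h η hC hf) (pe_abs42 β h η hD hg) (abs_nonneg _) hC
  unfold cv10
  have h3 := abs_sub (pe β h η fun s => f s * g s) (pe β h η f * pe β h η g)
  linarith

lemma cv_cont10 (hd : 0 < d) (β : ℝ) (η : Env d) (f g : (Fin n → Step d) → ℝ) :
    Continuous fun h : Vec d => cv10 β h η f g := by
  unfold cv10
  exact (pe_cont42 hd β η _).sub ((pe_cont42 hd β η _).mul (pe_cont42 hd β η _))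

variable {ρ : Measure ℝ} [IsProbabilityMeasure ρ]

/-- Continuity in the tilt of the mean covariance of two functions of the walk. -/
theorem cvc10 (hd : 0 < d) (β : ℝ) (f g : (Fin n → Step d) → ℝ) :
    Continuous fun h : Vec d => ∫ η, cv10 β h η f g ∂(law d ρ) := by
  obtain ⟨C, hC0, hC⟩ := exists_bd42 f
  obtain ⟨D, hD0, hD⟩ := exists_bd42 g
  refine continuous_of_dominated (bound := fun _ => 2 * (C * D))
    (fun h => (cv_meas10 β h f g).aestronglyMeasurable)
    (fun h => Filter.Eventually.of_forall fun η => ?_) (integrable_const _)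
    (Filter.Eventually.of_forall fun η => cv_cont10 hd β η f g)
  rw [Real.norm_eq_abs]
  exact cv_abs10 β h η hC0 hD0 hC hD

/-- The derivative in the tilt of the mean of a function of the walk. -/
theorem ped10 (hd : 0 < d) (β : ℝ) (h e : Vec d) (f : (Fin n → Step d) → ℝ) (k : ℝ) :
    HasDerivAt (fun k : ℝ => ∫ η, pe β (h + k • e) η f ∂(law d ρ))
      (∫ η, cv10 β (h + k • e) η f (fun s => inner ℝ e (emb (pos s n))) ∂(law d ρ)) k := by
  obtain ⟨C, hC0, hC⟩ := exists_bd42 f
  obtain ⟨D, hD0, hD⟩ := exists_bd42 fun s : Fin n → Step d => (inner ℝ e (emb (pos s n)) : ℝ)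
  refine (hasDerivAt_integral_of_dominated_loc_of_deriv_le (μ := law d ρ)
    (F := fun (k : ℝ) (η : Env d) => pe β (h + k • e) η f)
    (F' := fun (k : ℝ) (η : Env d) =>
      cv10 β (h + k • e) η f fun s => inner ℝ e (emb (pos s n)))
    (x₀ := k) (s := Set.univ) (bound := fun _ => 2 * (C * D)) Filter.univ_mem
    (Filter.Eventually.of_forall fun k => (pe_meas42 β (h + k • e) f).aestronglyMeasurable)
    (pe_int42 β (h + k • e) f) (cv_meas10 β (h + k • e) f _).aestronglyMeasurable
    (Filter.Eventually.of_forall fun η k _ => ?_) (integrable_const _)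
    (Filter.Eventually.of_forall fun η k _ => pe_deriv10 hd β h e η f k)).2
  rw [Real.norm_eq_abs]
  exact cv_abs10 β (h + k • e) η hC0 hD0 hC hD

/-- Leaf C1: the derivative of the drift. -/
theorem caT10 (hd : 0 < d) (β : ℝ) : CaT d ρ β := by
  intro h e n t _
  refine ⟨?_, fun s => ?_⟩
  · have h1 := (cvc10 (ρ := ρ) hd β (fun s : Fin n → Step d => (inner ℝ e (emb (pos s t)) : ℝ))
      (fun s : Fin n → Step d => (inner ℝ e (emb (pos s n)) : ℝ))).comp
        (continuous_const.add (continuous_id.smul continuous_const) :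
          Continuous fun s : ℝ => h + s • e)
    exact h1
  · exact ped10 (ρ := ρ) hd β h e (fun s : Fin n → Step d => (inner ℝ e (emb (pos s t)) : ℝ)) s

/-! ### Two replicas -/

omit [IsProbabilityMeasure ρ] in
lemma pe2_cont10 (hd : 0 < d) (β : ℝ) (η : Env d)
    (g : (Fin n → Step d) → (Fin n → Step d) → ℝ) :
    Continuous fun h : Vec d => pe2 β h η g := by
  have h1 : ∀ h : Vec d, pe2 β h η g =
      (∑ s, wgt β h η s * pe β h η fun s' => g s s') / Z β h η n := fun h => rfl
  simp only [h1]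
  refine Continuous.div ?_ ?_ fun h => (Z_pos hd β h η n).ne'
  · exact continuous_finsetSum _ fun s _ => (wgt_cont42 β η s).mul (pe_cont42 hd β η _)
  · simp only [Z_eq]
    exact continuous_finsetSum _ fun s _ => wgt_cont42 β η s

lemma exists_bd2_10 (g : (Fin n → Step d) → (Fin n → Step d) → ℝ) :
    ∃ C : ℝ, 0 ≤ C ∧ ∀ s s', |g s s'| ≤ C := by
  refine ⟨∑ s, ∑ s', |g s s'|, Finset.sum_nonneg fun _ _ => Finset.sum_nonneg fun _ _ =>
    abs_nonneg _, fun s s' => ?_⟩
  refine (Finset.single_le_sum (f := fun s' => |g s s'|) (fun _ _ => abs_nonneg _)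
    (Finset.mem_univ s')).trans ?_
  exact Finset.single_le_sum (f := fun s => ∑ s', |g s s'|)
    (fun _ _ => Finset.sum_nonneg fun _ _ => abs_nonneg _) (Finset.mem_univ s)

omit [IsProbabilityMeasure ρ] in
lemma pe2_abs10 (β : ℝ) (h : Vec d) (η : Env d)
    {g : (Fin n → Step d) → (Fin n → Step d) → ℝ} {C : ℝ} (hC : 0 ≤ C)
    (hg : ∀ s s', |g s s'| ≤ C) : |pe2 β h η g| ≤ C :=
  pe_abs42 β h η hC fun s => pe_abs42 β h η hC fun s' => hg s s'

omit [IsProbabilityMeasure ρ] in
lemma pe2_meas10 (β : ℝ) (h : Vec d) (g : (Fin n → Step d) → (Fin n → Step d) → ℝ) :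
    Measurable fun η : Env d => pe2 β h η g := by
  have h1 : ∀ η : Env d, pe2 β h η g =
      (∑ s, wgt β h η s * pe β h η fun s' => g s s') / Z β h η n := fun η => rfl
  simp only [h1]
  exact (Finset.measurable_sum _ fun s _ => (wgt_meas42 β h s).mul (pe_meas42 β h _)).div
    (measurable_Z β h n)

/-- Continuity in the tilt of the mean over two replicas. -/
theorem lc2_10 (hd : 0 < d) (β : ℝ) (g : (Fin n → Step d) → (Fin n → Step d) → ℝ) :
    Continuous fun h : Vec d => ∫ η, pe2 β h η g ∂(law d ρ) := by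
  obtain ⟨C, hC0, hC⟩ := exists_bd2_10 g
  refine continuous_of_dominated (bound := fun _ => C)
    (fun h => (pe2_meas10 β h g).aestronglyMeasurable)
    (fun h => Filter.Eventually.of_forall fun η => ?_) (integrable_const C)
    (Filter.Eventually.of_forall fun η => pe2_cont10 hd β η g)
  rw [Real.norm_eq_abs]
  exact pe2_abs10 β h η hC0 hC

end Pool.Agent.W_7d29a1_S90
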