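import Pool.Agent.W_7d29a1_S90.StM86
import Pool.Agent.W_7d29a1_Q29.Npb39

/-!
Theorem SUP, leaf I6: large values are not used.
-/

namespace Pool.Agent.W_7d29a1_S90

open MeasureTheory ProbabilityTheory Filter Topology Pool.Agent.W_MP_7d29a1_pr
  Pool.Agent.W_7d29a1_h46 Pool.Agent.W_7d29a1_h46u Pool.Agent.W_7d29a1_D2.B35
  Pool.Agent.W_7d29a1_Q29 Pool.Agent.W_7d29a1_Q29.D85

lemma ratio63 {β : ℝ} (hβ : 0 < β) {a b : ℝ} (ha : 0 ≤ a) (hb : 0 ≤ b) (hab : 0 < a + b)
    (u v : ℝ) : b * Real.exp (β * u) / (a + b * Real.exp (β * u)) * Real.exp (-β * |v - 0|) ≤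
      Real.exp (β * |u - 0|) * (b * Real.exp (β * v) / (a + b * Real.exp (β * v))) := by
  have hpos : ∀ r : ℝ, 0 < a + b * Real.exp (β * r) := by
    intro r
    have h1 := Real.exp_pos (β * r)
    rcases eq_or_lt_of_le hb with h | h
    · rw [← h]; linarith
    · have := mul_pos h h1
      linarith
  rw [sub_zero, sub_zero]
  have key : b * Real.exp (β * u) * (a + b * Real.exp (β * v)) ≤
      Real.exp (β * |u| + β * |v|) * (b * Real.exp (β * v)) * (a + b * Real.exp (β * u)) := by
    have h1 : Real.exp (β * u) ≤ Real.exp (β * |u| + β * |v|) * Real.exp (β * v) := by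
      rw [← Real.exp_add]
      refine Real.exp_le_exp.2 ?_
      have e1 : β * u ≤ β * |u| := mul_le_mul_of_nonneg_left (le_abs_self u) hβ.le
      have e2 : -(β * v) ≤ β * |v| := by
        rw [← mul_neg]
        exact mul_le_mul_of_nonneg_left (neg_le_abs v) hβ.le
      linarith
    have h2 : (1 : ℝ) ≤ Real.exp (β * |u| + β * |v|) := by
      refine Real.one_le_exp ?_
      positivity
    have e1 := Real.exp_pos (β * u)
    have e2 := Real.exp_pos (β * v)
    have h3 : b * a * Real.exp (β * u) ≤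
        b * a * (Real.exp (β * |u| + β * |v|) * Real.exp (β * v)) :=
      mul_le_mul_of_nonneg_left h1 (by positivity)
    have h4 : b * b * (Real.exp (β * u) * Real.exp (β * v)) * 1 ≤
        b * b * (Real.exp (β * u) * Real.exp (β * v)) * Real.exp (β * |u| + β * |v|) :=
      mul_le_mul_of_nonneg_left h2 (by positivity)
    nlinarith
  have h5 : b * Real.exp (β * u) / (a + b * Real.exp (β * u)) ≤
      Real.exp (β * |u| + β * |v|) * (b * Real.exp (β * v) / (a + b * Real.exp (β * v))) := by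
    rw [← mul_div_assoc, div_le_div_iff₀ (hpos u) (hpos v)]
    exact key
  have h6 := mul_le_mul_of_nonneg_right h5 (Real.exp_pos (-β * |v|)).le
  refine h6.trans (le_of_eq ?_)
  have h7 : Real.exp (β * |u| + β * |v|) * Real.exp (-β * |v|) = Real.exp (β * |u|) := by
    rw [← Real.exp_add]
    congr 1
    ring
  calc _ = Real.exp (β * |u| + β * |v|) * Real.exp (-β * |v|) *
        (b * Real.exp (β * v) / (a + b * Real.exp (β * v))) := by ring
    _ = _ := by rw [h7]

variable {d : ℕ} {ρ : Measure ℝ} [IsProbabilityMeasure ρ]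

open Classical in
/-- The scalar form. -/
lemma scal63 (hρ : EM ρ) {β : ℝ} (hβ : 0 < β) {M : ℝ} (hM : 0 ≤ M) {a b : ℝ} (ha : 0 ≤ a)
    (hb : 0 ≤ b) (hab : 0 < a + b) {t : ℝ} :
    ∫ u, b * Real.exp (β * u) / (a + b * Real.exp (β * u)) * (if t < |u| then (1 : ℝ) else 0) ∂ρ ≤
      (∫ v, Real.exp ((β + M) * |v - 0|) ∂ρ) / (∫ v, Real.exp (-β * |v - 0|) ∂ρ) *
        Real.exp (-(M * t)) * ∫ u, b * Real.exp (β * u) / (a + b * Real.exp (β * u)) ∂ρ := by
  have hpos : ∀ r : ℝ, 0 < a + b * Real.exp (β * r) := by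
    intro r
    have h1 := Real.exp_pos (β * r)
    rcases eq_or_lt_of_le hb with h | h
    · rw [← h]; linarith
    · have := mul_pos h h1
      linarith
  set q : ℝ → ℝ := fun r => b * Real.exp (β * r) / (a + b * Real.exp (β * r)) with hq
  have hq0 : ∀ r, 0 ≤ q r := fun r =>
    div_nonneg (mul_nonneg hb (Real.exp_pos _).le) (hpos r).le
  have hq1 : ∀ r, q r ≤ 1 := fun r => by
    refine div_le_one_of_le₀ ?_ (hpos r).le
    linarith
  have hqm : Measurable q := by
    simp only [hq]
    fun_prop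
  have hqi : Integrable q ρ := by
    refine Integrable.mono' (integrable_const (1 : ℝ)) hqm.aestronglyMeasurable
      (Eventually.of_forall fun r => ?_)
    rw [Real.norm_eq_abs, abs_of_nonneg (hq0 r)]
    exact hq1 r
  have hci := s39_int_exp_abs (ρ := ρ) hρ (-β) 0
  have hKi := s39_int_exp_abs (ρ := ρ) hρ (β + M) 0
  set c₀ : ℝ := ∫ v, Real.exp (-β * |v - 0|) ∂ρ with hc₀
  have hc : 0 < c₀ := integral_exp_pos hci
  set Q : ℝ := ∫ u, q u ∂ρ with hQ
  have hQ0 : 0 ≤ Q := integral_nonneg hq0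
  have h1 : ∀ u : ℝ, q u * c₀ ≤ Real.exp (β * |u - 0|) * Q := by
    intro u
    rw [hc₀, hQ, ← integral_const_mul, ← integral_const_mul]
    exact integral_mono (hci.const_mul _) (hqi.const_mul _) fun v =>
      ratio63 hβ ha hb hab u v
  have h2 : ∀ u : ℝ, q u * (if t < |u| then (1 : ℝ) else 0) ≤
      Q / c₀ * Real.exp (-(M * t)) * Real.exp ((β + M) * |u - 0|) := by
    intro u
    split_ifs with hu
    · have h3 : q u ≤ Real.exp (β * |u - 0|) * Q / c₀ := by
        rw [le_div_iff₀ hc]
        exact h1 u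
      have h4 : Real.exp (β * |u - 0|) ≤
          Real.exp (-(M * t)) * Real.exp ((β + M) * |u - 0|) := by
        rw [← Real.exp_add]
        refine Real.exp_le_exp.2 ?_
        rw [sub_zero]
        have h5 : M * t ≤ M * |u| := mul_le_mul_of_nonneg_left hu.le hM
        nlinarith
      rw [mul_one]
      calc q u ≤ Real.exp (β * |u - 0|) * Q / c₀ := h3
        _ = Q / c₀ * Real.exp (β * |u - 0|) := by ring
        _ ≤ Q / c₀ * (Real.exp (-(M * t)) * Real.exp ((β + M) * |u - 0|)) :=
            mul_le_mul_of_nonneg_left h4 (by positivity)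
        _ = _ := by ring
    · rw [mul_zero]
      positivity
  have h6 := integral_mono_of_nonneg
    (f := fun u => q u * (if t < |u| then (1 : ℝ) else 0)) (μ := ρ)
    (Eventually.of_forall fun u => mul_nonneg (hq0 u) (by split_ifs <;> norm_num))
    (hKi.const_mul (Q / c₀ * Real.exp (-(M * t)))) (Eventually.of_forall h2)
  refine h6.trans (le_of_eq ?_)
  rw [integral_const_mul]
  ring

open Classical in
/-- Leaf I6: large values are not used. -/
theorem dlT63 (hd : 0 < d) (hρ : EM ρ) {β : ℝ} (hβ : 0 < β) : DlT d ρ β := by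
  intro M hM
  have hci := s39_int_exp_abs (ρ := ρ) hρ (-β) 0
  set K : ℝ := ∫ v, Real.exp ((β + M) * |v - 0|) ∂ρ with hK
  set c₀ : ℝ := ∫ v, Real.exp (-β * |v - 0|) ∂ρ with hc₀
  have hK0 : 0 ≤ K := integral_nonneg fun v => (Real.exp_pos _).le
  have hc : 0 < c₀ := integral_exp_pos hci
  refine ⟨K / c₀, by positivity, fun h n τ b h1 hn hb => ?_⟩
  have hQm := fun y : Site d => measurable_Qt39 β h n τ y
  have hQ0 := fun (y : Site d) (η : Env d) => Qt_nonneg39 β h n τ y η
  have hQ1 := fun (y : Site d) (η : Env d) => Qt_le_one39 β h hn y η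
  have hQi := fun y : Site d => int_Qt86 (ρ := ρ) β h hn y
  -- the integrand
  set F : Site d → Env d → ℝ := fun y η =>
    Qt β h n τ y η * (if b < |η (τ, y)| then (1 : ℝ) else 0) with hF
  have hFm : ∀ y, Measurable (F y) := fun y => by
    refine (hQm y).mul (Measurable.ite ?_ measurable_const measurable_const)
    exact measurableSet_lt measurable_const (continuous_abs.measurable.comp (measurable_pi_apply _))
  have hFi : ∀ y, Integrable (F y) (law d ρ) := fun y => by
    refine Integrable.mono' (integrable_const (1 : ℝ)) (hFm y).aestronglyMeasurable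
      (Eventually.of_forall fun η => ?_)
    have h2 := hQ0 y η
    have h3 := hQ1 y η
    simp only [hF, Real.norm_eq_abs]
    split_ifs
    · rw [mul_one, abs_of_nonneg h2]
      exact h3
    · simp
  have hDl : Dl ρ β h n τ b = ∫ η, ∑ y ∈ boxF d n, F y η ∂(law d ρ) := by
    unfold Dl
    refine integral_congr_ae (Eventually.of_forall fun η => ?_)
    exact pe_pos86 β h η hn fun y => if b < |η (τ, y)| then (1 : ℝ) else 0
  have hone : ∀ y, ∫ η, F y η ∂(law d ρ) ≤
      K / c₀ * Real.exp (-(M * b)) * ∫ η, Qt β h n τ y η ∂(law d ρ) := by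
    intro y
    rw [integral_upd (ρ := ρ) (τ, y) (hFi y), integral_upd (ρ := ρ) (τ, y) (hQi y),
      ← integral_const_mul]
    refine integral_mono (integrable_upd (ρ := ρ) (τ, y) (hFi y))
      ((integrable_upd (ρ := ρ) (τ, y) (hQi y)).const_mul _) fun η => ?_
    obtain ⟨a, b', ha, hb', hab, hsh⟩ := s39_shape hd β h n τ y η h1 hn
    have e1 : ∀ r : ℝ, Qt β h n τ y (Function.update η (τ, y) r) =
        b' * Real.exp (β * r) / (a + b' * Real.exp (β * r)) := fun r => (hsh r).2
    have e2 : ∀ r : ℝ, F y (Function.update η (τ, y) r) =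
        b' * Real.exp (β * r) / (a + b' * Real.exp (β * r)) *
          (if b < |r| then (1 : ℝ) else 0) := by
      intro r
      simp only [hF]
      rw [e1 r, Function.update_self]
    simp only [e1, e2]
    exact scal63 hρ hβ hM ha hb' hab
  rw [hDl, integral_finsetSum _ fun y _ => hFi y]
  calc ∑ y ∈ boxF d n, ∫ η, F y η ∂(law d ρ)
      ≤ ∑ y ∈ boxF d n, K / c₀ * Real.exp (-(M * b)) * ∫ η, Qt β h n τ y η ∂(law d ρ) :=
        Finset.sum_le_sum fun y _ => hone y
    _ = K / c₀ * Real.exp (-(M * b)) *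
        ∫ η, ∑ y ∈ boxF d n, Qt β h n τ y η ∂(law d ρ) := by
        rw [integral_finsetSum _ fun y _ => hQi y, Finset.mul_sum]
    _ = K / c₀ * Real.exp (-(M * b)) := by
        have h3 : ∀ η : Env d, ∑ y ∈ boxF d n, Qt β h n τ y η = 1 := fun η =>
          Qt_sum_box39 hd β h hn hn η
        simp only [h3]
        simp

end Pool.Agent.W_7d29a1_S90
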