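import Pool.Agent.W_7d29a1_S90.RpT73
import Pool.Agent.W_7d29a1_h46u.LamU
import Pool.Agent.W_7d29a1_h46u.ConcV

/-!
Theorem SUP, leaf C3: the drift of the end point along a segment.
-/

namespace Pool.Agent.W_7d29a1_S90

open MeasureTheory ProbabilityTheory Filter Topology Pool.Agent.W_MP_7d29a1_pr
  Pool.Agent.W_7d29a1_h46 Pool.Agent.W_7d29a1_h46u Pool.Agent.W_7d29a1_D2.B35
  Pool.Agent.W_7d29a1_Q29

variable {d n : ℕ}

/-- The free energy is convex in the tilt: it lies above its tangent. -/
lemma tan56 (hd : 0 < d) (β : ℝ) (h w : Vec d) (η : Env d) :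
    pe β h η (fun s : Fin n → Step d => inner ℝ w (emb (pos s n))) ≤
      X β (h + w) η n - X β h η n := by
  set m : ℝ := pe β h η (fun s : Fin n → Step d => inner ℝ w (emb (pos s n))) with hm
  have hZ : 0 < Z β h η n := Z_pos hd β h η n
  have hZ' : 0 < Z β (h + w) η n := Z_pos hd β (h + w) η n
  have h1 : Real.exp m * Z β h η n ≤ Z β (h + w) η n := by
    have h2 : Z β h η n = ∑ s : Fin n → Step d,
        wgt β h η s * (1 + (inner ℝ w (emb (pos s n)) - m)) := by
      have h3 : pe β h η (fun s : Fin n → Step d => 1 + (inner ℝ w (emb (pos s n)) - m)) = 1 := by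
        rw [pe_add73, pe_sub73, pe_const73 hd, pe_const73 hd, ← hm]
        ring
      unfold pe at h3
      rw [div_eq_one_iff_eq hZ.ne'] at h3
      exact h3.symm
    have h4 : Z β (h + w) η n = ∑ s : Fin n → Step d,
        wgt β h η s * Real.exp (inner ℝ w (emb (pos s n))) := by
      rw [Z_eq]
      refine Finset.sum_congr rfl fun s _ => ?_
      unfold wgt
      rw [← Real.exp_add, inner_add_left]
      congr 1
      ring
    rw [h4, h2, Finset.mul_sum]
    refine Finset.sum_le_sum fun s _ => ?_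
    have h5 : 1 + (inner ℝ w (emb (pos s n)) - m) ≤ Real.exp (inner ℝ w (emb (pos s n)) - m) := by
      have := Real.add_one_le_exp (inner ℝ w (emb (pos s n)) - m)
      linarith
    have h6 : Real.exp m * Real.exp (inner ℝ w (emb (pos s n)) - m) =
        Real.exp (inner ℝ w (emb (pos s n))) := by
      rw [← Real.exp_add]
      congr 1
      ring
    have h7 : 0 < wgt β h η s := Real.exp_pos _
    calc Real.exp m * (wgt β h η s * (1 + (inner ℝ w (emb (pos s n)) - m)))
        ≤ Real.exp m * (wgt β h η s * Real.exp (inner ℝ w (emb (pos s n)) - m)) := by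
          gcongr
      _ = wgt β h η s * (Real.exp m * Real.exp (inner ℝ w (emb (pos s n)) - m)) := by ring
      _ = wgt β h η s * Real.exp (inner ℝ w (emb (pos s n))) := by rw [h6]
  have h8 := Real.log_le_log (mul_pos (Real.exp_pos m) hZ) h1
  rw [Real.log_mul (Real.exp_pos m).ne' hZ.ne', Real.log_exp] at h8
  unfold X
  linarith

/-- The mean of the tangent. -/
lemma tanA56 {ρ : Measure ℝ} [IsProbabilityMeasure ρ] (hd : 0 < d) (hρ : EM ρ) (β : ℝ)
    (h e : Vec d) (k : ℝ) (n : ℕ) :
    k * Ft ρ β h e n n ≤ A ρ β (h + k • e) n - A ρ β h n := by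
  unfold Ft A
  have hi : Integrable (fun η => X β (h + k • e) η n) (law d ρ) := (concU hd hρ β (h + k • e) n).1
  have hi' : Integrable (fun η => X β h η n) (law d ρ) := (concU hd hρ β h n).1
  rw [← integral_const_mul, ← integral_sub hi hi']
  refine integral_mono ((integrable_pe_fun73 hd β h _).const_mul k) (hi.sub hi') fun η => ?_
  have h1 := tan56 (n := n) hd β h (k • e) η
  have h2 : (fun s : Fin n → Step d => inner ℝ (k • e) (emb (pos s n))) =
      fun s => k * inner ℝ e (emb (pos s n)) := by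
    funext s
    rw [real_inner_smul_left]
  rw [h2, pe_mul73] at h1
  exact h1

/-- Leaf C3: the drift of the end point along a segment. -/
theorem drT56 {ρ : Measure ℝ} [IsProbabilityMeasure ρ] (hd : 0 < d) (hρ : EM ρ) (β : ℝ) :
    DrT d ρ β := by
  intro h e l D hl hD
  have hlim : Tendsto (fun n : ℕ => 2 / l * (A ρ β h n / n + A ρ β (h + l • e) n / n -
      2 * (A ρ β (h + (l / 2) • e) n / n))) atTop
      (𝓝 (2 / l * (lam ρ β h + lam ρ β (h + l • e) - 2 * lam ρ β (h + (l / 2) • e)))) :=
    (((tendsto_A hd hρ β h).add (tendsto_A hd hρ β (h + l • e))).sub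
      ((tendsto_A hd hρ β (h + (l / 2) • e)).const_mul 2)).const_mul (2 / l)
  obtain ⟨N, hN⟩ := eventually_atTop.1 ((hlim.eventually_const_lt hD).and (eventually_gt_atTop 0))
  refine ⟨N, fun n hn => ?_⟩
  obtain ⟨h1, h0⟩ := hN n hn
  have hn' : (0 : ℝ) < n := by exact_mod_cast h0
  have h2 := tanA56 (ρ := ρ) hd hρ β h e (l / 2) n
  have h3 := tanA56 (ρ := ρ) hd hρ β (h + l • e) e (-(l / 2)) n
  have h4 : h + l • e + (-(l / 2)) • e = h + (l / 2) • e := by
    rw [add_assoc, ← add_smul]
    congr 2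
    ring
  rw [h4] at h3
  have h5 : D * n ≤ 2 / l * (A ρ β h n + A ρ β (h + l • e) n -
      2 * A ρ β (h + (l / 2) • e) n) := by
    have h6 : 2 / l * (A ρ β h n + A ρ β (h + l • e) n - 2 * A ρ β (h + (l / 2) • e) n) =
        2 / l * (A ρ β h n / n + A ρ β (h + l • e) n / n -
          2 * (A ρ β (h + (l / 2) • e) n / n)) * n := by
      field_simp
    rw [h6]
    exact mul_le_mul_of_nonneg_right h1.le hn'.le
  refine h5.trans ?_
  rw [div_mul_eq_mul_div, div_le_iff₀ hl]
  nlinarith [h2, h3]

end Pool.Agent.W_7d29a1_S90
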