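import Pool.Agent.W_7d29a1_Q29.Defs29

/-!
The entropy of a law on the lattice with a given second moment (leaf of SUP+).
-/

namespace Pool.Agent.W_7d29a1_S90.E53

open Pool.Agent.W_MP_7d29a1_pr Pool.Agent.W_7d29a1_h46 Pool.Agent.W_7d29a1_h46u

/-- The comparison weight. -/
noncomputable def w53 (σ t : ℝ) : ℝ := σ / (σ ^ 2 + t ^ 2)

lemma w53_pos {σ : ℝ} (hσ : 1 ≤ σ) (t : ℝ) : 0 < w53 σ t := by
  unfold w53
  have : 0 < σ := by linarith
  positivity

lemma w53_anti {σ s t : ℝ} (hσ : 1 ≤ σ) (hs : 0 ≤ s) (hst : s ≤ t) : w53 σ t ≤ w53 σ s := by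
  unfold w53
  have : 0 < σ := by linarith
  have h2 : s ^ 2 ≤ t ^ 2 := pow_le_pow_left₀ hs hst 2
  apply div_le_div_of_nonneg_left this.le (by positivity) (by linarith)

lemma w53_neg (σ t : ℝ) : w53 σ (-t) = w53 σ t := by unfold w53; rw [neg_sq]

lemma w53_nat {σ : ℝ} (hσ : 1 ≤ σ) (J : ℕ) :
    ∑ j ∈ Finset.range (J + 1), w53 σ j ≤ 1 + 2 * (J / (σ + J)) := by
  have h0 : 0 < σ := by linarith
  induction J with
  | zero =>
    simp [w53]
    rw [div_le_one (by positivity)]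
    nlinarith
  | succ J ih =>
    rw [Finset.sum_range_succ]
    have hJ : (0 : ℝ) ≤ J := Nat.cast_nonneg J
    have h1 : w53 σ ((J + 1 : ℕ) : ℝ) ≤
        2 * (((J + 1 : ℕ) : ℝ) / (σ + ((J + 1 : ℕ) : ℝ))) - 2 * (J / (σ + J)) := by
      unfold w53
      push_cast
      have e : 2 * (((J : ℝ) + 1) / (σ + (J + 1))) - 2 * (J / (σ + J)) =
          2 * σ / ((σ + (J + 1)) * (σ + J)) := by
        field_simp
        ring
      rw [e, div_le_div_iff₀ (by positivity) (by positivity)]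
      nlinarith [mul_nonneg h0.le (sq_nonneg (σ - (J + 1))), mul_nonneg h0.le hJ]
    linarith

lemma w53_nat' {σ : ℝ} (hσ : 1 ≤ σ) (J : ℕ) : ∑ j ∈ Finset.range J, w53 σ j ≤ 3 := by
  have h0 : 0 < σ := by linarith
  have h1 : ∑ j ∈ Finset.range J, w53 σ j ≤ ∑ j ∈ Finset.range (J + 1), w53 σ j := by
    rw [Finset.sum_range_succ]
    linarith [w53_pos hσ (J : ℝ)]
  have h2 : (J : ℝ) / (σ + J) ≤ 1 := by
    have : (0 : ℝ) ≤ J := Nat.cast_nonneg J
    rw [div_le_one (by positivity)]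
    linarith
  linarith [w53_nat hσ J]

/-- The half line. -/
lemma w53_half {σ : ℝ} (hσ : 1 ≤ σ) (T : Finset ℤ) (g : ℤ → ℝ) (f : ℤ → ℕ)
    (hf : Set.InjOn f T) (hg : ∀ k ∈ T, g k ≤ w53 σ (f k)) : ∑ k ∈ T, g k ≤ 3 := by
  classical
  calc ∑ k ∈ T, g k ≤ ∑ k ∈ T, w53 σ (f k) := Finset.sum_le_sum hg
    _ = ∑ j ∈ T.image f, w53 σ j := by
        rw [Finset.sum_image]
        exact fun x hx y hy h => hf hx hy h
    _ ≤ ∑ j ∈ Finset.range ((T.image f).sup id + 1), w53 σ j := by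
        apply Finset.sum_le_sum_of_subset_of_nonneg
        · intro j hj
          rw [Finset.mem_range]
          have := Finset.le_sup (f := id) hj
          simp only [id] at this
          omega
        · intro j _ _
          exact (w53_pos hσ _).le
    _ ≤ 3 := w53_nat' hσ _

lemma w53_int {σ : ℝ} (hσ : 1 ≤ σ) (T : Finset ℤ) (m : ℝ) :
    ∑ k ∈ T, w53 σ (k - m) ≤ 6 := by
  classical
  rw [← Finset.sum_filter_add_sum_filter_not T (fun k : ℤ => ⌈m⌉ ≤ k)]
  have h1 : ∑ k ∈ T.filter (fun k : ℤ => ⌈m⌉ ≤ k), w53 σ (k - m) ≤ 3 := by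
    refine w53_half hσ _ _ (fun k => (k - ⌈m⌉).toNat) ?_ ?_
    · intro x hx y hy hxy
      simp only [Finset.coe_filter, Set.mem_ofPred_eq] at hx hy
      simp only at hxy
      omega
    · intro k hk
      rw [Finset.mem_filter] at hk
      have e : (((k - ⌈m⌉).toNat : ℕ) : ℝ) = (k : ℝ) - (⌈m⌉ : ℝ) := by
        have : (((k - ⌈m⌉).toNat : ℕ) : ℤ) = k - ⌈m⌉ := Int.toNat_of_nonneg (by omega)
        have h := congrArg (fun z : ℤ => (z : ℝ)) this
        push_cast at h
        exact_mod_cast h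
      apply w53_anti hσ (Nat.cast_nonneg _)
      rw [e]
      linarith [Int.le_ceil m]
  have h2 : ∑ k ∈ T.filter (fun k : ℤ => ¬ ⌈m⌉ ≤ k), w53 σ (k - m) ≤ 3 := by
    refine w53_half hσ _ _ (fun k => (⌈m⌉ - 1 - k).toNat) ?_ ?_
    · intro x hx y hy hxy
      simp only [Finset.coe_filter, Set.mem_ofPred_eq] at hx hy
      simp only at hxy
      omega
    · intro k hk
      rw [Finset.mem_filter] at hk
      have e : (((⌈m⌉ - 1 - k).toNat : ℕ) : ℝ) = (⌈m⌉ : ℝ) - 1 - (k : ℝ) := by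
        have : (((⌈m⌉ - 1 - k).toNat : ℕ) : ℤ) = ⌈m⌉ - 1 - k := Int.toNat_of_nonneg (by omega)
        have h := congrArg (fun z : ℤ => (z : ℝ)) this
        push_cast at h
        exact_mod_cast h
      have e2 : w53 σ ((k : ℝ) - m) = w53 σ (m - k) := by
        rw [← w53_neg]
        congr 1
        ring
      rw [e2]
      apply w53_anti hσ (Nat.cast_nonneg _)
      rw [e]
      linarith [Int.ceil_lt_add_one m]
  linarith

/-- Gibbs' inequality. -/
lemma gibbs53 {ι : Type*} (S : Finset ι) (p q : ι → ℝ) (hp : ∀ x ∈ S, 0 ≤ p x)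
    (h1 : ∑ x ∈ S, p x = 1) (hq : ∀ x ∈ S, 0 < q x) {W : ℝ} (hW : 0 < W)
    (hqW : ∑ x ∈ S, q x ≤ W) :
    ∑ x ∈ S, Real.negMulLog (p x) ≤ Real.log W - ∑ x ∈ S, p x * Real.log (q x) := by
  have key : ∀ x ∈ S, Real.negMulLog (p x) + p x * Real.log (q x) - p x * Real.log W ≤
      q x / W - p x := by
    intro x hx
    rcases (hp x hx).eq_or_lt with h0 | h0
    · rw [← h0]
      simp only [Real.negMulLog_zero, zero_mul, sub_zero, add_zero]
      have := hq x hx
      positivity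
    · have hr : 0 < q x / (p x * W) := div_pos (hq x hx) (by positivity)
      have h2 := Real.log_le_sub_one_of_pos hr
      have h3 : Real.log (q x / (p x * W)) = Real.log (q x) - (Real.log (p x) + Real.log W) := by
        rw [Real.log_div (hq x hx).ne' (by positivity), Real.log_mul h0.ne' hW.ne']
      have h4 : p x * Real.log (q x / (p x * W)) ≤ p x * (q x / (p x * W) - 1) :=
        mul_le_mul_of_nonneg_left h2 h0.le
      have h5 : p x * (q x / (p x * W) - 1) = q x / W - p x := by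
        field_simp
      unfold Real.negMulLog
      rw [h3] at h4
      rw [h5] at h4
      linarith
  have hs := Finset.sum_le_sum key
  rw [Finset.sum_sub_distrib, Finset.sum_add_distrib, Finset.sum_sub_distrib, ← Finset.sum_mul,
    h1, ← Finset.sum_div] at hs
  have : (∑ x ∈ S, q x) / W ≤ 1 := by
    rw [div_le_one hW]
    exact hqW
  linarith

/-- The entropy bound. -/
theorem ent53 {d : ℕ} (S : Finset (Site d)) (p : Site d → ℝ) (hp : ∀ x ∈ S, 0 ≤ p x)
    (h1 : ∑ x ∈ S, p x = 1) (m : Vec d) {R N : ℝ} (hN : 1 ≤ N)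
    (hm : ∑ x ∈ S, p x * ‖emb x - m‖ ^ 2 ≤ R * N) :
    ∑ x ∈ S, Real.negMulLog (p x) ≤ (d : ℝ) / 2 * Real.log N + R + d * Real.log 6 := by
  classical
  obtain ⟨σ, hσ⟩ : ∃ σ, σ = Real.sqrt N := ⟨_, rfl⟩
  have hσ1 : 1 ≤ σ := by rw [hσ]; exact Real.one_le_sqrt.2 hN
  have hσ0 : 0 < σ := by linarith
  have hσN : σ ^ 2 = N := by rw [hσ]; exact Real.sq_sqrt (by linarith)
  have hW : ∑ x ∈ S, ∏ i, w53 σ ((x i : ℝ) - m i) ≤ 6 ^ d := by
    obtain ⟨T, hT⟩ : ∃ T : Fin d → Finset ℤ, T = fun i => S.image (fun x : Site d => x i) :=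
      ⟨_, rfl⟩
    have hsub : S ⊆ Fintype.piFinset T := by
      intro x hx
      rw [Fintype.mem_piFinset]
      intro i
      rw [hT]
      exact Finset.mem_image_of_mem (fun y : Site d => y i) hx
    calc ∑ x ∈ S, ∏ i, w53 σ ((x i : ℝ) - m i)
        ≤ ∑ x ∈ Fintype.piFinset T, ∏ i, w53 σ ((x i : ℝ) - m i) := by
          apply Finset.sum_le_sum_of_subset_of_nonneg hsub
          intro x _ _
          exact Finset.prod_nonneg fun i _ => (w53_pos hσ1 _).le
      _ = ∏ i, ∑ k ∈ T i, w53 σ ((k : ℝ) - m i) :=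
          (Finset.prod_univ_sum T (fun i k => w53 σ ((k : ℝ) - m i))).symm
      _ ≤ ∏ _i : Fin d, (6 : ℝ) := by
          apply Finset.prod_le_prod
          · intro i _
            exact Finset.sum_nonneg fun k _ => (w53_pos hσ1 _).le
          · intro i _
            exact w53_int hσ1 _ _
      _ = 6 ^ d := by simp
  have hg := gibbs53 S p (fun x => ∏ i, w53 σ ((x i : ℝ) - m i)) hp h1
    (fun x _ => Finset.prod_pos fun i _ => w53_pos hσ1 _) (by positivity : (0 : ℝ) < 6 ^ d) hW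
  have hlog : ∀ x ∈ S, - (p x * Real.log (∏ i, w53 σ ((x i : ℝ) - m i))) ≤
      p x * (d * Real.log σ) + p x * ‖emb x - m‖ ^ 2 / N := by
    intro x hx
    rw [Real.log_prod (fun i _ => (w53_pos hσ1 _).ne')]
    have h2 : ∀ i : Fin d, - Real.log (w53 σ ((x i : ℝ) - m i)) ≤
        Real.log σ + ((x i : ℝ) - m i) ^ 2 / N := by
      intro i
      unfold w53
      rw [Real.log_div hσ0.ne' (by positivity)]
      have h3 : Real.log (σ ^ 2 + ((x i : ℝ) - m i) ^ 2) ≤
          2 * Real.log σ + ((x i : ℝ) - m i) ^ 2 / N := by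
        have h4 : σ ^ 2 + ((x i : ℝ) - m i) ^ 2 = σ ^ 2 * (1 + ((x i : ℝ) - m i) ^ 2 / N) := by
          rw [← hσN]
          field_simp
        have h5 : (0 : ℝ) < 1 + ((x i : ℝ) - m i) ^ 2 / N := by positivity
        rw [h4, Real.log_mul (by positivity) h5.ne', Real.log_pow]
        have h6 := Real.log_le_sub_one_of_pos h5
        push_cast
        linarith
      linarith
    have h7 : - ∑ i, Real.log (w53 σ ((x i : ℝ) - m i)) ≤
        d * Real.log σ + ‖emb x - m‖ ^ 2 / N := by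
      rw [← Finset.sum_neg_distrib]
      calc ∑ i, - Real.log (w53 σ ((x i : ℝ) - m i))
          ≤ ∑ i : Fin d, (Real.log σ + ((x i : ℝ) - m i) ^ 2 / N) :=
            Finset.sum_le_sum fun i _ => h2 i
        _ = d * Real.log σ + ‖emb x - m‖ ^ 2 / N := by
            rw [Finset.sum_add_distrib, ← Finset.sum_div]
            congr 1
            · simp
            · rw [EuclideanSpace.real_norm_sq_eq]
              simp [emb]
    calc - (p x * ∑ i, Real.log (w53 σ ((x i : ℝ) - m i)))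
        = p x * (- ∑ i, Real.log (w53 σ ((x i : ℝ) - m i))) := by ring
      _ ≤ p x * (d * Real.log σ + ‖emb x - m‖ ^ 2 / N) :=
          mul_le_mul_of_nonneg_left h7 (hp x hx)
      _ = _ := by ring
  have hs := Finset.sum_le_sum hlog
  rw [Finset.sum_neg_distrib, Finset.sum_add_distrib, ← Finset.sum_mul, h1, one_mul,
    ← Finset.sum_div] at hs
  have h8 : (∑ x ∈ S, p x * ‖emb x - m‖ ^ 2) / N ≤ R := by
    rw [div_le_iff₀ (by linarith)]
    exact hm
  have h9 : (d : ℝ) * Real.log σ = (d : ℝ) / 2 * Real.log N := by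
    rw [hσ, Real.log_sqrt (by linarith)]
    ring
  have h10 : Real.log ((6 : ℝ) ^ d) = d * Real.log 6 := by rw [Real.log_pow]
  rw [h10] at hg
  linarith

end Pool.Agent.W_7d29a1_S90.E53
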