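import Pool.Agent.W_7d29a1_S90.StM86
import Pool.Agent.W_7d29a1_S90.Ent53

/-!
Theorem SUP, leaf I4: the entropy of a law with second moment at most `R n`.
-/

namespace Pool.Agent.W_7d29a1_S90

open MeasureTheory ProbabilityTheory Filter Topology Pool.Agent.W_MP_7d29a1_pr
  Pool.Agent.W_7d29a1_h46 Pool.Agent.W_7d29a1_h46u Pool.Agent.W_7d29a1_D2.B35
  Pool.Agent.W_7d29a1_Q29

variable {d : ℕ} {ρ : Measure ℝ}

lemma nml_le58 {p : ℝ} (h0 : 0 ≤ p) : Real.negMulLog p ≤ 1 := by
  rcases h0.eq_or_lt with h | h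
  · rw [← h]; simp
  · have h1 := Real.one_sub_inv_le_log_of_pos h
    have h2 : p * (1 - p⁻¹) ≤ p * Real.log p := mul_le_mul_of_nonneg_left h1 h0
    have h3 : p * (1 - p⁻¹) = p - 1 := by
      rw [mul_sub, mul_one, mul_inv_cancel₀ h.ne']
    unfold Real.negMulLog
    linarith

/-- Leaf I4: the entropy of a law with second moment at most `R n`. -/
theorem enZ58 [IsProbabilityMeasure ρ] (hd : 0 < d) (β : ℝ) : EnZ d ρ β := by
  classical
  refine ⟨1 + d * Real.log 6, by positivity, ?_⟩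
  intro h n t m R hn htn hR hm
  have hQ0 : ∀ (y : Site d) (η : Env d), 0 ≤ Qt β h n t y η := fun y η => Qt_nonneg39 β h n t y η
  have hbd : ∀ (y : Site d) (η : Env d), |Qt β h n t y η| ≤ 1 := fun y η => by
    rw [abs_of_nonneg (hQ0 y η)]
    exact Qt_le_one39 β h htn y η
  have hcEm : ∀ y : Site d, Measurable (cE ρ (Pa d 0) (Qt β h n t y)) := fun y =>
    measurable_cE (measurable_Qt39 β h n t y) _
  have hcEi : ∀ y : Site d, Integrable (cE ρ (Pa d 0) (Qt β h n t y)) (law d ρ) :=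
    fun y => Integrable.mono' (integrable_const 1) (hcEm y).aestronglyMeasurable
      (Eventually.of_forall fun η => cE_abs_le (hbd y) _ η)
  have hcE0 : ∀ (y : Site d) (η : Env d), 0 ≤ cE ρ (Pa d 0) (Qt β h n t y) η := fun y η =>
    integral_nonneg fun ξ => hQ0 y _
  have hnm : ∀ y : Site d, Integrable
      (fun η => Real.negMulLog (cE ρ (Pa d 0) (Qt β h n t y) η)) (law d ρ) := by
    intro y
    refine Integrable.mono' (integrable_const 1)
      (Real.continuous_negMulLog.measurable.comp (hcEm y)).aestronglyMeasurable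
      (Eventually.of_forall fun η => ?_)
    have h1 : cE ρ (Pa d 0) (Qt β h n t y) η ≤ 1 :=
      (le_abs_self _).trans (cE_abs_le (hbd y) _ η)
    rw [Real.norm_eq_abs, abs_of_nonneg (Real.negMulLog_nonneg (hcE0 y η) h1)]
    exact nml_le58 (hcE0 y η)
  have hJ : ∀ y : Site d, ∫ η, Real.negMulLog (cE ρ (Pa d 0) (Qt β h n t y) η) ∂(law d ρ) ≤
      Real.negMulLog (∫ η, Qt β h n t y η ∂(law d ρ)) := by
    intro y
    rw [← int_cE (Pa d 0) (int_Qt86 (ρ := ρ) β h htn y)]
    exact Real.concaveOn_negMulLog.le_map_integral Real.continuous_negMulLog.continuousOn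
      isClosed_Ici (Eventually.of_forall fun η => hcE0 y η) (hcEi y) (hnm y)
  have hEn : En ρ β h n t 0 ≤ ∑ x ∈ boxF d n, Real.negMulLog (∫ η, Qt β h n t x η ∂(law d ρ)) := by
    unfold En
    rw [integral_finsetSum _ fun y _ => hnm y]
    exact Finset.sum_le_sum fun y _ => hJ y
  refine hEn.trans ?_
  have hn1 : (1 : ℝ) ≤ n := by exact_mod_cast hn
  have hN : 1 ≤ R * n := by nlinarith
  have hsum : ∑ x ∈ boxF d n, ∫ η, Qt β h n t x η ∂(law d ρ) = 1 := by
    rw [← integral_finsetSum _ fun y _ => int_Qt86 β h htn y]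
    have h3 : ∀ η : Env d, ∑ y ∈ boxF d n, Qt β h n t y η = 1 := fun η =>
      Qt_sum_box39 hd β h htn htn η
    simp only [h3]
    simp
  have hmom : ∑ x ∈ boxF d n, (∫ η, Qt β h n t x η ∂(law d ρ)) * ‖emb x - m‖ ^ 2 ≤ 1 * (R * n) := by
    rw [one_mul]
    refine le_trans (le_of_eq ?_) hm
    have h4 : (fun η => pe β h η (fun s : Fin n → Step d => ‖emb (pos s t) - m‖ ^ 2)) =
        fun η => ∑ y ∈ boxF d n, Qt β h n t y η * ‖emb y - m‖ ^ 2 := by
      funext η
      exact pe_pos86 β h η htn fun y => ‖emb y - m‖ ^ 2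
    rw [h4, integral_finsetSum _ fun y _ => (int_Qt86 β h htn y).mul_const _]
    exact Finset.sum_congr rfl fun y _ => (integral_mul_const _ _).symm
  have h5 := E53.ent53 (boxF d n) (fun x => ∫ η, Qt β h n t x η ∂(law d ρ))
    (fun x _ => integral_nonneg fun η => hQ0 x η) hsum m hN hmom
  linarith

end Pool.Agent.W_7d29a1_S90
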