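import Pool.Agent.W_7d29a1_S90.InsC99
import Pool.Agent.W_7d29a1_S90.DefsP45
import Pool.Agent.W_7d29a1_S90.RpT73

/-!
Leaf InK: the information on `S_t` under second moments.
-/

namespace Pool.Agent.W_7d29a1_S90

open MeasureTheory ProbabilityTheory Filter Topology Pool.Agent.W_MP_7d29a1_pr
  Pool.Agent.W_7d29a1_h46 Pool.Agent.W_7d29a1_h46u Pool.Agent.W_7d29a1_D2.B35
  Pool.Agent.W_7d29a1_Q29

variable {d : ℕ} {ρ : Measure ℝ} {β : ℝ}

open Classical in
/-- The replica separation decreases with the distance. -/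
lemma rpM99 [IsProbabilityMeasure ρ] (β : ℝ) : RpM ρ β := by
  intro h n t r r' hr
  have hd : 0 < 2 := by norm_num
  unfold Rp
  refine integral_mono (integrable_pe2_fun73 hd β h _) (integrable_pe2_fun73 hd β h _) fun η => ?_
  refine pe2_mono73 hd β h η fun s s' => ?_
  split_ifs with h1 h2
  · exact le_rfl
  · exact absurd (lt_of_le_of_lt hr h1) h2
  · exact zero_le_one
  · exact le_rfl

open Classical in
/-- Chebyshev. -/
lemma tlC99 [IsProbabilityMeasure ρ] (hd : 0 < d) (h : Vec d) (n τ t : ℕ) (m : Vec d) {r B : ℝ}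
    (hr : 0 < r)
    (hB : ∫ η, pe β h η (fun s : Fin n → Step d => inc τ t m s ^ 2) ∂(law d ρ) ≤ B) :
    Tl ρ β h n τ t m r ≤ B / r ^ 2 := by
  have h1 : Tl ρ β h n τ t m r ≤
      ∫ η, pe β h η (fun s : Fin n → Step d => (1 / r ^ 2) * inc τ t m s ^ 2) ∂(law d ρ) := by
    unfold Tl
    refine integral_mono (integrable_pe_fun73 hd β h _) (integrable_pe_fun73 hd β h _) fun η => ?_
    refine pe_mono73 hd β h η fun s => ?_
    split_ifs with h2
    · rw [one_div, inv_mul_eq_div, le_div_iff₀ (by positivity), one_mul]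
      exact pow_le_pow_left₀ hr.le h2.le 2
    · positivity
  refine h1.trans ?_
  simp only [pe_mul73]
  rw [integral_const_mul, one_div, inv_mul_eq_div]
  exact div_le_div_of_nonneg_right hB (by positivity)

/-- Leaf InK. -/
theorem inK99 [IsProbabilityMeasure ρ] (hβ : 0 < β) (hI : InT 2 ρ β) (hE : EnZ 2 ρ β)
    (hD : DlT 2 ρ β) : InK ρ β := by
  intro α a hα ha
  have hd : 0 < 2 := by norm_num
  obtain ⟨c, C, hc, hC, H⟩ := insCore99 hβ hI hE hD (rpM99 β) α hα
  set a0 : ℝ := min a (1 / 2) with ha0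
  have ha0p : 0 < a0 := lt_min ha (by norm_num)
  have ha0h : a0 ≤ 1 / 2 := min_le_right _ _
  have hla : 0 ≤ Real.log (1 / a0) := Real.log_nonneg (by rw [le_div_iff₀ ha0p]; linarith)
  refine ⟨c, C * (2 * (1 + Real.log (1 / a0))), hc, by positivity, ?_⟩
  intro h n t R κ hn ht htn hn2 hnα hR hκ hκ1 hW hRp
  have hR0 : 0 < R := by linarith
  have hnR : (1 : ℝ) ≤ n := by exact_mod_cast hn
  have hn2R : (n : ℝ) ≤ 2 * t := by exact_mod_cast hn2
  have haR : a0 / R ≤ a0 := div_le_self ha0p.le hR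
  have h1 := H h n t R (a0 / R) κ hn ht htn hR hκ hκ1 (by positivity) (by linarith)
    (by
      calc a0 / R * n ≤ 1 / 2 * n := mul_le_mul_of_nonneg_right (by linarith) (by linarith)
        _ ≤ t := by linarith)
    (by
      obtain ⟨m, hm⟩ := hW 0 t (by omega) htn (by simpa using hnα)
      refine ⟨m, ?_⟩
      have e1 : (fun η : Env 2 => pe β h η (fun s : Fin n → Step 2 => inc 0 t m s ^ 2)) =
          fun η => pe β h η (fun s : Fin n → Step 2 => ‖emb (pos s t) - m‖ ^ 2) := by
        funext η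
        congr 1
        funext s
        unfold inc
        rw [pos_zero73, emb_zero73, sub_zero]
      rw [e1] at hm
      refine hm.trans ?_
      have h2 : (t : ℝ) ≤ n := by exact_mod_cast htn
      have h3 : (t : ℝ) - ((0 : ℕ) : ℝ) = t := by simp
      rw [h3]
      exact mul_le_mul_of_nonneg_left h2 hR0.le)
    (by
      intro τ hτ hτt hα2
      obtain ⟨m, hm⟩ := hW τ t hτt htn hα2
      exact ⟨m, fun r hr => tlC99 hd h n τ t m hr hm⟩)
    (by
      refine hRp.trans (rpM99 β h n t _ _ (Real.sqrt_le_sqrt ?_))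
      refine mul_le_mul_of_nonneg_right ?_ (by linarith)
      exact div_le_div_of_nonneg_right (min_le_left _ _) hR0.le)
  have e2 : Real.log (1 / (a0 / R)) = Real.log R + Real.log (1 / a0) := by
    rw [show 1 / (a0 / R) = R * (1 / a0) by field_simp,
      Real.log_mul hR0.ne' (by positivity)]
  rw [e2] at h1
  have hlR : 0 ≤ Real.log R := Real.log_nonneg hR
  have hlκ : 0 ≤ Real.log (1 / κ) := Real.log_nonneg (by rw [le_div_iff₀ hκ]; linarith)
  have h2 : 1 + Real.log R + Real.log (1 / κ) + (Real.log R + Real.log (1 / a0)) ≤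
      2 * (1 + Real.log (1 / a0)) * (1 + Real.log R + Real.log (1 / κ)) := by
    nlinarith [mul_nonneg hla hlR, mul_nonneg hla hlκ]
  have h3 := mul_le_mul_of_nonneg_left h2 hC
  calc En ρ β h n t (t - 1) ≤ _ := h1
    _ ≤ _ := by
      have : C * (2 * (1 + Real.log (1 / a0))) * (1 + Real.log R + Real.log (1 / κ)) =
        C * (2 * (1 + Real.log (1 / a0)) * (1 + Real.log R + Real.log (1 / κ))) := by ring
      rw [this]
      linarith

end Pool.Agent.W_7d29a1_S90
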