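import Pool.Agent.W_7d29a1_S90.DefsS90

/-!
Leaf V3 of Theorem SUP: Jensen's inequality.
-/

namespace Pool.Agent.W_7d29a1_S90

open MeasureTheory ProbabilityTheory Filter Topology

/-- `a log a ≥ - c negMulLog μ - μ` if `0 ≤ a ≤ c μ`, `0 < c ≤ 1`, `μ ≤ 1`. -/
lemma jet_one {a μ c : ℝ} (ha : 0 ≤ a) (hac : a ≤ c * μ) (hc : 0 < c) (hc1 : c ≤ 1)
    (hμ : 0 ≤ μ) (hμ1 : μ ≤ 1) : -(c * Real.negMulLog μ) - μ ≤ a * Real.log a := by
  rcases ha.eq_or_lt with h | h
  · subst h
    have h1 : 0 ≤ Real.negMulLog μ := Real.negMulLog_nonneg hμ hμ1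
    have h2 : 0 ≤ c * Real.negMulLog μ := mul_nonneg hc.le h1
    simp only [zero_mul]
    linarith
  · have hμp : 0 < μ := by
      rcases hμ.eq_or_lt with h0 | h0
      · rw [← h0, mul_zero] at hac
        linarith
      · exact h0
    have hcμ : 0 < c * μ := mul_pos hc hμp
    -- a = (c μ) r
    have hr : a * Real.log a = a * Real.log (c * μ) + a * Real.log (a / (c * μ)) := by
      rw [Real.log_div h.ne' hcμ.ne']
      ring
    have h1 : c * μ * Real.log (c * μ) ≤ a * Real.log (c * μ) := by
      have hl : Real.log (c * μ) ≤ 0 :=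
        Real.log_nonpos hcμ.le (mul_le_one₀ hc1 hμ hμ1)
      exact mul_le_mul_of_nonpos_right hac hl
    have h2 : c * μ * Real.log (c * μ) = -(c * Real.negMulLog μ) + μ * (c * Real.log c) := by
      rw [Real.log_mul hc.ne' hμp.ne', Real.negMulLog]
      ring
    have key : ∀ x : ℝ, 0 < x → -(1 / 2) ≤ x * Real.log x := by
      intro x hx
      have h3 : Real.exp (-1) * (1 + (Real.log x + 1)) ≤ Real.exp (Real.log x) * 1 := by
        have h4 := Real.add_one_le_exp (Real.log x + 1)
        have h5 : Real.exp (Real.log x) = Real.exp (-1) * Real.exp (Real.log x + 1) := by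
          rw [← Real.exp_add]
          congr 1
          ring
        rw [mul_one, h5]
        exact mul_le_mul_of_nonneg_left (by linarith) (Real.exp_pos _).le
      have h6 : Real.exp (-1 : ℝ) ≤ 1 / 2 := by
        rw [Real.exp_neg]
        have : (2 : ℝ) ≤ Real.exp 1 := by
          have := Real.add_one_le_exp (1 : ℝ)
          linarith
        rw [one_div]
        exact inv_anti₀ (by norm_num) this
      -- x log x ≥ - e^{-1}
      have h7 : -Real.exp (-1) ≤ x * Real.log x := by
        have h8 := Real.add_one_le_exp (-Real.log x - 1)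
        -- -log x ≤ exp(-log x - 1) = e^{-1}/x
        have h9 : Real.exp (-Real.log x - 1) = Real.exp (-1) / x := by
          rw [show -Real.log x - 1 = -1 - Real.log x by ring, Real.exp_sub, Real.exp_log hx]
        rw [h9] at h8
        have h10 : -Real.log x * x ≤ Real.exp (-1) := by
          have : -Real.log x ≤ Real.exp (-1) / x := by linarith
          rwa [le_div_iff₀ hx] at this
        nlinarith
      linarith
    have h3 : -(1 / 2) * μ ≤ μ * (c * Real.log c) := by
      have := key c hc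
      nlinarith
    have h4 : -(1 / 2) * μ ≤ a * Real.log (a / (c * μ)) := by
      have h5 := key (a / (c * μ)) (div_pos h hcμ)
      have h6 : a * Real.log (a / (c * μ)) =
          c * μ * (a / (c * μ) * Real.log (a / (c * μ))) := by
        field_simp
      rw [h6]
      have h7 : c * μ ≤ μ := by nlinarith
      nlinarith
    rw [hr]
    linarith

/-- The pointwise inequality. -/
lemma jet_sq {a s : ℝ} (ha : 0 ≤ a) :
    Real.exp (-s) * ((1 + s) * a + a * Real.log a) ≤ a ^ 2 := by
  rcases ha.eq_or_lt with h | h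
  · subst h
    simp
  · have h1 := Real.add_one_le_exp (Real.log a + s)
    have h2 : Real.exp (-s) * Real.exp (Real.log a + s) = a := by
      rw [← Real.exp_add, show -s + (Real.log a + s) = Real.log a by ring, Real.exp_log h]
    have h3 : Real.exp (-s) * (Real.log a + s + 1) ≤ a := by
      calc Real.exp (-s) * (Real.log a + s + 1) ≤ Real.exp (-s) * Real.exp (Real.log a + s) :=
            mul_le_mul_of_nonneg_left h1 (Real.exp_pos _).le
        _ = a := h2
    nlinarith

theorem jeT41 : JeT := by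
  classical
  intro Ω _ P _ S I μ a c W H hμm ham hμ0 hμ1 hac hc hc1 hW hWa hH
  have hμle : ∀ y ∈ I, ∀ w, μ y w ≤ 1 := by
    intro y hy w
    rw [← hμ1 w]
    exact Finset.single_le_sum (f := fun y => μ y w) (fun z hz => hμ0 z hz w) hy
  have hale : ∀ y ∈ I, ∀ w, a y w ≤ 1 := by
    intro y hy w
    have h1 := (hac y hy w).2
    have h2 := hμle y hy w
    have h3 := hμ0 y hy w
    nlinarith
  -- integrability
  have hIa : Integrable (fun w => ∑ y ∈ I, a y w) P := by
    refine integrable_finsetSum _ fun y hy => ?_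
    refine Integrable.of_bound (ham y hy).aestronglyMeasurable 1 (ae_of_all _ fun w => ?_)
    rw [Real.norm_eq_abs, abs_of_nonneg (hac y hy w).1]
    exact hale y hy w
  have hIa2 : Integrable (fun w => ∑ y ∈ I, a y w ^ 2) P := by
    refine integrable_finsetSum _ fun y hy => ?_
    refine Integrable.of_bound ((ham y hy).pow_const 2).aestronglyMeasurable 1
      (ae_of_all _ fun w => ?_)
    rw [Real.norm_eq_abs, abs_of_nonneg (sq_nonneg _)]
    exact pow_le_one₀ (hac y hy w).1 (hale y hy w)
  have hIH : Integrable (fun w => ∑ y ∈ I, Real.negMulLog (μ y w)) P := by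
    refine integrable_finsetSum _ fun y hy => ?_
    refine Integrable.of_bound
      (Real.continuous_negMulLog.measurable.comp (hμm y hy)).aestronglyMeasurable 1
      (ae_of_all _ fun w => ?_)
    have h0 := Real.negMulLog_nonneg (hμ0 y hy w) (hμle y hy w)
    rw [Real.norm_eq_abs, abs_of_nonneg h0]
    have := jet_one (hμ0 y hy w) (by rw [one_mul]) one_pos le_rfl (hμ0 y hy w) (hμle y hy w)
    have h1 : Real.negMulLog (μ y w) ≤ 1 - μ y w := by
      rcases (hμ0 y hy w).eq_or_lt with h | h
      · rw [← h]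
        simp
      · have := Real.one_sub_inv_le_log_of_pos h
        rw [Real.negMulLog]
        have h2 : μ y w * (μ y w)⁻¹ = 1 := mul_inv_cancel₀ h.ne'
        nlinarith
    have h2 := hμ0 y hy w
    linarith
  have hH0 : 0 ≤ H := by
    refine le_trans (integral_nonneg fun w => ?_) hH
    exact Finset.sum_nonneg fun y hy => Real.negMulLog_nonneg (hμ0 y hy w) (hμle y hy w)
  set s : ℝ := (c * H + 1) / W with hs
  have hs0 : 0 ≤ s := by positivity
  have hpt : ∀ w, Real.exp (-s) * ((1 + s) * ∑ y ∈ I, a y w -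
      c * ∑ y ∈ I, Real.negMulLog (μ y w) - 1) ≤ ∑ y ∈ I, a y w ^ 2 := by
    intro w
    have h1 : (∑ y ∈ I, Real.exp (-s) * ((1 + s) * a y w + a y w * Real.log (a y w))) ≤
        ∑ y ∈ I, a y w ^ 2 := Finset.sum_le_sum fun y hy => jet_sq (hac y hy w).1
    have h2 : (∑ y ∈ I, (-(c * Real.negMulLog (μ y w)) - μ y w)) ≤
        ∑ y ∈ I, a y w * Real.log (a y w) :=
      Finset.sum_le_sum fun y hy =>
        jet_one (hac y hy w).1 (hac y hy w).2 hc hc1 (hμ0 y hy w) (hμle y hy w)
    rw [Finset.sum_sub_distrib, Finset.sum_neg_distrib, ← Finset.mul_sum, hμ1 w] at h2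
    rw [← Finset.mul_sum, Finset.sum_add_distrib, ← Finset.mul_sum] at h1
    refine le_trans (mul_le_mul_of_nonneg_left ?_ (Real.exp_pos _).le) h1
    linarith
  have hint : ∫ w, Real.exp (-s) * ((1 + s) * ∑ y ∈ I, a y w -
      c * ∑ y ∈ I, Real.negMulLog (μ y w) - 1) ∂P =
      Real.exp (-s) * ((1 + s) * ∫ w, ∑ y ∈ I, a y w ∂P -
        c * ∫ w, ∑ y ∈ I, Real.negMulLog (μ y w) ∂P - 1) := by
    have i1 : Integrable (fun w => (1 + s) * ∑ y ∈ I, a y w) P := hIa.const_mul _
    have i2 : Integrable (fun w => c * ∑ y ∈ I, Real.negMulLog (μ y w)) P := hIH.const_mul _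
    have i3 : Integrable (fun w => (1 + s) * ∑ y ∈ I, a y w -
        c * ∑ y ∈ I, Real.negMulLog (μ y w)) P := i1.sub i2
    rw [integral_const_mul, integral_sub i3 (integrable_const _), integral_sub i1 i2,
      integral_const_mul, integral_const_mul]
    simp
  have hmono : ∫ w, Real.exp (-s) * ((1 + s) * ∑ y ∈ I, a y w -
      c * ∑ y ∈ I, Real.negMulLog (μ y w) - 1) ∂P ≤ ∫ w, ∑ y ∈ I, a y w ^ 2 ∂P := by
    refine integral_mono ?_ hIa2 hpt
    exact (((hIa.const_mul _).sub (hIH.const_mul _)).sub (integrable_const _)).const_mul _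
  rw [hint] at hmono
  refine le_trans ?_ hmono
  have h1 : (1 + s) * W ≤ (1 + s) * ∫ w, ∑ y ∈ I, a y w ∂P :=
    mul_le_mul_of_nonneg_left hWa (by linarith)
  have h2 : c * ∫ w, ∑ y ∈ I, Real.negMulLog (μ y w) ∂P ≤ c * H :=
    mul_le_mul_of_nonneg_left hH hc.le
  have h3 : s * W = c * H + 1 := div_mul_cancel₀ _ hW.ne'
  rw [mul_comm W]
  refine mul_le_mul_of_nonneg_left ?_ (Real.exp_pos _).le
  nlinarith

end Pool.Agent.W_7d29a1_S90
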