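import Pool.Agent.W_7d29a1_S90.DefsP45

/-!
Leaf K4 of Theorem SUP with second moments: in every short interval of tilts with a large
increment of the drift the replicas are separated for a set of tilts of positive proportion.
-/

namespace Pool.Agent.W_7d29a1_S90

open MeasureTheory ProbabilityTheory Filter Topology Pool.Agent.W_MP_7d29a1_pr
  Pool.Agent.W_7d29a1_h46 Pool.Agent.W_7d29a1_h46u Pool.Agent.W_7d29a1_D2.B35
  Pool.Agent.W_7d29a1_Q29

/-- A continuous function bounded above by `B` with a large integral is at least `D` on a large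
set. -/
theorem vol18 {K : ℝ → ℝ} (hK : Continuous K) {u w B D E : ℝ} (huw : u < w) (hB : 0 < B)
    (hKB : ∀ s ∈ Set.Icc u w, K s ≤ B) (hD : 0 ≤ D)
    (hE : D * (w - u) + B * E ≤ ∫ s in u..w, K s) :
    ENNReal.ofReal E ≤ volume ({s : ℝ | D ≤ K s} ∩ Set.Icc u w) := by
  set M : Set ℝ := {s : ℝ | D ≤ K s} ∩ Set.Icc u w with hM
  have hMm : MeasurableSet M :=
    (isClosed_le continuous_const hK).measurableSet.inter measurableSet_Icc
  have hMs : M ⊆ Set.Icc u w := Set.inter_subset_right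
  have hMf : volume M ≠ ⊤ :=
    ne_top_of_le_ne_top (by simp [Real.volume_Icc]) (measure_mono hMs)
  rw [ENNReal.ofReal_le_iff_le_toReal hMf]
  have hMi : Integrable (M.indicator (fun _ : ℝ => B)) volume :=
    (integrable_indicator_iff hMm).2 (integrableOn_const hMf)
  have h1 : ∫ s in u..w, K s ≤ ∫ s in u..w, (D + M.indicator (fun _ : ℝ => B) s) := by
    apply intervalIntegral.integral_mono_on huw.le (hK.intervalIntegrable _ _)
    · exact (intervalIntegrable_const).add hMi.intervalIntegrable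
    · intro s hs
      by_cases h : s ∈ M
      · rw [Set.indicator_of_mem h]
        linarith [hKB s hs]
      · rw [Set.indicator_of_notMem h]
        have h' : ¬ D ≤ K s := fun h' => h ⟨h', hs⟩
        linarith [not_le.1 h']
  have h2 : ∫ s in u..w, (D + M.indicator (fun _ : ℝ => B) s) =
      D * (w - u) + B * (volume M).toReal := by
    rw [intervalIntegral.integral_add intervalIntegrable_const hMi.intervalIntegrable,
      intervalIntegral.integral_const]
    have h3 : ∫ s in u..w, M.indicator (fun _ : ℝ => B) s = B * (volume M).toReal := by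
      rw [intervalIntegral.integral_of_le huw.le, ← integral_Icc_eq_integral_Ioc,
        setIntegral_indicator hMm, setIntegral_const, Set.inter_eq_self_of_subset_right hMs]
      simp [Measure.real, mul_comm]
    rw [h3]
    simp [mul_comm]
  have h4 : B * E ≤ B * (volume M).toReal := by linarith
  exact le_of_mul_le_mul_left h4 hB

/-- Leaf K4. -/
theorem ksT18 {d : ℕ} {ρ : Measure ℝ} {β : ℝ} (hKa : KaT d ρ β) (hKr : KrT d ρ β)
    (hKm : KmT d ρ β) : KsT d ρ β := by
  intro h e n t u w R c he hn ht huw hR hc hc1 hS hF1 hF2 h8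
  have hn0 : (0 : ℝ) < n := by exact_mod_cast hn
  have hwu : 0 < w - u := sub_pos.2 huw
  have hR0 : 0 < R := by linarith
  set Fu : ℝ := Ft ρ β (h + u • e) e n t with hFu
  set Fw : ℝ := Ft ρ β (h + w • e) e n t with hFw
  set r₁ : ℝ := c * n * (w - u) / 4 with hr₁
  have hr₁0 : 0 < r₁ := by positivity
  have hcn : 0 < c * n * (w - u) := by positivity
  set a : ℝ := Fu + r₁ with ha
  set b : ℝ := Fw - r₁ with hb
  have hba1 : c * n * (w - u) / 2 ≤ b - a := by
    rw [ha, hb, hr₁]; linarith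
  have hba2 : b - a ≤ R * n * (w - u) := by
    rw [ha, hb]; linarith
  have hab : a ≤ b := by linarith
  have hu : u ∈ Set.Icc u w := ⟨le_rfl, huw.le⟩
  have hw : w ∈ Set.Icc u w := ⟨huw.le, le_rfl⟩
  -- the clamp at the two ends
  have e1 : Fc ρ β (h + u • e) e n t a b ≤ a + R / (c * (w - u)) := by
    have h1 := (hKm (h + u • e) e n t a b Fu ht hab).1 (by rw [ha]; linarith)
    have h2 : a - Fu = r₁ := by rw [ha]; ring
    rw [h2] at h1
    have h3 : Sm ρ β (h + u • e) e n t Fu / (4 * r₁) ≤ R / (c * (w - u)) := by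
      rw [div_le_div_iff₀ (by positivity) (by positivity)]
      have h4 := (hS u hu).1
      rw [hr₁]
      have h5 : 0 ≤ c * (w - u) := by positivity
      calc Sm ρ β (h + u • e) e n t Fu * (c * (w - u)) ≤ (R * n) * (c * (w - u)) :=
            mul_le_mul_of_nonneg_right h4 h5
        _ = R * (4 * (c * n * (w - u) / 4)) := by ring
    linarith
  have e2 : b - R / (c * (w - u)) ≤ Fc ρ β (h + w • e) e n t a b := by
    have h1 := (hKm (h + w • e) e n t a b Fw ht hab).2 (by rw [hb]; linarith)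
    have h2 : Fw - b = r₁ := by rw [hb]; ring
    rw [h2] at h1
    have h3 : Sm ρ β (h + w • e) e n t Fw / (4 * r₁) ≤ R / (c * (w - u)) := by
      rw [div_le_div_iff₀ (by positivity) (by positivity)]
      have h4 := (hS w hw).1
      rw [hr₁]
      have h5 : 0 ≤ c * (w - u) := by positivity
      calc Sm ρ β (h + w • e) e n t Fw * (c * (w - u)) ≤ (R * n) * (c * (w - u)) :=
            mul_le_mul_of_nonneg_right h4 h5
        _ = R * (4 * (c * n * (w - u) / 4)) := by ring
    linarith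
  have e3 : 2 * (R / (c * (w - u))) ≤ c * n * (w - u) / 4 := by
    have h5 : 0 < c * (w - u) := by positivity
    rw [mul_div_assoc', div_le_iff₀ h5]
    nlinarith [h8]
  -- the derivative
  obtain ⟨hcont, hder⟩ := hKa h e n t a b ht
  have e4 : ∫ s in u..w, Cc ρ β (h + s • e) e n t a b =
      Fc ρ β (h + w • e) e n t a b - Fc ρ β (h + u • e) e n t a b :=
    intervalIntegral.integral_eq_sub_of_hasDerivAt (fun s _ => hder s)
      (hcont.intervalIntegrable _ _)
  -- the bound of the derivative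
  have hV0 : ∀ s : ℝ, 0 ≤ Vr ρ β (h + s • e) e n n := by
    intro s
    have h1 := (hKr (h + s • e) e n t 0 0 he ht le_rfl).2 1 zero_le_one
    have h2 : 0 ≤ 2 * Cc ρ β (h + s • e) e n t 0 0 ^ 2 := by positivity
    have h3 : Vr ρ β (h + s • e) e n n * ((0 - 0) ^ 2 * Rp ρ β (h + s • e) n t 1 + 1 ^ 2) =
      Vr ρ β (h + s • e) e n n := by ring
    rw [h3] at h1
    linarith
  have hCB : ∀ s ∈ Set.Icc u w, Cc ρ β (h + s • e) e n t a b ≤ R * n := by
    intro s hs
    have h1 := (hKr (h + s • e) e n t a b he ht hab).1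
    obtain ⟨-, h2, h3⟩ := hS s hs
    have h4 : Vr ρ β (h + s • e) e n n * Vr ρ β (h + s • e) e n t ≤ (R * n) * (R * n) :=
      (mul_le_mul_of_nonneg_left h2 (hV0 s)).trans
        (mul_le_mul_of_nonneg_right h3 (by positivity))
    have h5 : Cc ρ β (h + s • e) e n t a b ^ 2 ≤ (R * n) ^ 2 := by
      rw [sq (R * (n : ℝ))]; linarith
    exact (abs_le_of_sq_le_sq' h5 (by positivity)).2
  have e5 := vol18 (K := fun s => Cc ρ β (h + s • e) e n t a b) hcont (u := u) (w := w)
    (B := R * n) (D := c * n / 8) (E := c * (w - u) / (8 * R)) huw (by positivity) hCB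
    (by positivity) (by
      rw [e4]
      have h1 : R * n * (c * (w - u) / (8 * R)) = c * n * (w - u) / 8 := by
        field_simp
      rw [h1]
      have h2 : c * n / 8 * (w - u) = c * n * (w - u) / 8 := by ring
      rw [h2]
      linarith)
  refine e5.trans (measure_mono ?_)
  rintro s ⟨hs1, hs2⟩
  refine ⟨?_, hs2⟩
  have hs1 : c * n / 8 ≤ Cc ρ β (h + s • e) e n t a b := hs1
  obtain ⟨-, -, h3⟩ := hS s hs2
  set r : ℝ := Real.sqrt (c ^ 2 / (64 * R) * n) with hr
  have hr2 : r ^ 2 = c ^ 2 / (64 * R) * n := Real.sq_sqrt (by positivity)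
  have k1 := (hKr (h + s • e) e n t a b he ht hab).2 r (Real.sqrt_nonneg _)
  rw [hr2] at k1
  set X : ℝ := Rp ρ β (h + s • e) n t r with hX
  change c ^ 2 / (64 * R ^ 3 * n * (w - u) ^ 2) ≤ X
  have k2 : 2 * (c * n / 8) ^ 2 ≤ 2 * Cc ρ β (h + s • e) e n t a b ^ 2 := by
    have : (c * n / 8) ^ 2 ≤ Cc ρ β (h + s • e) e n t a b ^ 2 :=
      pow_le_pow_left₀ (by positivity) hs1 2
    linarith
  have k3 : 0 < 2 * (c * n / 8) ^ 2 := by positivity
  have k4 : 0 < (b - a) ^ 2 * X + c ^ 2 / (64 * R) * n := by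
    by_contra hneg
    have := mul_nonpos_of_nonneg_of_nonpos (hV0 s) (not_lt.1 hneg)
    linarith
  have k5 : 2 * (c * n / 8) ^ 2 ≤ R * n * ((b - a) ^ 2 * X + c ^ 2 / (64 * R) * n) :=
    (k2.trans k1).trans (mul_le_mul_of_nonneg_right h3 k4.le)
  have k6 : R * n * (c ^ 2 / (64 * R) * n) = (c * n) ^ 2 / 64 := by
    field_simp
  have k7 : (c * n) ^ 2 / 64 ≤ R * n * ((b - a) ^ 2 * X) := by
    rw [mul_add, k6] at k5
    have : 2 * (c * n / 8) ^ 2 = (c * (n : ℝ)) ^ 2 / 64 + (c * (n : ℝ)) ^ 2 / 64 := by ring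
    linarith
  have k8 : 0 < X := by
    by_contra hneg
    have h1 : (b - a) ^ 2 * X ≤ 0 := mul_nonpos_of_nonneg_of_nonpos (sq_nonneg _) (not_lt.1 hneg)
    have h2 : R * n * ((b - a) ^ 2 * X) ≤ 0 :=
      mul_nonpos_of_nonneg_of_nonpos (by positivity) h1
    have h3 : 0 < (c * (n : ℝ)) ^ 2 / 64 := by positivity
    linarith
  have k9 : (b - a) ^ 2 ≤ (R * n * (w - u)) ^ 2 :=
    pow_le_pow_left₀ (by linarith) hba2 2
  have k10 : R * n * ((b - a) ^ 2 * X) ≤ R * n * ((R * n * (w - u)) ^ 2 * X) :=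
    mul_le_mul_of_nonneg_left (mul_le_mul_of_nonneg_right k9 k8.le) (by positivity)
  rw [div_le_iff₀ (by positivity)]
  have k11 : (c * n) ^ 2 / 64 ≤ R * n * ((R * n * (w - u)) ^ 2 * X) := k7.trans k10
  have k12 : (n : ℝ) ^ 2 * c ^ 2 ≤ (n : ℝ) ^ 2 * (X * (64 * R ^ 3 * n * (w - u) ^ 2)) := by
    nlinarith [k11]
  exact le_of_mul_le_mul_left k12 (by positivity)

end Pool.Agent.W_7d29a1_S90
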