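import Pool.Agent.W_7d29a1_S90.DefsS90
import Pool.Agent.W_7d29a1_Q29.Site39

/-!
V1: the one site upper bound.
-/

namespace Pool.Agent.W_7d29a1_S90

open MeasureTheory ProbabilityTheory Filter Topology Pool.Agent.W_MP_7d29a1_pr
  Pool.Agent.W_7d29a1_h46 Pool.Agent.W_7d29a1_h46u Pool.Agent.W_7d29a1_D2.B35
  Pool.Agent.W_7d29a1_Q29

/-- The key pointwise inequality. -/
lemma key98 {q : ℝ} (hq0 : 0 ≤ q) (hq1 : q ≤ 1) {β : ℝ} (hβ : 0 < β) (s : ℝ) :
    s * Real.log (1 - q + q * Real.exp (β * s)) ≤ q * Real.exp ((β + 1) * |s|) := by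
  have hp := s39_pos hq0 hq1 (β * s)
  have h0 : |s| ≤ Real.exp |s| := by
    have := Real.add_one_le_exp |s|
    linarith
  have h2 : Real.exp ((β + 1) * |s|) = Real.exp (β * |s|) * Real.exp |s| := by
    rw [← Real.exp_add]
    congr 1
    ring
  have hb : 0 ≤ q * Real.exp (β * |s|) := mul_nonneg hq0 (Real.exp_pos _).le
  have h3 : |s| * (q * Real.exp (β * |s|)) ≤ q * Real.exp ((β + 1) * |s|) := by
    rw [h2]
    nlinarith [mul_le_mul_of_nonneg_right h0 hb]
  refine le_trans ?_ h3
  rcases le_total 0 s with hs | hs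
  · rw [abs_of_nonneg hs]
    refine mul_le_mul_of_nonneg_left ?_ hs
    have h4 := Real.log_le_sub_one_of_pos hp
    have : q * Real.exp (β * s) - q ≤ q * Real.exp (β * s) := by linarith
    linarith
  · have h5 : |s| = -s := abs_of_nonpos hs
    have h6 : Real.exp (β * |s|) * Real.exp (β * s) = 1 := by
      rw [← Real.exp_add, h5]
      have : β * -s + β * s = 0 := by ring
      rw [this, Real.exp_zero]
    have h7 : -Real.log (1 - q + q * Real.exp (β * s)) ≤ q * Real.exp (β * |s|) := by
      have h8 := Real.one_sub_inv_le_log_of_pos hp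
      have h9 : (1 - q + q * Real.exp (β * s))⁻¹ - 1 ≤ q * Real.exp (β * |s|) := by
        rw [sub_le_iff_le_add, inv_le_iff_one_le_mul₀ hp]
        have hE1 : Real.exp (β * s) ≤ 1 := Real.exp_le_one_iff.2 (by nlinarith)
        have hE2 := Real.exp_pos (β * s)
        have hE3 := Real.exp_pos (β * |s|)
        have hE4 : 1 ≤ Real.exp (β * |s|) := Real.one_le_exp (mul_nonneg hβ.le (abs_nonneg s))
        have hxy : Real.exp (β * |s|) * Real.exp (β * s) = 1 := h6
        set x := Real.exp (β * |s|)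
        set y := Real.exp (β * s)
        -- (q x + 1) (1 - q + q y) >= 1
        have : (q * x + 1) * (1 - q + q * y) = 1 + q * (x * (1 - q) - 1 + y) + q ^ 2 * (x * y) := by
          ring
        rw [this, hxy]
        have h10 : 0 ≤ x * (1 - q) - 1 + y + q := by nlinarith
        nlinarith
      linarith
    have h8 : s * Real.log (1 - q + q * Real.exp (β * s)) =
        |s| * (-Real.log (1 - q + q * Real.exp (β * s))) := by
      rw [h5]
      ring
    rw [h8]
    exact mul_le_mul_of_nonneg_left h7 (abs_nonneg s)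

lemma low98 {q : ℝ} (hq0 : 0 ≤ q) (hq1 : q ≤ 1) (u : ℝ) :
    q * Real.exp (-|u|) ≤ q * Real.exp u / (1 - q + q * Real.exp u) := by
  have hp := s39_pos hq0 hq1 u
  rw [mul_div_assoc]
  refine mul_le_mul_of_nonneg_left ?_ hq0
  rw [le_div_iff₀ hp]
  rcases le_total 0 u with h | h
  · rw [abs_of_nonneg h]
    have h1 : 1 ≤ Real.exp u := Real.one_le_exp h
    have h2 : Real.exp (-u) ≤ 1 := Real.exp_le_one_iff.2 (by linarith)
    have h3 : 1 - q + q * Real.exp u ≤ Real.exp u := by nlinarith
    have h4 := Real.exp_pos (-u)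
    nlinarith
  · rw [abs_of_nonpos h, neg_neg]
    have h1 : Real.exp u ≤ 1 := Real.exp_le_one_iff.2 h
    have h2 : 1 - q + q * Real.exp u ≤ 1 := by nlinarith
    have h4 := Real.exp_pos u
    nlinarith

variable {ρ : Measure ℝ} [IsProbabilityMeasure ρ]

/-- The scalar form of the one site upper bound. -/
theorem scalarU98 (hρ : EM ρ) {β : ℝ} (hβ : 0 < β) :
    ∃ C : ℝ, 0 ≤ C ∧ ∀ a b : ℝ, 0 ≤ a → 0 ≤ b → 0 < a + b →
      ∫ r, (r - ∫ s, s ∂ρ) * Real.log (a + b * Real.exp (β * r)) ∂ρ ≤
        C * ∫ r, b * Real.exp (β * r) / (a + b * Real.exp (β * r)) ∂ρ := by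
  set m : ℝ := ∫ s, s ∂ρ with hm
  set V : ℝ := ∫ r, Real.exp ((β + 1) * |r - m|) ∂ρ with hV
  set E : ℝ := ∫ r, Real.exp (-(β * |r - m|)) ∂ρ with hE
  have hEi : Integrable (fun r => Real.exp (-(β * |r - m|))) ρ := by
    have h1 := s39_int_exp_abs (ρ := ρ) hρ (-β) m
    refine h1.congr (Eventually.of_forall fun r => ?_)
    show Real.exp (-β * |r - m|) = Real.exp (-(β * |r - m|))
    rw [neg_mul]
  have hE0 : 0 < E := integral_exp_pos hEi
  have hV0 : 0 ≤ V := integral_nonneg fun r => (Real.exp_pos _).le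
  refine ⟨V / E, by positivity, fun a b ha hb hab => ?_⟩
  set G : ℝ := a + b * Real.exp (β * m) with hG
  have hem := Real.exp_pos (β * m)
  have hG0 : 0 < G := by
    rcases eq_or_lt_of_le hb with h | h
    · rw [hG, ← h]
      linarith
    · have := mul_pos h hem
      rw [hG]
      linarith
  set q : ℝ := b * Real.exp (β * m) / G with hq
  have hq0 : 0 ≤ q := by positivity
  have hq1 : q ≤ 1 := by
    rw [hq, div_le_one hG0, hG]
    linarith
  have e2 : G * q = b * Real.exp (β * m) := by
    rw [hq]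
    field_simp
  have e1' : ∀ r : ℝ, Real.exp (β * r) = Real.exp (β * m) * Real.exp (β * (r - m)) := by
    intro r
    rw [← Real.exp_add]
    congr 1
    ring
  have hfac : ∀ r : ℝ, a + b * Real.exp (β * r) = G * (1 - q + q * Real.exp (β * (r - m))) := by
    intro r
    have e3 : G * (1 - q + q * Real.exp (β * (r - m))) =
        G - G * q + G * q * Real.exp (β * (r - m)) := by ring
    rw [e3, e2, e1', hG]
    ring
  have hL : q * E ≤ ∫ r, b * Real.exp (β * r) / (a + b * Real.exp (β * r)) ∂ρ := by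
    have h1 : ∀ r : ℝ, b * Real.exp (β * r) / (a + b * Real.exp (β * r)) =
        q * Real.exp (β * (r - m)) / (1 - q + q * Real.exp (β * (r - m))) := by
      intro r
      have e1 : b * Real.exp (β * r) = G * (q * Real.exp (β * (r - m))) := by
        rw [e1', ← mul_assoc, ← e2]
        ring
      rw [hfac r, e1, mul_div_mul_left _ _ hG0.ne']
    rw [hE, ← integral_const_mul]
    refine integral_mono (hEi.const_mul q) ?_ fun r => ?_
    · refine Integrable.mono' (integrable_const (1 : ℝ)) ?_ (Eventually.of_forall fun r => ?_)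
      · refine Measurable.aestronglyMeasurable ?_
        fun_prop
      · have h2 := Real.exp_pos (β * r)
        have h3 : 0 ≤ b * Real.exp (β * r) := by positivity
        rw [Real.norm_eq_abs, abs_of_nonneg (div_nonneg h3 (by linarith))]
        exact div_le_one_of_le₀ (by linarith) (by linarith)
    · show q * Real.exp (-(β * |r - m|)) ≤ b * Real.exp (β * r) / (a + b * Real.exp (β * r))
      rw [h1 r]
      have h2 := low98 hq0 hq1 (β * (r - m))
      rwa [abs_mul, abs_of_pos hβ] at h2
  have hw : Integrable (fun r => (r - m) * Real.log (1 - q + q * Real.exp (β * (r - m)))) ρ := by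
    refine ((s39_int_sq hρ m).const_mul β).mono' ?_ (Eventually.of_forall fun r => ?_)
    · refine Measurable.aestronglyMeasurable ?_
      exact (measurable_id.sub_const m).mul (Real.measurable_log.comp (by fun_prop))
    · rw [Real.norm_eq_abs, abs_mul]
      have h2 := s39_abs hq0 hq1 (β * (r - m))
      rw [abs_mul, abs_of_pos hβ] at h2
      calc |r - m| * |Real.log (1 - q + q * Real.exp (β * (r - m)))|
          ≤ |r - m| * (β * |r - m|) := mul_le_mul_of_nonneg_left h2 (abs_nonneg _)
        _ = β * (r - m) ^ 2 := by rw [← sq_abs (r - m)]; ring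
  have hR : ∫ r, (r - m) * Real.log (a + b * Real.exp (β * r)) ∂ρ =
      ∫ r, (r - m) * Real.log (1 - q + q * Real.exp (β * (r - m))) ∂ρ := by
    have e1 : ∀ r : ℝ, (r - m) * Real.log (a + b * Real.exp (β * r)) =
        (r - m) * Real.log (1 - q + q * Real.exp (β * (r - m))) + (r - m) * Real.log G := by
      intro r
      rw [hfac r, Real.log_mul hG0.ne' (s39_pos hq0 hq1 _).ne']
      ring
    simp only [e1]
    rw [integral_add hw ((s39_int_id hρ m).mul_const _), integral_mul_const, hm, s39_mean hρ]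
    ring
  have hR2 : ∫ r, (r - m) * Real.log (1 - q + q * Real.exp (β * (r - m))) ∂ρ ≤ q * V := by
    rw [hV, ← integral_const_mul]
    exact integral_mono hw ((s39_int_exp_abs hρ (β + 1) m).const_mul _) fun r =>
      key98 hq0 hq1 hβ (r - m)
  rw [hR]
  refine hR2.trans ?_
  calc q * V = V / E * (q * E) := by field_simp
    _ ≤ _ := mul_le_mul_of_nonneg_left hL (by positivity)

/-- V1: the one site upper bound. -/
theorem siU98 {d : ℕ} (hd : 0 < d) (hρ : EM ρ) {β : ℝ} (hβ : 0 < β) : SiU d ρ β := by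
  obtain ⟨C, hC, hmain⟩ := scalarU98 hρ hβ
  refine ⟨C, hC, fun h L t y η ht htL => ?_⟩
  obtain ⟨a, b, ha, hb, hab, hsh⟩ := s39_shape hd β h L t y η ht htL
  have h1 := hmain a b ha hb hab
  have e1 : ∀ r : ℝ, Qt β h L t y (Function.update η (t, y) r) =
      b * Real.exp (β * r) / (a + b * Real.exp (β * r)) := fun r => (hsh r).2
  have e2 : ∀ r : ℝ, X β h (Function.update η (t, y) r) L =
      Real.log (a + b * Real.exp (β * r)) := by
    intro r
    unfold X
    rw [(hsh r).1]
  simp only [e1, e2]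
  exact h1

end Pool.Agent.W_7d29a1_S90
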