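import Pool.Agent.W_7d29a1_S90.DuI99
import Pool.Agent.W_7d29a1_S90.SiI39
import Pool.Agent.W_7d29a1_S90.InT64
import Pool.Agent.W_7d29a1_S90.EnZ58
import Pool.Agent.W_7d29a1_S90.DlT63
import Pool.Agent.W_7d29a1_S90.InK99
import Pool.Agent.W_7d29a1_S90.SiU98
import Pool.Agent.W_7d29a1_S90.LoV13
import Pool.Agent.W_7d29a1_S90.StM86
import Pool.Agent.W_7d29a1_S90.VuT31
import Pool.Agent.W_7d29a1_S90.CaT10
import Pool.Agent.W_7d29a1_S90.KaT10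
import Pool.Agent.W_7d29a1_S90.CsT75
import Pool.Agent.W_7d29a1_S90.CsK54
import Pool.Agent.W_7d29a1_S90.DrT56
import Pool.Agent.W_7d29a1_S90.JeT41
import Pool.Agent.W_7d29a1_S90.KrT28
import Pool.Agent.W_7d29a1_S90.KsT18
import Pool.Agent.W_7d29a1_S90.RpT73

/-!
Theorem SUP: the leaves, plugged.
-/

namespace Pool.Agent.W_7d29a1_S90

open MeasureTheory ProbabilityTheory Filter Topology Pool.Agent.W_MP_7d29a1_pr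
  Pool.Agent.W_7d29a1_h46 Pool.Agent.W_7d29a1_h46u Pool.Agent.W_7d29a1_D2.B35
  Pool.Agent.W_7d29a1_Q29

variable {ρ : Measure ℝ} [IsProbabilityMeasure ρ]

theorem inT90 {d : ℕ} (hd : 0 < d) (hρ : EM ρ) (hnc : ∀ c : ℝ, ρ {c} ≠ 1) {β : ℝ}
    (hβ : 0 < β) : InT d ρ β :=
  InT64 hd hβ (DuI99 hd) (siI39 hd hρ hnc hβ)

theorem inK90 (hρ : EM ρ) (hnc : ∀ c : ℝ, ρ {c} ≠ 1) {β : ℝ} (hβ : 0 < β) : InK ρ β :=
  inK99 hβ (inT90 (by norm_num) hρ hnc hβ) (enZ58 (by norm_num) β)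
    (dlT63 (by norm_num) hρ hβ)

theorem loV90 {d : ℕ} (hd : 0 < d) (hρ : EM ρ) (hnc : ∀ c : ℝ, ρ {c} ≠ 1) {β : ℝ}
    (hβ : 0 < β) : LoV d ρ β :=
  lov13 hd hρ hnc hβ (siU98 hd hρ hβ)

/-- The leaves of the second moment form which are green. -/
theorem leaves90 {d : ℕ} (hd : 0 < d) (hρ : EM ρ) (hnc : ∀ c : ℝ, ρ {c} ≠ 1) {β : ℝ}
    (hβ : 0 < β) : LoV d ρ β ∧ StM d ρ β ∧ VuT d ρ β ∧ CaT d ρ β ∧ KcT d ρ β ∧ KrT d ρ β ∧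
      (KmT d ρ β → KsT d ρ β) ∧ CsT d ρ β ∧ CsK d ρ β ∧ DrT d ρ β ∧ JeT :=
  ⟨loV90 hd hρ hnc hβ, stM86 hd β, vuT31 hd hρ β, caT10 hd β, kcT10 hd β, krT28 hd β,
    fun h => ksT18 (kaT10 hd β) (krT28 hd β) h, csT75 hd β, csK54 hd β, drT56 hd hρ β, jeT41⟩

end Pool.Agent.W_7d29a1_S90
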