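import Pool.Agent.W_7d29a1_S90.DI63
import Pool.Agent.W_7d29a1_S90.Plug90
import Pool.Agent.W_7d29a1_Q29.Tr29

/-!
Theorem DI in the letters of the problem.
-/

namespace Pool.Agent.W_7d29a1_S90

open MeasureTheory ProbabilityTheory Filter Topology Pool.Agent.W_MP_7d29a1_pr
  Pool.Agent.W_7d29a1_h46 Pool.Agent.W_7d29a1_h46u Pool.Agent.W_7d29a1_D2.B35
  Pool.Agent.W_7d29a1_Q29

lemma pe_eq63 {d : ℕ} (β : ℝ) (h : Vec d) (η : Env d) {n : ℕ} (f : (Fin n → Step d) → ℝ) :
    pe β h η f = ∑ s : Fin n → Step d, PolT β h η {s} * f s := by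
  classical
  unfold pe
  rw [Finset.sum_div]
  refine Finset.sum_congr rfl fun s _ => ?_
  have h1 : ZT β h η {s} = wgt β h η s := by
    unfold ZT
    simp
  unfold PolT
  rw [h1]
  show wgt β h η s * f s / ZT β h η Set.univ = _
  ring

open Classical in
lemma pol_eq63 {d : ℕ} (β : ℝ) (h : Vec d) (η : Env d) {n : ℕ} (E : Set (Fin n → Step d)) :
    pe β h η (fun s => if s ∈ E then (1 : ℝ) else 0) = PolT β h η E := by
  unfold pe PolT ZT
  show _ / ZT β h η Set.univ = _
  unfold ZT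
  congr 1
  refine Finset.sum_congr rfl fun s _ => ?_
  by_cases hs : s ∈ E
  · simp only [if_pos hs, mul_one]
  · simp only [if_neg hs, mul_zero]

variable {ρ : Measure ℝ} [IsProbabilityMeasure ρ]

/-- **Theorem DI**, no hypothesis left. -/
theorem diK63 (hρ : EM ρ) (hnc : ∀ c : ℝ, ρ {c} ≠ 1) {β : ℝ} (hβ : 0 < β) : DiK ρ β :=
  di63 hρ hnc hβ (inK90 hρ hnc hβ) jeT41

/-- **Theorem DI** in the letters of the problem: in dimension two, at every tilt (`h = 0` is the
polymer of the problem), a polymer whose windows are diffusive (mean squares, all windows of length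
at least `n ^ α`) and whose end point is not localised (two independent walks in the same
environment are at distance at least `r √n` with probability at least `κ`) has anomalous
fluctuations: the variance of the free energy is at least `n ^ c`. -/
theorem trDI63 {Ω : Type*} [MeasurableSpace Ω] {μ : Measure Ω} [IsProbabilityMeasure μ] {d : ℕ}
    {β : ℝ} {ω : ℕ × Site d → Ω → ℝ} (hd : d = 2) (hω : IID μ ρ ω) (hρ : EM ρ)
    (hnc : ∀ c : ℝ, ρ {c} ≠ 1) (hβ : 0 < β) :
    ∀ α R r κ : ℝ, α < 1 → 0 < r → 0 < κ → ∃ c : ℝ, 0 < c ∧ ∃ N₀ : ℕ, ∀ (h : Vec d) (n : ℕ),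
      N₀ ≤ n →
      (∀ τ t : ℕ, τ < t → t ≤ n → (n : ℝ) ^ α ≤ (t : ℝ) - τ → ∃ m : Vec d,
        ∫ x, ∑ s : Fin n → Step d, PolT β h (fun p => ω p x) {s} *
          ‖emb (pos s t) - emb (pos s τ) - m‖ ^ 2 ∂μ ≤ R * ((t : ℝ) - τ)) →
      κ ≤ ∫ x, ∑ s : Fin n → Step d, PolT β h (fun p => ω p x) {s} *
        PolT β h (fun p => ω p x) {s' : Fin n → Step d |
          r * Real.sqrt n < ‖emb (pos s n) - emb (pos s' n)‖} ∂μ →
      (n : ℝ) ^ c ≤ Var[fun x => Real.log (Zn β h (fun p => ω p x) n); μ] := by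
  classical
  subst hd
  intro α R r κ hα hr hκ
  obtain ⟨c, hc, N₀, hN⟩ := diK63 hρ hnc hβ α R r κ hα hr hκ
  refine ⟨c, hc, N₀, fun h n hn hW hK => ?_⟩
  have hmp := mp_env hω
  rw [var29 (by norm_num) hω hρ]
  refine hN h n hn ?_ ?_
  · intro τ t hτ ht hlen
    obtain ⟨m, hm⟩ := hW τ t hτ ht hlen
    refine ⟨m, le_trans (le_of_eq ?_) hm⟩
    have h1 := LawU_integral hmp
      (integrable_pe_fun73 (ρ := ρ) (d := 2) (by norm_num) β h
        (fun s : Fin n → Step 2 => inc τ t m s ^ 2)).aestronglyMeasurable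
    rw [← h1]
    refine integral_congr_ae (Eventually.of_forall fun x => ?_)
    exact pe_eq63 β h _ _
  · refine hK.trans (le_of_eq ?_)
    unfold Rp
    have h1 := LawU_integral hmp
      (integrable_pe2_fun73 (ρ := ρ) (d := 2) (by norm_num) β h
        (fun s s' : Fin n → Step 2 => if r * Real.sqrt n < ‖emb (pos s n) - emb (pos s' n)‖
          then (1 : ℝ) else 0)).aestronglyMeasurable
    rw [← h1]
    refine integral_congr_ae (Eventually.of_forall fun x => ?_)
    show _ = pe2 β h (fun p => ω p x) _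
    unfold pe2
    rw [pe_eq63]
    refine Finset.sum_congr rfl fun s _ => ?_
    congr 1
    exact (pol_eq63 β h _ {s' : Fin n → Step 2 |
      r * Real.sqrt n < ‖emb (pos s n) - emb (pos s' n)‖}).symm

end Pool.Agent.W_7d29a1_S90
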