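import Pool.Agent.W_7d29a1_S90.DefsO28
import Pool.Agent.W_7d29a1_S90.CsK54

/-!
Theorem ORI, leaf O4: second moments from `W0`.
-/

namespace Pool.Agent.W_7d29a1_S90

open MeasureTheory ProbabilityTheory Filter Topology Pool.Agent.W_MP_7d29a1_pr
  Pool.Agent.W_7d29a1_h46 Pool.Agent.W_7d29a1_h46u Pool.Agent.W_7d29a1_D2.B35
  Pool.Agent.W_7d29a1_Q29

variable {d n : ℕ} {ρ : Measure ℝ}

lemma inc_zero54 (t : ℕ) (m : Vec d) (s : Fin n → Step d) : inc 0 t m s = ‖emb (pos s t) - m‖ := by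
  unfold inc
  have h4 : emb (pos s 0) = (0 : Vec d) := by
    ext j
    simp [emb, pos]
  rw [h4, sub_zero]

/-- The second moment of one coordinate about its mean is at most the second moment about `m`. -/
lemma Sm_le54 [IsProbabilityMeasure ρ] (hd : 0 < d) (β : ℝ) (h e m : Vec d) (t : ℕ) (he : ‖e‖ = 1) :
    Sm ρ β h e n t (Ft ρ β h e n t) ≤
      ∫ η, pe β h η (fun s : Fin n → Step d => ‖emb (pos s t) - m‖ ^ 2) ∂(law d ρ) := by
  have h1 : Sm ρ β h e n t (Ft ρ β h e n t) ≤ Sm ρ β h e n t (inner ℝ e m) := by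
    rw [Sm_eq54 hd, Sm_eq54 hd]
    nlinarith [sq_nonneg (inner ℝ e m - Ft ρ β h e n t)]
  refine h1.trans ?_
  unfold Sm
  refine integral_mono (integrable_pe54 hd β h _) (integrable_pe54 hd β h _) fun η => ?_
  refine pe_mono31 hd β h η fun s => ?_
  have h5 : inner ℝ e (emb (pos s t)) - inner ℝ e m = inner ℝ e (emb (pos s t) - m) := by
    rw [inner_sub_right]
  have h6 : |inner ℝ e (emb (pos s t) - m)| ≤ ‖emb (pos s t) - m‖ := by
    have h7 := abs_real_inner_le_norm e (emb (pos s t) - m)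
    rwa [he, one_mul] at h7
  rw [h5]
  exact sq_le_sq' (by linarith [(abs_le.1 h6).1]) (abs_le.1 h6).2

/-- Chebyshev's inequality. -/
lemma Tl_le54 [IsProbabilityMeasure ρ] (hd : 0 < d) (β : ℝ) (h : Vec d) (τ t : ℕ) (m : Vec d)
    {r : ℝ} (hr : 0 < r) : Tl ρ β h n τ t m r ≤
      (∫ η, pe β h η (fun s : Fin n → Step d => inc τ t m s ^ 2) ∂(law d ρ)) / r ^ 2 := by
  have hr2 : (0 : ℝ) < r ^ 2 := by positivity
  rw [le_div_iff₀ hr2, mul_comm]
  unfold Tl
  rw [← integral_const_mul]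
  refine integral_mono ((integrable_pe54 hd β h _).const_mul _) (integrable_pe54 hd β h _)
    fun η => ?_
  simp only
  rw [← pe_smul31]
  refine pe_mono31 hd β h η fun s => ?_
  split_ifs with h1
  · have h2 : 0 ≤ inc τ t m s := by
      unfold inc
      exact norm_nonneg _
    nlinarith
  · rw [mul_zero]
    positivity

theorem csO54 [IsProbabilityMeasure ρ] (hd : 0 < d) (β : ℝ) : CsO d ρ β := by
  intro h e N n t α R he ht1 htn hnN hα hR hW
  obtain ⟨m, hm⟩ := hW n t ht1 htn hnN hα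
  refine ⟨(Sm_le54 hd β h e m t he).trans hm, m, fun r hr => ?_⟩
  refine (Tl_le54 hd β h 0 t m hr).trans ?_
  simp only [inc_zero54]
  gcongr

end Pool.Agent.W_7d29a1_S90
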