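import Pool.Agent.W_7d29a1_S90.DefsP45

/-!
Leaf K7 (`AsK`): the choice of the tilts.
-/

namespace Pool.Agent.W_7d29a1_S90

open MeasureTheory Filter Topology

namespace P85k

/-- The number of large terms. -/
lemma cnt {N : ℕ} {f : ℕ → ℝ} {S M θ : ℝ} (hS : S ≤ ∑ j ∈ Finset.range N, f j)
    (hM : ∀ j ∈ Finset.range N, f j ≤ M) (hθ : 0 ≤ θ) :
    S - N * θ ≤ (((Finset.range N).filter fun j => θ ≤ f j).card : ℝ) * M := by
  have h1 : ∑ j ∈ Finset.range N, f j ≤
      ∑ j ∈ Finset.range N, ((if θ ≤ f j then M else 0) + θ) := by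
    refine Finset.sum_le_sum fun j hj => ?_
    split_ifs with h
    · linarith [hM j hj]
    · push Not at h
      linarith
  rw [Finset.sum_add_distrib, ← Finset.sum_filter, Finset.sum_const, Finset.sum_const,
    Finset.card_range, nsmul_eq_mul, nsmul_eq_mul] at h1
  linarith

/-- One interval: the set `P` has a positive proportion. -/
lemma one {g F : ℝ → ℝ} {a k R c δ : ℝ} {A : ℕ} (hk : 0 < k) (hR : 1 ≤ R) (hc : 0 < c)
    (hδ : 0 < δ) (hA : 0 < A) (hg : Continuous g) (hb : ∀ s ∈ Set.Icc a (a + k), g s ≤ R)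
    (hF : ∀ u v : ℝ, IntervalIntegrable F volume u v) (hF0 : ∀ s, 0 ≤ F s)
    (hi : c * k ≤ ∫ s in a..(a + k), g s)
    (hP : ∀ u : ℝ, a ≤ u → u + k / A ≤ a + k → c / 2 * (k / A) ≤ ∫ s in u..(u + k / A), g s →
      δ * (k / A) ≤ ∫ s in u..(u + k / A), F s) :
    c * δ * k / (2 * R) ≤ ∫ s in a..(a + k), F s := by
  have hA' : (0 : ℝ) < A := by exact_mod_cast hA
  have hR0 : 0 < R := by linarith
  have hkA : 0 < k / A := div_pos hk hA'
  set p : ℕ → ℝ := fun j => a + j * (k / A) with hp
  have hp0 : p 0 = a := by simp [hp]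
  have hpA : p A = a + k := by
    simp only [hp]
    field_simp
  have hps : ∀ j, p (j + 1) = p j + k / A := fun j => by
    simp only [hp]
    push_cast
    ring
  have hpge : ∀ j, a ≤ p j := fun j => by
    simp only [hp]
    have : (0 : ℝ) ≤ j * (k / A) := by positivity
    linarith
  have hple : ∀ j, j < A → p j + k / A ≤ a + k := fun j hj => by
    rw [← hps, ← hpA]
    simp only [hp]
    have h1 : ((j + 1 : ℕ) : ℝ) ≤ A := by exact_mod_cast hj
    have := mul_le_mul_of_nonneg_right h1 hkA.le
    linarith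
  have hsum : ∀ f : ℝ → ℝ, (∀ u v : ℝ, IntervalIntegrable f volume u v) →
      ∑ j ∈ Finset.range A, ∫ s in p j..(p j + k / A), f s = ∫ s in a..(a + k), f s := by
    intro f hf
    have h1 := intervalIntegral.sum_integral_adjacent_intervals (μ := volume) (f := f) (a := p)
      (n := A) fun j _ => hf _ _
    rw [hp0, hpA] at h1
    rw [← h1]
    exact Finset.sum_congr rfl fun j _ => by rw [hps]
  have hgi : ∀ u v : ℝ, IntervalIntegrable g volume u v := fun u v => hg.intervalIntegrable u v
  have h1 := cnt (N := A) (f := fun j => ∫ s in p j..(p j + k / A), g s) (S := c * k)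
    (M := R * (k / A)) (θ := c / 2 * (k / A)) (by rw [hsum g hgi]; exact hi) (by
      intro j hj
      have hj' := Finset.mem_range.mp hj
      have h2 : ∫ s in p j..(p j + k / A), g s ≤ ∫ s in p j..(p j + k / A), R := by
        refine intervalIntegral.integral_mono_on (by linarith) (hgi _ _) (by simp) ?_
        intro s hs
        exact hb s ⟨le_trans (hpge j) hs.1, le_trans hs.2 (hple j hj')⟩
      simp only [intervalIntegral.integral_const, smul_eq_mul] at h2
      calc _ ≤ _ := h2
        _ = R * (k / A) := by ring) (by positivity)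
  set G := (Finset.range A).filter fun j => c / 2 * (k / A) ≤ ∫ s in p j..(p j + k / A), g s
    with hG
  have h3 : (G.card : ℝ) * (δ * (k / A)) ≤ ∫ s in a..(a + k), F s := by
    rw [← hsum F hF]
    calc (G.card : ℝ) * (δ * (k / A)) = ∑ j ∈ G, δ * (k / A) := by
          rw [Finset.sum_const, nsmul_eq_mul]
      _ ≤ ∑ j ∈ G, ∫ s in p j..(p j + k / A), F s := by
          refine Finset.sum_le_sum fun j hj => ?_
          have hj' := Finset.mem_filter.mp hj
          exact hP _ (hpge j) (hple j (Finset.mem_range.mp hj'.1)) hj'.2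
      _ ≤ ∑ j ∈ Finset.range A, ∫ s in p j..(p j + k / A), F s := by
          refine Finset.sum_le_sum_of_subset_of_nonneg (Finset.filter_subset _ _) ?_
          intro j _ _
          exact intervalIntegral.integral_nonneg (by linarith) fun s _ => hF0 s
  have h4 : c / (2 * R) * A ≤ G.card := by
    have h5 : c * k - A * (c / 2 * (k / A)) = c * k / 2 := by field_simp; ring
    have h5' : c * k / 2 ≤ (G.card : ℝ) * (R * (k / A)) := h5 ▸ h1
    have h6 : (G.card : ℝ) * (R * (k / A)) = (G.card : ℝ) * (R / A) * k := by ring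
    rw [h6] at h5'
    have h7 : c / 2 ≤ (G.card : ℝ) * (R / A) := by
      have : c / 2 * k ≤ (G.card : ℝ) * (R / A) * k := by linarith
      exact le_of_mul_le_mul_right this hk
    calc c / (2 * R) * A = c / 2 * (A / R) := by field_simp
      _ ≤ (G.card : ℝ) * (R / A) * (A / R) := mul_le_mul_of_nonneg_right h7 (by positivity)
      _ = G.card := by field_simp
  calc c * δ * k / (2 * R) = c / (2 * R) * A * (δ * (k / A)) := by field_simp
    _ ≤ (G.card : ℝ) * (δ * (k / A)) := mul_le_mul_of_nonneg_right h4 (by positivity)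
    _ ≤ _ := h3

end P85k

open P85k in
/-- Leaf K7. -/
theorem asK85 : AsK := by
  classical
  intro l k R c δ J A T g P hl hk hR hc hc1 hδ hδ1 hA hJ hT hgc hgb hgi hPm hP
  have hA' : (0 : ℝ) < A := by exact_mod_cast hA
  have hR0 : 0 < R := by linarith
  have hJ0 : (0 : ℝ) < J := by
    rcases (Nat.cast_nonneg (α := ℝ) J).lt_or_eq with h | h
    · exact h
    · rw [← h, zero_mul] at hJ
      linarith
  have hT0 : (0 : ℝ) < T.card := by exact_mod_cast hT.card_pos
  -- the points
  have hgii : ∀ t ∈ T, ∀ u v : ℝ, IntervalIntegrable (g t) volume u v := fun t ht u v =>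
    (hgc t ht).intervalIntegrable u v
  have hile : ∀ i : ℕ, i < J → (i : ℝ) * k + k ≤ l := fun i hi => by
    rw [← hJ]
    have h1 : ((i + 1 : ℕ) : ℝ) ≤ J := by exact_mod_cast hi
    have := mul_le_mul_of_nonneg_right h1 hk.le
    push_cast at this
    linarith
  have hige : ∀ i : ℕ, (0 : ℝ) ≤ i * k := fun i => by positivity
  have hsum : ∀ t ∈ T, ∑ i ∈ Finset.range J, ∫ s in (i * k : ℝ)..(i * k + k), g t s =
      ∫ s in (0 : ℝ)..l, g t s := by
    intro t ht
    have h1 := intervalIntegral.sum_integral_adjacent_intervals (μ := volume) (f := g t)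
      (a := fun i : ℕ => (i : ℝ) * k) (n := J) fun j _ => hgii t ht _ _
    simp only [Nat.cast_zero, zero_mul, hJ] at h1
    rw [← h1]
    refine Finset.sum_congr rfl fun j _ => ?_
    congr 1
    push_cast
    ring
  -- good intervals
  have hgood : ∀ t ∈ T, c / R * J ≤
      (((Finset.range J).filter fun i : ℕ =>
        c * k ≤ ∫ s in ((i : ℝ) * k)..((i : ℝ) * k + k), g t s).card : ℝ) := by
    intro t ht
    have h1 := cnt (N := J) (f := fun i => ∫ s in (i * k : ℝ)..(i * k + k), g t s)
      (S := 2 * c * l) (M := R * k) (θ := c * k) (by rw [hsum t ht]; exact hgi t ht) (by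
        intro i hi
        have hi' := Finset.mem_range.mp hi
        have h2 : ∫ s in (i * k : ℝ)..(i * k + k), g t s ≤ ∫ s in (i * k : ℝ)..(i * k + k), R := by
          refine intervalIntegral.integral_mono_on (by linarith) (hgii t ht _ _) (by simp) ?_
          intro s hs
          exact le_trans (le_abs_self _) (hgb t ht s ⟨le_trans (hige i) hs.1,
            le_trans hs.2 (hile i hi')⟩)
        simp only [intervalIntegral.integral_const, smul_eq_mul] at h2
        calc _ ≤ _ := h2
          _ = R * k := by ring) (by positivity)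
    set m : ℝ := (((Finset.range J).filter fun i : ℕ =>
      c * k ≤ ∫ s in ((i : ℝ) * k)..((i : ℝ) * k + k), g t s).card : ℝ) with hm
    have h2 : 2 * c * l - J * (c * k) = c * J * k := by rw [← hJ]; ring
    have h3 : c * J * k ≤ m * R * k := by
      have h1' : 2 * c * l - J * (c * k) ≤ m * (R * k) := h1
      linarith
    have h4 : c * J ≤ m * R := le_of_mul_le_mul_right h3 hk
    rw [div_mul_eq_mul_div, div_le_iff₀ hR0]
    exact h4
  -- an interval good for many `t`
  obtain ⟨i, hi, hiG⟩ : ∃ i ∈ Finset.range J, c / R * T.card ≤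
      ((T.filter fun t => c * k ≤ ∫ s in (i * k : ℝ)..(i * k + k), g t s).card : ℝ) := by
    by_contra hcon
    push Not at hcon
    have hne : (Finset.range J).Nonempty := Finset.nonempty_range_iff.mpr (by
      rintro rfl
      simp at hJ0)
    have h1 := Finset.sum_lt_sum_of_nonempty hne hcon
    have h2 : ∑ i ∈ Finset.range J,
        ((T.filter fun t => c * k ≤ ∫ s in (i * k : ℝ)..(i * k + k), g t s).card : ℝ) =
        ∑ t ∈ T, (((Finset.range J).filter fun i : ℕ =>
          c * k ≤ ∫ s in ((i : ℝ) * k)..((i : ℝ) * k + k), g t s).card : ℝ) := by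
      simp only [Finset.card_filter, Nat.cast_sum]
      exact Finset.sum_comm
    rw [h2, Finset.sum_const, Finset.card_range, nsmul_eq_mul] at h1
    have h3 : ∑ t ∈ T, (c / R * J) ≤ ∑ t ∈ T, (((Finset.range J).filter fun i : ℕ =>
          c * k ≤ ∫ s in ((i : ℝ) * k)..((i : ℝ) * k + k), g t s).card : ℝ) :=
      Finset.sum_le_sum hgood
    rw [Finset.sum_const, nsmul_eq_mul] at h3
    have h4 : (J : ℝ) * (c / R * T.card) = T.card * (c / R * J) := by ring
    linarith
  have hi' := Finset.mem_range.mp hi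
  set a : ℝ := i * k with ha
  set G := T.filter fun t => c * k ≤ ∫ s in a..(a + k), g t s with hG
  have ha0 : 0 ≤ a := hige i
  have hal : a + k ≤ l := hile i hi'
  set F : ℕ → ℝ → ℝ := fun t => (P t).indicator fun _ => (1 : ℝ) with hF
  have hF0 : ∀ t s, 0 ≤ F t s := fun t s => Set.indicator_nonneg (fun _ _ => zero_le_one) s
  have hFi : ∀ t ∈ T, ∀ u v : ℝ, IntervalIntegrable (F t) volume u v := by
    intro t ht u v
    rw [intervalIntegrable_iff]
    have : IntegrableOn (fun _ : ℝ => (1 : ℝ)) (Set.uIoc u v) volume := by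
      refine integrableOn_const ?_
      simp [Set.uIoc]
    exact this.indicator (hPm t ht)
  have hFm : ∀ t ∈ T, ∀ u v : ℝ, u ≤ v → ∫ s in u..v, F t s =
      (volume (P t ∩ Set.Icc u v)).toReal := by
    intro t ht u v huv
    rw [intervalIntegral.integral_of_le huv, ← integral_Icc_eq_integral_Ioc, hF]
    simp only
    rw [integral_indicator (hPm t ht), Measure.restrict_restrict (hPm t ht)]
    simp [measureReal_def]
  -- mass of `P t` in the interval
  have hmass : ∀ t ∈ G, c * δ * k / (2 * R) ≤ ∫ s in a..(a + k), F t s := by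
    intro t ht
    have ht' := Finset.mem_filter.mp ht
    refine one (A := A) hk hR hc hδ hA (hgc t ht'.1) ?_ (hFi t ht'.1) (hF0 t) ht'.2 ?_
    · intro s hs
      exact le_trans (le_abs_self _) (hgb t ht'.1 s ⟨le_trans ha0 hs.1, le_trans hs.2 hal⟩)
    · intro u hu1 hu2 hu3
      have h1 := hP t ht'.1 u (le_trans ha0 hu1) (le_trans hu2 hal) hu3
      have hkA : 0 < k / A := div_pos hk hA'
      rw [hFm t ht'.1 _ _ (by linarith)]
      have hfin : volume (P t ∩ Set.Icc u (u + k / A)) ≠ ⊤ :=
        ne_top_of_le_ne_top (by simp) (measure_mono Set.inter_subset_right)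
      exact (ENNReal.ofReal_le_iff_le_toReal hfin).mp h1
  -- the tilt `s`
  obtain ⟨s, hs, hsG⟩ : ∃ s ∈ Set.Ioc a (a + k), c ^ 2 * δ / (2 * R ^ 2) * T.card ≤
      ∑ t ∈ G, F t s := by
    have hint : IntegrableOn (fun s => ∑ t ∈ G, F t s) (Set.Ioc a (a + k)) volume := by
      refine integrable_finsetSum _ fun t ht => ?_
      have := (hFi t (Finset.mem_filter.mp ht).1 a (a + k)).1
      exact this
    obtain ⟨s, hs, hs2⟩ := exists_setAverage_le (μ := volume) (s := Set.Ioc a (a + k))
      (f := fun s => ∑ t ∈ G, F t s) (by simp [hk]) (by simp) hint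
    refine ⟨s, hs, le_trans ?_ hs2⟩
    rw [setAverage_eq, smul_eq_mul, ← intervalIntegral.integral_of_le (by linarith)]
    rw [intervalIntegral.integral_finsetSum fun t ht => hFi t (Finset.mem_filter.mp ht).1 _ _]
    have h1 : (G.card : ℝ) * (c * δ * k / (2 * R)) ≤ ∑ t ∈ G, ∫ s in a..(a + k), F t s := by
      calc (G.card : ℝ) * (c * δ * k / (2 * R)) = ∑ t ∈ G, c * δ * k / (2 * R) := by
            rw [Finset.sum_const, nsmul_eq_mul]
        _ ≤ _ := Finset.sum_le_sum hmass
    have h2 : (volume.real (Set.Ioc a (a + k)))⁻¹ = 1 / k := by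
      rw [measureReal_def, Real.volume_Ioc]
      rw [ENNReal.toReal_ofReal (by linarith)]
      rw [one_div]
      congr 1
      ring
    rw [h2]
    calc c ^ 2 * δ / (2 * R ^ 2) * T.card = 1 / k * (c / R * T.card * (c * δ * k / (2 * R))) := by
          field_simp
      _ ≤ 1 / k * ((G.card : ℝ) * (c * δ * k / (2 * R))) := by
          refine mul_le_mul_of_nonneg_left ?_ (by positivity)
          exact mul_le_mul_of_nonneg_right hiG (by positivity)
      _ ≤ _ := mul_le_mul_of_nonneg_left h1 (by positivity)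
  -- the majority
  set H := G.filter fun t => s ∈ P t with hH
  have hHc : ∑ t ∈ G, F t s = H.card := by
    rw [hH, Finset.card_filter, Nat.cast_sum]
    refine Finset.sum_congr rfl fun t _ => ?_
    simp only [hF, Set.indicator_apply]
    split_ifs <;> simp
  rw [hHc] at hsG
  set T1 := H.filter fun t => c * k / 2 ≤ ∫ u in a..s, g t u with hT1
  set T2 := H.filter fun t => c * k / 2 ≤ ∫ u in s..(a + k), g t u with hT2
  have hcov : H ⊆ T1 ∪ T2 := by
    intro t ht
    have htG := (Finset.mem_filter.mp ht).1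
    have htT := Finset.mem_filter.mp htG
    by_contra hcon
    rw [Finset.mem_union, not_or] at hcon
    have h1 : ∫ u in a..s, g t u < c * k / 2 := by
      by_contra h
      exact hcon.1 (Finset.mem_filter.mpr ⟨ht, not_lt.mp h⟩)
    have h2 : ∫ u in s..(a + k), g t u < c * k / 2 := by
      by_contra h
      exact hcon.2 (Finset.mem_filter.mpr ⟨ht, not_lt.mp h⟩)
    have h3 := intervalIntegral.integral_add_adjacent_intervals (hgii t htT.1 a s)
      (hgii t htT.1 s (a + k))
    have h4 := htT.2
    linarith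
  have hcard : (H.card : ℝ) ≤ T1.card + T2.card := by
    exact_mod_cast le_trans (Finset.card_le_card hcov) (Finset.card_union_le _ _)
  have hHT : H ⊆ T := fun t ht => (Finset.mem_filter.mp (Finset.mem_filter.mp ht).1).1
  have hscast : c ^ 2 * δ / (2 * R ^ 2) * T.card = 2 * (c ^ 2 * δ / (4 * R ^ 2) * T.card) := by
    field_simp
    ring
  have hs01 : s ∈ Set.Icc (0 : ℝ) l := ⟨by linarith [hs.1], by linarith [hs.2]⟩
  rcases le_or_gt (c ^ 2 * δ / (4 * R ^ 2) * (T.card : ℝ)) (T1.card : ℝ) with h | h
  · refine ⟨s, hs01, a, ⟨ha0, by linarith⟩, ?_, T1, (Finset.filter_subset _ _).trans hHT, h, ?_⟩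
    · rw [abs_le]
      constructor <;> linarith [hs.1, hs.2]
    · intro t ht
      have h1 := Finset.mem_filter.mp ht
      refine ⟨(Finset.mem_filter.mp h1.1).2, ?_⟩
      rw [intervalIntegral.integral_symm, abs_neg]
      exact le_trans h1.2 (le_abs_self _)
  · refine ⟨s, hs01, a + k, ⟨by linarith, hal⟩, ?_, T2, (Finset.filter_subset _ _).trans hHT,
      by linarith, ?_⟩
    · rw [abs_le]
      constructor <;> linarith [hs.1, hs.2]
    · intro t ht
      have h1 := Finset.mem_filter.mp ht
      refine ⟨(Finset.mem_filter.mp h1.1).2, ?_⟩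
      exact le_trans h1.2 (le_abs_self _)

end Pool.Agent.W_7d29a1_S90
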