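import Pool.Agent.W_7d29a1_S90.Plug90
import Pool.Agent.W_7d29a1_S90.KmT71
import Pool.Agent.W_7d29a1_S90.AsK85
import Pool.Agent.W_7d29a1_S90.MainK45

/-!
Theorem SUP with second moments, law level.
-/

namespace Pool.Agent.W_7d29a1_S90

open MeasureTheory ProbabilityTheory Filter Topology Pool.Agent.W_MP_7d29a1_pr
  Pool.Agent.W_7d29a1_h46 Pool.Agent.W_7d29a1_h46u Pool.Agent.W_7d29a1_D2.B35
  Pool.Agent.W_7d29a1_Q29

/-- In dimension two, on a segment of tilts on which the free energy is not affine, for every large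
`n` not all windows of length at least `n ^ α` of the polymers of length `n` are diffusive, even up
to the factor `(log n) ^ (1 / 30)`. -/
theorem sup45 {ρ : Measure ℝ} [IsProbabilityMeasure ρ] (hρ : EM ρ) (hnc : ∀ c : ℝ, ρ {c} ≠ 1)
    {β : ℝ} (hβ : 0 < β) : MainK ρ β := by
  obtain ⟨hLo, hSt, hVu, hCa, hKc, -, hKs, hCs, hCk, hDr, hJe⟩ :=
    leaves90 (d := 2) (by norm_num) hρ hnc hβ
  exact mainK45 hCa hCs hCk hKc (hKs (kmT71 (by norm_num) β)) (inK90 hρ hnc hβ) hLo hSt hVu hDr hJe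
    asK85

end Pool.Agent.W_7d29a1_S90
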