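import Pool.Agent.W_7d29a1_S90.DefsP45
import Pool.Agent.W_7d29a1_S90.TopP17

/-!
Theorem SUP with second moments: from the main statement to all open sets of tilts, to generic
tilts, and to an arbitrary probability space.
-/

namespace Pool.Agent.W_7d29a1_S90

open MeasureTheory ProbabilityTheory Filter Topology Pool.Agent.W_MP_7d29a1_pr
  Pool.Agent.W_7d29a1_h46 Pool.Agent.W_7d29a1_h46u Pool.Agent.W_7d29a1_D2.B35
  Pool.Agent.W_7d29a1_Q29

section Finite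

variable {S : Type*} [Fintype S] {E : Type*} [NormedAddCommGroup E] [InnerProductSpace ℝ E]

/-- The variance. -/
noncomputable def vv17 (p : S → ℝ) (v : S → E) : ℝ := ∑ s, p s * ‖v s - ∑ s', p s' • v s'‖ ^ 2

lemma vv17_eq (p : S → ℝ) (h1 : ∑ s, p s = 1) (v : S → E) (m : E) :
    ∑ s, p s * ‖v s - m‖ ^ 2 = vv17 p v + ‖∑ s', p s' • v s' - m‖ ^ 2 := by
  set M := ∑ s', p s' • v s' with hM
  have e1 : ∀ s, p s * ‖v s - m‖ ^ 2 = p s * ‖v s - M‖ ^ 2 +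
      2 * inner ℝ (p s • v s - p s • M) (M - m) + p s * ‖M - m‖ ^ 2 := by
    intro s
    have e2 : v s - m = (v s - M) + (M - m) := by abel
    rw [e2, norm_add_sq_real, ← smul_sub, real_inner_smul_left]
    ring
  simp only [e1]
  rw [Finset.sum_add_distrib, Finset.sum_add_distrib, ← Finset.sum_mul, h1, ← Finset.mul_sum,
    ← sum_inner, Finset.sum_sub_distrib, ← Finset.sum_smul, h1, ← hM]
  simp [vv17, ← hM]

end Finite

variable {d : ℕ} {ρ : Measure ℝ} [IsProbabilityMeasure ρ] {β : ℝ}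

/-- The variance of the increment under the averaged polymer measure. -/
noncomputable def VV17 (ρ : Measure ℝ) (β : ℝ) (h : Vec d) (n τ t : ℕ) : ℝ :=
  vv17 (fun s : Fin n → Step d => pb17 ρ β h s) fun s => emb (pos s t) - emb (pos s τ)

lemma VV17_cont (hd : 0 < d) (n τ t : ℕ) : Continuous fun h : Vec d => VV17 ρ β h n τ t := by
  unfold VV17 vv17
  refine continuous_finset_sum _ fun s _ => (pb17_cont hd s).mul
    ((continuous_const.sub (continuous_finset_sum _ fun s' _ =>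
      (pb17_cont hd s').smul continuous_const)).norm.pow 2)

lemma lt_VV17 (hd : 0 < d) (h : Vec d) (n τ t : ℕ) (B : ℝ) :
    B < VV17 ρ β h n τ t ↔ ∀ m : Vec d,
      B < ∫ η, pe β h η (fun s : Fin n → Step d => inc τ t m s ^ 2) ∂(law d ρ) := by
  have e1 : ∀ m : Vec d, ∫ η, pe β h η (fun s : Fin n → Step d => inc τ t m s ^ 2) ∂(law d ρ) =
      VV17 ρ β h n τ t + ‖∑ s : Fin n → Step d, pb17 ρ β h s • (emb (pos s t) - emb (pos s τ)) -
        m‖ ^ 2 := by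
    intro m
    rw [pe17 hd h]
    exact vv17_eq _ (pb17_sum hd h n) (fun s : Fin n → Step d => emb (pos s t) - emb (pos s τ)) m
  constructor
  · intro h1 m
    rw [e1]
    exact lt_of_lt_of_le h1 (le_add_of_nonneg_right (sq_nonneg _))
  · intro h1
    have h2 := h1 (∑ s : Fin n → Step d, pb17 ρ β h s • (emb (pos s t) - emb (pos s τ)))
    rw [e1, sub_self, norm_zero] at h2
    simpa using h2

lemma not_W2_17 (hd : 0 < d) (h : Vec d) (n : ℕ) (α R : ℝ) :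
    ¬ W2 ρ β h n α R ↔ ∃ τ t : ℕ, τ < t ∧ t ≤ n ∧ (n : ℝ) ^ α ≤ (t : ℝ) - τ ∧
      R * ((t : ℝ) - τ) < VV17 ρ β h n τ t := by
  unfold W2
  push Not
  constructor
  · rintro ⟨τ, t, h1, h2, h3, h4⟩
    exact ⟨τ, t, h1, h2, h3, (lt_VV17 hd h n τ t _).2 h4⟩
  · rintro ⟨τ, t, h1, h2, h3, h4⟩
    exact ⟨τ, t, h1, h2, h3, (lt_VV17 hd h n τ t _).1 h4⟩

/-- Every open set of tilts. -/
theorem top2A17 (hρ : EM ρ) (hnc : ∀ c : ℝ, ρ {c} ≠ 1) (hβ : 0 < β) (hM : MainK ρ β)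
    {U : Set (Vec 2)} (hU : IsOpen U) (hne : U.Nonempty) {α : ℝ} (hα : α < 1) :
    ∀ᶠ n : ℕ in atTop, ∃ h ∈ U, ¬ W2 ρ β h n α (Real.log n ^ ((1 : ℝ) / 30)) := by
  obtain ⟨h, e, l, he, hl, hs, h2⟩ := seg17 hρ hnc hβ (by norm_num) hU hne
  obtain ⟨N₀, hN⟩ := hM h e l α he hl hα h2
  filter_upwards [eventually_ge_atTop N₀] with n hn
  obtain ⟨s, hs1, hs2⟩ := hN n hn
  exact ⟨h + s • e, hs s hs1, hs2⟩

/-- Generic tilts. -/
theorem top2B17 (hρ : EM ρ) (hnc : ∀ c : ℝ, ρ {c} ≠ 1) (hβ : 0 < β) (hM : MainK ρ β) :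
    ∀ᶠ h : Vec 2 in residual (Vec 2), ∀ α : ℝ, α < 1 → ∃ᶠ n : ℕ in atTop,
      ¬ W2 ρ β h n α (Real.log n ^ ((1 : ℝ) / 30)) := by
  set V : ℕ → ℕ → Set (Vec 2) := fun j N => {h | ∃ n : ℕ, N ≤ n ∧
    ¬ W2 ρ β h n (1 - 1 / ((j : ℝ) + 1)) (Real.log n ^ ((1 : ℝ) / 30))} with hV
  have hopen : ∀ j N, IsOpen (V j N) := by
    intro j N
    have e1 : V j N = ⋃ (n : ℕ) (_ : N ≤ n) (τ : ℕ) (t : ℕ) (_ : τ < t) (_ : t ≤ n)
        (_ : (n : ℝ) ^ (1 - 1 / ((j : ℝ) + 1)) ≤ (t : ℝ) - τ),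
        {h | Real.log n ^ ((1 : ℝ) / 30) * ((t : ℝ) - τ) < VV17 ρ β h n τ t} := by
      ext h
      simp only [hV, Set.mem_setOf_eq, Set.mem_iUnion, exists_prop]
      refine exists_congr fun n => and_congr_right fun _ => ?_
      exact not_W2_17 (by norm_num) h n _ _
    rw [e1]
    refine isOpen_iUnion fun n => isOpen_iUnion fun _ => isOpen_iUnion fun τ =>
      isOpen_iUnion fun t => isOpen_iUnion fun _ => isOpen_iUnion fun _ => isOpen_iUnion fun _ =>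
      isOpen_lt continuous_const (VV17_cont (by norm_num) n τ t)
  have hdense : ∀ j N, Dense (V j N) := by
    intro j N
    rw [dense_iff_inter_open]
    intro U hU hne
    have hα : (1 : ℝ) - 1 / ((j : ℝ) + 1) < 1 := by
      have : (0 : ℝ) < 1 / ((j : ℝ) + 1) := by positivity
      linarith
    obtain ⟨n, ⟨h, hh, hW⟩, hn⟩ :=
      ((top2A17 hρ hnc hβ hM hU hne hα).and (eventually_ge_atTop N)).exists
    exact ⟨h, hh, n, hn, hW⟩
  have hres : ∀ᶠ h : Vec 2 in residual (Vec 2), ∀ j N : ℕ, h ∈ V j N := by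
    rw [eventually_countable_forall]
    intro j
    rw [eventually_countable_forall]
    intro N
    exact residual_of_dense_open (hopen j N) (hdense j N)
  filter_upwards [hres] with h hh α hα
  obtain ⟨j, hj⟩ := exists_nat_one_div_lt (sub_pos.2 hα)
  rw [frequently_atTop]
  intro N
  obtain ⟨n, hn, hW⟩ := hh j (max N 1)
  refine ⟨n, (le_max_left _ _).trans hn, fun hcon => hW ?_⟩
  have hn1 : (1 : ℝ) ≤ n := by exact_mod_cast (le_max_right N 1).trans hn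
  intro τ t h1 h2 h3
  exact hcon τ t h1 h2 ((Real.rpow_le_rpow_of_exponent_le hn1 (by linarith)).trans h3)

variable {Ω : Type*} [MeasurableSpace Ω] {μ : Measure Ω} [IsProbabilityMeasure μ]
  {ω : ℕ × Site d → Ω → ℝ}

/-- **Superdiffusive windows in dimension two**, from the main statement. -/
theorem top2P17 (hω : IID μ ρ ω) (hρ : EM ρ) (hnc : ∀ c : ℝ, ρ {c} ≠ 1) (hβ : 0 < β)
    (hM : MainK ρ β) (hd : d = 2) {α : ℝ} (hα : α < 1) :
    (∀ U : Set (Vec d), IsOpen U → U.Nonempty → ∀ᶠ n : ℕ in atTop, ∃ h ∈ U, ∃ τ t : ℕ,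
      τ < t ∧ t ≤ n ∧ (n : ℝ) ^ α ≤ (t : ℝ) - τ ∧ ∀ m : Vec d,
        Real.log n ^ ((1 : ℝ) / 30) * ((t : ℝ) - τ) <
          ∫ x, ∑ s : Fin n → Step d, PolT β h (fun p => ω p x) {s} *
            ‖emb (pos s t) - emb (pos s τ) - m‖ ^ 2 ∂μ) ∧
    ∀ᶠ h : Vec d in residual (Vec d), ∃ᶠ n : ℕ in atTop, ∃ τ t : ℕ,
      τ < t ∧ t ≤ n ∧ (n : ℝ) ^ α ≤ (t : ℝ) - τ ∧ ∀ m : Vec d,
        Real.log n ^ ((1 : ℝ) / 30) * ((t : ℝ) - τ) <
          ∫ x, ∑ s : Fin n → Step d, PolT β h (fun p => ω p x) {s} *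
            ‖emb (pos s t) - emb (pos s τ) - m‖ ^ 2 ∂μ := by
  subst hd
  have key : ∀ (h : Vec 2) (n : ℕ) (R : ℝ), ¬ W2 ρ β h n α R → ∃ τ t : ℕ,
      τ < t ∧ t ≤ n ∧ (n : ℝ) ^ α ≤ (t : ℝ) - τ ∧ ∀ m : Vec 2, R * ((t : ℝ) - τ) <
          ∫ x, ∑ s : Fin n → Step 2, PolT β h (fun p => ω p x) {s} *
            ‖emb (pos s t) - emb (pos s τ) - m‖ ^ 2 ∂μ := by
    intro h n R hW
    unfold W2 at hW
    push Not at hW
    obtain ⟨τ, t, h1, h2, h3, h4⟩ := hW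
    refine ⟨τ, t, h1, h2, h3, fun m => ?_⟩
    have h5 := tr17 (β := β) (by norm_num : 0 < 2) hω h (fun s : Fin n → Step 2 => inc τ t m s ^ 2)
    unfold inc at h5
    rw [h5]
    exact h4 m
  refine ⟨fun U hU hne => ?_, ?_⟩
  · filter_upwards [top2A17 hρ hnc hβ hM hU hne hα] with n hn
    obtain ⟨h, hh, hW⟩ := hn
    exact ⟨h, hh, key h n _ hW⟩
  · filter_upwards [top2B17 hρ hnc hβ hM] with h hh
    exact (hh α hα).mono fun n hn => key h n _ hn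

end Pool.Agent.W_7d29a1_S90
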