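import Pool.Agent.W_7d29a1_S90.DJ63

/-!
Theorem DI, strong form, in the letters of the problem.
-/

namespace Pool.Agent.W_7d29a1_S90

open MeasureTheory ProbabilityTheory Filter Topology Pool.Agent.W_MP_7d29a1_pr
  Pool.Agent.W_7d29a1_h46 Pool.Agent.W_7d29a1_h46u Pool.Agent.W_7d29a1_D2.B35
  Pool.Agent.W_7d29a1_Q29

variable {ρ : Measure ℝ} [IsProbabilityMeasure ρ]

open Classical in
/-- **Theorem DI, strong form**, in the letters of the problem: in dimension two, at every tilt
(`h = 0` is the polymer of the problem), one length `n` at a time: if the windows of length at least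
`n ^ α` are diffusive in the mean square and at a positive fraction of the times two independent
walks in the same environment are at distance more than `n ^ θ` (`α < 2 θ`) with probability at
least `κ`, the variance of the free energy is at least a power of `n`. -/
theorem trDJ63 {Ω : Type*} [MeasurableSpace Ω] {μ : Measure Ω} [IsProbabilityMeasure μ] {d : ℕ}
    {β : ℝ} {ω : ℕ × Site d → Ω → ℝ} (hd : d = 2) (hω : IID μ ρ ω) (hρ : EM ρ)
    (hnc : ∀ c : ℝ, ρ {c} ≠ 1) (hβ : 0 < β) :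
    ∀ α θ R κ : ℝ, 0 ≤ α → α < 2 * θ → 2 * θ < 1 → 0 < κ →
      ∃ c : ℝ, 0 < c ∧ ∃ N₀ : ℕ, ∀ (h : Vec d) (n : ℕ), N₀ ≤ n →
      (∀ τ t : ℕ, τ < t → t ≤ n → (n : ℝ) ^ α ≤ (t : ℝ) - τ → ∃ m : Vec d,
        ∫ x, ∑ s : Fin n → Step d, PolT β h (fun p => ω p x) {s} *
          ‖emb (pos s t) - emb (pos s τ) - m‖ ^ 2 ∂μ ≤ R * ((t : ℝ) - τ)) →
      κ * n ≤ (((Finset.range (n + 1)).filter fun t =>
        κ ≤ ∫ x, ∑ s : Fin n → Step d, PolT β h (fun p => ω p x) {s} *
          PolT β h (fun p => ω p x) {s' : Fin n → Step d |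
            (n : ℝ) ^ θ < ‖emb (pos s t) - emb (pos s' t)‖} ∂μ).card : ℝ) →
      (n : ℝ) ^ c ≤ Var[fun x => Real.log (Zn β h (fun p => ω p x) n); μ] := by
  subst hd
  intro α θ R κ hα0 hα hθ hκ
  obtain ⟨c, hc, N₀, hN⟩ := dj63 hρ hnc hβ α (2 * θ) R κ hα0 hα hθ hκ
  refine ⟨c, hc, N₀, fun h n hn hW hK => ?_⟩
  have hmp := mp_env hω
  rw [var29 (by norm_num) hω hρ]
  refine hN h n hn ?_ ?_
  · intro τ t hτ ht hlen
    obtain ⟨m, hm⟩ := hW τ t hτ ht hlen
    refine ⟨m, le_trans (le_of_eq ?_) hm⟩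
    have h1 := LawU_integral hmp
      (integrable_pe_fun73 (ρ := ρ) (d := 2) (by norm_num) β h
        (fun s : Fin n → Step 2 => inc τ t m s ^ 2)).aestronglyMeasurable
    rw [← h1]
    refine integral_congr_ae (Eventually.of_forall fun x => ?_)
    exact pe_eq63 β h _ _
  · refine hK.trans (le_of_eq ?_)
    congr 2
    refine Finset.filter_congr fun t _ => ?_
    have e1 : (2 * θ) / 2 = θ := by ring
    rw [e1]
    have e2 : ∫ x, ∑ s : Fin n → Step 2, PolT β h (fun p => ω p x) {s} *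
        PolT β h (fun p => ω p x) {s' : Fin n → Step 2 |
          (n : ℝ) ^ θ < ‖emb (pos s t) - emb (pos s' t)‖} ∂μ = Rp ρ β h n t ((n : ℝ) ^ θ) := by
      unfold Rp
      have h1 := LawU_integral hmp
        (integrable_pe2_fun73 (ρ := ρ) (d := 2) (by norm_num) β h
          (fun s s' : Fin n → Step 2 => if (n : ℝ) ^ θ < ‖emb (pos s t) - emb (pos s' t)‖
            then (1 : ℝ) else 0)).aestronglyMeasurable
      rw [← h1]
      refine integral_congr_ae (Eventually.of_forall fun x => ?_)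
      show _ = pe2 β h (fun p => ω p x) _
      unfold pe2
      rw [pe_eq63]
      refine Finset.sum_congr rfl fun s _ => ?_
      congr 1
      exact (pol_eq63 β h _ {s' : Fin n → Step 2 |
        (n : ℝ) ^ θ < ‖emb (pos s t) - emb (pos s' t)‖}).symm
    rw [e2]

end Pool.Agent.W_7d29a1_S90
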