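import Pool.Agent.W_7d29a1_S90.DefsP45

/-!
Theorem ORI: superdiffusive initial windows in dimension two. Definitions and frozen statements of
the leaves which replace `W2`, `CsK`, `InK`, `AsK`, `MainK` of `DefsP45`.
-/

namespace Pool.Agent.W_7d29a1_S90

open MeasureTheory ProbabilityTheory Filter Topology Pool.Agent.W_MP_7d29a1_pr
  Pool.Agent.W_7d29a1_h46 Pool.Agent.W_7d29a1_h46u Pool.Agent.W_7d29a1_D2.B35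
  Pool.Agent.W_7d29a1_Q29

section Defs

variable {d : ℕ}

/-- All initial windows `[0, t]`, `N ^ α ≤ t ≤ n ≤ N`, of the polymers of length `n` are diffusive
(second moments). -/
def W0 (ρ : Measure ℝ) (β : ℝ) (h : Vec d) (N : ℕ) (α R : ℝ) : Prop :=
  ∀ n t : ℕ, 1 ≤ t → t ≤ n → n ≤ N → (N : ℝ) ^ α ≤ t → ∃ m : Vec d,
    ∫ η, pe β h η (fun s : Fin n → Step d => ‖emb (pos s t) - m‖ ^ 2) ∂(law d ρ) ≤ R * t

/-- The positive part of `c P(S_t = y) - C P'(S_t = y)` given the rows `> t`. -/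
noncomputable def bw (ρ : Measure ℝ) (β : ℝ) (h h' : Vec d) (n t : ℕ) (c C : ℝ) (y : Site d)
    (η : Env d) : ℝ :=
  max 0 (c * cE ρ (Pa d t)ᶜ (Qt β h n t y) η - C * cE ρ (Pa d t)ᶜ (Qt β h' n t y) η)

end Defs

section Leaves

variable (d : ℕ) (ρ : Measure ℝ) (β : ℝ)

/-- Leaf O1: the backward lower bound of the variance of the difference of the free energies. -/
def RlV : Prop := ∃ c C : ℝ, 0 < c ∧ c ≤ 1 ∧ 0 ≤ C ∧ ∀ (h h' : Vec d) (n : ℕ) (T : Finset ℕ),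
  T ⊆ Finset.Icc 1 n → ∑ t ∈ T, ∫ η, ∑ y ∈ boxF d n, bw ρ β h h' n t c C y η ^ 2 ∂(law d ρ) ≤
    ∫ η, (X β h η n - X β h' η n - (A ρ β h n - A ρ β h' n)) ^ 2 ∂(law d ρ)

/-- Leaf O2: the transfer of the initial windows of the polymers of length `n - τ` to the windows
`[τ, t]` of the polymer of length `n`. -/
def WiT : Prop := ∀ (h h' e : Vec d) (n τ t : ℕ) (m M : Vec d) (c C r r₁ L B B' : ℝ), ‖e‖ = 1 →
  1 ≤ τ → τ < t → t ≤ n → 0 < c → 0 ≤ C → 0 < r → 0 < r₁ → 1 ≤ L →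
  2 * r₁ ≤ |Ft ρ β h e n τ - Ft ρ β h' e n τ| →
  Sm ρ β h e n τ (Ft ρ β h e n τ) ≤ B → Sm ρ β h' e n τ (Ft ρ β h' e n τ) ≤ B →
  ∫ η, pe β h η (fun s : Fin n → Step d => ‖emb (pos s τ) - M‖ ^ 2) ∂(law d ρ) ≤ B' →
    Tl ρ β h n τ t m r ≤ B' / L ^ 2 + (1 + C / c) * (B / r₁ ^ 2) +
      1 / c * Real.sqrt ((∫ η, ∑ y ∈ boxF d n, bw ρ β h h' n τ c C y η ^ 2 ∂(law d ρ)) *
        ((3 * L) ^ d * Tl ρ β h (n - τ) 0 (t - τ) m r))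

/-- Leaf O3 (dimension two): the information on `S_t` of the rows `t - s`, `t - s ∈ T`; from
`InT`, `EnZ`, `DlT`. -/
def InO : Prop := ∃ c C : ℝ, 0 < c ∧ c ≤ 1 ∧ 0 ≤ C ∧ ∀ (h : Vec 2) (n t s₀ s₁ : ℕ) (T : Finset ℕ)
  (R a κ K : ℝ), 1 ≤ n → 1 ≤ t → t ≤ n → 1 ≤ s₀ → s₁ < t → 1 ≤ R → 0 < a → 0 < κ → κ ≤ 1 →
  1 ≤ K → 4 * K * s₁ ≤ a * n →
  (∃ m : Vec 2, ∫ η, pe β h η (fun s : Fin n → Step 2 => ‖emb (pos s t) - m‖ ^ 2)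
    ∂(law 2 ρ) ≤ R * n) →
  (∀ s ∈ Finset.Icc s₀ s₁, t - s ∈ T → ∃ m : Vec 2,
    Tl ρ β h n (t - s) t m (Real.sqrt (K * s)) ≤ c * κ ^ 2) →
  κ ≤ Rp ρ β h n t (Real.sqrt (a * n)) →
    En ρ β h n t (t - 1) ≤ Real.log n + Real.log R + C -
      c * κ ^ 4 / K * ∑ s ∈ (Finset.Icc s₀ s₁).filter (fun s => t - s ∈ T), 1 / (s : ℝ)

/-- Leaf O4: second moments from `W0`. -/
def CsO : Prop := ∀ (h e : Vec d) (N n t : ℕ) (α R : ℝ), ‖e‖ = 1 → 1 ≤ t → t ≤ n → n ≤ N →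
  (N : ℝ) ^ α ≤ t → 0 ≤ R → W0 ρ β h N α R →
    Sm ρ β h e n t (Ft ρ β h e n t) ≤ R * t ∧ ∃ m : Vec d, ∀ r : ℝ, 0 < r →
      Tl ρ β h n 0 t m r ≤ R * t / r ^ 2

/-- The main statement: not all initial windows of all tilts of a segment are diffusive. -/
def MainO : Prop := ∀ (h e : Vec 2) (l α : ℝ), ‖e‖ = 1 → 0 < l → α < 1 →
  2 * lam ρ β (h + (l / 2) • e) < lam ρ β h + lam ρ β (h + l • e) →
    ∃ N₀ : ℕ, ∀ N : ℕ, N₀ ≤ N → ∃ s ∈ Set.Icc (0 : ℝ) l,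
      ¬ W0 ρ β (h + s • e) N α (Real.log N ^ ((1 : ℝ) / 80))

end Leaves

/-- Leaf O5: the choice of the tilts, with a partner on the small scale. -/
def AsO : Prop := ∀ (l k R c δ : ℝ) (J A : ℕ) (T : Finset ℕ) (g : ℕ → ℝ → ℝ) (P : ℕ → Set ℝ),
  0 < l → 0 < k → 1 ≤ R → 0 < c → c ≤ 1 → 0 < δ → δ ≤ 1 → 0 < A → J * k = l → T.Nonempty →
  (∀ t ∈ T, Continuous (g t)) → (∀ t ∈ T, ∀ s ∈ Set.Icc (0 : ℝ) l, |g t s| ≤ R) →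
  (∀ t ∈ T, 2 * c * l ≤ ∫ s in (0 : ℝ)..l, g t s) → (∀ t ∈ T, MeasurableSet (P t)) →
  (∀ t ∈ T, ∀ u : ℝ, 0 ≤ u → u + k / A ≤ l → c / 2 * (k / A) ≤ ∫ s in u..(u + k / A), g t s →
    ENNReal.ofReal (δ * (k / A)) ≤ volume (P t ∩ Set.Icc u (u + k / A))) →
    ∃ s ∈ Set.Icc (0 : ℝ) l, ∃ s' ∈ Set.Icc (0 : ℝ) l, ∃ s'' ∈ Set.Icc (0 : ℝ) l,
      |s - s'| ≤ k ∧ |s - s''| ≤ k / A ∧ ∃ T' ⊆ T,
        c ^ 2 * δ / (8 * R ^ 2) * T.card ≤ (T'.card : ℝ) ∧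
          ∀ t ∈ T', s ∈ P t ∧ c * k / 2 ≤ |∫ u in s..s', g t u| ∧
            c * (k / A) / 4 ≤ |∫ u in s..s'', g t u|

/-- Leaf O6: a set of times of density `θ` contains a time `t` with many differences `s`. -/
def SeT : Prop := ∀ (n s₀ s₁ : ℕ) (θ : ℝ) (T : Finset ℕ), 1 ≤ s₀ → 0 < θ → T ⊆ Finset.Icc 1 n →
  T.Nonempty → θ * n ≤ T.card → 2 * s₁ ≤ T.card → ∃ t ∈ T,
    θ / 4 * (Real.log ((s₁ : ℝ) + 1) - Real.log s₀) - 1 ≤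
      ∑ s ∈ (Finset.Icc s₀ s₁).filter (fun s => s < t ∧ t - s ∈ T), 1 / (s : ℝ)

end Pool.Agent.W_7d29a1_S90
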