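import Pool.Agent.W_7d29a1_S90.AsK85
import Pool.Agent.W_7d29a1_S90.DefsO28

/-!
Leaf O5 (`AsO`): the choice of the tilts, with a partner on the small scale.
-/

namespace Pool.Agent.W_7d29a1_S90

open MeasureTheory Filter Topology

namespace P85k

/-- One interval: `F` has a positive mass if it has on every good cell. -/
lemma two {g F : ℝ → ℝ} {a k R c δ : ℝ} {A : ℕ} (hk : 0 < k) (hR : 1 ≤ R) (hc : 0 < c)
    (hδ : 0 < δ) (hA : 0 < A) (hg : Continuous g) (hb : ∀ s ∈ Set.Icc a (a + k), g s ≤ R)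
    (hF : ∀ u v : ℝ, IntervalIntegrable F volume u v) (hF0 : ∀ s, 0 ≤ F s)
    (hi : c * k ≤ ∫ s in a..(a + k), g s)
    (hP : ∀ j ∈ Finset.range A, c / 2 * (k / A) ≤ ∫ s in (a + j * (k / A))..(a + j * (k / A) +
      k / A), g s → δ * (k / A) ≤ ∫ s in (a + j * (k / A))..(a + j * (k / A) + k / A), F s) :
    c * δ * k / (2 * R) ≤ ∫ s in a..(a + k), F s := by
  have hA' : (0 : ℝ) < A := by exact_mod_cast hA
  have hR0 : 0 < R := by linarith
  have hkA : 0 < k / A := div_pos hk hA'
  set p : ℕ → ℝ := fun j => a + j * (k / A) with hp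
  have hp0 : p 0 = a := by simp [hp]
  have hpA : p A = a + k := by
    simp only [hp]
    field_simp
  have hps : ∀ j, p (j + 1) = p j + k / A := fun j => by
    simp only [hp]
    push_cast
    ring
  have hpge : ∀ j, a ≤ p j := fun j => by
    simp only [hp]
    have : (0 : ℝ) ≤ j * (k / A) := by positivity
    linarith
  have hple : ∀ j, j < A → p j + k / A ≤ a + k := fun j hj => by
    rw [← hps, ← hpA]
    simp only [hp]
    have h1 : ((j + 1 : ℕ) : ℝ) ≤ A := by exact_mod_cast hj
    have := mul_le_mul_of_nonneg_right h1 hkA.le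
    linarith
  have hsum : ∀ f : ℝ → ℝ, (∀ u v : ℝ, IntervalIntegrable f volume u v) →
      ∑ j ∈ Finset.range A, ∫ s in p j..(p j + k / A), f s = ∫ s in a..(a + k), f s := by
    intro f hf
    have h1 := intervalIntegral.sum_integral_adjacent_intervals (μ := volume) (f := f) (a := p)
      (n := A) fun j _ => hf _ _
    rw [hp0, hpA] at h1
    rw [← h1]
    exact Finset.sum_congr rfl fun j _ => by rw [hps]
  have hgi : ∀ u v : ℝ, IntervalIntegrable g volume u v := fun u v => hg.intervalIntegrable u v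
  have h1 := cnt (N := A) (f := fun j => ∫ s in p j..(p j + k / A), g s) (S := c * k)
    (M := R * (k / A)) (θ := c / 2 * (k / A)) (by rw [hsum g hgi]; exact hi) (by
      intro j hj
      have hj' := Finset.mem_range.mp hj
      have h2 : ∫ s in p j..(p j + k / A), g s ≤ ∫ s in p j..(p j + k / A), R := by
        refine intervalIntegral.integral_mono_on (by linarith) (hgi _ _) (by simp) ?_
        intro s hs
        exact hb s ⟨le_trans (hpge j) hs.1, le_trans hs.2 (hple j hj')⟩
      simp only [intervalIntegral.integral_const, smul_eq_mul] at h2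
      calc _ ≤ _ := h2
        _ = R * (k / A) := by ring) (by positivity)
  set G := (Finset.range A).filter fun j => c / 2 * (k / A) ≤ ∫ s in p j..(p j + k / A), g s
    with hG
  have h3 : (G.card : ℝ) * (δ * (k / A)) ≤ ∫ s in a..(a + k), F s := by
    rw [← hsum F hF]
    calc (G.card : ℝ) * (δ * (k / A)) = ∑ j ∈ G, δ * (k / A) := by
          rw [Finset.sum_const, nsmul_eq_mul]
      _ ≤ ∑ j ∈ G, ∫ s in p j..(p j + k / A), F s := by
          refine Finset.sum_le_sum fun j hj => ?_
          have hj' := Finset.mem_filter.mp hj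
          exact hP _ hj'.1 hj'.2
      _ ≤ ∑ j ∈ Finset.range A, ∫ s in p j..(p j + k / A), F s := by
          refine Finset.sum_le_sum_of_subset_of_nonneg (Finset.filter_subset _ _) ?_
          intro j _ _
          exact intervalIntegral.integral_nonneg (by linarith) fun s _ => hF0 s
  have h4 : c / (2 * R) * A ≤ G.card := by
    have h5 : c * k - A * (c / 2 * (k / A)) = c * k / 2 := by field_simp; ring
    have h5' : c * k / 2 ≤ (G.card : ℝ) * (R * (k / A)) := h5 ▸ h1
    have h6 : (G.card : ℝ) * (R * (k / A)) = (G.card : ℝ) * (R / A) * k := by ring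
    rw [h6] at h5'
    have h7 : c / 2 ≤ (G.card : ℝ) * (R / A) := by
      have : c / 2 * k ≤ (G.card : ℝ) * (R / A) * k := by linarith
      exact le_of_mul_le_mul_right this hk
    calc c / (2 * R) * A = c / 2 * (A / R) := by field_simp
      _ ≤ (G.card : ℝ) * (R / A) * (A / R) := mul_le_mul_of_nonneg_right h7 (by positivity)
      _ = G.card := by field_simp
  calc c * δ * k / (2 * R) = c / (2 * R) * A * (δ * (k / A)) := by field_simp
    _ ≤ (G.card : ℝ) * (δ * (k / A)) := mul_le_mul_of_nonneg_right h4 (by positivity)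
    _ ≤ _ := h3

/-- Majority: one of four sets. -/
lemma four {H T1 T2 T3 T4 : Finset ℕ} (h : H ⊆ (T1 ∪ T2) ∪ (T3 ∪ T4)) {x : ℝ}
    (hx : 4 * x ≤ (H.card : ℝ)) : x ≤ (T1.card : ℝ) ∨ x ≤ (T2.card : ℝ) ∨ x ≤ (T3.card : ℝ) ∨
      x ≤ (T4.card : ℝ) := by
  have h1 : (H.card : ℝ) ≤ (T1.card + T2.card) + (T3.card + T4.card) := by
    have h2 := Finset.card_le_card h
    have h3 := Finset.card_union_le (T1 ∪ T2) (T3 ∪ T4)
    have h4 := Finset.card_union_le T1 T2
    have h5 := Finset.card_union_le T3 T4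
    have : H.card ≤ (T1.card + T2.card) + (T3.card + T4.card) := by omega
    exact_mod_cast this
  by_contra hcon
  simp only [not_or, not_le] at hcon
  linarith [hcon.1, hcon.2.1, hcon.2.2.1, hcon.2.2.2]

end P85k

open P85k in
/-- Leaf O5. -/
theorem asO85 : AsO := by
  classical
  intro l k R c δ J A T g P hl hk hR hc hc1 hδ hδ1 hA hJ hT hgc hgb hgi hPm hP
  have hA' : (0 : ℝ) < A := by exact_mod_cast hA
  have hkA : 0 < k / A := div_pos hk hA'
  have hR0 : 0 < R := by linarith
  have hJ0 : (0 : ℝ) < J := by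
    rcases (Nat.cast_nonneg (α := ℝ) J).lt_or_eq with h | h
    · exact h
    · rw [← h, zero_mul] at hJ
      linarith
  have hT0 : (0 : ℝ) < T.card := by exact_mod_cast hT.card_pos
  -- the points
  have hgii : ∀ t ∈ T, ∀ u v : ℝ, IntervalIntegrable (g t) volume u v := fun t ht u v =>
    (hgc t ht).intervalIntegrable u v
  have hile : ∀ i : ℕ, i < J → (i : ℝ) * k + k ≤ l := fun i hi => by
    rw [← hJ]
    have h1 : ((i + 1 : ℕ) : ℝ) ≤ J := by exact_mod_cast hi
    have := mul_le_mul_of_nonneg_right h1 hk.le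
    push_cast at this
    linarith
  have hige : ∀ i : ℕ, (0 : ℝ) ≤ i * k := fun i => by positivity
  have hsum : ∀ t ∈ T, ∑ i ∈ Finset.range J, ∫ s in (i * k : ℝ)..(i * k + k), g t s =
      ∫ s in (0 : ℝ)..l, g t s := by
    intro t ht
    have h1 := intervalIntegral.sum_integral_adjacent_intervals (μ := volume) (f := g t)
      (a := fun i : ℕ => (i : ℝ) * k) (n := J) fun j _ => hgii t ht _ _
    simp only [Nat.cast_zero, zero_mul, hJ] at h1
    rw [← h1]
    refine Finset.sum_congr rfl fun j _ => ?_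
    congr 1
    push_cast
    ring
  -- good intervals
  have hgood : ∀ t ∈ T, c / R * J ≤
      (((Finset.range J).filter fun i : ℕ =>
        c * k ≤ ∫ s in ((i : ℝ) * k)..((i : ℝ) * k + k), g t s).card : ℝ) := by
    intro t ht
    have h1 := cnt (N := J) (f := fun i => ∫ s in (i * k : ℝ)..(i * k + k), g t s)
      (S := 2 * c * l) (M := R * k) (θ := c * k) (by rw [hsum t ht]; exact hgi t ht) (by
        intro i hi
        have hi' := Finset.mem_range.mp hi
        have h2 : ∫ s in (i * k : ℝ)..(i * k + k), g t s ≤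
            ∫ s in (i * k : ℝ)..(i * k + k), R := by
          refine intervalIntegral.integral_mono_on (by linarith) (hgii t ht _ _) (by simp) ?_
          intro s hs
          exact le_trans (le_abs_self _) (hgb t ht s ⟨le_trans (hige i) hs.1,
            le_trans hs.2 (hile i hi')⟩)
        simp only [intervalIntegral.integral_const, smul_eq_mul] at h2
        calc _ ≤ _ := h2
          _ = R * k := by ring) (by positivity)
    set m : ℝ := (((Finset.range J).filter fun i : ℕ =>
      c * k ≤ ∫ s in ((i : ℝ) * k)..((i : ℝ) * k + k), g t s).card : ℝ) with hm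
    have h2 : 2 * c * l - J * (c * k) = c * J * k := by rw [← hJ]; ring
    have h3 : c * J * k ≤ m * R * k := by
      have h1' : 2 * c * l - J * (c * k) ≤ m * (R * k) := h1
      linarith
    have h4 : c * J ≤ m * R := le_of_mul_le_mul_right h3 hk
    rw [div_mul_eq_mul_div, div_le_iff₀ hR0]
    exact h4
  -- an interval good for many `t`
  obtain ⟨i, hi, hiG⟩ : ∃ i ∈ Finset.range J, c / R * T.card ≤
      ((T.filter fun t => c * k ≤ ∫ s in (i * k : ℝ)..(i * k + k), g t s).card : ℝ) := by
    by_contra hcon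
    push Not at hcon
    have hne : (Finset.range J).Nonempty := Finset.nonempty_range_iff.mpr (by
      rintro rfl
      simp at hJ0)
    have h1 := Finset.sum_lt_sum_of_nonempty hne hcon
    have h2 : ∑ i ∈ Finset.range J,
        ((T.filter fun t => c * k ≤ ∫ s in (i * k : ℝ)..(i * k + k), g t s).card : ℝ) =
        ∑ t ∈ T, (((Finset.range J).filter fun i : ℕ =>
          c * k ≤ ∫ s in ((i : ℝ) * k)..((i : ℝ) * k + k), g t s).card : ℝ) := by
      simp only [Finset.card_filter, Nat.cast_sum]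
      exact Finset.sum_comm
    rw [h2, Finset.sum_const, Finset.card_range, nsmul_eq_mul] at h1
    have h3 : ∑ t ∈ T, (c / R * J) ≤ ∑ t ∈ T, (((Finset.range J).filter fun i : ℕ =>
          c * k ≤ ∫ s in ((i : ℝ) * k)..((i : ℝ) * k + k), g t s).card : ℝ) :=
      Finset.sum_le_sum hgood
    rw [Finset.sum_const, nsmul_eq_mul] at h3
    have h4 : (J : ℝ) * (c / R * T.card) = T.card * (c / R * J) := by ring
    linarith
  have hi' := Finset.mem_range.mp hi
  set a : ℝ := i * k with ha
  set G := T.filter fun t => c * k ≤ ∫ s in a..(a + k), g t s with hG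
  have ha0 : 0 ≤ a := hige i
  have hal : a + k ≤ l := hile i hi'
  -- the cells
  have hpge : ∀ j : ℕ, a ≤ a + j * (k / A) := fun j => by
    have : (0 : ℝ) ≤ j * (k / A) := by positivity
    linarith
  have hple : ∀ j : ℕ, j < A → a + j * (k / A) + k / A ≤ a + k := fun j hj => by
    have h1 : ((j + 1 : ℕ) : ℝ) ≤ A := by exact_mod_cast hj
    have h2 := mul_le_mul_of_nonneg_right h1 hkA.le
    have h3 : (A : ℝ) * (k / A) = k := by field_simp
    push_cast at h2
    linarith
  set gc : ℕ → Finset ℕ := fun t => (Finset.range A).filter fun j =>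
    c / 2 * (k / A) ≤ ∫ s in (a + j * (k / A))..(a + j * (k / A) + k / A), g t s with hgc'
  set P' : ℕ → Set ℝ := fun t => P t ∩ ⋃ j ∈ gc t, Set.Ioc (a + j * (k / A))
    (a + j * (k / A) + k / A) with hP'
  have hP'm : ∀ t ∈ T, MeasurableSet (P' t) := fun t ht =>
    (hPm t ht).inter (Finset.measurableSet_biUnion _ fun j _ => measurableSet_Ioc)
  set F : ℕ → ℝ → ℝ := fun t => (P' t).indicator fun _ => (1 : ℝ) with hF
  have hF0 : ∀ t s, 0 ≤ F t s := fun t s => Set.indicator_nonneg (fun _ _ => zero_le_one) s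
  have hFi : ∀ t ∈ T, ∀ u v : ℝ, IntervalIntegrable (F t) volume u v := by
    intro t ht u v
    rw [intervalIntegrable_iff]
    have : IntegrableOn (fun _ : ℝ => (1 : ℝ)) (Set.uIoc u v) volume := by
      refine integrableOn_const ?_
      simp [Set.uIoc]
    exact this.indicator (hP'm t ht)
  have hFm : ∀ t ∈ T, ∀ u v : ℝ, u ≤ v → ∫ s in u..v, F t s =
      (volume (P' t ∩ Set.Icc u v)).toReal := by
    intro t ht u v huv
    rw [intervalIntegral.integral_of_le huv, ← integral_Icc_eq_integral_Ioc, hF]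
    simp only
    rw [integral_indicator (hP'm t ht), Measure.restrict_restrict (hP'm t ht)]
    simp [measureReal_def]
  -- mass of `P' t` in the interval
  have hmass : ∀ t ∈ G, c * δ * k / (2 * R) ≤ ∫ s in a..(a + k), F t s := by
    intro t ht
    have ht' := Finset.mem_filter.mp ht
    refine two (A := A) hk hR hc hδ hA (hgc t ht'.1) ?_ (hFi t ht'.1) (hF0 t) ht'.2 ?_
    · intro s hs
      exact le_trans (le_abs_self _) (hgb t ht'.1 s ⟨le_trans ha0 hs.1, le_trans hs.2 hal⟩)
    · intro j hj hj2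
      have hj' := Finset.mem_range.mp hj
      have h1 := hP t ht'.1 (a + j * (k / A)) (le_trans ha0 (hpge j)) (le_trans (hple j hj') hal)
        hj2
      rw [hFm t ht'.1 _ _ (by linarith)]
      have hsub : P t ∩ Set.Icc (a + j * (k / A)) (a + j * (k / A) + k / A) ⊆
          (P' t ∩ Set.Icc (a + j * (k / A)) (a + j * (k / A) + k / A)) ∪ {a + j * (k / A)} := by
        rintro x ⟨hx1, hx2⟩
        rcases hx2.1.lt_or_eq with h | h
        · refine Or.inl ⟨⟨hx1, Set.mem_iUnion₂.mpr ⟨j, ?_, ⟨h, hx2.2⟩⟩⟩, hx2⟩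
          exact Finset.mem_filter.mpr ⟨hj, hj2⟩
        · exact Or.inr h.symm
      have h2 : volume (P t ∩ Set.Icc (a + j * (k / A)) (a + j * (k / A) + k / A)) ≤
          volume (P' t ∩ Set.Icc (a + j * (k / A)) (a + j * (k / A) + k / A)) := by
        refine le_trans (measure_mono hsub) (le_trans (measure_union_le _ _) ?_)
        simp
      have hfin : volume (P' t ∩ Set.Icc (a + j * (k / A)) (a + j * (k / A) + k / A)) ≠ ⊤ :=
        ne_top_of_le_ne_top (by simp) (measure_mono Set.inter_subset_right)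
      exact (ENNReal.ofReal_le_iff_le_toReal hfin).mp (le_trans h1 h2)
  -- the tilt `s`
  obtain ⟨s, hs, hsG⟩ : ∃ s ∈ Set.Ioc a (a + k), c ^ 2 * δ / (2 * R ^ 2) * T.card ≤
      ∑ t ∈ G, F t s := by
    have hint : IntegrableOn (fun s => ∑ t ∈ G, F t s) (Set.Ioc a (a + k)) volume := by
      refine integrable_finsetSum _ fun t ht => ?_
      have := (hFi t (Finset.mem_filter.mp ht).1 a (a + k)).1
      exact this
    obtain ⟨s, hs, hs2⟩ := exists_setAverage_le (μ := volume) (s := Set.Ioc a (a + k))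
      (f := fun s => ∑ t ∈ G, F t s) (by simp [hk]) (by simp) hint
    refine ⟨s, hs, le_trans ?_ hs2⟩
    rw [setAverage_eq, smul_eq_mul, ← intervalIntegral.integral_of_le (by linarith)]
    rw [intervalIntegral.integral_finsetSum fun t ht => hFi t (Finset.mem_filter.mp ht).1 _ _]
    have h1 : (G.card : ℝ) * (c * δ * k / (2 * R)) ≤ ∑ t ∈ G, ∫ s in a..(a + k), F t s := by
      calc (G.card : ℝ) * (c * δ * k / (2 * R)) = ∑ t ∈ G, c * δ * k / (2 * R) := by
            rw [Finset.sum_const, nsmul_eq_mul]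
        _ ≤ _ := Finset.sum_le_sum hmass
    have h2 : (volume.real (Set.Ioc a (a + k)))⁻¹ = 1 / k := by
      rw [measureReal_def, Real.volume_Ioc]
      rw [ENNReal.toReal_ofReal (by linarith)]
      rw [one_div]
      congr 1
      ring
    rw [h2]
    calc c ^ 2 * δ / (2 * R ^ 2) * T.card =
        1 / k * (c / R * T.card * (c * δ * k / (2 * R))) := by
          field_simp
      _ ≤ 1 / k * ((G.card : ℝ) * (c * δ * k / (2 * R))) := by
          refine mul_le_mul_of_nonneg_left ?_ (by positivity)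
          exact mul_le_mul_of_nonneg_right hiG (by positivity)
      _ ≤ _ := mul_le_mul_of_nonneg_left h1 (by positivity)
  -- the majority
  set H := G.filter fun t => s ∈ P' t with hH
  have hHc : ∑ t ∈ G, F t s = H.card := by
    rw [hH, Finset.card_filter, Nat.cast_sum]
    refine Finset.sum_congr rfl fun t _ => ?_
    simp only [hF, Set.indicator_apply]
    split_ifs <;> simp
  rw [hHc] at hsG
  have hHT : H ⊆ T := fun t ht => (Finset.mem_filter.mp (Finset.mem_filter.mp ht).1).1
  have hHpos : (0 : ℝ) < H.card := lt_of_lt_of_le (by positivity) hsG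
  obtain ⟨t₀, ht₀⟩ := Finset.card_pos.mp (by exact_mod_cast hHpos : 0 < H.card)
  -- the cell of `s`
  obtain ⟨j, hjt, hjs⟩ : ∃ j ∈ gc t₀, s ∈ Set.Ioc (a + j * (k / A)) (a + j * (k / A) + k / A) := by
    have h1 := (Finset.mem_filter.mp ht₀).2
    have h2 := Set.mem_iUnion₂.mp h1.2
    obtain ⟨j, hj, hjs⟩ := h2
    exact ⟨j, hj, hjs⟩
  have hjA : j < A := Finset.mem_range.mp (Finset.mem_filter.mp hjt).1
  have huniq : ∀ j' : ℕ, s ∈ Set.Ioc (a + j' * (k / A)) (a + j' * (k / A) + k / A) → j' = j := by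
    intro j' hj'
    rcases lt_trichotomy j' j with h | h | h
    · exfalso
      have h1 : ((j' + 1 : ℕ) : ℝ) ≤ j := by exact_mod_cast h
      have h2 := mul_le_mul_of_nonneg_right h1 hkA.le
      push_cast at h2
      linarith [hj'.2, hjs.1]
    · exact h
    · exfalso
      have h1 : ((j + 1 : ℕ) : ℝ) ≤ j' := by exact_mod_cast h
      have h2 := mul_le_mul_of_nonneg_right h1 hkA.le
      push_cast at h2
      linarith [hj'.1, hjs.2]
  set b : ℝ := a + j * (k / A) with hb
  have hab : a ≤ b := hpge j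
  have hbk : b + k / A ≤ a + k := hple j hjA
  have hcell : ∀ t ∈ H, c / 2 * (k / A) ≤ ∫ u in b..(b + k / A), g t u := by
    intro t ht
    have h1 := (Finset.mem_filter.mp ht).2
    obtain ⟨j', hj', hjs'⟩ := Set.mem_iUnion₂.mp h1.2
    have h2 := huniq j' hjs'
    rw [h2] at hj'
    exact (Finset.mem_filter.mp hj').2
  have hPs : ∀ t ∈ H, s ∈ P t := fun t ht => (Finset.mem_filter.mp ht).2.1
  set T1 := (H.filter fun t => c * k / 2 ≤ ∫ u in a..s, g t u) with hT1
  set T2 := (H.filter fun t => c * k / 2 ≤ ∫ u in s..(a + k), g t u) with hT2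
  set U1 := (H.filter fun t => c * (k / A) / 4 ≤ ∫ u in b..s, g t u) with hU1
  set U2 := (H.filter fun t => c * (k / A) / 4 ≤ ∫ u in s..(b + k / A), g t u) with hU2
  have hcov : H ⊆ ((T1 ∩ U1) ∪ (T1 ∩ U2)) ∪ ((T2 ∩ U1) ∪ (T2 ∩ U2)) := by
    intro t ht
    have htG := (Finset.mem_filter.mp ht).1
    have htT := Finset.mem_filter.mp htG
    have h3 := intervalIntegral.integral_add_adjacent_intervals (hgii t htT.1 a s)
      (hgii t htT.1 s (a + k))
    have h4 := htT.2
    have h5 := intervalIntegral.integral_add_adjacent_intervals (hgii t htT.1 b s)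
      (hgii t htT.1 s (b + k / A))
    have h6 := hcell t ht
    have hT : t ∈ T1 ∨ t ∈ T2 := by
      rcases le_or_gt (c * k / 2) (∫ u in a..s, g t u) with h | h
      · exact Or.inl (Finset.mem_filter.mpr ⟨ht, h⟩)
      · exact Or.inr (Finset.mem_filter.mpr ⟨ht, by linarith⟩)
    have hU : t ∈ U1 ∨ t ∈ U2 := by
      rcases le_or_gt (c * (k / A) / 4) (∫ u in b..s, g t u) with h | h
      · exact Or.inl (Finset.mem_filter.mpr ⟨ht, h⟩)
      · exact Or.inr (Finset.mem_filter.mpr ⟨ht, by linarith⟩)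
    simp only [Finset.mem_union, Finset.mem_inter]
    rcases hT with hT | hT <;> rcases hU with hU | hU
    · exact Or.inl (Or.inl ⟨hT, hU⟩)
    · exact Or.inl (Or.inr ⟨hT, hU⟩)
    · exact Or.inr (Or.inl ⟨hT, hU⟩)
    · exact Or.inr (Or.inr ⟨hT, hU⟩)
  have hfour : 4 * (c ^ 2 * δ / (8 * R ^ 2) * T.card) ≤ (H.card : ℝ) := by
    have : 4 * (c ^ 2 * δ / (8 * R ^ 2) * T.card) = c ^ 2 * δ / (2 * R ^ 2) * T.card := by
      field_simp
      ring
    rw [this]
    exact hsG
  have hs01 : s ∈ Set.Icc (0 : ℝ) l := ⟨by linarith [hs.1], by linarith [hs.2]⟩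
  have hbs := hjs.1
  have hbs2 := hjs.2
  have ha01 : a ∈ Set.Icc (0 : ℝ) l := ⟨ha0, by linarith⟩
  have hak01 : a + k ∈ Set.Icc (0 : ℝ) l := ⟨by linarith, hal⟩
  have hb01 : b ∈ Set.Icc (0 : ℝ) l := ⟨by linarith, by linarith⟩
  have hbk01 : b + k / A ∈ Set.Icc (0 : ℝ) l := ⟨by linarith, by linarith⟩
  have d1 : |s - a| ≤ k := by rw [abs_le]; constructor <;> linarith [hs.1, hs.2]
  have d2 : |s - (a + k)| ≤ k := by rw [abs_le]; constructor <;> linarith [hs.1, hs.2]
  have d3 : |s - b| ≤ k / A := by rw [abs_le]; constructor <;> linarith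
  have d4 : |s - (b + k / A)| ≤ k / A := by rw [abs_le]; constructor <;> linarith
  have left : ∀ (t : ℕ) (x y : ℝ), x ≤ ∫ u in y..s, g t u → x ≤ |∫ u in s..y, g t u| := by
    intro t x y h
    rw [intervalIntegral.integral_symm, abs_neg]
    exact le_trans h (le_abs_self _)
  have right : ∀ (t : ℕ) (x y : ℝ), x ≤ ∫ u in s..y, g t u → x ≤ |∫ u in s..y, g t u| :=
    fun t x y h => le_trans h (le_abs_self _)
  rcases four hcov hfour with h | h | h | h
  · refine ⟨s, hs01, a, ha01, b, hb01, d1, d3, T1 ∩ U1, ?_, h, ?_⟩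
    · exact (Finset.inter_subset_left.trans (Finset.filter_subset _ _)).trans hHT
    · intro t ht
      have h1 := Finset.mem_filter.mp (Finset.mem_inter.mp ht).1
      have h2 := Finset.mem_filter.mp (Finset.mem_inter.mp ht).2
      exact ⟨hPs t h1.1, left t _ _ h1.2, left t _ _ h2.2⟩
  · refine ⟨s, hs01, a, ha01, b + k / A, hbk01, d1, d4, T1 ∩ U2, ?_, h, ?_⟩
    · exact (Finset.inter_subset_left.trans (Finset.filter_subset _ _)).trans hHT
    · intro t ht
      have h1 := Finset.mem_filter.mp (Finset.mem_inter.mp ht).1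
      have h2 := Finset.mem_filter.mp (Finset.mem_inter.mp ht).2
      exact ⟨hPs t h1.1, left t _ _ h1.2, right t _ _ h2.2⟩
  · refine ⟨s, hs01, a + k, hak01, b, hb01, d2, d3, T2 ∩ U1, ?_, h, ?_⟩
    · exact (Finset.inter_subset_left.trans (Finset.filter_subset _ _)).trans hHT
    · intro t ht
      have h1 := Finset.mem_filter.mp (Finset.mem_inter.mp ht).1
      have h2 := Finset.mem_filter.mp (Finset.mem_inter.mp ht).2
      exact ⟨hPs t h1.1, right t _ _ h1.2, left t _ _ h2.2⟩
  · refine ⟨s, hs01, a + k, hak01, b + k / A, hbk01, d2, d4, T2 ∩ U2, ?_, h, ?_⟩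
    · exact (Finset.inter_subset_left.trans (Finset.filter_subset _ _)).trans hHT
    · intro t ht
      have h1 := Finset.mem_filter.mp (Finset.mem_inter.mp ht).1
      have h2 := Finset.mem_filter.mp (Finset.mem_inter.mp ht).2
      exact ⟨hPs t h1.1, right t _ _ h1.2, right t _ _ h2.2⟩

end Pool.Agent.W_7d29a1_S90
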