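import Pool.Agent.W_7d29a1_S90.InK99
import Pool.Agent.W_7d29a1_S90.DefsO28

/-!
Leaf InO: the information on `S_t` of a set of rows.
-/

namespace Pool.Agent.W_7d29a1_S90

open MeasureTheory ProbabilityTheory Filter Topology Pool.Agent.W_MP_7d29a1_pr
  Pool.Agent.W_7d29a1_h46 Pool.Agent.W_7d29a1_h46u Pool.Agent.W_7d29a1_D2.B35
  Pool.Agent.W_7d29a1_Q29

variable {ρ : Measure ℝ} {β : ℝ}

/-- The telescope of the entropies over a set of rows, read from the top. -/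
lemma telS99 (f : ℕ → ℝ) (w : ℝ) {t : ℕ} (G : Finset ℕ) (hG : ∀ s ∈ G, 1 ≤ s ∧ s < t)
    (h0 : ∀ τ, 1 ≤ τ → τ < t → f τ ≤ f (τ - 1))
    (h1 : ∀ s ∈ G, w / s ≤ f (t - s - 1) - f (t - s)) :
    w * ∑ s ∈ G, 1 / (s : ℝ) ≤ f 0 - f (t - 1) := by
  have e1 : f 0 - f (t - 1) = ∑ i ∈ Finset.range (t - 1), (f i - f (i + 1)) := by
    rw [Finset.sum_range_sub']
  have e2 : ∑ i ∈ Finset.range (t - 1), (f i - f (i + 1)) =
      ∑ s ∈ Finset.Ico 1 t, (f (t - s - 1) - f (t - s)) := by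
    rw [← Finset.sum_range_reflect, Finset.sum_Ico_eq_sum_range]
    refine Finset.sum_congr rfl fun j hj => ?_
    have hj' := Finset.mem_range.1 hj
    have a1 : t - 1 - 1 - j = t - (1 + j) - 1 := by omega
    have a2 : t - 1 - 1 - j + 1 = t - (1 + j) := by omega
    rw [a2, a1]
  rw [e1, e2, Finset.mul_sum]
  have hsub : G ⊆ Finset.Ico 1 t := by
    intro s hs
    rw [Finset.mem_Ico]
    exact hG s hs
  calc ∑ s ∈ G, w * (1 / (s : ℝ))
      ≤ ∑ s ∈ G, (f (t - s - 1) - f (t - s)) := by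
        refine Finset.sum_le_sum fun s hs => ?_
        calc w * (1 / (s : ℝ)) = w / s := by ring
          _ ≤ _ := h1 s hs
    _ ≤ ∑ s ∈ Finset.Ico 1 t, (f (t - s - 1) - f (t - s)) := by
        refine Finset.sum_le_sum_of_subset_of_nonneg hsub fun s hs _ => ?_
        rw [Finset.mem_Ico] at hs
        have := h0 (t - s) (by omega) (by omega)
        linarith

/-- Leaf InO. -/
theorem inO99 [IsProbabilityMeasure ρ] (hβ : 0 < β) (hI : InT 2 ρ β) (hE : EnZ 2 ρ β)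
    (hD : DlT 2 ρ β) : InO ρ β := by
  have hM : RpM ρ β := rpM99 β
  obtain ⟨c0, hc0, hc01, hI⟩ := hI
  obtain ⟨CE, hCE, hE⟩ := hE
  obtain ⟨CD, hCD, hD⟩ := hD (2 * β) (by linarith)
  set c1 : ℝ := c0 / (4 * (CD + 1)) with hc1
  have hc1p : 0 < c1 := by positivity
  have hc1q : c1 ≤ 1 / 4 := by
    rw [hc1, div_le_div_iff₀ (by positivity) (by norm_num)]
    linarith
  set c : ℝ := c1 ^ 2 / 144 with hc
  have hcp : 0 < c := by positivity
  have hc12 : c ≤ c1 / 12 := by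
    rw [hc]
    have : c1 ^ 2 ≤ 1 * c1 := by rw [sq]; exact mul_le_mul_of_nonneg_right (by linarith) hc1p.le
    linarith
  refine ⟨c, CE, hcp, by linarith, hCE, ?_⟩
  intro h n t s₀ s₁ T R a κ K hn ht htn hs₀ hs₁ hR ha hκ hκ1 hK1 h4K hm0 hTl hRp
  have hnR : (1 : ℝ) ≤ n := by exact_mod_cast hn
  have hn0 : (0 : ℝ) < n := by linarith
  have hR0 : 0 < R := by linarith
  have hK0 : 0 < K := by linarith
  -- the truncation
  set b : ℝ := Real.log (4 * (CD + 1) / κ) / (2 * β) with hb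
  have hq1 : 1 ≤ 4 * (CD + 1) / κ := by
    rw [le_div_iff₀ hκ]; linarith
  have hb0 : 0 ≤ b := div_nonneg (Real.log_nonneg hq1) (by linarith)
  have hexp : Real.exp (-(2 * β * b)) = κ / (4 * (CD + 1)) := by
    have h1 : 2 * β * b = Real.log (4 * (CD + 1) / κ) := by
      rw [hb]; field_simp
    rw [h1, Real.exp_neg, Real.exp_log (by positivity), inv_div]
  have hDl : ∀ τ : ℕ, 1 ≤ τ → τ ≤ n → Dl ρ β h n τ b ≤ κ / 4 := by
    intro τ h1 h2
    have h3 := hD h n τ b h1 h2 hb0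
    rw [hexp] at h3
    refine h3.trans ?_
    rw [mul_div_assoc', div_le_div_iff₀ (by positivity) (by norm_num)]
    linarith
  have hE1 : c0 * Real.exp (-(2 * β * b)) = c1 * κ := by
    rw [hexp, hc1]; ring
  set w : ℝ := c * κ ^ 4 / K with hw
  have hw0 : 0 < w := by positivity
  -- one row
  have hrow : ∀ s ∈ (Finset.Icc s₀ s₁).filter (fun s => t - s ∈ T),
      w / s ≤ En ρ β h n t (t - s - 1) - En ρ β h n t (t - s) := by
    intro s hs
    obtain ⟨hsI, hsT⟩ := Finset.mem_filter.1 hs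
    obtain ⟨hs0, hs1⟩ := Finset.mem_Icc.1 hsI
    have hs1' : 1 ≤ s := hs₀.trans hs0
    have hsR : (1 : ℝ) ≤ s := by exact_mod_cast hs1'
    have hsp : (0 : ℝ) < s := by linarith
    have hst : s < t := lt_of_le_of_lt hs1 hs₁
    have hτ1 : 1 ≤ t - s := by omega
    have hτt : t - s < t := by omega
    obtain ⟨m, hm⟩ := hTl s hsI hsT
    set r : ℝ := Real.sqrt (K * s) with hr
    have hKs : 1 ≤ K * s := one_le_mul_of_one_le_of_one_le hK1 hsR
    have hr1 : 1 ≤ r := by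
      rw [hr]; exact Real.one_le_sqrt.2 hKs
    have hr2 : r ^ 2 = K * s := Real.sq_sqrt (by positivity)
    have hTr : Tl ρ β h n (t - s) t m r ≤ c1 * κ ^ 2 / 12 := by
      refine hm.trans ?_
      have := mul_le_mul_of_nonneg_right hc12 (sq_nonneg κ)
      linarith
    have hRp2 : κ ≤ Rp ρ β h n t (2 * r) := by
      refine hRp.trans (hM h n t _ _ ?_)
      rw [hr]
      have h1 : (2 : ℝ) * Real.sqrt (K * s) = Real.sqrt (4 * (K * s)) := by
        rw [show (4 : ℝ) * (K * s) = (2 : ℝ) ^ 2 * (K * s) by ring,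
          Real.sqrt_mul (by norm_num : (0 : ℝ) ≤ 2 ^ 2), Real.sqrt_sq (by norm_num : (0 : ℝ) ≤ 2)]
      rw [h1]
      refine Real.sqrt_le_sqrt ?_
      have h2 : (s : ℝ) ≤ s₁ := by exact_mod_cast hs1
      have h3 := mul_le_mul_of_nonneg_left h2 hK0.le
      linarith
    have hDr := hDl (t - s) hτ1 (by omega)
    obtain ⟨-, hI2⟩ := hI h n (t - s) t hτ1 hτt htn m r b hr1 hb0
    rw [hE1] at hI2
    set T' := Tl ρ β h n (t - s) t m r with hT
    have hc1κ : c1 * κ ≤ 1 / 4 := (mul_le_of_le_one_right hc1p.le hκ1).trans hc1q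
    have hc1κ0 : 0 < c1 * κ := by positivity
    have hU : c1 * κ ^ 2 / 2 ≤
        c1 * κ * (Rp ρ β h n t (2 * r) - 2 * T' - Dl ρ β h n (t - s) b) - T' := by
      have h1 : κ - 2 * T' - κ / 4 ≤
          Rp ρ β h n t (2 * r) - 2 * T' - Dl ρ β h n (t - s) b := by linarith
      have h2 := mul_le_mul_of_nonneg_left h1 hc1κ0.le
      have h3 : c1 * κ * (κ - 2 * T' - κ / 4) - T' =
          3 / 4 * (c1 * κ ^ 2) - (2 * (c1 * κ) + 1) * T' := by
        ring
      have h4 : (2 * (c1 * κ) + 1) * T' ≤ 3 * (c1 * κ ^ 2 / 12) := by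
        have h5 : (2 * (c1 * κ) + 1) * T' ≤ (2 * (c1 * κ) + 1) * (c1 * κ ^ 2 / 12) :=
          mul_le_mul_of_nonneg_left hTr (by linarith)
        have h6 : (2 * (c1 * κ) + 1) * (c1 * κ ^ 2 / 12) ≤ 3 * (c1 * κ ^ 2 / 12) :=
          mul_le_mul_of_nonneg_right (by linarith) (by positivity)
        linarith
      linarith
    have hUp : 0 < c1 * κ ^ 2 / 2 := by positivity
    have h1 := hI2 (hUp.le.trans hU)
    have h2 : (c1 * κ ^ 2 / 2) ^ 2 ≤
        (c1 * κ * (Rp ρ β h n t (2 * r) - 2 * T' - Dl ρ β h n (t - s) b) - T') ^ 2 :=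
      pow_le_pow_left₀ hUp.le hU 2
    have h3 : (c1 * κ ^ 2 / 2) ^ 2 ≤
        36 * (K * s) * (En ρ β h n t (t - s - 1) - En ρ β h n t (t - s)) := by
      refine (h2.trans h1).trans (le_of_eq ?_)
      rw [← hr2]; ring
    have h4 : w / s * (36 * (K * s)) = (c1 * κ ^ 2 / 2) ^ 2 := by
      rw [hw, hc]; field_simp; norm_num
    rw [← h4, mul_comm (w / (s : ℝ))] at h3
    exact le_of_mul_le_mul_left h3 (by positivity)
  have hmono : ∀ τ, 1 ≤ τ → τ < t → En ρ β h n t τ ≤ En ρ β h n t (τ - 1) := by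
    intro τ h1 h2
    exact (hI h n τ t h1 h2 htn 0 1 0 le_rfl le_rfl).1
  have hsum := telS99 (fun τ => En ρ β h n t τ) w
    ((Finset.Icc s₀ s₁).filter (fun s => t - s ∈ T)) (fun s hs => by
      obtain ⟨hsI, -⟩ := Finset.mem_filter.1 hs
      obtain ⟨hs0, hs1⟩ := Finset.mem_Icc.1 hsI
      omega) hmono hrow
  obtain ⟨m0, hm0⟩ := hm0
  have hE0 := hE h n t m0 R hn htn hR hm0
  have hE0' : En ρ β h n t 0 ≤ Real.log R + Real.log n + CE := by
    refine hE0.trans (le_of_eq ?_)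
    rw [Real.log_mul hR0.ne' hn0.ne']
    norm_num
  linarith

end Pool.Agent.W_7d29a1_S90
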