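import Pool.Agent.W_7d29a1_S90.LoV13
import Pool.Agent.W_7d29a1_S90.DefsO28

/-!
Theorem ORI, leaf O1: the lower bound of the variance of the difference of two free energies, given the
future.
-/

namespace Pool.Agent.W_7d29a1_S90

open MeasureTheory ProbabilityTheory Filter Topology Pool.Agent.W_MP_7d29a1_pr
  Pool.Agent.W_7d29a1_h46 Pool.Agent.W_7d29a1_h46u Pool.Agent.W_7d29a1_D2.B35
  Pool.Agent.W_7d29a1_Q29

variable {d : ℕ} {ρ : Measure ℝ}

lemma bw_dep19 (β : ℝ) (h h' : Vec d) (n t : ℕ) (c C : ℝ) (y : Site d) :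
    DependsOn (bw ρ β h h' n t c C y) (Pa d t)ᶜ := by
  intro η η' hη
  unfold bw
  rw [cE_dep (Pa d t)ᶜ (Qt β h n t y) hη, cE_dep (Pa d t)ᶜ (Qt β h' n t y) hη]

variable [IsProbabilityMeasure ρ]

lemma bw_meas19 (β : ℝ) (h h' : Vec d) (n t : ℕ) (c C : ℝ) (y : Site d) :
    Measurable (bw ρ β h h' n t c C y) := by
  unfold bw
  have h1 := measurable_cE (ρ := ρ) (measurable_Qt39 β h n t y) (Pa d t)ᶜ
  have h2 := measurable_cE (ρ := ρ) (measurable_Qt39 β h' n t y) (Pa d t)ᶜ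
  exact measurable_const.max ((h1.const_mul c).sub (h2.const_mul C))

lemma bw_bd19 (β : ℝ) (h h' : Vec d) {n t : ℕ} (htn : t ≤ n) {c C : ℝ} (hc : 0 ≤ c) (hc1 : c ≤ 1)
    (hC : 0 ≤ C) (y : Site d) (η : Env d) :
    0 ≤ bw ρ β h h' n t c C y η ∧ bw ρ β h h' n t c C y η ≤ 1 := by
  have h0 := cE_nonneg (ρ := ρ) (fun η => Qt_nonneg39 β h' n t y η) (Pa d t)ᶜ η
  have h1 := cE_le (ρ := ρ) (measurable_Qt39 β h n t y) (fun η => Qt_nonneg39 β h n t y η)
    (fun η => Qt_le_one39 β h htn y η) (Pa d t)ᶜ η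
  have h2 := cE_nonneg (ρ := ρ) (fun η => Qt_nonneg39 β h n t y η) (Pa d t)ᶜ η
  refine ⟨le_max_left _ _, max_le zero_le_one ?_⟩
  nlinarith [mul_nonneg hC h0, mul_le_mul hc1 h1 h2 zero_le_one]

lemma sq_cEb19 (β : ℝ) (h h' : Vec d) {n t : ℕ} (htn : t ≤ n) (c C : ℝ) (y : Site d)
    (η : Env d) : cE ρ (Pa d t)ᶜ (sq13 β h h' n t c C y) η =
      c * cE ρ (Pa d t)ᶜ (Qt β h n t y) η - C * cE ρ (Pa d t)ᶜ (Qt β h' n t y) η := by
  have i1 : ∀ h : Vec d, Integrable (fun ξ => Qt β h n t y (spl (Pa d t)ᶜ η ξ)) (law d ρ) :=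
    fun h => integrable_spl (measurable_Qt39 β h n t y) (b := 1) (fun η => by
      rw [abs_of_nonneg (Qt_nonneg39 β h n t y η)]
      exact Qt_le_one39 β h htn y η) _ _
  unfold cE sq13
  rw [integral_sub ((i1 h).const_mul c) ((i1 h').const_mul C), integral_const_mul,
    integral_const_mul]

theorem rlV19 (hd : 0 < d) (hρ : EM ρ) (hnc : ∀ c : ℝ, ρ {c} ≠ 1) {β : ℝ} (hβ : 0 < β)
    (hS : SiU d ρ β) : RlV d ρ β := by
  classical
  obtain ⟨c0, hc0, hsite⟩ := site39 (d := d) hd hρ hnc hβ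
  obtain ⟨C0, hC0, hup⟩ := hS
  obtain ⟨V, hV⟩ : ∃ V, V = ∫ t, (t - ∫ s, s ∂ρ) ^ 2 ∂ρ := ⟨_, rfl⟩
  have hV0 : 0 ≤ V := by
    rw [hV]
    exact integral_nonneg fun _ => sq_nonneg _
  obtain ⟨k, hk⟩ : ∃ k, k = 1 + c0 + V := ⟨_, rfl⟩
  have hk1 : 1 ≤ k := by rw [hk]; linarith
  have hk0 : 0 < k := by linarith
  have hVk : V ≤ k ^ 2 := by nlinarith
  obtain ⟨c, hc⟩ : ∃ c, c = c0 / k := ⟨_, rfl⟩
  obtain ⟨C, hC⟩ : ∃ C, C = C0 / k := ⟨_, rfl⟩
  have hcp : 0 < c := by rw [hc]; positivity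
  have hc1 : c ≤ 1 := by
    rw [hc, div_le_one hk0, hk]
    linarith
  have hCn : 0 ≤ C := by rw [hC]; positivity
  have ec : k * c = c0 := by rw [hc]; field_simp
  have eC : k * C = C0 := by rw [hC]; field_simp
  refine ⟨c, C, hcp, hc1, hCn, fun h h' n T hT => ?_⟩
  have hF : Measurable (fun η : Env d => X β h η n - X β h' η n) :=
    (measurable_X β h n).sub (measurable_X β h' n)
  have hX2 : ∀ h : Vec d, MemLp (fun η => X β h η n) 2 (law d ρ) := fun h => by
    rw [memLp_two_iff_integrable_sq (measurable_X β h n).aestronglyMeasurable]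
    exact integrable_X_sq39 hd hρ β h n
  have hF2 : Integrable (fun η : Env d => (X β h η n - X β h' η n) ^ 2) (law d ρ) := by
    have h1 : MemLp (fun η => X β h η n - X β h' η n) 2 (law d ρ) := (hX2 h).sub (hX2 h')
    rwa [memLp_two_iff_integrable_sq hF.aestronglyMeasurable] at h1
  have hI : ∀ p ∈ T ×ˢ boxF d n, 1 ≤ p.1 ∧ p.1 ≤ n := fun p hp =>
    Finset.mem_Icc.1 (hT (Finset.mem_product.1 hp).1)
  have hdep : ∀ p ∈ T ×ˢ boxF d n, ∀ q ∈ T ×ˢ boxF d n, p.1 ≤ q.1 →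
      DependsOn (bw ρ β h h' n q.1 c C q.2) ({p}ᶜ : Set (ℕ × Site d)) := by
    intro p hp q hq hqp η η' hη
    refine bw_dep19 β h h' n q.1 c C q.2 fun r hr => hη r ?_
    intro h1
    rw [Set.mem_singleton_iff] at h1
    rw [h1] at hr
    exact hr hqp
  have hmain := dualS13 hρ (T ×ˢ boxF d n) (fun η => X β h η n - X β h' η n) hF hF2
    (fun p => bw ρ β h h' n p.1 c C p.2) (fun p => sq13 β h h' n p.1 c0 C0 p.2)
    (fun p _ => bw_meas19 β h h' n p.1 c C p.2) (fun p _ => sq_meas13 β h h' n p.1 c0 C0 p.2)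
    (fun p hp η => bw_bd19 β h h' (hI p hp).2 hcp.le hc1 hCn p.2 η) (c0 + C0)
    (fun p hp η => sq_abs13 β h h' (hI p hp).2 hc0.le hC0 p.2 η)
    (fun p hp => hdep p hp p hp le_rfl)
    (fun p hp q hq _ => by
      rcases le_total p.1 q.1 with h2 | h2
      · exact Or.inl (hdep p hp q hq h2)
      · exact Or.inr (hdep q hq p hp h2))
    hk0.le
    (fun p hp => by
      have hi : Integrable (fun η => sq13 β h h' n p.1 c0 C0 p.2 η *
          bw ρ β h h' n p.1 c C p.2 η) (law d ρ) := by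
        refine Integrable.mono' (integrable_const (c0 + C0))
          ((sq_meas13 β h h' n p.1 c0 C0 p.2).mul
            (bw_meas19 β h h' n p.1 c C p.2)).aestronglyMeasurable
          (Eventually.of_forall fun η => ?_)
        have h1 := bw_bd19 (ρ := ρ) β h h' (hI p hp).2 hcp.le hc1 hCn p.2 η
        have h2 := sq_abs13 β h h' (hI p hp).2 hc0.le hC0 p.2 η
        rw [Real.norm_eq_abs, abs_mul, abs_of_nonneg h1.1]
        calc |sq13 β h h' n p.1 c0 C0 p.2 η| * bw ρ β h h' n p.1 c C p.2 η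
            ≤ (c0 + C0) * 1 := mul_le_mul h2 h1.2 h1.1 (by linarith)
          _ = c0 + C0 := mul_one _
      have h3 : (fun η => bw ρ β h h' n p.1 c C p.2 η * sq13 β h h' n p.1 c0 C0 p.2 η) =
          fun η => sq13 β h h' n p.1 c0 C0 p.2 η * bw ρ β h h' n p.1 c C p.2 η := by
        funext η
        ring
      rw [h3, int_mul_cE (Pa d p.1)ᶜ hi (bw_dep19 β h h' n p.1 c C p.2),
        ← integral_const_mul]
      refine le_of_eq (integral_congr_ae (Eventually.of_forall fun η => ?_))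
      show k * bw ρ β h h' n p.1 c C p.2 η ^ 2 =
        cE ρ (Pa d p.1)ᶜ (sq13 β h h' n p.1 c0 C0 p.2) η * bw ρ β h h' n p.1 c C p.2 η
      rw [sq_cEb19 β h h' (hI p hp).2]
      unfold bw
      obtain ⟨a, ha⟩ : ∃ a, a = cE ρ (Pa d p.1)ᶜ (Qt β h n p.1 p.2) η := ⟨_, rfl⟩
      obtain ⟨b, hb⟩ : ∃ b, b = cE ρ (Pa d p.1)ᶜ (Qt β h' n p.1 p.2) η := ⟨_, rfl⟩
      rw [← ha, ← hb, ← ec, ← eC]
      rcases le_total 0 (c * a - C * b) with h5 | h5
      · rw [max_eq_right h5]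
        ring
      · rw [max_eq_left h5]
        ring)
    (fun p hp η => by
      obtain ⟨ht1, htn⟩ := hI p hp
      have h1 := hsite h n p.1 p.2 η ht1 htn
      have h2 := hup h' n p.1 p.2 η ht1 htn
      have iQ : ∀ h : Vec d, Integrable (fun r => Qt β h n p.1 p.2 (Function.update η p r)) ρ :=
        fun h => by
          refine Integrable.mono' (integrable_const (1 : ℝ))
            ((measurable_Qt39 β h n p.1 p.2).comp
              (measurable_update η)).aestronglyMeasurable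
            (Eventually.of_forall fun r => ?_)
          rw [Real.norm_eq_abs, abs_of_nonneg (Qt_nonneg39 β h n p.1 p.2 _)]
          exact Qt_le_one39 β h htn p.2 _
      have iX : ∀ h : Vec d, Integrable (fun r => (r - ∫ s, s ∂ρ) *
          X β h (Function.update η p r) n) ρ := fun h =>
        int_site13 hd hρ β h ht1 htn p.2 η
      have e1 : ∫ r, (r - ∫ s, s ∂ρ) * (X β h (Function.update η p r) n -
          X β h' (Function.update η p r) n) ∂ρ =
          (∫ r, (r - ∫ s, s ∂ρ) * X β h (Function.update η p r) n ∂ρ) -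
            ∫ r, (r - ∫ s, s ∂ρ) * X β h' (Function.update η p r) n ∂ρ := by
        rw [← integral_sub (iX h) (iX h')]
        refine integral_congr_ae (Eventually.of_forall fun r => ?_)
        show (r - ∫ s, s ∂ρ) * (X β h (Function.update η p r) n -
          X β h' (Function.update η p r) n) = (r - ∫ s, s ∂ρ) * X β h (Function.update η p r) n -
            (r - ∫ s, s ∂ρ) * X β h' (Function.update η p r) n
        ring
      have e2 : ∫ r, sq13 β h h' n p.1 c0 C0 p.2 (Function.update η p r) ∂ρ =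
          c0 * (∫ r, Qt β h n p.1 p.2 (Function.update η p r) ∂ρ) -
            C0 * ∫ r, Qt β h' n p.1 p.2 (Function.update η p r) ∂ρ := by
        unfold sq13
        rw [integral_sub ((iQ h).const_mul c0) ((iQ h').const_mul C0), integral_const_mul,
          integral_const_mul]
      show ∫ r, sq13 β h h' n p.1 c0 C0 p.2 (Function.update η p r) ∂ρ ≤
        ∫ r, (r - ∫ s, s ∂ρ) * (X β h (Function.update η p r) n -
          X β h' (Function.update η p r) n) ∂ρ
      rw [e1, e2]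
      exact sub_le_sub h1 h2) (A ρ β h n - A ρ β h' n)
  rw [← hV] at hmain
  have hsum : ∑ t ∈ T, ∫ η, ∑ y ∈ boxF d n, bw ρ β h h' n t c C y η ^ 2 ∂(law d ρ) =
      ∑ p ∈ T ×ˢ boxF d n, ∫ η, bw ρ β h h' n p.1 c C p.2 η ^ 2 ∂(law d ρ) := by
    rw [Finset.sum_product]
    refine Finset.sum_congr rfl fun t ht => ?_
    rw [integral_finsetSum]
    intro y _
    refine Integrable.mono' (integrable_const (1 : ℝ))
      ((bw_meas19 β h h' n t c C y).pow_const 2).aestronglyMeasurable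
      (Eventually.of_forall fun η => ?_)
    have h1 := bw_bd19 (ρ := ρ) β h h' (Finset.mem_Icc.1 (hT ht)).2 hcp.le hc1 hCn y η
    rw [Real.norm_eq_abs, abs_of_nonneg (sq_nonneg _)]
    nlinarith [h1.1, h1.2]
  rw [hsum]
  have hS0 : 0 ≤ ∑ p ∈ T ×ˢ boxF d n, ∫ η, bw ρ β h h' n p.1 c C p.2 η ^ 2 ∂(law d ρ) :=
    Finset.sum_nonneg fun p _ => integral_nonneg fun η => sq_nonneg _
  have hR0 : 0 ≤ ∫ η, (X β h η n - X β h' η n - (A ρ β h n - A ρ β h' n)) ^ 2 ∂(law d ρ) :=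
    integral_nonneg fun η => sq_nonneg _
  have h3 := hmain.trans (mul_le_mul_of_nonneg_right hVk hR0)
  exact le_of_mul_le_mul_left h3 (by positivity)

end Pool.Agent.W_7d29a1_S90
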