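import Pool.Agent.W_7d29a1_S90.DefsO28

/-!
Leaf O6: a set of times of density `θ` contains a time `t` with many differences `s`.
-/

namespace Pool.Agent.W_7d29a1_S90

open Finset

namespace P45s

/-- The number of `t ∈ T` with `t - s ∈ T`. -/
noncomputable def r (T : Finset ℕ) (s : ℕ) : ℝ := ((T.filter fun t => s < t ∧ t - s ∈ T).card : ℝ)

lemma r_nonneg (T : Finset ℕ) (s : ℕ) : 0 ≤ r T s := Nat.cast_nonneg _

lemma r_le (T : Finset ℕ) (s : ℕ) : r T s ≤ T.card := by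
  unfold r
  exact_mod_cast card_filter_le _ _

lemma pairs {T : Finset ℕ} {n L : ℕ} (hT : T ⊆ Icc 1 n) (hL : 1 ≤ L) :
    ((L : ℝ) * T.card) ^ 2 ≤ ((n : ℝ) + L) * (L * (T.card + 2 * ∑ s ∈ Icc 1 (L - 1), r T s)) := by
  classical
  set I : ℕ → ℕ → ℝ := fun t x => if t ≤ x ∧ x < t + L then 1 else 0 with hI
  have h1 : ∑ x ∈ range (n + L), ∑ t ∈ T, I t x = L * T.card := by
    rw [sum_comm]
    have : ∀ t ∈ T, ∑ x ∈ range (n + L), I t x = L := by
      intro t ht
      have ht' := mem_Icc.mp (hT ht)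
      simp only [hI]
      rw [← sum_filter, sum_const, nsmul_eq_mul, mul_one]
      have h2 : (range (n + L)).filter (fun x => t ≤ x ∧ x < t + L) = Ico t (t + L) := by
        ext x
        simp only [mem_filter, mem_range, mem_Ico]
        constructor
        · exact fun h => h.2
        · exact fun h => ⟨by omega, h⟩
      rw [h2, Nat.card_Ico]
      simp
    rw [sum_congr rfl this, sum_const, nsmul_eq_mul]
    ring
  have h2 := sq_sum_le_card_mul_sum_sq (s := range (n + L)) (f := fun x => ∑ t ∈ T, I t x)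
  rw [h1, card_range] at h2
  push_cast at h2
  refine h2.trans (mul_le_mul_of_nonneg_left ?_ (by positivity))
  -- the square
  have h3 : ∑ x ∈ range (n + L), (∑ t ∈ T, I t x) ^ 2 =
      ∑ t ∈ T, ∑ t' ∈ T, ∑ x ∈ range (n + L), I t x * I t' x := by
    simp only [sq, sum_mul_sum]
    rw [sum_comm]
    refine sum_congr rfl fun t _ => ?_
    rw [sum_comm]
  rw [h3]
  set Q : ℕ → ℕ → ℝ := fun t t' => if t' < t ∧ t < t' + L then 1 else 0 with hQ
  have h4 : ∀ t ∈ T, ∀ t' ∈ T, ∑ x ∈ range (n + L), I t x * I t' x ≤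
      L * ((if t = t' then 1 else 0) + Q t t' + Q t' t) := by
    intro t ht t' ht'
    have h5 : ∑ x ∈ range (n + L), I t x * I t' x ≤ L := by
      have h6 : ∑ x ∈ range (n + L), I t x * I t' x ≤ ∑ x ∈ range (n + L), I t x := by
        refine sum_le_sum fun x _ => ?_
        simp only [hI]
        split_ifs <;> norm_num
      refine h6.trans ?_
      simp only [hI]
      rw [← sum_filter, sum_const, nsmul_eq_mul, mul_one]
      have h7 : ((range (n + L)).filter (fun x => t ≤ x ∧ x < t + L)).card ≤ L := by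
        calc _ ≤ (Ico t (t + L)).card := card_le_card fun x hx => by
              simp only [mem_filter, mem_range] at hx
              exact mem_Ico.mpr hx.2
          _ = L := by simp
      exact_mod_cast h7
    by_cases hc : t < t' + L ∧ t' < t + L
    · have h8 : (1 : ℝ) ≤ (if t = t' then 1 else 0) + Q t t' + Q t' t := by
        simp only [hQ]
        rcases lt_trichotomy t t' with h | h | h
        · rw [if_neg (by omega), if_neg (by omega), if_pos (by omega)]
          norm_num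
        · rw [if_pos h, if_neg (by omega), if_neg (by omega)]
          norm_num
        · rw [if_neg (by omega), if_pos (by omega), if_neg (by omega)]
          norm_num
      calc _ ≤ (L : ℝ) := h5
        _ = L * 1 := (mul_one _).symm
        _ ≤ _ := mul_le_mul_of_nonneg_left h8 (by positivity)
    · have h9 : ∑ x ∈ range (n + L), I t x * I t' x = 0 := by
        refine sum_eq_zero fun x _ => ?_
        simp only [hI]
        split_ifs with a b
        · exfalso; omega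
        all_goals simp
      rw [h9]
      have : 0 ≤ (if t = t' then (1 : ℝ) else 0) + Q t t' + Q t' t := by
        simp only [hQ]
        positivity
      positivity
  have h10 : ∑ t ∈ T, ∑ t' ∈ T, Q t t' ≤ ∑ s ∈ Icc 1 (L - 1), r T s := by
    have h11 : ∑ s ∈ Icc 1 (L - 1), r T s =
        ∑ t ∈ T, (((Icc 1 (L - 1)).filter fun s => s < t ∧ t - s ∈ T).card : ℝ) := by
      simp only [r, card_filter, Nat.cast_sum]
      exact sum_comm
    rw [h11]
    refine sum_le_sum fun t ht => ?_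
    simp only [hQ]
    rw [← sum_filter, sum_const, nsmul_eq_mul, mul_one]
    have h12 : (T.filter fun t' => t' < t ∧ t < t' + L).card ≤
        ((Icc 1 (L - 1)).filter fun s => s < t ∧ t - s ∈ T).card := by
      refine card_le_card_of_injOn (fun t' => t - t') (fun t' ht' => ?_) (fun a ha b hb hab => ?_)
      · have h13 := mem_filter.mp ht'
        have h14 := mem_Icc.mp (hT h13.1)
        simp only [coe_filter, mem_Icc, Set.mem_ofPred_eq]
        refine ⟨by omega, by omega, ?_⟩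
        have : t - (t - t') = t' := by omega
        rw [this]
        exact h13.1
      · have h13 := mem_filter.mp ha
        have h14 := mem_filter.mp hb
        simp only at hab
        omega
    exact_mod_cast h12
  calc ∑ t ∈ T, ∑ t' ∈ T, ∑ x ∈ range (n + L), I t x * I t' x
      ≤ ∑ t ∈ T, ∑ t' ∈ T, L * ((if t = t' then 1 else 0) + Q t t' + Q t' t) :=
        sum_le_sum fun t ht => sum_le_sum fun t' ht' => h4 t ht t' ht'
    _ = L * (T.card + ∑ t ∈ T, ∑ t' ∈ T, Q t t' + ∑ t ∈ T, ∑ t' ∈ T, Q t' t) := by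
        simp only [← mul_sum, sum_add_distrib]
        have : ∑ t ∈ T, ∑ t' ∈ T, (if t = t' then (1 : ℝ) else 0) = T.card := by
          simp
        rw [this]
    _ ≤ L * (T.card + 2 * ∑ s ∈ Icc 1 (L - 1), r T s) := by
        refine mul_le_mul_of_nonneg_left ?_ (by positivity)
        have h15 : ∑ t ∈ T, ∑ t' ∈ T, Q t' t = ∑ t ∈ T, ∑ t' ∈ T, Q t t' := sum_comm
        rw [h15]
        linarith

lemma lower {T : Finset ℕ} {n L : ℕ} {θ : ℝ} (hT : T ⊆ Icc 1 n) (hL : 1 ≤ L) (hLn : L ≤ n)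
    (hθ : 0 < θ) (hM : θ * n ≤ T.card) :
    (θ * L / 4 - 1 / 2) * T.card ≤ ∑ s ∈ Icc 1 (L - 1), r T s := by
  have h1 := pairs hT hL
  set N := ∑ s ∈ Icc 1 (L - 1), r T s with hN
  have hN0 : 0 ≤ N := sum_nonneg fun s _ => r_nonneg T s
  have hL0 : (0 : ℝ) < L := by exact_mod_cast hL
  have hLn' : (L : ℝ) ≤ n := by exact_mod_cast hLn
  have hn0 : (0 : ℝ) < n := by linarith
  have hM0 : (0 : ℝ) < T.card := lt_of_lt_of_le (by positivity) hM
  set M : ℝ := (T.card : ℝ) with hMd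
  have h2 : (L : ℝ) * M ^ 2 ≤ ((n : ℝ) + L) * (M + 2 * N) := by
    have h3 : (L : ℝ) * (L * M ^ 2) ≤ L * (((n : ℝ) + L) * (M + 2 * N)) := by
      calc (L : ℝ) * (L * M ^ 2) = (L * M) ^ 2 := by ring
        _ ≤ ((n : ℝ) + L) * (L * (M + 2 * N)) := h1
        _ = _ := by ring
    exact le_of_mul_le_mul_left h3 hL0
  have h4 : ((n : ℝ) + L) * (M + 2 * N) ≤ 2 * n * (M + 2 * N) :=
    mul_le_mul_of_nonneg_right (by linarith) (by positivity)
  have h5 : θ * (L * M ^ 2) ≤ 2 * M * (M + 2 * N) := by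
    calc θ * (L * M ^ 2) ≤ θ * (2 * n * (M + 2 * N)) :=
          mul_le_mul_of_nonneg_left (h2.trans h4) hθ.le
      _ = 2 * (θ * n) * (M + 2 * N) := by ring
      _ ≤ 2 * M * (M + 2 * N) := by
          refine mul_le_mul_of_nonneg_right ?_ (by positivity)
          linarith
  have h6 : θ * L * M ≤ 2 * (M + 2 * N) := by
    have h7 : M * (θ * L * M) ≤ M * (2 * (M + 2 * N)) := by
      calc M * (θ * L * M) = θ * (L * M ^ 2) := by ring
        _ ≤ 2 * M * (M + 2 * N) := h5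
        _ = _ := by ring
    exact le_of_mul_le_mul_left h7 hM0
  linarith

lemma harm {a b : ℕ} (ha : 1 ≤ a) (hab : a ≤ b) :
    Real.log ((b : ℝ) + 1) - Real.log a ≤ ∑ L ∈ Icc a b, 1 / (L : ℝ) := by
  have step : ∀ k : ℕ, 1 ≤ k → Real.log ((k : ℝ) + 1) - Real.log k ≤ 1 / (k : ℝ) := by
    intro k hk
    have hk' : (0 : ℝ) < k := by exact_mod_cast hk
    rw [← Real.log_div (by positivity) hk'.ne']
    have h1 : ((k : ℝ) + 1) / k = 1 / k + 1 := by
      field_simp
      ring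
    rw [h1]
    have := Real.log_le_sub_one_of_pos (show (0 : ℝ) < 1 / k + 1 by positivity)
    linarith
  induction b, hab using Nat.le_induction with
  | base => simpa using step a ha
  | succ k hk ih =>
    rw [sum_Icc_succ_top (by omega)]
    have h1 := step (k + 1) (by omega)
    push_cast at h1 ⊢
    linarith

lemma tele {a b : ℕ} (hab : a ≤ b) :
    ∑ L ∈ Icc a b, (1 / (L : ℝ) - 1 / ((L : ℝ) + 1)) = 1 / (a : ℝ) - 1 / ((b : ℝ) + 1) := by
  induction b, hab using Nat.le_induction with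
  | base => simp
  | succ k hk ih =>
    rw [sum_Icc_succ_top (by omega), ih]
    push_cast
    ring

/-- The total sum. -/
lemma total {T : Finset ℕ} {n s₀ s₁ : ℕ} {θ : ℝ} (hT : T ⊆ Icc 1 n) (hs₀ : 1 ≤ s₀)
    (hs : s₀ ≤ s₁) (hs₁ : s₁ + 1 ≤ n) (hθ : 0 < θ) (hM : θ * n ≤ T.card) :
    (θ / 4 * (Real.log ((s₁ : ℝ) + 1) - Real.log s₀) - 1) * T.card ≤
      ∑ s ∈ Icc s₀ s₁, r T s * (1 / (s : ℝ)) := by
  set M : ℝ := (T.card : ℝ) with hMd
  have hM0 : 0 ≤ M := Nat.cast_nonneg _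
  have hs₀0 : (0 : ℝ) < s₀ := by exact_mod_cast hs₀
  -- partial sums
  have h1 : ∀ L ∈ Icc s₀ s₁, (θ * (L + 1) / 4 - 1 / 2) * M - (s₀ - 1) * M ≤
      ∑ s ∈ Icc s₀ L, r T s := by
    intro L hL
    obtain ⟨hL1, hL2⟩ := mem_Icc.mp hL
    have h2 := lower (L := L + 1) hT (by omega) (by omega) hθ hM
    rw [Nat.add_sub_cancel] at h2
    have h3 : Icc 1 L = Icc 1 (s₀ - 1) ∪ Icc s₀ L := by
      ext x
      simp only [mem_union, mem_Icc]
      omega
    have h4 : Disjoint (Icc 1 (s₀ - 1)) (Icc s₀ L) := by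
      rw [disjoint_left]
      intro x hx hx'
      simp only [mem_Icc] at hx hx'
      omega
    rw [h3, sum_union h4] at h2
    have h5 : ∑ s ∈ Icc 1 (s₀ - 1), r T s ≤ (s₀ - 1) * M := by
      calc ∑ s ∈ Icc 1 (s₀ - 1), r T s ≤ ∑ _s ∈ Icc 1 (s₀ - 1), M :=
            sum_le_sum fun s _ => r_le T s
        _ = (s₀ - 1) * M := by
            rw [sum_const, Nat.card_Icc, nsmul_eq_mul, Nat.add_sub_cancel, Nat.cast_sub hs₀]
            push_cast
            ring
    push_cast at h2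
    linarith
  have h6 : ∀ s ∈ Icc s₀ s₁, ∑ L ∈ Icc s s₁, r T s * (1 / (L : ℝ) - 1 / ((L : ℝ) + 1)) ≤
      r T s * (1 / (s : ℝ)) := by
    intro s hs'
    obtain ⟨h7, h8⟩ := mem_Icc.mp hs'
    rw [← mul_sum, tele h8]
    refine mul_le_mul_of_nonneg_left ?_ (r_nonneg T s)
    have : (0 : ℝ) ≤ 1 / ((s₁ : ℝ) + 1) := by positivity
    linarith
  refine le_trans ?_ (sum_le_sum h6)
  have h9 : ∑ s ∈ Icc s₀ s₁, ∑ L ∈ Icc s s₁, r T s * (1 / (L : ℝ) - 1 / ((L : ℝ) + 1)) =
      ∑ L ∈ Icc s₀ s₁, ∑ s ∈ Icc s₀ L, r T s * (1 / (L : ℝ) - 1 / ((L : ℝ) + 1)) := by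
    refine sum_comm' fun x y => ?_
    simp only [mem_Icc]
    omega
  rw [h9]
  have hw : ∀ L ∈ Icc s₀ s₁, (0 : ℝ) < L := fun L hL => by
    have := (mem_Icc.mp hL).1
    exact_mod_cast lt_of_lt_of_le hs₀ this
  have h10 : ∀ L ∈ Icc s₀ s₁, θ / 4 * M * (1 / (L : ℝ)) -
      (s₀ - 1 / 2) * M * (1 / (L : ℝ) - 1 / ((L : ℝ) + 1)) ≤
      ∑ s ∈ Icc s₀ L, r T s * (1 / (L : ℝ) - 1 / ((L : ℝ) + 1)) := by
    intro L hL
    have hL0 := hw L hL
    have h11 : (0 : ℝ) ≤ 1 / (L : ℝ) - 1 / ((L : ℝ) + 1) := by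
      rw [sub_nonneg]
      exact one_div_le_one_div_of_le hL0 (by linarith)
    rw [← sum_mul]
    refine le_trans (le_of_eq ?_) (mul_le_mul_of_nonneg_right (h1 L hL) h11)
    field_simp
    ring
  refine le_trans ?_ (sum_le_sum h10)
  rw [sum_sub_distrib, ← mul_sum, ← mul_sum, tele hs]
  have h12 := harm hs₀ hs
  have h13 : θ / 4 * M * (Real.log ((s₁ : ℝ) + 1) - Real.log s₀) ≤
      θ / 4 * M * ∑ L ∈ Icc s₀ s₁, 1 / (L : ℝ) := mul_le_mul_of_nonneg_left h12 (by positivity)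
  have h14 : (s₀ - 1 / 2) * M * (1 / (s₀ : ℝ) - 1 / ((s₁ : ℝ) + 1)) ≤ M := by
    have h15 : ((s₀ : ℝ) - 1 / 2) * (1 / (s₀ : ℝ) - 1 / ((s₁ : ℝ) + 1)) ≤ 1 := by
      have h16 : (1 : ℝ) ≤ s₀ := by exact_mod_cast hs₀
      have h17 : (0 : ℝ) ≤ 1 / ((s₁ : ℝ) + 1) := by positivity
      calc ((s₀ : ℝ) - 1 / 2) * (1 / (s₀ : ℝ) - 1 / ((s₁ : ℝ) + 1))
          ≤ ((s₀ : ℝ) - 1 / 2) * (1 / (s₀ : ℝ)) :=
            mul_le_mul_of_nonneg_left (by linarith) (by linarith)
        _ ≤ s₀ * (1 / (s₀ : ℝ)) := mul_le_mul_of_nonneg_right (by linarith) (by positivity)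
        _ = 1 := by field_simp
    calc _ = M * (((s₀ : ℝ) - 1 / 2) * (1 / (s₀ : ℝ) - 1 / ((s₁ : ℝ) + 1))) := by ring
      _ ≤ M * 1 := mul_le_mul_of_nonneg_left h15 hM0
      _ = M := mul_one M
  linarith

end P45s

open P45s in
/-- Leaf O6. -/
theorem seT45 : SeT := by
  classical
  intro n s₀ s₁ θ T hs₀ hθ hT hne hM hs₁
  have hM0 : (0 : ℝ) < T.card := by exact_mod_cast hne.card_pos
  have hcard : T.card ≤ n := by
    calc T.card ≤ (Icc 1 n).card := card_le_card hT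
      _ = n := by simp
  rcases lt_or_ge s₁ s₀ with h | h
  · obtain ⟨t, ht⟩ := hne
    refine ⟨t, ht, ?_⟩
    rw [Icc_eq_empty (by omega), filter_empty, sum_empty]
    have h1 : Real.log ((s₁ : ℝ) + 1) ≤ Real.log s₀ :=
      Real.log_le_log (by positivity) (by exact_mod_cast h)
    have h2 : θ / 4 * (Real.log ((s₁ : ℝ) + 1) - Real.log s₀) ≤ 0 :=
      mul_nonpos_of_nonneg_of_nonpos (by positivity) (by linarith)
    linarith
  · have h1 := total hT hs₀ h (by omega) hθ hM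
    have h2 : ∑ s ∈ Icc s₀ s₁, r T s * (1 / (s : ℝ)) =
        ∑ t ∈ T, ∑ s ∈ (Icc s₀ s₁).filter (fun s => s < t ∧ t - s ∈ T), 1 / (s : ℝ) := by
      have h3 : ∀ s ∈ Icc s₀ s₁, r T s * (1 / (s : ℝ)) =
          ∑ t ∈ T, if s < t ∧ t - s ∈ T then 1 / (s : ℝ) else 0 := by
        intro s _
        unfold r
        rw [card_filter, Nat.cast_sum, sum_mul]
        refine sum_congr rfl fun t _ => ?_
        split_ifs <;> simp
      rw [sum_congr rfl h3, sum_comm]
      refine sum_congr rfl fun t _ => ?_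
      rw [sum_filter]
    rw [h2] at h1
    have h4 : ∑ _t ∈ T, (θ / 4 * (Real.log ((s₁ : ℝ) + 1) - Real.log s₀) - 1) ≤
        ∑ t ∈ T, ∑ s ∈ (Icc s₀ s₁).filter (fun s => s < t ∧ t - s ∈ T), 1 / (s : ℝ) := by
      rw [sum_const, nsmul_eq_mul]
      linarith
    obtain ⟨t, ht, h5⟩ := exists_le_of_sum_le hne h4
    exact ⟨t, ht, h5⟩

end Pool.Agent.W_7d29a1_S90
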