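import Pool.Agent.W_7d29a1_S90.RlV19
import Pool.Agent.W_7d29a1_S90.StM86
import Pool.Agent.W_7d29a1_S90.VuT31
import Pool.Agent.W_7d29a1_S90.RpT73
import Pool.Agent.W_7d29a1_Q29.Brid72

/-!
Theorem ORI, leaf O2: the windows behind `τ` from the initial windows.
-/

namespace Pool.Agent.W_7d29a1_S90

open MeasureTheory ProbabilityTheory Filter Topology Pool.Agent.W_MP_7d29a1_pr
  Pool.Agent.W_7d29a1_h46 Pool.Agent.W_7d29a1_h46u Pool.Agent.W_7d29a1_D2.B35
  Pool.Agent.W_7d29a1_Q29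

variable {d : ℕ} {ρ : Measure ℝ}

open Classical in
/-- The Markov property at the time `τ`. -/
lemma pe_win19 (hd : 0 < d) (β : ℝ) (h : Vec d) (η : Env d) (τ k : ℕ)
    (G : (Fin k → Step d) → ℝ) (F : (Fin (τ + k) → Step d) → ℝ)
    (hF : ∀ (s : Fin τ → Step d) (q : Fin k → Step d), F (Fin.append s q) = G q) :
    pe β h η F = ∑ y ∈ boxF d (τ + k), Qt β h (τ + k) τ y η * pe β h (sh τ y η) G := by
  have hZ := fun y => Z_pos hd β h (sh τ y η) k
  have hZ0 := Z_pos hd β h η (τ + k)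
  have e1 : ∀ y ∈ boxF d (τ + k), Qt β h (τ + k) τ y η * pe β h (sh τ y η) G =
      PP β h η τ y * (∑ q, wgt β h (sh τ y η) q * G q) / Z β h η (τ + k) := by
    intro y _
    unfold Qt pe
    rw [Nat.add_sub_cancel_left]
    have h1 := (hZ y).ne'
    field_simp
  rw [Finset.sum_congr rfl e1, ← Finset.sum_div]
  unfold pe
  congr 1
  rw [sum_glue]
  have e2 : ∀ s : Fin τ → Step d, ∑ q : Fin k → Step d, wgt β h η (Fin.append s q) *
      F (Fin.append s q) = wgt β h η s * ∑ q, wgt β h (sh τ (pos s τ) η) q * G q := by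
    intro s
    rw [Finset.mul_sum]
    refine Finset.sum_congr rfl fun q _ => ?_
    rw [wgt_glue, hF, mul_assoc]
  rw [Finset.sum_congr rfl fun s _ => e2 s]
  have e3 : ∀ y ∈ boxF d (τ + k), PP β h η τ y * (∑ q, wgt β h (sh τ y η) q * G q) =
      ∑ s : Fin τ → Step d, if pos s τ = y then
        wgt β h η s * (∑ q, wgt β h (sh τ y η) q * G q) else 0 := by
    intro y _
    unfold PP ZT
    rw [Finset.sum_mul]
    refine Finset.sum_congr rfl fun s _ => ?_
    by_cases hs : pos s τ = y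
    · rw [if_pos (show s ∈ {s : Fin τ → Step d | pos s τ = y} from hs), if_pos hs]
    · rw [if_neg (show s ∉ {s : Fin τ → Step d | pos s τ = y} from hs), if_neg hs, zero_mul]
  rw [Finset.sum_congr rfl e3, Finset.sum_comm]
  refine Finset.sum_congr rfl fun s _ => ?_
  have hm : pos s τ ∈ boxF d (τ + k) := by
    have h1 := pos_mem_box s τ
    rw [mem_boxF] at h1 ⊢
    intro j
    have h2 := h1 j
    push_cast at h2 ⊢
    have h3 : (0 : ℤ) ≤ k := Int.natCast_nonneg k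
    linarith
  rw [Finset.sum_ite_eq, if_pos hm]

/-- The future does not see the rows `≤ τ`. -/
lemma dep_pe19 (β : ℝ) (h : Vec d) (τ k : ℕ) (y : Site d) (G : (Fin k → Step d) → ℝ) :
    DependsOn (fun η : Env d => pe β h (sh τ y η) G) (Pa d τ)ᶜ := by
  intro η η' hη
  have hw : ∀ q : Fin k → Step d, wgt β h (sh τ y η) q = wgt β h (sh τ y η') q := by
    intro q
    unfold wgt energy
    congr 3
    refine Finset.sum_congr rfl fun l _ => ?_
    refine hη _ ?_
    intro h1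
    have h2 : (l : ℕ) + 1 + τ ≤ τ := h1
    omega
  show pe β h (sh τ y η) G = pe β h (sh τ y η') G
  unfold pe
  rw [Z_eq, Z_eq]
  simp only [hw]

open Classical in
/-- The windows behind `τ`, as a sum over the sites of the row `τ`. -/
lemma Tl_win19 (hd : 0 < d) (β : ℝ) (h : Vec d) (τ k j : ℕ) (m : Vec d) (r : ℝ) :
    Tl ρ β h (τ + k) τ (τ + j) m r = ∫ η, ∑ y ∈ boxF d (τ + k), Qt β h (τ + k) τ y η *
      pe β h (sh τ y η) (fun q : Fin k → Step d => if r < inc 0 j m q then (1 : ℝ) else 0)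
        ∂(law d ρ) := by
  unfold Tl
  refine integral_congr_ae (Eventually.of_forall fun η => ?_)
  refine pe_win19 hd β h η τ k _ _ fun s q => ?_
  have h1 : inc τ (τ + j) m (Fin.append s q) = inc 0 j m q := by
    unfold inc
    rw [pos_glue_add, pos_glue_le s q le_rfl, Walk_emb_add, pos_zero73, emb_zero73]
    congr 1
    abel
  show (if r < inc τ (τ + j) m (Fin.append s q) then (1 : ℝ) else 0) =
    if r < inc 0 j m q then (1 : ℝ) else 0
  rw [h1]

lemma int_bd19 [IsProbabilityMeasure ρ] {F : Env d → ℝ} (hF : Measurable F) {B : ℝ}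
    (hB : ∀ η, |F η| ≤ B) : Integrable F (law d ρ) :=
  Integrable.of_bound hF.aestronglyMeasurable B (Eventually.of_forall hB)

open Classical in
/-- The windows behind `τ`, before the division by `c`. -/
theorem wiC19 [IsProbabilityMeasure ρ] (hd : 0 < d) (β : ℝ) (h h' e m m₀ : Vec d) (n τ t : ℕ)
    (c C r r₀ r' B B₀ V : ℝ) (hτt : τ < t) (htn : t ≤ n) (hc : 0 ≤ c) (hC : 0 ≤ C) (hr₀ : 1 ≤ r₀)
    (hr' : 0 < r') (hsep : 2 * r' ≤ |Ft ρ β h e n τ - Ft ρ β h' e n τ|)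
    (hB : Sm ρ β h e n τ (Ft ρ β h e n τ) ≤ B) (hB' : Sm ρ β h' e n τ (Ft ρ β h' e n τ) ≤ B)
    (hB₀ : ∫ η, pe β h η (fun s : Fin n → Step d => ‖emb (pos s τ) - m₀‖ ^ 2) ∂(law d ρ) ≤ B₀)
    (hV : ∫ η, ∑ y ∈ boxF d n, bw ρ β h h' n τ c C y η ^ 2 ∂(law d ρ) ≤ V) :
    c * Tl ρ β h n τ t m r ≤ c * (B₀ / r₀ ^ 2) + (c + C) * (B / r' ^ 2) +
      Real.sqrt (V * ((3 * r₀) ^ d * Tl ρ β h (n - τ) 0 (t - τ) m r)) := by
  obtain ⟨k, rfl⟩ : ∃ k, n = τ + k := ⟨n - τ, by omega⟩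
  obtain ⟨j, rfl⟩ : ∃ j, t = τ + j := ⟨t - τ, by omega⟩
  have hτn : τ ≤ τ + k := Nat.le_add_right _ _
  rw [Nat.add_sub_cancel_left, Nat.add_sub_cancel_left, Tl_win19 hd]
  set G : (Fin k → Step d) → ℝ := fun q => if r < inc 0 j m q then (1 : ℝ) else 0 with hG
  set g : Site d → Env d → ℝ := fun y η => pe β h (sh τ y η) G with hg
  set T : ℝ := Tl ρ β h k 0 j m r with hT
  set S : Set (ℕ × Site d) := (Pa d τ)ᶜ with hS
  set I : Finset (Site d) := boxF d (τ + k) with hI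
  have hr0 : 0 < r₀ := by linarith
  -- the functions `g y`
  have hG01 : ∀ q, 0 ≤ G q ∧ G q ≤ 1 := by
    intro q
    rw [hG]
    simp only
    split_ifs <;> norm_num
  have hgm : ∀ y, Measurable (g y) := fun y =>
    (measurable_pe31 β h G).comp (mp_sh (ρ := ρ) τ y).measurable
  have hg0 : ∀ y η, 0 ≤ g y η := by
    intro y η
    have := pe_mono31 hd β h (sh τ y η) (f := fun _ => (0 : ℝ)) (g := G) fun q => (hG01 q).1
    rwa [pe_const31 hd] at this
  have hg1 : ∀ y η, g y η ≤ 1 := by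
    intro y η
    have := pe_mono31 hd β h (sh τ y η) (f := G) (g := fun _ => (1 : ℝ)) fun q => (hG01 q).2
    rwa [pe_const31 hd] at this
  have hgi : ∀ y, ∫ η, g y η ∂(law d ρ) = T := by
    intro y
    exact integral_sh τ y (measurable_pe31 β h G)
  have hT0 : 0 ≤ T := by
    rw [← hgi 0]
    exact integral_nonneg fun η => hg0 0 η
  -- integrability
  have iQ : ∀ (f : Vec d) (y : Site d), Integrable (Qt β f (τ + k) τ y) (law d ρ) :=
    fun f y => int_Qt86 β f hτn y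
  have iQg : ∀ y, Integrable (fun η => Qt β h (τ + k) τ y η * g y η) (law d ρ) := fun y =>
    int_bd19 ((measurable_Qt39 β h _ τ y).mul (hgm y)) (B := 1) fun η => by
      rw [abs_mul, abs_of_nonneg (Qt_nonneg39 β h _ τ y η), abs_of_nonneg (hg0 y η)]
      exact mul_le_one₀ (Qt_le_one39 β h hτn y η) (hg0 y η) (hg1 y η)
  have mE : ∀ (f : Vec d) (y : Site d), Measurable (cE ρ S (Qt β f (τ + k) τ y)) := fun f y =>
    measurable_cE (measurable_Qt39 β f _ τ y) S
  have E0 : ∀ (f : Vec d) (y : Site d) (η : Env d), 0 ≤ cE ρ S (Qt β f (τ + k) τ y) η :=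
    fun f y η => cE_nonneg (fun η => Qt_nonneg39 β f _ τ y η) S η
  have E1 : ∀ (f : Vec d) (y : Site d) (η : Env d), cE ρ S (Qt β f (τ + k) τ y) η ≤ 1 :=
    fun f y η => cE_le (measurable_Qt39 β f _ τ y) (fun η => Qt_nonneg39 β f _ τ y η)
      (fun η => Qt_le_one39 β f hτn y η) S η
  have iE : ∀ (f : Vec d) (y : Site d), Integrable (cE ρ S (Qt β f (τ + k) τ y)) (law d ρ) :=
    fun f y => int_bd19 (mE f y) (B := 1) fun η => by
      rw [abs_of_nonneg (E0 f y η)]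
      exact E1 f y η
  have mab : ∀ y, Measurable (bw ρ β h h' (τ + k) τ c C y) := fun y =>
    bw_meas19 β h h' _ τ c C y
  have ab0 : ∀ y η, 0 ≤ bw ρ β h h' (τ + k) τ c C y η := fun y η => le_max_left _ _
  have abc : ∀ y η, bw ρ β h h' (τ + k) τ c C y η ≤ c := by
    intro y η
    unfold bw
    refine max_le hc ?_
    have h1 := mul_nonneg hC (E0 h' y η)
    have h2 := mul_le_mul_of_nonneg_left (E1 h y η) hc
    linarith
  have iab2 : ∀ y, Integrable (fun η => bw ρ β h h' (τ + k) τ c C y η ^ 2) (law d ρ) :=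
    fun y => int_bd19 ((mab y).pow_const 2) (B := c ^ 2) fun η => by
      rw [abs_of_nonneg (sq_nonneg _)]
      exact pow_le_pow_left₀ (ab0 y η) (abc y η) 2
  have iabg : ∀ y, Integrable (fun η => bw ρ β h h' (τ + k) τ c C y η * g y η) (law d ρ) :=
    fun y => int_bd19 ((mab y).mul (hgm y)) (B := c) fun η => by
      rw [abs_mul, abs_of_nonneg (ab0 y η), abs_of_nonneg (hg0 y η)]
      calc bw ρ β h h' (τ + k) τ c C y η * g y η ≤ c * 1 :=
            mul_le_mul (abc y η) (hg1 y η) (hg0 y η) hc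
        _ = c := mul_one c
  have ig2 : ∀ y, Integrable (fun η => g y η ^ 2) (law d ρ) := fun y =>
    int_bd19 ((hgm y).pow_const 2) (B := 1) fun η => by
      rw [abs_of_nonneg (sq_nonneg _)]
      exact pow_le_one₀ (hg0 y η) (hg1 y η)
  -- the three parts
  set F : ℝ := Ft ρ β h e (τ + k) τ with hF
  set F' : ℝ := Ft ρ β h' e (τ + k) τ with hF'
  set I₁ : Finset (Site d) := I.filter fun y => r₀ < ‖emb y - m₀‖ with hI₁
  set I₂ : Finset (Site d) := I.filter fun y => r' ≤ |inner ℝ e (emb y) - F| with hI₂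
  set I₃ : Finset (Site d) := I.filter fun y => ‖emb y - m₀‖ ≤ r₀ ∧
    |inner ℝ e (emb y) - F| < r' with hI₃
  have p1 : ∑ y ∈ I₁, ∫ η, Qt β h (τ + k) τ y η ∂(law d ρ) ≤ B₀ / r₀ ^ 2 := by
    rw [le_div_iff₀ (by positivity), ← integral_finsetSum _ fun y _ => iQ h y,
      ← integral_mul_const]
    have h1 : ∫ η, pe β h η (fun s : Fin (τ + k) → Step d => ‖emb (pos s τ) - m₀‖ ^ 2) ∂(law d ρ) =
        ∫ η, ∑ y ∈ I, Qt β h (τ + k) τ y η * ‖emb y - m₀‖ ^ 2 ∂(law d ρ) := by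
      refine integral_congr_ae (Eventually.of_forall fun η => ?_)
      exact pe_pos86 β h η hτn fun y => ‖emb y - m₀‖ ^ 2
    rw [h1] at hB₀
    refine le_trans (integral_mono ?_ ?_ fun η => ?_) hB₀
    · exact (integrable_finsetSum _ fun y _ => iQ h y).mul_const _
    · exact integrable_finsetSum _ fun y _ => (iQ h y).mul_const _
    · show (∑ y ∈ I₁, Qt β h (τ + k) τ y η) * r₀ ^ 2 ≤
        ∑ y ∈ I, Qt β h (τ + k) τ y η * ‖emb y - m₀‖ ^ 2
      rw [Finset.sum_mul]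
      refine (Finset.sum_le_sum fun y hy => ?_).trans
        (Finset.sum_le_sum_of_subset_of_nonneg (Finset.filter_subset _ _) fun y _ _ =>
          mul_nonneg (Qt_nonneg39 β h _ τ y η) (sq_nonneg _))
      exact mul_le_mul_of_nonneg_left (pow_le_pow_left₀ hr0.le (Finset.mem_filter.1 hy).2.le 2)
        (Qt_nonneg39 β h _ τ y η)
  have p2 : ∑ y ∈ I₂, ∫ η, Qt β h (τ + k) τ y η ∂(law d ρ) ≤ B / r' ^ 2 := by
    rw [← integral_finsetSum _ fun y _ => iQ h y]
    exact cheb86 β h e hτn hr' hB I₂ (Finset.filter_subset _ _) fun y hy =>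
      (Finset.mem_filter.1 hy).2
  have p3 : ∑ y ∈ I₃, ∫ η, Qt β h' (τ + k) τ y η ∂(law d ρ) ≤ B / r' ^ 2 := by
    rw [← integral_finsetSum _ fun y _ => iQ h' y]
    refine cheb86 β h' e hτn hr' hB' I₃ (Finset.filter_subset _ _) fun y hy => ?_
    have h1 := (Finset.mem_filter.1 hy).2.2
    have h2 : |F - F'| ≤ |inner ℝ e (emb y) - F| + |inner ℝ e (emb y) - F'| := by
      have h3 : F - F' = (inner ℝ e (emb y) - F') - (inner ℝ e (emb y) - F) := by ring
      rw [h3]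
      have := abs_sub (inner ℝ e (emb y) - F') (inner ℝ e (emb y) - F)
      linarith
    linarith
  -- Cauchy-Schwarz
  set a : ℝ := ∑ y ∈ I₃, ∫ η, bw ρ β h h' (τ + k) τ c C y η ^ 2 ∂(law d ρ) with ha
  set b : ℝ := ∑ y ∈ I₃, ∫ η, g y η ^ 2 ∂(law d ρ) with hb
  set sg : ℝ := ∑ y ∈ I₃, ∫ η, bw ρ β h h' (τ + k) τ c C y η * g y η ∂(law d ρ) with hsg
  have ha0 : 0 ≤ a := Finset.sum_nonneg fun y _ => integral_nonneg fun η => sq_nonneg _
  have hb0 : 0 ≤ b := Finset.sum_nonneg fun y _ => integral_nonneg fun η => sq_nonneg _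
  have haV : a ≤ V := by
    refine le_trans ?_ hV
    rw [integral_finsetSum _ fun y _ => iab2 y]
    exact Finset.sum_le_sum_of_subset_of_nonneg (Finset.filter_subset _ _) fun y _ _ =>
      integral_nonneg fun η => sq_nonneg _
  have hbT : b ≤ (3 * r₀) ^ d * T := by
    have h1 : b ≤ ∑ y ∈ I₃, T := by
      refine Finset.sum_le_sum fun y _ => ?_
      rw [← hgi y]
      refine integral_mono (ig2 y) ((int_bd19 (hgm y) (B := 1)) fun η => by
        rw [abs_of_nonneg (hg0 y η)]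
        exact hg1 y η) fun η => ?_
      show g y η ^ 2 ≤ g y η
      nlinarith [hg0 y η, hg1 y η]
    rw [Finset.sum_const, nsmul_eq_mul] at h1
    have h2 : ((I₃.card : ℕ) : ℝ) ≤ (3 * r₀) ^ d := by
      have h3 : I₃ ⊆ ballW m₀ r₀ := fun y hy => mem_ballW (Finset.mem_filter.1 hy).2.1
      calc ((I₃.card : ℕ) : ℝ) ≤ ((ballW m₀ r₀).card : ℝ) := by
            exact_mod_cast Finset.card_le_card h3
        _ ≤ (2 * r₀ + 1) ^ d := card_ballW _ hr0.le
        _ ≤ (3 * r₀) ^ d := pow_le_pow_left₀ (by linarith) (by linarith) d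
    exact h1.trans (mul_le_mul_of_nonneg_right h2 hT0)
  have hCS : sg ^ 2 ≤ a * b := by
    have h1 : ∀ x : ℝ, 0 ≤ a * (x * x) + (-(2 * sg)) * x + b := by
      intro x
      have h2 : 0 ≤ ∑ y ∈ I₃, ∫ η, (x * bw ρ β h h' (τ + k) τ c C y η - g y η) ^ 2
          ∂(law d ρ) := Finset.sum_nonneg fun y _ => integral_nonneg fun η => sq_nonneg _
      have h3 : ∑ y ∈ I₃, ∫ η, (x * bw ρ β h h' (τ + k) τ c C y η - g y η) ^ 2 ∂(law d ρ) =
          a * (x * x) + (-(2 * sg)) * x + b := by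
        rw [ha, hb, hsg, Finset.sum_mul, Finset.mul_sum, ← Finset.sum_neg_distrib,
          Finset.sum_mul, ← Finset.sum_add_distrib, ← Finset.sum_add_distrib]
        refine Finset.sum_congr rfl fun y _ => ?_
        have h4 : (fun η => (x * bw ρ β h h' (τ + k) τ c C y η - g y η) ^ 2) = fun η =>
            (x * x) * bw ρ β h h' (τ + k) τ c C y η ^ 2 -
              (2 * x) * (bw ρ β h h' (τ + k) τ c C y η * g y η) + g y η ^ 2 := by
          funext η
          ring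
        have i5 : Integrable (fun η => (x * x) * bw ρ β h h' (τ + k) τ c C y η ^ 2 -
            (2 * x) * (bw ρ β h h' (τ + k) τ c C y η * g y η)) (law d ρ) :=
          ((iab2 y).const_mul (x * x)).sub ((iabg y).const_mul (2 * x))
        rw [h4, integral_add i5 (ig2 y), integral_sub ((iab2 y).const_mul (x * x))
          ((iabg y).const_mul (2 * x)), integral_const_mul, integral_const_mul]
        ring
      rw [← h3]
      exact h2
    have h5 := discrim_le_zero h1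
    unfold discrim at h5
    nlinarith
  have hsgle : sg ≤ Real.sqrt (V * ((3 * r₀) ^ d * T)) := by
    refine Real.le_sqrt_of_sq_le (hCS.trans ?_)
    exact mul_le_mul haV hbT hb0 (ha0.trans haV)
  -- the sites of the third part
  have q3 : ∑ y ∈ I₃, c * ∫ η, Qt β h (τ + k) τ y η * g y η ∂(law d ρ) ≤
      sg + C * (B / r' ^ 2) := by
    have h1 : ∀ y ∈ I₃, c * ∫ η, Qt β h (τ + k) τ y η * g y η ∂(law d ρ) ≤
        (∫ η, bw ρ β h h' (τ + k) τ c C y η * g y η ∂(law d ρ)) +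
          C * ∫ η, Qt β h' (τ + k) τ y η ∂(law d ρ) := by
      intro y _
      rw [int_mul_cE S (iQg y) (dep_pe19 β h τ k y G)]
      have h2 : ∫ η, Qt β h' (τ + k) τ y η ∂(law d ρ) =
          ∫ η, cE ρ S (Qt β h' (τ + k) τ y) η ∂(law d ρ) := by
        have h3 := int_mul_cE (ρ := ρ) S (F := Qt β h' (τ + k) τ y) (H := fun _ => (1 : ℝ))
          (by simpa using iQ h' y) (fun _ _ _ => rfl)
        simpa using h3
      rw [h2, ← integral_const_mul, ← integral_const_mul, ← integral_add (iabg y)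
        ((iE h' y).const_mul C)]
      refine integral_mono ?_ ((iabg y).add ((iE h' y).const_mul C)) fun η => ?_
      · refine (int_bd19 ((mE h y).mul (hgm y)) (B := 1) fun η => ?_).const_mul c
        show |cE ρ S (Qt β h (τ + k) τ y) η * g y η| ≤ 1
        rw [abs_mul, abs_of_nonneg (E0 h y η), abs_of_nonneg (hg0 y η)]
        exact mul_le_one₀ (E1 h y η) (hg0 y η) (hg1 y η)
      · show c * (cE ρ S (Qt β h (τ + k) τ y) η * g y η) ≤
          bw ρ β h h' (τ + k) τ c C y η * g y η + C * cE ρ S (Qt β h' (τ + k) τ y) η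
        have h4 : c * cE ρ S (Qt β h (τ + k) τ y) η - C * cE ρ S (Qt β h' (τ + k) τ y) η ≤
            bw ρ β h h' (τ + k) τ c C y η := le_max_right _ _
        have h5 := mul_le_mul_of_nonneg_right h4 (hg0 y η)
        have h6 := mul_le_mul_of_nonneg_left (hg1 y η) (mul_nonneg hC (E0 h' y η))
        nlinarith
    refine (Finset.sum_le_sum h1).trans ?_
    rw [Finset.sum_add_distrib, ← Finset.mul_sum]
    have := mul_le_mul_of_nonneg_left p3 hC
    linarith
  -- the sum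
  rw [integral_finsetSum _ fun y _ => iQg y, Finset.mul_sum]
  have hsplit : ∑ y ∈ I, c * ∫ η, Qt β h (τ + k) τ y η * g y η ∂(law d ρ) ≤
      ∑ y ∈ I₁, c * ∫ η, Qt β h (τ + k) τ y η ∂(law d ρ) +
        ∑ y ∈ I₂, c * ∫ η, Qt β h (τ + k) τ y η ∂(law d ρ) +
          ∑ y ∈ I₃, c * ∫ η, Qt β h (τ + k) τ y η * g y η ∂(law d ρ) := by
    rw [hI₁, hI₂, hI₃, Finset.sum_filter, Finset.sum_filter, Finset.sum_filter,
      ← Finset.sum_add_distrib, ← Finset.sum_add_distrib]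
    refine Finset.sum_le_sum fun y _ => ?_
    have h1 : 0 ≤ c * ∫ η, Qt β h (τ + k) τ y η ∂(law d ρ) :=
      mul_nonneg hc (integral_nonneg fun η => Qt_nonneg39 β h _ τ y η)
    have h2 : c * ∫ η, Qt β h (τ + k) τ y η * g y η ∂(law d ρ) ≤
        c * ∫ η, Qt β h (τ + k) τ y η ∂(law d ρ) := by
      refine mul_le_mul_of_nonneg_left (integral_mono (iQg y) (iQ h y) fun η => ?_) hc
      exact mul_le_of_le_one_right (Qt_nonneg39 β h _ τ y η) (hg1 y η)
    have h3 : 0 ≤ c * ∫ η, Qt β h (τ + k) τ y η * g y η ∂(law d ρ) :=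
      mul_nonneg hc (integral_nonneg fun η => mul_nonneg (Qt_nonneg39 β h _ τ y η) (hg0 y η))
    by_cases c1 : r₀ < ‖emb y - m₀‖
    · rw [if_pos c1]
      split_ifs <;> linarith
    · rw [if_neg c1]
      by_cases c2 : r' ≤ |inner ℝ e (emb y) - F|
      · rw [if_pos c2]
        split_ifs <;> linarith
      · rw [if_neg c2, if_pos ⟨not_lt.1 c1, not_le.1 c2⟩]
        linarith
  have p1' := mul_le_mul_of_nonneg_left p1 hc
  have p2' := mul_le_mul_of_nonneg_left p2 hc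
  have e1 : ∑ y ∈ I₁, c * ∫ η, Qt β h (τ + k) τ y η ∂(law d ρ) =
      c * ∑ y ∈ I₁, ∫ η, Qt β h (τ + k) τ y η ∂(law d ρ) := (Finset.mul_sum _ _ _).symm
  have e2 : ∑ y ∈ I₂, c * ∫ η, Qt β h (τ + k) τ y η ∂(law d ρ) =
      c * ∑ y ∈ I₂, ∫ η, Qt β h (τ + k) τ y η ∂(law d ρ) := (Finset.mul_sum _ _ _).symm
  have e3 : (c + C) * (B / r' ^ 2) = c * (B / r' ^ 2) + C * (B / r' ^ 2) := by ring
  rw [e3]
  linarith

/-- Leaf O2. -/
theorem wiT19 [IsProbabilityMeasure ρ] (hd : 0 < d) (β : ℝ) : WiT d ρ β := by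
  intro h h' e n τ t m M c C r r₁ L B B' _ _ hτt htn hc hC _ hr₁ hL hsep hB hB' hM
  have h1 := wiC19 hd β h h' e m M n τ t c C r L r₁ B B'
    (∫ η, ∑ y ∈ boxF d n, bw ρ β h h' n τ c C y η ^ 2 ∂(law d ρ)) hτt htn hc.le hC hL hr₁ hsep
    hB hB' hM le_rfl
  have h2 : B' / L ^ 2 + (1 + C / c) * (B / r₁ ^ 2) +
      1 / c * Real.sqrt ((∫ η, ∑ y ∈ boxF d n, bw ρ β h h' n τ c C y η ^ 2 ∂(law d ρ)) *
        ((3 * L) ^ d * Tl ρ β h (n - τ) 0 (t - τ) m r)) =
      (c * (B' / L ^ 2) + (c + C) * (B / r₁ ^ 2) +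
        Real.sqrt ((∫ η, ∑ y ∈ boxF d n, bw ρ β h h' n τ c C y η ^ 2 ∂(law d ρ)) *
          ((3 * L) ^ d * Tl ρ β h (n - τ) 0 (t - τ) m r))) / c := by
    field_simp
  rw [h2, le_div_iff₀ hc, mul_comm]
  exact h1

end Pool.Agent.W_7d29a1_S90
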