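import Pool.Agent.W_7d29a1_S90.MainO45
import Pool.Agent.W_7d29a1_S90.Sup45
import Pool.Agent.W_7d29a1_S90.SeT45
import Pool.Agent.W_7d29a1_S90.AsO85
import Pool.Agent.W_7d29a1_S90.InO99
import Pool.Agent.W_7d29a1_S90.RlV19
import Pool.Agent.W_7d29a1_S90.WiT19
import Pool.Agent.W_7d29a1_S90.CsO54

/-!
Theorem ORI, law level, without hypotheses.
-/

namespace Pool.Agent.W_7d29a1_S90

open MeasureTheory ProbabilityTheory Filter Topology Pool.Agent.W_MP_7d29a1_pr
  Pool.Agent.W_7d29a1_h46 Pool.Agent.W_7d29a1_h46u Pool.Agent.W_7d29a1_D2.B35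
  Pool.Agent.W_7d29a1_Q29

/-- In dimension two, on a segment of tilts on which the free energy is not affine, for every large
`N` not all initial windows `[0, t]`, `N ^ α ≤ t ≤ n ≤ N`, of the polymers of length `n` are
diffusive, even up to the factor `(log N) ^ (1 / 80)`. -/
theorem ori45 {ρ : Measure ℝ} [IsProbabilityMeasure ρ] (hρ : EM ρ) (hnc : ∀ c : ℝ, ρ {c} ≠ 1)
    {β : ℝ} (hβ : 0 < β) : MainO ρ β := by
  obtain ⟨hLo, hSt, hVu, hCa, hKc, -, hKs, hCs, -, hDr, hJe⟩ :=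
    leaves90 (d := 2) (by norm_num) hρ hnc hβ
  exact mainO45 hCa hCs (csO54 (by norm_num) β) hKc (hKs (kmT71 (by norm_num) β))
    (inO99 hβ (inT90 (by norm_num) hρ hnc hβ) (enZ58 (by norm_num) β) (dlT63 (by norm_num) hρ hβ))
    hLo (rlV19 (by norm_num) hρ hnc hβ (siU98 (by norm_num) hρ hβ)) (wiT19 (by norm_num) β) hSt hVu
    hDr hJe asO85 seT45

end Pool.Agent.W_7d29a1_S90
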