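import Pool.Agent.W_7d29a1_S90.RpT73
import Pool.Agent.W_7d29a1_S90.VuT31
import Pool.Agent.W_7d29a1_Q29.Fin29

/-!
If the mean square distance of the end point of the polymer from `n v` is `o(n ^ 2)` along a
sequence of lengths then `v` is a slope of the free energy. The transfer of polymer means to an
arbitrary i.i.d. environment.
-/

namespace Pool.Agent.W_7d29a1_S90

open MeasureTheory ProbabilityTheory Filter Topology Pool.Agent.W_MP_7d29a1_pr
  Pool.Agent.W_7d29a1_h46 Pool.Agent.W_7d29a1_h46u Pool.Agent.W_7d29a1_D2.B35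
  Pool.Agent.W_7d29a1_Q29

section G

variable {d : ℕ} {ρ : Measure ℝ}

/-- The mean free energy at two tilts. -/
lemma slo_a52 [IsProbabilityMeasure ρ] (hd : 0 < d) (hρ : EM ρ) (β : ℝ) (h v e : Vec d) (n : ℕ)
    {a : ℝ} (ha : 0 < a) : A ρ β h n + n * inner ℝ e v - ‖e‖ * (a + (∫ η, pe β h η
      (fun s : Fin n → Step d => ‖emb (pos s n) - (n : ℝ) • v‖ ^ 2) ∂(law d ρ)) / (4 * a)) ≤
        A ρ β (h + e) n := by
  set g : (Fin n → Step d) → ℝ := fun s => ‖emb (pos s n) - (n : ℝ) • v‖ ^ 2 with hg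
  have h1 : ∀ η : Env d, X β h η n + (n * inner ℝ e v - ‖e‖ * (a + pe β h η g / (4 * a))) ≤
      X β (h + e) η n := by
    intro η
    have h2 := X_tilt31 hd β h e η n 1
    rw [one_smul, one_mul] at h2
    have h3 : n * inner ℝ e v - ‖e‖ * (a + pe β h η g / (4 * a)) ≤
        pe β h η (fun s : Fin n → Step d => inner ℝ e (emb (pos s n))) := by
      have h4 : pe β h η (fun s : Fin n → Step d => (n * inner ℝ e v - ‖e‖ * a) +
          -(‖e‖ / (4 * a)) * g s) = n * inner ℝ e v - ‖e‖ * (a + pe β h η g / (4 * a)) := by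
        rw [pe_add73, pe_mul73, pe_const73 hd]
        ring
      rw [← h4]
      refine pe_mono73 hd β h η fun s => ?_
      have h5 : |inner ℝ e (emb (pos s n) - (n : ℝ) • v)| ≤
          ‖e‖ * ‖emb (pos s n) - (n : ℝ) • v‖ := abs_real_inner_le_norm _ _
      rw [inner_sub_right, inner_smul_right] at h5
      have h6 := (abs_le.1 h5).1
      have h7 : ‖emb (pos s n) - (n : ℝ) • v‖ ≤ a + g s / (4 * a) := by
        have h8 : g s / (4 * a) = ‖emb (pos s n) - (n : ℝ) • v‖ ^ 2 / (4 * a) := rfl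
        rw [h8]
        have h9 : a + ‖emb (pos s n) - (n : ℝ) • v‖ ^ 2 / (4 * a) -
            ‖emb (pos s n) - (n : ℝ) • v‖ =
            (2 * a - ‖emb (pos s n) - (n : ℝ) • v‖) ^ 2 / (4 * a) := by
          field_simp
          ring
        have h10 : 0 ≤ (2 * a - ‖emb (pos s n) - (n : ℝ) • v‖) ^ 2 / (4 * a) := by positivity
        linarith
      have h8 : ‖e‖ * ‖emb (pos s n) - (n : ℝ) • v‖ ≤ ‖e‖ * (a + g s / (4 * a)) :=
        mul_le_mul_of_nonneg_left h7 (norm_nonneg _)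
      have h9 : ‖e‖ * (a + g s / (4 * a)) = ‖e‖ * a + ‖e‖ / (4 * a) * g s := by ring
      linarith
    linarith
  have hi := integrable_pe_fun73 (ρ := ρ) hd β h g
  have i1 := (concU hd hρ β h n).1
  have i2 := (concU hd hρ β (h + e) n).1
  have i4 : Integrable (fun η : Env d => a + pe β h η g / (4 * a)) (law d ρ) :=
    (integrable_const _).add (hi.div_const _)
  have i5 : Integrable (fun η : Env d => ‖e‖ * (a + pe β h η g / (4 * a))) (law d ρ) :=
    i4.const_mul _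
  have i3 : Integrable (fun η : Env d => n * inner ℝ e v - ‖e‖ * (a + pe β h η g / (4 * a)))
      (law d ρ) := (integrable_const _).sub i5
  have h2 := integral_mono (i1.add i3) i2 h1
  have h3 : ∫ η, (X β h η n + (n * inner ℝ e v - ‖e‖ * (a + pe β h η g / (4 * a)))) ∂(law d ρ) =
      A ρ β h n + (n * inner ℝ e v - ‖e‖ * (a + (∫ η, pe β h η g ∂(law d ρ)) / (4 * a))) := by
    have e1 : ∫ η, ‖e‖ * (a + pe β h η g / (4 * a)) ∂(law d ρ) =
        ‖e‖ * (a + (∫ η, pe β h η g ∂(law d ρ)) / (4 * a)) := by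
      rw [integral_const_mul, integral_add (integrable_const _) (hi.div_const _), integral_div]
      simp
    rw [integral_add i1 i3, integral_sub (integrable_const _) i5, e1]
    simp only [integral_const, probReal_univ, smul_eq_mul, one_mul]
    rfl
  have h4 : ∫ η, (X β h η n + (n * inner ℝ e v - ‖e‖ * (a + pe β h η g / (4 * a)))) ∂(law d ρ) ≤
      A ρ β (h + e) n := h2
  rw [h3] at h4
  linarith

/-- Mean square `o(n ^ 2)` around `n v` along a sequence makes `v` a slope. -/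
theorem slo52 [IsProbabilityMeasure ρ] (hd : 0 < d) (hρ : EM ρ) (β : ℝ) {h v : Vec d} {φ : ℕ → ℝ}
    (hφ : Tendsto (fun n : ℕ => φ n / (n : ℝ) ^ 2) atTop (𝓝 0))
    (hf : ∃ᶠ n : ℕ in atTop, ∫ η, pe β h η (fun s : Fin n → Step d =>
      ‖emb (pos s n) - (n : ℝ) • v‖ ^ 2) ∂(law d ρ) ≤ φ n) (w : Vec d) :
    lam ρ β h + inner ℝ v (w - h) ≤ lam ρ β w := by
  by_contra hcon
  push Not at hcon
  obtain ⟨e, he⟩ : ∃ e : Vec d, e = w - h := ⟨_, rfl⟩
  have hw : w = h + e := by rw [he, add_sub_cancel]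
  rw [← he, hw, real_inner_comm] at hcon
  obtain ⟨γ, hγ⟩ : ∃ γ : ℝ, γ = lam ρ β h + inner ℝ e v - lam ρ β (h + e) := ⟨_, rfl⟩
  have hγ0 : 0 < γ := by linarith
  obtain ⟨ε, hε⟩ : ∃ ε : ℝ, ε = γ / (8 * (‖e‖ + 1)) := ⟨_, rfl⟩
  have hε0 : 0 < ε := by rw [hε]; positivity
  have hεe : ‖e‖ * ε ≤ γ / 8 := by
    rw [hε]
    have h1 : ‖e‖ * (γ / (8 * (‖e‖ + 1))) = γ / 8 * (‖e‖ / (‖e‖ + 1)) := by
      field_simp
    rw [h1]
    have h2 : ‖e‖ / (‖e‖ + 1) ≤ 1 := by
      rw [div_le_one (by positivity)]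
      linarith
    calc γ / 8 * (‖e‖ / (‖e‖ + 1)) ≤ γ / 8 * 1 := mul_le_mul_of_nonneg_left h2 (by positivity)
      _ = γ / 8 := mul_one _
  have t1 := (tendsto_A hd hρ β h).eventually_const_lt (show lam ρ β h - γ / 4 < lam ρ β h by
    linarith)
  have t2 := (tendsto_A hd hρ β (h + e)).eventually_lt_const
    (show lam ρ β (h + e) < lam ρ β (h + e) + γ / 4 by linarith)
  have t3 := hφ.eventually_lt_const (show (0 : ℝ) < 4 * ε ^ 2 by positivity)
  obtain ⟨n, hn, h1, h2, h3, h4⟩ := (hf.and_eventually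
    (t1.and (t2.and (t3.and (eventually_ge_atTop 1))))).exists
  have hn0 : (0 : ℝ) < n := by exact_mod_cast h4
  have h5 := slo_a52 hd hρ β h v e n (a := ε * n) (by positivity)
  rw [lt_div_iff₀ hn0] at h1
  rw [div_lt_iff₀ hn0] at h2
  rw [div_lt_iff₀ (by positivity)] at h3
  have h6 : (∫ η, pe β h η (fun s : Fin n → Step d =>
      ‖emb (pos s n) - (n : ℝ) • v‖ ^ 2) ∂(law d ρ)) / (4 * (ε * n)) ≤ ε * n := by
    rw [div_le_iff₀ (by positivity)]
    refine hn.trans (h3.le.trans (le_of_eq ?_))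
    ring
  have h7 : ‖e‖ * (ε * n + (∫ η, pe β h η (fun s : Fin n → Step d =>
      ‖emb (pos s n) - (n : ℝ) • v‖ ^ 2) ∂(law d ρ)) / (4 * (ε * n))) ≤ γ / 4 * n := by
    calc ‖e‖ * (ε * n + (∫ η, pe β h η (fun s : Fin n → Step d =>
        ‖emb (pos s n) - (n : ℝ) • v‖ ^ 2) ∂(law d ρ)) / (4 * (ε * n)))
        ≤ ‖e‖ * (ε * n + ε * n) := mul_le_mul_of_nonneg_left (by linarith) (norm_nonneg _)
      _ = 2 * (‖e‖ * ε) * n := by ring
      _ ≤ 2 * (γ / 8) * n := by gcongr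
      _ = γ / 4 * n := by ring
  have h8 : (lam ρ β h - γ / 4) * n + n * inner ℝ e v - γ / 4 * n <
      (lam ρ β (h + e) + γ / 4) * n := by linarith
  have h9 : γ * n = (lam ρ β h + inner ℝ e v - lam ρ β (h + e)) * n := by rw [← hγ]
  nlinarith

end G

section Prob

variable {Ω : Type*} [MeasurableSpace Ω] {μ : Measure Ω} [IsProbabilityMeasure μ] {d n : ℕ}
  {ρ : Measure ℝ} [IsProbabilityMeasure ρ] {ω : ℕ × Site d → Ω → ℝ}

/-- Polymer means, for an arbitrary i.i.d. environment. -/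
lemma probf52 (hω : IID μ ρ ω) (β : ℝ) (h : Vec d) (f : (Fin n → Step d) → ℝ) :
    ∫ x, ∑ s : Fin n → Step d, PolT β h (fun p => ω p x) {s} * f s ∂μ =
      ∫ η, pe β h η f ∂(law d ρ) := by
  rw [← StrA_int hω (measurable_pe73 β h (f := fun _ s => f s) fun s => measurable_const)]
  refine integral_congr_ae (Eventually.of_forall fun x => ?_)
  beta_reduce
  unfold pe
  rw [Finset.sum_div]
  refine Finset.sum_congr rfl fun s _ => ?_
  have h1 : PolT β h (fun p => ω p x) {s} =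
      wgt β h (fun p => ω p x) s / Z β h (fun p => ω p x) n := by
    unfold PolT Z
    congr 1
    unfold ZT
    simp
  rw [h1]
  ring

end Prob

end Pool.Agent.W_7d29a1_S90
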