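import Pool.Agent.W_7d29a1_S90.Top52
import Pool.Agent.W_7d29a1_S90.Slo52
import Pool.Agent.W_7d29a1_S90.Ori45

/-!
Theorem ORI: superdiffusivity from the origin in dimension two, for all open sets of tilts, for a
residual set of tilts and for an arbitrary i.i.d. environment.
-/

namespace Pool.Agent.W_7d29a1_S90

open MeasureTheory ProbabilityTheory Filter Topology Pool.Agent.W_MP_7d29a1_pr
  Pool.Agent.W_7d29a1_h46 Pool.Agent.W_7d29a1_h46u Pool.Agent.W_7d29a1_D2.B35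
  Pool.Agent.W_7d29a1_Q29

/-- At some time `t ≥ n ^ α` the polymer of length `n` is not diffusive with the constant `R`. -/
def Wf52 {d : ℕ} (ρ : Measure ℝ) (β : ℝ) (h : Vec d) (n : ℕ) (α R : ℝ) : Prop :=
  ∃ t : ℕ, 1 ≤ t ∧ t ≤ n ∧ (n : ℝ) ^ α ≤ t ∧ ∀ m : Vec d, R * (t : ℝ) <
    ∫ η, pe β h η (fun s : Fin n → Step d => ‖emb (pos s t) - m‖ ^ 2) ∂(law d ρ)

section G

variable {d : ℕ} {ρ : Measure ℝ}

lemma inc_zero52 {n : ℕ} (t : ℕ) (m : Vec d) :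
    (fun s : Fin n → Step d => inc 0 t m s ^ 2) = fun s => ‖emb (pos s t) - m‖ ^ 2 := by
  funext s
  unfold inc
  rw [pos_zero73, emb_zero73, sub_zero]

lemma openO52 [IsProbabilityMeasure ρ] (hd : 0 < d) (β : ℝ) (n : ℕ) (α R : ℝ) :
    IsOpen {h : Vec d | Wf52 ρ β h n α R} := by
  have h1 : {h : Vec d | Wf52 ρ β h n α R} = ⋃ (t : ℕ)
      (_ : 1 ≤ t ∧ t ≤ n ∧ (n : ℝ) ^ α ≤ (t : ℝ)),
        {h : Vec d | R * (t : ℝ) < vA52 ρ β h n 0 t} := by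
    ext h
    simp only [Set.mem_setOf_eq, Set.mem_iUnion, exists_prop]
    unfold Wf52
    simp only [← inc_zero52, forall_iff52 hd]
    constructor
    · rintro ⟨t, h1, h2, h3, h4⟩
      exact ⟨t, ⟨h1, h2, h3⟩, h4⟩
    · rintro ⟨t, ⟨h1, h2, h3⟩, h4⟩
      exact ⟨t, h1, h2, h3, h4⟩
  rw [h1]
  exact isOpen_iUnion fun t => isOpen_iUnion fun _ =>
    isOpen_lt continuous_const (cont_vA52 hd β n 0 t)

end G

section Two

variable {ρ : Measure ℝ} [IsProbabilityMeasure ρ] {β : ℝ}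

/-- Every open set of tilts, all large `N`. -/
theorem oriA52 (hρ : EM ρ) (hnc : ∀ c, ρ {c} ≠ 1) (hβ : 0 < β)
    {U : Set (Vec 2)} (hU : IsOpen U) (hne : U.Nonempty) {α : ℝ} (hα : α < 1) :
    ∀ᶠ N : ℕ in atTop, ∃ h ∈ U, ∃ n t : ℕ, 1 ≤ t ∧ t ≤ n ∧ n ≤ N ∧ (N : ℝ) ^ α ≤ t ∧
      ∀ m : Vec 2, Real.log N ^ ((1 : ℝ) / 80) * (t : ℝ) <
        ∫ η, pe β h η (fun s : Fin n → Step 2 => ‖emb (pos s t) - m‖ ^ 2) ∂(law 2 ρ) := by
  obtain ⟨h, e, l, he, hl, hs, hlt⟩ := seg52 two_pos hρ hnc hβ hU hne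
  obtain ⟨N₀, hN⟩ := ori45 hρ hnc hβ h e l α he hl hα hlt
  filter_upwards [eventually_ge_atTop N₀] with N hN0
  obtain ⟨s, hs', hW⟩ := hN N hN0
  refine ⟨h + s • e, hs s hs', ?_⟩
  unfold W0 at hW
  push Not at hW
  obtain ⟨n, t, h1, h2, h3, h4, h5⟩ := hW
  exact ⟨n, t, h1, h2, h3, h4, h5⟩

/-- Infinitely many lengths in the open sets. -/
theorem oriB52 (hρ : EM ρ) (hnc : ∀ c, ρ {c} ≠ 1) (hβ : 0 < β)
    {U : Set (Vec 2)} (hU : IsOpen U) (hne : U.Nonempty) {α : ℝ} (hα : α < 1) (N₁ : ℕ) :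
    ∃ h ∈ U, ∃ n : ℕ, N₁ ≤ n ∧ 1 ≤ n ∧ Wf52 ρ β h n α (Real.log n ^ ((1 : ℝ) / 80)) := by
  obtain ⟨α', hα'⟩ : ∃ α' : ℝ, α' = max α (1 / 2) := ⟨_, rfl⟩
  have ha1 : α ≤ α' := by rw [hα']; exact le_max_left _ _
  have ha2 : 1 / 2 ≤ α' := by rw [hα']; exact le_max_right _ _
  have ha3 : α' < 1 := by rw [hα']; exact max_lt hα (by norm_num)
  obtain ⟨N, ⟨h, hh, n, t, h1, h2, h3, h4, h5⟩, hN⟩ :=
    ((oriA52 hρ hnc hβ hU hne ha3).and (eventually_ge_atTop (max (N₁ ^ 2) 1))).exists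
  have hN1 : (1 : ℝ) ≤ N := by exact_mod_cast (le_max_right _ _).trans hN
  have hN2 : N₁ ^ 2 ≤ N := (le_max_left _ _).trans hN
  have hn1 : 1 ≤ n := h1.trans h2
  have hn1' : (1 : ℝ) ≤ n := by exact_mod_cast hn1
  have hnN : (n : ℝ) ≤ N := by exact_mod_cast h3
  have htn : (t : ℝ) ≤ n := by exact_mod_cast h2
  have h6 : (N₁ : ℝ) ≤ n := by
    calc (N₁ : ℝ) ≤ Real.sqrt N := by
          refine Real.le_sqrt_of_sq_le ?_
          exact_mod_cast hN2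
      _ = (N : ℝ) ^ ((1 : ℝ) / 2) := Real.sqrt_eq_rpow _
      _ ≤ (N : ℝ) ^ α' := Real.rpow_le_rpow_of_exponent_le hN1 ha2
      _ ≤ t := h4
      _ ≤ n := htn
  refine ⟨h, hh, n, by exact_mod_cast h6, hn1, t, h1, h2, ?_, fun m => ?_⟩
  · calc (n : ℝ) ^ α ≤ (n : ℝ) ^ α' := Real.rpow_le_rpow_of_exponent_le hn1' ha1
      _ ≤ (N : ℝ) ^ α' := Real.rpow_le_rpow (by linarith) hnN (by linarith)
      _ ≤ t := h4
  · refine lt_of_le_of_lt ?_ (h5 m)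
    refine mul_le_mul_of_nonneg_right ?_ (Nat.cast_nonneg t)
    exact Real.rpow_le_rpow (Real.log_nonneg hn1') (Real.log_le_log (by linarith) hnN)
      (by norm_num)

/-- A residual set of tilts. -/
theorem oriR52 (hρ : EM ρ) (hnc : ∀ c, ρ {c} ≠ 1) (hβ : 0 < β) :
    ∀ᶠ h : Vec 2 in residual (Vec 2), ∀ α : ℝ, α < 1 → ∃ᶠ n : ℕ in atTop,
      Wf52 ρ β h n α (Real.log n ^ ((1 : ℝ) / 80)) := by
  have h1 : ∀ k N : ℕ, (⋃ n ∈ Set.Ici (max N 1), {h : Vec 2 |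
      Wf52 ρ β h n (1 - 1 / ((k : ℝ) + 1)) (Real.log n ^ ((1 : ℝ) / 80))}) ∈
        residual (Vec 2) := by
    intro k N
    refine residual_of_dense_open (isOpen_biUnion fun n _ => openO52 two_pos β n _ _) ?_
    rw [dense_iff_inter_open]
    intro U hU hne
    obtain ⟨h, hhU, n, hn, _, hW⟩ := oriB52 hρ hnc hβ hU hne (α := 1 - 1 / ((k : ℝ) + 1))
      (by have : (0 : ℝ) < 1 / ((k : ℝ) + 1) := by positivity
          linarith) (max N 1)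
    exact ⟨h, hhU, Set.mem_biUnion (Set.mem_Ici.2 hn) hW⟩
  have h2 : (⋂ (k : ℕ) (N : ℕ), ⋃ n ∈ Set.Ici (max N 1), {h : Vec 2 |
      Wf52 ρ β h n (1 - 1 / ((k : ℝ) + 1)) (Real.log n ^ ((1 : ℝ) / 80))}) ∈
        residual (Vec 2) :=
    countable_iInter_mem.2 fun k => countable_iInter_mem.2 fun N => h1 k N
  filter_upwards [h2] with h hh α hα
  obtain ⟨k, hk⟩ := exists_nat_one_div_lt (show (0 : ℝ) < 1 - α by linarith)
  rw [Filter.frequently_atTop]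
  intro N
  have h3 := Set.mem_iInter.1 (Set.mem_iInter.1 hh k) N
  obtain ⟨n, hn, hW⟩ := Set.mem_iUnion₂.1 h3
  have hn' : max N 1 ≤ n := hn
  have hn1 : (1 : ℝ) ≤ n := by exact_mod_cast (le_max_right N 1).trans hn'
  obtain ⟨t, h4, h5, h6, h7⟩ := hW
  refine ⟨n, (le_max_left _ _).trans hn', t, h4, h5, le_trans ?_ h6, h7⟩
  exact Real.rpow_le_rpow_of_exponent_le hn1 (by linarith)

end Two

section Prob

variable {Ω : Type*} [MeasurableSpace Ω] {μ : Measure Ω} [IsProbabilityMeasure μ] {d : ℕ}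
  {ρ : Measure ℝ} [IsProbabilityMeasure ρ] {ω : ℕ × Site d → Ω → ℝ} {β : ℝ}

/-- **Superdiffusivity from the origin in dimension two**, in the letters of the problem. -/
theorem topO52 (hω : IID μ ρ ω) (hρ : EM ρ) (hnc : ∀ c, ρ {c} ≠ 1) (hβ : 0 < β) (hd : d = 2) :
    (∀ U : Set (Vec d), IsOpen U → U.Nonempty → ∀ α : ℝ, α < 1 → ∀ᶠ N : ℕ in atTop,
      ∃ h ∈ U, ∃ n t : ℕ, 1 ≤ t ∧ t ≤ n ∧ n ≤ N ∧ (N : ℝ) ^ α ≤ t ∧
        ∀ m : Vec d, Real.log N ^ ((1 : ℝ) / 80) * t <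
          ∫ x, ∑ s : Fin n → Step d, PolT β h (fun p => ω p x) {s} *
            ‖emb (pos s t) - m‖ ^ 2 ∂μ) ∧
    ∀ᶠ h : Vec d in residual (Vec d), ∀ α : ℝ, α < 1 → ∃ᶠ n : ℕ in atTop,
      ∃ t : ℕ, 1 ≤ t ∧ t ≤ n ∧ (n : ℝ) ^ α ≤ t ∧
        ∀ m : Vec d, Real.log n ^ ((1 : ℝ) / 80) * t <
          ∫ x, ∑ s : Fin n → Step d, PolT β h (fun p => ω p x) {s} *
            ‖emb (pos s t) - m‖ ^ 2 ∂μ := by
  subst hd
  constructor
  · intro U hU hne α hα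
    filter_upwards [oriA52 hρ hnc hβ hU hne hα] with N hN
    obtain ⟨h, hh, n, t, h1, h2, h3, h4, h5⟩ := hN
    refine ⟨h, hh, n, t, h1, h2, h3, h4, fun m => ?_⟩
    rw [probf52 hω β h (fun s : Fin n → Step 2 => ‖emb (pos s t) - m‖ ^ 2)]
    exact h5 m
  · filter_upwards [oriR52 hρ hnc hβ] with h hh α hα
    refine (hh α hα).mono fun n hn => ?_
    obtain ⟨t, h1, h2, h3, h4⟩ := hn
    refine ⟨t, h1, h2, h3, fun m => ?_⟩
    rw [probf52 hω β h (fun s : Fin n → Step 2 => ‖emb (pos s t) - m‖ ^ 2)]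
    exact h4 m

end Prob

end Pool.Agent.W_7d29a1_S90
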