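import Pool.Agent.W_7d29a1_S90.Slo52
import Pool.Agent.W_7d29a1_S90.DefsO28
import Pool.Agent.W_7d29a1_SA.DefsA13

/-!
At a velocity which is not a slope of the free energy the end point is far from `n v` for all large
`n`; the theorem on superdiffusive windows at almost every velocity without the hypothesis that the
velocity is a slope.
-/

namespace Pool.Agent.W_7d29a1_S90

open MeasureTheory ProbabilityTheory Filter Topology Pool.Agent.W_MP_7d29a1_pr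
  Pool.Agent.W_7d29a1_h46 Pool.Agent.W_7d29a1_h46u Pool.Agent.W_7d29a1_D2.B35
  Pool.Agent.W_7d29a1_Q29

lemma logpow52 (p : ℝ) :
    Tendsto (fun n : ℕ => Real.log n ^ p * n / (n : ℝ) ^ 2) atTop (𝓝 0) := by
  have h1 := (isLittleO_log_rpow_rpow_atTop p (show (0 : ℝ) < 1 by norm_num)).tendsto_div_nhds_zero
  have h2 : Tendsto (fun n : ℕ => Real.log (n : ℝ) ^ p / (n : ℝ) ^ (1 : ℝ)) atTop (𝓝 0) :=
    h1.comp tendsto_natCast_atTop_atTop
  refine h2.congr' ?_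
  filter_upwards [eventually_ge_atTop 1] with n hn
  have hn0 : (n : ℝ) ≠ 0 := by positivity
  rw [Real.rpow_one]
  field_simp

/-- At a velocity which is not a slope the end point is far from `n v`. -/
theorem far52 {d : ℕ} {ρ : Measure ℝ} [IsProbabilityMeasure ρ] (hd : 0 < d) (hρ : EM ρ) (β : ℝ)
    {h v : Vec d} (hns : ¬ ∀ w : Vec d, lam ρ β h + inner ℝ v (w - h) ≤ lam ρ β w) (p : ℝ) :
    ∀ᶠ n : ℕ in atTop, Real.log n ^ p * n < ∫ η, pe β h η (fun s : Fin n → Step d =>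
      ‖emb (pos s n) - (n : ℝ) • v‖ ^ 2) ∂(law d ρ) := by
  by_contra hcon
  apply hns
  refine slo52 hd hρ β (logpow52 p) ?_
  rw [Filter.not_eventually] at hcon
  exact hcon.mono fun n hn => not_lt.1 hn

/-- The window `[0, n]` at a velocity which is not a slope. -/
theorem farW52 {d : ℕ} {ρ : Measure ℝ} [IsProbabilityMeasure ρ] (hd : 0 < d) (hρ : EM ρ) (β : ℝ)
    {h v : Vec d} (hns : ¬ ∀ w : Vec d, lam ρ β h + inner ℝ v (w - h) ≤ lam ρ β w) (p : ℝ)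
    {α : ℝ} (hα : α < 1) : ∀ᶠ n : ℕ in atTop, ∃ τ t : ℕ, τ < t ∧ t ≤ n ∧
      (n : ℝ) ^ α ≤ (t : ℝ) - τ ∧ Real.log n ^ p * ((t : ℝ) - τ) <
        ∫ η, pe β h η (fun s : Fin n → Step d => inc τ t (((t : ℝ) - τ) • v) s ^ 2)
          ∂(law d ρ) := by
  filter_upwards [far52 hd hρ β hns p, eventually_ge_atTop 1] with n hn hn1
  have hn1' : (1 : ℝ) ≤ n := by exact_mod_cast hn1
  refine ⟨0, n, by omega, le_rfl, ?_, ?_⟩
  · rw [Nat.cast_zero, sub_zero]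
    calc (n : ℝ) ^ α ≤ (n : ℝ) ^ (1 : ℝ) := Real.rpow_le_rpow_of_exponent_le hn1' hα.le
      _ = n := Real.rpow_one _
  · rw [Nat.cast_zero, sub_zero]
    have h1 : (fun s : Fin n → Step d => inc 0 n ((n : ℝ) • v) s ^ 2) =
        fun s => ‖emb (pos s n) - (n : ℝ) • v‖ ^ 2 := by
      funext s
      unfold inc
      rw [pos_zero73, emb_zero73, sub_zero]
    rw [h1]
    exact hn

/-- The initial window `t = n = N` at a velocity which is not a slope. -/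
theorem farO52 {d : ℕ} {ρ : Measure ℝ} [IsProbabilityMeasure ρ] (hd : 0 < d) (hρ : EM ρ) (β : ℝ)
    {h v : Vec d} (hns : ¬ ∀ w : Vec d, lam ρ β h + inner ℝ v (w - h) ≤ lam ρ β w) (p : ℝ)
    {α : ℝ} (hα : α < 1) : ∀ᶠ N : ℕ in atTop, ∃ n t : ℕ, 1 ≤ t ∧ t ≤ n ∧ n ≤ N ∧
      (N : ℝ) ^ α ≤ t ∧ Real.log N ^ p * t <
        ∫ η, pe β h η (fun s : Fin n → Step d => ‖emb (pos s t) - (t : ℝ) • v‖ ^ 2)
          ∂(law d ρ) := by
  filter_upwards [far52 hd hρ β hns p, eventually_ge_atTop 1] with n hn hn1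
  have hn1' : (1 : ℝ) ≤ n := by exact_mod_cast hn1
  refine ⟨n, n, hn1, le_rfl, le_rfl, ?_, hn⟩
  calc (n : ℝ) ^ α ≤ (n : ℝ) ^ (1 : ℝ) := Real.rpow_le_rpow_of_exponent_le hn1' hα.le
    _ = n := Real.rpow_one _

/-- Theorem SUPA for almost every velocity and EVERY tilt. -/
theorem supAll52 {ρ : Measure ℝ} [IsProbabilityMeasure ρ] (hρ : EM ρ) {β : ℝ}
    (hA : W_7d29a1_SA.SupA ρ β) : ∀ᵐ v : Vec 2, ∀ (h : Vec 2) (α : ℝ), α < 1 →
      ∃ᶠ n : ℕ in atTop, ∃ τ t : ℕ, τ < t ∧ t ≤ n ∧ (n : ℝ) ^ α ≤ (t : ℝ) - τ ∧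
        Real.log n ^ ((1 : ℝ) / 60) * ((t : ℝ) - τ) <
          ∫ η, pe β h η (fun s : Fin n → Step 2 => inc τ t (((t : ℝ) - τ) • v) s ^ 2)
            ∂(law 2 ρ) := by
  filter_upwards [hA] with v hv h α hα
  by_cases hs : ∀ w : Vec 2, lam ρ β h + inner ℝ v (w - h) ≤ lam ρ β w
  · exact hv h hs α hα
  · exact (farW52 two_pos hρ β hs _ hα).frequently

section Prob

variable {Ω : Type*} [MeasurableSpace Ω] {μ : Measure Ω} [IsProbabilityMeasure μ] {d : ℕ}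
  {ρ : Measure ℝ} [IsProbabilityMeasure ρ] {ω : ℕ × Site d → Ω → ℝ} {β : ℝ}

/-- **Superdiffusive windows at almost every velocity and every tilt in dimension two**, for an
arbitrary i.i.d. environment, from `SupA`. -/
theorem topB52 (hω : IID μ ρ ω) (hρ : EM ρ) (hA : W_7d29a1_SA.SupA ρ β) (hd : d = 2) :
    ∀ᵐ v : Vec d, ∀ (h : Vec d) (α : ℝ), α < 1 →
      ∃ᶠ n : ℕ in atTop, ∃ τ t : ℕ, τ < t ∧ t ≤ n ∧ (n : ℝ) ^ α ≤ (t : ℝ) - τ ∧
        Real.log n ^ ((1 : ℝ) / 60) * ((t : ℝ) - τ) <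
          ∫ x, ∑ s : Fin n → Step d, PolT β h (fun p => ω p x) {s} *
            ‖emb (pos s t) - emb (pos s τ) - ((t : ℝ) - τ) • v‖ ^ 2 ∂μ := by
  subst hd
  filter_upwards [supAll52 hρ hA] with v hv h α hα
  refine (hv h α hα).mono fun n hn => ?_
  obtain ⟨τ, t, h1, h2, h3, h4⟩ := hn
  refine ⟨τ, t, h1, h2, h3, ?_⟩
  rw [probf52 hω β h
    (fun s : Fin n → Step 2 => ‖emb (pos s t) - emb (pos s τ) - ((t : ℝ) - τ) • v‖ ^ 2)]
  exact h4

end Prob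

end Pool.Agent.W_7d29a1_S90
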