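import Pool.Agent.W_7d29a1_S90.MainE45
import Pool.Agent.W_7d29a1_S90.InO99

/-!
Superdiffusive windows at almost all scales, first part: the inequality for a set of scales.
-/

namespace Pool.Agent.W_7d29a1_S90

open MeasureTheory ProbabilityTheory Filter Topology Pool.Agent.W_MP_7d29a1_pr
  Pool.Agent.W_7d29a1_h46 Pool.Agent.W_7d29a1_h46u Pool.Agent.W_7d29a1_D2.B35
  Pool.Agent.W_7d29a1_Q29

/-- The windows of the polymer of length `n` whose length lies in `S` are diffusive. -/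
def WS (ρ : Measure ℝ) (β : ℝ) (h : Vec 2) (n : ℕ) (S : Set ℕ) (R : ℝ) : Prop :=
  ∀ τ t : ℕ, τ < t → t ≤ n → t - τ ∈ S → ∃ m : Vec 2,
    ∫ η, pe β h η (fun s : Fin n → Step 2 => inc τ t m s ^ 2) ∂(law 2 ρ) ≤ R * ((t : ℝ) - τ)

/-- From the two bounds of the variance to the inequality for `Λ`. -/
theorem logs85 {n : ℕ} {R γ g₀ cL CI Ka a c η M q : ℝ} (hn : 1 ≤ n) (hR : 1 ≤ R)
    (hq : 1 ≤ q) (hcL : 0 < cL) (hc : 0 < c) (hη : 0 < η)
    (hKa : 0 < Ka) (ha : a ^ 2 = Ka * R ^ 26 * q)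
    (hM : c ^ 3 / (64 * R ^ 3) * (η * n) ≤ M)
    (hγ : γ * Real.log n = g₀)
    (hV : M * (cL / 2 * Real.exp (-((1 - γ / 2) * Real.log n + 2 * (CI + Real.log R) + 2 / cL))) ≤
        8 * a ^ 2 * R + 16 * R ^ 2 * a ^ 4) :
    g₀ / 2 ≤ 2 * (CI + Real.log R) + 2 / cL +
        (|Real.log ((8 * Ka + 16 * Ka ^ 2) * 128 / (c ^ 3 * η * cL))| + 57 * Real.log R +
          2 * Real.log q) := by
  have hn' : (0 : ℝ) < n := by exact_mod_cast hn
  have hR0 : 0 < R := by linarith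
  have hq0 : 0 < q := by linarith
  set E := 2 * (CI + Real.log R) + 2 / cL with hE
  set K := (8 * Ka + 16 * Ka ^ 2) * 128 / (c ^ 3 * η * cL) with hK
  have hK0 : 0 < K := by positivity
  have h1 : Real.exp (-((1 - γ / 2) * Real.log n + 2 * (CI + Real.log R) + 2 / cL)) =
      Real.exp (g₀ / 2 - E) / n := by
    have h0 : -((1 - γ / 2) * Real.log n + 2 * (CI + Real.log R) + 2 / cL) =
        (g₀ / 2 - E) + -Real.log n := by
      rw [hE, ← hγ]
      ring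
    rw [h0, Real.exp_add, Real.exp_neg, Real.exp_log hn', ← div_eq_mul_inv]
  rw [h1] at hV
  have h2 : c ^ 3 / (64 * R ^ 3) * (η * n) * (cL / 2 * (Real.exp (g₀ / 2 - E) / n)) ≤
      8 * a ^ 2 * R + 16 * R ^ 2 * a ^ 4 :=
    (mul_le_mul_of_nonneg_right hM (by positivity)).trans hV
  have h3 : c ^ 3 / (64 * R ^ 3) * (η * n) * (cL / 2 * (Real.exp (g₀ / 2 - E) / n)) =
      c ^ 3 * η * cL / (128 * R ^ 3) * Real.exp (g₀ / 2 - E) := by
    field_simp
    ring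
  rw [h3] at h2
  have h4 : 8 * a ^ 2 * R + 16 * R ^ 2 * a ^ 4 = 8 * Ka * (R ^ 27 * q) +
      16 * Ka ^ 2 * (R ^ 54 * q ^ 2) := by
    have : a ^ 4 = (a ^ 2) ^ 2 := by ring
    rw [this, ha]
    ring
  have h5 : R ^ 27 * q ≤ R ^ 54 * q ^ 2 :=
    mul_le_mul (pow_le_pow_right₀ hR (by norm_num)) (le_self_pow₀ hq (by norm_num)) hq0.le
      (by positivity)
  have h6 : Real.exp (g₀ / 2 - E) ≤ K * R ^ 57 * q ^ 2 := by
    have h7 : c ^ 3 * η * cL / (128 * R ^ 3) * Real.exp (g₀ / 2 - E) ≤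
        (8 * Ka + 16 * Ka ^ 2) * (R ^ 54 * q ^ 2) := by
      refine h2.trans ?_
      rw [h4]
      nlinarith [mul_le_mul_of_nonneg_left h5 (by positivity : 0 ≤ 8 * Ka)]
    rw [div_mul_eq_mul_div, div_le_iff₀ (by positivity)] at h7
    have h70 : K * R ^ 57 * q ^ 2 =
        (8 * Ka + 16 * Ka ^ 2) * 128 * (R ^ 57 * q ^ 2) / (c ^ 3 * η * cL) := by
      rw [hK]
      ring
    rw [h70, le_div_iff₀ (by positivity)]
    calc Real.exp (g₀ / 2 - E) * (c ^ 3 * η * cL)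
        = c ^ 3 * η * cL * Real.exp (g₀ / 2 - E) := by ring
      _ ≤ (8 * Ka + 16 * Ka ^ 2) * (R ^ 54 * q ^ 2) * (128 * R ^ 3) := h7
      _ = _ := by ring
  have h8 := Real.log_le_log (Real.exp_pos _) h6
  rw [Real.log_exp, Real.log_mul (by positivity) (by positivity),
    Real.log_mul hK0.ne' (by positivity), Real.log_pow, Real.log_pow] at h8
  have h10 : Real.log K ≤ |Real.log K| := le_abs_self _
  push_cast at h8
  linarith

/-- The inequality between `R` and the sum over the diffusive scales. -/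
theorem core85 {ρ : Measure ℝ} [IsProbabilityMeasure ρ] {β : ℝ} (hCa : CaT 2 ρ β)
    (hCs : CsT 2 ρ β) (hCk : CsK 2 ρ β) (hKc : KcT 2 ρ β) (hKs : KsT 2 ρ β) (hIn : InO ρ β)
    (hLo : LoV 2 ρ β) (hSt : StM 2 ρ β) (hVu : VuT 2 ρ β) (hJe : JeT) (hAs : AsK)
    {h e : Vec 2} (he : ‖e‖ = 1) {l D : ℝ} (hl : 0 < l) (hD : 0 < D) (hD1 : D ≤ 1)
    (hDl : D ≤ 4 * l) {N₀ : ℕ}
    (hDr : ∀ n : ℕ, N₀ ≤ n → D * n ≤ Ft ρ β (h + l • e) e n n - Ft ρ β h e n n) :
    ∃ c₁ C₁ B θ : ℝ, 0 < c₁ ∧ 0 ≤ C₁ ∧ 0 ≤ B ∧ 0 < θ ∧ ∀ (n : ℕ) (R Λ : ℝ) (S : Set ℕ)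
      (G : Finset ℕ), N₀ ≤ n → 2 ≤ n → 1 ≤ R → 0 < Λ → Λ ≤ Real.log n →
      B * (R ^ 26 * (Real.log n / Λ)) ≤ n →
      (∀ u : ℕ, 3 / 4 * (n : ℝ) ≤ u → u ≤ n → u ∈ S) →
      (∀ u ∈ G, u ∈ S ∧ 1 ≤ u ∧ (u : ℝ) ≤ θ / R ^ 10 * n) → Λ ≤ ∑ u ∈ G, 1 / (u : ℝ) →
      (∀ s ∈ Set.Icc (0 : ℝ) l, WS ρ β (h + s • e) n S R) →
        c₁ / R ^ 25 * Λ ≤ C₁ * (1 + Real.log R) + 2 * Real.log (Real.log n / Λ) := by
  classical
  obtain ⟨cL, CL, hcL, hcL1, hCL, hLo⟩ := hLo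
  set c := D / (4 * l) with hc
  have hc0 : 0 < c := by positivity
  have hc1 : c ≤ 1 := by rw [hc, div_le_one (by positivity)]; exact hDl
  obtain ⟨cI, CI, hcI, hcI1, hCI, hIn⟩ := hIn
  set κ₀ := c ^ 4 / 32768 with hκ₀
  have hκ₀0 : 0 < κ₀ := by positivity
  have hκ₀1 : κ₀ ≤ 1 := by
    rw [hκ₀, div_le_one (by norm_num)]
    have : c ^ 4 ≤ 1 := pow_le_one₀ hc0.le hc1
    linarith
  set g₀ := cI ^ 2 * κ₀ ^ 6 with hg₀
  have hg₀0 : 0 < g₀ := by positivity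
  have hg₀1 : g₀ ≤ 1 := by
    rw [hg₀]
    exact mul_le_one₀ (pow_le_one₀ hcI.le hcI1) (by positivity) (pow_le_one₀ hκ₀0.le hκ₀1)
  set Ka := 64 * (cL + CL) / (cL * c ^ 2 * g₀) with hKa
  have hKa0 : 0 < Ka := by positivity
  set η := D / 4 with hη
  set K := (8 * Ka + 16 * Ka ^ 2) * 128 / (c ^ 3 * η * cL) with hK
  set θ := c ^ 2 * cI * κ₀ ^ 2 / 1024 with hθ
  have hθ0 : 0 < θ := by positivity
  have hθ1 : θ ≤ 1 / 1024 := by
    rw [hθ, div_le_div_iff_of_pos_right (by norm_num)]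
    have h1 : c ^ 2 ≤ 1 := pow_le_one₀ hc0.le hc1
    have h2 : κ₀ ^ 2 ≤ 1 := pow_le_one₀ hκ₀0.le hκ₀1
    exact mul_le_one₀ (mul_le_one₀ h1 hcI.le hcI1) (by positivity) h2
  refine ⟨g₀ / 2, 2 * CI + 2 / cL + |Real.log K| + 59, Ka / l ^ 2, θ,
    by positivity, by positivity, by positivity, hθ0, ?_⟩
  intro n R Λ S G hnN hn2 hR hΛ hΛn hB hSn hG hΛG hWS
  have hn : 1 ≤ n := by omega
  have hn' : (0 : ℝ) < n := by exact_mod_cast hn
  have hn2' : (2 : ℝ) ≤ n := by exact_mod_cast hn2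
  have hR0 : 0 < R := by linarith
  have hlR : 0 ≤ Real.log R := Real.log_nonneg hR
  have hL0 : 0 < Real.log n := lt_of_lt_of_le hΛ hΛn
  set q := Real.log n / Λ with hq
  have hq1 : 1 ≤ q := by rw [hq, one_le_div hΛ]; exact hΛn
  have hq0 : 0 < q := by linarith
  -- the exponent `α`
  set α : ℝ := 1 + Real.log (3 / 4) / Real.log n with hα
  have hαn0 : (n : ℝ) ^ α = 3 / 4 * n := by
    rw [hα, Real.rpow_add hn', Real.rpow_one, Real.rpow_def_of_pos hn', mul_div_cancel₀ _ hL0.ne',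
      Real.exp_log (by norm_num)]
    ring
  have hαn' : (n : ℝ) ^ α ≤ n := by rw [hαn0]; linarith
  have hW : ∀ s ∈ Set.Icc (0 : ℝ) l, W2 ρ β (h + s • e) n α R := by
    intro s hs τ t hτt htn hlen
    refine hWS s hs τ t hτt htn (hSn (t - τ) ?_ (by omega))
    rw [hαn0] at hlen
    rw [Nat.cast_sub hτt.le]
    exact hlen
  set γ := g₀ / R ^ 25 * (Λ / Real.log n) with hγ
  have hR25 : 1 ≤ R ^ 25 := one_le_pow₀ hR
  have hΛL : Λ / Real.log n ≤ 1 := by rw [div_le_one hL0]; exact hΛn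
  have hγ0 : 0 < γ := by positivity
  have hγ1 : γ ≤ 1 := by
    rw [hγ]
    refine mul_le_one₀ ?_ (by positivity) hΛL
    rw [div_le_one (by positivity)]
    linarith
  have hγL : γ * Real.log n = g₀ / R ^ 25 * Λ := by
    rw [hγ]
    field_simp
  set a := Real.sqrt (Ka * R ^ 26 * q) with ha
  have ha0 : 0 < a := Real.sqrt_pos.mpr (by positivity)
  have ha2 : a ^ 2 = Ka * R ^ 26 * q := Real.sq_sqrt (by positivity)
  set a₁ := Real.sqrt (32 * R) / c with ha₁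
  have ha₁0 : 0 < a₁ := by positivity
  have ha₁2 : a₁ ^ 2 = 32 * R / c ^ 2 := by
    rw [ha₁, div_pow, Real.sq_sqrt (by positivity)]
  have haa : a₁ ≤ a := by
    refine le_of_sq_le_sq ?_ ha0.le
    rw [ha2, ha₁2]
    have h0 : 32 * R / c ^ 2 ≤ Ka * R ^ 26 := by
      rw [hKa, div_mul_eq_mul_div, div_le_div_iff₀ (by positivity) (by positivity)]
      have h1 : R ≤ R ^ 26 := le_self_pow₀ hR (by norm_num)
      have h2 : cL * g₀ ≤ cL + CL := by nlinarith
      calc 32 * R * (cL * c ^ 2 * g₀) = 32 * c ^ 2 * (R * (cL * g₀)) := by ring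
        _ ≤ 32 * c ^ 2 * (R ^ 26 * (cL + CL)) := by gcongr
        _ ≤ 64 * (cL + CL) * R ^ 26 * c ^ 2 := by
            have : 0 ≤ c ^ 2 * (R ^ 26 * (cL + CL)) := by positivity
            nlinarith
    exact h0.trans (le_mul_of_one_le_right (by positivity) hq1)
  have hal : a ^ 2 ≤ l ^ 2 * n := by
    rw [ha2]
    rw [div_mul_eq_mul_div, div_le_iff₀ (by positivity)] at hB
    calc Ka * R ^ 26 * q = Ka * (R ^ 26 * q) := by ring
      _ ≤ n * l ^ 2 := hB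
      _ = _ := by ring
  obtain ⟨k, J, A', hk, hA, hJ, hk1, hk2, hk3, hk4⟩ := grids45 hn hl ha₁0 haa hal
  have hη0 : 0 < η := by rw [hη]; positivity
  have hη1 : η ≤ 1 / 4 := by rw [hη]; linarith
  obtain ⟨T, hT, hTc, -, hT1⟩ := late45 hn hη0 hη1
  have hT2 : ∀ t ∈ T, 1 ≤ t ∧ t ≤ n ∧ (n : ℝ) ^ α ≤ t := by
    intro t ht
    obtain ⟨h1, h2, h3⟩ := hT1 t ht
    refine ⟨h1, h2, le_trans ?_ h3⟩
    rw [hαn0]
    nlinarith
  have hT3 : ∀ t ∈ T, 2 * c * l * n ≤ Ft ρ β (h + l • e) e n t - Ft ρ β h e n t := by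
    intro t ht
    obtain ⟨h1, h2, h3⟩ := hT1 t ht
    have h4 := hDr n hnN
    have h5 := (hCs (h + l • e) e n t h2).2.2.2.1 he
    have h6 := (hCs h e n t h2).2.2.2.1 he
    rw [abs_le] at h5 h6
    have h7 : 2 * c * l * n = D / 2 * n := by
      rw [hc]
      field_simp
      ring
    rw [h7]
    rw [hη] at h3
    nlinarith [h5.1, h5.2, h6.1, h6.2]
  obtain ⟨s, hs, s', hs', hss, T', hT', hcard, hgood⟩ := pick45 (A := A') hCa hCs hCk hKc hKs hAs he
    hn hR hl hc0 hc1 hk hA hJ hW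
    (by
      have h1 := mul_le_mul_of_nonneg_left hk3 (by positivity : 0 ≤ c ^ 2)
      refine le_trans (le_of_eq ?_) h1
      rw [ha₁2]
      field_simp)
    (by
      have h1 := mul_le_mul_of_nonneg_left hk4 (by positivity : 0 ≤ c ^ 2)
      refine h1.trans (le_of_eq ?_)
      rw [ha₁2]
      field_simp
      ring)
    hT hT2 hT3
  have hup := up45 hCa hCs hCk hVu he hn hαn' hR hW hs hs' hss hk2
  -- the numbers of the rows
  set κ := κ₀ / R ^ 4 with hκ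
  have hκ0 : 0 < κ := by positivity
  have hκ1 : κ ≤ 1 := by
    rw [hκ, div_le_one (by positivity)]
    exact hκ₀1.trans (one_le_pow₀ hR)
  set KK := R / (cI * κ ^ 2) with hKK
  have hKK0 : 0 < KK := by positivity
  have hKK1 : 1 ≤ KK := by
    rw [hKK, one_le_div (by positivity)]
    have : cI * κ ^ 2 ≤ 1 := mul_le_one₀ hcI1 (by positivity) (pow_le_one₀ hκ0.le hκ1)
    linarith
  have hKKe : 4 * KK * (θ / R ^ 10) = c ^ 2 / 256 / R := by
    rw [hKK, hκ, hθ]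
    field_simp
    ring
  have hgKK : cI * κ ^ 4 / KK = g₀ / R ^ 25 := by
    rw [hKK, hκ, hg₀]
    field_simp
  set s₁ : ℕ := ⌊θ / R ^ 10 * n⌋₊ with hs₁
  have hs₁le : (s₁ : ℝ) ≤ θ / R ^ 10 * n := Nat.floor_le (by positivity)
  have hθR : θ / R ^ 10 ≤ 1 / 1024 := (div_le_self hθ0.le (one_le_pow₀ hR)).trans hθ1
  have hLL : 0 ≤ Real.log n := hL0.le
  have hlow : ∀ t ∈ T', cL / 2 * Real.exp (-((1 - γ / 2) * Real.log n +
      2 * (CI + Real.log R) + 2 / cL)) ≤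
      ∫ η, ∑ y ∈ boxF 2 n, aw ρ β (h + s • e) (h + s' • e) n t cL CL y η ^ 2 ∂(law 2 ρ) := by
    intro t ht
    obtain ⟨h1, h2, h3⟩ := hT2 t (hT' ht)
    obtain ⟨h4, h5⟩ := hgood t ht
    have h3' : 3 / 4 * (n : ℝ) ≤ t := by rw [← hαn0]; exact h3
    have hst : s₁ < t := by
      have : (s₁ : ℝ) < t := by
        have h6 := mul_le_mul_of_nonneg_right hθR hn'.le
        linarith
      exact_mod_cast this
    have h11 := hIn (h + s • e) n t 1 s₁ ((Finset.range (n + 1)).filter fun τ => t - τ ∈ S) R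
      (c ^ 2 / 256 / R) κ KK hn h1 h2 le_rfl hst hR (by positivity) hκ0 hκ1 hKK1 (by
        rw [← hKKe]
        calc 4 * KK * (s₁ : ℝ) ≤ 4 * KK * (θ / R ^ 10 * n) :=
              mul_le_mul_of_nonneg_left hs₁le (by positivity)
          _ = _ := by ring) (by
        obtain ⟨m, hm⟩ := hWS s hs 0 t (by omega) h2 (hSn _ (by simpa using h3') (by omega))
        refine ⟨m, ?_⟩
        have e1 : (fun η : Env 2 => pe β (h + s • e) η
              (fun s : Fin n → Step 2 => inc 0 t m s ^ 2)) =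
            fun η => pe β (h + s • e) η
              (fun s : Fin n → Step 2 => ‖emb (pos s t) - m‖ ^ 2) := by
          funext η
          congr 1
          funext s
          unfold inc
          rw [pos_zero73, emb_zero73, sub_zero]
        rw [e1] at hm
        refine hm.trans ?_
        have h20 : (t : ℝ) ≤ n := by exact_mod_cast h2
        have h30 : (t : ℝ) - ((0 : ℕ) : ℝ) = t := by simp
        rw [h30]
        exact mul_le_mul_of_nonneg_left h20 hR0.le) (by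
        intro u hu huT
        obtain ⟨hu1, hu2⟩ := Finset.mem_Icc.mp hu
        have hut : u < t := lt_of_le_of_lt hu2 hst
        have huS : u ∈ S := by
          have := (Finset.mem_filter.mp huT).2
          rwa [Nat.sub_sub_self hut.le] at this
        obtain ⟨m, hm⟩ := hWS s hs (t - u) t (by omega) h2 (by
          rwa [Nat.sub_sub_self hut.le])
        refine ⟨m, ?_⟩
        have hu0 : (0 : ℝ) < u := by exact_mod_cast hu1
        have h20 := tlC99 (by norm_num : 0 < 2) (h + s • e) n (t - u) t m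
          (r := Real.sqrt (KK * u)) (Real.sqrt_pos.mpr (by positivity)) hm
        refine h20.trans (le_of_eq ?_)
        rw [Real.sq_sqrt (by positivity), Nat.cast_sub hut.le, hKK]
        field_simp
        ring) (by
        refine le_trans (le_of_eq ?_) h4
        rw [hκ, hκ₀]
        field_simp)
    rw [hgKK] at h11
    have h12 : Λ ≤ ∑ u ∈ (Finset.Icc 1 s₁).filter (fun u => t - u ∈
        (Finset.range (n + 1)).filter fun τ => t - τ ∈ S), 1 / (u : ℝ) := by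
      refine hΛG.trans (Finset.sum_le_sum_of_subset_of_nonneg ?_ fun u _ _ => by positivity)
      intro u hu
      obtain ⟨hu1, hu2, hu3⟩ := hG u hu
      have hu4 : u ≤ s₁ := Nat.le_floor hu3
      have hut : u < t := lt_of_le_of_lt hu4 hst
      refine Finset.mem_filter.mpr ⟨Finset.mem_Icc.mpr ⟨hu2, hu4⟩,
        Finset.mem_filter.mpr ⟨Finset.mem_range.mpr (by omega), ?_⟩⟩
      rwa [Nat.sub_sub_self hut.le]
    have h13 : g₀ / R ^ 25 * Λ ≤ g₀ / R ^ 25 * ∑ u ∈ (Finset.Icc 1 s₁).filter (fun u => t - u ∈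
        (Finset.range (n + 1)).filter fun τ => t - τ ∈ S), 1 / (u : ℝ) :=
      mul_le_mul_of_nonneg_left h12 (by positivity)
    refine low45 (by norm_num) hJe hSt he h1 h2 (k := k) (R := R) hcL hcL1 hCL hc0 hk hγ0 hγ1 hLL
      (by positivity) (sec45 hCs hCk he h1 h2 h3 hR0.le (hW s hs)).1
      (sec45 hCs hCk he h1 h2 h3 hR0.le (hW s' hs')).1 h5 ?_ ?_
    · have h12 : cL * c ^ 2 * γ * (Ka * R ^ 26 * q) = 64 * R * (cL + CL) := by
        rw [hγ, hKa, hq]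
        field_simp
      rw [← h12, ← ha2]
      exact mul_le_mul_of_nonneg_left hk1 (by positivity)
    · have h14 : (1 - γ) * Real.log n = Real.log n - g₀ / R ^ 25 * Λ := by
        rw [← hγL]
        ring
      rw [h14]
      linarith
  have hsum := hLo (h + s • e) (h + s' • e) n T' (fun t ht => by
    obtain ⟨h1, h2, -⟩ := hT2 t (hT' ht)
    exact Finset.mem_Icc.mpr ⟨h1, h2⟩)
  have hV := (Finset.sum_le_sum hlow).trans (hsum.trans hup)
  rw [Finset.sum_const, nsmul_eq_mul] at hV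
  have hM : c ^ 3 / (64 * R ^ 3) * (η * n) ≤ (T'.card : ℝ) :=
    le_trans (mul_le_mul_of_nonneg_left hTc (by positivity)) hcard
  have hfin := logs85 hn hR hq1 hcL hc0 hη0 hKa0 ha2 hM hγL hV
  have h17 : 0 ≤ 2 / cL := by positivity
  have h18 := abs_nonneg (Real.log K)
  have h19 : g₀ / 2 / R ^ 25 * Λ = g₀ / R ^ 25 * Λ / 2 := by ring
  rw [h19]
  refine hfin.trans ?_
  nlinarith [mul_nonneg hCI hlR, mul_nonneg h17 hlR, mul_nonneg h18 hlR]

end Pool.Agent.W_7d29a1_S90
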