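import Pool.Agent.W_7d29a1_S90.AllA85
import Pool.Agent.W_7d29a1_S90.Sup45
import Pool.Agent.W_7d29a1_S90.Top2x17

/-!
Superdiffusive windows at almost all scales, second part.
-/

namespace Pool.Agent.W_7d29a1_S90

open MeasureTheory ProbabilityTheory Filter Topology

/-- The numbers. -/
theorem ev85 {B c₁ C₁ θ : ℝ} {N₀ : ℕ} (hc : 0 < c₁) (hC : 0 ≤ C₁) : ∀ᶠ y : ℝ in atTop, 4 ≤ y ∧
    (N₀ : ℝ) ≤ Real.exp ((y - 1) / 2) ∧ 8 * |B| * y ^ 2 ≤ Real.exp ((y - 1) / 2) ∧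
      2 * |Real.log (2 / θ)| + Real.log y + 1 ≤ 1 / 2 * y ∧
        C₁ * (1 + Real.log y) + 2 * Real.log (8 * y) < c₁ / 8 * y ^ ((1 : ℝ) / 6) := by
  have h1 := (Real.isLittleO_log_id_atTop).def (c := (1 : ℝ) / 4) (by norm_num)
  have h2 := (isLittleO_log_rpow_atTop (show (0 : ℝ) < 1 / 6 by norm_num)).def
    (c := c₁ / (16 * (C₁ + 2))) (by positivity)
  have h3 : Tendsto (fun x : ℝ => x ^ ((1 : ℝ) / 6)) atTop atTop :=
    tendsto_rpow_atTop (by norm_num)
  filter_upwards [h1, h2, h3.eventually_gt_atTop (16 * (C₁ + 2 * Real.log 8) / c₁),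
    eventually_ge_atTop (4 : ℝ), eventually_ge_atTop (2 * (N₀ : ℝ) + 1),
    eventually_ge_atTop (3072 * |B|), eventually_ge_atTop (4 * (2 * |Real.log (2 / θ)| + 1))]
    with y a1 a2 a3 a4 a5 a6 a7
  have hy0 : 0 < y := by linarith
  have hly : 0 ≤ Real.log y := Real.log_nonneg (by linarith)
  have hp : 0 < y ^ ((1 : ℝ) / 6) := by positivity
  rw [Real.norm_eq_abs, abs_of_nonneg hly, id, Real.norm_eq_abs, abs_of_pos hy0] at a1
  rw [Real.norm_eq_abs, abs_of_nonneg hly, Real.norm_eq_abs, abs_of_pos hp] at a2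
  have hz : 0 ≤ (y - 1) / 2 := by linarith
  refine ⟨a4, ?_, ?_, by linarith, ?_⟩
  · have := Real.add_one_le_exp ((y - 1) / 2)
    linarith
  · have h5 := Real.pow_div_factorial_le_exp ((y - 1) / 2) hz 3
    refine le_trans ?_ h5
    have h6 : y / 4 ≤ (y - 1) / 2 := by linarith
    have h7 : (y / 4) ^ 3 ≤ ((y - 1) / 2) ^ 3 := pow_le_pow_left₀ (by linarith) h6 3
    have h8 : ((Nat.factorial 3 : ℕ) : ℝ) = 6 := by norm_num [Nat.factorial]
    rw [h8, le_div_iff₀ (by norm_num)]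
    have h9 : 3072 * |B| * y ^ 2 ≤ y * y ^ 2 := mul_le_mul_of_nonneg_right a6 (by positivity)
    nlinarith
  · rw [Real.log_mul (by norm_num) hy0.ne']
    rw [div_lt_iff₀ hc] at a3
    have h5 : (C₁ + 2) * Real.log y ≤ c₁ / 16 * y ^ ((1 : ℝ) / 6) := by
      have h6 := mul_le_mul_of_nonneg_left a2 (by linarith : 0 ≤ C₁ + 2)
      refine h6.trans (le_of_eq ?_)
      field_simp
    linarith

open Pool.Agent.W_MP_7d29a1_pr Pool.Agent.W_7d29a1_h46 Pool.Agent.W_7d29a1_h46u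
  Pool.Agent.W_7d29a1_D2.B35 Pool.Agent.W_7d29a1_Q29

/-- The scale `k` is diffusive: all windows `[τ, t]`, `2 ^ k ≤ t - τ < 2 ^ (k + 1)`, of all polymers
of length `n ≤ N` with tilt in `U` are diffusive with the constant `R`. -/
def Df (ρ : Measure ℝ) (β : ℝ) (U : Set (Vec 2)) (N : ℕ) (R : ℝ) (k : ℕ) : Prop :=
  ∀ h ∈ U, ∀ n τ t : ℕ, n ≤ N → τ < t → t ≤ n → 2 ^ k ≤ t - τ → t - τ < 2 ^ (k + 1) →
    ∃ m : Vec 2, ∫ η, pe β h η (fun s : Fin n → Step 2 => inc τ t m s ^ 2) ∂(law 2 ρ) ≤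
      R * ((t : ℝ) - τ)

lemma harm85 {k : ℕ} {G : Finset ℕ} (hG : ∀ u : ℕ, 2 ^ k ≤ u → u < 2 ^ (k + 1) → u ∈ G) :
    (1 : ℝ) / 2 ≤ ∑ u ∈ G, 1 / (u : ℝ) := by
  have h1 : ∑ u ∈ Finset.Ico ((2 : ℕ) ^ k) (2 ^ (k + 1)), 1 / (u : ℝ) ≤ ∑ u ∈ G, 1 / (u : ℝ) := by
    refine Finset.sum_le_sum_of_subset_of_nonneg (fun u hu => ?_) fun u _ _ => by positivity
    have := Finset.mem_Ico.mp hu
    exact hG u this.1 this.2
  refine le_trans ?_ h1
  have h2 : ∑ u ∈ Finset.Ico ((2 : ℕ) ^ k) (2 ^ (k + 1)), 1 / ((2 : ℝ) ^ (k + 1)) ≤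
      ∑ u ∈ Finset.Ico ((2 : ℕ) ^ k) (2 ^ (k + 1)), 1 / (u : ℝ) := by
    refine Finset.sum_le_sum fun u hu => ?_
    have h3 := Finset.mem_Ico.mp hu
    have h4 : 0 < u := lt_of_lt_of_le (by positivity) h3.1
    have h5 : (u : ℝ) ≤ 2 ^ (k + 1) := by exact_mod_cast h3.2.le
    have h6 : (0 : ℝ) < u := by exact_mod_cast h4
    exact one_div_le_one_div_of_le h6 h5
  refine le_trans (le_of_eq ?_) h2
  rw [Finset.sum_const, Nat.card_Ico, nsmul_eq_mul]
  have h7 : (2 : ℕ) ^ (k + 1) - 2 ^ k = 2 ^ k := by rw [pow_succ]; omega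
  rw [h7, pow_succ]
  push_cast
  field_simp

/-- On a segment of tilts on which the free energy is not affine, all but at most
`(log N) ^ (1 / 2)` of the dyadic scales are superdiffusive. -/
theorem all85 {ρ : Measure ℝ} [IsProbabilityMeasure ρ] {β : ℝ} (hρ : EM ρ)
    (hnc : ∀ c : ℝ, ρ {c} ≠ 1) (hβ : 0 < β) {h e : Vec 2} {l : ℝ} (he : ‖e‖ = 1) (hl : 0 < l)
    (hlam : 2 * lam ρ β (h + (l / 2) • e) < lam ρ β h + lam ρ β (h + l • e)) :
    ∃ N₀ : ℕ, ∀ N : ℕ, N₀ ≤ N → ∀ B : Finset ℕ, B ⊆ Finset.range (Nat.log 2 N) →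
      (∀ k ∈ B, Df ρ β {g | ∃ s ∈ Set.Icc (0 : ℝ) l, g = h + s • e} N
        (Real.log N ^ ((1 : ℝ) / 60)) k) → (B.card : ℝ) ≤ Real.log N ^ ((1 : ℝ) / 2) := by
  obtain ⟨hLo, hSt, hVu, hCa, hKc, -, hKs, hCs, hCk, hDr, hJe⟩ :=
    leaves90 (d := 2) (by norm_num) hρ hnc hβ
  have hIt : InT 2 ρ β := inT90 (by norm_num) hρ hnc hβ
  have hEn : EnZ 2 ρ β := enZ58 (by norm_num) β
  have hDl : DlT 2 ρ β := dlT63 (by norm_num) hρ hβ
  set D₀ := 2 / l * (lam ρ β h + lam ρ β (h + l • e) - 2 * lam ρ β (h + (l / 2) • e)) with hD₀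
  have hD₀0 : 0 < D₀ := by
    rw [hD₀]
    exact mul_pos (by positivity) (by linarith)
  set D := min (D₀ / 2) (min 1 (4 * l)) with hD
  have hD0 : 0 < D := lt_min (by linarith) (lt_min one_pos (by linarith))
  have hD1 : D ≤ 1 := (min_le_right _ _).trans (min_le_left _ _)
  have hDl' : D ≤ 4 * l := (min_le_right _ _).trans (min_le_right _ _)
  have hDD : D < D₀ := (min_le_left _ _).trans_lt (by linarith)
  obtain ⟨N₀, hN₀⟩ := hDr h e l D hl hDD
  obtain ⟨c₁, C₁, Bc, θ, hc₁, hC₁, hBc, hθ, hcore⟩ := core85 hCa hCs hCk hKc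
    (hKs (kmT71 (by norm_num) β)) (inO99 hβ hIt hEn hDl) hLo hSt hVu hJe asK85 he hl hD0 hD1 hDl'
    hN₀
  have hyt : Tendsto (fun N : ℕ => Real.sqrt (Real.log N)) atTop atTop :=
    Real.tendsto_sqrt_atTop.comp (Real.tendsto_log_atTop.comp tendsto_natCast_atTop_atTop)
  obtain ⟨N₁, hN₁⟩ := eventually_atTop.mp (hyt.eventually (ev85 (B := Bc) (c₁ := c₁) (C₁ := C₁)
    (θ := θ) (N₀ := N₀) hc₁ hC₁))
  refine ⟨N₁, fun N hN B hBr hB => ?_⟩
  by_contra hcon
  push Not at hcon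
  obtain ⟨e1, e2, e3, e4, e5⟩ := hN₁ N hN
  set y := Real.sqrt (Real.log N) with hy
  have hy0 : 0 < y := by linarith
  have hlogN : Real.log N = y ^ 2 := by
    rw [hy, Real.sq_sqrt]
    by_contra h0
    push Not at h0
    have : y = 0 := Real.sqrt_eq_zero_of_nonpos h0.le
    linarith
  rw [← Real.sqrt_eq_rpow, ← hy] at hcon
  have hR60 : Real.log N ^ ((1 : ℝ) / 60) = y ^ ((1 : ℝ) / 30) := by
    rw [hlogN, ← Real.rpow_natCast, ← Real.rpow_mul hy0.le]
    norm_num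
  rw [hR60] at hB
  set R := y ^ ((1 : ℝ) / 30) with hR
  have hR1 : 1 ≤ R := Real.one_le_rpow (by linarith) (by norm_num)
  have hR0 : 0 < R := by linarith
  have hlR : Real.log R = 1 / 30 * Real.log y := by rw [hR, Real.log_rpow hy0]
  have hly : 0 ≤ Real.log y := Real.log_nonneg (by linarith)
  -- the largest diffusive scale
  have hBne : B.Nonempty := by
    rw [← Finset.card_pos]
    have : (0 : ℝ) < B.card := by linarith
    exact_mod_cast this
  set k₀ := B.max' hBne with hk₀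
  have hk₀B : k₀ ∈ B := B.max'_mem hBne
  have hmax : ∀ k ∈ B, k ≤ k₀ := fun k hk => B.le_max' k hk
  have hcard : B.card ≤ k₀ + 1 := by
    have h1 : B ⊆ Finset.range (k₀ + 1) := fun k hk =>
      Finset.mem_range.mpr (Nat.lt_succ_of_le (hmax k hk))
    simpa using Finset.card_le_card h1
  have hk₀y : y - 1 < k₀ := by
    have : (B.card : ℝ) ≤ k₀ + 1 := by exact_mod_cast hcard
    linarith
  have hk₀3 : 3 < (k₀ : ℝ) := by linarith
  have hk₀3' : 3 < k₀ := by exact_mod_cast hk₀3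
  set n : ℕ := 2 ^ (k₀ + 1) - 1 with hn
  have hpow1 : 16 ≤ 2 ^ k₀ := by
    calc 16 = 2 ^ 4 := by norm_num
      _ ≤ 2 ^ k₀ := Nat.pow_le_pow_right (by norm_num) (by omega)
  have hpow2 : 2 ^ (k₀ + 1) = 2 * 2 ^ k₀ := by rw [pow_succ]; ring
  have hnN : n ≤ N := by
    have h1 : k₀ < Nat.log 2 N := Finset.mem_range.mp (hBr hk₀B)
    have h2 : N ≠ 0 := by
      rintro rfl
      simp at h1
    have h3 : 2 ^ (k₀ + 1) ≤ N := by
      calc 2 ^ (k₀ + 1) ≤ 2 ^ (Nat.log 2 N) := Nat.pow_le_pow_right (by norm_num) h1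
        _ ≤ N := Nat.pow_log_le_self 2 h2
    omega
  have hnk : 2 ^ k₀ ≤ n := by omega
  have hnk2 : n + 1 = 2 ^ (k₀ + 1) := by omega
  have hn2 : 2 ≤ n := by omega
  have hn0 : (0 : ℝ) < n := by exact_mod_cast (by omega : 0 < n)
  have hexpn : Real.exp ((y - 1) / 2) ≤ n := by
    have h1 : ((2 : ℝ) ^ k₀) ≤ n := by exact_mod_cast hnk
    refine le_trans ?_ h1
    have h2 : (2 : ℝ) ^ k₀ = Real.exp (k₀ * Real.log 2) := by
      rw [Real.exp_nat_mul, Real.exp_log (by norm_num)]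
    rw [h2]
    refine Real.exp_le_exp.mpr ?_
    have h3 : (1 : ℝ) / 2 ≤ Real.log 2 := by linarith [Real.log_two_gt_d9]
    nlinarith
  have hlogn : (y - 1) / 2 ≤ Real.log n := by
    rw [← Real.log_exp ((y - 1) / 2)]
    exact Real.log_le_log (Real.exp_pos _) hexpn
  have hlognN : Real.log n ≤ y ^ 2 := by
    rw [← hlogN]
    exact Real.log_le_log hn0 (by exact_mod_cast hnN)
  set Λ := y / 8 with hΛ
  have hΛ0 : 0 < Λ := by positivity
  have hq : Real.log n / Λ ≤ 8 * y := by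
    rw [div_le_iff₀ hΛ0, hΛ]
    calc Real.log n ≤ y ^ 2 := hlognN
      _ = 8 * y * (y / 8) := by ring
  have hq0 : 0 < Real.log n / Λ := div_pos (by linarith) hΛ0
  set S : Set ℕ := {u | 1 ≤ u ∧ Nat.log 2 u ∈ B} with hS
  -- the scales below `θ n / R ^ 10`
  classical
  set B' := B.filter fun k => (2 : ℝ) ^ (k + 1) ≤ θ / R ^ 10 * n with hB'
  set G := (Finset.range (n + 1)).filter fun u => 1 ≤ u ∧ Nat.log 2 u ∈ B' with hG
  have hlogmem : ∀ k u : ℕ, 2 ^ k ≤ u → u < 2 ^ (k + 1) → Nat.log 2 u = k := fun k u h1 h2 =>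
    (Nat.log_eq_iff (Or.inr ⟨by norm_num, by
      have : 0 < 2 ^ k := by positivity
      omega⟩)).mpr ⟨h1, h2⟩
  have hsumG : (B'.card : ℝ) / 2 ≤ ∑ u ∈ G, 1 / (u : ℝ) := by
    rw [← Finset.sum_fiberwise_of_maps_to (s := G) (t := B') (g := fun u => Nat.log 2 u)
      (fun u hu => (Finset.mem_filter.mp hu).2.2)]
    calc (B'.card : ℝ) / 2 = ∑ k ∈ B', (1 : ℝ) / 2 := by
          rw [Finset.sum_const, nsmul_eq_mul]; ring
      _ ≤ _ := by
          refine Finset.sum_le_sum fun k hk => harm85 (k := k) fun u hu1 hu2 => ?_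
          have hk1 := (Finset.mem_filter.mp hk).1
          have hk2 := hmax k hk1
          have h1 : 2 ^ (k + 1) ≤ 2 ^ (k₀ + 1) := Nat.pow_le_pow_right (by norm_num) (by omega)
          have h2 : 0 < 2 ^ k := by positivity
          have h3 := hlogmem k u hu1 hu2
          refine Finset.mem_filter.mpr ⟨Finset.mem_filter.mpr ⟨Finset.mem_range.mpr (by omega),
            by omega, by rw [h3]; exact hk⟩, h3⟩
  have hBB' : (B.card : ℝ) ≤ B'.card + (2 * |Real.log (2 / θ)| + Real.log y + 1) := by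
    have h1 : B.card = B'.card + (B.filter fun k => ¬ (2 : ℝ) ^ (k + 1) ≤ θ / R ^ 10 * n).card := by
      rw [hB', Finset.card_filter_add_card_filter_not]
    have h2 : ((B.filter fun k => ¬ (2 : ℝ) ^ (k + 1) ≤ θ / R ^ 10 * n).card : ℝ) ≤
        2 * |Real.log (2 / θ)| + Real.log y + 1 := by
      set M : ℝ := 2 * |Real.log (2 / θ)| + Real.log y with hM
      have hM0 : 0 ≤ M := by positivity
      have h3 : (B.filter fun k => ¬ (2 : ℝ) ^ (k + 1) ≤ θ / R ^ 10 * n).card ≤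
          (Finset.range (⌊M⌋₊ + 1)).card := by
        refine Finset.card_le_card_of_injOn (fun k => k₀ - k) (fun k hk => ?_) ?_
        · have hk' := Finset.mem_filter.mp hk
          have hkk := hmax k hk'.1
          have hk2 := hk'.2
          rw [not_le] at hk2
          have h5 : ((2 : ℝ) ^ (k₀ - k)) < 2 * R ^ 10 / θ := by
            rw [lt_div_iff₀ hθ]
            have h6 : (2 : ℝ) ^ k₀ = 2 ^ (k₀ - k) * 2 ^ k := by
              rw [← pow_add, Nat.sub_add_cancel hkk]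
            have h7 : (2 : ℝ) ^ k₀ ≤ n := by exact_mod_cast hnk
            have h8 : θ * n < R ^ 10 * 2 ^ (k + 1) := by
              rw [div_mul_eq_mul_div, div_lt_iff₀ (by positivity)] at hk2
              linarith
            have h9 : θ * (2 ^ (k₀ - k) * 2 ^ k) < R ^ 10 * (2 * 2 ^ k) := by
              rw [← h6, ← pow_succ']
              exact lt_of_le_of_lt (mul_le_mul_of_nonneg_left h7 hθ.le) h8
            have h10 : (0 : ℝ) < 2 ^ k := by positivity
            have h11 : θ * 2 ^ (k₀ - k) * 2 ^ k < R ^ 10 * 2 * 2 ^ k := by linarith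
            have := lt_of_mul_lt_mul_right h11 h10.le
            linarith
          have h6 : ((k₀ - k : ℕ) : ℝ) * Real.log 2 < Real.log (2 / θ) + 10 * Real.log R := by
            have h7 := Real.log_lt_log (by positivity) h5
            have h8 : 2 * R ^ 10 / θ = 2 / θ * R ^ 10 := by ring
            rw [Real.log_pow, h8, Real.log_mul (by positivity) (by positivity), Real.log_pow] at h7
            push_cast at h7
            exact h7
          have h7 : ((k₀ - k : ℕ) : ℝ) ≤ M := by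
            have h8 : (1 : ℝ) / 2 ≤ Real.log 2 := by linarith [Real.log_two_gt_d9]
            have h9 : (0 : ℝ) ≤ ((k₀ - k : ℕ) : ℝ) := by positivity
            have h10 := mul_le_mul_of_nonneg_left h8 h9
            have h11 := le_abs_self (Real.log (2 / θ))
            rw [hlR] at h6
            rw [hM]
            linarith
          exact Finset.mem_coe.mpr (Finset.mem_range.mpr (Nat.lt_succ_of_le (Nat.le_floor h7)))
        · intro a ha b hb hab
          have ha' := hmax a (Finset.mem_filter.mp ha).1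
          have hb' := hmax b (Finset.mem_filter.mp hb).1
          simp only at hab
          omega
      rw [Finset.card_range] at h3
      have h4 : ((B.filter fun k => ¬ (2 : ℝ) ^ (k + 1) ≤ θ / R ^ 10 * n).card : ℝ) ≤
          (⌊M⌋₊ : ℝ) + 1 := by exact_mod_cast h3
      have h5 := Nat.floor_le hM0
      linarith
    have h3 : (B.card : ℝ) = B'.card +
        (B.filter fun k => ¬ (2 : ℝ) ^ (k + 1) ≤ θ / R ^ 10 * n).card := by exact_mod_cast h1
    linarith
  have hΛG : Λ ≤ ∑ u ∈ G, 1 / (u : ℝ) := by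
    refine le_trans ?_ hsumG
    rw [hΛ]
    linarith
  have hfin := hcore n R Λ S G ?_ hn2 hR1 hΛ0 ?_ ?_ ?_ ?_ hΛG ?_
  · -- the contradiction
    have h1 : c₁ / R ^ 25 * Λ = c₁ / 8 * y ^ ((1 : ℝ) / 6) := by
      have h2 : R ^ 25 = y ^ ((5 : ℝ) / 6) := by
        rw [hR, ← Real.rpow_natCast, ← Real.rpow_mul hy0.le]
        norm_num
      have h3 : y ^ ((5 : ℝ) / 6) * y ^ ((1 : ℝ) / 6) = y := by
        rw [← Real.rpow_add hy0]
        norm_num
      have h4 : 0 < y ^ ((5 : ℝ) / 6) := by positivity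
      rw [h2, hΛ, div_mul_eq_mul_div, div_eq_iff h4.ne']
      calc c₁ * (y / 8) = c₁ / 8 * (y ^ ((5 : ℝ) / 6) * y ^ ((1 : ℝ) / 6)) := by rw [h3]; ring
        _ = _ := by ring
    rw [h1] at hfin
    have h2 : Real.log (Real.log n / Λ) ≤ Real.log (8 * y) := Real.log_le_log hq0 hq
    have h3 : C₁ * (1 + Real.log R) ≤ C₁ * (1 + Real.log y) := by
      refine mul_le_mul_of_nonneg_left ?_ hC₁
      rw [hlR]
      linarith
    linarith
  · have h1 : (N₀ : ℝ) ≤ n := e2.trans hexpn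
    exact_mod_cast h1
  · rw [hΛ]; linarith
  · refine le_trans ?_ (e3.trans hexpn)
    have h1 : R ^ 26 ≤ y := by
      rw [hR, ← Real.rpow_natCast, ← Real.rpow_mul hy0.le]
      calc y ^ ((1 : ℝ) / 30 * (26 : ℕ)) ≤ y ^ (1 : ℝ) :=
            Real.rpow_le_rpow_of_exponent_le (by linarith) (by norm_num)
        _ = y := Real.rpow_one _
    have h2 : R ^ 26 * (Real.log n / Λ) ≤ y * (8 * y) := mul_le_mul h1 hq hq0.le hy0.le
    calc Bc * (R ^ 26 * (Real.log n / Λ)) ≤ |Bc| * (R ^ 26 * (Real.log n / Λ)) :=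
          mul_le_mul_of_nonneg_right (le_abs_self _) (by positivity)
      _ ≤ |Bc| * (y * (8 * y)) := mul_le_mul_of_nonneg_left h2 (abs_nonneg _)
      _ = 8 * |Bc| * y ^ 2 := by ring
  · intro u hu1 hu2
    have h1 : 2 ^ k₀ ≤ u := by
      have h2 : 3 * n ≤ 4 * u := by
        have : 3 * (n : ℝ) ≤ 4 * u := by linarith
        exact_mod_cast this
      omega
    have h3 := hlogmem k₀ u h1 (by omega)
    exact ⟨by omega, by rw [h3]; exact hk₀B⟩
  · intro u hu
    obtain ⟨hu0, hu1, hu2⟩ := Finset.mem_filter.mp hu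
    have hu3 := Finset.mem_filter.mp hu2
    refine ⟨⟨hu1, hu3.1⟩, hu1, ?_⟩
    refine le_trans ?_ hu3.2
    have : u < 2 ^ (Nat.log 2 u + 1) := Nat.lt_pow_succ_log_self (by norm_num) u
    exact_mod_cast this.le
  · intro s hs τ t h1 h2 h3
    obtain ⟨h4, h5⟩ := h3
    have h6 : t - τ ≠ 0 := by omega
    exact hB _ h5 (h + s • e) ⟨s, hs, rfl⟩ n τ t hnN h1 h2 (Nat.pow_log_le_self 2 h6)
      (Nat.lt_pow_succ_log_self (by norm_num) _)

end Pool.Agent.W_7d29a1_S90
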