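import Pool.Agent.W_7d29a1_S90.AllB85

/-!
Superdiffusive windows at almost all scales: every open set of tilts, any probability space.
-/

namespace Pool.Agent.W_7d29a1_S90

open MeasureTheory ProbabilityTheory Filter Topology Pool.Agent.W_MP_7d29a1_pr
  Pool.Agent.W_7d29a1_h46 Pool.Agent.W_7d29a1_h46u Pool.Agent.W_7d29a1_D2.B35
  Pool.Agent.W_7d29a1_Q29

/-- Every open set of tilts. -/
theorem allU85 {ρ : Measure ℝ} [IsProbabilityMeasure ρ] {β : ℝ} (hρ : EM ρ)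
    (hnc : ∀ c : ℝ, ρ {c} ≠ 1) (hβ : 0 < β) {U : Set (Vec 2)} (hU : IsOpen U)
    (hne : U.Nonempty) : ∀ᶠ N : ℕ in atTop, ∀ B : Finset ℕ, B ⊆ Finset.range (Nat.log 2 N) →
      (∀ k ∈ B, Df ρ β U N (Real.log N ^ ((1 : ℝ) / 60)) k) →
        (B.card : ℝ) ≤ Real.log N ^ ((1 : ℝ) / 2) := by
  obtain ⟨h, e, l, he, hl, hs, h2⟩ := seg17 hρ hnc hβ (by norm_num) hU hne
  obtain ⟨N₀, hN⟩ := all85 hρ hnc hβ he hl h2
  filter_upwards [eventually_ge_atTop N₀] with N hN' B hB hk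
  refine hN N hN' B hB fun k hkB g hg => hk k hkB g ?_
  obtain ⟨s, hs1, rfl⟩ := hg
  exact hs s hs1

variable {Ω : Type*} [MeasurableSpace Ω] {μ : Measure Ω} [IsProbabilityMeasure μ]
  {d : ℕ} {ω : ℕ × Site d → Ω → ℝ}

/-- **Superdiffusive windows at all but `(log N) ^ (1 / 2)` dyadic scales** in dimension two. -/
theorem allP85 {ρ : Measure ℝ} [IsProbabilityMeasure ρ] {β : ℝ} (hω : IID μ ρ ω) (hρ : EM ρ)
    (hnc : ∀ c : ℝ, ρ {c} ≠ 1) (hβ : 0 < β) (hd : d = 2) :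
    ∀ U : Set (Vec d), IsOpen U → U.Nonempty → ∀ᶠ N : ℕ in atTop, ∃ B : Finset ℕ,
      (B.card : ℝ) ≤ Real.log N ^ ((1 : ℝ) / 2) ∧ ∀ k : ℕ, 2 ^ (k + 1) ≤ N → k ∉ B →
        ∃ h ∈ U, ∃ n τ t : ℕ, n ≤ N ∧ t ≤ n ∧ τ + 2 ^ k ≤ t ∧ t < τ + 2 ^ (k + 1) ∧ ∀ m : Vec d,
          Real.log N ^ ((1 : ℝ) / 60) * ((t : ℝ) - τ) <
            ∫ x, ∑ s : Fin n → Step d, PolT β h (fun p => ω p x) {s} *
              ‖emb (pos s t) - emb (pos s τ) - m‖ ^ 2 ∂μ := by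
  classical
  subst hd
  intro U hU hne
  filter_upwards [allU85 hρ hnc hβ hU hne] with N hN
  refine ⟨(Finset.range (Nat.log 2 N)).filter fun k =>
    Df ρ β U N (Real.log N ^ ((1 : ℝ) / 60)) k, hN _ (Finset.filter_subset _ _)
    fun k hk => (Finset.mem_filter.mp hk).2, fun k hk hkB => ?_⟩
  have hk1 : k < Nat.log 2 N := Nat.le_log_of_pow_le (by norm_num) hk
  have hk2 : ¬ Df ρ β U N (Real.log N ^ ((1 : ℝ) / 60)) k := fun h =>
    hkB (Finset.mem_filter.mpr ⟨Finset.mem_range.mpr hk1, h⟩)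
  unfold Df at hk2
  push Not at hk2
  obtain ⟨h, hh, n, τ, t, h1, h2, h3, h4, h5, h6⟩ := hk2
  refine ⟨h, hh, n, τ, t, h1, h3, by omega, by omega, fun m => ?_⟩
  have h7 := tr17 (β := β) (by norm_num : 0 < 2) hω h (fun s : Fin n → Step 2 => inc τ t m s ^ 2)
  unfold inc at h7
  rw [h7]
  exact h6 m

end Pool.Agent.W_7d29a1_S90
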