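import Pool.Agent.W_7d29a1_S90.MainC45

/-!
Assembly of the main statement with second moments, fourth part: the inequality between `R` and
`log n`.
-/

namespace Pool.Agent.W_7d29a1_S90

open MeasureTheory ProbabilityTheory Filter Topology Pool.Agent.W_MP_7d29a1_pr
  Pool.Agent.W_7d29a1_h46 Pool.Agent.W_7d29a1_h46u Pool.Agent.W_7d29a1_D2.B35
  Pool.Agent.W_7d29a1_Q29

/-- The two grids. -/
theorem grids45 {n : ℕ} {l a a₁ : ℝ} (hn : 1 ≤ n) (hl : 0 < l) (ha₁ : 0 < a₁) (haa : a₁ ≤ a)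
    (hal : a ^ 2 ≤ l ^ 2 * n) : ∃ (k : ℝ) (J A : ℕ), 0 < k ∧ 0 < A ∧ J * k = l ∧
      a ^ 2 ≤ k ^ 2 * n ∧ k ^ 2 * n ≤ 4 * a ^ 2 ∧
        a₁ ^ 2 ≤ n * (k / A) ^ 2 ∧ n * (k / A) ^ 2 ≤ 4 * a₁ ^ 2 := by
  have hn' : (0 : ℝ) < n := by exact_mod_cast hn
  have hq : 0 < Real.sqrt n := Real.sqrt_pos.mpr hn'
  have hqq : Real.sqrt n ^ 2 = n := Real.sq_sqrt hn'.le
  have ha : 0 < a := ha₁.trans_le haa
  have h1 : a ≤ l * Real.sqrt n := by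
    refine le_of_sq_le_sq ?_ (by positivity)
    rw [mul_pow, hqq]
    exact hal
  have h2 : 1 ≤ l * Real.sqrt n / a := by rwa [one_le_div ha]
  obtain ⟨h3, h4, h5⟩ := grid45 h2
  set J := ⌊l * Real.sqrt n / a⌋₊
  have hJ0 : (0 : ℝ) < J := by linarith
  rw [le_div_iff₀ ha] at h4
  rw [div_le_iff₀ ha] at h5
  have hk : 0 < l / J := by positivity
  have h6 : a ≤ l / J * Real.sqrt n := by
    rw [div_mul_eq_mul_div, le_div_iff₀ hJ0]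
    linarith
  have h7 : l / J * Real.sqrt n ≤ 2 * a := by
    rw [div_mul_eq_mul_div, div_le_iff₀ hJ0]
    linarith
  have h8 : 1 ≤ l / J * Real.sqrt n / a₁ := by
    rw [one_le_div ha₁]; linarith
  obtain ⟨h9, h10, h11⟩ := grid45 h8
  set B := ⌊l / J * Real.sqrt n / a₁⌋₊
  have hB0 : (0 : ℝ) < B := by linarith
  rw [le_div_iff₀ ha₁] at h10
  rw [div_le_iff₀ ha₁] at h11
  have h12 : a₁ ≤ Real.sqrt n * (l / J / B) := by
    rw [← mul_div_assoc, le_div_iff₀ hB0]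
    linarith
  have h13 : Real.sqrt n * (l / J / B) ≤ 2 * a₁ := by
    rw [← mul_div_assoc, div_le_iff₀ hB0]
    linarith
  refine ⟨l / J, J, B, hk, by exact_mod_cast hB0, by field_simp, ?_, ?_, ?_, ?_⟩
  · calc a ^ 2 ≤ (l / J * Real.sqrt n) ^ 2 := pow_le_pow_left₀ ha.le h6 2
      _ = _ := by rw [mul_pow, hqq]
  · calc (l / J) ^ 2 * (n : ℝ) = (l / J * Real.sqrt n) ^ 2 := by rw [mul_pow, hqq]
      _ ≤ (2 * a) ^ 2 := pow_le_pow_left₀ (by positivity) h7 2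
      _ = _ := by ring
  · calc a₁ ^ 2 ≤ (Real.sqrt n * (l / J / B)) ^ 2 := pow_le_pow_left₀ ha₁.le h12 2
      _ = _ := by rw [mul_pow, hqq]
  · calc (n : ℝ) * (l / J / B) ^ 2 = (Real.sqrt n * (l / J / B)) ^ 2 := by rw [mul_pow, hqq]
      _ ≤ (2 * a₁) ^ 2 := pow_le_pow_left₀ (by positivity) h13 2
      _ = _ := by ring

/-- The late times. -/
theorem late45 {n : ℕ} {η : ℝ} (hn : 1 ≤ n) (hη : 0 < η) (hη1 : η ≤ 1 / 4) :
    ∃ T : Finset ℕ, T.Nonempty ∧ η * n ≤ (T.card : ℝ) ∧ T ⊆ Finset.Icc 1 n ∧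
      ∀ t ∈ T, 1 ≤ t ∧ t ≤ n ∧ (1 - η) * n ≤ t := by
  have hn' : (0 : ℝ) < n := by exact_mod_cast hn
  have h0 : 0 ≤ (1 - η) * n := by nlinarith
  have h00 : 0 < (1 - η) * n := mul_pos (by linarith) hn'
  have h1 : ⌈(1 - η) * n⌉₊ ≤ n := Nat.ceil_le.mpr (by nlinarith)
  have h2 : (⌈(1 - η) * n⌉₊ : ℝ) < (1 - η) * n + 1 := Nat.ceil_lt_add_one h0
  have h3 : 1 ≤ ⌈(1 - η) * n⌉₊ := Nat.one_le_ceil_iff.mpr h00
  refine ⟨Finset.Icc ⌈(1 - η) * n⌉₊ n, ⟨n, Finset.mem_Icc.mpr ⟨h1, le_rfl⟩⟩, ?_, ?_, ?_⟩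
  · rw [Nat.card_Icc, Nat.cast_sub (by omega)]
    push_cast
    linarith
  · exact Finset.Icc_subset_Icc_left h3
  · intro t ht
    rw [Finset.mem_Icc] at ht
    exact ⟨h3.trans ht.1, ht.2, (Nat.le_ceil _).trans (by exact_mod_cast ht.1)⟩

end Pool.Agent.W_7d29a1_S90
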