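import Pool.Agent.W_7d29a1_S90.StepO28
import Pool.Agent.W_7d29a1_S90.MainD45

/-!
Theorem ORI: the inequality between `R` and `log n`.
-/

namespace Pool.Agent.W_7d29a1_S90

open MeasureTheory ProbabilityTheory Filter Topology Pool.Agent.W_MP_7d29a1_pr
  Pool.Agent.W_7d29a1_h46 Pool.Agent.W_7d29a1_h46u Pool.Agent.W_7d29a1_D2.B35
  Pool.Agent.W_7d29a1_Q29

/-- A third grid. -/
theorem subO28 {n : ℕ} {q a₁ : ℝ} (hn : 1 ≤ n) (hq : 0 < q) (ha₁ : 0 < a₁)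
    (haq : a₁ ^ 2 ≤ n * q ^ 2) : ∃ A₁ : ℕ, 0 < A₁ ∧ a₁ ^ 2 ≤ n * (q / A₁) ^ 2 ∧
      n * (q / A₁) ^ 2 ≤ 4 * a₁ ^ 2 := by
  have hn' : (0 : ℝ) < n := by exact_mod_cast hn
  have hqq : Real.sqrt n ^ 2 = n := Real.sq_sqrt hn'.le
  have h1 : a₁ ≤ q * Real.sqrt n := by
    refine le_of_sq_le_sq ?_ (by positivity)
    rw [mul_pow, hqq]
    linarith
  have h8 : 1 ≤ q * Real.sqrt n / a₁ := by rwa [one_le_div ha₁]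
  obtain ⟨h9, h10, h11⟩ := grid45 h8
  set B := ⌊q * Real.sqrt n / a₁⌋₊
  have hB0 : (0 : ℝ) < B := by linarith
  rw [le_div_iff₀ ha₁] at h10
  rw [div_le_iff₀ ha₁] at h11
  have h12 : a₁ ≤ Real.sqrt n * (q / B) := by
    rw [← mul_div_assoc, le_div_iff₀ hB0]
    linarith
  have h13 : Real.sqrt n * (q / B) ≤ 2 * a₁ := by
    rw [← mul_div_assoc, div_le_iff₀ hB0]
    linarith
  refine ⟨B, by exact_mod_cast hB0, ?_, ?_⟩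
  · calc a₁ ^ 2 ≤ (Real.sqrt n * (q / B)) ^ 2 := pow_le_pow_left₀ ha₁.le h12 2
      _ = _ := by rw [mul_pow, hqq]
  · calc (n : ℝ) * (q / B) ^ 2 = (Real.sqrt n * (q / B)) ^ 2 := by rw [mul_pow, hqq]
      _ ≤ (2 * a₁) ^ 2 := pow_le_pow_left₀ (by positivity) h13 2
      _ = _ := by ring

/-- From the two bounds of one row to the inequality for `log n`. -/
theorem logsO28 {n : ℕ} {R γ g₀ cL E v₂ θ₀ θ V₂ : ℝ} (hn : 1 ≤ n) (hR : 1 ≤ R)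
    (hγ : γ = g₀ / R ^ 70) (hcL : 0 < cL) (hθ₀ : 0 < θ₀) (hv₂ : 0 < v₂)
    (hθ : θ = θ₀ / R ^ 4) (hV₂ : V₂ = v₂ * R ^ 144)
    (hV : cL / 2 * Real.exp (-((1 - γ / 2) * Real.log n + 2 * E + 2 / cL)) ≤
      4 * V₂ / (θ * n)) :
    g₀ / 2 / R ^ 70 * Real.log n ≤
      2 * E + 2 / cL + (|Real.log (8 * v₂ / (θ₀ * cL))| + 148 * Real.log R) := by
  have hn' : (0 : ℝ) < n := by exact_mod_cast hn
  have hR0 : 0 < R := by linarith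
  set G := 8 * v₂ / (θ₀ * cL) with hG
  have hG0 : 0 < G := by positivity
  have h1 : Real.exp (-((1 - γ / 2) * Real.log n + 2 * E + 2 / cL)) =
      Real.exp (γ / 2 * Real.log n - (2 * E + 2 / cL)) / n := by
    have h0 : -((1 - γ / 2) * Real.log n + 2 * E + 2 / cL) =
        (γ / 2 * Real.log n - (2 * E + 2 / cL)) + -Real.log n := by ring
    rw [h0, Real.exp_add, Real.exp_neg, Real.exp_log hn', ← div_eq_mul_inv]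
  rw [h1] at hV
  have h6 : Real.exp (γ / 2 * Real.log n - (2 * E + 2 / cL)) ≤ G * R ^ 148 := by
    have h2 : cL / 2 * (Real.exp (γ / 2 * Real.log n - (2 * E + 2 / cL)) / n) * n ≤
        4 * V₂ / (θ * n) * n := mul_le_mul_of_nonneg_right hV hn'.le
    have h3 : cL / 2 * (Real.exp (γ / 2 * Real.log n - (2 * E + 2 / cL)) / n) * n =
        cL / 2 * Real.exp (γ / 2 * Real.log n - (2 * E + 2 / cL)) := by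
      field_simp
    have h4 : 4 * V₂ / (θ * n) * n = 4 * v₂ * R ^ 148 / θ₀ := by
      rw [hV₂, hθ]
      field_simp
    rw [h3, h4] at h2
    have h5 : G * R ^ 148 = 2 / cL * (4 * v₂ * R ^ 148 / θ₀) := by
      rw [hG]
      field_simp
      ring
    rw [h5]
    calc Real.exp (γ / 2 * Real.log n - (2 * E + 2 / cL))
        = 2 / cL * (cL / 2 * Real.exp (γ / 2 * Real.log n - (2 * E + 2 / cL))) := by
          field_simp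
      _ ≤ _ := mul_le_mul_of_nonneg_left h2 (by positivity)
  have h8 := Real.log_le_log (Real.exp_pos _) h6
  rw [Real.log_exp, Real.log_mul hG0.ne' (by positivity), Real.log_pow] at h8
  have h9 : γ / 2 * Real.log n = g₀ / 2 / R ^ 70 * Real.log n := by rw [hγ]; ring
  have h10 : Real.log G ≤ |Real.log G| := le_abs_self _
  push_cast at h8
  linarith

lemma vO28 {b R a : ℝ} (hb : 0 ≤ b) (hR : 1 ≤ R) (p : ℕ) (ha : a ^ 2 = b * R ^ p) :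
    8 * a ^ 2 * R + 16 * R ^ 2 * a ^ 4 ≤ (8 * b + 16 * b ^ 2) * R ^ (2 * p + 2) := by
  have h1 : a ^ 4 = (a ^ 2) ^ 2 := by ring
  rw [h1, ha]
  have h2 : R ^ (p + 1) ≤ R ^ (2 * p + 2) := pow_le_pow_right₀ hR (by omega)
  have h3 : 8 * (b * R ^ p) * R + 16 * R ^ 2 * (b * R ^ p) ^ 2 =
      8 * b * R ^ (p + 1) + 16 * b ^ 2 * R ^ (2 * p + 2) := by ring
  have h4 := mul_le_mul_of_nonneg_left h2 (by positivity : 0 ≤ 8 * b)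
  rw [h3, add_mul]
  linarith

lemma qO28 {c cI κ₀ κ ϑ₀ ϑ b₃ R cB CB : ℝ} (hc : 0 < c) (hR : 1 ≤ R) (hcI : 0 < cI)
    (hκ₀ : 0 < κ₀) (hκ : κ = κ₀ / R ^ 4) (hϑ₀ : ϑ₀ = cI * κ₀ ^ 2) (hϑ : ϑ = cI * κ ^ 2)
    (hb₃ : b₃ = 192 * (1 + CB / cB) / (c ^ 2 * ϑ₀)) :
    c ^ 2 * ϑ * (b₃ * R ^ 9) = 192 * (1 + CB / cB) * R := by
  have hR0 : 0 < R := by linarith
  obtain ⟨z, hz⟩ : ∃ z, z = 1 + CB / cB := ⟨_, rfl⟩
  rw [← hz] at hb₃ ⊢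
  subst hb₃ hϑ hϑ₀ hκ
  field_simp

lemma kO28 {cI κ₀ κ ϑ₀ ϑ θ₀ θ K₀ K v₃ R cB : ℝ} (hR : 1 ≤ R) (hcI : 0 < cI) (hcB : 0 < cB)
    (hκ₀ : 0 < κ₀) (hθ₀ : 0 < θ₀) (hκ : κ = κ₀ / R ^ 4) (hϑ₀ : ϑ₀ = cI * κ₀ ^ 2)
    (hϑ : ϑ = cI * κ ^ 2) (hθ : θ = θ₀ / R ^ 4) (hK₀ : K₀ = 972 * v₃ / (θ₀ * cB ^ 2 * ϑ₀ ^ 3))
    (hK : K = K₀ * R ^ 50) :
    972 * (v₃ * R ^ 20) * R ^ 2 ≤ K * (θ * cB ^ 2 * ϑ ^ 3) := by
  have hR0 : 0 < R := by linarith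
  refine le_of_eq ?_
  subst hK hK₀ hθ hϑ hϑ₀ hκ
  field_simp

lemma sO28 {c θ₀ K₀ K A₀ R n s : ℝ} (hR : 1 ≤ R) (hn : 0 < n) (hθ₀ : 0 < θ₀)
    (hθ₀1 : θ₀ ≤ 1) (hK₀ : 0 < K₀) (hK : K = K₀ * R ^ 50) (hA₀ : A₀ = c ^ 2 * θ₀ / (4096 * K₀))
    (hs : s ≤ A₀ / R ^ 55 * n) : 4 * K * s ≤ c ^ 2 / 1024 / R * n := by
  have hR0 : 0 < R := by linarith
  have hK0 : 0 < K := by rw [hK]; positivity
  have h1 : 4 * K * s ≤ 4 * K * (A₀ / R ^ 55 * n) := mul_le_mul_of_nonneg_left hs (by positivity)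
  refine h1.trans ?_
  have h2 : 4 * K * (A₀ / R ^ 55 * n) = c ^ 2 * θ₀ / 1024 / R ^ 5 * n := by
    rw [hK, hA₀]
    field_simp
    ring
  rw [h2]
  refine mul_le_mul_of_nonneg_right ?_ hn.le
  have h3 : R ≤ R ^ 5 := le_self_pow₀ hR (by norm_num)
  have h4 : c ^ 2 * θ₀ ≤ c ^ 2 := mul_le_of_le_one_right (by positivity) hθ₀1
  exact div_le_div₀ (by positivity) (by linarith) hR0 h3

lemma tO28 {c θ₀ θ K₀ A₀ R n s : ℝ} (hR : 1 ≤ R) (hn : 0 < n) (hc2 : c ^ 2 ≤ 1)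
    (hθ₀ : 0 < θ₀) (hK₀ : 1 ≤ K₀) (hθ : θ = θ₀ / R ^ 4)
    (hA₀ : A₀ = c ^ 2 * θ₀ / (4096 * K₀)) (hs : s ≤ A₀ / R ^ 55 * n) : 4 * s ≤ θ * n := by
  have hR0 : 0 < R := by linarith
  have hK0 : 0 < K₀ := by linarith
  have h1 : 4 * s ≤ 4 * (A₀ / R ^ 55 * n) := by linarith
  refine h1.trans ?_
  have h2 : 4 * (A₀ / R ^ 55) ≤ θ := by
    rw [hθ, hA₀]
    have h3 : R ^ 4 ≤ R ^ 55 := pow_le_pow_right₀ hR (by norm_num)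
    have h4 : 4 * (c ^ 2 * θ₀ / (4096 * K₀) / R ^ 55) = c ^ 2 / (1024 * K₀) * (θ₀ / R ^ 55) := by
      field_simp
      ring
    rw [h4]
    have h5 : c ^ 2 / (1024 * K₀) ≤ 1 := by
      rw [div_le_one (by positivity)]
      linarith
    have h6 : θ₀ / R ^ 55 ≤ θ₀ / R ^ 4 := div_le_div_of_nonneg_left hθ₀.le (by positivity) h3
    calc c ^ 2 / (1024 * K₀) * (θ₀ / R ^ 55) ≤ 1 * (θ₀ / R ^ 55) :=
          mul_le_mul_of_nonneg_right h5 (by positivity)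
      _ ≤ _ := by linarith
  calc 4 * (A₀ / R ^ 55 * n) = 4 * (A₀ / R ^ 55) * n := by ring
    _ ≤ θ * n := mul_le_mul_of_nonneg_right h2 hn.le

lemma gO28 {c cL CL g₀ γ b₂ b₃ R x : ℝ} (hR : 1 ≤ R) (hc : 0 < c) (hcL : 0 < cL)
    (hg₀ : 0 < g₀) (hb₃ : 0 < b₃) (hγ : γ = g₀ / R ^ 70)
    (hb₂ : b₂ = 64 * (cL + CL) / (cL * c ^ 2 * g₀) + b₃) (hx : b₂ * R ^ 71 ≤ x) :
    64 * R * (cL + CL) ≤ cL * c ^ 2 * γ * x := by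
  have hR0 : 0 < R := by linarith
  have h1 : cL * c ^ 2 * γ * (64 * (cL + CL) / (cL * c ^ 2 * g₀) * R ^ 71) =
      64 * R * (cL + CL) := by
    rw [hγ]
    field_simp
  have hγ0 : 0 < γ := by rw [hγ]; positivity
  rw [← h1]
  refine mul_le_mul_of_nonneg_left (le_trans ?_ hx) (by positivity)
  rw [hb₂, add_mul]
  have : 0 ≤ b₃ * R ^ 71 := by positivity
  linarith

lemma wO28 {cI κ₀ κ θ₀ θ K₀ K g₀ γ R α' : ℝ} (hR : 1 ≤ R) (hκ₀ : 0 < κ₀) (hθ₀ : 0 < θ₀)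
    (hK₀ : 0 < K₀) (hκ : κ = κ₀ / R ^ 4) (hθ : θ = θ₀ / R ^ 4) (hK : K = K₀ * R ^ 50)
    (hg₀ : g₀ = cI * κ₀ ^ 4 * θ₀ * (1 - α') / (8 * K₀)) (hγ : γ = g₀ / R ^ 70) :
    γ = cI * κ ^ 4 / K * (θ / 8) * (1 - α') := by
  have hR0 : 0 < R := by linarith
  rw [hγ, hg₀, hK, hθ, hκ]
  field_simp

lemma nO28 {w θ γ α' L S₀ S₁ lR CI E E₀ lA : ℝ} (hw0 : 0 < w) (hw1 : w ≤ 1) (hθ0 : 0 < θ)
    (hθ1 : θ ≤ 1) (hγ : γ = w * (θ / 8) * (1 - α')) (hlR : 0 ≤ lR)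
    (hlA : 0 ≤ lA) (hl2 : 0 ≤ Real.log 2) (hS₁ : -lA - 55 * lR + L ≤ S₁)
    (hS₀ : S₀ ≤ Real.log 2 + α' * L) (hE₀ : E₀ = CI + 1 + Real.log 2 + lA)
    (hE : E = E₀ + 56 * lR) :
    L + lR + CI - w * (θ / 2 / 4 * (S₁ - S₀) - 1) ≤ (1 - γ) * L + E := by
  have h1 : (1 - α') * L - (Real.log 2 + lA + 55 * lR) ≤ S₁ - S₀ := by linarith
  have hwθ : 0 ≤ w * (θ / 8) := by positivity
  have hwθ1 : w * (θ / 8) ≤ 1 := mul_le_one₀ hw1 (by positivity) (by linarith)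
  have h2 := mul_le_mul_of_nonneg_left h1 hwθ
  have h3 : 0 ≤ Real.log 2 + lA + 55 * lR := by positivity
  have h4 : w * (θ / 8) * (Real.log 2 + lA + 55 * lR) ≤ Real.log 2 + lA + 55 * lR :=
    mul_le_of_le_one_left h3 hwθ1
  have h5 : w * (θ / 8) * ((1 - α') * L - (Real.log 2 + lA + 55 * lR)) =
      γ * L - w * (θ / 8) * (Real.log 2 + lA + 55 * lR) := by
    rw [hγ]
    ring
  rw [h5] at h2
  have h6 : w * (θ / 2 / 4 * (S₁ - S₀) - 1) = w * (θ / 8) * (S₁ - S₀) - w := by ring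
  rw [h6, hE, hE₀]
  linarith

lemma aO28 {c R ϑ₀ b₃ cB CB : ℝ} (hR : 1 ≤ R) (hc : 0 < c) (hϑ₀ : 0 < ϑ₀) (hϑ₀1 : ϑ₀ ≤ 1)
    (hCBB : 0 ≤ CB / cB) (hb₃ : b₃ = 192 * (1 + CB / cB) / (c ^ 2 * ϑ₀)) :
    128 * R / c ^ 2 ≤ b₃ * R ^ 9 := by
  have hR0 : 0 < R := by linarith
  have h1 : R ≤ R ^ 9 := le_self_pow₀ hR (by norm_num)
  have h2 : 128 ≤ 192 * (1 + CB / cB) / ϑ₀ := by
    rw [le_div_iff₀ hϑ₀]
    nlinarith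
  have h3 : b₃ * R ^ 9 = 192 * (1 + CB / cB) / ϑ₀ * R ^ 9 / c ^ 2 := by
    rw [hb₃]
    field_simp
  rw [h3]
  refine div_le_div_of_nonneg_right ?_ (by positivity)
  exact mul_le_mul h2 h1 hR0.le (by positivity)

lemma fO28 {E₀ E x y lR G : ℝ} (hE : E = E₀ + 56 * lR) (hlR : 0 ≤ lR) (hE₀ : 0 ≤ E₀)
    (hx : 0 ≤ x) (hG : 0 ≤ G) (hy : y ≤ 2 * E + x + (G + 148 * lR)) :
    y ≤ (2 * E₀ + x + G + 260) * (1 + lR) := by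
  rw [hE] at hy
  have h1 : 0 ≤ (2 * E₀ + x + G) * lR := by positivity
  have h2 : (2 * E₀ + x + G + 260) * (1 + lR) =
      2 * E₀ + x + G + 260 + (2 * E₀ + x + G) * lR + 260 * lR := by ring
  rw [h2]
  linarith

/-- The inequality between `R` and `log n`. -/
theorem coreO28 {ρ : Measure ℝ} [IsProbabilityMeasure ρ] {β : ℝ} (hCa : CaT 2 ρ β)
    (hCs : CsT 2 ρ β) (hCo : CsO 2 ρ β) (hKc : KcT 2 ρ β) (hKs : KsT 2 ρ β) (hIn : InO ρ β)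
    (hLo : LoV 2 ρ β) (hRl : RlV 2 ρ β) (hWi : WiT 2 ρ β) (hSt : StM 2 ρ β) (hVu : VuT 2 ρ β)
    (hJe : JeT) (hAs : AsO) (hSe : SeT)
    {h e : Vec 2} (he : ‖e‖ = 1) {l α D : ℝ} (hl : 0 < l) (hα : α < 1) (hD : 0 < D) (hD1 : D ≤ 1)
    (hDl : D ≤ 4 * l) {N₀ : ℕ}
    (hDr : ∀ n : ℕ, N₀ ≤ n → D * n ≤ Ft ρ β (h + l • e) e n n - Ft ρ β h e n n) :
    ∃ c₁ C₁ B : ℝ, 0 < c₁ ∧ 0 ≤ C₁ ∧ 0 ≤ B ∧ ∀ (n : ℕ) (R : ℝ), N₀ ≤ n → 1 ≤ n → 1 ≤ R →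
      (n : ℝ) ^ α ≤ n / 2 → B * R ^ 71 ≤ n →
      (∀ s ∈ Set.Icc (0 : ℝ) l, W0 ρ β (h + s • e) n α R) →
        c₁ / R ^ 70 * Real.log n ≤ C₁ * (1 + Real.log R) := by
  obtain ⟨cL, CL, hcL, hcL1, hCL, hLo⟩ := hLo
  obtain ⟨cB, CB, hcB, hcB1, hCB, hRl⟩ := hRl
  obtain ⟨cI, CI, hcI, hcI1, hCI, hIn⟩ := hIn
  obtain ⟨c, hc⟩ : ∃ c, c = D / (4 * l) := ⟨_, rfl⟩
  have hc0 : 0 < c := by rw [hc]; positivity
  have hc1 : c ≤ 1 := by rw [hc, div_le_one (by positivity)]; exact hDl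
  obtain ⟨α', hα'⟩ : ∃ α' : ℝ, α' = max α 0 := ⟨_, rfl⟩
  have hα0 : 0 ≤ α' := by rw [hα']; exact le_max_right _ _
  have hαα : α ≤ α' := by rw [hα']; exact le_max_left _ _
  have hα1 : α' < 1 := by rw [hα']; exact max_lt hα one_pos
  have hc4 : c ^ 4 ≤ 1 := pow_le_one₀ hc0.le hc1
  have hc2 : c ^ 2 ≤ 1 := pow_le_one₀ hc0.le hc1
  obtain ⟨κ₀, hκ₀⟩ : ∃ κ₀, κ₀ = c ^ 4 / 524288 := ⟨_, rfl⟩
  have hκ₀0 : 0 < κ₀ := by rw [hκ₀]; positivity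
  have hκ₀1 : κ₀ ≤ 1 := by
    rw [hκ₀, div_le_one (by norm_num)]
    linarith
  obtain ⟨ϑ₀, hϑ₀⟩ : ∃ ϑ₀, ϑ₀ = cI * κ₀ ^ 2 := ⟨_, rfl⟩
  have hϑ₀0 : 0 < ϑ₀ := by rw [hϑ₀]; positivity
  have hϑ₀1 : ϑ₀ ≤ 1 := by
    rw [hϑ₀]
    exact mul_le_one₀ hcI1 (by positivity) (pow_le_one₀ hκ₀0.le hκ₀1)
  obtain ⟨η, hη⟩ : ∃ η, η = D / 4 := ⟨_, rfl⟩
  have hη0 : 0 < η := by rw [hη]; positivity
  have hη1 : η ≤ 1 / 4 := by rw [hη]; linarith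
  obtain ⟨θ₀, hθ₀⟩ : ∃ θ₀, θ₀ = c ^ 4 * η / 1024 := ⟨_, rfl⟩
  have hθ₀0 : 0 < θ₀ := by rw [hθ₀]; positivity
  have hθ₀1 : θ₀ ≤ 1 := by
    rw [hθ₀, div_le_one (by norm_num)]
    have := mul_le_one₀ hc4 hη0.le (by linarith : η ≤ 1)
    linarith
  obtain ⟨b₃, hb₃⟩ : ∃ b₃, b₃ = 192 * (1 + CB / cB) / (c ^ 2 * ϑ₀) := ⟨_, rfl⟩
  have hCBB : 0 ≤ CB / cB := by positivity
  have hb₃0 : 0 < b₃ := by rw [hb₃]; positivity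
  have hb₃1 : 1 ≤ b₃ := by
    rw [hb₃, le_div_iff₀ (by positivity)]
    have h1 : c ^ 2 * ϑ₀ ≤ 1 := mul_le_one₀ hc2 hϑ₀0.le hϑ₀1
    linarith
  obtain ⟨v₃, hv₃⟩ : ∃ v₃, v₃ = 8 * b₃ + 16 * b₃ ^ 2 := ⟨_, rfl⟩
  have hv₃0 : 0 < v₃ := by rw [hv₃]; positivity
  have hv₃1 : 1 ≤ v₃ := by
    rw [hv₃]
    have := sq_nonneg b₃
    linarith
  obtain ⟨K₀, hK₀⟩ : ∃ K₀, K₀ = 972 * v₃ / (θ₀ * cB ^ 2 * ϑ₀ ^ 3) := ⟨_, rfl⟩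
  have hK₀0 : 0 < K₀ := by rw [hK₀]; positivity
  have hK₀1 : 1 ≤ K₀ := by
    rw [hK₀, le_div_iff₀ (by positivity)]
    have h1 : θ₀ * cB ^ 2 ≤ 1 := mul_le_one₀ hθ₀1 (by positivity) (pow_le_one₀ hcB.le hcB1)
    have h2 : θ₀ * cB ^ 2 * ϑ₀ ^ 3 ≤ 1 := mul_le_one₀ h1 (by positivity)
      (pow_le_one₀ hϑ₀0.le hϑ₀1)
    linarith
  obtain ⟨g₀, hg₀⟩ : ∃ g₀, g₀ = cI * κ₀ ^ 4 * θ₀ * (1 - α') / (8 * K₀) := ⟨_, rfl⟩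
  have h1α : 0 < 1 - α' := by linarith
  have hg₀0 : 0 < g₀ := by rw [hg₀]; positivity
  have hg₀1 : g₀ ≤ 1 := by
    rw [hg₀, div_le_one (by positivity)]
    have h1 : cI * κ₀ ^ 4 ≤ 1 := mul_le_one₀ hcI1 (by positivity) (pow_le_one₀ hκ₀0.le hκ₀1)
    have h2 : cI * κ₀ ^ 4 * θ₀ ≤ 1 := mul_le_one₀ h1 hθ₀0.le hθ₀1
    have h3 : cI * κ₀ ^ 4 * θ₀ * (1 - α') ≤ 1 := mul_le_one₀ h2 h1α.le (by linarith)
    linarith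
  obtain ⟨b₂, hb₂⟩ : ∃ b₂, b₂ = 64 * (cL + CL) / (cL * c ^ 2 * g₀) + b₃ := ⟨_, rfl⟩
  have hb₂0 : 0 < b₂ := by rw [hb₂]; positivity
  have hb32 : b₃ ≤ b₂ := by
    rw [hb₂]
    have : 0 ≤ 64 * (cL + CL) / (cL * c ^ 2 * g₀) := by positivity
    linarith
  obtain ⟨v₂, hv₂⟩ : ∃ v₂, v₂ = 8 * b₂ + 16 * b₂ ^ 2 := ⟨_, rfl⟩
  have hv₂0 : 0 < v₂ := by rw [hv₂]; positivity
  obtain ⟨A₀, hA₀⟩ : ∃ A₀, A₀ = c ^ 2 * θ₀ / (4096 * K₀) := ⟨_, rfl⟩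
  have hA₀0 : 0 < A₀ := by rw [hA₀]; positivity
  have hA₀1 : A₀ ≤ 1 / 4096 := by
    rw [hA₀, div_le_div_iff₀ (by positivity) (by norm_num)]
    have := mul_le_one₀ hc2 hθ₀0.le hθ₀1
    linarith
  obtain ⟨lA, hlAe⟩ : ∃ lA, lA = -Real.log A₀ := ⟨_, rfl⟩
  have hlA : 0 ≤ lA := by
    have := Real.log_nonpos hA₀0.le (by linarith : A₀ ≤ 1)
    linarith
  have hl2 : 0 ≤ Real.log 2 := Real.log_nonneg (by norm_num)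
  obtain ⟨E₀, hE₀⟩ : ∃ E₀, E₀ = CI + 1 + Real.log 2 + lA := ⟨_, rfl⟩
  have hE₀0 : 0 ≤ E₀ := by rw [hE₀]; linarith
  refine ⟨g₀ / 2, 2 * E₀ + 2 / cL + |Real.log (8 * v₂ / (θ₀ * cL))| + 260, b₂ / l ^ 2,
    by positivity, by positivity, by positivity, ?_⟩
  intro n R hnN hn hR hαn hB hW
  have hn' : (0 : ℝ) < n := by exact_mod_cast hn
  have hnR : (1 : ℝ) ≤ n := by exact_mod_cast hn
  have hR0 : 0 < R := by linarith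
  have hlR : 0 ≤ Real.log R := Real.log_nonneg hR
  have hαn' : (n : ℝ) ^ α ≤ n := by linarith
  -- the scales
  obtain ⟨a₂, ha₂⟩ : ∃ a₂, a₂ = Real.sqrt (b₂ * R ^ 71) := ⟨_, rfl⟩
  have ha₂2 : a₂ ^ 2 = b₂ * R ^ 71 := by rw [ha₂]; exact Real.sq_sqrt (by positivity)
  obtain ⟨a₃, ha₃⟩ : ∃ a₃, a₃ = Real.sqrt (b₃ * R ^ 9) := ⟨_, rfl⟩
  have ha₃0 : 0 < a₃ := by rw [ha₃]; exact Real.sqrt_pos.mpr (by positivity)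
  have ha₃2 : a₃ ^ 2 = b₃ * R ^ 9 := by rw [ha₃]; exact Real.sq_sqrt (by positivity)
  obtain ⟨a₁, ha₁⟩ : ∃ a₁, a₁ = Real.sqrt (128 * R) / c := ⟨_, rfl⟩
  have ha₁0 : 0 < a₁ := by rw [ha₁]; positivity
  have ha₁2 : a₁ ^ 2 = 128 * R / c ^ 2 := by
    rw [ha₁, div_pow, Real.sq_sqrt (by positivity)]
  have h32 : a₃ ≤ a₂ := by
    rw [ha₃, ha₂]
    refine Real.sqrt_le_sqrt ?_
    have h1 : R ^ 9 ≤ R ^ 71 := pow_le_pow_right₀ hR (by norm_num)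
    exact mul_le_mul hb32 h1 (by positivity) hb₂0.le
  have h13 : a₁ ^ 2 ≤ a₃ ^ 2 := by
    rw [ha₁2, ha₃2]
    exact aO28 hR hc0 hϑ₀0 hϑ₀1 hCBB hb₃
  have hal : a₂ ^ 2 ≤ l ^ 2 * n := by
    rw [ha₂2]
    rw [div_mul_eq_mul_div, div_le_iff₀ (by positivity)] at hB
    linarith
  obtain ⟨k, J, A', hk, hA, hJ, hk1, hk2, hk3, hk4⟩ := grids45 hn hl ha₃0 h32 hal
  have hA' : (0 : ℝ) < A' := by exact_mod_cast hA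
  obtain ⟨A₁, hA₁, hk5, hk6⟩ := subO28 (q := k / A') hn (by positivity) ha₁0 (h13.trans hk3)
  obtain ⟨T, hT, hTc, -, hT1⟩ := late45 hn hη0 hη1
  -- the parameters
  obtain ⟨κ, hκ⟩ : ∃ κ, κ = c ^ 4 / (524288 * R ^ 4) := ⟨_, rfl⟩
  have hκe : κ = κ₀ / R ^ 4 := by rw [hκ, hκ₀]; field_simp
  have hκ0 : 0 < κ := by rw [hκe]; positivity
  have hR4 : 1 ≤ R ^ 4 := one_le_pow₀ hR
  have hκ1 : κ ≤ 1 := by
    rw [hκe, div_le_one (by positivity)]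
    linarith
  obtain ⟨ϑ, hϑ⟩ : ∃ ϑ, ϑ = cI * κ ^ 2 := ⟨_, rfl⟩
  have hϑ0 : 0 < ϑ := by rw [hϑ]; positivity
  obtain ⟨θ, hθ⟩ : ∃ θ, θ = θ₀ / R ^ 4 := ⟨_, rfl⟩
  have hθ0 : 0 < θ := by rw [hθ]; positivity
  have hθ1 : θ ≤ 1 := by
    rw [hθ, div_le_one (by positivity)]
    linarith
  obtain ⟨K, hK⟩ : ∃ K, K = K₀ * R ^ 50 := ⟨_, rfl⟩
  have hK1 : 1 ≤ K := by rw [hK]; exact one_le_mul_of_one_le_of_one_le hK₀1 (one_le_pow₀ hR)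
  have hK0 : 0 < K := by linarith
  obtain ⟨γ, hγ⟩ : ∃ γ, γ = g₀ / R ^ 70 := ⟨_, rfl⟩
  have hγ0 : 0 < γ := by rw [hγ]; positivity
  have hγ1 : γ ≤ 1 := by
    rw [hγ, div_le_one (by positivity)]
    have : 1 ≤ R ^ 70 := one_le_pow₀ hR
    linarith
  obtain ⟨s₀, hs0⟩ : ∃ s₀ : ℕ, s₀ = ⌈(n : ℝ) ^ α'⌉₊ := ⟨_, rfl⟩
  obtain ⟨s₁, hs1⟩ : ∃ s₁ : ℕ, s₁ = ⌊A₀ / R ^ 55 * n⌋₊ := ⟨_, rfl⟩
  have hna : 1 ≤ (n : ℝ) ^ α' := Real.one_le_rpow hnR hα0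
  have hs01 : 1 ≤ s₀ := by
    have : (0 : ℝ) < (n : ℝ) ^ α' := by linarith
    rw [hs0]
    exact Nat.one_le_iff_ne_zero.2 (Nat.ceil_pos.2 this).ne'
  have hs0c : (n : ℝ) ^ α' ≤ s₀ := by rw [hs0]; exact Nat.le_ceil _
  have hs1A : (s₁ : ℝ) ≤ A₀ / R ^ 55 * n := by rw [hs1]; exact Nat.floor_le (by positivity)
  have hs1B : A₀ / R ^ 55 * n ≤ (s₁ : ℝ) + 1 := by
    rw [hs1]
    exact (Nat.lt_floor_add_one _).le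
  have hR55 : 1 ≤ R ^ 55 := one_le_pow₀ hR
  have hAR : A₀ / R ^ 55 ≤ A₀ := div_le_self hA₀0.le hR55
  have hs1n : (s₁ : ℝ) ≤ 1 / 4096 * n := hs1A.trans
    (mul_le_mul_of_nonneg_right (hAR.trans hA₀1) hn'.le)
  have hhalf : ∀ t ∈ T, (n : ℝ) / 2 ≤ t := by
    intro t ht
    have h1 := (hT1 t ht).2.2
    have h2 := mul_le_mul_of_nonneg_right hη1 hn'.le
    linarith
  have hT2 : ∀ t ∈ T, 1 ≤ t ∧ t ≤ n ∧ (n : ℝ) ^ α ≤ t ∧ s₁ < t := by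
    intro t ht
    obtain ⟨h1, h2, -⟩ := hT1 t ht
    have h3 := hhalf t ht
    refine ⟨h1, h2, hαn.trans h3, ?_⟩
    have h4 : (s₁ : ℝ) < t := by linarith
    exact_mod_cast h4
  have hT3 : ∀ t ∈ T, 2 * c * l * n ≤ Ft ρ β (h + l • e) e n t - Ft ρ β h e n t := by
    intro t ht
    obtain ⟨h1, h2, h3⟩ := hT1 t ht
    have h4 := hDr n hnN
    have h5 := (hCs (h + l • e) e n t h2).2.2.2.1 he
    have h6 := (hCs h e n t h2).2.2.2.1 he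
    rw [abs_le] at h5 h6
    have h7 : 2 * c * l * n = D / 2 * n := by
      rw [hc]
      field_simp
      ring
    rw [h7]
    rw [hη] at h3
    linarith [h5.1, h5.2, h6.1, h6.2]
  obtain ⟨E, hE⟩ : ∃ E, E = E₀ + 56 * Real.log R := ⟨_, rfl⟩
  have hE0 : 0 ≤ E := by rw [hE]; positivity
  have hLL : 0 ≤ Real.log n := Real.log_nonneg hnR
  have hlogs1 : -lA - 55 * Real.log R + Real.log n ≤ Real.log ((s₁ : ℝ) + 1) := by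
    have h1 : Real.log (A₀ / R ^ 55 * n) = -lA - 55 * Real.log R + Real.log n := by
      rw [Real.log_mul (by positivity) hn'.ne', Real.log_div hA₀0.ne' (by positivity),
        Real.log_pow, hlAe]
      push_cast
      ring
    rw [← h1]
    exact Real.log_le_log (by positivity) hs1B
  have hlogs0 : Real.log s₀ ≤ Real.log 2 + α' * Real.log n := by
    have h1 : (s₀ : ℝ) ≤ 2 * (n : ℝ) ^ α' := by
      have := Nat.ceil_lt_add_one (show 0 ≤ (n : ℝ) ^ α' by linarith)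
      rw [hs0]
      linarith
    have h2 : (0 : ℝ) < s₀ := by exact_mod_cast hs01
    calc Real.log s₀ ≤ Real.log (2 * (n : ℝ) ^ α') := Real.log_le_log h2 h1
      _ = Real.log 2 + α' * Real.log n := by
        rw [Real.log_mul (by norm_num) (by positivity), Real.log_rpow hn']
  have p1 : 128 * R ≤ c ^ 2 * (n * (k / A' / A₁) ^ 2) := by
    have h1 := mul_le_mul_of_nonneg_left hk5 (by positivity : 0 ≤ c ^ 2)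
    refine le_trans (le_of_eq ?_) h1
    rw [ha₁2]
    field_simp
  have p2 : c ^ 2 * (n * (k / A' / A₁) ^ 2) ≤ 512 * R := by
    have h1 := mul_le_mul_of_nonneg_left hk6 (by positivity : 0 ≤ c ^ 2)
    refine h1.trans (le_of_eq ?_)
    rw [ha₁2]
    field_simp
    ring
  have p3 : θ * n ≤ c ^ 4 / (1024 * R ^ 4) * T.card := by
    have h1 := mul_le_mul_of_nonneg_left hTc (by positivity : 0 ≤ c ^ 4 / (1024 * R ^ 4))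
    refine le_trans (le_of_eq ?_) h1
    rw [hθ, hθ₀]
    field_simp
  have p4 : 8 * a₂ ^ 2 * R + 16 * R ^ 2 * a₂ ^ 4 ≤ v₂ * R ^ 144 := by
    rw [hv₂]
    exact vO28 hb₂0.le hR 71 ha₂2
  have p5 : 8 * a₃ ^ 2 * R + 16 * R ^ 2 * a₃ ^ 4 ≤ v₃ * R ^ 20 := by
    rw [hv₃]
    exact vO28 hb₃0.le hR 9 ha₃2
  have p6 : 192 * (1 + CB / cB) * R ≤ c ^ 2 * ϑ * ((k / A') ^ 2 * n) := by
    have h1 := qO28 hc0 hR hcI hκ₀0 hκe hϑ₀ hϑ hb₃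
    rw [← h1, ← ha₃2]
    refine mul_le_mul_of_nonneg_left ?_ (by positivity)
    linarith
  have p7 : 972 * (v₃ * R ^ 20) * R ^ 2 ≤ K * (θ * cB ^ 2 * ϑ ^ 3) :=
    kO28 hR hcI hcB hκ₀0 hθ₀0 hκe hϑ₀ hϑ hθ hK₀ hK
  have p8 : (n : ℝ) ^ α ≤ s₀ :=
    (Real.rpow_le_rpow_of_exponent_le hnR hαα).trans hs0c
  have p9 : 4 * K * (s₁ : ℝ) ≤ c ^ 2 / 1024 / R * n := sO28 hR hn' hθ₀0 hθ₀1 hK₀0 hK hA₀ hs1A
  have p10 : 4 * (s₁ : ℝ) ≤ θ * n := tO28 hR hn' hc2 hθ₀0 hK₀1 hθ hA₀ hs1A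
  have p11 : 64 * R * (cL + CL) ≤ cL * c ^ 2 * γ * (k ^ 2 * n) :=
    gO28 hR hc0 hcL hg₀0 hb₃0 hγ hb₂ (by rw [← ha₂2]; exact hk1)
  have p12 : Real.log n + Real.log R + CI - cI * κ ^ 4 / K *
      (θ / 2 / 4 * (Real.log ((s₁ : ℝ) + 1) - Real.log s₀) - 1) ≤ (1 - γ) * Real.log n + E := by
    have hw1 : cI * κ ^ 4 / K ≤ 1 := by
      rw [div_le_one hK0]
      have h2 : cI * κ ^ 4 ≤ 1 := mul_le_one₀ hcI1 (by positivity) (pow_le_one₀ hκ0.le hκ1)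
      linarith
    exact nO28 (by positivity) hw1 hθ0 hθ1 (wO28 hR hκ₀0 hθ₀0 hK₀0 hκe hθ hK hg₀ hγ) hlR hlA hl2
      hlogs1 hlogs0 hE₀ hE
  have hstep := stepO28 hCa hCs hCo hKc hKs hSt hVu hJe hWi hAs hSe hcB hCB hRl hcL hcL1 hCL hLo
    hcI hcI1 hIn he (n := n) (α := α) (R := R) (l := l) (c := c) (k := k) (θ := θ) (κ := κ)
    (ϑ := ϑ) (K := K) (V₂ := v₂ * R ^ 144) (V₃ := v₃ * R ^ 20) (a₂ := a₂) (a₃ := a₃) (γ := γ)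
    (E := E) (J := J) (A' := A') (A₁ := A₁) (s₀ := s₀) (s₁ := s₁) hn hαn' hR hl hc0 hc1 hk hA
    hA₁ hJ hW p1 p2 hT hT2 hT3 hθ0 p3 hκ hϑ p4 (by positivity) p5 (by positivity) hk2
    (by linarith) p6 hK1 p7 hs01 p8 p9 p10 hγ0 hγ1 hE0 p11 p12
  have hfin := logsO28 hn hR hγ hcL hθ₀0 hv₂0 hθ rfl hstep
  exact fO28 hE hlR hE₀0 (by positivity) (abs_nonneg _) hfin

end Pool.Agent.W_7d29a1_S90
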