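import Pool.Agent.W_7d29a1_S90.StM86
import Pool.Agent.W_7d29a1_S90.RpT73
import Pool.Agent.W_7d29a1_S90.DefsP45
import Pool.Agent.W_7d29a1_Q29.Npb39

/-!
Theorem DI: in dimension two a diffusive polymer has anomalous fluctuations. One tilt (every tilt):
from `InK` and `JeT`.
-/

namespace Pool.Agent.W_7d29a1_S90

open MeasureTheory ProbabilityTheory Filter Topology Pool.Agent.W_MP_7d29a1_pr
  Pool.Agent.W_7d29a1_h46 Pool.Agent.W_7d29a1_h46u Pool.Agent.W_7d29a1_D2.B35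
  Pool.Agent.W_7d29a1_Q29

/-- In dimension two: if all windows of length at least `n ^ α` are diffusive and two replicas are
at distance of order `√n` with positive probability, the variance of the free energy is at least a
power of `n`. -/
def DiK (ρ : Measure ℝ) (β : ℝ) : Prop := ∀ α R r κ : ℝ, α < 1 → 0 < r → 0 < κ →
  ∃ c : ℝ, 0 < c ∧ ∃ N₀ : ℕ, ∀ (h : Vec 2) (n : ℕ), N₀ ≤ n → W2 ρ β h n α R →
    κ ≤ Rp ρ β h n n (r * Real.sqrt n) → (n : ℝ) ^ c ≤ Va ρ β h n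

variable {d : ℕ} {ρ : Measure ℝ} [IsProbabilityMeasure ρ]

open Classical in
/-- The distance of two replicas at the times `t` and `n`. -/
lemma rpw63 (hd : 0 < d) (β : ℝ) (h : Vec d) (n t : ℕ) (m : Vec d) (r s : ℝ) :
    Rp ρ β h n n r ≤ Rp ρ β h n t (r - 2 * s) + 2 * Tl ρ β h n t n m s := by
  set A : (Fin n → Step d) → (Fin n → Step d) → ℝ := fun w w' =>
    if r - 2 * s < ‖emb (pos w t) - emb (pos w' t)‖ then (1 : ℝ) else 0 with hA
  set B : (Fin n → Step d) → ℝ := fun w => if s < inc t n m w then (1 : ℝ) else 0 with hB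
  have hpt : ∀ w w' : Fin n → Step d,
      (if r < ‖emb (pos w n) - emb (pos w' n)‖ then (1 : ℝ) else 0) ≤ A w w' + B w + B w' := by
    intro w w'
    simp only [hA, hB]
    have htri : ‖emb (pos w n) - emb (pos w' n)‖ ≤
        ‖emb (pos w t) - emb (pos w' t)‖ + inc t n m w + inc t n m w' := by
      unfold inc
      have e1 : emb (pos w n) - emb (pos w' n) =
          (emb (pos w t) - emb (pos w' t)) + (emb (pos w n) - emb (pos w t) - m) -
            (emb (pos w' n) - emb (pos w' t) - m) := by abel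
      rw [e1]
      exact (norm_sub_le _ _).trans (by gcongr; exact norm_add_le _ _)
    split_ifs <;> linarith
  have hpe : ∀ η : Env d, pe2 β h η (fun w w' : Fin n → Step d =>
      if r < ‖emb (pos w n) - emb (pos w' n)‖ then (1 : ℝ) else 0) ≤
      pe2 β h η A + 2 * pe β h η B := by
    intro η
    refine (pe2_mono73 hd β h η hpt).trans (le_of_eq ?_)
    unfold pe2
    have h1 : ∀ w : Fin n → Step d, pe β h η (fun w' => A w w' + B w + B w') =
        pe β h η (fun w' => A w w') + B w + pe β h η B := by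
      intro w
      rw [pe_add73 β h η (fun w' => A w w' + B w) B, pe_add73 β h η (fun w' => A w w')
        (fun _ => B w), pe_const73 hd]
    simp only [h1]
    rw [pe_add73 β h η (fun w => pe β h η (fun w' => A w w') + B w) (fun _ => pe β h η B),
      pe_add73 β h η (fun w => pe β h η (fun w' => A w w')) B, pe_const73 hd]
    ring
  unfold Rp Tl
  rw [← integral_const_mul, ← integral_add (integrable_pe2_fun73 hd β h _)
    ((integrable_pe_fun73 hd β h _).const_mul 2)]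
  exact integral_mono (integrable_pe2_fun73 hd β h _)
    ((integrable_pe2_fun73 hd β h _).add ((integrable_pe_fun73 hd β h _).const_mul 2)) hpe

open Classical in
/-- Chebyshev for a window. -/
lemma tlc63 (hd : 0 < d) (β : ℝ) (h : Vec d) (n t : ℕ) (m : Vec d) {s B : ℝ} (hs : 0 < s)
    (hB : ∫ η, pe β h η (fun w : Fin n → Step d => inc t n m w ^ 2) ∂(law d ρ) ≤ B) :
    Tl ρ β h n t n m s ≤ B / s ^ 2 := by
  rw [le_div_iff₀ (by positivity)]
  refine le_trans ?_ hB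
  unfold Tl
  rw [← integral_mul_const]
  refine integral_mono ((integrable_pe_fun73 hd β h _).mul_const _)
    (integrable_pe_fun73 hd β h _) fun η => ?_
  show pe β h η (fun w : Fin n → Step d => if s < inc t n m w then (1 : ℝ) else 0) * s ^ 2 ≤ _
  rw [mul_comm, ← pe_mul73]
  refine pe_mono73 hd β h η fun w => ?_
  show s ^ 2 * (if s < inc t n m w then (1 : ℝ) else 0) ≤ inc t n m w ^ 2
  split_ifs with h1
  · rw [mul_one]
    exact pow_le_pow_left₀ hs.le h1.le 2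
  · rw [mul_zero]
    exact sq_nonneg _

/-- The past does not know the position (strict past). -/
lemma npa63 (hd : 0 < d) (hρ : EM ρ) (hnc : ∀ c : ℝ, ρ {c} ≠ 1) {β : ℝ} (hβ : 0 < β) :
    ∃ C : ℝ, 0 < C ∧ ∀ (h : Vec d) (n : ℕ) (T : Finset ℕ), T ⊆ Finset.Icc 1 n →
      ∑ t ∈ T, ∫ η, ∑ y ∈ boxF d n, (cE ρ (Pa d (t - 1)) (Qt β h n t y) η) ^ 2 ∂(law d ρ) ≤
        C * Va ρ β h n := by
  classical
  obtain ⟨C, hC, hmain⟩ := npg39 (d := d) hd hρ hnc hβ
  refine ⟨C + 1, by linarith, fun h n T hT => ?_⟩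
  have hV : 0 ≤ Va ρ β h n := integral_nonneg fun _ => sq_nonneg _
  have h1 := hmain h n (T ×ˢ boxF d n) (fun p => Pa d (p.1 - 1))
    (fun p hp => Finset.mem_Icc.1 (hT (Finset.mem_product.1 hp).1))
    (fun p hp hq => by
      have h2 := (Finset.mem_Icc.1 (hT (Finset.mem_product.1 hp).1)).1
      have h3 : p.1 ≤ p.1 - 1 := hq
      omega)
    (fun p hp q hq _ => by
      have h2 := (Finset.mem_Icc.1 (hT (Finset.mem_product.1 hp).1)).1
      have h3 := (Finset.mem_Icc.1 (hT (Finset.mem_product.1 hq).1)).1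
      rcases le_total p.1 q.1 with h4 | h4
      · refine Or.inr fun h5 => ?_
        have h6 : q.1 ≤ p.1 - 1 := h5
        omega
      · refine Or.inl fun h5 => ?_
        have h6 : p.1 ≤ q.1 - 1 := h5
        omega)
  rw [Finset.sum_product] at h1
  refine le_trans (le_of_eq ?_) (h1.trans (by nlinarith))
  refine Finset.sum_congr rfl fun t ht => ?_
  rw [integral_finsetSum]
  intro y _
  exact integrable_cE_sq39 _ β h (Finset.mem_Icc.1 (hT ht)).2 y

/-- Jensen: the sum of the squares from the entropy. -/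
lemma jen63 (hJ : JeT) (hd : 0 < d) (β : ℝ) (h : Vec d) {n t : ℕ} (htn : t ≤ n) :
    Real.exp (-(En ρ β h n t (t - 1) + 1)) ≤
      ∫ η, ∑ y ∈ boxF d n, (cE ρ (Pa d (t - 1)) (Qt β h n t y) η) ^ 2 ∂(law d ρ) := by
  classical
  have hQb : ∀ (y : Site d) (η : Env d), |Qt β h n t y η| ≤ 1 := fun y η => by
    rw [abs_of_nonneg (Qt_nonneg39 β h n t y η)]
    exact Qt_le_one39 β h htn y η
  have hm : ∀ y : Site d, Measurable (cE ρ (Pa d (t - 1)) (Qt β h n t y)) := fun y =>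
    measurable_cE (measurable_Qt39 β h n t y) _
  have hsum : ∀ η : Env d, ∑ y ∈ boxF d n, cE ρ (Pa d (t - 1)) (Qt β h n t y) η = 1 := by
    intro η
    unfold cE
    have hi : ∀ y : Site d, Integrable (fun ξ : Env d => Qt β h n t y (spl (Pa d (t - 1)) η ξ))
        (law d ρ) := fun y => by
      refine Integrable.mono' (integrable_const (1 : ℝ)) ?_
        (Eventually.of_forall fun ξ => by
          rw [Real.norm_eq_abs]
          exact hQb y _)
      exact ((measurable_Qt39 β h n t y).comp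
        ((measurable_spl (Pa d (t - 1))).comp (measurable_const.prodMk measurable_id))).aestronglyMeasurable
    rw [← integral_finsetSum _ fun y _ => hi y]
    have h1 : ∀ ξ : Env d, ∑ y ∈ boxF d n, Qt β h n t y (spl (Pa d (t - 1)) η ξ) = 1 := fun ξ =>
      Qt_sum_box39 hd β h htn htn _
    simp only [h1]
    simp
  have h1 := hJ (Env d) (law d ρ) (Site d) (boxF d n)
    (fun y => cE ρ (Pa d (t - 1)) (Qt β h n t y)) (fun y => cE ρ (Pa d (t - 1)) (Qt β h n t y))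
    1 1 (En ρ β h n t (t - 1)) (fun y _ => hm y) (fun y _ => hm y)
    (fun y _ η => cE_nonneg (fun _ => Qt_nonneg39 _ _ _ _ _ _) _ _) hsum
    (fun y _ η => ⟨cE_nonneg (fun _ => Qt_nonneg39 _ _ _ _ _ _) _ _, (one_mul _).ge⟩)
    one_pos le_rfl one_pos
    (by simp only [hsum]; simp) le_rfl
  simpa using h1

/-- Facts for `n` large. -/
lemma ev63 {α ε c K : ℝ} (hα : α < 1) (hε : 0 < ε) (hc : 0 < c) (hK : 0 < K) :
    ∃ N₀ : ℕ, ∀ n : ℕ, N₀ ≤ n → 1 ≤ n ∧ (n : ℝ) ^ α + 1 ≤ ε * n ∧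
      (n : ℝ) ^ (c / 2) ≤ K * (n : ℝ) ^ c := by
  have h1 : Tendsto (fun n : ℕ => (n : ℝ) ^ (-(1 - α))) atTop (𝓝 0) :=
    (tendsto_rpow_neg_atTop (by linarith)).comp tendsto_natCast_atTop_atTop
  have h2 : Tendsto (fun n : ℕ => (n : ℝ) ^ (c / 2)) atTop atTop :=
    (tendsto_rpow_atTop (by positivity)).comp tendsto_natCast_atTop_atTop
  have h3 : Tendsto (fun n : ℕ => (n : ℝ)) atTop atTop := tendsto_natCast_atTop_atTop
  have e1 := (h1.eventually (gt_mem_nhds (show (0 : ℝ) < ε / 2 by positivity)))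
  have e2 := h2.eventually_ge_atTop (1 / K)
  have e3 := h3.eventually_ge_atTop (2 / ε)
  obtain ⟨N₀, hN⟩ := eventually_atTop.1 ((e1.and (e2.and e3)).and (eventually_ge_atTop 1))
  refine ⟨N₀, fun n hn => ?_⟩
  obtain ⟨⟨h4, h5, h6⟩, h7⟩ := hN n hn
  have hn0 : (0 : ℝ) < n := by exact_mod_cast h7
  refine ⟨h7, ?_, ?_⟩
  · have h8 : (n : ℝ) ^ α = (n : ℝ) ^ (-(1 - α)) * n := by
      rw [← Real.rpow_add_one hn0.ne']
      congr 1
      ring
    have h9 : (n : ℝ) ^ (-(1 - α)) * n ≤ ε / 2 * n :=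
      mul_le_mul_of_nonneg_right h4.le hn0.le
    have h10 : 1 ≤ ε / 2 * n := by
      have := (div_le_iff₀ hε).1 h6
      linarith
    rw [h8]
    linarith
  · have h8 : (n : ℝ) ^ c = (n : ℝ) ^ (c / 2) * (n : ℝ) ^ (c / 2) := by
      rw [← Real.rpow_add hn0]
      congr 1
      ring
    have h9 : 1 ≤ K * (n : ℝ) ^ (c / 2) := by
      have := (div_le_iff₀ hK).1 h5
      linarith
    have h10 : 0 ≤ (n : ℝ) ^ (c / 2) := Real.rpow_nonneg hn0.le _
    rw [h8]
    nlinarith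

/-- **Theorem DI.** -/
theorem di63 (hρ : EM ρ) (hnc : ∀ c : ℝ, ρ {c} ≠ 1) {β : ℝ} (hβ : 0 < β) (hI : InK ρ β)
    (hJ : JeT) : DiK ρ β := by
  intro α R r κ hα hr hκ
  obtain ⟨C₃, hC₃, hnp⟩ := npa63 (d := 2) (by norm_num) hρ hnc hβ
  set R' : ℝ := max R 1 with hR'
  have hR1 : 1 ≤ R' := le_max_right _ _
  have hR0 : 0 < R' := by linarith
  set κ₁ : ℝ := min κ 1 with hκ₁
  have hκ0 : 0 < κ₁ := lt_min hκ one_pos
  have hκ1 : κ₁ ≤ 1 := min_le_right _ _
  set ε : ℝ := min (1 / 2) (κ₁ * r ^ 2 / (64 * R')) with hε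
  have hε0 : 0 < ε := lt_min (by norm_num) (by positivity)
  have hε1 : ε ≤ 1 / 2 := min_le_left _ _
  have hε2 : ε * (64 * R') ≤ κ₁ * r ^ 2 := by
    have := min_le_right (1 / 2 : ℝ) (κ₁ * r ^ 2 / (64 * R'))
    rw [← hε] at this
    exact (le_div_iff₀ (by positivity)).1 this
  obtain ⟨c, C, hc, hC, hIK⟩ := hI α (R' * r ^ 2 / 4) hα (by positivity)
  set c₁ : ℝ := c * (κ₁ / 2) ^ 6 / R' with hc₁
  have hc₁0 : 0 < c₁ := by positivity
  set C₁ : ℝ := C * (1 + Real.log R' + Real.log (1 / (κ₁ / 2))) with hC₁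
  set K : ℝ := ε / 2 * Real.exp (-(C₁ + 1)) / C₃ with hK
  have hK0 : 0 < K := by positivity
  obtain ⟨N₀, hN₀⟩ := ev63 (α := α) (ε := ε / 2) (c := c₁) (K := K) hα (by positivity) hc₁0 hK0
  refine ⟨c₁ / 2, by positivity, N₀, fun h n hn hW hRp => ?_⟩
  obtain ⟨hn1, hnα, hnK⟩ := hN₀ n hn
  have hn0 : (0 : ℝ) < n := by exact_mod_cast hn1
  have hα0 : 0 < (n : ℝ) ^ α := Real.rpow_pos_of_pos hn0 _
  refine hnK.trans ?_
  -- the times
  set p : ℕ := ⌊ε * n⌋₊ with hp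
  set q : ℕ := ⌈(n : ℝ) ^ α⌉₊ with hq
  have hpl : (p : ℝ) ≤ ε * n := Nat.floor_le (by positivity)
  have hpu : ε * n < p + 1 := Nat.lt_floor_add_one _
  have hql : (n : ℝ) ^ α ≤ q := Nat.le_ceil _
  have hqu : (q : ℝ) < (n : ℝ) ^ α + 1 := Nat.ceil_lt_add_one hα0.le
  have hq1 : 1 ≤ q := Nat.one_le_ceil_iff.2 hα0
  have hpn : p ≤ n := by
    have : (p : ℝ) ≤ n := hpl.trans (by nlinarith)
    exact_mod_cast this
  have hqp : q ≤ p := by
    have h1 : (q : ℝ) < p + 1 := by nlinarith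
    have h2 : q < p + 1 := by exact_mod_cast h1
    omega
  set T : Finset ℕ := Finset.Icc (n - p) (n - q) with hT
  have hcard : ε / 2 * n ≤ (T.card : ℝ) := by
    have h1 : T.card = p - q + 1 := by
      rw [hT, Nat.card_Icc]
      omega
    rw [h1]
    push_cast [Nat.cast_sub hqp]
    linarith
  have htime : ∀ t ∈ T, 1 ≤ t ∧ t < n ∧ n ≤ 2 * t ∧ (n : ℝ) ^ α ≤ t ∧
      (n : ℝ) ^ α ≤ (n : ℝ) - t ∧ (n : ℝ) - t ≤ ε * n := by
    intro t ht
    obtain ⟨h1, h2⟩ := Finset.mem_Icc.1 ht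
    have h3 : t < n := by omega
    have h4 : (n : ℝ) - t ≤ p := by
      have : (n : ℝ) ≤ t + p := by exact_mod_cast (by omega : n ≤ t + p)
      linarith
    have h5 : (q : ℝ) ≤ (n : ℝ) - t := by
      have : (t : ℝ) + q ≤ n := by exact_mod_cast (by omega : t + q ≤ n)
      linarith
    have h6 : (n : ℝ) ≤ 2 * t := by nlinarith
    have h7 : n ≤ 2 * t := by exact_mod_cast h6
    refine ⟨by omega, h3, h7, ?_, by linarith, by linarith⟩
    nlinarith
  -- one row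
  have hrow : ∀ t ∈ T, Real.exp (-(C₁ + 1)) * (n : ℝ) ^ (c₁ - 1) ≤
      ∫ η, ∑ y ∈ boxF 2 n, (cE ρ (Pa 2 (t - 1)) (Qt β h n t y) η) ^ 2 ∂(law 2 ρ) := by
    intro t ht
    obtain ⟨h1, h2, h3, h4, h5, h6⟩ := htime t ht
    obtain ⟨m, hm⟩ := hW t n h2 le_rfl h5
    have hnt0 : 0 ≤ (n : ℝ) - t := by linarith
    have hm' : ∫ η, pe β h η (fun s : Fin n → Step 2 => inc t n m s ^ 2) ∂(law 2 ρ) ≤
        R' * ((n : ℝ) - t) := hm.trans (mul_le_mul_of_nonneg_right (le_max_left _ _) hnt0)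
    have hsq : 0 < Real.sqrt n := Real.sqrt_pos.2 hn0
    have hTl := tlc63 (ρ := ρ) (d := 2) (by norm_num) β h n t m (s := r * Real.sqrt n / 4)
      (by positivity) hm'
    have hTl2 : 2 * Tl ρ β h n t n m (r * Real.sqrt n / 4) ≤ κ₁ / 2 := by
      have e1 : (r * Real.sqrt n / 4) ^ 2 = r ^ 2 * n / 16 := by
        rw [div_pow, mul_pow, Real.sq_sqrt hn0.le]
        norm_num
      rw [e1] at hTl
      have e2 : R' * ((n : ℝ) - t) / (r ^ 2 * n / 16) ≤ κ₁ / 4 := by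
        rw [div_le_iff₀ (by positivity)]
        have e3 : R' * ((n : ℝ) - t) ≤ R' * (ε * n) := mul_le_mul_of_nonneg_left h6 hR0.le
        have e4 : ε * (64 * R') * n ≤ κ₁ * r ^ 2 * n := mul_le_mul_of_nonneg_right hε2 hn0.le
        nlinarith
      linarith
    have hRt := rpw63 (ρ := ρ) (d := 2) (by norm_num) β h n t m (r * Real.sqrt n)
      (r * Real.sqrt n / 4)
    have hκle : κ₁ ≤ κ := min_le_left _ _
    have e5 : r * Real.sqrt n - 2 * (r * Real.sqrt n / 4) =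
        Real.sqrt (R' * r ^ 2 / 4 / R' * n) := by
      have e6 : R' * r ^ 2 / 4 / R' * n = (r / 2) ^ 2 * n := by
        field_simp
        ring
      rw [e6, Real.sqrt_mul (sq_nonneg _), Real.sqrt_sq (by positivity)]
      ring
    rw [e5] at hRt
    have hRk : κ₁ / 2 ≤ Rp ρ β h n t (Real.sqrt (R' * r ^ 2 / 4 / R' * n)) := by linarith
    have hW' : W2 ρ β h n α R' := by
      intro τ t' hτ ht' hlen
      obtain ⟨m', hm'⟩ := hW τ t' hτ ht' hlen
      refine ⟨m', hm'.trans (mul_le_mul_of_nonneg_right (le_max_left _ _) ?_)⟩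
      have : (τ : ℝ) < t' := by exact_mod_cast hτ
      linarith
    have hEn := hIK h n t R' (κ₁ / 2) hn1 h1 h2.le h3 h4 hR1 (by positivity) (by linarith) hW' hRk
    refine le_trans ?_ (jen63 hJ (by norm_num) β h h2.le)
    have e7 : Real.exp (-(C₁ + 1)) * (n : ℝ) ^ (c₁ - 1) =
        Real.exp (-((1 - c₁) * Real.log n + C₁ + 1)) := by
      rw [Real.rpow_def_of_pos hn0, ← Real.exp_add]
      congr 1
      ring
    rw [e7]
    refine Real.exp_le_exp.2 ?_
    have e8 : En ρ β h n t (t - 1) ≤ (1 - c₁) * Real.log n + C₁ := by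
      refine hEn.trans (le_of_eq ?_)
      rw [hc₁, hC₁]
      ring
    linarith
  -- the sum over the rows
  have hsub : T ⊆ Finset.Icc 1 n := fun t ht =>
    Finset.mem_Icc.2 ⟨(htime t ht).1, (htime t ht).2.1.le⟩
  have hfin := hnp h n T hsub
  have h1 : (T.card : ℝ) * (Real.exp (-(C₁ + 1)) * (n : ℝ) ^ (c₁ - 1)) ≤ C₃ * Va ρ β h n := by
    refine le_trans ?_ hfin
    rw [← nsmul_eq_mul]
    exact Finset.card_nsmul_le_sum _ _ _ hrow
  have h2 : 0 ≤ Real.exp (-(C₁ + 1)) * (n : ℝ) ^ (c₁ - 1) := by positivity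
  have h3 : ε / 2 * n * (Real.exp (-(C₁ + 1)) * (n : ℝ) ^ (c₁ - 1)) ≤ C₃ * Va ρ β h n :=
    (mul_le_mul_of_nonneg_right hcard h2).trans h1
  have h4 : (n : ℝ) ^ c₁ = n * (n : ℝ) ^ (c₁ - 1) := by
    rw [mul_comm, ← Real.rpow_add_one hn0.ne']
    congr 1
    ring
  rw [h4, hK, div_mul_eq_mul_div, div_le_iff₀ hC₃]
  calc ε / 2 * Real.exp (-(C₁ + 1)) * (n * (n : ℝ) ^ (c₁ - 1))
      = ε / 2 * n * (Real.exp (-(C₁ + 1)) * (n : ℝ) ^ (c₁ - 1)) := by ring
    _ ≤ C₃ * Va ρ β h n := h3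
    _ = Va ρ β h n * C₃ := mul_comm _ _

end Pool.Agent.W_7d29a1_S90
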