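import Pool.Agent.W_7d29a1_S90.InsB63
import Pool.Agent.W_7d29a1_S90.TrDI63

/-!
Theorem DI, strong form: in dimension two a diffusive polymer whose replicas are at distance
`n ^ (θ / 2)` at a positive fraction of the times has anomalous fluctuations.
-/

namespace Pool.Agent.W_7d29a1_S90

open MeasureTheory ProbabilityTheory Filter Topology Pool.Agent.W_MP_7d29a1_pr
  Pool.Agent.W_7d29a1_h46 Pool.Agent.W_7d29a1_h46u Pool.Agent.W_7d29a1_D2.B35
  Pool.Agent.W_7d29a1_Q29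

open Classical in
/-- In dimension two: if all windows of length at least `n ^ α` are diffusive and at a positive
fraction of the times two replicas are at distance `n ^ (θ / 2)`, `θ > α`, with positive
probability, the variance of the free energy is at least a power of `n`. -/
def DiB (ρ : Measure ℝ) (β : ℝ) : Prop := ∀ α θ R κ : ℝ, 0 ≤ α → α < θ → θ < 1 → 0 < κ →
  ∃ c : ℝ, 0 < c ∧ ∃ N₀ : ℕ, ∀ (h : Vec 2) (n : ℕ), N₀ ≤ n → W2 ρ β h n α R →
    κ * n ≤ (((Finset.range (n + 1)).filter fun t =>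
      κ ≤ Rp ρ β h n t ((n : ℝ) ^ (θ / 2))).card : ℝ) → (n : ℝ) ^ c ≤ Va ρ β h n

/-- Facts for `n` large. -/
lemma ew63 {α θ κ c K : ℝ} (hα : α < 1) (hθ : θ < 1) (hκ : 0 < κ) (hc : 0 < c) (hK : 0 < K) :
    ∃ N₀ : ℕ, ∀ n : ℕ, N₀ ≤ n → 1 ≤ n ∧ (n : ℝ) ^ α ≤ κ / 2 * n ∧ (n : ℝ) ^ θ ≤ κ / 2 * n ∧
      κ / 4 * n ≤ κ * n - (κ / 2 * n + 1) ∧ (n : ℝ) ^ (c / 2) ≤ K * (n : ℝ) ^ c := by
  obtain ⟨N₁, h1⟩ := ev63 (α := α) (ε := κ / 2) (c := c) (K := K) hα (by positivity) hc hK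
  obtain ⟨N₂, h2⟩ := ev63 (α := θ) (ε := κ / 2) (c := c) (K := K) hθ (by positivity) hc hK
  obtain ⟨N₃, h3⟩ := ev63 (α := 0) (ε := κ / 4) (c := c) (K := K) one_pos (by positivity) hc hK
  refine ⟨max N₁ (max N₂ N₃), fun n hn => ?_⟩
  obtain ⟨a1, a2, a3⟩ := h1 n ((le_max_left _ _).trans hn)
  obtain ⟨-, b2, -⟩ := h2 n (((le_max_left _ _).trans (le_max_right _ _)).trans hn)
  obtain ⟨-, c2, -⟩ := h3 n (((le_max_right _ _).trans (le_max_right _ _)).trans hn)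
  rw [Real.rpow_zero] at c2
  exact ⟨a1, by linarith, by linarith, by linarith, a3⟩

variable {ρ : Measure ℝ} [IsProbabilityMeasure ρ]

open Classical in
/-- **Theorem DI, strong form.** -/
theorem dj63 (hρ : EM ρ) (hnc : ∀ c : ℝ, ρ {c} ≠ 1) {β : ℝ} (hβ : 0 < β) : DiB ρ β := by
  intro α θ R κ hα0 hαθ hθ hκ
  have hα : α < 1 := hαθ.trans hθ
  obtain ⟨C₃, hC₃, hnp⟩ := npa63 (d := 2) (by norm_num) hρ hnc hβ
  set R' : ℝ := max R 1 with hR'
  have hR1 : 1 ≤ R' := le_max_right _ _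
  have hR0 : 0 < R' := by linarith
  set κ₁ : ℝ := min κ 1 with hκ₁
  have hκ0 : 0 < κ₁ := lt_min hκ one_pos
  have hκ1 : κ₁ ≤ 1 := min_le_right _ _
  have hκle : κ₁ ≤ κ := min_le_left _ _
  obtain ⟨c, C, hc, hC, hIK⟩ := insB63 hβ (inT90 (by norm_num) hρ hnc hβ)
    (enZ58 (by norm_num) β) (dlT63 (by norm_num) hρ hβ) (rpM99 β) α hα
  rw [max_eq_left hα0] at hIK
  set c₁ : ℝ := c * κ₁ ^ 6 / R' * (θ - α) with hc₁
  have hc₁0 : 0 < c₁ := mul_pos (by positivity) (by linarith)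
  set C₁ : ℝ := C * (1 + Real.log R' + Real.log (1 / κ₁)) with hC₁
  set K : ℝ := κ / 4 * Real.exp (-(C₁ + 1)) / C₃ with hK
  have hK0 : 0 < K := by positivity
  obtain ⟨N₀, hN₀⟩ := ew63 (α := α) (θ := θ) (κ := κ) (c := c₁) (K := K) hα hθ hκ hc₁0 hK0
  refine ⟨c₁ / 2, by positivity, N₀, fun h n hn hW hcard0 => ?_⟩
  obtain ⟨hn1, hnα, hnθ, hnκ, hnK⟩ := hN₀ n hn
  have hn0 : (0 : ℝ) < n := by exact_mod_cast hn1
  have hnR : (1 : ℝ) ≤ n := by exact_mod_cast hn1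
  refine hnK.trans ?_
  have hW' : ∀ τ t : ℕ, τ < t → t ≤ n → (n : ℝ) ^ α ≤ (t : ℝ) - τ → ∃ m : Vec 2,
      ∫ η, pe β h η (fun s : Fin n → Step 2 => inc τ t m s ^ 2) ∂(law 2 ρ) ≤
        R' * ((t : ℝ) - τ) := by
    intro τ t hτ ht hlen
    obtain ⟨m, hm⟩ := hW τ t hτ ht hlen
    refine ⟨m, hm.trans (mul_le_mul_of_nonneg_right (le_max_left _ _) ?_)⟩
    have : (τ : ℝ) < t := by exact_mod_cast hτ
    linarith
  -- the times
  set S : Finset ℕ := (Finset.range (n + 1)).filter fun t =>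
    κ ≤ Rp ρ β h n t ((n : ℝ) ^ (θ / 2)) with hS
  set T : Finset ℕ := S.filter fun t : ℕ => κ / 2 * n < (t : ℝ) with hT
  have hcard : κ / 4 * n ≤ (T.card : ℝ) := by
    have h1 : (S.card : ℝ) ≤ T.card + (κ / 2 * n + 1) := by
      have h2 : S.card = T.card + (S.filter fun t : ℕ => ¬ κ / 2 * n < (t : ℝ)).card := by
        rw [hT, Finset.card_filter_add_card_filter_not]
      have h3 : ((S.filter fun t : ℕ => ¬ κ / 2 * n < (t : ℝ)).card : ℝ) ≤ κ / 2 * n + 1 := by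
        have h4 : S.filter (fun t : ℕ => ¬ κ / 2 * n < (t : ℝ)) ⊆
            Finset.range (⌊κ / 2 * (n : ℝ)⌋₊ + 1) := by
          intro t ht
          have h5 := not_lt.1 (Finset.mem_filter.1 ht).2
          rw [Finset.mem_range]
          exact Nat.lt_succ_of_le (Nat.le_floor h5)
        have h6 := Finset.card_le_card h4
        rw [Finset.card_range] at h6
        have h7 : (⌊κ / 2 * (n : ℝ)⌋₊ : ℝ) ≤ κ / 2 * n := Nat.floor_le (by positivity)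
        have h8 : ((S.filter fun t : ℕ => ¬ κ / 2 * n < (t : ℝ)).card : ℝ) ≤
            ((⌊κ / 2 * (n : ℝ)⌋₊ + 1 : ℕ) : ℝ) := by exact_mod_cast h6
        push_cast at h8
        linarith
      rw [h2]
      push_cast
      linarith
    linarith
  have htime : ∀ t ∈ T, 1 ≤ t ∧ t ≤ n ∧ κ / 2 * n < (t : ℝ) ∧
      κ ≤ Rp ρ β h n t ((n : ℝ) ^ (θ / 2)) := by
    intro t ht
    obtain ⟨h1, h2⟩ := Finset.mem_filter.1 ht
    obtain ⟨h3, h4⟩ := Finset.mem_filter.1 h1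
    have h5 : 0 < κ / 2 * (n : ℝ) := by positivity
    have h6 : (0 : ℝ) < t := h5.trans h2
    have h7 : 0 < t := by exact_mod_cast h6
    exact ⟨h7, Nat.lt_succ_iff.1 (Finset.mem_range.1 h3), h2, h4⟩
  -- one row
  have hrow : ∀ t ∈ T, Real.exp (-(C₁ + 1)) * (n : ℝ) ^ (c₁ - 1) ≤
      ∫ η, ∑ y ∈ boxF 2 n, (cE ρ (Pa 2 (t - 1)) (Qt β h n t y) η) ^ 2 ∂(law 2 ρ) := by
    intro t ht
    obtain ⟨h1, h2, h3, h4⟩ := htime t ht
    have hαn : 0 < (n : ℝ) ^ (θ - 1) := Real.rpow_pos_of_pos hn0 _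
    have haθ : (n : ℝ) ^ (θ - 1) * n = (n : ℝ) ^ θ := by
      rw [← Real.rpow_add_one hn0.ne']
      congr 1
      ring
    have hsq : Real.sqrt ((n : ℝ) ^ (θ - 1) * n) = (n : ℝ) ^ (θ / 2) := by
      rw [haθ, Real.sqrt_eq_rpow, ← Real.rpow_mul hn0.le]
      congr 1
      ring
    have ha1 : (n : ℝ) ^ (θ - 1) ≤ 1 := Real.rpow_le_one_of_one_le_of_nonpos hnR (by linarith)
    have hm0 : ∃ m : Vec 2, ∫ η, pe β h η (fun s : Fin n → Step 2 => ‖emb (pos s t) - m‖ ^ 2)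
        ∂(law 2 ρ) ≤ R' * n := by
      obtain ⟨m, hm⟩ := hW' 0 t h1 h2 (by push_cast; linarith)
      refine ⟨m, ?_⟩
      have e1 : (fun s : Fin n → Step 2 => inc 0 t m s ^ 2) =
          fun s => ‖emb (pos s t) - m‖ ^ 2 := by
        funext s
        unfold inc
        rw [pos_zero73, emb_zero73, sub_zero]
      rw [e1] at hm
      refine hm.trans (mul_le_mul_of_nonneg_left ?_ hR0.le)
      push_cast
      rw [sub_zero]
      exact_mod_cast h2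
    have hEn := hIK h n t R' ((n : ℝ) ^ (θ - 1)) κ₁ hn1 h1 h2 hR1 hκ0 hκ1 hαn ha1
      (by rw [haθ]; linarith) hm0
      (fun τ hτ1 hτ hlen => by
        obtain ⟨m, hm⟩ := hW' τ t hτ h2 hlen
        exact ⟨m, fun r hr => tlC99 (by norm_num) h n τ t m hr hm⟩)
      (by rw [hsq]; linarith)
    refine le_trans ?_ (jen63 jeT41 (by norm_num) β h h2)
    have e7 : Real.exp (-(C₁ + 1)) * (n : ℝ) ^ (c₁ - 1) =
        Real.exp (-((1 - c₁) * Real.log n + C₁ + 1)) := by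
      rw [Real.rpow_def_of_pos hn0, ← Real.exp_add]
      congr 1
      ring
    rw [e7]
    refine Real.exp_le_exp.2 ?_
    have e8 : En ρ β h n t (t - 1) ≤ (1 - c₁) * Real.log n + C₁ := by
      refine hEn.trans (le_of_eq ?_)
      have e9 : Real.log (1 / (n : ℝ) ^ (θ - 1)) = (1 - θ) * Real.log n := by
        rw [one_div, Real.log_inv, Real.log_rpow hn0]
        ring
      rw [e9, hc₁, hC₁]
      ring
    linarith
  -- the sum over the rows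
  have hsub : T ⊆ Finset.Icc 1 n := fun t ht =>
    Finset.mem_Icc.2 ⟨(htime t ht).1, (htime t ht).2.1⟩
  have hfin := hnp h n T hsub
  have h1 : (T.card : ℝ) * (Real.exp (-(C₁ + 1)) * (n : ℝ) ^ (c₁ - 1)) ≤ C₃ * Va ρ β h n := by
    refine le_trans ?_ hfin
    rw [← nsmul_eq_mul]
    exact Finset.card_nsmul_le_sum _ _ _ hrow
  have h2 : 0 ≤ Real.exp (-(C₁ + 1)) * (n : ℝ) ^ (c₁ - 1) := by positivity
  have h3 : κ / 4 * n * (Real.exp (-(C₁ + 1)) * (n : ℝ) ^ (c₁ - 1)) ≤ C₃ * Va ρ β h n :=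
    (mul_le_mul_of_nonneg_right hcard h2).trans h1
  have h4 : (n : ℝ) ^ c₁ = n * (n : ℝ) ^ (c₁ - 1) := by
    rw [mul_comm, ← Real.rpow_add_one hn0.ne']
    congr 1
    ring
  rw [h4, hK, div_mul_eq_mul_div, div_le_iff₀ hC₃]
  calc κ / 4 * Real.exp (-(C₁ + 1)) * (n * (n : ℝ) ^ (c₁ - 1))
      = κ / 4 * n * (Real.exp (-(C₁ + 1)) * (n : ℝ) ^ (c₁ - 1)) := by ring
    _ ≤ C₃ * Va ρ β h n := h3
    _ = Va ρ β h n * C₃ := mul_comm _ _

end Pool.Agent.W_7d29a1_S90
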