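import Pool.Agent.W_7d29a1_Q29.Defs29

/-!
Theorem SUP: superdiffusive windows in dimension two. Definitions and frozen statements of the
leaves.
-/

namespace Pool.Agent.W_7d29a1_S90

open MeasureTheory ProbabilityTheory Filter Topology Pool.Agent.W_MP_7d29a1_pr
  Pool.Agent.W_7d29a1_h46 Pool.Agent.W_7d29a1_h46u Pool.Agent.W_7d29a1_D2.B35
  Pool.Agent.W_7d29a1_Q29

section Defs

variable {d : ℕ}

/-- The mean of `f` under the polymer measure of length `n`. -/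
noncomputable def pe (β : ℝ) (h : Vec d) (η : Env d) {n : ℕ} (f : (Fin n → Step d) → ℝ) : ℝ :=
  (∑ s, wgt β h η s * f s) / Z β h η n

/-- The mean of `f` for two independent walks in the same environment. -/
noncomputable def pe2 (β : ℝ) (h : Vec d) (η : Env d) {n : ℕ}
    (f : (Fin n → Step d) → (Fin n → Step d) → ℝ) : ℝ :=
  pe β h η fun s => pe β h η fun s' => f s s'

/-- `‖S_t - S_τ - m‖`. -/
noncomputable def inc {n : ℕ} (τ t : ℕ) (m : Vec d) (s : Fin n → Step d) : ℝ :=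
  ‖emb (pos s t) - emb (pos s τ) - m‖

/-- All windows of length at least `n ^ α` of the polymer of length `n` are diffusive (fourth
moments). -/
def W4 (ρ : Measure ℝ) (β : ℝ) (h : Vec d) (n : ℕ) (α R : ℝ) : Prop :=
  ∀ τ t : ℕ, τ < t → t ≤ n → (n : ℝ) ^ α ≤ (t : ℝ) - τ → ∃ m : Vec d,
    ∫ η, pe β h η (fun s : Fin n → Step d => inc τ t m s ^ 4) ∂(law d ρ) ≤ R * ((t : ℝ) - τ) ^ 2

/-- The mean entropy of the law of `S_t` given the rows `≤ τ`. -/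
noncomputable def En (ρ : Measure ℝ) (β : ℝ) (h : Vec d) (n t τ : ℕ) : ℝ :=
  ∫ η, ∑ x ∈ boxF d n, Real.negMulLog (cE ρ (Pa d τ) (Qt β h n t x) η) ∂(law d ρ)

open Classical in
/-- The probability that `‖S_t - S_τ - m‖ > r`. -/
noncomputable def Tl (ρ : Measure ℝ) (β : ℝ) (h : Vec d) (n τ t : ℕ) (m : Vec d) (r : ℝ) : ℝ :=
  ∫ η, pe β h η (fun s : Fin n → Step d => if r < inc τ t m s then (1 : ℝ) else 0) ∂(law d ρ)

open Classical in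
/-- The probability that two replicas are at distance `> r` at the time `t`. -/
noncomputable def Rp (ρ : Measure ℝ) (β : ℝ) (h : Vec d) (n t : ℕ) (r : ℝ) : ℝ :=
  ∫ η, pe2 β h η (fun s s' : Fin n → Step d =>
    if r < ‖emb (pos s t) - emb (pos s' t)‖ then (1 : ℝ) else 0) ∂(law d ρ)

open Classical in
/-- The probability that the environment at `(τ, S_τ)` exceeds `b` in absolute value. -/
noncomputable def Dl (ρ : Measure ℝ) (β : ℝ) (h : Vec d) (n τ : ℕ) (b : ℝ) : ℝ :=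
  ∫ η, pe β h η (fun s : Fin n → Step d => if b < |η (τ, pos s τ)| then (1 : ℝ) else 0) ∂(law d ρ)

/-- The mean of `⟨e, S_t⟩`. -/
noncomputable def Ft (ρ : Measure ℝ) (β : ℝ) (h e : Vec d) (n t : ℕ) : ℝ :=
  ∫ η, pe β h η (fun s : Fin n → Step d => inner ℝ e (emb (pos s t))) ∂(law d ρ)

/-- The mean of the covariance of `⟨e, S_t⟩` and `⟨e, S_n⟩` under the polymer measure. -/
noncomputable def Cv (ρ : Measure ℝ) (β : ℝ) (h e : Vec d) (n t : ℕ) : ℝ :=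
  ∫ η, (pe β h η (fun s : Fin n → Step d =>
      inner ℝ e (emb (pos s t)) * inner ℝ e (emb (pos s n))) -
    pe β h η (fun s : Fin n → Step d => inner ℝ e (emb (pos s t))) *
      pe β h η (fun s : Fin n → Step d => inner ℝ e (emb (pos s n)))) ∂(law d ρ)

/-- The mean of the variance of `⟨e, S_t⟩` under the polymer measure. -/
noncomputable def Vr (ρ : Measure ℝ) (β : ℝ) (h e : Vec d) (n t : ℕ) : ℝ :=
  ∫ η, (pe β h η (fun s : Fin n → Step d => inner ℝ e (emb (pos s t)) ^ 2) -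
    pe β h η (fun s : Fin n → Step d => inner ℝ e (emb (pos s t))) ^ 2) ∂(law d ρ)

/-- The second moment of `⟨e, S_t⟩ - a` under the averaged polymer measure. -/
noncomputable def Sm (ρ : Measure ℝ) (β : ℝ) (h e : Vec d) (n t : ℕ) (a : ℝ) : ℝ :=
  ∫ η, pe β h η (fun s : Fin n → Step d => (inner ℝ e (emb (pos s t)) - a) ^ 2) ∂(law d ρ)

open Classical in
/-- The centred indicator of `v > q`. -/
noncomputable def zt (ρ : Measure ℝ) (q v : ℝ) : ℝ :=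
  (if q < v then (1 : ℝ) else 0) - ρ.real (Set.Ioi q)

/-- The positive part of `c P(S_t = y) - C P'(S_t = y)` given the rows `< t`. -/
noncomputable def aw (ρ : Measure ℝ) (β : ℝ) (h h' : Vec d) (n t : ℕ) (c C : ℝ) (y : Site d)
    (η : Env d) : ℝ :=
  max 0 (c * cE ρ (Pa d (t - 1)) (Qt β h n t y) η - C * cE ρ (Pa d (t - 1)) (Qt β h' n t y) η)

end Defs

section Leaves

variable (d : ℕ) (ρ : Measure ℝ) (β : ℝ)

open Classical in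
/-- Leaf I1: duality for the entropy. -/
def DuI : Prop := ∀ (q : ℝ) (h : Vec d) (n τ t : ℕ), 1 ≤ τ → τ < t → t ≤ n →
  ∀ (m : Vec d) (r g : ℝ), 1 ≤ r → 0 ≤ g → g * (3 * r) ^ d ≤ 1 →
    g * (∫ η, pe β h η (fun s : Fin n → Step d => ∑ y ∈ boxF d n,
      if ‖emb (pos s t) - emb y - m‖ ≤ r then zt ρ q (η (τ, y)) else 0) ∂(law d ρ)) -
      g ^ 2 * (3 * r) ^ d ≤ En ρ β h n t (τ - 1) - En ρ β h n t τ

open Classical in
/-- Leaf I2: the influence of one site of the row `τ` on the law of `S_t`. -/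
def SiI : Prop := ∃ q c : ℝ, 0 < c ∧ c ≤ 1 ∧ ∀ (h : Vec d) (n τ t : ℕ), 1 ≤ τ → τ < t → t ≤ n →
  ∀ (y : Site d) (m : Vec d) (r : ℝ),
    c * (∫ η, Real.exp (-(2 * β * |η (τ, y)|)) * pe2 β h η (fun s s' : Fin n → Step d =>
        if pos s τ = y ∧ pos s' τ ≠ y ∧ r < ‖emb (pos s' t) - emb y - m‖ then (1 : ℝ) else 0)
          ∂(law d ρ)) -
      (∫ η, pe β h η (fun s : Fin n → Step d =>
        if pos s τ = y ∧ r < ‖emb (pos s t) - emb y - m‖ then (1 : ℝ) else 0) ∂(law d ρ)) ≤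
    ∫ η, zt ρ q (η (τ, y)) * pe β h η (fun s : Fin n → Step d =>
      if ‖emb (pos s t) - emb y - m‖ ≤ r then (1 : ℝ) else 0) ∂(law d ρ)

/-- Leaf I3: the information of one row, from `DuI` and `SiI`. -/
def InT : Prop := ∃ c : ℝ, 0 < c ∧ c ≤ 1 ∧ ∀ (h : Vec d) (n τ t : ℕ), 1 ≤ τ → τ < t → t ≤ n →
  ∀ (m : Vec d) (r b : ℝ), 1 ≤ r → 0 ≤ b →
    En ρ β h n t τ ≤ En ρ β h n t (τ - 1) ∧
    (0 ≤ c * Real.exp (-(2 * β * b)) *
        (Rp ρ β h n t (2 * r) - 2 * Tl ρ β h n τ t m r - Dl ρ β h n τ b) - Tl ρ β h n τ t m r →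
      (c * Real.exp (-(2 * β * b)) *
        (Rp ρ β h n t (2 * r) - 2 * Tl ρ β h n τ t m r - Dl ρ β h n τ b) -
          Tl ρ β h n τ t m r) ^ 2 ≤
        4 * (3 * r) ^ d * (En ρ β h n t (τ - 1) - En ρ β h n t τ))

/-- Leaf I4: the entropy of a law with second moment at most `R n`. -/
def EnZ : Prop := ∃ C : ℝ, 0 ≤ C ∧ ∀ (h : Vec d) (n t : ℕ) (m : Vec d) (R : ℝ), 1 ≤ n → t ≤ n →
  1 ≤ R → ∫ η, pe β h η (fun s : Fin n → Step d => ‖emb (pos s t) - m‖ ^ 2) ∂(law d ρ) ≤ R * n →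
    En ρ β h n t 0 ≤ d / 2 * Real.log (R * n) + C

/-- Leaf I5: replicas are at distance of order `√n` with positive probability. -/
def RpT : Prop := ∀ (h e : Vec d) (n t : ℕ) (α R c : ℝ), ‖e‖ = 1 → 1 ≤ n → 1 ≤ t → t ≤ n →
  (n : ℝ) ^ α ≤ t → 1 ≤ R → 0 < c → W4 ρ β h n α R → c * n ≤ Vr ρ β h e n t →
    c ^ 2 / (16 * R) ≤ Rp ρ β h n t (Real.sqrt (c * n))

/-- Leaf I6: large values are not used. -/
def DlT : Prop := ∀ M : ℝ, 0 ≤ M → ∃ C : ℝ, 0 ≤ C ∧ ∀ (h : Vec d) (n τ : ℕ) (b : ℝ), 1 ≤ τ →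
  τ ≤ n → 0 ≤ b → Dl ρ β h n τ b ≤ C * Real.exp (-(M * b))

/-- Leaf I7 (dimension two): the information on `S_t` is a multiple of `log n`; from `InT`, `EnZ`,
`RpT`, `DlT`. -/
def InS : Prop := ∀ α a : ℝ, α < 1 → 0 < a → ∃ c C : ℝ, 0 < c ∧ 0 ≤ C ∧
  ∀ (h e : Vec 2) (n t : ℕ) (R : ℝ), ‖e‖ = 1 → 1 ≤ n → 1 ≤ t → t ≤ n → (n : ℝ) ^ α ≤ t → 1 ≤ R →
    W4 ρ β h n α R → a / R * n ≤ Vr ρ β h e n t →
      En ρ β h n t (t - 1) ≤ Real.log n - c / R ^ 16 * Real.log n + C * (1 + Real.log R)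

/-- Leaf V1: the one site upper bound. -/
def SiU : Prop := ∃ C : ℝ, 0 ≤ C ∧ ∀ (h : Vec d) (L t : ℕ) (y : Site d) (η : Env d), 1 ≤ t →
  t ≤ L → ∫ r, (r - ∫ s, s ∂ρ) * X β h (Function.update η (t, y) r) L ∂ρ ≤
    C * ∫ r, Qt β h L t y (Function.update η (t, y) r) ∂ρ

/-- Leaf V2: the lower bound of the variance of the difference of the free energies. -/
def LoV : Prop := ∃ c C : ℝ, 0 < c ∧ c ≤ 1 ∧ 0 ≤ C ∧ ∀ (h h' : Vec d) (n : ℕ) (T : Finset ℕ),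
  T ⊆ Finset.Icc 1 n → ∑ t ∈ T, ∫ η, ∑ y ∈ boxF d n, aw ρ β h h' n t c C y η ^ 2 ∂(law d ρ) ≤
    ∫ η, (X β h η n - X β h' η n - (A ρ β h n - A ρ β h' n)) ^ 2 ∂(law d ρ)

/-- Leaf V4: the mass of the good sites. -/
def StM : Prop := ∀ (h h' e : Vec d) (n t : ℕ) (c C r B : ℝ), ‖e‖ = 1 → 1 ≤ t → t ≤ n → 0 ≤ c →
  0 ≤ C → 0 < r → 2 * r ≤ |Ft ρ β h e n t - Ft ρ β h' e n t| →
  Sm ρ β h e n t (Ft ρ β h e n t) ≤ B → Sm ρ β h' e n t (Ft ρ β h' e n t) ≤ B →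
    c * (1 - B / r ^ 2) - C * (B / r ^ 2) ≤
      ∫ η, ∑ y ∈ boxF d n, aw ρ β h h' n t c C y η ∂(law d ρ)

/-- Leaf V5: the upper bound of the variance of the difference of the free energies. -/
def VuT : Prop := ∀ (h e : Vec d) (n : ℕ) (k B : ℝ), 0 ≤ k →
  Sm ρ β h e n n (Ft ρ β h e n n) ≤ B → Sm ρ β (h + k • e) e n n (Ft ρ β (h + k • e) e n n) ≤ B →
    ∫ η, (X β (h + k • e) η n - X β h η n - (A ρ β (h + k • e) n - A ρ β h n)) ^ 2 ∂(law d ρ) ≤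
      k ^ 2 * (2 * B + (Ft ρ β (h + k • e) e n n - Ft ρ β h e n n) ^ 2)

/-- Leaf C1: the derivative of the drift. -/
def CaT : Prop := ∀ (h e : Vec d) (n t : ℕ), t ≤ n →
  Continuous (fun s : ℝ => Cv ρ β (h + s • e) e n t) ∧
    ∀ s : ℝ, HasDerivAt (fun s : ℝ => Ft ρ β (h + s • e) e n t) (Cv ρ β (h + s • e) e n t) s

/-- Leaf C2: Cauchy-Schwarz and second moments. -/
def CsT : Prop := ∀ (h e : Vec d) (n t : ℕ), t ≤ n →
  0 ≤ Vr ρ β h e n t ∧ Cv ρ β h e n t ^ 2 ≤ Vr ρ β h e n t * Vr ρ β h e n n ∧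
    (∀ a : ℝ, Vr ρ β h e n t ≤ Sm ρ β h e n t (Ft ρ β h e n t) ∧
      Sm ρ β h e n t (Ft ρ β h e n t) ≤ Sm ρ β h e n t a) ∧
    (‖e‖ = 1 → |Ft ρ β h e n n - Ft ρ β h e n t| ≤ (n : ℝ) - t) ∧
    (∀ α R : ℝ, ‖e‖ = 1 → 1 ≤ t → (n : ℝ) ^ α ≤ t → 0 ≤ R → W4 ρ β h n α R →
      Sm ρ β h e n t (Ft ρ β h e n t) ≤ Real.sqrt R * t)

/-- Leaf C3: the drift of the end point along a segment. -/
def DrT : Prop := ∀ (h e : Vec d) (l D : ℝ), 0 < l →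
  D < 2 / l * (lam ρ β h + lam ρ β (h + l • e) - 2 * lam ρ β (h + (l / 2) • e)) →
    ∃ N₀ : ℕ, ∀ n : ℕ, N₀ ≤ n → D * n ≤ Ft ρ β (h + l • e) e n n - Ft ρ β h e n n

/-- The main statement: not all windows of all tilts of a segment are diffusive. -/
def MainS : Prop := ∀ (h e : Vec 2) (l α : ℝ), ‖e‖ = 1 → 0 < l → α < 1 →
  2 * lam ρ β (h + (l / 2) • e) < lam ρ β h + lam ρ β (h + l • e) →
    ∃ N₀ : ℕ, ∀ n : ℕ, N₀ ≤ n → ∃ s ∈ Set.Icc (0 : ℝ) l,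
      ¬ W4 ρ β (h + s • e) n α (Real.log n ^ ((1 : ℝ) / 18))

end Leaves

open Classical in
/-- Leaf V3: Jensen. -/
def JeT : Prop := ∀ (Ω : Type) [MeasurableSpace Ω] (P : Measure Ω) [IsProbabilityMeasure P]
  (S : Type) (I : Finset S) (μ a : S → Ω → ℝ) (c W H : ℝ), (∀ y ∈ I, Measurable (μ y)) →
  (∀ y ∈ I, Measurable (a y)) → (∀ y ∈ I, ∀ w, 0 ≤ μ y w) → (∀ w, ∑ y ∈ I, μ y w = 1) →
  (∀ y ∈ I, ∀ w, 0 ≤ a y w ∧ a y w ≤ c * μ y w) → 0 < c → c ≤ 1 → 0 < W →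
  W ≤ ∫ w, ∑ y ∈ I, a y w ∂P → ∫ w, ∑ y ∈ I, Real.negMulLog (μ y w) ∂P ≤ H →
    W * Real.exp (-((c * H + 1) / W)) ≤ ∫ w, ∑ y ∈ I, a y w ^ 2 ∂P

/-- Leaf A1: the choice of the tilts. -/
def AsT : Prop := ∀ (l k R c : ℝ) (J : ℕ) (T : Finset ℕ) (g : ℕ → ℝ → ℝ), 0 < l → 0 < k → 0 < R →
  0 < c → J * k = l → T.Nonempty → (∀ t ∈ T, Continuous (g t)) →
  (∀ t ∈ T, ∀ s ∈ Set.Icc (0 : ℝ) l, |g t s| ≤ R) → (∀ t ∈ T, 2 * c * l ≤ ∫ s in (0 : ℝ)..l, g t s) →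
    ∃ s ∈ Set.Icc (0 : ℝ) l, ∃ s' ∈ Set.Icc (0 : ℝ) l, |s - s'| ≤ k ∧ ∃ T' ⊆ T,
      c ^ 2 / (4 * R ^ 2) * T.card ≤ (T'.card : ℝ) ∧
        ∀ t ∈ T', c / 2 ≤ g t s ∧ c * k / 2 ≤ |∫ u in s..s', g t u|

end Pool.Agent.W_7d29a1_S90
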