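import Pool.Agent.W_7d29a1_S90.DefsS90
import Pool.Agent.W_7d29a1_Q29.Npb39

/-!
Duality with signed influences (helper13, after dual85 of helper85).
-/

namespace Pool.Agent.W_7d29a1_S90

open MeasureTheory ProbabilityTheory Filter Topology Pool.Agent.W_MP_7d29a1_pr
  Pool.Agent.W_7d29a1_h46 Pool.Agent.W_7d29a1_h46u Pool.Agent.W_7d29a1_D2.B35
  Pool.Agent.W_7d29a1_Q29 Pool.Agent.W_7d29a1_Q29.D85

open Classical in
theorem dualS13 {d : ℕ} {ρ : Measure ℝ} [IsProbabilityMeasure ρ] (hρ : EM ρ)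
    (I : Finset (ℕ × Site d)) (F : Env d → ℝ) (hF : Measurable F)
    (hF2 : Integrable (fun η => F η ^ 2) (law d ρ)) (G Q : ℕ × Site d → Env d → ℝ)
    (hGm : ∀ p ∈ I, Measurable (G p)) (hQm : ∀ p ∈ I, Measurable (Q p))
    (hG : ∀ p ∈ I, ∀ η, 0 ≤ G p η ∧ G p η ≤ 1) (B : ℝ) (hQ : ∀ p ∈ I, ∀ η, |Q p η| ≤ B)
    (hdep : ∀ p ∈ I, DependsOn (G p) {p}ᶜ)
    (hO : ∀ p ∈ I, ∀ q ∈ I, p ≠ q → DependsOn (G q) {p}ᶜ ∨ DependsOn (G p) {q}ᶜ)
    {c : ℝ} (hc : 0 ≤ c)
    (hGQ : ∀ p ∈ I, c * ∫ η, G p η ^ 2 ∂(law d ρ) ≤ ∫ η, G p η * Q p η ∂(law d ρ))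
    (h1 : ∀ p ∈ I, ∀ η : Env d, ∫ r, Q p (Function.update η p r) ∂ρ ≤
      ∫ r, (r - ∫ s, s ∂ρ) * F (Function.update η p r) ∂ρ) (A0 : ℝ) :
    c ^ 2 * ∑ p ∈ I, ∫ η, G p η ^ 2 ∂(law d ρ) ≤
      (∫ t, (t - ∫ s, s ∂ρ) ^ 2 ∂ρ) * ∫ η, (F η - A0) ^ 2 ∂(law d ρ) := by
  obtain ⟨m, hm⟩ : ∃ m, m = ∫ s, s ∂ρ := ⟨_, rfl⟩
  have hFL : MemLp F 2 (law d ρ) := by
    rw [memLp_two_iff_integrable_sq hF.aestronglyMeasurable]
    exact hF2
  have hFA : MemLp (fun η => F η - A0) 2 (law d ρ) := hFL.sub (memLp_const A0)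
  have hT : ∀ p ∈ I, MemLp (fun η : Env d => G p η * (η p - m)) 2 (law d ρ) := by
    intro p hp
    rw [hm]
    exact memLp_T hρ p (hGm p hp) (hG p hp)
  have hS : MemLp (fun η : Env d => ∑ p ∈ I, G p η * (η p - m)) 2 (law d ρ) :=
    memLp_finsetSum I hT
  -- dependence of the centred site
  have hsite : ∀ p q : ℕ × Site d, p ≠ q →
      DependsOn (fun η : Env d => η q - m) ({p}ᶜ : Set (ℕ × Site d)) := by
    intro p q hpq x y hxy
    have : q ∈ ({p}ᶜ : Set (ℕ × Site d)) := fun h => hpq h.symm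
    show x q - m = y q - m
    rw [hxy q this]
  have hmul : ∀ {H K : Env d → ℝ} {S : Set (ℕ × Site d)}, DependsOn H S → DependsOn K S →
      DependsOn (fun η => H η * K η) S := by
    intro H K S hH hK x y hxy
    show H x * K x = H y * K y
    rw [hH hxy, hK hxy]
  -- the second moment of the sum
  have hdiag : ∀ p ∈ I, ∫ η : Env d, (G p η * (η p - m)) * (G p η * (η p - m)) ∂(law d ρ) =
      (∫ t, (t - m) ^ 2 ∂ρ) * ∫ η, G p η ^ 2 ∂(law d ρ) := by
    intro p hp
    have hi : Integrable (fun η : Env d => (G p η * (η p - m)) * (G p η * (η p - m)))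
        (law d ρ) := (hT p hp).integrable_mul (hT p hp)
    rw [integral_upd p hi]
    have h2 : ∀ η : Env d, ∫ r, (G p (Function.update η p r) * (Function.update η p r p - m)) *
        (G p (Function.update η p r) * (Function.update η p r p - m)) ∂ρ =
        (∫ t, (t - m) ^ 2 ∂ρ) * G p η ^ 2 := by
      intro η
      simp only [dep_upd (hdep p hp), Function.update_self]
      rw [← integral_mul_const]
      refine integral_congr_ae (Eventually.of_forall fun r => ?_)
      ring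
    simp only [h2]
    rw [integral_const_mul]
  have hoff : ∀ p ∈ I, ∀ q ∈ I, p ≠ q →
      ∫ η : Env d, (G p η * (η p - m)) * (G q η * (η q - m)) ∂(law d ρ) = 0 := by
    intro p hp q hq hpq
    have hi : Integrable (fun η : Env d => (G p η * (η p - m)) * (G q η * (η q - m)))
        (law d ρ) := (hT p hp).integrable_mul (hT q hq)
    rcases hO p hp q hq hpq with h | h
    · have h2 : (fun η : Env d => (G p η * (η p - m)) * (G q η * (η q - m))) =
          fun η : Env d => (G p η * (G q η * (η q - m))) * (η p - ∫ s, s ∂ρ) := by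
        funext η
        rw [← hm]
        ring
      rw [h2] at hi ⊢
      exact orth hρ p (hmul (hdep p hp) (hmul h (hsite p q hpq))) hi
    · have h2 : (fun η : Env d => (G p η * (η p - m)) * (G q η * (η q - m))) =
          fun η : Env d => (G q η * (G p η * (η p - m))) * (η q - ∫ s, s ∂ρ) := by
        funext η
        rw [← hm]
        ring
      rw [h2] at hi ⊢
      exact orth hρ q (hmul (hdep q hq) (hmul h (hsite q p hpq.symm))) hi
  have hSS : ∫ η : Env d, (∑ p ∈ I, G p η * (η p - m)) ^ 2 ∂(law d ρ) =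
      (∫ t, (t - m) ^ 2 ∂ρ) * ∑ p ∈ I, ∫ η, G p η ^ 2 ∂(law d ρ) := by
    have h2 : (fun η : Env d => (∑ p ∈ I, G p η * (η p - m)) ^ 2) =
        fun η => ∑ p ∈ I, ∑ q ∈ I, (G p η * (η p - m)) * (G q η * (η q - m)) := by
      funext η
      rw [sq, Finset.sum_mul_sum]
    rw [h2, integral_finsetSum]
    · rw [Finset.mul_sum]
      refine Finset.sum_congr rfl fun p hp => ?_
      rw [integral_finsetSum]
      · rw [Finset.sum_eq_single_of_mem p hp, hdiag p hp]
        intro q hq hqp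
        exact hoff p hp q hq hqp.symm
      · intro q hq
        exact (hT p hp).integrable_mul (hT q hq)
    · intro p hp
      refine integrable_finsetSum I fun q hq => ?_
      exact (hT p hp).integrable_mul (hT q hq)
  -- the mean of the sum against `F`
  have hTF : ∀ p ∈ I, c * ∫ η, G p η ^ 2 ∂(law d ρ) ≤
      ∫ η : Env d, (G p η * (η p - m)) * (F η - A0) ∂(law d ρ) := by
    intro p hp
    have hi0 : Integrable (fun η : Env d => (G p η * (η p - m)) * F η) (law d ρ) :=
      (hT p hp).integrable_mul hFL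
    have hi1 : Integrable (fun η : Env d => G p η * (η p - ∫ s, s ∂ρ)) (law d ρ) := by
      rw [← hm]
      exact (hT p hp).integrable (by norm_num)
    have h2 : ∫ η : Env d, (G p η * (η p - m)) * (F η - A0) ∂(law d ρ) =
        ∫ η : Env d, (G p η * (η p - m)) * F η ∂(law d ρ) := by
      have h3 : (fun η : Env d => (G p η * (η p - m)) * (F η - A0)) =
          fun η : Env d => (G p η * (η p - m)) * F η - A0 * (G p η * (η p - ∫ s, s ∂ρ)) := by
        funext η
        rw [← hm]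
        ring
      rw [h3, integral_sub hi0 (hi1.const_mul A0), integral_const_mul,
        orth hρ p (hdep p hp) hi1, mul_zero, sub_zero]
    have hGQi : Integrable (fun η => G p η * Q p η) (law d ρ) := by
      refine Integrable.mono' (integrable_const B)
        ((hGm p hp).mul (hQm p hp)).aestronglyMeasurable (Eventually.of_forall fun η => ?_)
      rw [Real.norm_eq_abs, abs_mul, abs_of_nonneg (hG p hp η).1]
      calc G p η * |Q p η| ≤ 1 * |Q p η| :=
            mul_le_mul_of_nonneg_right (hG p hp η).2 (abs_nonneg _)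
        _ ≤ B := by rw [one_mul]; exact hQ p hp η
    rw [h2]
    refine (hGQ p hp).trans ?_
    rw [integral_upd p hi0, integral_upd p hGQi]
    refine integral_mono (integrable_upd p hGQi) (integrable_upd p hi0) fun η => ?_
    show ∫ r, G p (Function.update η p r) * Q p (Function.update η p r) ∂ρ ≤
      ∫ r, (G p (Function.update η p r) * (Function.update η p r p - m)) *
        F (Function.update η p r) ∂ρ
    simp only [dep_upd (hdep p hp), Function.update_self]
    have h4 : ∫ r, G p η * Q p (Function.update η p r) ∂ρ =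
        G p η * ∫ r, Q p (Function.update η p r) ∂ρ := integral_const_mul _ _
    have h5 : ∫ r, (G p η * (r - m)) * F (Function.update η p r) ∂ρ =
        G p η * ∫ r, (r - ∫ s, s ∂ρ) * F (Function.update η p r) ∂ρ := by
      rw [← integral_const_mul]
      refine integral_congr_ae (Eventually.of_forall fun r => ?_)
      show (G p η * (r - m)) * F (Function.update η p r) =
        G p η * ((r - ∫ s, s ∂ρ) * F (Function.update η p r))
      rw [← hm]
      ring
    rw [h4, h5]
    exact mul_le_mul_of_nonneg_left (h1 p hp η) (hG p hp η).1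
  have hSF : c * ∑ p ∈ I, ∫ η, G p η ^ 2 ∂(law d ρ) ≤
      ∫ η : Env d, (∑ p ∈ I, G p η * (η p - m)) * (F η - A0) ∂(law d ρ) := by
    have h2 : (fun η : Env d => (∑ p ∈ I, G p η * (η p - m)) * (F η - A0)) =
        fun η => ∑ p ∈ I, (G p η * (η p - m)) * (F η - A0) := by
      funext η
      rw [Finset.sum_mul]
    rw [h2, integral_finsetSum, Finset.mul_sum]
    · exact Finset.sum_le_sum hTF
    · intro p hp
      exact (hT p hp).integrable_mul hFA
  -- the quadratic inequality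
  obtain ⟨Γ, hΓ⟩ : ∃ Γ, Γ = ∑ p ∈ I, ∫ η, G p η ^ 2 ∂(law d ρ) := ⟨_, rfl⟩
  obtain ⟨V, hV⟩ : ∃ V, V = ∫ η, (F η - A0) ^ 2 ∂(law d ρ) := ⟨_, rfl⟩
  obtain ⟨σ, hσ⟩ : ∃ σ, σ = ∫ t, (t - m) ^ 2 ∂ρ := ⟨_, rfl⟩
  rw [← hm, ← hΓ, ← hV, ← hσ]
  rw [← hΓ] at hSF hSS
  rw [← hσ] at hSS
  have hΓ0 : 0 ≤ Γ := by
    rw [hΓ]
    exact Finset.sum_nonneg fun p _ => integral_nonneg fun η => sq_nonneg _
  have hσ0 : 0 ≤ σ := by
    rw [hσ]
    exact integral_nonneg fun t => sq_nonneg _
  have hV0 : 0 ≤ V := by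
    rw [hV]
    exact integral_nonneg fun η => sq_nonneg _
  have key : ∀ a : ℝ, 0 ≤ a → 2 * a * (c * Γ) ≤ a ^ 2 * (σ * Γ) + V := by
    intro a ha
    have h2 : 0 ≤ ∫ η : Env d, (a * (∑ p ∈ I, G p η * (η p - m)) - (F η - A0)) ^ 2 ∂(law d ρ) :=
      integral_nonneg fun η => sq_nonneg _
    have h3 : (fun η : Env d => (a * (∑ p ∈ I, G p η * (η p - m)) - (F η - A0)) ^ 2) =
        fun η => a ^ 2 * (∑ p ∈ I, G p η * (η p - m)) ^ 2 -
          2 * a * ((∑ p ∈ I, G p η * (η p - m)) * (F η - A0)) + (F η - A0) ^ 2 := by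
      funext η
      ring
    have i1 : Integrable (fun η : Env d => (∑ p ∈ I, G p η * (η p - m)) ^ 2) (law d ρ) :=
      hS.integrable_sq
    have i2 : Integrable (fun η : Env d => (∑ p ∈ I, G p η * (η p - m)) * (F η - A0))
        (law d ρ) := hS.integrable_mul hFA
    have i3 : Integrable (fun η : Env d => (F η - A0) ^ 2) (law d ρ) := hFA.integrable_sq
    have i4 : Integrable (fun η : Env d => a ^ 2 * (∑ p ∈ I, G p η * (η p - m)) ^ 2 -
        2 * a * ((∑ p ∈ I, G p η * (η p - m)) * (F η - A0))) (law d ρ) :=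
      (i1.const_mul (a ^ 2)).sub (i2.const_mul (2 * a))
    rw [h3, integral_add i4 i3, integral_sub (i1.const_mul (a ^ 2)) (i2.const_mul (2 * a)),
      integral_const_mul, integral_const_mul, hSS, ← hV] at h2
    have h6 := mul_le_mul_of_nonneg_left hSF (mul_nonneg (by norm_num : (0 : ℝ) ≤ 2) ha)
    linarith
  rcases hσ0.eq_or_lt with hs | hs
  · -- no variance
    have h7 : c * Γ ≤ 0 := by
      by_contra hcon
      push Not at hcon
      have h8 := key ((V + 1) / (c * Γ)) (by positivity)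
      rw [← hs] at h8
      have h9 : 2 * ((V + 1) / (c * Γ)) * (c * Γ) = 2 * (V + 1) := by
        rw [mul_assoc, div_mul_cancel₀ _ hcon.ne']
      rw [h9] at h8
      linarith
    have h10 : c ^ 2 * Γ = c * (c * Γ) := by ring
    rw [h10, ← hs, zero_mul]
    exact mul_nonpos_of_nonneg_of_nonpos hc h7
  · have h8 := key (c / σ) (by positivity)
    have h9 : 2 * (c / σ) * (c * Γ) = 2 * (c ^ 2 * Γ / σ) := by
      field_simp
    have h10 : (c / σ) ^ 2 * (σ * Γ) = c ^ 2 * Γ / σ := by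
      field_simp
    rw [h9, h10] at h8
    have h11 : c ^ 2 * Γ / σ ≤ V := by linarith
    rw [div_le_iff₀ hs] at h11
    linarith

end Pool.Agent.W_7d29a1_S90
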