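import Pool.Agent.W_7d29a1_S90.DefsS90
import Pool.Agent.W_7d29a1_h46u.Walk

/-!
The information on `S_t` in dimension two is a multiple of `log n`.
-/

namespace Pool.Agent.W_7d29a1_S90

open MeasureTheory ProbabilityTheory Filter Topology Pool.Agent.W_MP_7d29a1_pr
  Pool.Agent.W_7d29a1_h46 Pool.Agent.W_7d29a1_h46u Pool.Agent.W_7d29a1_D2.B35
  Pool.Agent.W_7d29a1_Q29

variable {d : ℕ} {ρ : Measure ℝ} [IsProbabilityMeasure ρ]

lemma pe_mono21 (hd : 0 < d) (β : ℝ) (h : Vec d) (η : Env d) {n : ℕ}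
    {f g : (Fin n → Step d) → ℝ} (hfg : ∀ s, f s ≤ g s) : pe β h η f ≤ pe β h η g := by
  unfold pe
  refine div_le_div_of_nonneg_right ?_ (Z_pos hd β h η n).le
  exact Finset.sum_le_sum fun s _ => mul_le_mul_of_nonneg_left (hfg s) (wgt_pos β h η s).le

lemma pe_const21 (hd : 0 < d) (β : ℝ) (h : Vec d) (η : Env d) {n : ℕ} (c : ℝ) :
    pe β h η (fun _ : Fin n → Step d => c) = c := by
  unfold pe
  rw [← Finset.sum_mul, ← Z_eq, mul_div_assoc, mul_div_cancel₀ _ (Z_pos hd β h η n).ne']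

lemma pe_add21 (β : ℝ) (h : Vec d) (η : Env d) {n : ℕ} (f g : (Fin n → Step d) → ℝ) :
    pe β h η (fun s => f s + g s) = pe β h η f + pe β h η g := by
  unfold pe
  rw [← add_div, ← Finset.sum_add_distrib]
  congr 1
  exact Finset.sum_congr rfl fun s _ => mul_add _ _ _

lemma pe_smul21 (β : ℝ) (h : Vec d) (η : Env d) {n : ℕ} (c : ℝ) (f : (Fin n → Step d) → ℝ) :
    pe β h η (fun s => c * f s) = c * pe β h η f := by
  unfold pe
  rw [← mul_div_assoc, Finset.mul_sum]
  congr 1
  exact Finset.sum_congr rfl fun s _ => by ring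

lemma pe_meas21 (β : ℝ) (h : Vec d) {n : ℕ} {F : Env d → (Fin n → Step d) → ℝ}
    (hF : ∀ s, Measurable fun η => F η s) : Measurable fun η => pe β h η (F η) := by
  unfold pe
  exact (Finset.measurable_sum _ fun s _ => (measurable_wgt β h s).mul (hF s)).div
    (measurable_Z β h n)

lemma pe_abs21 (hd : 0 < d) (β : ℝ) (h : Vec d) (η : Env d) {n : ℕ}
    {f : (Fin n → Step d) → ℝ} {M : ℝ} (hf : ∀ s, |f s| ≤ M) : |pe β h η f| ≤ M := by
  rw [abs_le]
  constructor
  · rw [← pe_const21 hd β h η (n := n) (-M)]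
    exact pe_mono21 hd β h η fun s => (abs_le.1 (hf s)).1
  · rw [← pe_const21 hd β h η (n := n) M]
    exact pe_mono21 hd β h η fun s => (abs_le.1 (hf s)).2

lemma pe_int21 (hd : 0 < d) (β : ℝ) (h : Vec d) {n : ℕ} (f : (Fin n → Step d) → ℝ) :
    Integrable (fun η => pe β h η f) (law d ρ) := by
  have hm : Measurable (fun η : Env d => pe β h η f) :=
    pe_meas21 (F := fun _ => f) β h fun s => measurable_const
  refine Integrable.of_bound hm.aestronglyMeasurable (∑ s, |f s|) (Eventually.of_forall fun η => ?_)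
  rw [Real.norm_eq_abs]
  exact pe_abs21 hd β h η fun s => Finset.single_le_sum (f := fun s => |f s|)
    (fun s _ => abs_nonneg _) (Finset.mem_univ s)

lemma pe2_int21 (hd : 0 < d) (β : ℝ) (h : Vec d) {n : ℕ}
    (f : (Fin n → Step d) → (Fin n → Step d) → ℝ) :
    Integrable (fun η => pe2 β h η f) (law d ρ) := by
  have hm : Measurable (fun η : Env d => pe2 β h η f) := by
    unfold pe2
    exact pe_meas21 (F := fun η s => pe β h η (f s)) β h fun s =>
      pe_meas21 (F := fun _ => f s) β h fun s' => measurable_const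
  refine Integrable.of_bound hm.aestronglyMeasurable (∑ s, ∑ s', |f s s'|)
    (Eventually.of_forall fun η => ?_)
  unfold pe2
  rw [Real.norm_eq_abs]
  refine pe_abs21 hd β h η fun s => pe_abs21 hd β h η fun s' => ?_
  exact (Finset.single_le_sum (f := fun s' => |f s s'|) (fun s _ => abs_nonneg _)
    (Finset.mem_univ s')).trans (Finset.single_le_sum (f := fun s => ∑ s', |f s s'|)
      (fun s _ => Finset.sum_nonneg fun s' _ => abs_nonneg _) (Finset.mem_univ s))

lemma Rp_anti21 (hd : 0 < d) (β : ℝ) (h : Vec d) (n t : ℕ) {r r' : ℝ} (hr : r ≤ r') :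
    Rp ρ β h n t r' ≤ Rp ρ β h n t r := by
  unfold Rp
  refine integral_mono (pe2_int21 hd β h _) (pe2_int21 hd β h _) fun η => ?_
  unfold pe2
  refine pe_mono21 hd β h η fun s => pe_mono21 hd β h η fun s' => ?_
  beta_reduce
  split_ifs with h1 h2
  · exact le_rfl
  · exact absurd (hr.trans_lt h1) h2
  · exact zero_le_one
  · exact le_rfl

lemma Tl_le21 (hd : 0 < d) (β : ℝ) (h : Vec d) (n τ t : ℕ) (m : Vec d) {r B : ℝ} (hr : 0 < r)
    (hB : ∫ η, pe β h η (fun s : Fin n → Step d => inc τ t m s ^ 4) ∂(law d ρ) ≤ B) :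
    Tl ρ β h n τ t m r ≤ B / r ^ 4 := by
  unfold Tl
  have h1 : ∀ η : Env d, pe β h η (fun s : Fin n → Step d => if r < inc τ t m s then (1 : ℝ) else 0) ≤
      1 / r ^ 4 * pe β h η (fun s : Fin n → Step d => inc τ t m s ^ 4) := by
    intro η
    rw [← pe_smul21]
    refine pe_mono21 hd β h η fun s => ?_
    split_ifs with h2
    · rw [one_div, ← div_eq_inv_mul, one_le_div (by positivity)]
      exact pow_le_pow_left₀ hr.le h2.le 4
    · have : 0 ≤ inc τ t m s := norm_nonneg _
      positivity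
  calc ∫ η, pe β h η (fun s : Fin n → Step d => if r < inc τ t m s then (1 : ℝ) else 0) ∂(law d ρ)
      ≤ ∫ η, 1 / r ^ 4 * pe β h η (fun s : Fin n → Step d => inc τ t m s ^ 4) ∂(law d ρ) :=
        integral_mono (pe_int21 hd β h _) ((pe_int21 hd β h _).const_mul _) h1
    _ = 1 / r ^ 4 * ∫ η, pe β h η (fun s : Fin n → Step d => inc τ t m s ^ 4) ∂(law d ρ) :=
        integral_const_mul _ _
    _ ≤ 1 / r ^ 4 * B := mul_le_mul_of_nonneg_left hB (by positivity)
    _ = B / r ^ 4 := by ring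

lemma sec_le21 (hd : 0 < d) (β : ℝ) (h : Vec d) (n t : ℕ) {α R : ℝ} (hR : 1 ≤ R) (ht : 1 ≤ t)
    (htn : t ≤ n) (hα : (n : ℝ) ^ α ≤ t) (hW : W4 ρ β h n α R) : ∃ m : Vec d,
    ∫ η, pe β h η (fun s : Fin n → Step d => ‖emb (pos s t) - m‖ ^ 2) ∂(law d ρ) ≤
      Real.sqrt R * t := by
  obtain ⟨m, hm⟩ := hW 0 t ht htn (by simpa using hα)
  refine ⟨m, ?_⟩
  have ht0 : (0 : ℝ) < t := by exact_mod_cast ht
  have hs0 : 0 < Real.sqrt R := Real.sqrt_pos.2 (by linarith)
  have hsq : Real.sqrt R ^ 2 = R := Real.sq_sqrt (by linarith)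
  have hl : 0 < Real.sqrt R * t := by positivity
  have h1 : ∀ η : Env d, pe β h η (fun s : Fin n → Step d => ‖emb (pos s t) - m‖ ^ 2) ≤
      1 / (2 * (Real.sqrt R * t)) * pe β h η (fun s : Fin n → Step d => inc 0 t m s ^ 4) +
        Real.sqrt R * t / 2 := by
    intro η
    rw [← pe_smul21, ← pe_const21 hd β h η (n := n) (Real.sqrt R * t / 2), ← pe_add21]
    refine pe_mono21 hd β h η fun s => ?_
    have hp : pos s 0 = 0 := by
      unfold pos
      exact Finset.sum_eq_zero fun j _ => if_neg (Nat.not_lt_zero _)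
    have he : inc 0 t m s = ‖emb (pos s t) - m‖ := by
      have hz : emb (0 : Site d) = 0 := by
        ext j
        simp [emb]
      unfold inc
      rw [hp, hz, sub_zero]
    rw [he]
    set x := ‖emb (pos s t) - m‖
    set l := Real.sqrt R * t
    have h3 : 1 / (2 * l) * x ^ 4 + l / 2 - x ^ 2 = (x ^ 2 - l) ^ 2 / (2 * l) := by
      field_simp
      ring
    have h4 : 0 ≤ (x ^ 2 - l) ^ 2 / (2 * l) := by positivity
    linarith
  calc ∫ η, pe β h η (fun s : Fin n → Step d => ‖emb (pos s t) - m‖ ^ 2) ∂(law d ρ)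
      ≤ ∫ η, (1 / (2 * (Real.sqrt R * t)) * pe β h η (fun s : Fin n → Step d => inc 0 t m s ^ 4) +
        Real.sqrt R * t / 2) ∂(law d ρ) :=
        integral_mono (pe_int21 hd β h _)
          (((pe_int21 hd β h _).const_mul _).add (integrable_const _)) h1
    _ = 1 / (2 * (Real.sqrt R * t)) *
        (∫ η, pe β h η (fun s : Fin n → Step d => inc 0 t m s ^ 4) ∂(law d ρ)) +
          Real.sqrt R * t / 2 := by
        rw [integral_add ((pe_int21 hd β h _).const_mul _) (integrable_const _),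
          integral_const_mul, integral_const]
        simp
    _ ≤ 1 / (2 * (Real.sqrt R * t)) * (R * (t : ℝ) ^ 2) + Real.sqrt R * t / 2 := by
        have h5 : ∫ η, pe β h η (fun s : Fin n → Step d => inc 0 t m s ^ 4) ∂(law d ρ) ≤
            R * (t : ℝ) ^ 2 := by simpa using hm
        have h6 := mul_le_mul_of_nonneg_left h5
          (by positivity : (0 : ℝ) ≤ 1 / (2 * (Real.sqrt R * t)))
        linarith
    _ = Real.sqrt R * t := by
        nth_rewrite 2 [← hsq]
        field_simp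
        ring

lemma Vr_le21 (hd : 0 < d) (β : ℝ) (h e : Vec d) (n t : ℕ) (m : Vec d) (he : ‖e‖ = 1) :
    Vr ρ β h e n t ≤
      ∫ η, pe β h η (fun s : Fin n → Step d => ‖emb (pos s t) - m‖ ^ 2) ∂(law d ρ) := by
  unfold Vr
  have h0 : ∀ η : Env d, pe β h η (fun s : Fin n → Step d => inner ℝ e (emb (pos s t)) ^ 2) -
      pe β h η (fun s : Fin n → Step d => inner ℝ e (emb (pos s t))) ^ 2 ≤
      pe β h η (fun s : Fin n → Step d => ‖emb (pos s t) - m‖ ^ 2) := by
    intro η
    set a : ℝ := inner ℝ e m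
    set u := pe β h η (fun s : Fin n → Step d => inner ℝ e (emb (pos s t)))
    have h1 : pe β h η (fun s : Fin n → Step d => inner ℝ e (emb (pos s t)) ^ 2 +
        ((-(2 * a)) * inner ℝ e (emb (pos s t)) + a ^ 2)) =
        pe β h η (fun s : Fin n → Step d => inner ℝ e (emb (pos s t)) ^ 2) +
          ((-(2 * a)) * u + a ^ 2) := by
      rw [pe_add21, pe_add21, pe_smul21, pe_const21 hd]
    have h2 : pe β h η (fun s : Fin n → Step d => inner ℝ e (emb (pos s t)) ^ 2 +
        ((-(2 * a)) * inner ℝ e (emb (pos s t)) + a ^ 2)) ≤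
        pe β h η (fun s : Fin n → Step d => ‖emb (pos s t) - m‖ ^ 2) := by
      refine pe_mono21 hd β h η fun s => ?_
      have h3 : inner ℝ e (emb (pos s t)) ^ 2 +
          ((-(2 * a)) * inner ℝ e (emb (pos s t)) + a ^ 2) =
          (inner ℝ e (emb (pos s t) - m)) ^ 2 := by
        rw [inner_sub_right]
        ring
      rw [h3, ← sq_abs]
      refine pow_le_pow_left₀ (abs_nonneg _) ?_ 2
      calc |inner ℝ e (emb (pos s t) - m)| ≤ ‖e‖ * ‖emb (pos s t) - m‖ := abs_real_inner_le_norm _ _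
        _ = ‖emb (pos s t) - m‖ := by rw [he, one_mul]
    nlinarith [sq_nonneg (u - a)]
  by_cases hint : Integrable (fun η : Env d =>
      pe β h η (fun s : Fin n → Step d => inner ℝ e (emb (pos s t)) ^ 2) -
      pe β h η (fun s : Fin n → Step d => inner ℝ e (emb (pos s t))) ^ 2) (law d ρ)
  · exact integral_mono hint (pe_int21 hd β h _) h0
  · rw [integral_undef hint]
    refine integral_nonneg fun η => ?_
    have h5 := pe_mono21 hd β h η (f := fun _ : Fin n → Step d => (0 : ℝ))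
      (g := fun s : Fin n → Step d => ‖emb (pos s t) - m‖ ^ 2) fun s => by positivity
    rw [pe_const21 hd β h η (n := n) (0 : ℝ)] at h5
    exact h5

/-- A telescoping sum with a harmonic lower bound. -/
lemma tele21 (f : ℕ → ℝ) (t p q : ℕ) (c : ℝ) (hc : 0 ≤ c) (hp : 1 ≤ p) (hq : q < t)
    (hmono : ∀ τ, 1 ≤ τ → τ < t → f τ ≤ f (τ - 1))
    (hk : ∀ s, p ≤ s → s ≤ q → c / s ≤ f (t - s - 1) - f (t - s)) :
    c * Real.log (((q : ℝ) + 1) / p) ≤ f 0 - f (t - 1) := by
  have hp0 : (0 : ℝ) < p := by exact_mod_cast hp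
  have key : ∀ k : ℕ, k ≤ t - 1 → 0 ≤ f (t - 1 - k) - f (t - 1) ∧
      c * Real.log (((min k q : ℕ) + 1 : ℝ) / p) ≤ f (t - 1 - k) - f (t - 1) := by
    intro k
    induction k with
    | zero =>
      intro _
      simp only [Nat.sub_zero, sub_self, Nat.zero_min, Nat.cast_zero, zero_add]
      refine ⟨le_rfl, ?_⟩
      refine mul_nonpos_of_nonneg_of_nonpos hc (Real.log_nonpos (by positivity) ?_)
      rw [div_le_one hp0]
      exact_mod_cast hp
    | succ k ih =>
      intro hk1
      obtain ⟨ih1, ih2⟩ := ih (by omega)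
      have e1 : t - 1 - (k + 1) = t - (k + 1) - 1 := by omega
      have e2 : t - 1 - k = t - (k + 1) := by omega
      have hm := hmono (t - (k + 1)) (by omega) (by omega)
      rw [e2] at ih1 ih2
      rw [e1]
      refine ⟨by linarith, ?_⟩
      by_cases h1 : k + 1 ≤ q
      · by_cases h2 : p ≤ k + 1
        · have h3 := hk (k + 1) h2 h1
          have e3 : min (k + 1) q = k + 1 := min_eq_left h1
          have e4 : min k q = k := min_eq_left (by omega)
          rw [e3]
          rw [e4] at ih2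
          have hk0 : (0 : ℝ) < (k : ℝ) + 1 := by positivity
          have h5 : Real.log ((((k + 1 : ℕ) : ℝ) + 1) / p) ≤
              Real.log (((k : ℝ) + 1) / p) + 1 / ((k : ℝ) + 1) := by
            have e5 : (((k + 1 : ℕ) : ℝ) + 1) / p = ((k : ℝ) + 1) / p * (1 + 1 / ((k : ℝ) + 1)) := by
              push_cast
              field_simp
            rw [e5, Real.log_mul (by positivity) (by positivity)]
            have := Real.log_le_sub_one_of_pos (by positivity : (0 : ℝ) < 1 + 1 / ((k : ℝ) + 1))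
            linarith
          have h6 := mul_le_mul_of_nonneg_left h5 hc
          have h7 : c / ((k + 1 : ℕ) : ℝ) = c * (1 / ((k : ℝ) + 1)) := by
            push_cast
            ring
          rw [h7] at h3
          linarith
        · have h4 : Real.log (((min (k + 1) q : ℕ) + 1 : ℝ) / p) ≤ 0 := by
            refine Real.log_nonpos (by positivity) ?_
            rw [div_le_one hp0]
            have : min (k + 1) q + 1 ≤ p := by omega
            exact_mod_cast this
          have h5 := mul_nonpos_of_nonneg_of_nonpos hc h4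
          linarith
      · have e3 : min (k + 1) q = min k q := by omega
        rw [e3]
        linarith
  have h1 := (key (t - 1) le_rfl).2
  have e1 : min (t - 1) q = q := by omega
  rw [e1, Nat.sub_self] at h1
  exact h1

/-- **Leaf InS.** -/
theorem insS21 {β : ℝ} (hβ : 0 < β) (hI : InT 2 ρ β) (hE : EnZ 2 ρ β) (hR : RpT 2 ρ β)
    (hD : DlT 2 ρ β) : InS ρ β := by
  intro α a hα ha
  obtain ⟨cI, hcI0, hcI1, hI⟩ := hI
  obtain ⟨CE, hCE, hE⟩ := hE
  obtain ⟨CD, hCD, hD⟩ := hD (2 * β) (by positivity)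
  obtain ⟨a', ha'⟩ : ∃ a' : ℝ, a' = min a 1 := ⟨_, rfl⟩
  obtain ⟨D, hDd⟩ : ∃ D : ℝ, D = max CD 1 := ⟨_, rfl⟩
  obtain ⟨α', hα'⟩ : ∃ α' : ℝ, α' = max α 0 := ⟨_, rfl⟩
  have ha0 : 0 < a' := by rw [ha']; exact lt_min ha one_pos
  have ha1 : a' ≤ 1 := by rw [ha']; exact min_le_right _ _
  have haa : a' ≤ a := by rw [ha']; exact min_le_left _ _
  have hD1 : 1 ≤ D := by rw [hDd]; exact le_max_right _ _
  have hDC : CD ≤ D := by rw [hDd]; exact le_max_left _ _
  have hα1 : α' < 1 := by rw [hα']; exact max_lt hα one_pos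
  have hα0 : 0 ≤ α' := by rw [hα']; exact le_max_right _ _
  have hαα : α ≤ α' := by rw [hα']; exact le_max_left _ _
  obtain ⟨K, hK⟩ : ∃ K : ℝ, K = 8192 * D / (cI * a' ^ 4) := ⟨_, rfl⟩
  have hca : 0 < cI * a' ^ 4 := by positivity
  have hca1 : cI * a' ^ 4 ≤ 1 := by
    have : a' ^ 4 ≤ 1 := pow_le_one₀ ha0.le ha1
    nlinarith [pow_pos ha0 4]
  have hK1 : 1 ≤ K := by
    rw [hK, one_le_div hca]
    linarith
  have hK0 : 0 < K := by linarith
  obtain ⟨c1, hc1⟩ : ∃ c1 : ℝ, c1 = 4 / (9 * K ^ 3) := ⟨_, rfl⟩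
  have hc10 : 0 < c1 := by rw [hc1]; positivity
  have hlogK : 0 ≤ Real.log (4 * K / a') := by
    refine Real.log_nonneg ?_
    rw [one_le_div ha0]
    linarith
  have hlog2 : 0 ≤ Real.log 2 := Real.log_nonneg (by norm_num)
  refine ⟨c1 * (1 - α'), 1 + CE + c1 * (5 + Real.log 2 + Real.log (4 * K / a')),
    mul_pos hc10 (by linarith), by positivity, ?_⟩
  intro h e n t R he hn ht htn hαt hR1 hW hV
  have hR0 : 0 < R := by linarith
  have hn0 : (0 : ℝ) < n := by exact_mod_cast hn
  have ht0 : (0 : ℝ) < t := by exact_mod_cast ht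
  have htn' : (t : ℝ) ≤ n := by exact_mod_cast htn
  have hlogR : 0 ≤ Real.log R := Real.log_nonneg hR1
  obtain ⟨κ, hκ⟩ : ∃ κ : ℝ, κ = a' ^ 2 / (16 * R ^ 3) := ⟨_, rfl⟩
  have hκ0 : 0 < κ := by rw [hκ]; positivity
  have hV' : a' / R * n ≤ Vr ρ β h e n t := by
    refine le_trans ?_ hV
    exact mul_le_mul_of_nonneg_right (div_le_div_of_nonneg_right haa hR0.le) hn0.le
  have hκ1 : κ ≤ 1 / 16 := by
    rw [hκ, div_le_div_iff₀ (by positivity) (by norm_num)]
    have h1 : 1 ≤ R ^ 3 := one_le_pow₀ hR1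
    have h2 : a' ^ 2 ≤ 1 := pow_le_one₀ ha0.le ha1
    linarith
  have hRp : κ ≤ Rp ρ β h n t (Real.sqrt (a' / R * n)) := by
    refine le_trans (le_of_eq ?_)
      (hR h e n t α R (a' / R) he hn ht htn hαt hR1 (by positivity) hW hV')
    rw [hκ]
    field_simp
  obtain ⟨b, hb⟩ : ∃ b : ℝ, b = -Real.log (κ / (4 * D)) / (2 * β) := ⟨_, rfl⟩
  have hκD : 0 < κ / (4 * D) := by positivity
  have hexpb : Real.exp (-(2 * β * b)) = κ / (4 * D) := by
    have e1 : -(2 * β * b) = Real.log (κ / (4 * D)) := by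
      rw [hb]
      field_simp
    rw [e1, Real.exp_log hκD]
  have hb0 : 0 ≤ b := by
    rw [hb]
    refine div_nonneg ?_ (by positivity)
    have : Real.log (κ / (4 * D)) ≤ 0 := by
      refine Real.log_nonpos hκD.le ?_
      rw [div_le_one (by positivity)]
      linarith
    linarith
  -- the second moment of `S_t`
  obtain ⟨m0, hm0⟩ := sec_le21 (ρ := ρ) two_pos β h n t hR1 ht htn hαt hW
  have hsR : Real.sqrt R ≤ R := by
    refine Real.sqrt_le_iff.2 ⟨hR0.le, ?_⟩
    rw [sq]
    exact le_mul_of_one_le_left hR0.le hR1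
  have htlow : a' * n / R ^ 2 ≤ t := by
    have h1 := hV'.trans ((Vr_le21 two_pos β h e n t m0 he).trans hm0)
    have h2 : a' / R * n ≤ R * t := h1.trans (mul_le_mul_of_nonneg_right hsR ht0.le)
    rw [div_le_iff₀ (by positivity)]
    have h3 : a' / R * n * R ≤ R * t * R := mul_le_mul_of_nonneg_right h2 hR0.le
    have h4 : a' / R * n * R = a' * n := by field_simp
    calc a' * n = a' / R * n * R := h4.symm
      _ ≤ R * t * R := h3
      _ = t * R ^ 2 := by ring
  have hE0 : En ρ β h n t 0 ≤ Real.log R + Real.log n + CE := by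
    have h1 := hE h n t m0 R hn htn hR1 (hm0.trans
      (mul_le_mul hsR htn' ht0.le hR0.le))
    rw [Real.log_mul hR0.ne' hn0.ne'] at h1
    have h2 : (((2 : ℕ) : ℝ) / 2) = 1 := by norm_num
    rw [h2, one_mul] at h1
    exact h1
  obtain ⟨p, hp⟩ : ∃ p : ℕ, p = ⌈(n : ℝ) ^ α⌉₊ := ⟨_, rfl⟩
  obtain ⟨q, hq⟩ : ∃ q : ℕ, q = ⌊a' * n / (4 * K * R ^ 5)⌋₊ := ⟨_, rfl⟩
  have hnα : 0 < (n : ℝ) ^ α := Real.rpow_pos_of_pos hn0 α
  have hp1 : 1 ≤ p := by
    rw [hp]
    exact Nat.one_le_ceil_iff.2 hnα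
  have hp0 : (0 : ℝ) < p := by exact_mod_cast hp1
  have hq1 : (q : ℝ) ≤ a' * n / (4 * K * R ^ 5) := by
    rw [hq]
    exact Nat.floor_le (by positivity)
  have hqt : q < t := by
    have h1 : a' * n / (4 * K * R ^ 5) < a' * n / R ^ 2 := by
      refine div_lt_div_of_pos_left (by positivity) (by positivity) ?_
      have h2 : R ^ 2 ≤ R ^ 5 := pow_le_pow_right₀ hR1 (by norm_num)
      have h3 : 0 < R ^ 2 := by positivity
      have h4 : 4 * R ^ 5 ≤ 4 * K * R ^ 5 :=
        mul_le_mul_of_nonneg_right (by linarith) (by positivity)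
      linarith
    have : (q : ℝ) < t := by linarith
    exact_mod_cast this
  have hmono : ∀ τ, 1 ≤ τ → τ < t → En ρ β h n t τ ≤ En ρ β h n t (τ - 1) := fun τ h1 h2 =>
    (hI h n τ t h1 h2 htn 0 1 0 le_rfl le_rfl).1
  have hk : ∀ s, p ≤ s → s ≤ q →
      c1 / R ^ 16 / s ≤ En ρ β h n t (t - s - 1) - En ρ β h n t (t - s) := by
    intro s hs1 hs2
    have hs0 : (0 : ℝ) < s := by
      have : 0 < s := by omega
      exact_mod_cast this
    have hs1' : (1 : ℝ) ≤ s := by
      have : 1 ≤ s := by omega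
      exact_mod_cast this
    have hsq : (s : ℝ) ≤ q := by exact_mod_cast hs2
    have hcast : (t : ℝ) - ((t - s : ℕ) : ℝ) = s := by
      rw [Nat.cast_sub (by omega)]
      ring
    obtain ⟨m, hm⟩ := hW (t - s) t (by omega) htn (by
      rw [hcast]
      calc (n : ℝ) ^ α ≤ p := by rw [hp]; exact Nat.le_ceil _
        _ ≤ s := by exact_mod_cast hs1)
    rw [hcast] at hm
    obtain ⟨r, hr⟩ : ∃ r : ℝ, r = Real.sqrt (K * R ^ 4 * s) := ⟨_, rfl⟩
    have hKRs : 1 ≤ K * R ^ 4 * s := by
      have h1 : 1 ≤ R ^ 4 := one_le_pow₀ hR1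
      have h2 : 1 ≤ K * R ^ 4 := one_le_mul_of_one_le_of_one_le hK1 h1
      exact one_le_mul_of_one_le_of_one_le h2 hs1'
    have hr2 : r ^ 2 = K * R ^ 4 * s := by
      rw [hr]
      exact Real.sq_sqrt (by linarith)
    have hr1 : 1 ≤ r := by
      rw [hr]
      exact Real.one_le_sqrt.2 hKRs
    have hr0 : 0 < r := by linarith
    obtain ⟨θ, hθ⟩ : ∃ θ : ℝ, θ = 1 / (K * R ^ 6) := ⟨_, rfl⟩
    have hθ0 : 0 < θ := by rw [hθ]; positivity
    have hθκ : cI * κ ^ 2 = 32 * D * θ := by
      rw [hθ, hκ, hK]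
      field_simp
      ring
    have hTl : Tl ρ β h n (t - s) t m r ≤ θ := by
      refine (Tl_le21 two_pos β h n (t - s) t m hr0 hm).trans ?_
      have h1 : r ^ 4 = (K * R ^ 4 * s) ^ 2 := by
        rw [← hr2]
        ring
      rw [h1, hθ, div_le_div_iff₀ (by positivity) (by positivity)]
      have h2 : R * (s : ℝ) ^ 2 * (K * R ^ 6) = (R ^ 7 * s ^ 2 * K) * 1 := by ring
      have h3 : 1 * (K * R ^ 4 * (s : ℝ)) ^ 2 = (R ^ 7 * s ^ 2 * K) * (K * R) := by ring
      rw [h2, h3]
      refine mul_le_mul_of_nonneg_left ?_ (by positivity)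
      exact one_le_mul_of_one_le_of_one_le hK1 hR1
    have hTl0 : 0 ≤ Tl ρ β h n (t - s) t m r := by
      unfold Tl
      refine integral_nonneg fun η => ?_
      have h5 := pe_mono21 two_pos β h η (f := fun _ : Fin n → Step 2 => (0 : ℝ))
        (g := fun s' : Fin n → Step 2 => open Classical in
          if r < inc (t - s) t m s' then (1 : ℝ) else 0) fun s' => by
            beta_reduce
            split_ifs <;> norm_num
      rw [pe_const21 two_pos β h η (n := n) (0 : ℝ)] at h5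
      exact h5
    have hRp2 : κ ≤ Rp ρ β h n t (2 * r) := by
      refine hRp.trans (Rp_anti21 two_pos β h n t ?_)
      refine Real.le_sqrt_of_sq_le ?_
      have h1 : (2 * r) ^ 2 = 4 * (K * R ^ 4 * s) := by
        rw [← hr2]
        ring
      rw [h1]
      have h2 : (s : ℝ) ≤ a' * n / (4 * K * R ^ 5) := hsq.trans hq1
      rw [le_div_iff₀ (by positivity)] at h2
      have h3 : a' / R * n * R = a' * n := by field_simp
      have h4 : 4 * (K * R ^ 4 * s) * R ≤ a' / R * n * R := by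
        rw [h3]
        calc 4 * (K * R ^ 4 * s) * R = s * (4 * K * R ^ 5) := by ring
          _ ≤ a' * n := h2
      exact le_of_mul_le_mul_right h4 hR0
    have hDl : Dl ρ β h n (t - s) b ≤ κ / 4 := by
      refine (hD h n (t - s) b (by omega) (by omega) hb0).trans ?_
      rw [hexpb]
      calc CD * (κ / (4 * D)) ≤ D * (κ / (4 * D)) := mul_le_mul_of_nonneg_right hDC hκD.le
        _ = κ / 4 := by field_simp
    have hInf := (hI h n (t - s) t (by omega) (by omega) htn m r b hr1 hb0).2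
    rw [hexpb] at hInf
    set U := cI * (κ / (4 * D)) * (Rp ρ β h n t (2 * r) - 2 * Tl ρ β h n (t - s) t m r -
      Dl ρ β h n (t - s) b) - Tl ρ β h n (t - s) t m r with hU
    have hcκ0 : 0 < cI * (κ / (4 * D)) := by positivity
    have hcκ1 : cI * (κ / (4 * D)) ≤ 1 / 2 := by
      have h1 : κ / (4 * D) ≤ 1 / 2 := by
        rw [div_le_iff₀ (by positivity)]
        linarith
      calc cI * (κ / (4 * D)) ≤ 1 * (κ / (4 * D)) := mul_le_mul_of_nonneg_right hcI1 hκD.le
        _ ≤ 1 / 2 := by rw [one_mul]; exact h1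
    have hU4 : 4 * θ ≤ U := by
      have h1 : κ - 2 * θ - κ / 4 ≤ Rp ρ β h n t (2 * r) - 2 * Tl ρ β h n (t - s) t m r -
        Dl ρ β h n (t - s) b := by linarith
      have h2 := mul_le_mul_of_nonneg_left h1 hcκ0.le
      have h3 : cI * (κ / (4 * D)) * (κ - 2 * θ - κ / 4) = 6 * θ - 2 * (cI * (κ / (4 * D))) * θ := by
        have h4 : cI * (κ / (4 * D)) * κ = 8 * θ := by
          calc cI * (κ / (4 * D)) * κ = (cI * κ ^ 2) / (4 * D) := by ring
            _ = 8 * θ := by
              rw [hθκ]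
              field_simp
              ring
        calc cI * (κ / (4 * D)) * (κ - 2 * θ - κ / 4) =
            3 / 4 * (cI * (κ / (4 * D)) * κ) - 2 * (cI * (κ / (4 * D))) * θ := by ring
          _ = 6 * θ - 2 * (cI * (κ / (4 * D))) * θ := by rw [h4]; ring
      have h5 : 2 * (cI * (κ / (4 * D))) * θ ≤ θ := by
        calc 2 * (cI * (κ / (4 * D))) * θ ≤ 1 * θ :=
              mul_le_mul_of_nonneg_right (by linarith) hθ0.le
          _ = θ := one_mul _
      rw [hU]
      linarith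
    have hU0 : 0 ≤ U := by linarith
    have h6 := hInf hU0
    have h7 : (4 * θ) ^ 2 ≤ U ^ 2 := pow_le_pow_left₀ (by positivity) hU4 2
    have h8 : 4 * (3 * r) ^ 2 = 36 * (K * R ^ 4 * s) := by
      rw [← hr2]
      ring
    have h9 : (4 * θ) ^ 2 ≤ 36 * (K * R ^ 4 * s) *
        (En ρ β h n t (t - s - 1) - En ρ β h n t (t - s)) := by
      rw [← h8]
      exact h7.trans h6
    have h10 : 36 * (K * R ^ 4 * s) * (c1 / R ^ 16 / s) = (4 * θ) ^ 2 := by
      rw [hc1, hθ]
      field_simp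
      ring
    have h11 : 0 < 36 * (K * R ^ 4 * (s : ℝ)) := by positivity
    refine le_of_mul_le_mul_left ?_ h11
    rw [h10]
    exact h9
  have hfin := tele21 (fun τ => En ρ β h n t τ) t p q (c1 / R ^ 16) (by positivity) hp1 hqt
    hmono hk
  -- the logarithm of the number of scales
  have hlogn : 0 ≤ Real.log n := Real.log_nonneg (by exact_mod_cast hn)
  have hp2 : (p : ℝ) ≤ 2 * (n : ℝ) ^ α' := by
    have h1 : (p : ℝ) < (n : ℝ) ^ α + 1 := by
      rw [hp]
      exact Nat.ceil_lt_add_one hnα.le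
    have h2 : (n : ℝ) ^ α ≤ (n : ℝ) ^ α' :=
      Real.rpow_le_rpow_of_exponent_le (by exact_mod_cast hn) hαα
    have h3 : 1 ≤ (n : ℝ) ^ α' := Real.one_le_rpow (by exact_mod_cast hn) hα0
    linarith
  have hlog : (1 - α') * Real.log n - 5 * Real.log R - Real.log 2 - Real.log (4 * K / a') ≤
      Real.log (((q : ℝ) + 1) / p) := by
    have h1 : a' * n / (4 * K * R ^ 5) < (q : ℝ) + 1 := by
      rw [hq]
      exact Nat.lt_floor_add_one _
    have h2 : a' * n / (4 * K * R ^ 5) / (2 * (n : ℝ) ^ α') ≤ ((q : ℝ) + 1) / p :=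
      div_le_div₀ (by positivity) h1.le hp0 hp2
    have h3 := Real.log_le_log (by positivity) h2
    have h4 : Real.log (a' * n / (4 * K * R ^ 5) / (2 * (n : ℝ) ^ α')) =
        (1 - α') * Real.log n - 5 * Real.log R - Real.log 2 - Real.log (4 * K / a') := by
      have hna : (n : ℝ) ^ α' ≠ 0 := (Real.rpow_pos_of_pos hn0 α').ne'
      rw [Real.log_div (by positivity) (by positivity), Real.log_div (by positivity) (by positivity),
        Real.log_mul ha0.ne' hn0.ne', Real.log_mul (by positivity) (by positivity),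
        Real.log_mul two_ne_zero hna, Real.log_rpow hn0, Real.log_pow,
        Real.log_div (by positivity) ha0.ne']
      push_cast
      ring
    rw [h4] at h3
    exact h3
  have hcR : c1 / R ^ 16 ≤ c1 := div_le_self hc10.le (one_le_pow₀ hR1)
  have hcR0 : 0 < c1 / R ^ 16 := by positivity
  have h12 := mul_le_mul_of_nonneg_left hlog hcR0.le
  have h13 : c1 / R ^ 16 * (5 * Real.log R + Real.log 2 + Real.log (4 * K / a')) ≤
      c1 * (5 * Real.log R + Real.log 2 + Real.log (4 * K / a')) :=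
    mul_le_mul_of_nonneg_right hcR (by positivity)
  have h14 : c1 * (1 - α') / R ^ 16 * Real.log n = c1 / R ^ 16 * ((1 - α') * Real.log n) := by ring
  rw [h14]
  have h15 : 0 ≤ CE * Real.log R := mul_nonneg hCE hlogR
  have h16 : 0 ≤ c1 * (Real.log 2 + Real.log (4 * K / a')) * Real.log R := by positivity
  have h17 : (1 + CE + c1 * (5 + Real.log 2 + Real.log (4 * K / a'))) * (1 + Real.log R) =
      Real.log R + CE + c1 * (5 * Real.log R + Real.log 2 + Real.log (4 * K / a')) +
        (1 + 5 * c1 + CE * Real.log R +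
          c1 * (Real.log 2 + Real.log (4 * K / a')) * Real.log R) := by ring
  have h18 : c1 / R ^ 16 * ((1 - α') * Real.log n - 5 * Real.log R - Real.log 2 -
      Real.log (4 * K / a')) = c1 / R ^ 16 * ((1 - α') * Real.log n) -
        c1 / R ^ 16 * (5 * Real.log R + Real.log 2 + Real.log (4 * K / a')) := by ring
  rw [h18] at h12
  rw [h17]
  linarith

end Pool.Agent.W_7d29a1_S90
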