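import Pool.Agent.W_7d29a1_S90.DefsS90

/-!
The information on `S_t`, with free parameters: from `InT`, `EnZ`, `DlT`, Chebyshev tails and a
lower bound of the replica separation.
-/

namespace Pool.Agent.W_7d29a1_S90

open MeasureTheory ProbabilityTheory Filter Topology Pool.Agent.W_MP_7d29a1_pr
  Pool.Agent.W_7d29a1_h46 Pool.Agent.W_7d29a1_h46u Pool.Agent.W_7d29a1_D2.B35
  Pool.Agent.W_7d29a1_Q29

variable {d : ℕ} {ρ : Measure ℝ} {β : ℝ}

/-- The harmonic sum over a block. -/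
lemma harm99 {a : ℕ} (ha : 1 ≤ a) (b : ℕ) :
    Real.log ((b : ℝ) + 1) - Real.log a ≤ ∑ s ∈ Finset.Ico a (b + 1), 1 / (s : ℝ) := by
  induction b with
  | zero =>
    have h1 : (1 : ℝ) ≤ a := by exact_mod_cast ha
    rw [Finset.Ico_eq_empty_of_le (by simpa using ha)]
    simp only [Nat.cast_zero, zero_add, Real.log_one, Finset.sum_empty, zero_sub]
    linarith [Real.log_nonneg h1]
  | succ b ih =>
    rcases le_or_gt a (b + 1) with h | h
    · rw [Finset.sum_Ico_succ_top h]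
      have h1 : (0 : ℝ) < (b : ℝ) + 1 := by positivity
      have h2 : Real.log (((b : ℝ) + 1 + 1) / ((b : ℝ) + 1)) ≤
          ((b : ℝ) + 1 + 1) / ((b : ℝ) + 1) - 1 := Real.log_le_sub_one_of_pos (by positivity)
      rw [Real.log_div (by positivity) h1.ne'] at h2
      have h3 : ((b : ℝ) + 1 + 1) / ((b : ℝ) + 1) - 1 = 1 / ((b : ℝ) + 1) := by
        field_simp
        ring
      push_cast
      linarith
    · rw [Finset.Ico_eq_empty_of_le (by omega), Finset.sum_empty]
      have h1 : ((b + 1 : ℕ) : ℝ) + 1 ≤ a := by exact_mod_cast h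
      have h2 : Real.log (((b + 1 : ℕ) : ℝ) + 1) ≤ Real.log a :=
        Real.log_le_log (by positivity) h1
      linarith

/-- The telescope of the entropies, read from the top. -/
lemma tel99 (f : ℕ → ℝ) (w : ℝ) {t a b : ℕ} (ha : 1 ≤ a) (hb : b < t)
    (h0 : ∀ τ, 1 ≤ τ → τ < t → f τ ≤ f (τ - 1))
    (h1 : ∀ s, a ≤ s → s ≤ b → w / s ≤ f (t - s - 1) - f (t - s)) :
    w * ∑ s ∈ Finset.Ico a (b + 1), 1 / (s : ℝ) ≤ f 0 - f (t - 1) := by
  have e1 : f 0 - f (t - 1) = ∑ i ∈ Finset.range (t - 1), (f i - f (i + 1)) := by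
    rw [Finset.sum_range_sub']
  have e2 : ∑ i ∈ Finset.range (t - 1), (f i - f (i + 1)) =
      ∑ s ∈ Finset.Ico 1 t, (f (t - s - 1) - f (t - s)) := by
    rw [← Finset.sum_range_reflect, Finset.sum_Ico_eq_sum_range]
    refine Finset.sum_congr rfl fun j hj => ?_
    have hj' := Finset.mem_range.1 hj
    have a1 : t - 1 - 1 - j = t - (1 + j) - 1 := by omega
    have a2 : t - 1 - 1 - j + 1 = t - (1 + j) := by omega
    rw [a2, a1]
  rw [e1, e2, Finset.mul_sum]
  have hsub : Finset.Ico a (b + 1) ⊆ Finset.Ico 1 t := by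
    intro s hs
    rw [Finset.mem_Ico] at hs ⊢
    omega
  calc ∑ s ∈ Finset.Ico a (b + 1), w * (1 / (s : ℝ))
      ≤ ∑ s ∈ Finset.Ico a (b + 1), (f (t - s - 1) - f (t - s)) := by
        refine Finset.sum_le_sum fun s hs => ?_
        rw [Finset.mem_Ico] at hs
        have := h1 s hs.1 (by omega)
        calc w * (1 / (s : ℝ)) = w / s := by ring
          _ ≤ _ := this
    _ ≤ ∑ s ∈ Finset.Ico 1 t, (f (t - s - 1) - f (t - s)) := by
        refine Finset.sum_le_sum_of_subset_of_nonneg hsub fun s hs _ => ?_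
        rw [Finset.mem_Ico] at hs
        have := h0 (t - s) (by omega) (by omega)
        linarith

/-- The replica separation decreases with the distance. -/
def RpM (ρ : Measure ℝ) (β : ℝ) : Prop := ∀ (h : Vec 2) (n t : ℕ) (r r' : ℝ), r ≤ r' →
  Rp ρ β h n t r' ≤ Rp ρ β h n t r

/-- **The information on `S_t` with free parameters** (dimension two). -/
theorem insCore99 (hβ : 0 < β) (hI : InT 2 ρ β) (hE : EnZ 2 ρ β) (hD : DlT 2 ρ β)
    (hM : RpM ρ β) (α : ℝ) (hα : α < 1) :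
    ∃ c C : ℝ, 0 < c ∧ 0 ≤ C ∧ ∀ (h : Vec 2) (n t : ℕ) (R a κ : ℝ), 1 ≤ n → 1 ≤ t → t ≤ n →
      1 ≤ R → 0 < κ → κ ≤ 1 → 0 < a → a ≤ 1 → a * n ≤ t →
      (∃ m : Vec 2, ∫ η, pe β h η (fun s : Fin n → Step 2 => ‖emb (pos s t) - m‖ ^ 2)
        ∂(law 2 ρ) ≤ R * n) →
      (∀ τ : ℕ, 1 ≤ τ → τ < t → (n : ℝ) ^ α ≤ (t : ℝ) - τ → ∃ m : Vec 2, ∀ r : ℝ, 0 < r →
        Tl ρ β h n τ t m r ≤ R * ((t : ℝ) - τ) / r ^ 2) →
      κ ≤ Rp ρ β h n t (Real.sqrt (a * n)) →
      En ρ β h n t (t - 1) ≤ Real.log n - c * κ ^ 6 / R * Real.log n +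
        C * (1 + Real.log R + Real.log (1 / κ) + Real.log (1 / a)) := by
  obtain ⟨c0, hc0, hc01, hI⟩ := hI
  obtain ⟨CE, hCE, hE⟩ := hE
  obtain ⟨CD, hCD, hD⟩ := hD (2 * β) (by linarith)
  set α' : ℝ := max α 0 with hα'
  have hα0 : 0 ≤ α' := le_max_right _ _
  have hα1 : α' < 1 := max_lt hα one_pos
  set c1 : ℝ := c0 / (4 * (CD + 1)) with hc1
  have hc1p : 0 < c1 := by positivity
  have hc1q : c1 ≤ 1 / 4 := by
    rw [hc1, div_le_div_iff₀ (by positivity) (by norm_num)]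
    linarith
  have hL48 : 0 ≤ Real.log (48 / c1) := Real.log_nonneg (by
    rw [le_div_iff₀ hc1p]; linarith)
  have hL2 : 0 ≤ Real.log 2 := Real.log_nonneg (by norm_num)
  refine ⟨c1 ^ 3 / 1728 * (1 - α'), CE + Real.log (48 / c1) + Real.log 2 + 2,
    mul_pos (by positivity) (by linarith), by linarith, ?_⟩
  intro h n t R a κ hn ht htn hR hκ hκ1 ha ha1 hat hm0 hTl hRp
  have hnR : (1 : ℝ) ≤ n := by exact_mod_cast hn
  have hn0 : (0 : ℝ) < n := by linarith
  have hR0 : 0 < R := by linarith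
  -- the truncation
  set b : ℝ := Real.log (4 * (CD + 1) / κ) / (2 * β) with hb
  have hq1 : 1 ≤ 4 * (CD + 1) / κ := by
    rw [le_div_iff₀ hκ]; linarith
  have hb0 : 0 ≤ b := div_nonneg (Real.log_nonneg hq1) (by linarith)
  have hexp : Real.exp (-(2 * β * b)) = κ / (4 * (CD + 1)) := by
    have h1 : 2 * β * b = Real.log (4 * (CD + 1) / κ) := by
      rw [hb]; field_simp
    rw [h1, Real.exp_neg, Real.exp_log (by positivity), inv_div]
  have hDl : ∀ τ : ℕ, 1 ≤ τ → τ ≤ n → Dl ρ β h n τ b ≤ κ / 4 := by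
    intro τ h1 h2
    have h3 := hD h n τ b h1 h2 hb0
    rw [hexp] at h3
    refine h3.trans ?_
    rw [mul_div_assoc', div_le_div_iff₀ (by positivity) (by norm_num)]
    linarith
  have hE1 : c0 * Real.exp (-(2 * β * b)) = c1 * κ := by
    rw [hexp, hc1]; ring
  set K : ℝ := 12 * R / (c1 * κ ^ 2) with hK
  have hK0 : 0 < K := by positivity
  have hκ2 : κ ^ 2 ≤ 1 := pow_le_one₀ hκ.le hκ1
  have hcκ : c1 * κ ^ 2 ≤ 1 / 4 := (mul_le_of_le_one_right hc1p.le hκ2).trans hc1q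
  have hK1 : 1 ≤ K := by
    rw [hK, le_div_iff₀ (by positivity)]
    linarith
  set w : ℝ := c1 ^ 3 / 1728 * κ ^ 6 / R with hw
  have hw0 : 0 < w := by positivity
  have hκ6 : κ ^ 6 ≤ 1 := pow_le_one₀ hκ.le hκ1
  have hc13 : c1 ^ 3 ≤ 1 := pow_le_one₀ hc1p.le (by linarith)
  have hw1 : w ≤ 1 := by
    rw [hw, div_le_one hR0]
    have h1 : c1 ^ 3 * κ ^ 6 ≤ 1 := mul_le_one₀ hc13 (by positivity) hκ6
    have h2 : c1 ^ 3 / 1728 * κ ^ 6 = c1 ^ 3 * κ ^ 6 / 1728 := by ring
    rw [h2]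
    linarith
  set A : ℝ := a * (c1 * κ ^ 2) / (48 * R) with hA
  have hA0 : 0 < A := by positivity
  have hAa : A ≤ a / 2 := by
    rw [hA, div_le_div_iff₀ (by positivity) (by norm_num)]
    have h1 := mul_le_mul_of_nonneg_left hcκ ha.le
    have h2 := mul_le_mul_of_nonneg_left hR ha.le
    linarith
  have h4K : 4 * K * A = a := by
    rw [hK, hA]; field_simp; norm_num
  set s0 : ℕ := ⌈(n : ℝ) ^ α'⌉₊ with hs0
  set s1 : ℕ := ⌊A * n⌋₊ with hs1
  have hna : 1 ≤ (n : ℝ) ^ α' := Real.one_le_rpow hnR hα0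
  have hs01 : 1 ≤ s0 := by
    have : (0 : ℝ) < (n : ℝ) ^ α' := by linarith
    exact Nat.one_le_iff_ne_zero.2 (Nat.ceil_pos.2 this).ne'
  have hs1A : (s1 : ℝ) ≤ A * n := Nat.floor_le (by positivity)
  have hs1t : s1 < t := by
    have h1 : (s1 : ℝ) ≤ a / 2 * n := hs1A.trans (mul_le_mul_of_nonneg_right hAa hn0.le)
    have h2 : (1 : ℝ) ≤ t := by exact_mod_cast ht
    have h3 : (s1 : ℝ) < t := by
      have h4 : a / 2 * (n : ℝ) = a * n / 2 := by ring
      rw [h4] at h1
      linarith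
    exact_mod_cast h3
  -- one row
  have hrow : ∀ s : ℕ, s0 ≤ s → s ≤ s1 →
      w / s ≤ En ρ β h n t (t - s - 1) - En ρ β h n t (t - s) := by
    intro s hs hs'
    have hs1' : 1 ≤ s := hs01.trans hs
    have hsR : (1 : ℝ) ≤ s := by exact_mod_cast hs1'
    have hsp : (0 : ℝ) < s := by linarith
    have hst : s < t := lt_of_le_of_lt hs' hs1t
    have hτ1 : 1 ≤ t - s := by omega
    have hτt : t - s < t := by omega
    have hcast : (t : ℝ) - ((t - s : ℕ) : ℝ) = s := by
      rw [Nat.cast_sub hst.le]; ring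
    have hna2 : (n : ℝ) ^ α ≤ (t : ℝ) - ((t - s : ℕ) : ℝ) := by
      rw [hcast]
      calc (n : ℝ) ^ α ≤ (n : ℝ) ^ α' := Real.rpow_le_rpow_of_exponent_le hnR (le_max_left _ _)
        _ ≤ s0 := Nat.le_ceil _
        _ ≤ s := by exact_mod_cast hs
    obtain ⟨m, hm⟩ := hTl (t - s) hτ1 hτt hna2
    set r : ℝ := Real.sqrt (K * s) with hr
    have hKs : 1 ≤ K * s := one_le_mul_of_one_le_of_one_le hK1 hsR
    have hr1 : 1 ≤ r := by
      rw [hr]; exact Real.one_le_sqrt.2 hKs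
    have hr2 : r ^ 2 = K * s := Real.sq_sqrt (by positivity)
    have hTr : Tl ρ β h n (t - s) t m r ≤ R / K := by
      have h1 := hm r (by linarith)
      rw [hcast, hr2] at h1
      refine h1.trans (le_of_eq ?_)
      field_simp
    have hRK : R / K = c1 * κ ^ 2 / 12 := by
      rw [hK]; field_simp
    rw [hRK] at hTr
    have hRp2 : κ ≤ Rp ρ β h n t (2 * r) := by
      refine hRp.trans (hM h n t _ _ ?_)
      rw [hr]
      have h1 : (2 : ℝ) * Real.sqrt (K * s) = Real.sqrt (4 * (K * s)) := by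
        rw [show (4 : ℝ) * (K * s) = (2 : ℝ) ^ 2 * (K * s) by ring,
          Real.sqrt_mul (by norm_num : (0 : ℝ) ≤ 2 ^ 2), Real.sqrt_sq (by norm_num : (0 : ℝ) ≤ 2)]
      rw [h1]
      refine Real.sqrt_le_sqrt ?_
      have h2 : (s : ℝ) ≤ A * n := le_trans (by exact_mod_cast hs') hs1A
      calc 4 * (K * s) ≤ 4 * (K * (A * n)) := by
            have := mul_le_mul_of_nonneg_left h2 hK0.le
            linarith
        _ = (4 * K * A) * n := by ring
        _ = a * n := by rw [h4K]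
    have hDr := hDl (t - s) hτ1 (by omega)
    obtain ⟨-, hI2⟩ := hI h n (t - s) t hτ1 hτt htn m r b hr1 hb0
    rw [hE1] at hI2
    set T := Tl ρ β h n (t - s) t m r with hT
    have hc1κ : c1 * κ ≤ 1 / 4 := (mul_le_of_le_one_right hc1p.le hκ1).trans hc1q
    have hc1κ0 : 0 < c1 * κ := by positivity
    have hU : c1 * κ ^ 2 / 2 ≤
        c1 * κ * (Rp ρ β h n t (2 * r) - 2 * T - Dl ρ β h n (t - s) b) - T := by
      have h1 : κ - 2 * T - κ / 4 ≤
          Rp ρ β h n t (2 * r) - 2 * T - Dl ρ β h n (t - s) b := by linarith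
      have h2 := mul_le_mul_of_nonneg_left h1 hc1κ0.le
      have h3 : c1 * κ * (κ - 2 * T - κ / 4) - T = 3 / 4 * (c1 * κ ^ 2) - (2 * (c1 * κ) + 1) * T := by
        ring
      have h4 : (2 * (c1 * κ) + 1) * T ≤ 3 * (c1 * κ ^ 2 / 12) := by
        have h5 : (2 * (c1 * κ) + 1) * T ≤ (2 * (c1 * κ) + 1) * (c1 * κ ^ 2 / 12) :=
          mul_le_mul_of_nonneg_left hTr (by linarith)
        have h6 : (2 * (c1 * κ) + 1) * (c1 * κ ^ 2 / 12) ≤ 3 * (c1 * κ ^ 2 / 12) :=
          mul_le_mul_of_nonneg_right (by linarith) (by positivity)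
        linarith
      have h7 : c1 * κ * (κ - 2 * T - κ / 4) ≤
        c1 * κ * (Rp ρ β h n t (2 * r) - 2 * T - Dl ρ β h n (t - s) b) := h2
      linarith
    have hUp : 0 < c1 * κ ^ 2 / 2 := by positivity
    have h1 := hI2 (hUp.le.trans hU)
    have h2 : (c1 * κ ^ 2 / 2) ^ 2 ≤
        (c1 * κ * (Rp ρ β h n t (2 * r) - 2 * T - Dl ρ β h n (t - s) b) - T) ^ 2 :=
      pow_le_pow_left₀ hUp.le hU 2
    have h3 : (c1 * κ ^ 2 / 2) ^ 2 ≤
        36 * (K * s) * (En ρ β h n t (t - s - 1) - En ρ β h n t (t - s)) := by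
      refine (h2.trans h1).trans (le_of_eq ?_)
      rw [← hr2]; ring
    have h4 : w / s * (36 * (K * s)) = (c1 * κ ^ 2 / 2) ^ 2 := by
      rw [hw, hK]; field_simp; norm_num
    rw [← h4, mul_comm (w / (s : ℝ))] at h3
    exact le_of_mul_le_mul_left h3 (by positivity)
  have hmono : ∀ τ, 1 ≤ τ → τ < t → En ρ β h n t τ ≤ En ρ β h n t (τ - 1) := by
    intro τ h1 h2
    exact (hI h n τ t h1 h2 htn 0 1 0 le_rfl le_rfl).1
  have hsum := tel99 (fun τ => En ρ β h n t τ) w hs01 hs1t hmono hrow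
  have hharm := mul_le_mul_of_nonneg_left (harm99 hs01 s1) hw0.le
  obtain ⟨m0, hm0⟩ := hm0
  have hE0 := hE h n t m0 R hn htn hR hm0
  -- the numbers
  have hlogs1 : Real.log A + Real.log n ≤ Real.log ((s1 : ℝ) + 1) := by
    rw [← Real.log_mul hA0.ne' hn0.ne']
    exact Real.log_le_log (by positivity) (Nat.lt_floor_add_one _).le
  have hlogs0 : Real.log s0 ≤ Real.log 2 + α' * Real.log n := by
    have h1 : (s0 : ℝ) ≤ 2 * (n : ℝ) ^ α' := by
      have := Nat.ceil_lt_add_one (show 0 ≤ (n : ℝ) ^ α' by linarith)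
      linarith
    have h2 : (0 : ℝ) < s0 := by exact_mod_cast hs01
    calc Real.log s0 ≤ Real.log (2 * (n : ℝ) ^ α') := Real.log_le_log h2 h1
      _ = Real.log 2 + α' * Real.log n := by
        rw [Real.log_mul (by norm_num) (by positivity), Real.log_rpow hn0]
  have hlogA : -Real.log A = Real.log (48 / c1) + Real.log R + 2 * Real.log (1 / κ) +
      Real.log (1 / a) := by
    have h1 : A = ((48 / c1) * R * (1 / κ) ^ 2 * (1 / a))⁻¹ := by
      rw [hA]; field_simp
    rw [h1, Real.log_inv, neg_neg, Real.log_mul (by positivity) (by positivity),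
      Real.log_mul (by positivity) (by positivity), Real.log_mul (by positivity) hR0.ne',
      Real.log_pow]
    push_cast
    ring
  have hlR : 0 ≤ Real.log R := Real.log_nonneg hR
  have hlκ : 0 ≤ Real.log (1 / κ) := Real.log_nonneg (by rw [le_div_iff₀ hκ]; linarith)
  have hla : 0 ≤ Real.log (1 / a) := Real.log_nonneg (by rw [le_div_iff₀ ha]; linarith)
  have hln : 0 ≤ Real.log n := Real.log_nonneg hnR
  have hE0' : En ρ β h n t 0 ≤ Real.log R + Real.log n + CE := by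
    refine hE0.trans (le_of_eq ?_)
    rw [Real.log_mul hR0.ne' hn0.ne']
    norm_num
  have hk1 : w * (Real.log ((s1 : ℝ) + 1) - Real.log s0) ≥
      w * ((1 - α') * Real.log n) - (-Real.log A + Real.log 2) := by
    have h1 : (1 - α') * Real.log n - (-Real.log A + Real.log 2) ≤
        Real.log ((s1 : ℝ) + 1) - Real.log s0 := by linarith
    have h2 := mul_le_mul_of_nonneg_left h1 hw0.le
    have h3 : 0 ≤ -Real.log A + Real.log 2 := by rw [hlogA]; linarith
    have h4 : w * (-Real.log A + Real.log 2) ≤ -Real.log A + Real.log 2 :=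
      mul_le_of_le_one_left h3 hw1
    have h5 : w * ((1 - α') * Real.log n - (-Real.log A + Real.log 2)) =
        w * ((1 - α') * Real.log n) - w * (-Real.log A + Real.log 2) := by ring
    rw [h5] at h2
    linarith
  have hfin : En ρ β h n t (t - 1) ≤ Real.log R + Real.log n + CE -
      (w * ((1 - α') * Real.log n) - (-Real.log A + Real.log 2)) := by
    have := hsum
    linarith
  have hweq : c1 ^ 3 / 1728 * (1 - α') * κ ^ 6 / R * Real.log n =
      w * ((1 - α') * Real.log n) := by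
    rw [hw]; ring
  rw [hweq]
  rw [hlogA] at hfin
  have hCnn : 0 ≤ CE + Real.log (48 / c1) + Real.log 2 := by linarith
  have hbig : CE + Real.log (48 / c1) + Real.log 2 + 2 * Real.log R + 2 * Real.log (1 / κ) +
      Real.log (1 / a) ≤ (CE + Real.log (48 / c1) + Real.log 2 + 2) *
        (1 + Real.log R + Real.log (1 / κ) + Real.log (1 / a)) := by
    have h1 : 0 ≤ (CE + Real.log (48 / c1) + Real.log 2) *
        (Real.log R + Real.log (1 / κ) + Real.log (1 / a)) := by positivity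
    have h2 : (CE + Real.log (48 / c1) + Real.log 2 + 2) *
        (1 + Real.log R + Real.log (1 / κ) + Real.log (1 / a)) =
        (CE + Real.log (48 / c1) + Real.log 2) + 2 +
        (CE + Real.log (48 / c1) + Real.log 2) *
        (Real.log R + Real.log (1 / κ) + Real.log (1 / a)) +
        2 * (Real.log R + Real.log (1 / κ) + Real.log (1 / a)) := by ring
    rw [h2]
    linarith
  linarith

end Pool.Agent.W_7d29a1_S90
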