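import Pool.Agent.W_7d29a1_S90.DefsP45
import Pool.Agent.W_7d29a1_S90.RpT73

/-!
Leaf K1': the distance of two replicas depends continuously on the tilt (helper83).
-/

namespace Pool.Agent.W_7d29a1_S90

open MeasureTheory ProbabilityTheory Filter Topology Pool.Agent.W_MP_7d29a1_pr
  Pool.Agent.W_7d29a1_h46 Pool.Agent.W_7d29a1_h46u Pool.Agent.W_7d29a1_D2.B35
  Pool.Agent.W_7d29a1_Q29

variable {d n : ℕ}

lemma continuous_wgt83 (β : ℝ) (h e : Vec d) (η : Env d) (x : Fin n → Step d) :
    Continuous fun s : ℝ => wgt β (h + s • e) η x := by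
  unfold wgt
  fun_prop

lemma continuous_pe83 (hd : 0 < d) (β : ℝ) (h e : Vec d) (η : Env d)
    {f : ℝ → (Fin n → Step d) → ℝ} (hf : ∀ x, Continuous fun s => f s x) :
    Continuous fun s : ℝ => pe β (h + s • e) η (f s) := by
  unfold pe
  refine Continuous.div ?_ ?_ fun s => (Z_pos hd β _ η n).ne'
  · exact continuous_finset_sum _ fun x _ => (continuous_wgt83 β h e η x).mul (hf x)
  · simp_rw [Z_eq]
    exact continuous_finset_sum _ fun x _ => continuous_wgt83 β h e η x

lemma continuous_pe2_83 (hd : 0 < d) (β : ℝ) (h e : Vec d) (η : Env d)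
    (g : (Fin n → Step d) → (Fin n → Step d) → ℝ) :
    Continuous fun s : ℝ => pe2 β (h + s • e) η g := by
  unfold pe2
  exact continuous_pe83 hd β h e η fun x => continuous_pe83 hd β h e η (f := fun _ x' => g x x')
    fun _ => continuous_const

/-- The averaged mean of a function of two replicas depends continuously on the tilt. -/
lemma continuous_int_pe2_83 {ρ : Measure ℝ} [IsProbabilityMeasure ρ] (hd : 0 < d) (β : ℝ)
    (h e : Vec d) (g : (Fin n → Step d) → (Fin n → Step d) → ℝ) :
    Continuous fun s : ℝ => ∫ η, pe2 β (h + s • e) η g ∂(law d ρ) := by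
  refine continuous_of_dominated (bound := fun _ => ∑ x, ∑ x', |g x x'|)
    (fun s => (integrable_pe2_fun73 hd β (h + s • e) g).aestronglyMeasurable)
    (fun s => Eventually.of_forall fun η => ?_) (integrable_const _)
    (Eventually.of_forall fun η => continuous_pe2_83 hd β h e η g)
  rw [Real.norm_eq_abs]
  unfold pe2
  refine abs_pe_le73 hd β _ η fun x => ?_
  refine abs_pe_le73 hd β _ η fun x' => ?_
  refine (Finset.single_le_sum (f := fun x' => |g x x'|) (fun _ _ => abs_nonneg _)
    (Finset.mem_univ x')).trans ?_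
  exact Finset.single_le_sum (f := fun x => ∑ x', |g x x'|)
    (fun _ _ => Finset.sum_nonneg fun _ _ => abs_nonneg _) (Finset.mem_univ x)

/-- Leaf K1'. -/
theorem kcT83 {ρ : Measure ℝ} [IsProbabilityMeasure ρ] (hd : 0 < d) (β : ℝ) : KcT d ρ β := by
  intro h e n t r _
  unfold Rp
  exact continuous_int_pe2_83 hd β h e _

end Pool.Agent.W_7d29a1_S90
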