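import Pool.Agent.W_7d29a1_S90.DefsS90
import Pool.Agent.W_7d29a1_Q29.SumA98

/-!
Polymer expectations: measurability, bounds and continuity in the tilt.
-/

namespace Pool.Agent.W_7d29a1_S90

open MeasureTheory ProbabilityTheory Filter Topology Pool.Agent.W_MP_7d29a1_pr
  Pool.Agent.W_7d29a1_h46 Pool.Agent.W_7d29a1_h46u Pool.Agent.W_7d29a1_D2.B35
  Pool.Agent.W_7d29a1_Q29

variable {d : ℕ}

lemma wgt_meas42 (β : ℝ) (h : Vec d) {n : ℕ} (s : Fin n → Step d) :
    Measurable fun η : Env d => wgt β h η s := by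
  unfold wgt energy
  refine Real.measurable_exp.comp (Measurable.const_add (Measurable.const_mul ?_ _) _)
  exact Finset.measurable_sum _ fun i _ => measurable_pi_apply _

/-- Polymer expectations are measurable. -/
lemma pe_meas42 (β : ℝ) (h : Vec d) {n : ℕ} (f : (Fin n → Step d) → ℝ) :
    Measurable fun η : Env d => pe β h η f := by
  unfold pe
  exact (Finset.measurable_sum _ fun s _ => (wgt_meas42 β h s).mul_const _).div
    (measurable_Z β h n)

/-- Polymer expectations are bounded by the bound of the function. -/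
lemma pe_abs42 (β : ℝ) (h : Vec d) {n : ℕ} (η : Env d) {f : (Fin n → Step d) → ℝ} {C : ℝ}
    (h0 : 0 ≤ C) (hf : ∀ s, |f s| ≤ C) : |pe β h η f| ≤ C := by
  have hZ : 0 ≤ Z β h η n := by
    rw [Z_eq]
    exact Finset.sum_nonneg fun s _ => (wgt_pos _ _ _ _).le
  unfold pe
  rw [abs_div, abs_of_nonneg hZ]
  refine div_le_of_le_mul₀ hZ h0 ?_
  rw [Z_eq, Finset.mul_sum]
  refine (Finset.abs_sum_le_sum_abs _ _).trans (Finset.sum_le_sum fun s _ => ?_)
  rw [abs_mul, abs_of_pos (wgt_pos _ _ _ _), mul_comm]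
  exact mul_le_mul_of_nonneg_right (hf s) (wgt_pos _ _ _ _).le

/-- A bound for a function on walks. -/
lemma exists_bd42 {n : ℕ} (f : (Fin n → Step d) → ℝ) : ∃ C : ℝ, 0 ≤ C ∧ ∀ s, |f s| ≤ C :=
  ⟨∑ s, |f s|, Finset.sum_nonneg fun _ _ => abs_nonneg _, fun s =>
    Finset.single_le_sum (f := fun s => |f s|) (fun _ _ => abs_nonneg _) (Finset.mem_univ s)⟩

lemma wgt_cont42 (β : ℝ) {n : ℕ} (η : Env d) (s : Fin n → Step d) :
    Continuous fun h : Vec d => wgt β h η s := by
  unfold wgt
  exact Real.continuous_exp.comp ((continuous_id.inner continuous_const).add continuous_const)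

lemma pe_cont42 (hd : 0 < d) (β : ℝ) {n : ℕ} (η : Env d) (f : (Fin n → Step d) → ℝ) :
    Continuous fun h : Vec d => pe β h η f := by
  unfold pe
  refine Continuous.div ?_ ?_ fun h => (Z_pos hd β h η n).ne'
  · exact continuous_finsetSum _ fun s _ => (wgt_cont42 β η s).mul continuous_const
  · simp only [Z_eq]
    exact continuous_finsetSum _ fun s _ => wgt_cont42 β η s

variable {ρ : Measure ℝ} [IsProbabilityMeasure ρ]

lemma pe_int42 (β : ℝ) (h : Vec d) {n : ℕ} (f : (Fin n → Step d) → ℝ) :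
    Integrable (fun η : Env d => pe β h η f) (law d ρ) := by
  obtain ⟨C, hC0, hC⟩ := exists_bd42 f
  exact (integrable_const C).mono' (pe_meas42 β h f).aestronglyMeasurable
    (Filter.Eventually.of_forall fun η => by
      rw [Real.norm_eq_abs]
      exact pe_abs42 β h η hC0 hC)

/-- Leaf LcT: continuity in the tilt of the mean of every function of the walk. -/
theorem lc42 (hd : 0 < d) (β : ℝ) {n : ℕ} (f : (Fin n → Step d) → ℝ) :
    Continuous fun h : Vec d => ∫ η, pe β h η f ∂(law d ρ) := by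
  obtain ⟨C, hC0, hC⟩ := exists_bd42 f
  refine continuous_of_dominated (bound := fun _ => C)
    (fun h => (pe_meas42 β h f).aestronglyMeasurable)
    (fun h => Filter.Eventually.of_forall fun η => ?_) (integrable_const C)
    (Filter.Eventually.of_forall fun η => pe_cont42 hd β η f)
  rw [Real.norm_eq_abs]
  exact pe_abs42 β h η hC0 hC

end Pool.Agent.W_7d29a1_S90
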