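import Pool.Agent.W_7d29a1_S90.DefsP45
import Pool.Agent.W_7d29a1_Q29.Ce39
import Pool.Agent.W_7d29a1_Q29.Pt94

/-!
Assembly of the main statement with second moments, first part: one row, numbers, grids.
-/

namespace Pool.Agent.W_7d29a1_S90

open MeasureTheory ProbabilityTheory Filter Topology Pool.Agent.W_MP_7d29a1_pr
  Pool.Agent.W_7d29a1_h46 Pool.Agent.W_7d29a1_h46u Pool.Agent.W_7d29a1_D2.B35
  Pool.Agent.W_7d29a1_Q29

/-- One good row. -/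
theorem row45 {d : ℕ} {ρ : Measure ℝ} [IsProbabilityMeasure ρ] (hd : 0 < d) (hJe : JeT) (β : ℝ)
    (h h' : Vec d) {n t : ℕ} (htn : t ≤ n) {c C W H : ℝ} (hc : 0 < c) (hc1 : c ≤ 1) (hC : 0 ≤ C)
    (hW : 0 < W) (hWa : W ≤ ∫ η, ∑ y ∈ boxF d n, aw ρ β h h' n t c C y η ∂(law d ρ))
    (hH : En ρ β h n t (t - 1) ≤ H) :
    W * Real.exp (-((c * H + 1) / W)) ≤
      ∫ η, ∑ y ∈ boxF d n, aw ρ β h h' n t c C y η ^ 2 ∂(law d ρ) := by
  have hm : ∀ (g : Vec d) (y : Site d), Measurable (cE ρ (Pa d (t - 1)) (Qt β g n t y)) :=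
    fun g y => measurable_cE (measurable_Qt94 β g n t y) _
  have h0 : ∀ (g : Vec d) (y : Site d) (η : Env d), 0 ≤ cE ρ (Pa d (t - 1)) (Qt β g n t y) η :=
    fun g y η => cE_nonneg (Qt_nonneg94 β g n t y) _ η
  have hbox : boxF d t ⊆ boxF d n := by
    intro x hx
    rw [mem_boxF] at hx ⊢
    intro i
    exact (hx i).trans (by exact_mod_cast htn)
  refine hJe (Env d) (law d ρ) (Site d) (boxF d n)
    (fun y => cE ρ (Pa d (t - 1)) (Qt β h n t y)) (fun y => aw ρ β h h' n t c C y) c W H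
    (fun y _ => hm h y) (fun y _ => ?_) (fun y _ η => h0 h y η) (fun η => ?_) (fun y _ η => ?_)
    hc hc1 hW hWa hH
  · unfold aw
    exact measurable_const.max (((hm h y).const_mul c).sub ((hm h' y).const_mul C))
  · rw [← cE_sum (boxF d n) η fun y _ => integrable_spl (measurable_Qt94 β h n t y) (b := 1)
      (fun ξ => by rw [abs_of_nonneg (Qt_nonneg94 β h n t y ξ)]; exact Qt_le_one94 hd β h htn y ξ)
      _ η]
    have h1 : (fun ξ => ∑ y ∈ boxF d n, Qt β h n t y ξ) = fun _ => 1 := by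
      funext ξ
      exact sumQt_eq94 hd β h htn hbox ξ
    rw [h1]
    simp [cE]
  · unfold aw
    refine ⟨le_max_left _ _, max_le (mul_nonneg hc.le (h0 h y η)) ?_⟩
    have := mul_nonneg hC (h0 h' y η)
    linarith

/-- The exponent. -/
theorem num45 {c γ ε L H E : ℝ} (hc : 0 < c) (hγ : 0 ≤ γ) (hγ1 : γ ≤ 1) (hε : 0 ≤ ε)
    (hε1 : ε ≤ γ / 4) (hL : 0 ≤ L) (hE : 0 ≤ E) (hH : H ≤ (1 - γ) * L + E) :
    (c * H + 1) / (c * (1 - ε)) ≤ (1 - γ / 2) * L + 2 * E + 2 / c := by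
  have h1 : 0 < 1 - ε := by linarith
  have h2 : (c * H + 1) / (c * (1 - ε)) = (H + 1 / c) / (1 - ε) := by
    field_simp
  rw [h2, div_le_iff₀ h1]
  have h3 : 0 < 1 / c := by positivity
  have h4 : 2 / c = 2 * (1 / c) := by ring
  rw [h4]
  have h5 : (1 - γ) * L ≤ (1 - γ / 2) * L * (1 - ε) := by
    have : (1 - γ) ≤ (1 - γ / 2) * (1 - ε) := by nlinarith
    calc (1 - γ) * L ≤ (1 - γ / 2) * (1 - ε) * L := mul_le_mul_of_nonneg_right this hL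
      _ = _ := by ring
  have h6 : E + 1 / c ≤ (2 * E + 2 * (1 / c)) * (1 - ε) := by nlinarith
  nlinarith

/-- A grid of `J` intervals of length about `a / √n`. -/
theorem grid45 {x : ℝ} (hx : 1 ≤ x) : (1 : ℝ) ≤ (⌊x⌋₊ : ℝ) ∧ (⌊x⌋₊ : ℝ) ≤ x ∧
    x ≤ 2 * (⌊x⌋₊ : ℝ) := by
  have h1 : 1 ≤ ⌊x⌋₊ := Nat.one_le_floor_iff x |>.mpr hx
  have h1' : (1 : ℝ) ≤ (⌊x⌋₊ : ℝ) := by exact_mod_cast h1
  have h2 : (⌊x⌋₊ : ℝ) ≤ x := Nat.floor_le (by linarith)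
  have h3 : x < (⌊x⌋₊ : ℝ) + 1 := Nat.lt_floor_add_one x
  exact ⟨h1', h2, by linarith⟩

end Pool.Agent.W_7d29a1_S90
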