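import Pool.Agent.W_7d29a1_S90.MainA45

/-!
Assembly of the main statement with second moments, second part: facts on a segment.
-/

namespace Pool.Agent.W_7d29a1_S90

open MeasureTheory ProbabilityTheory Filter Topology Pool.Agent.W_MP_7d29a1_pr
  Pool.Agent.W_7d29a1_h46 Pool.Agent.W_7d29a1_h46u Pool.Agent.W_7d29a1_D2.B35
  Pool.Agent.W_7d29a1_Q29

/-- Second moments at a tilt whose windows are diffusive. -/
theorem sec45 {d : ℕ} {ρ : Measure ℝ} {β : ℝ} (hCs : CsT d ρ β) (hCk : CsK d ρ β) {h e : Vec d}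
    (he : ‖e‖ = 1) {n t : ℕ} {α R : ℝ} (h1t : 1 ≤ t) (htn : t ≤ n) (ht : (n : ℝ) ^ α ≤ t)
    (hR : 0 ≤ R) (hW : W2 ρ β h n α R) :
    Sm ρ β h e n t (Ft ρ β h e n t) ≤ R * n ∧ Vr ρ β h e n t ≤ R * n := by
  have h1 := hCk h e n t α R he h1t htn ht hR hW
  have h2 : R * (t : ℝ) ≤ R * n := mul_le_mul_of_nonneg_left (by exact_mod_cast htn) hR
  obtain ⟨-, -, h3, -⟩ := hCs h e n t htn
  exact ⟨h1.trans h2, ((h3 0).1.trans h1).trans h2⟩

/-- The covariance at a tilt whose windows are diffusive. -/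
theorem cov45 {d : ℕ} {ρ : Measure ℝ} {β : ℝ} (hCs : CsT d ρ β) (hCk : CsK d ρ β) {h e : Vec d}
    (he : ‖e‖ = 1) {n t : ℕ} {α R : ℝ} (h1t : 1 ≤ t) (htn : t ≤ n) (ht : (n : ℝ) ^ α ≤ t)
    (hR : 0 ≤ R) (hW : W2 ρ β h n α R) : |Cv ρ β h e n t| ≤ R * n := by
  have h1 := (sec45 hCs hCk he h1t htn ht hR hW).2
  have h2 := (sec45 hCs hCk he (h1t.trans htn) le_rfl
    (ht.trans (by exact_mod_cast htn)) hR hW).2
  obtain ⟨h3, h4, -⟩ := hCs h e n t htn
  obtain ⟨h5, -, -⟩ := hCs h e n n le_rfl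
  have h6 : 0 ≤ R * n := by positivity
  refine abs_le_of_sq_le_sq (h4.trans ?_) h6
  calc Vr ρ β h e n t * Vr ρ β h e n n ≤ (R * n) * (R * n) := mul_le_mul h1 h2 h5 h6
    _ = _ := by ring

/-- The increment of the drift. -/
theorem inc45 {d : ℕ} {ρ : Measure ℝ} {β : ℝ} (hCa : CaT d ρ β) (h e : Vec d) {n t : ℕ}
    (htn : t ≤ n) (u w : ℝ) : ∫ s in u..w, Cv ρ β (h + s • e) e n t =
      Ft ρ β (h + w • e) e n t - Ft ρ β (h + u • e) e n t := by
  obtain ⟨h1, h2⟩ := hCa h e n t htn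
  exact intervalIntegral.integral_eq_sub_of_hasDerivAt (fun s _ => h2 s)
    (h1.intervalIntegrable _ _)

/-- The increment of the drift is at most `R n |w - u|`. -/
theorem incle45 {d : ℕ} {ρ : Measure ℝ} {β : ℝ} (hCa : CaT d ρ β) (hCs : CsT d ρ β)
    (hCk : CsK d ρ β) {h e : Vec d} (he : ‖e‖ = 1) {n t : ℕ} {α R l : ℝ} (h1t : 1 ≤ t)
    (htn : t ≤ n) (ht : (n : ℝ) ^ α ≤ t) (hR : 0 ≤ R)
    (hW : ∀ s ∈ Set.Icc (0 : ℝ) l, W2 ρ β (h + s • e) n α R) {u w : ℝ} (hu : u ∈ Set.Icc (0 : ℝ) l)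
    (hw : w ∈ Set.Icc (0 : ℝ) l) :
    |Ft ρ β (h + w • e) e n t - Ft ρ β (h + u • e) e n t| ≤ R * n * |w - u| := by
  rw [← inc45 hCa h e htn u w]
  have := intervalIntegral.norm_integral_le_of_norm_le_const (a := u) (b := w) (C := R * n)
    (f := fun s => Cv ρ β (h + s • e) e n t) (fun s hs => ?_)
  · simpa [Real.norm_eq_abs] using this
  · rw [Real.norm_eq_abs]
    refine cov45 hCs hCk he h1t htn ht hR (hW s ?_)
    have h1 := Set.uIoc_subset_uIcc hs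
    exact (Set.uIcc_subset_Icc hu hw) h1

/-- The choice of the tilts. -/
theorem pick45 {d : ℕ} {ρ : Measure ℝ} {β : ℝ} (hCa : CaT d ρ β) (hCs : CsT d ρ β)
    (hCk : CsK d ρ β) (hKc : KcT d ρ β) (hKs : KsT d ρ β) (hAs : AsK) {h e : Vec d}
    (he : ‖e‖ = 1) {n : ℕ} {α R l c k : ℝ} {J A : ℕ} (hn : 1 ≤ n) (hR : 1 ≤ R) (hl : 0 < l)
    (hc : 0 < c) (hc1 : c ≤ 1) (hk : 0 < k) (hA : 0 < A) (hJ : J * k = l)
    (hW : ∀ s ∈ Set.Icc (0 : ℝ) l, W2 ρ β (h + s • e) n α R)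
    (hk1 : 32 * R ≤ c ^ 2 * (n * (k / A) ^ 2)) (hk2 : c ^ 2 * (n * (k / A) ^ 2) ≤ 128 * R)
    {T : Finset ℕ} (hT : T.Nonempty) (hT1 : ∀ t ∈ T, 1 ≤ t ∧ t ≤ n ∧ (n : ℝ) ^ α ≤ t)
    (hT2 : ∀ t ∈ T, 2 * c * l * n ≤ Ft ρ β (h + l • e) e n t - Ft ρ β h e n t) :
    ∃ s ∈ Set.Icc (0 : ℝ) l, ∃ s' ∈ Set.Icc (0 : ℝ) l, |s - s'| ≤ k ∧ ∃ T' ⊆ T,
      c ^ 3 / (64 * R ^ 3) * T.card ≤ (T'.card : ℝ) ∧
        ∀ t ∈ T', c ^ 4 / (32768 * R ^ 4) ≤
          Rp ρ β (h + s • e) n t (Real.sqrt (c ^ 2 / 256 / R * n)) ∧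
          c * k / 2 * n ≤ |Ft ρ β (h + s • e) e n t - Ft ρ β (h + s' • e) e n t| := by
  have hn' : (0 : ℝ) < n := by exact_mod_cast hn
  have hR0 : 0 < R := by linarith
  have hA' : (0 : ℝ) < A := by exact_mod_cast hA
  have hcR : c / (16 * R) ≤ 1 := by
    rw [div_le_one (by positivity)]; linarith
  have key : ∀ t ∈ T, ∀ u : ℝ, 0 ≤ u → u + k / A ≤ l →
      c / 2 * (k / A) ≤ ∫ s in u..(u + k / A), Cv ρ β (h + s • e) e n t / n →
      ENNReal.ofReal (c / (16 * R) * (k / A)) ≤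
        volume ({s : ℝ | c ^ 4 / (32768 * R ^ 4) ≤
          Rp ρ β (h + s • e) n t (Real.sqrt (c ^ 2 / 256 / R * n))} ∩
            Set.Icc u (u + k / A)) := by
    intro t ht u hu0 hul hi
    obtain ⟨h1, h2, h3⟩ := hT1 t ht
    have hkA : 0 < k / A := by positivity
    rw [intervalIntegral.integral_div, inc45 hCa h e h2, le_div_iff₀ hn'] at hi
    have hu : u ∈ Set.Icc (0 : ℝ) l := ⟨hu0, by linarith⟩
    have hw : u + k / A ∈ Set.Icc (0 : ℝ) l := ⟨by linarith, hul⟩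
    have h4 := incle45 hCa hCs hCk he h1 h2 h3 hR0.le hW hu hw
    have h5 : u + k / A - u = k / A := by ring
    have h6 := hKs h e n t u (u + k / A) R (c / 2) he hn h2 (by linarith) hR (by linarith)
      (by linarith) (fun s hs => by
        have hs' : s ∈ Set.Icc (0 : ℝ) l := ⟨hu0.trans hs.1, hs.2.trans hul⟩
        have h7 := sec45 hCs hCk he h1 h2 h3 hR0.le (hW s hs')
        exact ⟨h7.1, h7.2, (sec45 hCs hCk he hn le_rfl
          (h3.trans (by exact_mod_cast h2)) hR0.le (hW s hs')).2⟩)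
      (by rw [h5]; linarith) (by
        refine (le_abs_self _).trans (h4.trans (le_of_eq ?_))
        rw [h5, abs_of_pos hkA]) (by rw [h5]; nlinarith)
    rw [h5] at h6
    have h8 : c / (16 * R) * (k / A) = c / 2 * (k / A) / (8 * R) := by
      field_simp
      ring
    rw [h8]
    refine h6.trans (measure_mono (Set.inter_subset_inter_left _ fun s hs => ?_))
    simp only [Set.mem_ofPred_eq] at hs ⊢
    have h9 : c ^ 2 / 256 / R * n = (c / 2) ^ 2 / (64 * R) * n := by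
      field_simp
      ring
    rw [h9]
    refine le_trans ?_ hs
    rw [div_le_div_iff₀ (by positivity) (by positivity)]
    have h10 : (0 : ℝ) ≤ c ^ 2 * R ^ 3 := by positivity
    have h11 := mul_le_mul_of_nonneg_left hk2 h10
    nlinarith [h11]
  obtain ⟨s, hs, s', hs', hss, T', hT', hcard, hgood⟩ := hAs l k R c (c / (16 * R)) J A T
    (fun t s => Cv ρ β (h + s • e) e n t / n)
    (fun t => {s : ℝ | c ^ 4 / (32768 * R ^ 4) ≤
      Rp ρ β (h + s • e) n t (Real.sqrt (c ^ 2 / 256 / R * n))})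
    hl hk hR hc hc1 (by positivity) hcR hA hJ hT
    (fun t ht => (hCa h e n t (hT1 t ht).2.1).1.div_const _)
    (fun t ht s hs => by
      obtain ⟨h1, h2, h3⟩ := hT1 t ht
      rw [abs_div, abs_of_pos hn', div_le_iff₀ hn']
      exact cov45 hCs hCk he h1 h2 h3 hR0.le (hW s hs))
    (fun t ht => by
      rw [intervalIntegral.integral_div, inc45 hCa h e (hT1 t ht).2.1, le_div_iff₀ hn']
      simpa using hT2 t ht)
    (fun t ht => (isClosed_le continuous_const (hKc h e n t _ (hT1 t ht).2.1)).measurableSet)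
    key
  refine ⟨s, hs, s', hs', hss, T', hT', ?_, fun t ht => ?_⟩
  · refine le_trans (le_of_eq ?_) hcard
    field_simp
    ring
  · obtain ⟨h1, h2⟩ := hgood t ht
    refine ⟨h1, ?_⟩
    rw [intervalIntegral.integral_div, inc45 hCa h e (hT1 t (hT' ht)).2.1, abs_div,
      abs_of_pos hn', le_div_iff₀ hn'] at h2
    rwa [abs_sub_comm] at h2

end Pool.Agent.W_7d29a1_S90
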