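import Pool.Agent.W_7d29a1_S90.MainB45

/-!
Assembly of the main statement with second moments, third part: the two bounds of the variance.
-/

namespace Pool.Agent.W_7d29a1_S90

open MeasureTheory ProbabilityTheory Filter Topology Pool.Agent.W_MP_7d29a1_pr
  Pool.Agent.W_7d29a1_h46 Pool.Agent.W_7d29a1_h46u Pool.Agent.W_7d29a1_D2.B35
  Pool.Agent.W_7d29a1_Q29

/-- The upper bound of the variance, ordered form. -/
theorem upo45 {d : ℕ} {ρ : Measure ℝ} {β : ℝ} (hCa : CaT d ρ β) (hCs : CsT d ρ β)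
    (hCk : CsK d ρ β) (hVu : VuT d ρ β) {h e : Vec d} (he : ‖e‖ = 1) {n : ℕ} {α R l k a : ℝ}
    (hn : 1 ≤ n) (hαn : (n : ℝ) ^ α ≤ n) (hR : 1 ≤ R)
    (hW : ∀ s ∈ Set.Icc (0 : ℝ) l, W2 ρ β (h + s • e) n α R) {s s' : ℝ}
    (hs : s ∈ Set.Icc (0 : ℝ) l) (hs' : s' ∈ Set.Icc (0 : ℝ) l) (hle : s' ≤ s)
    (hss : |s - s'| ≤ k) (hka : k ^ 2 * n ≤ 4 * a ^ 2) :
    ∫ η, (X β (h + s • e) η n - X β (h + s' • e) η n -
      (A ρ β (h + s • e) n - A ρ β (h + s' • e) n)) ^ 2 ∂(law d ρ) ≤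
        8 * a ^ 2 * R + 16 * R ^ 2 * a ^ 4 := by
  have hn' : (0 : ℝ) < n := by exact_mod_cast hn
  have hR0 : 0 < R := by linarith
  have h1 := (sec45 hCs hCk he hn le_rfl hαn hR0.le (hW s hs)).1
  have h2 := (sec45 hCs hCk he hn le_rfl hαn hR0.le (hW s' hs')).1
  have h3 : h + s' • e + (s - s') • e = h + s • e := by
    rw [add_assoc, ← add_smul]
    congr 2
    ring
  have h4 := hVu (h + s' • e) e n (s - s') (R * n) (by linarith) h2 (by rw [h3]; exact h1)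
  rw [h3] at h4
  refine h4.trans ?_
  have h5 := incle45 hCa hCs hCk he hn le_rfl hαn hR0.le hW hs' hs
  have h6 : |s - s'| = s - s' := abs_of_nonneg (by linarith)
  rw [h6] at h5 hss
  set x := s - s' with hx
  have hx0 : 0 ≤ x := by rw [hx]; linarith
  have h7 : (Ft ρ β (h + s • e) e n n - Ft ρ β (h + s' • e) e n n) ^ 2 ≤ (R * n * x) ^ 2 := by
    rw [← sq_abs]
    exact pow_le_pow_left₀ (abs_nonneg _) h5 2
  have h8 : x ^ 2 * n ≤ 4 * a ^ 2 :=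
    le_trans (mul_le_mul_of_nonneg_right (pow_le_pow_left₀ hx0 hss 2) hn'.le) hka
  have h9 : 0 ≤ x ^ 2 * n := by positivity
  calc x ^ 2 * (2 * (R * n) + (Ft ρ β (h + s • e) e n n - Ft ρ β (h + s' • e) e n n) ^ 2)
      ≤ x ^ 2 * (2 * (R * n) + (R * n * x) ^ 2) := by gcongr
    _ = 2 * R * (x ^ 2 * n) + R ^ 2 * (x ^ 2 * n) ^ 2 := by ring
    _ ≤ 2 * R * (4 * a ^ 2) + R ^ 2 * (4 * a ^ 2) ^ 2 := by gcongr
    _ = _ := by ring

/-- The upper bound of the variance. -/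
theorem up45 {d : ℕ} {ρ : Measure ℝ} {β : ℝ} (hCa : CaT d ρ β) (hCs : CsT d ρ β)
    (hCk : CsK d ρ β) (hVu : VuT d ρ β) {h e : Vec d} (he : ‖e‖ = 1) {n : ℕ} {α R l k a : ℝ}
    (hn : 1 ≤ n) (hαn : (n : ℝ) ^ α ≤ n) (hR : 1 ≤ R)
    (hW : ∀ s ∈ Set.Icc (0 : ℝ) l, W2 ρ β (h + s • e) n α R) {s s' : ℝ}
    (hs : s ∈ Set.Icc (0 : ℝ) l) (hs' : s' ∈ Set.Icc (0 : ℝ) l)
    (hss : |s - s'| ≤ k) (hka : k ^ 2 * n ≤ 4 * a ^ 2) :
    ∫ η, (X β (h + s • e) η n - X β (h + s' • e) η n -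
      (A ρ β (h + s • e) n - A ρ β (h + s' • e) n)) ^ 2 ∂(law d ρ) ≤
        8 * a ^ 2 * R + 16 * R ^ 2 * a ^ 4 := by
  rcases le_total s' s with hle | hle
  · exact upo45 hCa hCs hCk hVu he hn hαn hR hW hs hs' hle hss hka
  · have h1 := upo45 hCa hCs hCk hVu he hn hαn hR hW hs' hs hle (by rwa [abs_sub_comm]) hka
    refine le_trans (le_of_eq (integral_congr_ae (Eventually.of_forall fun η => ?_))) h1
    ring

/-- The lower bound: the contribution of one row. -/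
theorem low45 {d : ℕ} {ρ : Measure ℝ} [IsProbabilityMeasure ρ] {β : ℝ} (hd : 0 < d) (hJe : JeT)
    (hSt : StM d ρ β) {g g' e : Vec d} (he : ‖e‖ = 1) {n t : ℕ} (h1t : 1 ≤ t) (htn : t ≤ n)
    {cL CL c k R γ L E : ℝ} (hcL : 0 < cL) (hcL1 : cL ≤ 1) (hCL : 0 ≤ CL) (hc : 0 < c) (hk : 0 < k)
    (hγ : 0 < γ) (hγ1 : γ ≤ 1) (hL : 0 ≤ L) (hE : 0 ≤ E)
    (hSg : Sm ρ β g e n t (Ft ρ β g e n t) ≤ R * n)
    (hSg' : Sm ρ β g' e n t (Ft ρ β g' e n t) ≤ R * n)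
    (hsep : c * k / 2 * n ≤ |Ft ρ β g e n t - Ft ρ β g' e n t|)
    (hka : 64 * R * (cL + CL) ≤ cL * c ^ 2 * γ * (k ^ 2 * n))
    (hH : En ρ β g n t (t - 1) ≤ (1 - γ) * L + E) :
    cL / 2 * Real.exp (-((1 - γ / 2) * L + 2 * E + 2 / cL)) ≤
      ∫ η, ∑ y ∈ boxF d n, aw ρ β g g' n t cL CL y η ^ 2 ∂(law d ρ) := by
  have hn' : (0 : ℝ) < n := by exact_mod_cast h1t.trans htn
  have hr : 0 < c * k * n / 4 := by positivity
  have h1 := hSt g g' e n t cL CL (c * k * n / 4) (R * n) he h1t htn hcL.le hCL hr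
    (le_trans (le_of_eq (by ring)) hsep) hSg hSg'
  have h2 : (cL + CL) * (R * n / (c * k * n / 4) ^ 2) ≤ cL * (γ / 4) := by
    rw [← mul_div_assoc, div_le_iff₀ (by positivity)]
    nlinarith [mul_le_mul_of_nonneg_right hka hn'.le]
  have h3 : cL * (1 - γ / 4) ≤ ∫ η, ∑ y ∈ boxF d n, aw ρ β g g' n t cL CL y η ∂(law d ρ) := by
    refine le_trans ?_ h1
    nlinarith
  have h4 : 0 < cL * (1 - γ / 4) := mul_pos hcL (by linarith)
  have h5 := row45 hd hJe β g g' htn hcL hcL1 hCL h4 h3 hH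
  refine le_trans ?_ h5
  have h6 := num45 (c := cL) (γ := γ) (ε := γ / 4) (L := L) (H := (1 - γ) * L + E) (E := E) hcL
    hγ.le hγ1 (by linarith) le_rfl hL hE le_rfl
  have h7 : cL / 2 ≤ cL * (1 - γ / 4) := by nlinarith
  exact mul_le_mul h7 (Real.exp_le_exp.mpr (neg_le_neg h6)) (Real.exp_pos _).le h4.le

end Pool.Agent.W_7d29a1_S90
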