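import Pool.Agent.W_7d29a1_S90.MainD45

/-!
Assembly of the main statement with second moments, last part.
-/

namespace Pool.Agent.W_7d29a1_S90

open MeasureTheory ProbabilityTheory Filter Topology Pool.Agent.W_MP_7d29a1_pr
  Pool.Agent.W_7d29a1_h46 Pool.Agent.W_7d29a1_h46u Pool.Agent.W_7d29a1_D2.B35
  Pool.Agent.W_7d29a1_Q29

/-- From the two bounds of the variance to the inequality for `log n`. -/
theorem logs45 {n : ℕ} {R γ g₀ cL CI Kκ Ka a c η M : ℝ} (hn : 1 ≤ n) (hR : 1 ≤ R) 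
    (hγ : γ = g₀ / R ^ 25) (hcL : 0 < cL) (hc : 0 < c) (hη : 0 < η)
    (hKa : 0 < Ka) (ha : a ^ 2 = Ka * R ^ 26)
    (hM : c ^ 3 / (64 * R ^ 3) * (η * n) ≤ M)
    (hV : M * (cL / 2 * Real.exp (-((1 - γ / 2) * Real.log n +
      2 * (CI * (1 + Real.log R + Real.log (Kκ * R ^ 4))) + 2 / cL))) ≤
        8 * a ^ 2 * R + 16 * R ^ 2 * a ^ 4) :
    g₀ / 2 / R ^ 25 * Real.log n ≤
      2 * (CI * (1 + Real.log R + Real.log (Kκ * R ^ 4))) + 2 / cL +
        (|Real.log ((8 * Ka + 16 * Ka ^ 2) * 128 / (c ^ 3 * η * cL))| + 57 * Real.log R) := by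
  have hn' : (0 : ℝ) < n := by exact_mod_cast hn
  have hR0 : 0 < R := by linarith
  set E := 2 * (CI * (1 + Real.log R + Real.log (Kκ * R ^ 4))) + 2 / cL with hE
  set K := (8 * Ka + 16 * Ka ^ 2) * 128 / (c ^ 3 * η * cL) with hK
  have hK0 : 0 < K := by positivity
  have h1 : Real.exp (-((1 - γ / 2) * Real.log n +
      2 * (CI * (1 + Real.log R + Real.log (Kκ * R ^ 4))) + 2 / cL)) =
      Real.exp (γ / 2 * Real.log n - E) / n := by
    have h0 : -((1 - γ / 2) * Real.log n +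
        2 * (CI * (1 + Real.log R + Real.log (Kκ * R ^ 4))) + 2 / cL) =
        (γ / 2 * Real.log n - E) + -Real.log n := by
      rw [hE]
      ring
    rw [h0, Real.exp_add, Real.exp_neg, Real.exp_log hn', ← div_eq_mul_inv]
  rw [h1] at hV
  have h2 : c ^ 3 / (64 * R ^ 3) * (η * n) * (cL / 2 * (Real.exp (γ / 2 * Real.log n - E) / n)) ≤
      8 * a ^ 2 * R + 16 * R ^ 2 * a ^ 4 :=
    (mul_le_mul_of_nonneg_right hM (by positivity)).trans hV
  have h3 : c ^ 3 / (64 * R ^ 3) * (η * n) * (cL / 2 * (Real.exp (γ / 2 * Real.log n - E) / n)) =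
      c ^ 3 * η * cL / (128 * R ^ 3) * Real.exp (γ / 2 * Real.log n - E) := by
    field_simp
    ring
  rw [h3] at h2
  have h4 : 8 * a ^ 2 * R + 16 * R ^ 2 * a ^ 4 = 8 * Ka * R ^ 27 + 16 * Ka ^ 2 * R ^ 54 := by
    have : a ^ 4 = (a ^ 2) ^ 2 := by ring
    rw [this, ha]
    ring
  have h5 : R ^ 27 ≤ R ^ 54 := pow_le_pow_right₀ hR (by norm_num)
  have h6 : Real.exp (γ / 2 * Real.log n - E) ≤ K * R ^ 57 := by
    have h7 : c ^ 3 * η * cL / (128 * R ^ 3) * Real.exp (γ / 2 * Real.log n - E) ≤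
        (8 * Ka + 16 * Ka ^ 2) * R ^ 54 := by
      refine h2.trans ?_
      rw [h4]
      nlinarith [mul_le_mul_of_nonneg_left h5 (by positivity : 0 ≤ 8 * Ka)]
    rw [div_mul_eq_mul_div, div_le_iff₀ (by positivity)] at h7
    have h70 : K * R ^ 57 = (8 * Ka + 16 * Ka ^ 2) * 128 * R ^ 57 / (c ^ 3 * η * cL) := by
      rw [hK]
      ring
    rw [h70, le_div_iff₀ (by positivity)]
    calc Real.exp (γ / 2 * Real.log n - E) * (c ^ 3 * η * cL)
        = c ^ 3 * η * cL * Real.exp (γ / 2 * Real.log n - E) := by ring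
      _ ≤ (8 * Ka + 16 * Ka ^ 2) * R ^ 54 * (128 * R ^ 3) := h7
      _ = _ := by ring
  have h8 := Real.log_le_log (Real.exp_pos _) h6
  rw [Real.log_exp, Real.log_mul hK0.ne' (by positivity), Real.log_pow] at h8
  have h9 : γ / 2 * Real.log n = g₀ / 2 / R ^ 25 * Real.log n := by rw [hγ]; ring
  have h10 : Real.log K ≤ |Real.log K| := le_abs_self _
  push_cast at h8
  linarith

/-- The inequality between `R` and `log n`. -/
theorem core45 {ρ : Measure ℝ} [IsProbabilityMeasure ρ] {β : ℝ} (hCa : CaT 2 ρ β)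
    (hCs : CsT 2 ρ β) (hCk : CsK 2 ρ β) (hKc : KcT 2 ρ β) (hKs : KsT 2 ρ β) (hIn : InK ρ β)
    (hLo : LoV 2 ρ β) (hSt : StM 2 ρ β) (hVu : VuT 2 ρ β) (hJe : JeT) (hAs : AsK)
    {h e : Vec 2} (he : ‖e‖ = 1) {l α D : ℝ} (hl : 0 < l) (hα : α < 1) (hD : 0 < D) (hD1 : D ≤ 1)
    (hDl : D ≤ 4 * l) {N₀ : ℕ}
    (hDr : ∀ n : ℕ, N₀ ≤ n → D * n ≤ Ft ρ β (h + l • e) e n n - Ft ρ β h e n n) :
    ∃ c₁ C₁ B : ℝ, 0 < c₁ ∧ 0 ≤ C₁ ∧ 0 ≤ B ∧ ∀ (n : ℕ) (R : ℝ), N₀ ≤ n → 1 ≤ n → 1 ≤ R →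
      (n : ℝ) ^ α ≤ n / 2 → B * R ^ 26 ≤ n →
      (∀ s ∈ Set.Icc (0 : ℝ) l, W2 ρ β (h + s • e) n α R) →
        c₁ / R ^ 25 * Real.log n ≤ C₁ * (1 + Real.log R) := by
  obtain ⟨cL, CL, hcL, hcL1, hCL, hLo⟩ := hLo
  set c := D / (4 * l) with hc
  have hc0 : 0 < c := by positivity
  have hc1 : c ≤ 1 := by rw [hc, div_le_one (by positivity)]; exact hDl
  obtain ⟨cI, CI, hcI, hCI, hIn⟩ := hIn α (c ^ 2 / 256) hα (by positivity)
  set cJ := min cI 1 with hcJ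
  have hcJ0 : 0 < cJ := lt_min hcI one_pos
  set κ₀ := c ^ 4 / 32768 with hκ₀
  have hκ₀0 : 0 < κ₀ := by positivity
  have hκ₀1 : κ₀ ≤ 1 := by
    rw [hκ₀, div_le_one (by norm_num)]
    have : c ^ 4 ≤ 1 := pow_le_one₀ hc0.le hc1
    linarith
  set g₀ := cJ * κ₀ ^ 6 with hg₀
  have hg₀0 : 0 < g₀ := by positivity
  have hg₀1 : g₀ ≤ 1 := by
    rw [hg₀]
    exact mul_le_one₀ (min_le_right _ _) (by positivity) (pow_le_one₀ hκ₀0.le hκ₀1)
  set Ka := 64 * (cL + CL) / (cL * c ^ 2 * g₀) with hKa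
  have hKa0 : 0 < Ka := by positivity
  set Kκ := 1 / κ₀ with hKκ
  have hKκ1 : 1 ≤ Kκ := by rw [hKκ, one_le_div hκ₀0]; exact hκ₀1
  set η := D / 4 with hη
  set K := (8 * Ka + 16 * Ka ^ 2) * 128 / (c ^ 3 * η * cL) with hK
  refine ⟨g₀ / 2, 2 * CI * (1 + Real.log Kκ) + 2 / cL + |Real.log K| + (10 * CI + 57), Ka / l ^ 2,
    by positivity, ?_, by positivity, ?_⟩
  · have := Real.log_nonneg hKκ1
    positivity
  intro n R hnN hn hR hαn hB hW
  have hn' : (0 : ℝ) < n := by exact_mod_cast hn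
  have hR0 : 0 < R := by linarith
  have hlR : 0 ≤ Real.log R := Real.log_nonneg hR
  have hαn' : (n : ℝ) ^ α ≤ n := by linarith
  set γ := g₀ / R ^ 25 with hγ
  have hR25 : 1 ≤ R ^ 25 := one_le_pow₀ hR
  have hγ0 : 0 < γ := by positivity
  have hγ1 : γ ≤ 1 := by
    rw [hγ, div_le_one (by positivity)]
    linarith
  set a := Real.sqrt Ka * R ^ 13 with ha
  have ha0 : 0 < a := by positivity
  have ha2 : a ^ 2 = Ka * R ^ 26 := by
    rw [ha, mul_pow, Real.sq_sqrt hKa0.le]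
    ring
  set a₁ := Real.sqrt (32 * R) / c with ha₁
  have ha₁0 : 0 < a₁ := by positivity
  have ha₁2 : a₁ ^ 2 = 32 * R / c ^ 2 := by
    rw [ha₁, div_pow, Real.sq_sqrt (by positivity)]
  have haa : a₁ ≤ a := by
    refine le_of_sq_le_sq ?_ ha0.le
    rw [ha2, ha₁2, hKa, div_mul_eq_mul_div, div_le_div_iff₀ (by positivity) (by positivity)]
    have h1 : R ≤ R ^ 26 := le_self_pow₀ hR (by norm_num)
    have h2 : cL * g₀ ≤ cL + CL := by nlinarith
    calc 32 * R * (cL * c ^ 2 * g₀) = 32 * c ^ 2 * (R * (cL * g₀)) := by ring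
      _ ≤ 32 * c ^ 2 * (R ^ 26 * (cL + CL)) := by gcongr
      _ ≤ 64 * (cL + CL) * R ^ 26 * c ^ 2 := by
          have : 0 ≤ c ^ 2 * (R ^ 26 * (cL + CL)) := by positivity
          nlinarith
  have hal : a ^ 2 ≤ l ^ 2 * n := by
    rw [ha2]
    rw [div_mul_eq_mul_div, div_le_iff₀ (by positivity)] at hB
    linarith
  obtain ⟨k, J, A', hk, hA, hJ, hk1, hk2, hk3, hk4⟩ := grids45 hn hl ha₁0 haa hal
  have hη0 : 0 < η := by rw [hη]; positivity
  have hη1 : η ≤ 1 / 4 := by rw [hη]; linarith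
  obtain ⟨T, hT, hTc, -, hT1⟩ := late45 hn hη0 hη1
  have hT2 : ∀ t ∈ T, 1 ≤ t ∧ t ≤ n ∧ (n : ℝ) ^ α ≤ t := by
    intro t ht
    obtain ⟨h1, h2, h3⟩ := hT1 t ht
    refine ⟨h1, h2, hαn.trans (le_trans ?_ h3)⟩
    nlinarith
  have hT3 : ∀ t ∈ T, 2 * c * l * n ≤ Ft ρ β (h + l • e) e n t - Ft ρ β h e n t := by
    intro t ht
    obtain ⟨h1, h2, h3⟩ := hT1 t ht
    have h4 := hDr n hnN
    have h5 := (hCs (h + l • e) e n t h2).2.2.2.1 he
    have h6 := (hCs h e n t h2).2.2.2.1 he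
    rw [abs_le] at h5 h6
    have h7 : 2 * c * l * n = D / 2 * n := by
      rw [hc]
      field_simp
      ring
    rw [h7]
    rw [hη] at h3
    nlinarith [h5.1, h5.2, h6.1, h6.2]
  obtain ⟨s, hs, s', hs', hss, T', hT', hcard, hgood⟩ := pick45 (A := A') hCa hCs hCk hKc hKs hAs he
    hn hR hl hc0 hc1 hk hA hJ hW
    (by
      have h1 := mul_le_mul_of_nonneg_left hk3 (by positivity : 0 ≤ c ^ 2)
      refine le_trans (le_of_eq ?_) h1
      rw [ha₁2]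
      field_simp)
    (by
      have h1 := mul_le_mul_of_nonneg_left hk4 (by positivity : 0 ≤ c ^ 2)
      refine h1.trans (le_of_eq ?_)
      rw [ha₁2]
      field_simp
      ring)
    hT hT2 hT3
  have hup := up45 hCa hCs hCk hVu he hn hαn' hR hW hs hs' hss hk2
  have hLL : 0 ≤ Real.log n := Real.log_nonneg (by exact_mod_cast hn)
  have hlow : ∀ t ∈ T', cL / 2 * Real.exp (-((1 - γ / 2) * Real.log n +
      2 * (CI * (1 + Real.log R + Real.log (Kκ * R ^ 4))) + 2 / cL)) ≤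
      ∫ η, ∑ y ∈ boxF 2 n, aw ρ β (h + s • e) (h + s' • e) n t cL CL y η ^ 2 ∂(law 2 ρ) := by
    intro t ht
    obtain ⟨h1, h2, h3⟩ := hT2 t (hT' ht)
    obtain ⟨h4, h5⟩ := hgood t ht
    have h6 : 0 < κ₀ / R ^ 4 := by positivity
    have h7 : κ₀ / R ^ 4 ≤ 1 := by
      rw [div_le_one (by positivity)]
      exact hκ₀1.trans (one_le_pow₀ hR)
    have h8 : (n : ℕ) ≤ 2 * t := by
      have h9 := (hT1 t (hT' ht)).2.2
      have h10 : (n : ℝ) ≤ 2 * t := by nlinarith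
      exact_mod_cast h10
    have h11 := hIn (h + s • e) n t R (κ₀ / R ^ 4) hn h1 h2 h8 h3 hR h6 h7 (hW s hs) (by
      refine le_trans (le_of_eq ?_) h4
      rw [hκ₀]
      field_simp)
    refine low45 (by norm_num) hJe hSt he h1 h2 (k := k) (R := R) hcL hcL1 hCL hc0 hk hγ0 hγ1 hLL
      ?_ (sec45 hCs hCk he h1 h2 h3 hR0.le (hW s hs)).1
      (sec45 hCs hCk he h1 h2 h3 hR0.le (hW s' hs')).1 h5 ?_ ?_
    · have := Real.log_nonneg (show (1 : ℝ) ≤ Kκ * R ^ 4 from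
        le_trans hKκ1 (le_mul_of_one_le_right (by linarith) (one_le_pow₀ hR)))
      positivity
    · have h12 : cL * c ^ 2 * γ * (Ka * R ^ 26) = 64 * R * (cL + CL) := by
        rw [hγ, hKa]
        field_simp
      rw [← h12, ← ha2]
      exact mul_le_mul_of_nonneg_left hk1 (by positivity)
    · refine h11.trans ?_
      have h13 : 1 / (κ₀ / R ^ 4) = Kκ * R ^ 4 := by
        rw [hKκ]
        field_simp
      rw [h13]
      have h14 : γ ≤ cI * (κ₀ / R ^ 4) ^ 6 / R := by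
        have h15 : γ = cJ * (κ₀ / R ^ 4) ^ 6 / R := by
          rw [hγ, hg₀]
          field_simp
        rw [h15]
        have : cJ ≤ cI := min_le_left _ _
        gcongr
      nlinarith [mul_le_mul_of_nonneg_right h14 hLL]
  have hsum := hLo (h + s • e) (h + s' • e) n T' (fun t ht => by
    obtain ⟨h1, h2, -⟩ := hT2 t (hT' ht)
    exact Finset.mem_Icc.mpr ⟨h1, h2⟩)
  have hV := (Finset.sum_le_sum hlow).trans (hsum.trans hup)
  rw [Finset.sum_const, nsmul_eq_mul] at hV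
  have hM : c ^ 3 / (64 * R ^ 3) * (η * n) ≤ (T'.card : ℝ) :=
    le_trans (mul_le_mul_of_nonneg_left hTc (by positivity)) hcard
  have hfin := logs45 hn hR hγ hcL hc0 hη0 hKa0 ha2 hM hV
  refine hfin.trans ?_
  rw [Real.log_mul (by positivity) (by positivity), Real.log_pow]
  have h16 := Real.log_nonneg hKκ1
  have h17 : 0 ≤ 2 / cL := by positivity
  have h18 := abs_nonneg (Real.log K)
  push_cast
  nlinarith [mul_nonneg hCI hlR, mul_nonneg (mul_nonneg hCI h16) hlR, mul_nonneg h17 hlR,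
    mul_nonneg h18 hlR]

end Pool.Agent.W_7d29a1_S90
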