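import Pool.Agent.W_7d29a1_S90.MainV45

/-!
Theorem ORI: the main statement (second text).
-/

namespace Pool.Agent.W_7d29a1_S90

open MeasureTheory ProbabilityTheory Filter Topology

/-- The numbers for large `n`. -/
theorem evO45 {α B c₁ C₁ : ℝ} (hα : α < 1) (hc : 0 < c₁) :
    ∀ᶠ n : ℕ in atTop, 1 ≤ Real.log n ^ ((1 : ℝ) / 80) ∧ (n : ℝ) ^ α ≤ n / 2 ∧
      B * (Real.log n ^ ((1 : ℝ) / 80)) ^ 71 ≤ n ∧
      C₁ * (1 + Real.log (Real.log n ^ ((1 : ℝ) / 80))) <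
        c₁ / (Real.log n ^ ((1 : ℝ) / 80)) ^ 70 * Real.log n := by
  have hlog : Tendsto (fun n : ℕ => Real.log n) atTop atTop :=
    Real.tendsto_log_atTop.comp tendsto_natCast_atTop_atTop
  have h1 : ∀ᶠ n : ℕ in atTop, 1 ≤ Real.log n := hlog.eventually_ge_atTop 1
  have h2 : ∀ᶠ x : ℝ in atTop, |B| * Real.log x ≤ x := by
    have := (Real.isLittleO_log_id_atTop.def (c := 1 / (|B| + 1)) (by positivity))
    filter_upwards [this, eventually_ge_atTop (1 : ℝ)] with x hx hx1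
    have hx0 : 0 ≤ Real.log x := Real.log_nonneg hx1
    have hB := abs_nonneg B
    rw [Real.norm_eq_abs, abs_of_nonneg hx0, id, Real.norm_eq_abs,
      abs_of_nonneg (show (0 : ℝ) ≤ x by linarith), one_div, ← div_eq_inv_mul,
      le_div_iff₀ (show (0 : ℝ) < |B| + 1 by linarith)] at hx
    nlinarith
  have h2' : ∀ᶠ n : ℕ in atTop, |B| * Real.log n ≤ n := tendsto_natCast_atTop_atTop.eventually h2
  have h3 : ∀ᶠ x : ℝ in atTop, x ^ α ≤ x / 2 := by
    have h4 : Tendsto (fun x : ℝ => x ^ (-(1 - α))) atTop (𝓝 0) :=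
      tendsto_rpow_neg_atTop (by linarith)
    filter_upwards [h4.eventually (ge_mem_nhds (show (0 : ℝ) < 1 / 2 by norm_num)),
      eventually_gt_atTop (0 : ℝ)] with x hx hx0
    have h5 : x ^ α = x * x ^ (-(1 - α)) := by
      have h50 := Real.rpow_add hx0 1 (-(1 - α))
      rw [Real.rpow_one] at h50
      rw [← h50]
      congr 1
      ring
    rw [h5]
    nlinarith
  have h3' : ∀ᶠ n : ℕ in atTop, (n : ℝ) ^ α ≤ n / 2 := tendsto_natCast_atTop_atTop.eventually h3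
  have h6 : ∀ᶠ x : ℝ in atTop, C₁ * (1 + Real.log (x ^ ((1 : ℝ) / 80))) <
      c₁ / (x ^ ((1 : ℝ) / 80)) ^ 70 * x := by
    have h7 := (isLittleO_log_rpow_atTop (show (0 : ℝ) < 1 / 8 by norm_num)).def
      (c := c₁ / (2 * (|C₁| + 1))) (by positivity)
    have h8 : Tendsto (fun x : ℝ => x ^ ((1 : ℝ) / 8)) atTop atTop :=
      tendsto_rpow_atTop (by norm_num)
    filter_upwards [h7, h8.eventually_ge_atTop (2 * (|C₁| + 1) / c₁ + 1),
      eventually_ge_atTop (1 : ℝ)] with x hx hx2 hx1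
    have hx0 : 0 < x := by linarith
    have hl0 : 0 ≤ Real.log x := Real.log_nonneg hx1
    have hp : 0 < x ^ ((1 : ℝ) / 8) := by positivity
    rw [Real.norm_eq_abs, abs_of_nonneg hl0, Real.norm_eq_abs, abs_of_pos hp] at hx
    have h9 : c₁ / (x ^ ((1 : ℝ) / 80)) ^ 70 * x = c₁ * x ^ ((1 : ℝ) / 8) := by
      rw [← Real.rpow_natCast (x ^ ((1 : ℝ) / 80)) 70, ← Real.rpow_mul hx0.le, div_mul_eq_mul_div,
        mul_div_assoc]
      congr 1
      nth_rewrite 1 [← Real.rpow_one x]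
      rw [← Real.rpow_sub hx0]
      norm_num
    rw [h9, Real.log_rpow hx0]
    have h10 : C₁ ≤ |C₁| := le_abs_self _
    have h11 : 0 ≤ |C₁| := abs_nonneg _
    have h12 : (|C₁| + 1) * Real.log x ≤ c₁ / 2 * x ^ ((1 : ℝ) / 8) := by
      have h13 := mul_le_mul_of_nonneg_left hx (by positivity : 0 ≤ |C₁| + 1)
      refine h13.trans (le_of_eq ?_)
      field_simp
    have h14 : 2 * (|C₁| + 1) < c₁ * x ^ ((1 : ℝ) / 8) := by
      have h15 : 2 * (|C₁| + 1) / c₁ < x ^ ((1 : ℝ) / 8) := by linarith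
      rw [div_lt_iff₀ hc] at h15
      linarith
    have h16 : C₁ * (1 + 1 / 80 * Real.log x) ≤ |C₁| * (1 + 1 / 80 * Real.log x) :=
      mul_le_mul_of_nonneg_right h10 (by positivity)
    have h17 : |C₁| * (1 / 80 * Real.log x) ≤ (|C₁| + 1) * Real.log x := by nlinarith
    linarith
  have h6' := hlog.eventually h6
  filter_upwards [h1, h2', h3', h6'] with n a1 a2 a3 a4
  refine ⟨Real.one_le_rpow a1 (by norm_num), a3, ?_, a4⟩
  have h18 : (Real.log n ^ ((1 : ℝ) / 80)) ^ 71 ≤ Real.log n := by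
    rw [← Real.rpow_natCast, ← Real.rpow_mul (by linarith)]
    calc Real.log n ^ ((1 : ℝ) / 80 * (71 : ℕ)) ≤ Real.log n ^ (1 : ℝ) :=
          Real.rpow_le_rpow_of_exponent_le a1 (by norm_num)
      _ = _ := Real.rpow_one _
  have h19 : 0 ≤ (Real.log n ^ ((1 : ℝ) / 80)) ^ 71 := by positivity
  calc B * (Real.log n ^ ((1 : ℝ) / 80)) ^ 71 ≤ |B| * (Real.log n ^ ((1 : ℝ) / 80)) ^ 71 :=
        mul_le_mul_of_nonneg_right (le_abs_self _) h19
    _ ≤ |B| * Real.log n := mul_le_mul_of_nonneg_left h18 (abs_nonneg _)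
    _ ≤ n := a2


open Pool.Agent.W_MP_7d29a1_pr Pool.Agent.W_7d29a1_h46 Pool.Agent.W_7d29a1_h46u
  Pool.Agent.W_7d29a1_D2.B35 Pool.Agent.W_7d29a1_Q29

/-- The main statement: not all initial windows of all tilts of a segment are diffusive. -/
theorem mainO45 {ρ : Measure ℝ} [IsProbabilityMeasure ρ] {β : ℝ} (hCa : CaT 2 ρ β)
    (hCs : CsT 2 ρ β) (hCo : CsO 2 ρ β) (hKc : KcT 2 ρ β) (hKs : KsT 2 ρ β) (hIn : InO ρ β)
    (hLo : LoV 2 ρ β) (hRl : RlV 2 ρ β) (hWi : WiT 2 ρ β) (hSt : StM 2 ρ β) (hVu : VuT 2 ρ β)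
    (hDr : DrT 2 ρ β) (hJe : JeT) (hAs : AsO) (hSe : SeT) : MainO ρ β := by
  intro h e l α he hl hα hlam
  obtain ⟨D₀, hD₀⟩ : ∃ D₀ : ℝ, D₀ = 2 / l * (lam ρ β h + lam ρ β (h + l • e) -
    2 * lam ρ β (h + (l / 2) • e)) := ⟨_, rfl⟩
  have hD₀0 : 0 < D₀ := by
    rw [hD₀]
    exact mul_pos (by positivity) (by linarith)
  set D := min (D₀ / 2) (min 1 (4 * l)) with hD
  have hD0 : 0 < D := lt_min (by linarith) (lt_min one_pos (by linarith))
  have hD1 : D ≤ 1 := (min_le_right _ _).trans (min_le_left _ _)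
  have hDl : D ≤ 4 * l := (min_le_right _ _).trans (min_le_right _ _)
  have hDD : D < D₀ := (min_le_left _ _).trans_lt (by linarith)
  obtain ⟨N₀, hN₀⟩ := hDr h e l D hl (by rw [← hD₀]; exact hDD)
  have hα' : max α 0 < 1 := max_lt hα one_pos
  obtain ⟨c₁, C₁, B, hc₁, -, -, hcore⟩ := O45.coreO45 hCa hCs hCo hKc hKs hIn hLo hRl hWi hSt hVu
    hJe hAs hSe he hl (le_max_right α 0) hα' hD0 hD1 hDl hN₀
  obtain ⟨N₁, hN₁⟩ := eventually_atTop.mp (evO45 (B := B) (C₁ := C₁) hα' hc₁)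
  refine ⟨max (max N₀ N₁) 1, fun n hn => ?_⟩
  have hn0 : N₀ ≤ n := (le_max_left _ _).trans ((le_max_left _ _).trans hn)
  have hn1 : N₁ ≤ n := (le_max_right _ _).trans ((le_max_left _ _).trans hn)
  have hn2 : 1 ≤ n := (le_max_right _ _).trans hn
  obtain ⟨h1, h2, h3, h4⟩ := hN₁ n hn1
  by_contra hcon
  push Not at hcon
  have h5 := hcore n _ hn0 hn2 h1 h2 h3 (fun s hs m t a1 a2 a3 a4 => hcon s hs m t a1 a2 a3
    (le_trans (Real.rpow_le_rpow_of_exponent_le (by exact_mod_cast hn2) (le_max_left _ _)) a4))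
  linarith

end Pool.Agent.W_7d29a1_S90
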