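import Pool.Agent.W_7d29a1_S90.DefsO28
import Pool.Agent.W_7d29a1_S90.MainD45
import Pool.Agent.W_7d29a1_S90.AsK85

/-!
Theorem ORI, assembly (second text), first part: the choice of the tilts.
-/

namespace Pool.Agent.W_7d29a1_S90

open MeasureTheory ProbabilityTheory Filter Topology Pool.Agent.W_MP_7d29a1_pr
  Pool.Agent.W_7d29a1_h46 Pool.Agent.W_7d29a1_h46u Pool.Agent.W_7d29a1_D2.B35
  Pool.Agent.W_7d29a1_Q29

namespace O45

/-- Second moments in the direction `e` at all tilts of a segment. -/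
def SmH {d : ℕ} (ρ : Measure ℝ) (β : ℝ) (h e : Vec d) (n : ℕ) (l α R : ℝ) : Prop :=
  ∀ s ∈ Set.Icc (0 : ℝ) l, ∀ t : ℕ, 1 ≤ t → t ≤ n → (n : ℝ) ^ α ≤ t →
    Sm ρ β (h + s • e) e n t (Ft ρ β (h + s • e) e n t) ≤ R * n

variable {d : ℕ} {ρ : Measure ℝ} {β : ℝ}

theorem vr45 (hCs : CsT d ρ β) {h e : Vec d} {n t : ℕ} {α R l : ℝ} (h1t : 1 ≤ t) (htn : t ≤ n)
    (ht : (n : ℝ) ^ α ≤ t) (hS : SmH ρ β h e n l α R) {s : ℝ} (hs : s ∈ Set.Icc (0 : ℝ) l) :
    Vr ρ β (h + s • e) e n t ≤ R * n :=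
  ((hCs (h + s • e) e n t htn).2.2.1 0).1.trans (hS s hs t h1t htn ht)

theorem cov45 (hCs : CsT d ρ β) {h e : Vec d} {n t : ℕ} {α R l : ℝ} (h1t : 1 ≤ t) (htn : t ≤ n)
    (ht : (n : ℝ) ^ α ≤ t) (hR : 0 ≤ R) (hS : SmH ρ β h e n l α R) {s : ℝ}
    (hs : s ∈ Set.Icc (0 : ℝ) l) : |Cv ρ β (h + s • e) e n t| ≤ R * n := by
  have h1 := vr45 hCs h1t htn ht hS hs
  have h2 := vr45 hCs (h1t.trans htn) le_rfl (ht.trans (by exact_mod_cast htn)) hS hs
  obtain ⟨h3, h4, -⟩ := hCs (h + s • e) e n t htn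
  obtain ⟨h5, -, -⟩ := hCs (h + s • e) e n n le_rfl
  have h6 : 0 ≤ R * n := by positivity
  refine abs_le_of_sq_le_sq (h4.trans ?_) h6
  calc Vr ρ β (h + s • e) e n t * Vr ρ β (h + s • e) e n n ≤ (R * n) * (R * n) :=
        mul_le_mul h1 h2 h5 h6
    _ = _ := by ring

theorem incle45 (hCa : CaT d ρ β) (hCs : CsT d ρ β) {h e : Vec d} {n t : ℕ} {α R l : ℝ}
    (h1t : 1 ≤ t) (htn : t ≤ n) (ht : (n : ℝ) ^ α ≤ t) (hR : 0 ≤ R)
    (hS : SmH ρ β h e n l α R) {u w : ℝ} (hu : u ∈ Set.Icc (0 : ℝ) l)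
    (hw : w ∈ Set.Icc (0 : ℝ) l) :
    |Ft ρ β (h + w • e) e n t - Ft ρ β (h + u • e) e n t| ≤ R * n * |w - u| := by
  rw [← inc45 hCa h e htn u w]
  have := intervalIntegral.norm_integral_le_of_norm_le_const (a := u) (b := w) (C := R * n)
    (f := fun s => Cv ρ β (h + s • e) e n t) (fun s hs => ?_)
  · simpa [Real.norm_eq_abs] using this
  · rw [Real.norm_eq_abs]
    refine cov45 hCs h1t htn ht hR hS ?_
    have h1 := Set.uIoc_subset_uIcc hs
    exact (Set.uIcc_subset_Icc hu hw) h1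

/-- The upper bound of the variance, ordered form. -/
theorem upo45 (hCa : CaT d ρ β) (hCs : CsT d ρ β) (hVu : VuT d ρ β) {h e : Vec d}
    {n : ℕ} {α R l k a : ℝ} (hn : 1 ≤ n) (hαn : (n : ℝ) ^ α ≤ n) (hR : 1 ≤ R)
    (hS : SmH ρ β h e n l α R) {s s' : ℝ}
    (hs : s ∈ Set.Icc (0 : ℝ) l) (hs' : s' ∈ Set.Icc (0 : ℝ) l) (hle : s' ≤ s)
    (hss : |s - s'| ≤ k) (hka : k ^ 2 * n ≤ 4 * a ^ 2) :
    ∫ η, (X β (h + s • e) η n - X β (h + s' • e) η n -
      (A ρ β (h + s • e) n - A ρ β (h + s' • e) n)) ^ 2 ∂(law d ρ) ≤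
        8 * a ^ 2 * R + 16 * R ^ 2 * a ^ 4 := by
  have hn' : (0 : ℝ) < n := by exact_mod_cast hn
  have hR0 : 0 < R := by linarith
  have h1 := hS s hs n hn le_rfl hαn
  have h2 := hS s' hs' n hn le_rfl hαn
  have h3 : h + s' • e + (s - s') • e = h + s • e := by
    rw [add_assoc, ← add_smul]
    congr 2
    ring
  have h4 := hVu (h + s' • e) e n (s - s') (R * n) (by linarith) h2 (by rw [h3]; exact h1)
  rw [h3] at h4
  refine h4.trans ?_
  have h5 := incle45 hCa hCs hn le_rfl hαn hR0.le hS hs' hs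
  have h6 : |s - s'| = s - s' := abs_of_nonneg (by linarith)
  rw [h6] at h5 hss
  set x := s - s' with hx
  have hx0 : 0 ≤ x := by rw [hx]; linarith
  have h7 : (Ft ρ β (h + s • e) e n n - Ft ρ β (h + s' • e) e n n) ^ 2 ≤ (R * n * x) ^ 2 := by
    rw [← sq_abs]
    exact pow_le_pow_left₀ (abs_nonneg _) h5 2
  have h8 : x ^ 2 * n ≤ 4 * a ^ 2 :=
    le_trans (mul_le_mul_of_nonneg_right (pow_le_pow_left₀ hx0 hss 2) hn'.le) hka
  have h9 : 0 ≤ x ^ 2 * n := by positivity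
  calc x ^ 2 * (2 * (R * n) + (Ft ρ β (h + s • e) e n n - Ft ρ β (h + s' • e) e n n) ^ 2)
      ≤ x ^ 2 * (2 * (R * n) + (R * n * x) ^ 2) := by gcongr
    _ = 2 * R * (x ^ 2 * n) + R ^ 2 * (x ^ 2 * n) ^ 2 := by ring
    _ ≤ 2 * R * (4 * a ^ 2) + R ^ 2 * (4 * a ^ 2) ^ 2 := by gcongr
    _ = _ := by ring

/-- The upper bound of the variance. -/
theorem up45 (hCa : CaT d ρ β) (hCs : CsT d ρ β) (hVu : VuT d ρ β) {h e : Vec d}
    {n : ℕ} {α R l k a : ℝ} (hn : 1 ≤ n) (hαn : (n : ℝ) ^ α ≤ n) (hR : 1 ≤ R)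
    (hS : SmH ρ β h e n l α R) {s s' : ℝ}
    (hs : s ∈ Set.Icc (0 : ℝ) l) (hs' : s' ∈ Set.Icc (0 : ℝ) l)
    (hss : |s - s'| ≤ k) (hka : k ^ 2 * n ≤ 4 * a ^ 2) :
    ∫ η, (X β (h + s • e) η n - X β (h + s' • e) η n -
      (A ρ β (h + s • e) n - A ρ β (h + s' • e) n)) ^ 2 ∂(law d ρ) ≤
        8 * a ^ 2 * R + 16 * R ^ 2 * a ^ 4 := by
  rcases le_total s' s with hle | hle
  · exact upo45 hCa hCs hVu hn hαn hR hS hs hs' hle hss hka
  · have h1 := upo45 hCa hCs hVu hn hαn hR hS hs' hs hle (by rwa [abs_sub_comm]) hka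
    refine le_trans (le_of_eq (integral_congr_ae (Eventually.of_forall fun η => ?_))) h1
    ring

/-- The measure of a part of an interval as an integral. -/
theorem vol45 {P : Set ℝ} (hP : MeasurableSet P) {u v : ℝ} (huv : u ≤ v) :
    ∫ s in u..v, P.indicator (1 : ℝ → ℝ) s = (volume (P ∩ Set.Icc u v)).toReal := by
  rw [intervalIntegral.integral_of_le huv, ← integral_Icc_eq_integral_Ioc,
    integral_indicator_one hP, Measure.real, Measure.restrict_apply hP]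

theorem volne45 {P : Set ℝ} {u v : ℝ} : volume (P ∩ Set.Icc u v) ≠ ⊤ :=
  ((measure_mono Set.inter_subset_right).trans_lt measure_Icc_lt_top).ne

/-- From cells to intervals. -/
theorem cells45 {g : ℝ → ℝ} {P : Set ℝ} {a k R c δ : ℝ} {A : ℕ} (hk : 0 < k) (hR : 1 ≤ R)
    (hc : 0 < c) (hδ : 0 < δ) (hA : 0 < A) (hg : Continuous g)
    (hb : ∀ s ∈ Set.Icc a (a + k), g s ≤ R) (hPm : MeasurableSet P)
    (hi : c * k ≤ ∫ s in a..(a + k), g s)
    (hP : ∀ u : ℝ, a ≤ u → u + k / A ≤ a + k → c / 2 * (k / A) ≤ ∫ s in u..(u + k / A), g s →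
      ENNReal.ofReal (δ * (k / A)) ≤ volume (P ∩ Set.Icc u (u + k / A))) :
    ENNReal.ofReal (c * δ * k / (2 * R)) ≤ volume (P ∩ Set.Icc a (a + k)) := by
  have hA' : (0 : ℝ) < A := by exact_mod_cast hA
  have hF : ∀ u v : ℝ, IntervalIntegrable (P.indicator (1 : ℝ → ℝ)) volume u v := by
    intro u v
    have h1 : IntervalIntegrable (fun _ : ℝ => (1 : ℝ)) volume u v := by simp
    exact ⟨h1.1.indicator hPm, h1.2.indicator hPm⟩
  have h2 := P85k.one (g := g) (F := P.indicator (1 : ℝ → ℝ)) hk hR hc hδ hA hg hb hF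
    (fun s => Set.indicator_nonneg (fun _ _ => zero_le_one) s) hi (fun u hu hv hw => by
      rw [vol45 hPm (by have : 0 < k / A := by positivity
                        linarith)]
      exact (ENNReal.ofReal_le_iff_le_toReal volne45).mp (hP u hu hv hw))
  rw [vol45 hPm (by linarith)] at h2
  exact (ENNReal.ofReal_le_iff_le_toReal volne45).mpr h2

/-- The choice of the tilts. -/
theorem pickO45 (hCa : CaT d ρ β) (hCs : CsT d ρ β) (hKc : KcT d ρ β) (hKs : KsT d ρ β)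
    (hAs : AsO) {h e : Vec d} (he : ‖e‖ = 1) {n : ℕ} {α R l c k : ℝ} {J A B : ℕ} (hn : 1 ≤ n)
    (hR : 1 ≤ R) (hl : 0 < l) (hc : 0 < c) (hc1 : c ≤ 1) (hk : 0 < k) (hA : 0 < A) (hB : 0 < B)
    (hJ : J * k = l) (hS : SmH ρ β h e n l α R)
    (hk1 : 128 * R ≤ c ^ 2 * (n * (k / A / B) ^ 2)) (hk2 : c ^ 2 * (n * (k / A / B) ^ 2) ≤ 512 * R)
    {T : Finset ℕ} (hT : T.Nonempty) (hT1 : ∀ t ∈ T, 1 ≤ t ∧ t ≤ n ∧ (n : ℝ) ^ α ≤ t)
    (hT2 : ∀ t ∈ T, 2 * c * l * n ≤ Ft ρ β (h + l • e) e n t - Ft ρ β h e n t) :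
    ∃ s ∈ Set.Icc (0 : ℝ) l, ∃ s' ∈ Set.Icc (0 : ℝ) l, ∃ s'' ∈ Set.Icc (0 : ℝ) l, |s - s'| ≤ k ∧
      |s - s''| ≤ k / A ∧ ∃ T' ⊆ T, c ^ 4 / (1024 * R ^ 4) * T.card ≤ (T'.card : ℝ) ∧
        ∀ t ∈ T', c ^ 4 / (524288 * R ^ 4) ≤
          Rp ρ β (h + s • e) n t (Real.sqrt (c ^ 2 / 1024 / R * n)) ∧
          c * k / 2 * n ≤ |Ft ρ β (h + s • e) e n t - Ft ρ β (h + s' • e) e n t| ∧
          c * (k / A) / 4 * n ≤ |Ft ρ β (h + s • e) e n t - Ft ρ β (h + s'' • e) e n t| := by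
  have hn' : (0 : ℝ) < n := by exact_mod_cast hn
  have hR0 : 0 < R := by linarith
  have hA' : (0 : ℝ) < A := by exact_mod_cast hA
  have hB' : (0 : ℝ) < B := by exact_mod_cast hB
  have hkA : 0 < k / A := by positivity
  have hδ1 : c ^ 2 / (128 * R ^ 2) ≤ 1 := by
    rw [div_le_one (by positivity)]
    have h1 : c ^ 2 ≤ 1 := pow_le_one₀ hc.le hc1
    have h2 : 1 ≤ R ^ 2 := one_le_pow₀ hR
    linarith
  have key : ∀ t ∈ T, ∀ u : ℝ, 0 ≤ u → u + k / A ≤ l →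
      c / 2 * (k / A) ≤ ∫ s in u..(u + k / A), Cv ρ β (h + s • e) e n t / n →
      ENNReal.ofReal (c ^ 2 / (128 * R ^ 2) * (k / A)) ≤
        volume ({s : ℝ | c ^ 4 / (524288 * R ^ 4) ≤
          Rp ρ β (h + s • e) n t (Real.sqrt (c ^ 2 / 1024 / R * n))} ∩
            Set.Icc u (u + k / A)) := by
    intro t ht u hu0 hul hi
    obtain ⟨h1, h2, h3⟩ := hT1 t ht
    have h8 : c ^ 2 / (128 * R ^ 2) * (k / A) = c / 2 * (c / (32 * R)) * (k / A) / (2 * R) := by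
      field_simp
      ring
    rw [h8]
    refine cells45 (A := B) hkA hR (by linarith) (by positivity) hB
      ((hCa h e n t h2).1.div_const (n : ℝ)) (fun s hs => ?_)
      (isClosed_le continuous_const (hKc h e n t _ h2)).measurableSet hi
      (fun v hv hvl hvi => ?_)
    · rw [div_le_iff₀ hn']
      exact (le_abs_self _).trans (cov45 hCs h1 h2 h3 hR0.le hS
        ⟨hu0.trans hs.1, hs.2.trans hul⟩)
    · have hv0 : 0 ≤ v := hu0.trans hv
      have hvl' : v + k / A / B ≤ l := hvl.trans hul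
      have hkB : 0 < k / A / B := by positivity
      rw [intervalIntegral.integral_div, inc45 hCa h e h2, le_div_iff₀ hn'] at hvi
      have h4 := incle45 hCa hCs h1 h2 h3 hR0.le hS (u := v) (w := v + k / A / B)
        ⟨hv0, by linarith⟩ ⟨by linarith, hvl'⟩
      have h5 : v + k / A / B - v = k / A / B := by ring
      have h6 := hKs h e n t v (v + k / A / B) R (c / 4) he hn h2 (by linarith) hR (by linarith)
        (by linarith) (fun s hs => by
          have hs' : s ∈ Set.Icc (0 : ℝ) l := ⟨hv0.trans hs.1, hs.2.trans hvl'⟩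
          exact ⟨hS s hs' t h1 h2 h3, vr45 hCs h1 h2 h3 hS hs',
            vr45 hCs hn le_rfl (h3.trans (by exact_mod_cast h2)) hS hs'⟩)
        (by rw [h5]; linarith) (by
          refine (le_abs_self _).trans (h4.trans (le_of_eq ?_))
          rw [h5, abs_of_pos hkB]) (by rw [h5]; nlinarith)
      rw [h5] at h6
      have h9 : c / (32 * R) * (k / A / B) = c / 4 * (k / A / B) / (8 * R) := by
        field_simp
        ring
      rw [h9]
      refine h6.trans (measure_mono (Set.inter_subset_inter_left _ fun s hs => ?_))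
      simp only [Set.mem_ofPred_eq] at hs ⊢
      have h10 : c ^ 2 / 1024 / R * n = (c / 4) ^ 2 / (64 * R) * n := by
        field_simp
        ring
      rw [h10]
      refine le_trans ?_ hs
      rw [div_le_div_iff₀ (by positivity) (by positivity)]
      have h11 : (0 : ℝ) ≤ c ^ 2 * R ^ 3 := by positivity
      have h12 := mul_le_mul_of_nonneg_left hk2 h11
      nlinarith [h12]
  obtain ⟨s, hs, s', hs', s'', hs'', hss, hss', T', hT', hcard, hgood⟩ := hAs l k R c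
    (c ^ 2 / (128 * R ^ 2)) J A T
    (fun t s => Cv ρ β (h + s • e) e n t / n)
    (fun t => {s : ℝ | c ^ 4 / (524288 * R ^ 4) ≤
      Rp ρ β (h + s • e) n t (Real.sqrt (c ^ 2 / 1024 / R * n))})
    hl hk hR hc hc1 (by positivity) hδ1 hA hJ hT
    (fun t ht => (hCa h e n t (hT1 t ht).2.1).1.div_const _)
    (fun t ht s hs => by
      obtain ⟨h1, h2, h3⟩ := hT1 t ht
      rw [abs_div, abs_of_pos hn', div_le_iff₀ hn']
      exact cov45 hCs h1 h2 h3 hR0.le hS hs)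
    (fun t ht => by
      rw [intervalIntegral.integral_div, inc45 hCa h e (hT1 t ht).2.1, le_div_iff₀ hn']
      simpa using hT2 t ht)
    (fun t ht => (isClosed_le continuous_const (hKc h e n t _ (hT1 t ht).2.1)).measurableSet)
    key
  refine ⟨s, hs, s', hs', s'', hs'', hss, hss', T', hT', ?_, fun t ht => ?_⟩
  · refine le_trans (le_of_eq ?_) hcard
    field_simp
    ring
  · obtain ⟨h1, h2, h3⟩ := hgood t ht
    refine ⟨h1, ?_, ?_⟩
    · rw [intervalIntegral.integral_div, inc45 hCa h e (hT1 t (hT' ht)).2.1, abs_div,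
        abs_of_pos hn', le_div_iff₀ hn'] at h2
      rwa [abs_sub_comm] at h2
    · rw [intervalIntegral.integral_div, inc45 hCa h e (hT1 t (hT' ht)).2.1, abs_div,
        abs_of_pos hn', le_div_iff₀ hn'] at h3
      rwa [abs_sub_comm] at h3

end O45

end Pool.Agent.W_7d29a1_S90
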