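import Pool.Agent.W_7d29a1_S90.MainP45

/-!
Theorem ORI, assembly (second text), second part: good times, the transfer, the information.
-/

namespace Pool.Agent.W_7d29a1_S90

open MeasureTheory ProbabilityTheory Filter Topology Pool.Agent.W_MP_7d29a1_pr
  Pool.Agent.W_7d29a1_h46 Pool.Agent.W_7d29a1_h46u Pool.Agent.W_7d29a1_D2.B35
  Pool.Agent.W_7d29a1_Q29

namespace O45

/-- Markov's inequality for a sum over a finite set of times. -/
theorem mark45 {T : Finset ℕ} (hT : T.Nonempty) {f : ℕ → ℝ} {V : ℝ} (hV : 0 < V)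
    (hf : ∀ t ∈ T, 0 ≤ f t) (hs : ∑ t ∈ T, f t ≤ V) :
    ((T.filter fun t => 4 * V / T.card < f t).card : ℝ) ≤ T.card / 4 := by
  have hM : (0 : ℝ) < T.card := by exact_mod_cast hT.card_pos
  have h1 : ((T.filter fun t => 4 * V / T.card < f t).card : ℝ) * (4 * V / T.card) ≤ V := by
    rw [← nsmul_eq_mul, ← Finset.sum_const]
    calc ∑ _t ∈ T.filter (fun t => 4 * V / T.card < f t), 4 * V / (T.card : ℝ)
        ≤ ∑ t ∈ T.filter (fun t => 4 * V / T.card < f t), f t :=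
          Finset.sum_le_sum fun t ht => (Finset.mem_filter.mp ht).2.le
      _ ≤ ∑ t ∈ T, f t := Finset.sum_le_sum_of_subset_of_nonneg (Finset.filter_subset _ _)
          fun t ht _ => hf t ht
      _ ≤ V := hs
  rw [← mul_div_assoc, div_le_iff₀ hM] at h1
  have h2 : ((T.filter fun t => 4 * V / T.card < f t).card : ℝ) * 4 * V ≤ T.card * V := by
    linarith
  have h3 := le_of_mul_le_mul_right h2 hV
  linarith

/-- The times which are good for two sums. -/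
theorem half45 {T : Finset ℕ} (hT : T.Nonempty) {f g : ℕ → ℝ} {V W : ℝ} (hV : 0 < V)
    (hW : 0 < W) (hf : ∀ t ∈ T, 0 ≤ f t) (hg : ∀ t ∈ T, 0 ≤ g t) (hfs : ∑ t ∈ T, f t ≤ V)
    (hgs : ∑ t ∈ T, g t ≤ W) : ∃ T' ⊆ T, (T.card : ℝ) / 2 ≤ T'.card ∧
      ∀ t ∈ T', f t ≤ 4 * V / T.card ∧ g t ≤ 4 * W / T.card := by
  classical
  have h1 := mark45 hT hV hf hfs
  have h2 := mark45 hT hW hg hgs
  set A := T.filter fun t => 4 * V / T.card < f t
  set B := T.filter fun t => 4 * W / T.card < g t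
  refine ⟨T \ (A ∪ B), Finset.sdiff_subset, ?_, fun t ht => ?_⟩
  · have h3 : T.card ≤ (T \ (A ∪ B)).card + (A ∪ B).card := by
      have := Finset.card_le_card (s := T) (t := (T \ (A ∪ B)) ∪ (A ∪ B)) (by
        intro x hx
        by_cases hx' : x ∈ A ∪ B
        · exact Finset.mem_union_right _ hx'
        · exact Finset.mem_union_left _ (Finset.mem_sdiff.mpr ⟨hx, hx'⟩))
      exact this.trans (Finset.card_union_le _ _)
    have h4 : (A ∪ B).card ≤ A.card + B.card := Finset.card_union_le _ _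
    have h3' : (T.card : ℝ) ≤ (T \ (A ∪ B)).card + (A ∪ B).card := by exact_mod_cast h3
    have h4' : ((A ∪ B).card : ℝ) ≤ A.card + B.card := by exact_mod_cast h4
    linarith
  · obtain ⟨h3, h4⟩ := Finset.mem_sdiff.mp ht
    rw [Finset.mem_union, not_or] at h4
    constructor
    · by_contra hcon
      push Not at hcon
      exact h4.1 (Finset.mem_filter.mpr ⟨h3, hcon⟩)
    · by_contra hcon
      push Not at hcon
      exact h4.2 (Finset.mem_filter.mpr ⟨h3, hcon⟩)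

/-- The windows `[τ, t]` from the initial windows. -/
theorem tl45 {ρ : Measure ℝ} {β : ℝ} (hWi : WiT 2 ρ β) (hCo : CsO 2 ρ β) {h h'' e : Vec 2}
    (he : ‖e‖ = 1) {N τ t : ℕ} {α R cr Cr ε L r₁ K F : ℝ} (hR : 0 < R) (h1τ : 1 ≤ τ) (hτt : τ < t)
    (htN : t ≤ N) (hτα : (N : ℝ) ^ α ≤ τ) (htα : (N : ℝ) ^ α ≤ (t : ℝ) - τ)
    (hW : W0 ρ β h N α R)
    (hS : Sm ρ β h e N τ (Ft ρ β h e N τ) ≤ R * N)
    (hS'' : Sm ρ β h'' e N τ (Ft ρ β h'' e N τ) ≤ R * N) (hcr : 0 < cr) (hCr : 0 ≤ Cr)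
    (hr₁ : 0 < r₁) (hL : 1 ≤ L) (hK : 0 < K) (hε : 0 ≤ ε)
    (hsep : 2 * r₁ ≤ |Ft ρ β h e N τ - Ft ρ β h'' e N τ|)
    (h1 : (1 + Cr / cr) * (R * N / r₁ ^ 2) ≤ ε / 3) (h2 : R * N / L ^ 2 ≤ ε / 3)
    (hF : ∫ η, ∑ y ∈ boxF 2 N, bw ρ β h h'' N τ cr Cr y η ^ 2 ∂(law 2 ρ) ≤ F)
    (h3 : F * ((3 * L) ^ 2 * (R / K)) ≤ (cr * (ε / 3)) ^ 2) :
    ∃ m : Vec 2, Tl ρ β h N τ t m (Real.sqrt (K * ((t : ℝ) - τ))) ≤ ε := by
  have hN : (0 : ℝ) < N := by exact_mod_cast (h1τ.trans hτt.le).trans htN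
  have hs : (0 : ℝ) < (t : ℝ) - τ := by
    have : (τ : ℝ) < t := by exact_mod_cast hτt
    linarith
  have hcast : (((t - τ : ℕ) : ℝ)) = (t : ℝ) - τ := by
    rw [Nat.cast_sub hτt.le]
  obtain ⟨-, m, hm⟩ := hCo h e N (N - τ) (t - τ) α R he (by omega) (by omega) (by omega)
    (by rw [hcast]; exact htα) hR.le hW
  obtain ⟨M, hM⟩ := hW N τ h1τ (hτt.le.trans htN) le_rfl hτα
  have hM' : ∫ η, pe β h η (fun s : Fin N → Step 2 => ‖emb (pos s τ) - M‖ ^ 2) ∂(law 2 ρ) ≤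
      R * N := hM.trans (mul_le_mul_of_nonneg_left (by exact_mod_cast hτt.le.trans htN) hR.le)
  have hr : 0 < Real.sqrt (K * ((t : ℝ) - τ)) := Real.sqrt_pos.mpr (by positivity)
  have h4 := hWi h h'' e N τ t m M cr Cr (Real.sqrt (K * ((t : ℝ) - τ))) r₁ L (R * N) (R * N) he
    h1τ hτt htN hcr hCr hr hr₁ hL hsep hS hS'' hM'
  refine ⟨m, h4.trans ?_⟩
  have h5 := hm (Real.sqrt (K * ((t : ℝ) - τ))) hr
  rw [Real.sq_sqrt (by positivity), hcast] at h5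
  have h6 : R * ((t : ℝ) - τ) / (K * ((t : ℝ) - τ)) = R / K := by
    field_simp
  rw [h6] at h5
  have h7 : (∫ η, ∑ y ∈ boxF 2 N, bw ρ β h h'' N τ cr Cr y η ^ 2 ∂(law 2 ρ)) *
      ((3 * L) ^ 2 * Tl ρ β h (N - τ) 0 (t - τ) m (Real.sqrt (K * ((t : ℝ) - τ)))) ≤
      (cr * (ε / 3)) ^ 2 := by
    refine le_trans ?_ h3
    have h8 : (3 * L) ^ 2 * Tl ρ β h (N - τ) 0 (t - τ) m (Real.sqrt (K * ((t : ℝ) - τ))) ≤
        (3 * L) ^ 2 * (R / K) := mul_le_mul_of_nonneg_left h5 (by positivity)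
    have h9 : 0 ≤ ∫ η, ∑ y ∈ boxF 2 N, bw ρ β h h'' N τ cr Cr y η ^ 2 ∂(law 2 ρ) :=
      integral_nonneg fun η => Finset.sum_nonneg fun y _ => sq_nonneg _
    calc _ ≤ (∫ η, ∑ y ∈ boxF 2 N, bw ρ β h h'' N τ cr Cr y η ^ 2 ∂(law 2 ρ)) *
          ((3 * L) ^ 2 * (R / K)) := mul_le_mul_of_nonneg_left h8 h9
      _ ≤ _ := mul_le_mul_of_nonneg_right hF (by positivity)
  have h10 := Real.sqrt_le_sqrt h7
  rw [Real.sqrt_sq (by positivity)] at h10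
  have h11 : 1 / cr * Real.sqrt ((∫ η, ∑ y ∈ boxF 2 N, bw ρ β h h'' N τ cr Cr y η ^ 2 ∂(law 2 ρ)) *
      ((3 * L) ^ 2 * Tl ρ β h (N - τ) 0 (t - τ) m (Real.sqrt (K * ((t : ℝ) - τ))))) ≤ ε / 3 := by
    calc _ ≤ 1 / cr * (cr * (ε / 3)) := mul_le_mul_of_nonneg_left h10 (by positivity)
      _ = ε / 3 := by field_simp
  linarith

end O45

end Pool.Agent.W_7d29a1_S90
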