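import Pool.Agent.W_7d29a1_S90.MainQ45

/-!
Theorem ORI, assembly (second text), third part: numbers.
-/

namespace Pool.Agent.W_7d29a1_S90

open MeasureTheory ProbabilityTheory Filter Topology

namespace O45

/-- Cells in a given interval. -/
theorem sub45 {n : ℕ} {x a₁ : ℝ} (hn : 1 ≤ n) (hx : 0 < x) (ha₁ : 0 < a₁)
    (hal : a₁ ^ 2 ≤ n * x ^ 2) : ∃ B : ℕ, 0 < B ∧
      a₁ ^ 2 ≤ n * (x / B) ^ 2 ∧ n * (x / B) ^ 2 ≤ 4 * a₁ ^ 2 := by
  have hn' : (0 : ℝ) < n := by exact_mod_cast hn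
  have hq : 0 < Real.sqrt n := Real.sqrt_pos.mpr hn'
  have hqq : Real.sqrt n ^ 2 = n := Real.sq_sqrt hn'.le
  have h1 : a₁ ≤ x * Real.sqrt n := by
    refine le_of_sq_le_sq ?_ (by positivity)
    rw [mul_pow, hqq]
    linarith
  have h8 : 1 ≤ x * Real.sqrt n / a₁ := by rwa [one_le_div ha₁]
  obtain ⟨h9, h10, h11⟩ := grid45 h8
  set B := ⌊x * Real.sqrt n / a₁⌋₊
  have hB0 : (0 : ℝ) < B := by linarith
  rw [le_div_iff₀ ha₁] at h10
  rw [div_le_iff₀ ha₁] at h11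
  have h12 : a₁ ≤ Real.sqrt n * (x / B) := by
    rw [← mul_div_assoc, le_div_iff₀ hB0]
    linarith
  have h13 : Real.sqrt n * (x / B) ≤ 2 * a₁ := by
    rw [← mul_div_assoc, div_le_iff₀ hB0]
    linarith
  refine ⟨B, by exact_mod_cast hB0, ?_, ?_⟩
  · calc a₁ ^ 2 ≤ (Real.sqrt n * (x / B)) ^ 2 := pow_le_pow_left₀ ha₁.le h12 2
      _ = _ := by rw [mul_pow, hqq]
  · calc (n : ℝ) * (x / B) ^ 2 = (Real.sqrt n * (x / B)) ^ 2 := by rw [mul_pow, hqq]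
      _ ≤ (2 * a₁) ^ 2 := pow_le_pow_left₀ (by positivity) h13 2
      _ = _ := by ring

/-- The information in numbers. -/
theorem info45 {Ln lR Ci q θ S α l1 l0 a K H : ℝ} (hq : 0 ≤ q) (hq1 : q ≤ 1) (hθ : 0 ≤ θ)
    (hθ1 : θ ≤ 1) (hK : 1 ≤ K) (ha : 0 < a) (ha1 : a ≤ 1) (hS : θ / 4 * (l1 - l0) - 1 ≤ S)
    (h0 : l0 ≤ Real.log 2 + α * Ln) (h1 : Ln + Real.log a - Real.log (4 * K) ≤ l1)
    (hH : H ≤ Ln + lR + Ci - q * S) :
    H ≤ (1 - q * θ * (1 - α) / 4) * Ln + (lR + Ci + 1 + Real.log (8 * K / a)) := by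
  have h2 : Real.log (8 * K / a) = Real.log 2 + Real.log (4 * K) - Real.log a := by
    rw [← Real.log_mul (by norm_num) (by positivity), ← Real.log_div (by positivity) ha.ne']
    congr 1
    ring
  have h3 : 0 ≤ Real.log (8 * K / a) := by
    refine Real.log_nonneg ?_
    rw [one_le_div ha]
    linarith
  have h4 : (1 - α) * Ln - Real.log (8 * K / a) ≤ l1 - l0 := by
    rw [h2]
    linarith
  have h5 : θ / 4 * ((1 - α) * Ln - Real.log (8 * K / a)) ≤ θ / 4 * (l1 - l0) :=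
    mul_le_mul_of_nonneg_left h4 (by positivity)
  have h6 : q * (θ / 4 * ((1 - α) * Ln - Real.log (8 * K / a)) - 1) ≤ q * S :=
    mul_le_mul_of_nonneg_left (by linarith) hq
  have h7 : q * (θ / 4) * Real.log (8 * K / a) ≤ Real.log (8 * K / a) := by
    have : q * (θ / 4) ≤ 1 := by nlinarith
    nlinarith
  nlinarith

/-- From the two bounds of the contribution of one row to the inequality for `log n`. -/
theorem logsO45 {n : ℕ} {R γ g₀ cL E A₂ θ₀ M V : ℝ} (hn : 1 ≤ n) (hR : 1 ≤ R)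
    (hγ : γ = g₀ / R ^ 70) (hcL : 0 < cL) (hA₂ : 0 < A₂) (hθ₀ : 0 < θ₀)
    (hM : θ₀ / R ^ 4 * n ≤ M) (hV : V ≤ 24 * A₂ ^ 2 * R ^ 144)
    (hlow : cL / 2 * Real.exp (-((1 - γ / 2) * Real.log n + 2 * E + 2 / cL)) ≤ 4 * V / M) :
    g₀ / 2 / R ^ 70 * Real.log n ≤
      2 * E + 2 / cL + (|Real.log (192 * A₂ ^ 2 / (θ₀ * cL))| + 148 * Real.log R) := by
  have hn' : (0 : ℝ) < n := by exact_mod_cast hn
  have hR0 : 0 < R := by linarith
  set K := 192 * A₂ ^ 2 / (θ₀ * cL) with hK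
  have hK0 : 0 < K := by positivity
  have hM0 : 0 < M := lt_of_lt_of_le (by positivity) hM
  have h1 : Real.exp (-((1 - γ / 2) * Real.log n + 2 * E + 2 / cL)) =
      Real.exp (γ / 2 * Real.log n - (2 * E + 2 / cL)) / n := by
    have h0 : -((1 - γ / 2) * Real.log n + 2 * E + 2 / cL) =
        (γ / 2 * Real.log n - (2 * E + 2 / cL)) + -Real.log n := by ring
    rw [h0, Real.exp_add, Real.exp_neg, Real.exp_log hn', ← div_eq_mul_inv]
  rw [h1] at hlow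
  have h2 : 4 * V / M ≤ 4 * (24 * A₂ ^ 2 * R ^ 144) / (θ₀ / R ^ 4 * n) := by
    have : 4 * V ≤ 4 * (24 * A₂ ^ 2 * R ^ 144) := by linarith
    calc 4 * V / M ≤ 4 * (24 * A₂ ^ 2 * R ^ 144) / M := by gcongr
      _ ≤ _ := by gcongr
  have h3 := hlow.trans h2
  have h4 : Real.exp (γ / 2 * Real.log n - (2 * E + 2 / cL)) ≤ K * R ^ 148 := by
    have h5 : 4 * (24 * A₂ ^ 2 * R ^ 144) / (θ₀ / R ^ 4 * n) = 96 * A₂ ^ 2 * R ^ 148 / θ₀ / n := by
      field_simp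
      ring
    rw [h5, ← mul_div_assoc, div_le_div_iff_of_pos_right hn'] at h3
    have h6 : K * R ^ 148 = 96 * A₂ ^ 2 * R ^ 148 / θ₀ / (cL / 2) := by
      rw [hK]
      field_simp
      ring
    rw [h6, le_div_iff₀ (by positivity)]
    linarith
  have h8 := Real.log_le_log (Real.exp_pos _) h4
  rw [Real.log_exp, Real.log_mul hK0.ne' (by positivity), Real.log_pow] at h8
  have h9 : γ / 2 * Real.log n = g₀ / 2 / R ^ 70 * Real.log n := by rw [hγ]; ring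
  have h10 : Real.log K ≤ |Real.log K| := le_abs_self _
  push_cast at h8
  linarith

/-- The bound of the variance in numbers. -/
theorem var45 {R A : ℝ} {p : ℕ} (hR : 1 ≤ R) (hA : 1 ≤ A) :
    8 * Real.sqrt (A * R ^ p) ^ 2 * R + 16 * R ^ 2 * Real.sqrt (A * R ^ p) ^ 4 ≤
      24 * A ^ 2 * R ^ (2 * p + 2) := by
  have hR0 : 0 < R := by linarith
  have h1 : Real.sqrt (A * R ^ p) ^ 2 = A * R ^ p := Real.sq_sqrt (by positivity)
  have h2 : Real.sqrt (A * R ^ p) ^ 4 = (A * R ^ p) ^ 2 := by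
    calc Real.sqrt (A * R ^ p) ^ 4 = (Real.sqrt (A * R ^ p) ^ 2) ^ 2 := by ring
      _ = _ := by rw [h1]
  rw [h1, h2]
  have h3 : 1 ≤ R ^ p := one_le_pow₀ hR
  have h4 : 1 ≤ A * R ^ p := by nlinarith
  have h5 : 1 ≤ A * R ^ p * R := by nlinarith
  have h6 : A ^ 2 * R ^ (2 * p + 2) = (A * R ^ p * R) ^ 2 := by ring
  have h7 : A * R ^ p * R ≤ (A * R ^ p * R) ^ 2 := by nlinarith
  nlinarith

end O45

end Pool.Agent.W_7d29a1_S90
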