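import Pool.Agent.W_7d29a1_S90.DefsS90
import Pool.Agent.W_7d29a1_Q29.Qf39

/-!
`MainS` from the leaves (second text, helper53).
-/

namespace Pool.Agent.W_7d29a1_S90.M53

open MeasureTheory ProbabilityTheory Filter Topology Pool.Agent.W_MP_7d29a1_pr
  Pool.Agent.W_7d29a1_h46 Pool.Agent.W_7d29a1_h46u Pool.Agent.W_7d29a1_D2.B35
  Pool.Agent.W_7d29a1_Q29

/-- Jensen's inequality for one row. -/
lemma row53 {d : ℕ} {ρ : Measure ℝ} [IsProbabilityMeasure ρ] {β : ℝ} (hd : 0 < d) (hJ : JeT)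
    (h h' : Vec d) {n t : ℕ} (ht : t ≤ n) {c C W H : ℝ} (hc : 0 < c) (hc1 : c ≤ 1) (hC : 0 ≤ C)
    (hW : 0 < W) (h1 : W ≤ ∫ η, ∑ y ∈ boxF d n, aw ρ β h h' n t c C y η ∂(law d ρ))
    (h2 : En ρ β h n t (t - 1) ≤ H) :
    W * Real.exp (-((c * H + 1) / W)) ≤
      ∫ η, ∑ y ∈ boxF d n, aw ρ β h h' n t c C y η ^ 2 ∂(law d ρ) := by
  have hm : ∀ (h : Vec d) (y : Site d), Measurable (cE ρ (Pa d (t - 1)) (Qt β h n t y)) :=
    fun h y => measurable_cE (measurable_Qt39 β h n t y) _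
  have h0 : ∀ (h : Vec d) (y : Site d) (η : Env d), 0 ≤ cE ρ (Pa d (t - 1)) (Qt β h n t y) η :=
    fun h y η => cE_nonneg (fun η => Qt_nonneg39 β h n t y η) _ η
  refine hJ (Env d) (law d ρ) (Site d) (boxF d n)
    (fun y η => cE ρ (Pa d (t - 1)) (Qt β h n t y) η)
    (fun y η => aw ρ β h h' n t c C y η) c W H (fun y _ => hm h y) ?_ (fun y _ η => h0 h y η) ?_ ?_
    hc hc1 hW h1 h2
  · intro y _
    exact measurable_const.max (((hm h y).const_mul c).sub ((hm h' y).const_mul C))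
  · intro η
    have h3 : ∑ y ∈ boxF d n, cE ρ (Pa d (t - 1)) (Qt β h n t y) η =
        cE ρ (Pa d (t - 1)) (fun η => ∑ y ∈ boxF d n, Qt β h n t y η) η := by
      unfold cE
      rw [integral_finsetSum]
      intro y _
      exact integrable_spl (measurable_Qt39 β h n t y) (b := 1) (fun η => by
        rw [abs_of_nonneg (Qt_nonneg39 β h n t y η)]
        exact Qt_le_one39 β h ht y η) _ η
    rw [h3]
    have h4 : (fun η : Env d => ∑ y ∈ boxF d n, Qt β h n t y η) = fun _ => (1 : ℝ) := by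
      funext η
      exact Qt_sum_box39 hd β h ht ht η
    rw [h4]
    simp [cE]
  · intro y _ η
    refine ⟨le_max_left _ _, max_le (mul_nonneg hc.le (h0 h y η)) ?_⟩
    have := mul_nonneg hC (h0 h' y η)
    linarith

/-- The drifts at two tilts of the segment. -/
lemma drift53 {ρ : Measure ℝ} {β : ℝ} (hCa : CaT 2 ρ β) (h e : Vec 2) {n t : ℕ} (ht : t ≤ n)
    (s s' : ℝ) : ∫ u in s..s', Cv ρ β (h + u • e) e n t =
      Ft ρ β (h + s' • e) e n t - Ft ρ β (h + s • e) e n t := by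
  obtain ⟨h1, h2⟩ := hCa h e n t ht
  exact intervalIntegral.integral_eq_sub_of_hasDerivAt (fun u _ => h2 u)
    (h1.intervalIntegrable _ _)

section Core

variable {ρ : Measure ℝ} {β : ℝ} {h e : Vec 2} {l α R : ℝ} {n : ℕ}

/-- The second moments. -/
lemma sm53 (hCs : CsT 2 ρ β) (he : ‖e‖ = 1) (hR : 1 ≤ R)
    (hW : ∀ s ∈ Set.Icc (0 : ℝ) l, W4 ρ β (h + s • e) n α R) {t : ℕ} (ht1 : 1 ≤ t) (ht : t ≤ n)
    (htα : (n : ℝ) ^ α ≤ t) {s : ℝ} (hs : s ∈ Set.Icc (0 : ℝ) l) :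
    Sm ρ β (h + s • e) e n t (Ft ρ β (h + s • e) e n t) ≤ Real.sqrt R * n := by
  obtain ⟨-, -, -, -, h5⟩ := hCs (h + s • e) e n t ht
  have h6 := h5 α R he ht1 htα (by linarith) (hW s hs)
  have h7 : (t : ℝ) ≤ n := by exact_mod_cast ht
  exact h6.trans (mul_le_mul_of_nonneg_left h7 (Real.sqrt_nonneg R))

lemma vr53 (hCs : CsT 2 ρ β) (he : ‖e‖ = 1) (hR : 1 ≤ R)
    (hW : ∀ s ∈ Set.Icc (0 : ℝ) l, W4 ρ β (h + s • e) n α R) {t : ℕ} (ht1 : 1 ≤ t) (ht : t ≤ n)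
    (htα : (n : ℝ) ^ α ≤ t) {s : ℝ} (hs : s ∈ Set.Icc (0 : ℝ) l) :
    Vr ρ β (h + s • e) e n t ≤ Real.sqrt R * n := by
  obtain ⟨-, -, h3, -, -⟩ := hCs (h + s • e) e n t ht
  exact (h3 0).1.trans (sm53 hCs he hR hW ht1 ht htα hs)

lemma cv53 (hCs : CsT 2 ρ β) (he : ‖e‖ = 1) (hR : 1 ≤ R) (hn : 1 ≤ n)
    (hW : ∀ s ∈ Set.Icc (0 : ℝ) l, W4 ρ β (h + s • e) n α R) {t : ℕ} (ht1 : 1 ≤ t) (ht : t ≤ n)
    (htα : (n : ℝ) ^ α ≤ t) {s : ℝ} (hs : s ∈ Set.Icc (0 : ℝ) l) :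
    |Cv ρ β (h + s • e) e n t| ≤ Real.sqrt R * n := by
  obtain ⟨h1, h2, -, -, -⟩ := hCs (h + s • e) e n t ht
  have h3 := vr53 hCs he hR hW ht1 ht htα hs
  have htn : (t : ℝ) ≤ n := by exact_mod_cast ht
  have h4 := vr53 hCs he hR hW hn le_rfl (htα.trans htn) hs
  have h0 := (hCs (h + s • e) e n n le_rfl).1
  have h5 : Cv ρ β (h + s • e) e n t ^ 2 ≤ (Real.sqrt R * n) ^ 2 := by
    calc Cv ρ β (h + s • e) e n t ^ 2 ≤ _ := h2
      _ ≤ (Real.sqrt R * n) * (Real.sqrt R * n) := mul_le_mul h3 h4 h0 (by positivity)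
      _ = (Real.sqrt R * n) ^ 2 := by ring
  exact abs_le_of_sq_le_sq h5 (by positivity)

/-- The upper bound of the variance. -/
lemma up53 (hCs : CsT 2 ρ β) (hCa : CaT 2 ρ β) (hV : VuT 2 ρ β) (he : ‖e‖ = 1) (hR : 1 ≤ R)
    (hn : 1 ≤ n) (hnα : (n : ℝ) ^ α ≤ n)
    (hW : ∀ s ∈ Set.Icc (0 : ℝ) l, W4 ρ β (h + s • e) n α R) {k : ℝ} {s s' : ℝ}
    (hs : s ∈ Set.Icc (0 : ℝ) l) (hs' : s' ∈ Set.Icc (0 : ℝ) l) (hk : |s - s'| ≤ k) :
    ∫ η, (X β (h + s • e) η n - X β (h + s' • e) η n -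
      (A ρ β (h + s • e) n - A ρ β (h + s' • e) n)) ^ 2 ∂(law 2 ρ) ≤
      k ^ 2 * (2 * (Real.sqrt R * n) + (Real.sqrt R * n * k) ^ 2) := by
  have key : ∀ s s' : ℝ, s ∈ Set.Icc (0 : ℝ) l → s' ∈ Set.Icc (0 : ℝ) l → s' ≤ s → s - s' ≤ k →
      ∫ η, (X β (h + s • e) η n - X β (h + s' • e) η n -
        (A ρ β (h + s • e) n - A ρ β (h + s' • e) n)) ^ 2 ∂(law 2 ρ) ≤
        k ^ 2 * (2 * (Real.sqrt R * n) + (Real.sqrt R * n * k) ^ 2) := by
    intro s s' hs hs' hss hk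
    have e1 : h + s' • e + (s - s') • e = h + s • e := by
      rw [add_assoc, ← add_smul]
      congr 2
      ring
    have h1 := hV (h + s' • e) e n (s - s') (Real.sqrt R * n) (by linarith)
      (sm53 hCs he hR hW hn le_rfl hnα hs')
    rw [e1] at h1
    have h2 := h1 (sm53 hCs he hR hW hn le_rfl hnα hs)
    refine h2.trans ?_
    have h3 : |Ft ρ β (h + s • e) e n n - Ft ρ β (h + s' • e) e n n| ≤ Real.sqrt R * n * k := by
      rw [← drift53 hCa h e le_rfl s' s, ← Real.norm_eq_abs]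
      refine (intervalIntegral.norm_integral_le_of_norm_le_const (C := Real.sqrt R * n) ?_).trans ?_
      · intro u hu
        rw [Set.uIoc_of_le hss] at hu
        exact cv53 hCs he hR hn hW hn le_rfl hnα ⟨hs'.1.trans hu.1.le, hu.2.trans hs.2⟩
      · rw [abs_of_nonneg (by linarith : (0 : ℝ) ≤ s - s')]
        exact mul_le_mul_of_nonneg_left hk (by positivity)
    have h4 : (Ft ρ β (h + s • e) e n n - Ft ρ β (h + s' • e) e n n) ^ 2 ≤
        (Real.sqrt R * n * k) ^ 2 := sq_le_sq' (by linarith [abs_le.1 h3 |>.1]) (abs_le.1 h3).2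
    have h5 : (s - s') ^ 2 ≤ k ^ 2 := pow_le_pow_left₀ (by linarith) hk 2
    exact mul_le_mul h5 (by linarith) (by positivity) (by positivity)
  rcases le_total s' s with h1 | h1
  · exact key s s' hs hs' h1 ((le_abs_self _).trans hk)
  · have h2 := key s' s hs' hs h1 (by rw [abs_sub_comm] at hk; exact (le_abs_self _).trans hk)
    refine le_of_eq_of_le (integral_congr_ae (Eventually.of_forall fun η => ?_)) h2
    show (_ : ℝ) ^ 2 = (_ : ℝ) ^ 2
    ring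

/-- Everything except the numbers. -/
lemma core53 [IsProbabilityMeasure ρ] (hCs : CsT 2 ρ β) (hCa : CaT 2 ρ β) (hV : VuT 2 ρ β)
    (hSt : StM 2 ρ β) (hJ : JeT) (hA : AsT) (he : ‖e‖ = 1) (hl : 0 < l) (hR : 1 ≤ R)
    (hn : 1 ≤ n) (hnα : (n : ℝ) ^ α ≤ n / 2)
    (hW : ∀ s ∈ Set.Icc (0 : ℝ) l, W4 ρ β (h + s • e) n α R)
    {D : ℝ} (hD : 0 < D) (hF : D * n ≤ Ft ρ β (h + l • e) e n n - Ft ρ β h e n n)
    {c₁ C₁ : ℝ} (hIn : ∀ (h e : Vec 2) (n t : ℕ) (R : ℝ), ‖e‖ = 1 → 1 ≤ n → 1 ≤ t → t ≤ n →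
      (n : ℝ) ^ α ≤ t → 1 ≤ R → W4 ρ β h n α R → (D / (4 * l)) ^ 2 / 4 / R * n ≤ Vr ρ β h e n t →
      En ρ β h n t (t - 1) ≤ Real.log n - c₁ / R ^ 16 * Real.log n + C₁ * (1 + Real.log R))
    {cL CL : ℝ} (hcL : 0 < cL) (hcL1 : cL ≤ 1) (hCL : 0 ≤ CL)
    (hLo : ∀ (h h' : Vec 2) (n : ℕ) (T : Finset ℕ),
      T ⊆ Finset.Icc 1 n → ∑ t ∈ T, ∫ η, ∑ y ∈ boxF 2 n, aw ρ β h h' n t cL CL y η ^ 2 ∂(law 2 ρ) ≤
        ∫ η, (X β h η n - X β h' η n - (A ρ β h n - A ρ β h' n)) ^ 2 ∂(law 2 ρ))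
    {k : ℝ} {J : ℕ} (hk : 0 < k) (hJk : J * k = l) {ε : ℝ} (hε1 : ε < 1)
    (hε : (cL + CL) * (Real.sqrt R * n / (n * (D / (4 * l)) * k / 4) ^ 2) ≤ cL * ε) :
    (D / (4 * l)) ^ 2 / (4 * R) * (min (D / 4) (1 / 2) * n) * (cL * (1 - ε) *
      Real.exp (-((cL * (Real.log n - c₁ / R ^ 16 * Real.log n + C₁ * (1 + Real.log R)) + 1) /
        (cL * (1 - ε))))) ≤ k ^ 2 * (2 * (Real.sqrt R * n) + (Real.sqrt R * n * k) ^ 2) := by
  have hn0 : (0 : ℝ) < n := by exact_mod_cast hn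
  obtain ⟨c, hc⟩ : ∃ c, c = D / (4 * l) := ⟨_, rfl⟩
  rw [← hc] at hIn hε ⊢
  have hc0 : 0 < c := by rw [hc]; positivity
  obtain ⟨θ, hθ⟩ : ∃ θ, θ = min (D / 4) (1 / 2) := ⟨_, rfl⟩
  rw [← hθ]
  have hθ0 : 0 < θ := by rw [hθ]; exact lt_min (by positivity) (by norm_num)
  have hθ1 : θ ≤ 1 / 2 := by rw [hθ]; exact min_le_right _ _
  have hθ2 : θ ≤ D / 4 := by rw [hθ]; exact min_le_left _ _
  have hsR : 0 < Real.sqrt R := Real.sqrt_pos.2 (by linarith)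
  have hsRR : Real.sqrt R ≤ R := by
    rw [Real.sqrt_le_left (by linarith)]
    nlinarith
  have hnα' : (n : ℝ) ^ α ≤ n := by linarith
  obtain ⟨T, hT⟩ : ∃ T : Finset ℕ, T = Finset.Icc ⌈(1 - θ) * n⌉₊ n := ⟨_, rfl⟩
  have hT1 : ∀ t ∈ T, (1 - θ) * n ≤ t ∧ t ≤ n ∧ 1 ≤ t ∧ (n : ℝ) ^ α ≤ t := by
    intro t ht
    rw [hT, Finset.mem_Icc] at ht
    have h1 : (1 - θ) * n ≤ t := Nat.ceil_le.1 ht.1
    have h2 : (n : ℝ) / 2 ≤ t := by nlinarith
    refine ⟨h1, ht.2, ?_, by linarith⟩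
    have h3 : (0 : ℝ) < t := by linarith
    exact_mod_cast h3
  have hTc : θ * n ≤ (T.card : ℝ) := by
    rw [hT, Nat.card_Icc]
    have h1 : (⌈(1 - θ) * n⌉₊ : ℝ) < (1 - θ) * n + 1 :=
      Nat.ceil_lt_add_one (mul_nonneg (by linarith) hn0.le)
    have h2 : ⌈(1 - θ) * n⌉₊ ≤ n + 1 := by
      have h3 : (1 - θ) * (n : ℝ) ≤ n := by nlinarith
      exact (Nat.ceil_le.2 h3).trans (Nat.le_succ n)
    rw [Nat.cast_sub h2]
    push_cast
    linarith
  have hTne : T.Nonempty := by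
    rw [← Finset.card_pos]
    have : (0 : ℝ) < T.card := lt_of_lt_of_le (by positivity) hTc
    exact_mod_cast this
  -- the choice of the tilts
  obtain ⟨s, hs, s', hs', hss, T', hT', hcard, hgood⟩ := hA l k (Real.sqrt R) c J T
    (fun t s => Cv ρ β (h + s • e) e n t / n) hl hk hsR hc0 hJk hTne
    (fun t ht => ((hCa h e n t (hT1 t ht).2.1).1).div_const _)
    (by
      intro t ht s hs
      obtain ⟨-, h2, h3, h4⟩ := hT1 t ht
      show |Cv ρ β (h + s • e) e n t / n| ≤ Real.sqrt R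
      rw [abs_div, abs_of_pos hn0, div_le_iff₀ hn0]
      exact cv53 hCs he hR hn hW h3 h2 h4 hs)
    (by
      intro t ht
      obtain ⟨h1, h2, h3, h4⟩ := hT1 t ht
      show 2 * c * l ≤ ∫ s in (0 : ℝ)..l, Cv ρ β (h + s • e) e n t / n
      rw [intervalIntegral.integral_div, drift53 hCa h e h2 0 l, le_div_iff₀ hn0]
      have e0 : h + (0 : ℝ) • e = h := by rw [zero_smul, add_zero]
      rw [e0]
      have h5 := (hCs h e n t h2).2.2.2.1 he
      have h6 := (hCs (h + l • e) e n t h2).2.2.2.1 he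
      have h7 := (abs_le.1 h5).1
      have h8 := (abs_le.1 h6).2
      have h9 : 2 * c * l = D / 2 := by
        rw [hc]
        field_simp
        ring
      rw [h9]
      nlinarith)
  -- one row
  have hrow : ∀ t ∈ T', cL * (1 - ε) *
      Real.exp (-((cL * (Real.log n - c₁ / R ^ 16 * Real.log n + C₁ * (1 + Real.log R)) + 1) /
        (cL * (1 - ε)))) ≤ ∫ η, ∑ y ∈ boxF 2 n,
          aw ρ β (h + s • e) (h + s' • e) n t cL CL y η ^ 2 ∂(law 2 ρ) := by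
    intro t ht
    obtain ⟨-, h2, h3, h4⟩ := hT1 t (hT' ht)
    obtain ⟨h5, h6⟩ := hgood t ht
    refine row53 (by norm_num) hJ _ _ h2 hcL hcL1 hCL (mul_pos hcL (by linarith)) ?_ ?_
    · have h7 := hSt (h + s • e) (h + s' • e) e n t cL CL (n * c * k / 4) (Real.sqrt R * n) he h3 h2
        hcL.le hCL (by positivity) ?_ (sm53 hCs he hR hW h3 h2 h4 hs)
        (sm53 hCs he hR hW h3 h2 h4 hs')
      · refine le_trans ?_ h7
        linarith
      · have h8 : ∫ u in s..s', Cv ρ β (h + u • e) e n t / n =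
            (Ft ρ β (h + s' • e) e n t - Ft ρ β (h + s • e) e n t) / n := by
          rw [intervalIntegral.integral_div, drift53 hCa h e h2 s s']
        rw [h8, abs_div, abs_of_pos hn0, le_div_iff₀ hn0] at h6
        rw [abs_sub_comm]
        linarith
    · refine hIn (h + s • e) e n t R he hn h3 h2 h4 hR (hW s hs) ?_
      have h8 : c / 2 * n ≤ Cv ρ β (h + s • e) e n t := by
        rwa [le_div_iff₀ hn0] at h5
      have h9 := (hCs (h + s • e) e n t h2).2.1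
      have h10 := vr53 hCs he hR hW hn le_rfl hnα' hs
      have h11 := (hCs (h + s • e) e n t h2).1
      have h12 : (c / 2 * n) ^ 2 ≤ Vr ρ β (h + s • e) e n t * (Real.sqrt R * n) := by
        refine (pow_le_pow_left₀ (by positivity) h8 2).trans (h9.trans ?_)
        exact mul_le_mul_of_nonneg_left h10 h11
      have h13 : (c / 2 * n) ^ 2 ≤ Vr ρ β (h + s • e) e n t * (R * n) := by
        refine h12.trans (mul_le_mul_of_nonneg_left ?_ h11)
        exact mul_le_mul_of_nonneg_right hsRR hn0.le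
      have h14 : c ^ 2 / 4 / R * n * (R * n) = (c / 2 * n) ^ 2 := by
        have : R ≠ 0 := by linarith
        field_simp
        ring
      have h15 : 0 < R * n := by positivity
      rw [← h14] at h13
      exact le_of_mul_le_mul_right h13 h15
  have hup := up53 hCs hCa hV he hR hn hnα' hW hs hs' hss
  have hlo := hLo (h + s • e) (h + s' • e) n T' (by
    intro t ht
    rw [Finset.mem_Icc]
    exact ⟨(hT1 t (hT' ht)).2.2.1, (hT1 t (hT' ht)).2.1⟩)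
  have hsum := Finset.sum_le_sum hrow
  rw [Finset.sum_const, nsmul_eq_mul] at hsum
  refine le_trans ?_ (hsum.trans (hlo.trans hup))
  refine mul_le_mul_of_nonneg_right ?_
    (mul_nonneg (mul_nonneg hcL.le (by linarith)) (Real.exp_pos _).le)
  refine le_trans ?_ hcard
  rw [Real.sq_sqrt (by linarith)]
  exact mul_le_mul_of_nonneg_left hTc (by positivity)

end Core

/-! ### The numbers -/

/-- The exponent in Jensen's inequality. -/
lemma expo53 {L δ E cL : ℝ} (hL : 0 ≤ L) (hδ : 0 < δ) (hδ1 : δ ≤ 1) (hE : 0 ≤ E)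
    (hcL : 0 < cL) : Real.exp (δ / 2 * L - 2 * E - 2 / cL) * Real.exp (-L) ≤
      Real.exp (-((cL * (L - δ * L + E) + 1) / (cL * (1 - δ / 2)))) := by
  rw [← Real.exp_add]
  apply Real.exp_le_exp.2
  have h1 : 0 < 1 - δ / 2 := by linarith
  have h2 : (cL * (L - δ * L + E) + 1) / (cL * (1 - δ / 2)) ≤
      (1 - δ / 2) * L + 2 * E + 2 / cL := by
    rw [div_le_iff₀ (by positivity)]
    have e1 : ((1 - δ / 2) * L + 2 * E + 2 / cL) * (cL * (1 - δ / 2)) =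
        cL * (L - δ * L + E) + 1 + (cL * (δ ^ 2 / 4 * L) + cL * E * (1 - δ) + (1 - δ)) := by
      field_simp
      ring
    rw [e1]
    have h3 : 0 ≤ cL * (δ ^ 2 / 4 * L) := by positivity
    have h4 : 0 ≤ cL * E * (1 - δ) := mul_nonneg (by positivity) (by linarith)
    linarith
  linarith

/-- The length of the intervals. -/
lemma len53 {Q l x : ℝ} (hQ : 0 < Q) (hl : 0 < l) (hx : 0 < x) (h : Q ≤ l ^ 2 * x) :
    ∃ (J : ℕ) (k : ℝ), 0 < k ∧ J * k = l ∧ Q / (4 * x) ≤ k ^ 2 ∧ k ^ 2 ≤ Q / x := by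
  obtain ⟨y, hy⟩ : ∃ y, y = l * Real.sqrt x / Real.sqrt Q := ⟨_, rfl⟩
  have hsx : 0 < Real.sqrt x := Real.sqrt_pos.2 hx
  have hsQ : 0 < Real.sqrt Q := Real.sqrt_pos.2 hQ
  have hy1 : 1 ≤ y := by
    rw [hy, le_div_iff₀ hsQ, one_mul, Real.sqrt_le_left (by positivity), mul_pow,
      Real.sq_sqrt hx.le]
    exact h
  have hJ1 : y ≤ (⌈y⌉₊ : ℝ) := Nat.le_ceil y
  have hJ2 : (⌈y⌉₊ : ℝ) < y + 1 := Nat.ceil_lt_add_one (by linarith)
  have hJ0 : (0 : ℝ) < (⌈y⌉₊ : ℝ) := by linarith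
  have hy2 : y ^ 2 = l ^ 2 * x / Q := by
    rw [hy, div_pow, mul_pow, Real.sq_sqrt hx.le, Real.sq_sqrt hQ.le]
  refine ⟨⌈y⌉₊, l / ⌈y⌉₊, by positivity, by field_simp, ?_, ?_⟩
  · rw [div_pow, div_le_div_iff₀ (by positivity) (by positivity)]
    have h3 : (⌈y⌉₊ : ℝ) ^ 2 ≤ (2 * y) ^ 2 := pow_le_pow_left₀ hJ0.le (by linarith) 2
    have h4 : Q * (2 * y) ^ 2 = l ^ 2 * (4 * x) := by
      rw [mul_pow, hy2]
      field_simp
      ring
    rw [← h4]
    exact mul_le_mul_of_nonneg_left h3 hQ.le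
  · rw [div_pow, div_le_div_iff₀ (by positivity) (by positivity)]
    have h3 : y ^ 2 ≤ (⌈y⌉₊ : ℝ) ^ 2 := pow_le_pow_left₀ (by linarith) hJ1 2
    have h4 : l ^ 2 * x = Q * y ^ 2 := by
      rw [hy2]
      field_simp
    rw [h4]
    exact mul_le_mul_of_nonneg_left h3 hQ.le

/-- The last step: a power of `R` against the exponential. -/
lemma last53 {R K C E p b x : ℝ} (hR : 1 ≤ R) (hK : 0 < K) (hC : 0 ≤ C) (hp : 0 ≤ p)
    (hb : 0 < b) (hE : E = C * (1 + Real.log R)) (hx : b * R ^ 2 ≤ x)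
    (hbig : (|Real.log K| + 2 * C + 2 + p + 2 * C) / b < R)
    {y : ℝ} (hy : y ≤ 2) (h : Real.exp (x - 2 * E - y) ≤ K * R ^ p) : False := by
  have hR0 : 0 < R := by linarith
  have h1 := Real.log_le_log (Real.exp_pos _) h
  rw [Real.log_exp, Real.log_mul hK.ne' (Real.rpow_pos_of_pos hR0 p).ne', Real.log_rpow hR0] at h1
  have h2 : Real.log R ≤ R := (Real.log_le_sub_one_of_pos hR0).trans (by linarith)
  have h2' : 0 ≤ Real.log R := Real.log_nonneg hR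
  rw [div_lt_iff₀ hb] at hbig
  have h3 : p * Real.log R ≤ p * R := mul_le_mul_of_nonneg_left h2 hp
  have h4 : C * Real.log R ≤ C * R := mul_le_mul_of_nonneg_left h2 hC
  have h5 := le_abs_self (Real.log K)
  have h6 : 0 ≤ |Real.log K| := abs_nonneg _
  have h7 : (|Real.log K| + 2 * C + 2 + p + 2 * C) * R < R * b * R :=
    mul_lt_mul_of_pos_right hbig hR0
  nlinarith [mul_le_mul_of_nonneg_left hR h6, mul_le_mul_of_nonneg_left hR hC]

theorem mainS53 {ρ : Measure ℝ} [IsProbabilityMeasure ρ] {β : ℝ} (hI : InS ρ β) (hL : LoV 2 ρ β)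
    (hSt : StM 2 ρ β) (hV : VuT 2 ρ β) (hCa : CaT 2 ρ β) (hCs : CsT 2 ρ β) (hDr : DrT 2 ρ β)
    (hJ : JeT) (hA : AsT) : MainS ρ β := by
  intro h e l α he hl hα hlam
  obtain ⟨D, hD⟩ : ∃ D, D = (lam ρ β h + lam ρ β (h + l • e) -
    2 * lam ρ β (h + (l / 2) • e)) / l := ⟨_, rfl⟩
  have hD0 : 0 < D := by rw [hD]; exact div_pos (by linarith) hl
  have hD1 : D < 2 / l * (lam ρ β h + lam ρ β (h + l • e) - 2 * lam ρ β (h + (l / 2) • e)) := by
    have : 2 / l * (lam ρ β h + lam ρ β (h + l • e) - 2 * lam ρ β (h + (l / 2) • e)) = 2 * D := by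
      rw [hD]; ring
    rw [this]
    linarith
  obtain ⟨N₁, hN₁⟩ := hDr h e l D hl hD1
  obtain ⟨c, hc⟩ : ∃ c, c = D / (4 * l) := ⟨_, rfl⟩
  have hc0 : 0 < c := by rw [hc]; positivity
  obtain ⟨c₁, C₁, hc₁, hC₁, hIn⟩ := hI α (c ^ 2 / 4) hα (by positivity)
  obtain ⟨cL, CL, hcL, hcL1, hCL, hLo⟩ := hL
  obtain ⟨θ, hθ⟩ : ∃ θ, θ = min (D / 4) (1 / 2) := ⟨_, rfl⟩
  have hθ0 : 0 < θ := by rw [hθ]; exact lt_min (by positivity) (by norm_num)
  obtain ⟨K, hK⟩ : ∃ K, K = 128 * (cL + CL) / (c ^ 2 * cL * c₁) := ⟨_, rfl⟩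
  have hK0 : 0 < K := by rw [hK]; positivity
  obtain ⟨K₄, hK₄⟩ : ∃ K₄, K₄ = Real.exp (2 / cL) * (8 * (K * (2 + K)) / (c ^ 2 * θ * cL)) :=
    ⟨_, rfl⟩
  have hK₄0 : 0 < K₄ := by rw [hK₄]; positivity
  -- the eventual facts
  have hRt : Tendsto (fun n : ℕ => Real.log n ^ ((1 : ℝ) / 18)) atTop atTop :=
    (tendsto_rpow_atTop (by norm_num)).comp
      (Real.tendsto_log_atTop.comp tendsto_natCast_atTop_atTop)
  have hα2 : Tendsto (fun n : ℕ => (n : ℝ) ^ (1 - α)) atTop atTop :=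
    (tendsto_rpow_atTop (by linarith)).comp tendsto_natCast_atTop_atTop
  have hev := ((((((eventually_ge_atTop N₁).and (eventually_ge_atTop 1)).and
    (hRt.eventually_ge_atTop 1)).and (hRt.eventually_ge_atTop c₁)).and
    (hRt.eventually_ge_atTop (K / l ^ 2))).and
    (hRt.eventually_gt_atTop ((|Real.log K₄| + 2 * C₁ + 2 + 36 + 2 * C₁) / (c₁ / 2)))).and
    (hα2.eventually_ge_atTop 2)
  obtain ⟨N₀, hN₀⟩ := eventually_atTop.1 hev
  refine ⟨N₀, fun n hn => ?_⟩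
  obtain ⟨⟨⟨⟨⟨⟨hn1, hn2⟩, hR1⟩, hRc⟩, hRK⟩, hRbig⟩, hα3⟩ := hN₀ n hn
  by_contra hcon
  push Not at hcon
  obtain ⟨R, hR⟩ : ∃ R, R = Real.log n ^ ((1 : ℝ) / 18) := ⟨_, rfl⟩
  rw [← hR] at hR1 hRc hRK hRbig hcon
  have hn0 : (0 : ℝ) < n := by exact_mod_cast hn2
  have hlog0 : 0 ≤ Real.log n := Real.log_nonneg (by exact_mod_cast hn2)
  have hR18 : R ^ 18 = Real.log n := by
    rw [hR, ← Real.rpow_natCast, ← Real.rpow_mul hlog0]
    norm_num
  have hnlog : Real.log n ≤ n := (Real.log_le_sub_one_of_pos hn0).trans (by linarith)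
  have hR0 : 0 < R := by linarith
  have hnα : (n : ℝ) ^ α ≤ n / 2 := by
    have h1 : (n : ℝ) ^ (1 - α) * (n : ℝ) ^ α = n := by
      rw [← Real.rpow_add hn0]
      simp
    have h2 : (0 : ℝ) < (n : ℝ) ^ α := Real.rpow_pos_of_pos hn0 α
    nlinarith
  have hR16 : c₁ ≤ R ^ 16 := hRc.trans (le_self_pow₀ hR1 (by norm_num))
  obtain ⟨δ, hδ⟩ : ∃ δ, δ = c₁ / R ^ 16 := ⟨_, rfl⟩
  have hδ0 : 0 < δ := by rw [hδ]; positivity
  have hδ1 : δ ≤ 1 := by rw [hδ, div_le_one (by positivity)]; exact hR16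
  -- the length
  have hQ : K * R ^ 17 ≤ l ^ 2 * n := by
    have h1 : K ≤ l ^ 2 * R := by
      rw [div_le_iff₀ (by positivity)] at hRK
      linarith
    calc K * R ^ 17 ≤ (l ^ 2 * R) * R ^ 17 := mul_le_mul_of_nonneg_right h1 (by positivity)
      _ = l ^ 2 * R ^ 18 := by ring
      _ ≤ l ^ 2 * n := by
        rw [hR18]
        exact mul_le_mul_of_nonneg_left hnlog (by positivity)
  obtain ⟨J, k, hk0, hJk, hk1, hk2⟩ := len53 (by positivity) hl hn0 hQ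
  have hsR : Real.sqrt R ≤ R := by
    rw [Real.sqrt_le_left hR0.le]
    nlinarith
  have hε : (cL + CL) * (Real.sqrt R * n / (n * (D / (4 * l)) * k / 4) ^ 2) ≤ cL * (δ / 2) := by
    rw [← hc]
    have h1 : Real.sqrt R * n / (n * c * k / 4) ^ 2 ≤ 64 / (c ^ 2 * K * R ^ 16) := by
      rw [div_le_div_iff₀ (by positivity) (by positivity)]
      have h2 : K * R ^ 17 ≤ k ^ 2 * (4 * n) := by
        rwa [div_le_iff₀ (by positivity)] at hk1
      calc Real.sqrt R * n * (c ^ 2 * K * R ^ 16) ≤ R * n * (c ^ 2 * K * R ^ 16) := by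
            apply mul_le_mul_of_nonneg_right _ (by positivity)
            exact mul_le_mul_of_nonneg_right hsR hn0.le
        _ = n * c ^ 2 * (K * R ^ 17) := by ring
        _ ≤ n * c ^ 2 * (k ^ 2 * (4 * n)) := mul_le_mul_of_nonneg_left h2 (by positivity)
        _ = 64 * (n * c * k / 4) ^ 2 := by ring
    calc (cL + CL) * (Real.sqrt R * n / (n * c * k / 4) ^ 2)
        ≤ (cL + CL) * (64 / (c ^ 2 * K * R ^ 16)) := mul_le_mul_of_nonneg_left h1 (by positivity)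
      _ = cL * (δ / 2) := by
          rw [hδ, hK]
          have : cL + CL ≠ 0 := by positivity
          field_simp
          ring
  have hmain := core53 hCs hCa hV hSt hJ hA he hl hR1 hn2 hnα hcon hD0 (hN₁ n hn1)
    (by rw [← hc]; exact hIn) hcL hcL1 hCL hLo hk0 hJk (by linarith : δ / 2 < 1) hε
  rw [← hc, ← hθ, ← hδ] at hmain
  have hE0 : 0 ≤ C₁ * (1 + Real.log R) :=
    mul_nonneg hC₁ (by linarith [Real.log_nonneg hR1])
  have hexp := expo53 hlog0 hδ0 hδ1 hE0 hcL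
  rw [Real.exp_neg (Real.log n), Real.exp_log hn0] at hexp
  -- the upper bound
  have hup : k ^ 2 * (2 * (Real.sqrt R * n) + (Real.sqrt R * n * k) ^ 2) ≤
      K * (2 + K) * R ^ 35 := by
    have h1 : (Real.sqrt R * n * k) ^ 2 = R * n ^ 2 * k ^ 2 := by
      rw [mul_pow, mul_pow, Real.sq_sqrt hR0.le]
    have h2 : k ^ 2 * n ≤ K * R ^ 17 := by rwa [le_div_iff₀ hn0] at hk2
    rw [h1]
    calc k ^ 2 * (2 * (Real.sqrt R * n) + R * n ^ 2 * k ^ 2)
        = 2 * Real.sqrt R * (k ^ 2 * n) + R * (k ^ 2 * n) ^ 2 := by ring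
      _ ≤ 2 * R * (K * R ^ 17) + R * (K * R ^ 17) ^ 2 := by
          apply add_le_add
          · exact mul_le_mul (by linarith) h2 (by positivity) (by positivity)
          · exact mul_le_mul_of_nonneg_left (pow_le_pow_left₀ (by positivity) h2 2) hR0.le
      _ = 2 * K * R ^ 18 + K ^ 2 * R ^ 35 := by ring
      _ ≤ 2 * K * R ^ 35 + K ^ 2 * R ^ 35 := by
          have : R ^ 18 ≤ R ^ 35 := pow_le_pow_right₀ hR1 (by norm_num)
          have := mul_le_mul_of_nonneg_left this (by positivity : (0 : ℝ) ≤ 2 * K)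
          linarith
      _ = K * (2 + K) * R ^ 35 := by ring
  -- the lower bound
  obtain ⟨Y, hY⟩ : ∃ Y, Y = Real.exp (δ / 2 * Real.log n - 2 * (C₁ * (1 + Real.log R)) - 2 / cL) :=
    ⟨_, rfl⟩
  rw [← hY] at hexp
  have hlow : c ^ 2 * θ * cL / (8 * R) * Y ≤ K * (2 + K) * R ^ 35 := by
    refine le_trans ?_ (hmain.trans hup)
    have h1 : cL / 2 * (Y * (n : ℝ)⁻¹) ≤ cL * (1 - δ / 2) * Real.exp (-((cL * (Real.log n -
        δ * Real.log n + C₁ * (1 + Real.log R)) + 1) / (cL * (1 - δ / 2)))) := by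
      apply mul_le_mul _ hexp (by rw [hY]; positivity)
        (mul_nonneg hcL.le (by linarith))
      nlinarith
    calc c ^ 2 * θ * cL / (8 * R) * Y = c ^ 2 / (4 * R) * (θ * n) * (cL / 2 * (Y * (n : ℝ)⁻¹)) := by
          field_simp
          ring
      _ ≤ _ := mul_le_mul_of_nonneg_left h1 (by positivity)
  have hfin : Real.exp (δ / 2 * Real.log n - 2 * (C₁ * (1 + Real.log R)) - 0) ≤
      K₄ * R ^ (36 : ℝ) := by
    have e1 : Real.exp (δ / 2 * Real.log n - 2 * (C₁ * (1 + Real.log R)) - 0) =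
        Real.exp (2 / cL) * Y := by
      rw [hY, ← Real.exp_add]
      congr 1
      ring
    have e2 : R ^ (36 : ℝ) = R ^ 36 := by
      rw [← Real.rpow_natCast]
      norm_num
    rw [e1, hK₄, mul_assoc, e2]
    apply mul_le_mul_of_nonneg_left _ (Real.exp_pos _).le
    rw [div_mul_eq_mul_div, div_le_iff₀ (by positivity)] at hlow
    rw [div_mul_eq_mul_div, le_div_iff₀ (by positivity)]
    have e3 : K * (2 + K) * R ^ 35 * (8 * R) = 8 * (K * (2 + K)) * R ^ 36 := by ring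
    rw [e3] at hlow
    linarith
  exact last53 hR1 hK₄0 hC₁ (by norm_num) (by positivity : (0 : ℝ) < c₁ / 2) rfl
    (x := δ / 2 * Real.log n) (by
      rw [hδ, ← hR18]
      have : c₁ / R ^ 16 / 2 * R ^ 18 = c₁ / 2 * R ^ 2 := by
        field_simp
      rw [this]) hRbig (by norm_num : (0 : ℝ) ≤ 2) hfin

end Pool.Agent.W_7d29a1_S90.M53
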