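import Mathlib

/-!
Numbers for the theorem SUP.
-/

namespace Pool.Agent.W_7d29a1_S90

open Filter Topology

lemma exp_beats (b p M : ℝ) (hb : 0 < b) : ∃ R₀ : ℝ, 1 ≤ R₀ ∧ ∀ R : ℝ, R₀ ≤ R →
    M * R ^ p < Real.exp (b * R ^ 2) := by
  have h1 : Tendsto (fun x : ℝ => Real.exp (b * x) / x ^ (|p| / 2)) atTop atTop :=
    tendsto_exp_mul_div_rpow_atTop (|p| / 2) b hb
  have h2 : Tendsto (fun R : ℝ => R ^ 2) atTop atTop := tendsto_pow_atTop (by norm_num)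
  have h3 := (h1.comp h2).eventually (eventually_gt_atTop M)
  obtain ⟨R₁, hR₁⟩ := eventually_atTop.1 h3
  refine ⟨max R₁ 1, le_max_right _ _, fun R hR => ?_⟩
  have hR1 : 1 ≤ R := (le_max_right _ _).trans hR
  have h4 := hR₁ R ((le_max_left _ _).trans hR)
  simp only [Function.comp] at h4
  have hR0 : 0 < R := by linarith
  have h5 : (R ^ 2) ^ (|p| / 2) = R ^ |p| := by
    rw [← Real.rpow_natCast, ← Real.rpow_mul hR0.le]
    congr 1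
    push_cast
    ring
  rw [h5, lt_div_iff₀ (Real.rpow_pos_of_pos hR0 _)] at h4
  have h6 : R ^ p ≤ R ^ |p| := Real.rpow_le_rpow_of_exponent_le hR1 (le_abs_self p)
  by_cases hM : 0 ≤ M
  · calc M * R ^ p ≤ M * R ^ |p| := mul_le_mul_of_nonneg_left h6 hM
      _ < _ := h4
  · push Not at hM
    have h7 : 0 < R ^ p := Real.rpow_pos_of_pos hR0 _
    calc M * R ^ p < 0 := mul_neg_of_neg_of_pos hM h7
      _ < _ := Real.exp_pos _

/-- The final inequality. -/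
lemma num90 {c D c1 C1 c2 C4 : ℝ} (hc : 0 < c) (hD : 0 < D) (hc1 : 0 < c1) (hC1 : 0 ≤ C1)
    (hc2 : 0 < c2) (hC4 : 0 ≤ C4) : ∃ R₀ : ℝ, 1 ≤ R₀ ∧ ∀ R : ℝ, R₀ ≤ R →
      C4 * R ^ 17 * (2 * R + R ^ 2 * (C4 * R ^ 17)) <
        c ^ 2 / (4 * R ^ 2) * (D / 8) * (c2 / 2) *
          Real.exp (2 * (c1 / (4 * R ^ 16)) * R ^ 18 - 2 * (C1 * (1 + Real.log R) + 1 / c2)) := by
  set K : ℝ := c ^ 2 * D * c2 / 64 * Real.exp (-(2 * C1 + 2 / c2)) with hK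
  have hK0 : 0 < K := by positivity
  obtain ⟨R₀, hR₀, h⟩ := exp_beats (c1 / 2) (38 + 2 * C1) ((2 * C4 + C4 ^ 2) / K) (by positivity)
  refine ⟨R₀, hR₀, fun R hR => ?_⟩
  have hR1 : 1 ≤ R := hR₀.trans hR
  have hR0 : 0 < R := by linarith
  have h1 := h R hR
  rw [div_mul_eq_mul_div, div_lt_iff₀ hK0] at h1
  have e1 : R ^ (38 + 2 * C1) = R ^ 38 * R ^ (2 * C1) := by
    rw [Real.rpow_add hR0]
    congr 1
    exact_mod_cast Real.rpow_natCast R 38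
  have e2 : Real.exp (2 * (c1 / (4 * R ^ 16)) * R ^ 18 - 2 * (C1 * (1 + Real.log R) + 1 / c2)) =
      Real.exp (c1 / 2 * R ^ 2) * Real.exp (-(2 * C1 + 2 / c2)) / R ^ (2 * C1) := by
    rw [Real.rpow_def_of_pos hR0, ← Real.exp_add, ← Real.exp_sub]
    congr 1
    field_simp
    ring
  have hP : 0 < R ^ (2 * C1) := Real.rpow_pos_of_pos hR0 _
  rw [e2]
  have e3 : c ^ 2 / (4 * R ^ 2) * (D / 8) * (c2 / 2) *
      (Real.exp (c1 / 2 * R ^ 2) * Real.exp (-(2 * C1 + 2 / c2)) / R ^ (2 * C1)) =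
      Real.exp (c1 / 2 * R ^ 2) * K / (R ^ 2 * R ^ (2 * C1)) := by
    rw [hK]
    field_simp
    ring
  rw [e3, lt_div_iff₀ (by positivity)]
  refine lt_of_le_of_lt ?_ h1
  rw [e1]
  have h2 : C4 * R ^ 17 * (2 * R + R ^ 2 * (C4 * R ^ 17)) ≤ (2 * C4 + C4 ^ 2) * R ^ 36 := by
    have h3 : R ^ 18 ≤ R ^ 36 := pow_le_pow_right₀ hR1 (by norm_num)
    nlinarith [mul_nonneg hC4 (sub_nonneg.2 h3)]
  calc C4 * R ^ 17 * (2 * R + R ^ 2 * (C4 * R ^ 17)) * (R ^ 2 * R ^ (2 * C1)) ≤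
      (2 * C4 + C4 ^ 2) * R ^ 36 * (R ^ 2 * R ^ (2 * C1)) :=
        mul_le_mul_of_nonneg_right h2 (by positivity)
    _ = (2 * C4 + C4 ^ 2) * (R ^ 38 * R ^ (2 * C1)) := by ring

end Pool.Agent.W_7d29a1_S90
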