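import Pool.Agent.W_7d29a1_S90.DefsS90
import Pool.Agent.W_7d29a1_S90.NumS90
import Pool.Agent.W_7d29a1_Q29.Qt98

/-!
Theorem SUP: the main statement from the leaves.
-/

namespace Pool.Agent.W_7d29a1_S90

open MeasureTheory ProbabilityTheory Filter Topology Pool.Agent.W_MP_7d29a1_pr
  Pool.Agent.W_7d29a1_h46 Pool.Agent.W_7d29a1_h46u Pool.Agent.W_7d29a1_D2.B35
  Pool.Agent.W_7d29a1_Q29

variable {d : ℕ} {ρ : Measure ℝ} {β : ℝ}

lemma ftc90 (hC : CaT d ρ β) (h e : Vec d) {n t : ℕ} (ht : t ≤ n) (u v : ℝ) :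
    ∫ s in u..v, Cv ρ β (h + s • e) e n t =
      Ft ρ β (h + v • e) e n t - Ft ρ β (h + u • e) e n t :=
  intervalIntegral.integral_eq_sub_of_hasDerivAt (fun s _ => (hC h e n t ht).2 s)
    ((hC h e n t ht).1.intervalIntegrable _ _)

lemma lip90 (hC : CaT d ρ β) (h e : Vec d) {n t : ℕ} (ht : t ≤ n) {l K u v : ℝ}
    (hK : ∀ s ∈ Set.Icc (0 : ℝ) l, |Cv ρ β (h + s • e) e n t| ≤ K)
    (hu : u ∈ Set.Icc (0 : ℝ) l) (hv : v ∈ Set.Icc (0 : ℝ) l) :
    |Ft ρ β (h + v • e) e n t - Ft ρ β (h + u • e) e n t| ≤ K * |v - u| := by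
  rw [← ftc90 hC h e ht]
  refine intervalIntegral.norm_integral_le_of_norm_le_const (a := u) (b := v) (C := K)
    (f := fun s => Cv ρ β (h + s • e) e n t) fun s hs => ?_
  exact hK s (Set.uIcc_subset_Icc hu hv (Set.uIoc_subset_uIcc hs))

lemma var90 (hU : VuT d ρ β) (h e : Vec d) (n : ℕ) {u v B : ℝ}
    (hu : Sm ρ β (h + u • e) e n n (Ft ρ β (h + u • e) e n n) ≤ B)
    (hv : Sm ρ β (h + v • e) e n n (Ft ρ β (h + v • e) e n n) ≤ B) :
    ∫ η, (X β (h + u • e) η n - X β (h + v • e) η n -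
      (A ρ β (h + u • e) n - A ρ β (h + v • e) n)) ^ 2 ∂(law d ρ) ≤
        (v - u) ^ 2 * (2 * B + (Ft ρ β (h + v • e) e n n - Ft ρ β (h + u • e) e n n) ^ 2) := by
  rcases le_total u v with huv | huv
  · have h1 : h + v • e = h + u • e + (v - u) • e := by
      rw [add_assoc, ← add_smul]
      congr 2
      ring
    have h2 := hU (h + u • e) e n (v - u) B (by linarith) hu (by rw [← h1]; exact hv)
    rw [← h1] at h2
    refine le_trans (le_of_eq ?_) h2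
    congr 1
    funext η
    ring
  · have h1 : h + u • e = h + v • e + (u - v) • e := by
      rw [add_assoc, ← add_smul]
      congr 2
      ring
    have h2 := hU (h + v • e) e n (u - v) B (by linarith) hv (by rw [← h1]; exact hu)
    rw [← h1] at h2
    refine h2.trans (le_of_eq ?_)
    ring

lemma low90 [IsProbabilityMeasure ρ] (hM : StM 2 ρ β) (hJ : JeT) {h h' e : Vec 2} {n t : ℕ}
    {c C r B W H : ℝ} (he : ‖e‖ = 1) (ht1 : 1 ≤ t) (htn : t ≤ n) (hc : 0 < c) (hc1 : c ≤ 1)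
    (hC : 0 ≤ C) (hr : 0 < r) (hrr : 2 * r ≤ |Ft ρ β h e n t - Ft ρ β h' e n t|)
    (hB : Sm ρ β h e n t (Ft ρ β h e n t) ≤ B) (hB' : Sm ρ β h' e n t (Ft ρ β h' e n t) ≤ B)
    (hW : 0 < W) (hWl : W ≤ c * (1 - B / r ^ 2) - C * (B / r ^ 2))
    (hH : En ρ β h n t (t - 1) ≤ H) :
    W * Real.exp (-((c * H + 1) / W)) ≤
      ∫ η, ∑ y ∈ boxF 2 n, aw ρ β h h' n t c C y η ^ 2 ∂(law 2 ρ) := by
  classical
  have h0 : (0 : ℕ) < 2 := by norm_num
  have hmQ : ∀ (g : Vec 2) (y : Site 2), Measurable (cE ρ (Pa 2 (t - 1)) (Qt β g n t y)) :=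
    fun g y => S98.measurable_cE (S98.measurable_Qt β g n t y) _
  have hnQ : ∀ (g : Vec 2) (y : Site 2) (η : Env 2),
      0 ≤ cE ρ (Pa 2 (t - 1)) (Qt β g n t y) η :=
    fun g y η => S98.cE_nonneg (fun η => S98.Qt_nonneg h0 β g n t y η) _ η
  have hsum : ∀ (η : Env 2), ∑ y ∈ boxF 2 n, cE ρ (Pa 2 (t - 1)) (Qt β h n t y) η = 1 := by
    intro η
    rw [← S98.cE_sum (boxF 2 n) (fun y _ => S98.measurable_Qt β h n t y)
      (fun y _ η => S98.Qt_abs h0 β h htn y η)]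
    have h1 : (fun η : Env 2 => ∑ y ∈ boxF 2 n, Qt β h n t y η) = fun _ => (1 : ℝ) := by
      funext η
      exact S98.Qt_sum' h0 β h htn η
    rw [h1]
    simp [cE]
  refine hJ (Env 2) (law 2 ρ) (Site 2) (boxF 2 n)
    (fun y η => cE ρ (Pa 2 (t - 1)) (Qt β h n t y) η) (fun y η => aw ρ β h h' n t c C y η) c W H
    (fun y _ => hmQ h y) (fun y _ => ?_) (fun y _ η => hnQ h y η) hsum (fun y _ η => ⟨?_, ?_⟩)
    hc hc1 hW ?_ ?_
  · show Measurable (fun η => aw ρ β h h' n t c C y η)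
    unfold aw
    exact measurable_const.max (((hmQ h y).const_mul c).sub ((hmQ h' y).const_mul C))
  · exact le_max_left _ _
  · show aw ρ β h h' n t c C y η ≤ c * cE ρ (Pa 2 (t - 1)) (Qt β h n t y) η
    unfold aw
    refine max_le (mul_nonneg hc.le (hnQ h y η)) ?_
    have := mul_nonneg hC (hnQ h' y η)
    linarith
  · exact hWl.trans (hM h h' e n t c C r B he ht1 htn hc.le hC hr hrr hB hB')
  · exact hH

/-- The facts valid for `n` large. -/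
lemma ev90 (α : ℝ) (hα : α < 1) (N₁ : ℕ) (R₀ D C4 l : ℝ) (hC4 : 0 ≤ C4) (hl : 0 < l) :
    ∃ N₀ : ℕ, ∀ n : ℕ, N₀ ≤ n → N₁ ≤ n ∧ 1 ≤ n ∧ R₀ ≤ Real.log n ^ ((1 : ℝ) / 18) ∧
      1 ≤ Real.log n ^ ((1 : ℝ) / 18) ∧ Real.log n = (Real.log n ^ ((1 : ℝ) / 18)) ^ 18 ∧
      (n : ℝ) ^ α ≤ n / 2 ∧ D ≤ n ∧
      C4 * (Real.log n ^ ((1 : ℝ) / 18)) ^ 17 ≤ l ^ 2 * n := by
  have hn : Tendsto (fun n : ℕ => (n : ℝ)) atTop atTop := tendsto_natCast_atTop_atTop
  have hlog : Tendsto (fun n : ℕ => Real.log n) atTop atTop := Real.tendsto_log_atTop.comp hn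
  have hR : Tendsto (fun n : ℕ => Real.log n ^ ((1 : ℝ) / 18)) atTop atTop :=
    (tendsto_rpow_atTop (by norm_num : (0 : ℝ) < 1 / 18)).comp hlog
  have hpow : Tendsto (fun n : ℕ => (n : ℝ) ^ (-(1 - α))) atTop (𝓝 0) :=
    (tendsto_rpow_neg_atTop (by linarith : (0 : ℝ) < 1 - α)).comp hn
  have hlo : ∀ᶠ x : ℝ in atTop, ‖Real.log x‖ ≤ l ^ 2 / (C4 + 1) * ‖id x‖ :=
    Real.isLittleO_log_id_atTop.def (by positivity)
  have hlo' := hn.eventually hlo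
  have hall : ∀ᶠ n : ℕ in atTop, N₁ ≤ n ∧ 1 ≤ n ∧ R₀ ≤ Real.log n ^ ((1 : ℝ) / 18) ∧
      1 ≤ Real.log n ^ ((1 : ℝ) / 18) ∧ Real.log n = (Real.log n ^ ((1 : ℝ) / 18)) ^ 18 ∧
      (n : ℝ) ^ α ≤ n / 2 ∧ D ≤ n ∧
      C4 * (Real.log n ^ ((1 : ℝ) / 18)) ^ 17 ≤ l ^ 2 * n := by
    filter_upwards [eventually_ge_atTop N₁, eventually_ge_atTop 1,
      hR.eventually (eventually_ge_atTop R₀), hR.eventually (eventually_ge_atTop 1),
      hlog.eventually (eventually_ge_atTop 0), hpow.eventually (eventually_le_nhds (by norm_num :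
        (0 : ℝ) < 1 / 2)), hn.eventually (eventually_ge_atTop D), hlo'] with n h1 h2 h3 h4 h5 h6 h7 h8
    have hn0 : (0 : ℝ) < n := by exact_mod_cast h2
    have hL : Real.log n = (Real.log n ^ ((1 : ℝ) / 18)) ^ 18 := by
      rw [← Real.rpow_natCast, ← Real.rpow_mul h5]
      norm_num
    refine ⟨h1, h2, h3, h4, hL, ?_, h7, ?_⟩
    · have h9 : (n : ℝ) ^ α = n * (n : ℝ) ^ (-(1 - α)) := by
        rw [show α = 1 + (-(1 - α)) by ring, Real.rpow_add hn0, Real.rpow_one]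
        congr 2
        ring
      rw [h9]
      nlinarith [h6]
    · set R := Real.log n ^ ((1 : ℝ) / 18) with hRdef
      have h9 : R ^ 17 ≤ R ^ 18 := pow_le_pow_right₀ h4 (by norm_num)
      have h10 : Real.log n ≤ l ^ 2 / (C4 + 1) * n := by
        have := h8
        simp only [id, Real.norm_eq_abs, abs_of_nonneg h5, abs_of_pos hn0] at this
        exact this
      calc C4 * R ^ 17 ≤ (C4 + 1) * R ^ 17 := by
            refine mul_le_mul_of_nonneg_right (by linarith) (by positivity)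
        _ ≤ (C4 + 1) * R ^ 18 := mul_le_mul_of_nonneg_left h9 (by linarith)
        _ = (C4 + 1) * Real.log n := by rw [← hL]
        _ ≤ (C4 + 1) * (l ^ 2 / (C4 + 1) * n) := mul_le_mul_of_nonneg_left h10 (by linarith)
        _ = l ^ 2 * n := by
            field_simp
  exact eventually_atTop.1 hall

/-- The bounds under the hypothesis `W4`. -/
lemma bd90 (hCs : CsT 2 ρ β) {h e : Vec 2} {n t : ℕ} {α R : ℝ} (he : ‖e‖ = 1) (hR : 1 ≤ R)
    (ht1 : 1 ≤ t) (htn : t ≤ n) (htα : (n : ℝ) ^ α ≤ t) (hnα : (n : ℝ) ^ α ≤ n)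
    (hW : W4 ρ β h n α R) :
    Sm ρ β h e n t (Ft ρ β h e n t) ≤ R * n ∧ 0 ≤ Vr ρ β h e n t ∧ Vr ρ β h e n n ≤ R * n ∧
      Cv ρ β h e n t ^ 2 ≤ Vr ρ β h e n t * (R * n) ∧ |Cv ρ β h e n t| ≤ R * n := by
  have hsq : Real.sqrt R ≤ R := by
    rw [Real.sqrt_le_left (by linarith)]
    nlinarith
  have hgen : ∀ u : ℕ, 1 ≤ u → u ≤ n → (n : ℝ) ^ α ≤ u →
      Sm ρ β h e n u (Ft ρ β h e n u) ≤ R * n := by
    intro u hu1 hun huα
    have h1 := (hCs h e n u hun).2.2.2.2 α R he hu1 huα (by linarith) hW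
    have h2 : (u : ℝ) ≤ n := by exact_mod_cast hun
    calc Sm ρ β h e n u (Ft ρ β h e n u) ≤ Real.sqrt R * u := h1
      _ ≤ R * n := mul_le_mul hsq h2 (Nat.cast_nonneg _) (by linarith)
  have hSt := hgen t ht1 htn htα
  have hSn := hgen n (ht1.trans htn) le_rfl hnα
  have hVt := (hCs h e n t htn).1
  have hVt' := ((hCs h e n t htn).2.2.1 0).1.trans hSt
  have hVn := ((hCs h e n n le_rfl).2.2.1 0).1.trans hSn
  have hCv := (hCs h e n t htn).2.1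
  have hRn : 0 ≤ R * n := by positivity
  have hCv' : Cv ρ β h e n t ^ 2 ≤ Vr ρ β h e n t * (R * n) :=
    hCv.trans (mul_le_mul_of_nonneg_left hVn hVt)
  refine ⟨hSt, hVt, hVn, hCv', ?_⟩
  refine abs_le_of_sq_le_sq ?_ hRn
  calc Cv ρ β h e n t ^ 2 ≤ Vr ρ β h e n t * (R * n) := hCv'
    _ ≤ (R * n) * (R * n) := mul_le_mul_of_nonneg_right hVt' hRn
    _ = (R * n) ^ 2 := by ring

/-- The scale of the intervals. -/
lemma scale90 {l n a : ℝ} (hl : 0 < l) (hn : 0 < n) (ha : 0 < a) (han : a ^ 2 ≤ l ^ 2 * n) :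
    ∃ (J : ℕ) (k : ℝ), J * k = l ∧ 0 < k ∧ k ^ 2 * n ≤ a ^ 2 ∧ a / 2 ≤ k * Real.sqrt n := by
  have hsn : 0 < Real.sqrt n := Real.sqrt_pos.2 hn
  have hsq : Real.sqrt n ^ 2 = n := Real.sq_sqrt hn.le
  have hz : 0 < l * Real.sqrt n / a := by positivity
  have hal : a ≤ l * Real.sqrt n := by
    refine abs_le_of_sq_le_sq' ?_ (by positivity) |>.2
    rw [mul_pow, hsq]
    exact han
  have hz1 : 1 ≤ l * Real.sqrt n / a := by
    rw [le_div_iff₀ ha]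
    linarith
  set J : ℕ := ⌈l * Real.sqrt n / a⌉₊ with hJ
  have hJ1 : l * Real.sqrt n / a ≤ J := Nat.le_ceil _
  have hJ2 : (J : ℝ) < l * Real.sqrt n / a + 1 := Nat.ceil_lt_add_one hz.le
  have hJ0 : (0 : ℝ) < J := lt_of_lt_of_le hz hJ1
  have hJ3 : (J : ℝ) ≤ 2 * (l * Real.sqrt n / a) := by linarith
  refine ⟨J, l / J, by field_simp, by positivity, ?_, ?_⟩
  · have h1 : l / J * Real.sqrt n ≤ a := by
      rw [div_mul_eq_mul_div, div_le_iff₀ hJ0]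
      rw [div_le_iff₀ ha] at hJ1
      linarith
    calc (l / J) ^ 2 * n = (l / J * Real.sqrt n) ^ 2 := by rw [mul_pow, hsq]
      _ ≤ a ^ 2 := pow_le_pow_left₀ (by positivity) h1 2
  · rw [div_mul_eq_mul_div, le_div_iff₀ hJ0]
    calc a / 2 * J ≤ a / 2 * (2 * (l * Real.sqrt n / a)) :=
          mul_le_mul_of_nonneg_left hJ3 (by positivity)
      _ = l * Real.sqrt n := by field_simp

/-- The exponent. -/
lemma expo90 {c2 H ε L P : ℝ} (hc2 : 0 < c2) (hε : 0 ≤ ε) (hε' : ε ≤ 1 / 4) (hL : 0 ≤ L)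
    (hP : 0 ≤ P) (hH : H + 1 / c2 ≤ (1 - 4 * ε) * L + P) :
    -((1 - 2 * ε) * L + 2 * P) ≤ -((c2 * H + 1) / (c2 * (1 - ε))) := by
  have h1 : 0 < 1 - ε := by linarith
  have h2 : (c2 * H + 1) / (c2 * (1 - ε)) = (H + 1 / c2) / (1 - ε) := by
    field_simp
  rw [h2, neg_le_neg_iff, div_le_iff₀ h1]
  have h3 : 0 ≤ ε * L := mul_nonneg hε hL
  have h4 : 0 ≤ ε * P := mul_nonneg hε hP
  have h5 : 0 ≤ (1 / 4 - ε) * P := mul_nonneg (by linarith) hP
  have h6 : 0 ≤ ε * (ε * L) := mul_nonneg hε h3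
  nlinarith [h3, h4, h5, h6, mul_nonneg (sub_nonneg.2 hε') h3]

/-- The two bounds of the variance. -/
lemma core90 [IsProbabilityMeasure ρ] (hU : VuT 2 ρ β) (hC : CaT 2 ρ β) (hCs : CsT 2 ρ β)
    (hM : StM 2 ρ β) (hJ : JeT) {c2 C2 : ℝ} (hc2 : 0 < c2) (hc21 : c2 ≤ 1) (hC2 : 0 ≤ C2)
    (hL : ∀ (h h' : Vec 2) (n : ℕ) (T : Finset ℕ), T ⊆ Finset.Icc 1 n →
      ∑ t ∈ T, ∫ η, ∑ y ∈ boxF 2 n, aw ρ β h h' n t c2 C2 y η ^ 2 ∂(law 2 ρ) ≤
        ∫ η, (X β h η n - X β h' η n - (A ρ β h n - A ρ β h' n)) ^ 2 ∂(law 2 ρ))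
    {h e : Vec 2} (he : ‖e‖ = 1) {n : ℕ} (hn : 1 ≤ n) {α R l : ℝ} (hR : 1 ≤ R)
    (hnα : (n : ℝ) ^ α ≤ n) (hW : ∀ s ∈ Set.Icc (0 : ℝ) l, W4 ρ β (h + s • e) n α R)
    {s s' k : ℝ} (hs : s ∈ Set.Icc (0 : ℝ) l) (hs' : s' ∈ Set.Icc (0 : ℝ) l) (hk : |s - s'| ≤ k)
    {T : Finset ℕ} {r W H : ℝ} (hr : 0 < r) (hW0 : 0 < W)
    (hWl : W ≤ c2 * (1 - R * n / r ^ 2) - C2 * (R * n / r ^ 2))
    (hT : ∀ t ∈ T, 1 ≤ t ∧ t ≤ n ∧ (n : ℝ) ^ α ≤ t ∧
      2 * r ≤ |Ft ρ β (h + s • e) e n t - Ft ρ β (h + s' • e) e n t| ∧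
      En ρ β (h + s • e) n t (t - 1) ≤ H) :
    T.card * (W * Real.exp (-((c2 * H + 1) / W))) ≤
      k ^ 2 * (2 * (R * n) + (R * n * k) ^ 2) := by
  have hn0 : (0 : ℝ) < n := by exact_mod_cast hn
  have hT1 : T ⊆ Finset.Icc 1 n := by
    intro t ht
    rw [Finset.mem_Icc]
    exact ⟨(hT t ht).1, (hT t ht).2.1⟩
  have hlow : ∀ t ∈ T, W * Real.exp (-((c2 * H + 1) / W)) ≤
      ∫ η, ∑ y ∈ boxF 2 n, aw ρ β (h + s • e) (h + s' • e) n t c2 C2 y η ^ 2 ∂(law 2 ρ) := by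
    intro t ht
    obtain ⟨h1, h2, h3, h4, h5⟩ := hT t ht
    exact low90 hM hJ he h1 h2 hc2 hc21 hC2 hr h4 (bd90 hCs he hR h1 h2 h3 hnα (hW s hs)).1
      (bd90 hCs he hR h1 h2 h3 hnα (hW s' hs')).1 hW0 hWl h5
  have hSn : ∀ u ∈ Set.Icc (0 : ℝ) l,
      Sm ρ β (h + u • e) e n n (Ft ρ β (h + u • e) e n n) ≤ R * n ∧
        |Cv ρ β (h + u • e) e n n| ≤ R * n := fun u hu =>
    ⟨(bd90 hCs he hR hn le_rfl hnα hnα (hW u hu)).1,
      (bd90 hCs he hR hn le_rfl hnα hnα (hW u hu)).2.2.2.2⟩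
  have hlip := lip90 hC h e (le_refl n) (fun u hu => (hSn u hu).2) hs hs'
  have hk0 : 0 ≤ k := (abs_nonneg _).trans hk
  have hk' : |s' - s| ≤ k := by
    rw [abs_sub_comm]
    exact hk
  have hRn : 0 ≤ R * n := by positivity
  have h1 : (s' - s) ^ 2 ≤ k ^ 2 := sq_le_sq' (by linarith [(abs_le.1 hk').1]) (abs_le.1 hk').2
  have h2 : (Ft ρ β (h + s' • e) e n n - Ft ρ β (h + s • e) e n n) ^ 2 ≤ (R * n * k) ^ 2 := by
    have h3 := hlip.trans (mul_le_mul_of_nonneg_left hk' hRn)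
    exact sq_le_sq' (by linarith [(abs_le.1 h3).1]) (abs_le.1 h3).2
  calc T.card * (W * Real.exp (-((c2 * H + 1) / W)))
      = ∑ t ∈ T, W * Real.exp (-((c2 * H + 1) / W)) := by
        rw [Finset.sum_const, nsmul_eq_mul]
    _ ≤ ∑ t ∈ T, ∫ η, ∑ y ∈ boxF 2 n,
          aw ρ β (h + s • e) (h + s' • e) n t c2 C2 y η ^ 2 ∂(law 2 ρ) := Finset.sum_le_sum hlow
    _ ≤ _ := hL _ _ n T hT1
    _ ≤ (s' - s) ^ 2 * (2 * (R * n) +
          (Ft ρ β (h + s' • e) e n n - Ft ρ β (h + s • e) e n n) ^ 2) :=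
        var90 hU h e n (hSn s hs).1 (hSn s' hs').1
    _ ≤ k ^ 2 * (2 * (R * n) + (R * n * k) ^ 2) :=
        mul_le_mul h1 (by linarith) (by positivity) (by positivity)

/-- The main statement from the leaves. -/
theorem mainS90 [IsProbabilityMeasure ρ] (hS : InS ρ β) (hL : LoV 2 ρ β) (hM : StM 2 ρ β)
    (hU : VuT 2 ρ β) (hC : CaT 2 ρ β) (hCs : CsT 2 ρ β) (hD : DrT 2 ρ β) (hJ : JeT)
    (hA : AsT) : MainS ρ β := by
  intro h e l α he hl hα hconv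
  obtain ⟨c2, C2, hc2, hc21, hC2, hLo⟩ := hL
  set D0 : ℝ := 2 / l * (lam ρ β h + lam ρ β (h + l • e) - 2 * lam ρ β (h + (l / 2) • e))
    with hD0
  have hD0p : 0 < D0 := by
    rw [hD0]
    exact mul_pos (by positivity) (by linarith)
  set D : ℝ := min (D0 / 2) 1 with hDdef
  have hDp : 0 < D := lt_min (by linarith) one_pos
  have hD1 : D ≤ 1 := min_le_right _ _
  have hDD0 : D < D0 := lt_of_le_of_lt (min_le_left _ _) (by linarith)
  obtain ⟨N₁, hN₁⟩ := hD h e l D hl hDD0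
  set c : ℝ := D / (4 * l) with hcdef
  have hc : 0 < c := by positivity
  obtain ⟨c1, C1, hc1, hC1, hInS⟩ := hS α (c ^ 2 / 4) hα (by positivity)
  set C4 : ℝ := 256 * (c2 + C2) / (c ^ 2 * c2 * c1) with hC4def
  have hC4 : 0 < C4 := by positivity
  obtain ⟨R₀, hR₀, hnum⟩ := num90 (c := c) (D := D) (c1 := c1) (C1 := C1) (c2 := c2) (C4 := C4)
    hc hDp hc1 hC1 hc2 hC4.le
  obtain ⟨N₀, hN₀⟩ := ev90 α hα N₁ (max R₀ c1) (8 / D) C4 l hC4.le hl
  refine ⟨N₀, fun n hn => ?_⟩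
  obtain ⟨hnN, hn1, hRR, hR1, hlog, hnα, hnD, hC4R⟩ := hN₀ n hn
  set R : ℝ := Real.log n ^ ((1 : ℝ) / 18) with hRdef
  by_contra hcon
  have hW : ∀ s ∈ Set.Icc (0 : ℝ) l, W4 ρ β (h + s • e) n α R := by
    intro s hs
    by_contra h'
    exact hcon ⟨s, hs, h'⟩
  have hn0 : (0 : ℝ) < n := by exact_mod_cast hn1
  have hR0 : 0 < R := by linarith
  have hnα' : (n : ℝ) ^ α ≤ n := by linarith
  have hDn : 8 ≤ D * n := by
    rw [div_le_iff₀ hDp] at hnD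
    linarith
  -- the scale
  have ha2 : Real.sqrt (C4 * R ^ 17) ^ 2 = C4 * R ^ 17 := Real.sq_sqrt (by positivity)
  have ha0 : 0 < Real.sqrt (C4 * R ^ 17) := Real.sqrt_pos.2 (by positivity)
  set a : ℝ := Real.sqrt (C4 * R ^ 17) with hadef
  obtain ⟨J, k, hJk, hk0, hk1, hk2⟩ := scale90 hl hn0 ha0 (by rw [ha2]; exact hC4R)
  -- the times
  set q : ℕ := ⌊D / 4 * n⌋₊ with hqdef
  have hq1 : (q : ℝ) ≤ D / 4 * n := Nat.floor_le (by positivity)
  have hq2 : D / 4 * n < q + 1 := Nat.lt_floor_add_one _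
  have hDn' : D * n ≤ n := by nlinarith
  have hqn : q ≤ n := by
    have : (q : ℝ) ≤ n := by nlinarith
    exact_mod_cast this
  set T : Finset ℕ := Finset.Ico (n - q) n with hTdef
  have hcard : (T.card : ℝ) = q := by
    rw [hTdef, Nat.card_Ico, Nat.sub_sub_self hqn]
  have hcardD : D / 8 * n ≤ T.card := by
    rw [hcard]
    nlinarith
  have hTne : T.Nonempty := by
    rw [← Finset.card_pos]
    have : (0 : ℝ) < T.card := lt_of_lt_of_le (by positivity) hcardD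
    exact_mod_cast this
  have hTt : ∀ t ∈ T, 1 ≤ t ∧ t ≤ n ∧ (n : ℝ) ^ α ≤ t ∧ (n : ℝ) - t ≤ D / 4 * n := by
    intro t ht
    rw [hTdef, Finset.mem_Ico] at ht
    have h1 : n ≤ t + q := by omega
    have h2 : (n : ℝ) ≤ t + q := by exact_mod_cast h1
    have h3 : (n : ℝ) - t ≤ D / 4 * n := by linarith
    have h4 : (n : ℝ) / 2 ≤ t := by nlinarith
    refine ⟨?_, ht.2.le, by linarith, h3⟩
    have h5 : (0 : ℝ) < t := by linarith
    exact_mod_cast h5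
  have hbd : ∀ s ∈ Set.Icc (0 : ℝ) l, ∀ t ∈ T, 0 ≤ Vr ρ β (h + s • e) e n t ∧
      Cv ρ β (h + s • e) e n t ^ 2 ≤ Vr ρ β (h + s • e) e n t * (R * n) ∧
      |Cv ρ β (h + s • e) e n t| ≤ R * n := by
    intro s hs t ht
    obtain ⟨h1, h2, h3, -⟩ := hTt t ht
    have h4 := bd90 hCs he hR1 h1 h2 h3 hnα' (hW s hs)
    exact ⟨h4.2.1, h4.2.2.2.1, h4.2.2.2.2⟩
  -- the choice of the tilts
  have hint : ∀ t ≤ n, ∀ u v : ℝ, ∫ s in u..v, Cv ρ β (h + s • e) e n t / n =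
      (Ft ρ β (h + v • e) e n t - Ft ρ β (h + u • e) e n t) / n := by
    intro t ht u v
    rw [intervalIntegral.integral_div, ftc90 hC h e ht]
  obtain ⟨s, hs, s', hs', hss, T', hT', hcardT', hgT'⟩ := hA l k R c J T
    (fun t s => Cv ρ β (h + s • e) e n t / n) hl hk0 hR0 hc hJk hTne
    (fun t ht => (hC h e n t (hTt t ht).2.1).1.div_const _)
    (fun t ht s hs => by
      rw [abs_div, abs_of_pos hn0, div_le_iff₀ hn0]
      exact (hbd s hs t ht).2.2)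
    (fun t ht => by
      obtain ⟨h1, h2, h3, h4⟩ := hTt t ht
      rw [hint t h2, zero_smul, add_zero, le_div_iff₀ hn0]
      have h5 := abs_le.1 ((hCs h e n t h2).2.2.2.1 he)
      have h6 := abs_le.1 ((hCs (h + l • e) e n t h2).2.2.2.1 he)
      have h7 := hN₁ n hnN
      have h8 : 2 * c * l = D / 2 := by
        rw [hcdef]
        field_simp
        ring
      rw [h8]
      linarith [h5.1, h5.2, h6.1, h6.2])
  -- the constants
  set ε : ℝ := c1 / (4 * R ^ 16) with hεdef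
  have hε0 : 0 ≤ ε := by positivity
  have hRc1 : c1 ≤ R := (le_max_right _ _).trans hRR
  have hR16 : R ≤ R ^ 16 := le_self_pow₀ hR1 (by norm_num)
  have hε1 : ε ≤ 1 / 4 := by
    rw [hεdef, div_le_div_iff₀ (by positivity) (by norm_num)]
    linarith
  have hsn : Real.sqrt n ^ 2 = n := Real.sq_sqrt hn0.le
  have hsn0 : 0 < Real.sqrt n := Real.sqrt_pos.2 hn0
  set r : ℝ := c * a * Real.sqrt n / 8 with hrdef
  have hr0 : 0 < r := by positivity
  have hr2 : r ^ 2 = c ^ 2 * (C4 * R ^ 17) * n / 64 := by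
    rw [hrdef, div_pow, mul_pow, mul_pow, hsn, ha2]
    norm_num
  have hx : (c2 + C2) * (R * n / r ^ 2) = c2 * ε := by
    rw [hr2, hεdef, hC4def]
    have : c2 + C2 ≠ 0 := by positivity
    field_simp
    ring
  set W : ℝ := c2 * (1 - ε) with hWdef
  have hW0 : 0 < W := mul_pos hc2 (by linarith)
  have hWl : W ≤ c2 * (1 - R * n / r ^ 2) - C2 * (R * n / r ^ 2) := by
    rw [hWdef]
    linarith [hx]
  set H : ℝ := Real.log n - c1 / R ^ 16 * Real.log n + C1 * (1 + Real.log R) with hHdef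
  -- the times of `T'`
  have hTT : ∀ t ∈ T', 1 ≤ t ∧ t ≤ n ∧ (n : ℝ) ^ α ≤ t ∧
      2 * r ≤ |Ft ρ β (h + s • e) e n t - Ft ρ β (h + s' • e) e n t| ∧
      En ρ β (h + s • e) n t (t - 1) ≤ H := by
    intro t ht
    obtain ⟨h1, h2, h3, h4⟩ := hTt t (hT' ht)
    obtain ⟨h5, h6⟩ := hgT' t ht
    refine ⟨h1, h2, h3, ?_, ?_⟩
    · rw [hint t h2, abs_div, abs_of_pos hn0, le_div_iff₀ hn0, abs_sub_comm] at h6
      refine le_trans ?_ h6
      have h7 : a / 2 * Real.sqrt n ≤ k * n := by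
        calc a / 2 * Real.sqrt n ≤ k * Real.sqrt n * Real.sqrt n :=
              mul_le_mul_of_nonneg_right hk2 hsn0.le
          _ = k * n := by rw [mul_assoc, ← sq, hsn]
      rw [hrdef]
      nlinarith [mul_le_mul_of_nonneg_left h7 hc.le]
    · refine hInS (h + s • e) e n t R he hn1 h1 h2 h3 hR1 (hW s hs) ?_
      have h7 : c / 2 * n ≤ Cv ρ β (h + s • e) e n t := by
        rw [le_div_iff₀ hn0] at h5
        exact h5
      have h8 : (c / 2 * n) ^ 2 ≤ Cv ρ β (h + s • e) e n t ^ 2 :=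
        pow_le_pow_left₀ (by positivity) h7 2
      have h9 := h8.trans (hbd s hs t (hT' ht)).2.1
      have h10 : (c / 2 * n) ^ 2 = c ^ 2 / 4 / R * n * (R * n) := by
        field_simp
        ring
      rw [h10] at h9
      exact le_of_mul_le_mul_right h9 (by positivity)
  have hcore := core90 hU hC hCs hM hJ hc2 hc21 hC2 hLo he hn1 hR1 hnα' hW hs hs' hss hr0 hW0 hWl
    hTT
  -- the upper bound
  have hup : k ^ 2 * (2 * (R * n) + (R * n * k) ^ 2) ≤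
      C4 * R ^ 17 * (2 * R + R ^ 2 * (C4 * R ^ 17)) := by
    rw [ha2] at hk1
    calc k ^ 2 * (2 * (R * n) + (R * n * k) ^ 2)
        = (k ^ 2 * n) * (2 * R + R ^ 2 * (k ^ 2 * n)) := by ring
      _ ≤ C4 * R ^ 17 * (2 * R + R ^ 2 * (C4 * R ^ 17)) := by
          refine mul_le_mul hk1 ?_ (by positivity) (by positivity)
          have := mul_le_mul_of_nonneg_left hk1 (sq_nonneg R)
          linarith
  -- the lower bound
  set P : ℝ := C1 * (1 + Real.log R) + 1 / c2 with hPdef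
  have hP0 : 0 ≤ P := by
    have := Real.log_nonneg hR1
    positivity
  have hL0 : 0 ≤ Real.log n := by
    rw [hlog]
    positivity
  have hexp : -((1 - 2 * ε) * Real.log n + 2 * P) ≤ -((c2 * H + 1) / W) := by
    refine expo90 hc2 hε0 hε1 hL0 hP0 (le_of_eq ?_)
    rw [hHdef, hPdef, hεdef]
    field_simp
    ring
  have hexp2 : Real.exp (-((1 - 2 * ε) * Real.log n + 2 * P)) =
      1 / n * Real.exp (2 * ε * R ^ 18 - 2 * P) := by
    rw [← hlog]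
    have h1 : -((1 - 2 * ε) * Real.log n + 2 * P) =
        -Real.log n + (2 * ε * Real.log n - 2 * P) := by ring
    rw [h1, Real.exp_add, Real.exp_neg, Real.exp_log hn0, one_div]
  have hlow : c ^ 2 / (4 * R ^ 2) * (D / 8) * (c2 / 2) *
      Real.exp (2 * ε * R ^ 18 - 2 * P) ≤ T'.card * (W * Real.exp (-((c2 * H + 1) / W))) := by
    have h1 : c ^ 2 / (4 * R ^ 2) * (D / 8 * n) ≤ (T'.card : ℝ) :=
      (mul_le_mul_of_nonneg_left hcardD (by positivity)).trans hcardT'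
    have h2 : c2 / 2 ≤ W := by
      rw [hWdef]
      nlinarith
    have h3 : 1 / n * Real.exp (2 * ε * R ^ 18 - 2 * P) ≤ Real.exp (-((c2 * H + 1) / W)) := by
      rw [← hexp2]
      exact Real.exp_le_exp.2 hexp
    calc c ^ 2 / (4 * R ^ 2) * (D / 8) * (c2 / 2) * Real.exp (2 * ε * R ^ 18 - 2 * P)
        = c ^ 2 / (4 * R ^ 2) * (D / 8 * n) *
            (c2 / 2 * (1 / n * Real.exp (2 * ε * R ^ 18 - 2 * P))) := by
          field_simp
      _ ≤ T'.card * (W * Real.exp (-((c2 * H + 1) / W))) := by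
          refine mul_le_mul h1 (mul_le_mul h2 h3 (by positivity) hW0.le) (by positivity)
            (Nat.cast_nonneg _)
  have hfin := hnum R ((le_max_left _ _).trans hRR)
  exact absurd (hlow.trans (hcore.trans hup)) (not_le.2 hfin)

end Pool.Agent.W_7d29a1_S90
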