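import Pool.Agent.W_7d29a1_S90.MainR45

/-!
Theorem ORI, assembly (second text), fourth part: the inequality between `R` and `log n`.
-/

namespace Pool.Agent.W_7d29a1_S90

open MeasureTheory ProbabilityTheory Filter Topology Pool.Agent.W_MP_7d29a1_pr
  Pool.Agent.W_7d29a1_h46 Pool.Agent.W_7d29a1_h46u Pool.Agent.W_7d29a1_D2.B35
  Pool.Agent.W_7d29a1_Q29

namespace O45

/-- The constants of the assembly. -/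
structure Cst (c cL CL cr Cr ci η α κ₀ A₃ θ₀ K₀ γ₀ A₂ : ℝ) : Prop where
  c0 : 0 < c
  c1 : c ≤ 1
  cL0 : 0 < cL
  cL1 : cL ≤ 1
  CL0 : 0 ≤ CL
  cr0 : 0 < cr
  cr1 : cr ≤ 1
  Cr0 : 0 ≤ Cr
  ci0 : 0 < ci
  ci1 : ci ≤ 1
  η0 : 0 < η
  η1 : η ≤ 1 / 4
  α0 : 0 ≤ α
  α1 : α < 1
  κ₀0 : 0 < κ₀
  κ₀1 : κ₀ ≤ 1
  κ₀e : κ₀ = c ^ 4 / 524288
  A₃0 : 192 ≤ A₃
  A₃e : A₃ = 192 * (1 + Cr / cr) / (c ^ 2 * ci * κ₀ ^ 2)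
  A₃c : 128 / c ^ 2 ≤ A₃
  θ₀0 : 0 < θ₀
  θ₀1 : θ₀ ≤ 1
  θ₀e : θ₀ = c ^ 4 * η / 1024
  K₀0 : 1 ≤ K₀
  K₀θ : 1 ≤ K₀ * θ₀
  K₀e : K₀ = 23328 * A₃ ^ 2 / (θ₀ * cr ^ 2 * ci ^ 3 * κ₀ ^ 6)
  γ₀0 : 0 < γ₀
  γ₀1 : γ₀ ≤ 1
  γ₀e : γ₀ = ci * κ₀ ^ 4 * θ₀ * (1 - α) / (8 * K₀)
  A₂0 : A₃ ≤ A₂
  A₂e : A₂ = 64 * (cL + CL) / (cL * c ^ 2 * γ₀)

theorem cst45 {c cL CL cr Cr ci η α : ℝ} (c0 : 0 < c) (c1 : c ≤ 1) (cL0 : 0 < cL) (cL1 : cL ≤ 1)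
    (CL0 : 0 ≤ CL) (cr0 : 0 < cr) (cr1 : cr ≤ 1) (Cr0 : 0 ≤ Cr) (ci0 : 0 < ci) (ci1 : ci ≤ 1)
    (η0 : 0 < η) (η1 : η ≤ 1 / 4) (α0 : 0 ≤ α) (α1 : α < 1) :
    ∃ κ₀ A₃ θ₀ K₀ γ₀ A₂ : ℝ, Cst c cL CL cr Cr ci η α κ₀ A₃ θ₀ K₀ γ₀ A₂ := by
  have c2 : c ^ 2 ≤ 1 := pow_le_one₀ c0.le c1
  have c4 : c ^ 4 ≤ 1 := pow_le_one₀ c0.le c1
  set κ₀ := c ^ 4 / 524288 with hκ₀
  have κ₀0 : 0 < κ₀ := by positivity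
  have κ₀1 : κ₀ ≤ 1 := by rw [hκ₀, div_le_one (by norm_num)]; linarith
  set A₃ := 192 * (1 + Cr / cr) / (c ^ 2 * ci * κ₀ ^ 2) with hA₃
  have hden : c ^ 2 * ci * κ₀ ^ 2 ≤ c ^ 2 := by
    have h1 : κ₀ ^ 2 ≤ 1 := pow_le_one₀ κ₀0.le κ₀1
    have h2 : ci * κ₀ ^ 2 ≤ 1 := mul_le_one₀ ci1 (by positivity) h1
    calc c ^ 2 * ci * κ₀ ^ 2 = c ^ 2 * (ci * κ₀ ^ 2) := by ring
      _ ≤ c ^ 2 * 1 := mul_le_mul_of_nonneg_left h2 (by positivity)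
      _ = _ := mul_one _
  have hq : 0 ≤ Cr / cr := by positivity
  have A₃c' : 192 / c ^ 2 ≤ A₃ := by
    rw [hA₃]
    exact div_le_div₀ (by positivity) (by linarith) (by positivity) hden
  have A₃c : 128 / c ^ 2 ≤ A₃ := le_trans (by gcongr; norm_num) A₃c'
  have A₃0 : 192 ≤ A₃ := by
    refine le_trans ?_ A₃c'
    rw [le_div_iff₀ (by positivity)]
    linarith
  set θ₀ := c ^ 4 * η / 1024 with hθ₀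
  have θ₀0 : 0 < θ₀ := by positivity
  have θ₀1 : θ₀ ≤ 1 := by
    rw [hθ₀, div_le_one (by norm_num)]
    nlinarith
  set K₀ := 23328 * A₃ ^ 2 / (θ₀ * cr ^ 2 * ci ^ 3 * κ₀ ^ 6) with hK₀
  have hd2 : cr ^ 2 * ci ^ 3 * κ₀ ^ 6 ≤ 1 :=
    mul_le_one₀ (mul_le_one₀ (pow_le_one₀ cr0.le cr1) (by positivity) (pow_le_one₀ ci0.le ci1))
      (by positivity) (pow_le_one₀ κ₀0.le κ₀1)
  have hA₃2 : A₃ ≤ A₃ ^ 2 := by nlinarith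
  have K₀A : A₃ ≤ K₀ * θ₀ := by
    have h1 : K₀ * θ₀ = 23328 * A₃ ^ 2 / (cr ^ 2 * ci ^ 3 * κ₀ ^ 6) := by
      rw [hK₀]
      field_simp
    rw [h1, le_div_iff₀ (by positivity)]
    have h2 : A₃ * (cr ^ 2 * ci ^ 3 * κ₀ ^ 6) ≤ A₃ * 1 :=
      mul_le_mul_of_nonneg_left hd2 (by linarith)
    linarith
  have K₀θ : 1 ≤ K₀ * θ₀ := by linarith
  have K₀p : 0 < K₀ := by positivity
  have K₀A' : A₃ ≤ K₀ := K₀A.trans (by nlinarith)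
  have K₀0 : 1 ≤ K₀ := by linarith
  set γ₀ := ci * κ₀ ^ 4 * θ₀ * (1 - α) / (8 * K₀) with hγ₀
  have hα' : 0 < 1 - α := by linarith
  have γ₀0 : 0 < γ₀ := by positivity
  have hnum : ci * κ₀ ^ 4 * θ₀ * (1 - α) ≤ 1 :=
    mul_le_one₀ (mul_le_one₀ (mul_le_one₀ ci1 (by positivity) (pow_le_one₀ κ₀0.le κ₀1))
      θ₀0.le θ₀1) hα'.le (by linarith)
  have γ₀K : γ₀ * K₀ ≤ 1 := by
    have : γ₀ * K₀ = ci * κ₀ ^ 4 * θ₀ * (1 - α) / 8 := by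
      rw [hγ₀]
      field_simp
    rw [this]
    linarith
  have γ₀1 : γ₀ ≤ 1 := by nlinarith
  set A₂ := 64 * (cL + CL) / (cL * c ^ 2 * γ₀) with hA₂
  have A₂0 : A₃ ≤ A₂ := by
    refine K₀A'.trans ?_
    rw [hA₂, le_div_iff₀ (by positivity)]
    have h1 : K₀ * (cL * c ^ 2 * γ₀) = γ₀ * K₀ * c ^ 2 * cL := by ring
    rw [h1]
    have h2 : γ₀ * K₀ * c ^ 2 ≤ 1 := mul_le_one₀ γ₀K (by positivity) c2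
    nlinarith
  exact ⟨κ₀, A₃, θ₀, K₀, γ₀, A₂, ⟨c0, c1, cL0, cL1, CL0, cr0, cr1, Cr0, ci0, ci1, η0, η1, α0, α1,
    κ₀0, κ₀1, hκ₀, A₃0, hA₃, A₃c, θ₀0, θ₀1, hθ₀, K₀0, K₀θ, hK₀, γ₀0, γ₀1, hγ₀, A₂0, hA₂⟩⟩

end O45

end Pool.Agent.W_7d29a1_S90
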