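import Pool.Agent.W_7d29a1_S90.MainT45

/-!
Theorem ORI, assembly (second text), fifth part: the core.
-/

namespace Pool.Agent.W_7d29a1_S90

open MeasureTheory ProbabilityTheory Filter Topology Pool.Agent.W_MP_7d29a1_pr
  Pool.Agent.W_7d29a1_h46 Pool.Agent.W_7d29a1_h46u Pool.Agent.W_7d29a1_D2.B35
  Pool.Agent.W_7d29a1_Q29

namespace O45

/-- The information at a time with many good differences. -/
theorem inf45 {ρ : Measure ℝ} {β : ℝ} (hWi : WiT 2 ρ β) (hCo : CsO 2 ρ β) {h h'' e : Vec 2}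
    (he : ‖e‖ = 1) {n t s₀ s₁ : ℕ} {α R ci Ci cr Cr κ κ₀ A₃ θ₀ K₀ k₃ c : ℝ}
    (hIn : ∀ (h : Vec 2) (n t s₀ s₁ : ℕ) (T : Finset ℕ)
      (R a κ K : ℝ), 1 ≤ n → 1 ≤ t → t ≤ n → 1 ≤ s₀ → s₁ < t → 1 ≤ R → 0 < a → 0 < κ → κ ≤ 1 →
      1 ≤ K → 4 * K * s₁ ≤ a * n →
      (∃ m : Vec 2, ∫ η, pe β h η (fun s : Fin n → Step 2 => ‖emb (pos s t) - m‖ ^ 2)
        ∂(law 2 ρ) ≤ R * n) →
      (∀ s ∈ Finset.Icc s₀ s₁, t - s ∈ T → ∃ m : Vec 2,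
        Tl ρ β h n (t - s) t m (Real.sqrt (K * s)) ≤ ci * κ ^ 2) →
      κ ≤ Rp ρ β h n t (Real.sqrt (a * n)) →
        En ρ β h n t (t - 1) ≤ Real.log n + Real.log R + Ci -
          ci * κ ^ 4 / K * ∑ s ∈ (Finset.Icc s₀ s₁).filter (fun s => t - s ∈ T), 1 / (s : ℝ))
    (hn : 1 ≤ n) (hR : 1 ≤ R) (h1t : 1 ≤ t) (htn : t ≤ n) (hαt : (n : ℝ) ^ α ≤ t)
    (hs₀ : 1 ≤ s₀) (hs₀α : (n : ℝ) ^ α ≤ s₀) (hs₁ : s₁ < t)
    (hc : 0 < c) (hci : 0 < ci) (hci1 : ci ≤ 1) (hcr : 0 < cr) (hCr : 0 ≤ Cr)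
    (hκ₀ : 0 < κ₀) (hκ₀1 : κ₀ ≤ 1) (hκ : κ = κ₀ / R ^ 4) (hK₀ : 1 ≤ K₀) (hθ₀ : 0 < θ₀)
    (hK₀e : K₀ = 23328 * A₃ ^ 2 / (θ₀ * cr ^ 2 * ci ^ 3 * κ₀ ^ 6))
    (hA₃e : A₃ = 192 * (1 + Cr / cr) / (c ^ 2 * ci * κ₀ ^ 2))
    (hk₃0 : 0 < k₃) (hk₃ : A₃ * R ^ 9 ≤ n * k₃ ^ 2)
    (hs₁n : 4 * (K₀ * R ^ 50) * s₁ ≤ c ^ 2 / 1024 / R * n) (hW : W0 ρ β h n α R)
    (hS : ∀ t : ℕ, 1 ≤ t → t ≤ n → (n : ℝ) ^ α ≤ t → Sm ρ β h e n t (Ft ρ β h e n t) ≤ R * n ∧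
      Sm ρ β h'' e n t (Ft ρ β h'' e n t) ≤ R * n)
    {T : Finset ℕ} (hT : ∀ τ ∈ T, 1 ≤ τ ∧ τ ≤ n ∧ (n : ℝ) ^ α ≤ τ ∧
      c * k₃ / 4 * n ≤ |Ft ρ β h e n τ - Ft ρ β h'' e n τ| ∧
      ∫ η, ∑ y ∈ boxF 2 n, bw ρ β h h'' n τ cr Cr y η ^ 2 ∂(law 2 ρ) ≤
        96 * A₃ ^ 2 * R ^ 24 / (θ₀ * n))
    (hRp : κ ≤ Rp ρ β h n t (Real.sqrt (c ^ 2 / 1024 / R * n))) :
    En ρ β h n t (t - 1) ≤ Real.log n + Real.log R + Ci -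
      ci * κ ^ 4 / (K₀ * R ^ 50) *
        ∑ s ∈ (Finset.Icc s₀ s₁).filter (fun s => t - s ∈ T), 1 / (s : ℝ) := by
  have hn' : (0 : ℝ) < n := by exact_mod_cast hn
  have hR0 : 0 < R := by linarith
  have hκ0 : 0 < κ := by rw [hκ]; positivity
  have hκ1 : κ ≤ 1 := by
    rw [hκ, div_le_one (by positivity)]
    exact hκ₀1.trans (one_le_pow₀ hR)
  have hK1 : 1 ≤ K₀ * R ^ 50 := by
    have : 1 ≤ R ^ 50 := one_le_pow₀ hR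
    nlinarith
  have hA₃0 : 0 < A₃ := by rw [hA₃e]; positivity
  refine hIn h n t s₀ s₁ T R (c ^ 2 / 1024 / R) κ (K₀ * R ^ 50) hn h1t htn hs₀ hs₁ hR
    (by positivity) hκ0 hκ1 hK1 hs₁n ?_ ?_ hRp
  · obtain ⟨m, hm⟩ := hW n t h1t htn le_rfl hαt
    exact ⟨m, hm.trans (mul_le_mul_of_nonneg_left (by exact_mod_cast htn) hR0.le)⟩
  · intro s hs hsT
    obtain ⟨hs1, hs2⟩ := Finset.mem_Icc.mp hs
    obtain ⟨h1, h2, h3, h4, h5⟩ := hT _ hsT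
    have h6 : ((t - s : ℕ) : ℝ) = (t : ℝ) - s := by rw [Nat.cast_sub (by omega)]
    have h7 : (t : ℝ) - ((t - s : ℕ) : ℝ) = s := by rw [h6]; ring
    set ε := ci * κ ^ 2 with hε
    have hε0 : 0 < ε := by positivity
    have hε1 : ε ≤ 1 := by
      rw [hε]
      exact mul_le_one₀ hci1 (by positivity) (pow_le_one₀ hκ0.le hκ1)
    set L := Real.sqrt (3 * R * n / ε) with hL
    have hL2 : L ^ 2 = 3 * R * n / ε := Real.sq_sqrt (by positivity)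
    have hL1 : 1 ≤ L := by
      rw [hL, Real.one_le_sqrt, one_le_div hε0]
      have : (1 : ℝ) ≤ n := by exact_mod_cast hn
      nlinarith
    have h8 := tl45 (L := L) (r₁ := c * k₃ / 8 * n) (K := K₀ * R ^ 50) (ε := ε) (cr := cr)
      (Cr := Cr) hWi hCo he hR0 h1 (by omega) htn h3
      (by rw [h7]; exact hs₀α.trans (by exact_mod_cast hs1)) hW (hS _ h1 h2 h3).1
      (hS _ h1 h2 h3).2 hcr hCr (by positivity) hL1 (by positivity) hε0.le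
      (le_trans (le_of_eq (by ring)) h4) ?_ ?_ h5 ?_
    · rw [h7] at h8
      exact h8
    · -- the strip
      have h9 : R * n / (c * k₃ / 8 * n) ^ 2 = 64 * R / (c ^ 2 * (n * k₃ ^ 2)) := by
        field_simp
        ring
      rw [h9]
      have h10 : 64 * R / (c ^ 2 * (n * k₃ ^ 2)) ≤ 64 * R / (c ^ 2 * (A₃ * R ^ 9)) := by
        gcongr
      refine (mul_le_mul_of_nonneg_left h10 (by positivity)).trans (le_of_eq ?_)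
      rw [hε, hκ, hA₃e]
      field_simp
      ring
    · rw [hL2]
      refine le_of_eq ?_
      field_simp
    · -- the third term
      have h11 : 96 * A₃ ^ 2 * R ^ 24 / (θ₀ * n) * ((3 * L) ^ 2 * (R / (K₀ * R ^ 50))) =
          (cr * (ε / 3)) ^ 2 := by
        rw [mul_pow, hL2, hK₀e, hε, hκ]
        field_simp
        ring
      exact h11.le

end O45

end Pool.Agent.W_7d29a1_S90
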