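import Pool.Agent.W_7d29a1_S90.MainU45

/-!
Theorem ORI, assembly (second text), last part.
-/

namespace Pool.Agent.W_7d29a1_S90

open MeasureTheory ProbabilityTheory Filter Topology Pool.Agent.W_MP_7d29a1_pr
  Pool.Agent.W_7d29a1_h46 Pool.Agent.W_7d29a1_h46u Pool.Agent.W_7d29a1_D2.B35
  Pool.Agent.W_7d29a1_Q29

namespace O45

/-- The inequality between `R` and `log n`. -/
theorem coreO45 {ρ : Measure ℝ} [IsProbabilityMeasure ρ] {β : ℝ} (hCa : CaT 2 ρ β)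
    (hCs : CsT 2 ρ β) (hCo : CsO 2 ρ β) (hKc : KcT 2 ρ β) (hKs : KsT 2 ρ β) (hIn : InO ρ β)
    (hLo : LoV 2 ρ β) (hRl : RlV 2 ρ β) (hWi : WiT 2 ρ β) (hSt : StM 2 ρ β) (hVu : VuT 2 ρ β)
    (hJe : JeT) (hAs : AsO) (hSe : SeT) {h e : Vec 2} (he : ‖e‖ = 1) {l α D : ℝ} (hl : 0 < l)
    (hα0 : 0 ≤ α) (hα : α < 1) (hD : 0 < D) (hD1 : D ≤ 1) (hDl : D ≤ 4 * l) {N₀ : ℕ}
    (hDr : ∀ n : ℕ, N₀ ≤ n → D * n ≤ Ft ρ β (h + l • e) e n n - Ft ρ β h e n n) :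
    ∃ c₁ C₁ B : ℝ, 0 < c₁ ∧ 0 ≤ C₁ ∧ 0 ≤ B ∧ ∀ (n : ℕ) (R : ℝ), N₀ ≤ n → 1 ≤ n → 1 ≤ R →
      (n : ℝ) ^ α ≤ n / 2 → B * R ^ 71 ≤ n →
      (∀ s ∈ Set.Icc (0 : ℝ) l, W0 ρ β (h + s • e) n α R) →
        c₁ / R ^ 70 * Real.log n ≤ C₁ * (1 + Real.log R) := by
  obtain ⟨cL, CL, hcL, hcL1, hCL, hLo⟩ := hLo
  obtain ⟨cr, Cr, hcr, hcr1, hCr, hRl⟩ := hRl
  obtain ⟨ci, Ci, hci, hci1, hCi, hIn⟩ := hIn
  obtain ⟨c, hc⟩ : ∃ c : ℝ, c = D / (4 * l) := ⟨_, rfl⟩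
  have hc0 : 0 < c := by rw [hc]; positivity
  have hc1 : c ≤ 1 := by rw [hc, div_le_one (by positivity)]; exact hDl
  obtain ⟨ηc, hη⟩ : ∃ η : ℝ, η = D / 4 := ⟨_, rfl⟩
  have hη0 : 0 < ηc := by rw [hη]; positivity
  have hη1 : ηc ≤ 1 / 4 := by rw [hη]; linarith
  obtain ⟨κ₀, A₃, θ₀, K₀, γ₀, A₂, q⟩ := cst45 hc0 hc1 hcL hcL1 hCL hcr hcr1 hCr hci hci1 hη0 hη1
    hα0 hα
  have hA₃0 : 0 < A₃ := by linarith [q.A₃0]
  have hA₂1 : 1 ≤ A₂ := by linarith [q.A₃0, q.A₂0]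
  have hA₂0 : 0 < A₂ := by linarith
  have hK₀0 : 0 < K₀ := by linarith [q.K₀0]
  have hγ₀0 := q.γ₀0
  have hθ₀0 := q.θ₀0
  have hκ₀0 := q.κ₀0
  obtain ⟨KK, hKK⟩ : ∃ K : ℝ, K = 8192 * K₀ / c ^ 2 := ⟨_, rfl⟩
  have hKK0 : 0 < KK := by rw [hKK]; positivity
  refine ⟨γ₀ / 2, 2 * (Ci + 1 + |Real.log KK| + 52) + 2 / cL +
    (|Real.log (192 * A₂ ^ 2 / (θ₀ * cL))| + 148), A₂ / l ^ 2, by positivity, by positivity,
    by positivity, ?_⟩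
  intro n R hnN hn hR hαn hB hW
  have hn' : (0 : ℝ) < n := by exact_mod_cast hn
  have hn1 : (1 : ℝ) ≤ n := by exact_mod_cast hn
  have hR0 : 0 < R := by linarith
  have hlR : 0 ≤ Real.log R := Real.log_nonneg hR
  have hLL : 0 ≤ Real.log n := Real.log_nonneg hn1
  have hαn' : (n : ℝ) ^ α ≤ n := by linarith
  obtain ⟨γ, hγ⟩ : ∃ γ : ℝ, γ = γ₀ / R ^ 70 := ⟨_, rfl⟩
  have hγ0 : 0 < γ := by rw [hγ]; positivity
  have hγ1 : γ ≤ 1 := by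
    rw [hγ, div_le_one (by positivity)]
    exact q.γ₀1.trans (one_le_pow₀ hR)
  obtain ⟨κ, hκ⟩ : ∃ κ : ℝ, κ = κ₀ / R ^ 4 := ⟨_, rfl⟩
  have hκ0 : 0 < κ := by rw [hκ]; positivity
  have hκ1 : κ ≤ 1 := by
    rw [hκ, div_le_one (by positivity)]
    exact q.κ₀1.trans (one_le_pow₀ hR)
  -- the three scales
  obtain ⟨a₁, ha₁⟩ : ∃ a : ℝ, a = Real.sqrt (128 * R) / c := ⟨_, rfl⟩
  have ha₁0 : 0 < a₁ := by rw [ha₁]; positivity
  have ha₁2 : a₁ ^ 2 = 128 * R / c ^ 2 := by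
    rw [ha₁, div_pow, Real.sq_sqrt (by positivity)]
  obtain ⟨a₃, ha₃⟩ : ∃ a : ℝ, a = Real.sqrt (A₃ * R ^ 9) := ⟨_, rfl⟩
  have ha₃0 : 0 < a₃ := by rw [ha₃]; positivity
  have ha₃2 : a₃ ^ 2 = A₃ * R ^ 9 := by rw [ha₃]; exact Real.sq_sqrt (by positivity)
  obtain ⟨a₂, ha₂⟩ : ∃ a : ℝ, a = Real.sqrt (A₂ * R ^ 71) := ⟨_, rfl⟩
  have ha₂0 : 0 < a₂ := by rw [ha₂]; positivity
  have ha₂2 : a₂ ^ 2 = A₂ * R ^ 71 := by rw [ha₂]; exact Real.sq_sqrt (by positivity)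
  have h9 : R ^ 9 ≤ R ^ 71 := pow_le_pow_right₀ hR (by norm_num)
  have haa : a₃ ≤ a₂ := by
    rw [ha₃, ha₂]
    exact Real.sqrt_le_sqrt (mul_le_mul q.A₂0 h9 (by positivity) (by positivity))
  have ha13 : a₁ ^ 2 ≤ a₃ ^ 2 := by
    rw [ha₁2, ha₃2]
    have h1 : R ≤ R ^ 9 := le_self_pow₀ hR (by norm_num)
    calc 128 * R / c ^ 2 = 128 / c ^ 2 * R := by ring
      _ ≤ A₃ * R ^ 9 := mul_le_mul q.A₃c h1 hR0.le hA₃0.le
  have hal : a₂ ^ 2 ≤ l ^ 2 * n := by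
    rw [ha₂2]
    rw [div_mul_eq_mul_div, div_le_iff₀ (by positivity)] at hB
    linarith
  obtain ⟨k, J, A', hk, hA, hJ, hk1, hk2, hk3, hk4⟩ := grids45 hn hl ha₃0 haa hal
  have hA'0 : (0 : ℝ) < A' := by exact_mod_cast hA
  have hkA : 0 < k / A' := by positivity
  obtain ⟨B', hB', hk5, hk6⟩ := sub45 hn hkA ha₁0 (ha13.trans hk3)
  -- late times
  obtain ⟨T, hT, hTc, hTn, hT1⟩ := late45 hn hη0 hη1
  have hn34' : 3 / 4 * (n : ℝ) ≤ (1 - ηc) * n :=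
    mul_le_mul_of_nonneg_right (by linarith) hn'.le
  have hn34 : (n : ℝ) / 2 ≤ (1 - ηc) * n := by linarith
  have hT2 : ∀ t ∈ T, 1 ≤ t ∧ t ≤ n ∧ (n : ℝ) ^ α ≤ t := by
    intro t ht
    obtain ⟨h1, h2, h3⟩ := hT1 t ht
    exact ⟨h1, h2, hαn.trans (le_trans hn34 h3)⟩
  have hS : SmH ρ β h e n l α R := by
    intro s hs t h1 h2 h3
    exact (hCo (h + s • e) e n n t α R he h1 h2 le_rfl h3 hR0.le (hW s hs)).1.trans
      (mul_le_mul_of_nonneg_left (by exact_mod_cast h2) hR0.le)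
  have hT3 : ∀ t ∈ T, 2 * c * l * n ≤ Ft ρ β (h + l • e) e n t - Ft ρ β h e n t := by
    intro t ht
    obtain ⟨h1, h2, h3⟩ := hT1 t ht
    have h4 := hDr n hnN
    have h5 := (hCs (h + l • e) e n t h2).2.2.2.1 he
    have h6 := (hCs h e n t h2).2.2.2.1 he
    rw [abs_le] at h5 h6
    have h7 : 2 * c * l * n = D / 2 * n := by
      rw [hc]
      field_simp
      ring
    have h8 : (1 - ηc) * n = n - D / 4 * n := by rw [hη]; ring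
    rw [h8] at h3
    rw [h7]
    linarith [h5.1, h5.2, h6.1, h6.2]
  obtain ⟨s, hs, s', hs', s'', hs'', hss, hss', T', hT', hcard, hgood⟩ := pickO45 (A := A')
    (B := B') hCa hCs hKc hKs hAs he hn hR hl hc0 hc1 hk hA hB' hJ hS
    (by
      have h1 := mul_le_mul_of_nonneg_left hk5 (by positivity : 0 ≤ c ^ 2)
      refine le_trans (le_of_eq ?_) h1
      rw [ha₁2]
      field_simp)
    (by
      have h1 := mul_le_mul_of_nonneg_left hk6 (by positivity : 0 ≤ c ^ 2)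
      refine h1.trans (le_of_eq ?_)
      rw [ha₁2]
      field_simp
      ring)
    hT hT2 hT3
  -- the number of times
  have hM : θ₀ / R ^ 4 * n ≤ (T'.card : ℝ) := by
    refine le_trans (le_trans (le_of_eq ?_) (mul_le_mul_of_nonneg_left hTc
      (by positivity : 0 ≤ c ^ 4 / (1024 * R ^ 4)))) hcard
    rw [q.θ₀e]
    field_simp
  have hM0 : (0 : ℝ) < T'.card := lt_of_lt_of_le (by positivity) hM
  have hT'ne : T'.Nonempty := Finset.card_pos.mp (by exact_mod_cast hM0)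
  -- the two sums
  have hup2 := up45 hCa hCs hVu hn hαn' hR hS hs hs' hss hk2
  have hup3 := up45 hCa hCs hVu hn hαn' hR hS hs hs'' hss'
    (show (k / A') ^ 2 * (n : ℝ) ≤ 4 * a₃ ^ 2 by rw [mul_comm]; exact hk4)
  have hTsub : T' ⊆ Finset.Icc 1 n := hT'.trans hTn
  have hf := (hRl (h + s • e) (h + s'' • e) n T' hTsub).trans hup3
  have hg := (hLo (h + s • e) (h + s' • e) n T' hTsub).trans hup2
  have hV3 : 8 * a₃ ^ 2 * R + 16 * R ^ 2 * a₃ ^ 4 ≤ 24 * A₃ ^ 2 * R ^ 20 := by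
    rw [ha₃]
    exact var45 (p := 9) hR (by linarith [q.A₃0])
  have hV2 : 8 * a₂ ^ 2 * R + 16 * R ^ 2 * a₂ ^ 4 ≤ 24 * A₂ ^ 2 * R ^ 144 := by
    rw [ha₂]
    exact var45 (p := 71) hR hA₂1
  obtain ⟨T₃, hT₃, hT₃c, hT₃g⟩ := half45 hT'ne
    (V := 8 * a₃ ^ 2 * R + 16 * R ^ 2 * a₃ ^ 4) (W := 8 * a₂ ^ 2 * R + 16 * R ^ 2 * a₂ ^ 4)
    (by positivity) (by positivity)
    (fun t _ => integral_nonneg fun η => Finset.sum_nonneg fun y _ => sq_nonneg _)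
    (fun t _ => integral_nonneg fun η => Finset.sum_nonneg fun y _ => sq_nonneg _) hf hg
  have hT₃c' : θ₀ / (2 * R ^ 4) * n ≤ (T₃.card : ℝ) := by
    refine le_trans (le_trans (le_of_eq ?_) (div_le_div_of_nonneg_right hM zero_le_two)) hT₃c
    field_simp
  have hT₃ne : T₃.Nonempty := by
    have : (0 : ℝ) < T₃.card := lt_of_lt_of_le (by positivity) hT₃c'
    exact Finset.card_pos.mp (by exact_mod_cast this)
  -- the differences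
  obtain ⟨s₀, hs₀⟩ : ∃ s₀ : ℕ, s₀ = ⌈(n : ℝ) ^ α⌉₊ := ⟨_, rfl⟩
  have hnα1 : 1 ≤ (n : ℝ) ^ α := Real.one_le_rpow hn1 hα0
  have hs₀1 : 1 ≤ s₀ := by
    rw [hs₀]
    exact Nat.one_le_ceil_iff.mpr (by linarith)
  have hs₀α : (n : ℝ) ^ α ≤ s₀ := by rw [hs₀]; exact Nat.le_ceil _
  have hs₀2 : (s₀ : ℝ) ≤ 2 * (n : ℝ) ^ α := by
    have := Nat.ceil_lt_add_one (show 0 ≤ (n : ℝ) ^ α by linarith)
    rw [hs₀]
    linarith
  obtain ⟨x, hx⟩ : ∃ x : ℝ, x = c ^ 2 / 1024 / R * n / (4 * (K₀ * R ^ 50)) := ⟨_, rfl⟩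
  have hx0 : 0 ≤ x := by rw [hx]; positivity
  obtain ⟨s₁, hs₁⟩ : ∃ s₁ : ℕ, s₁ = ⌊x⌋₊ := ⟨_, rfl⟩
  have hs₁x : (s₁ : ℝ) ≤ x := by rw [hs₁]; exact Nat.floor_le hx0
  have hs₁x' : x < (s₁ : ℝ) + 1 := by rw [hs₁]; exact Nat.lt_floor_add_one x
  have hc2 : c ^ 2 ≤ 1 := pow_le_one₀ hc0.le hc1
  have hx1 : x ≤ θ₀ / (4 * R ^ 4) * n := by
    rw [hx, div_le_iff₀ (by positivity)]
    have h1 : c ^ 2 / 1024 / R ≤ 1 := by
      rw [div_div, div_le_one (by positivity)]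
      linarith
    have h2 : 1 ≤ K₀ * θ₀ * R ^ 46 := one_le_mul_of_one_le_of_one_le q.K₀θ (one_le_pow₀ hR)
    calc c ^ 2 / 1024 / R * n ≤ 1 * n := mul_le_mul_of_nonneg_right h1 hn'.le
      _ ≤ K₀ * θ₀ * R ^ 46 * n := mul_le_mul_of_nonneg_right h2 hn'.le
      _ = θ₀ / (4 * R ^ 4) * n * (4 * (K₀ * R ^ 50)) := by
          field_simp
  have hs₁T : 2 * s₁ ≤ T₃.card := by
    have h1 : (2 : ℝ) * s₁ ≤ T₃.card := by
      refine le_trans ?_ hT₃c'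
      calc (2 : ℝ) * s₁ ≤ 2 * (θ₀ / (4 * R ^ 4) * n) := by linarith
        _ = _ := by field_simp; ring
    exact_mod_cast h1
  have hT₃1 : ∀ τ ∈ T₃, 1 ≤ τ ∧ τ ≤ n ∧ (n : ℝ) ^ α ≤ τ := fun τ hτ => hT2 τ (hT' (hT₃ hτ))
  obtain ⟨t, ht, hsum⟩ := hSe n s₀ s₁ (θ₀ / (2 * R ^ 4)) T₃ hs₀1 (by positivity)
    (hT₃.trans hTsub) hT₃ne hT₃c' hs₁T
  obtain ⟨h1t, htn, htα⟩ := hT₃1 t ht
  have htl : (1 - ηc) * n ≤ t := (hT1 t (hT' (hT₃ ht))).2.2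
  have hs₁t : s₁ < t := by
    have h1 : x ≤ 1 / 4 * n := by
      refine hx1.trans (mul_le_mul_of_nonneg_right ?_ hn'.le)
      rw [div_le_div_iff₀ (by positivity) (by norm_num)]
      have := one_le_pow₀ (n := 4) hR
      linarith [q.θ₀1]
    have h2 : (s₁ : ℝ) < t := by linarith
    exact_mod_cast h2
  have hfilter : (Finset.Icc s₀ s₁).filter (fun s => s < t ∧ t - s ∈ T₃) =
      (Finset.Icc s₀ s₁).filter (fun s => t - s ∈ T₃) := by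
    refine Finset.filter_congr fun s hs => ?_
    have := (Finset.mem_Icc.mp hs).2
    exact ⟨fun h => h.2, fun h => ⟨by omega, h⟩⟩
  rw [hfilter] at hsum
  obtain ⟨hg1, hg2, hg3⟩ := hgood t (hT₃ ht)
  have hκe : c ^ 4 / (524288 * R ^ 4) = κ := by
    rw [hκ, q.κ₀e]
    field_simp
  rw [hκe] at hg1
  have hFb : ∀ τ ∈ T₃, 4 * (8 * a₃ ^ 2 * R + 16 * R ^ 2 * a₃ ^ 4) / (T'.card : ℝ) ≤
      96 * A₃ ^ 2 * R ^ 24 / (θ₀ * n) := by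
    intro τ _
    calc 4 * (8 * a₃ ^ 2 * R + 16 * R ^ 2 * a₃ ^ 4) / (T'.card : ℝ)
        ≤ 4 * (24 * A₃ ^ 2 * R ^ 20) / (θ₀ / R ^ 4 * n) := by gcongr
      _ = 96 * A₃ ^ 2 * R ^ 24 / (θ₀ * n) := by
          field_simp
          ring
  have hEn := inf45 (c := c) (k₃ := k / A') (A₃ := A₃) (θ₀ := θ₀) (K₀ := K₀) (κ := κ) (κ₀ := κ₀)
    (s₀ := s₀) (s₁ := s₁) (α := α) (h'' := h + s'' • e) (h := h + s • e) hWi hCo he hIn hn hR h1t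
    htn htα hs₀1 hs₀α hs₁t hc0 hci hci1 hcr hCr hκ₀0 q.κ₀1 hκ q.K₀0 hθ₀0 q.K₀e q.A₃e hkA
    (by rw [← ha₃2]; exact hk3)
    (by
      rw [hx, le_div_iff₀ (by positivity)] at hs₁x
      linarith)
    (hW s hs) (fun t h1 h2 h3 => ⟨hS s hs t h1 h2 h3, hS s'' hs'' t h1 h2 h3⟩)
    (T := T₃) (fun τ hτ => by
      obtain ⟨h1, h2, h3⟩ := hT₃1 τ hτ
      exact ⟨h1, h2, h3, (hgood τ (hT₃ hτ)).2.2, (hT₃g τ hτ).1.trans (hFb τ hτ)⟩) hg1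
  have hq0 : 0 ≤ ci * κ ^ 4 / (K₀ * R ^ 50) := by positivity
  have hKR : 1 ≤ K₀ * R ^ 50 := one_le_mul_of_one_le_of_one_le q.K₀0 (one_le_pow₀ hR)
  have hq1 : ci * κ ^ 4 / (K₀ * R ^ 50) ≤ 1 := by
    rw [div_le_one (by positivity)]
    exact (mul_le_one₀ hci1 (by positivity) (pow_le_one₀ hκ0.le hκ1)).trans hKR
  have hth1 : θ₀ / (2 * R ^ 4) ≤ 1 := by
    rw [div_le_one (by positivity)]
    have := one_le_pow₀ (n := 4) hR
    linarith [q.θ₀1]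
  have ha1 : c ^ 2 / 1024 / R ≤ 1 := by
    rw [div_div, div_le_one (by positivity)]
    linarith
  have hinfo := info45 (Ln := Real.log n) (lR := Real.log R) (Ci := Ci)
    (q := ci * κ ^ 4 / (K₀ * R ^ 50)) (θ := θ₀ / (2 * R ^ 4)) (α := α)
    (l1 := Real.log ((s₁ : ℝ) + 1)) (l0 := Real.log s₀) (a := c ^ 2 / 1024 / R)
    (K := K₀ * R ^ 50) hq0 hq1 (by positivity) hth1 hKR (by positivity) ha1 hsum
    (by
      rw [← Real.log_rpow hn', ← Real.log_mul (by norm_num) (by positivity)]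
      exact Real.log_le_log (by exact_mod_cast hs₀1) hs₀2)
    (by
      have h1 : Real.log n + Real.log (c ^ 2 / 1024 / R) - Real.log (4 * (K₀ * R ^ 50)) =
          Real.log x := by
        have hne1 : c ^ 2 / 1024 / R * n ≠ 0 := by positivity
        have hne2 : 4 * (K₀ * R ^ 50) ≠ 0 := by positivity
        have hne3 : c ^ 2 / 1024 / R ≠ 0 := by positivity
        rw [hx, Real.log_div hne1 hne2, Real.log_mul hne3 hn'.ne']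
        ring
      rw [h1]
      exact Real.log_le_log (by rw [hx]; positivity) hs₁x'.le)
    hEn
  have hγe : ci * κ ^ 4 / (K₀ * R ^ 50) * (θ₀ / (2 * R ^ 4)) * (1 - α) / 4 = γ := by
    rw [hγ, q.γ₀e, hκ]
    field_simp
    ring
  rw [hγe] at hinfo
  obtain ⟨E, hE⟩ : ∃ E : ℝ, E = Real.log R + Ci + 1 +
    Real.log (8 * (K₀ * R ^ 50) / (c ^ 2 / 1024 / R)) := ⟨_, rfl⟩
  rw [← hE] at hinfo
  have hlogK : Real.log (8 * (K₀ * R ^ 50) / (c ^ 2 / 1024 / R)) =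
      Real.log KK + 51 * Real.log R := by
    have h1 : 8 * (K₀ * R ^ 50) / (c ^ 2 / 1024 / R) = KK * R ^ 51 := by
      rw [hKK]
      field_simp
      ring
    rw [h1, Real.log_mul hKK0.ne' (by positivity), Real.log_pow]
    norm_num
  have hlogK0 : 0 ≤ Real.log (8 * (K₀ * R ^ 50) / (c ^ 2 / 1024 / R)) := by
    refine Real.log_nonneg ?_
    rw [one_le_div (by positivity)]
    linarith
  have hE0 : 0 ≤ E := by rw [hE]; positivity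
  have hlow := low45 (by norm_num) hJe hSt he h1t htn (k := k) (R := R) (γ := γ)
    (L := Real.log n) (E := E) hcL hcL1 hCL hc0 hk hγ0 hγ1 hLL hE0
    (hS s hs t h1t htn htα) (hS s' hs' t h1t htn htα) hg2
    (by
      have h12 : cL * c ^ 2 * γ * (A₂ * R ^ 71) = 64 * R * (cL + CL) := by
        rw [hγ, q.A₂e]
        field_simp
      rw [← h12, ← ha₂2]
      exact mul_le_mul_of_nonneg_left hk1 (by positivity))
    hinfo
  have hfin := logsO45 hn hR hγ hcL hA₂0 hθ₀0 hM hV2 (hlow.trans (hT₃g t ht).2)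
  refine hfin.trans ?_
  rw [hE, hlogK]
  have h16 : Real.log KK ≤ |Real.log KK| := le_abs_self _
  have h17 : 0 ≤ |Real.log KK| := abs_nonneg _
  have h18 : 0 ≤ 2 / cL := by positivity
  have h19 : 0 ≤ |Real.log (192 * A₂ ^ 2 / (θ₀ * cL))| := abs_nonneg _
  linarith [mul_nonneg hCi hlR, mul_nonneg h17 hlR, mul_nonneg h18 hlR, mul_nonneg h19 hlR]

end O45

end Pool.Agent.W_7d29a1_S90
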