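import Pool.Agent.W_7d29a1_S90.DefsO28

/-!
Theorem ORI, leaf O6: a set of times of density `θ` contains a time `t` with many differences.
-/

namespace Pool.Agent.W_7d29a1_S90

open Finset

/-- The number of elements of `T` up to `x`. -/
theorem cnt28 (T : Finset ℕ) (x : ℕ) : ((T.filter (· ≤ x + 1)).card : ℝ) =
    (T.filter (· ≤ x)).card + if x + 1 ∈ T then 1 else 0 := by
  split_ifs with h
  · have h0 : T.filter (· ≤ x + 1) = insert (x + 1) (T.filter (· ≤ x)) := by
      ext y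
      simp only [mem_filter, mem_insert]
      constructor
      · rintro ⟨h1, h2⟩
        rcases Nat.lt_or_ge x y with h3 | h3
        · left
          omega
        · right
          exact ⟨h1, h3⟩
      · rintro (h1 | ⟨h1, h2⟩)
        · subst h1
          exact ⟨h, le_rfl⟩
        · exact ⟨h1, by omega⟩
    rw [h0, card_insert_of_notMem (by simp)]
    push_cast
    ring
  · have h0 : T.filter (· ≤ x + 1) = T.filter (· ≤ x) := by
      ext y
      simp only [mem_filter]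
      constructor
      · rintro ⟨h1, h2⟩
        refine ⟨h1, ?_⟩
        rcases Nat.lt_or_ge x y with h3 | h3
        · exfalso
          apply h
          have h4 : y = x + 1 := by omega
          rwa [← h4]
        · exact h3
      · rintro ⟨h1, h2⟩
        exact ⟨h1, by omega⟩
    rw [h0]
    simp

/-- The last record of the counting function above the line of half the density. -/
theorem rec28 {n : ℕ} {T : Finset ℕ} (hT : T ⊆ Icc 1 n) (hne : T.Nonempty) :
    ∃ t ∈ T, (T.card : ℝ) / 2 < t ∧ ∀ x : ℕ, x ≤ t →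
      (T.card : ℝ) / (2 * n) * ((t : ℝ) - x) ≤
        ((T.filter (· ≤ t)).card : ℝ) - (T.filter (· ≤ x)).card := by
  have hc : (0 : ℝ) < T.card := by exact_mod_cast hne.card_pos
  have hn : 1 ≤ n := by
    obtain ⟨y, hy⟩ := hne
    have := mem_Icc.1 (hT hy)
    omega
  have hn' : (0 : ℝ) < n := by exact_mod_cast hn
  obtain ⟨q, hq⟩ : ∃ q : ℝ, q = (T.card : ℝ) / (2 * n) := ⟨_, rfl⟩
  have hq0 : 0 < q := by rw [hq]; positivity
  obtain ⟨t, ht, hmax⟩ := exists_max_image (range (n + 1))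
    (fun x : ℕ => ((T.filter (· ≤ x)).card : ℝ) - q * x) ⟨0, by simp⟩
  rw [mem_range] at ht
  have hcn : T.filter (· ≤ n) = T := filter_true_of_mem fun y hy => (mem_Icc.1 (hT hy)).2
  have hc0 : T.filter (· ≤ 0) = ∅ := by
    rw [filter_eq_empty_iff]
    intro y hy
    have := mem_Icc.1 (hT hy)
    omega
  have h1 : (T.card : ℝ) / 2 ≤ ((T.filter (· ≤ t)).card : ℝ) - q * t := by
    have h2 := hmax n (by simp)
    simp only [hcn] at h2
    have h3 : q * n = (T.card : ℝ) / 2 := by rw [hq]; field_simp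
    linarith
  have ht0 : t ≠ 0 := by
    intro h0
    rw [h0, hc0] at h1
    simp at h1
    linarith
  have hcard : ((T.filter (· ≤ t)).card : ℝ) ≤ t := by
    have h2 : T.filter (· ≤ t) ⊆ Icc 1 t := by
      intro y hy
      rw [mem_filter] at hy
      exact mem_Icc.2 ⟨(mem_Icc.1 (hT hy.1)).1, hy.2⟩
    have h3 := card_le_card h2
    rw [Nat.card_Icc] at h3
    exact_mod_cast h3
  have ht1 : (0 : ℝ) < t := by exact_mod_cast Nat.pos_of_ne_zero ht0
  refine ⟨t, ?_, ?_, ?_⟩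
  · by_contra hcon
    obtain ⟨x, rfl⟩ := Nat.exists_eq_succ_of_ne_zero ht0
    have h2 := hmax x (by rw [mem_range]; omega)
    have h3 := cnt28 T x
    rw [Nat.succ_eq_add_one] at h2 hcon
    rw [if_neg hcon] at h3
    rw [h3] at h2
    push_cast at h2
    linarith
  · have : 0 < q * t := by positivity
    linarith
  · intro x hx
    have h2 := hmax x (by rw [mem_range]; omega)
    rw [← hq]
    linarith

/-- The number of the differences up to `k`. -/
theorem dif28 {T : Finset ℕ} {t : ℕ} (ht : t ∈ T) : ∀ k : ℕ, k + 1 ≤ t →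
    1 + ∑ s ∈ Icc 1 k, (if s < t ∧ t - s ∈ T then (1 : ℝ) else 0) =
      ((T.filter (· ≤ t)).card : ℝ) - (T.filter (· ≤ t - (k + 1))).card := by
  intro k
  induction k with
  | zero =>
    intro h
    obtain ⟨x, rfl⟩ : ∃ x, t = x + 1 := ⟨t - 1, by omega⟩
    have h1 := cnt28 T x
    rw [if_pos ht] at h1
    simp only [zero_add, Nat.add_sub_cancel]
    rw [h1]
    simp
  | succ k ih =>
    intro h
    have h1 := ih (by omega)
    obtain ⟨x, hx⟩ : ∃ x, t - (k + 1) = x + 1 := ⟨t - (k + 1) - 1, by omega⟩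
    have h2 : t - (k + 1 + 1) = x := by omega
    rw [sum_Icc_succ_top (by omega), h2, ← add_assoc, h1, hx, cnt28 T x]
    have h3 : (k + 1 < t ∧ x + 1 ∈ T) ↔ x + 1 ∈ T := ⟨fun h => h.2, fun h => ⟨by omega, h⟩⟩
    simp only [h3]
    ring

/-- Leaf O6. -/
theorem seT28 : SeT := by
  intro n s₀ s₁ θ T hs₀ hθ hT hne hθn hs₁
  obtain ⟨t, ht, ht1, htx⟩ := rec28 hT hne
  have hn : 1 ≤ n := by
    obtain ⟨y, hy⟩ := hne
    have := mem_Icc.1 (hT hy)
    omega
  have hn' : (0 : ℝ) < n := by exact_mod_cast hn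
  have hst : s₁ < t := by
    have h1 : (2 : ℝ) * s₁ ≤ T.card := by exact_mod_cast hs₁
    have h2 : (s₁ : ℝ) < t := by linarith
    exact_mod_cast h2
  have hq : θ / 2 ≤ (T.card : ℝ) / (2 * n) := by
    rw [le_div_iff₀ (by positivity)]
    linarith
  refine ⟨t, ht, ?_⟩
  obtain ⟨m, rfl⟩ : ∃ m, s₀ = m + 1 := ⟨s₀ - 1, by omega⟩
  have hsum0 : 0 ≤ ∑ s ∈ (Icc (m + 1) s₁).filter (fun s => s < t ∧ t - s ∈ T), 1 / (s : ℝ) :=
    sum_nonneg fun s _ => by positivity
  rcases Nat.lt_or_ge s₁ m with hm | hm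
  · have h1 : Real.log ((s₁ : ℝ) + 1) ≤ Real.log ((m + 1 : ℕ) : ℝ) := by
      refine Real.log_le_log (by positivity) ?_
      push_cast
      have : (s₁ : ℝ) ≤ m := by exact_mod_cast hm.le
      linarith
    have h2 : θ / 4 * (Real.log ((s₁ : ℝ) + 1) - Real.log ((m + 1 : ℕ) : ℝ)) ≤ 0 :=
      mul_nonpos_of_nonneg_of_nonpos (by positivity) (by linarith)
    linarith
  have hind : ∀ k : ℕ, m ≤ k → k < t →
      (∑ s ∈ Icc 1 k, (if s < t ∧ t - s ∈ T then (1 : ℝ) else 0)) / ((k : ℝ) + 1) - 1 +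
        1 / ((k : ℝ) + 1) + θ / 2 * (Real.log ((k : ℝ) + 1) - Real.log ((m : ℝ) + 1)) ≤
        ∑ s ∈ Icc (m + 1) k, (if s < t ∧ t - s ∈ T then 1 / (s : ℝ) else 0) := by
    intro k hk
    induction k, hk using Nat.le_induction with
    | base =>
      intro _
      have h1 : ∑ s ∈ Icc 1 m, (if s < t ∧ t - s ∈ T then (1 : ℝ) else 0) ≤ m := by
        calc ∑ s ∈ Icc 1 m, (if s < t ∧ t - s ∈ T then (1 : ℝ) else 0)
            ≤ ∑ s ∈ Icc 1 m, (1 : ℝ) := sum_le_sum fun s _ => by split_ifs <;> norm_num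
          _ = m := by simp
      have h2 : Icc (m + 1) m = ∅ := Icc_eq_empty (by omega)
      rw [h2, sum_empty, sub_self, mul_zero, add_zero]
      have h3 : (0 : ℝ) < (m : ℝ) + 1 := by positivity
      have h4 : (∑ s ∈ Icc 1 m, (if s < t ∧ t - s ∈ T then (1 : ℝ) else 0)) / ((m : ℝ) + 1) ≤
          m / ((m : ℝ) + 1) := div_le_div_of_nonneg_right h1 h3.le
      have h5 : (m : ℝ) / ((m : ℝ) + 1) + 1 / ((m : ℝ) + 1) = 1 := by
        rw [← add_div, div_self h3.ne']
      linarith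
    | succ k hk ih =>
      intro hkt
      have h1 := ih (by omega)
      have hd := dif28 ht (k + 1) (by omega)
      have hx := htx (t - (k + 1 + 1)) (Nat.sub_le _ _)
      rw [← hd] at hx
      have h2 : ((t : ℝ) - ((t - (k + 1 + 1) : ℕ) : ℝ)) = (k : ℝ) + 2 := by
        have h3 : ((t - (k + 1 + 1) : ℕ) : ℝ) = (t : ℝ) - ((k + 1 + 1 : ℕ) : ℝ) :=
          Nat.cast_sub (by omega)
        rw [h3]
        push_cast
        ring
      rw [h2] at hx
      have h4 : θ / 2 * ((k : ℝ) + 2) ≤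
          1 + ∑ s ∈ Icc 1 (k + 1), (if s < t ∧ t - s ∈ T then (1 : ℝ) else 0) :=
        (mul_le_mul_of_nonneg_right hq (by positivity)).trans hx
      rw [sum_Icc_succ_top (by omega)] at h4 ⊢
      rw [sum_Icc_succ_top (show m + 1 ≤ k + 1 by omega)]
      obtain ⟨S, hS⟩ : ∃ S : ℝ, S = ∑ s ∈ Icc 1 k, (if s < t ∧ t - s ∈ T then (1 : ℝ) else 0) :=
        ⟨_, rfl⟩
      rw [← hS] at h1 h4 ⊢
      have h5 : (if k + 1 < t ∧ t - (k + 1) ∈ T then 1 / ((k + 1 : ℕ) : ℝ) else 0) =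
          (if k + 1 < t ∧ t - (k + 1) ∈ T then (1 : ℝ) else 0) / ((k : ℝ) + 1) := by
        split_ifs
        · push_cast
          rfl
        · simp
      rw [h5]
      obtain ⟨a, ha⟩ : ∃ a : ℝ, a = if k + 1 < t ∧ t - (k + 1) ∈ T then (1 : ℝ) else 0 := ⟨_, rfl⟩
      rw [← ha] at h4 ⊢
      push_cast
      have hk1 : (0 : ℝ) < (k : ℝ) + 1 := by positivity
      have hk2 : (0 : ℝ) < (k : ℝ) + 1 + 1 := by positivity
      have h6 : Real.log ((k : ℝ) + 1 + 1) - Real.log ((k : ℝ) + 1) ≤ 1 / ((k : ℝ) + 1) := by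
        rw [← Real.log_div hk2.ne' hk1.ne']
        have h7 := Real.log_le_sub_one_of_pos (show 0 < ((k : ℝ) + 1 + 1) / ((k : ℝ) + 1) by
          positivity)
        have h8 : ((k : ℝ) + 1 + 1) / ((k : ℝ) + 1) - 1 = 1 / ((k : ℝ) + 1) := by
          field_simp
          ring
        linarith
      have h9 : θ / 2 * (Real.log ((k : ℝ) + 1 + 1) - Real.log ((k : ℝ) + 1)) ≤
          θ / 2 * (1 / ((k : ℝ) + 1)) := mul_le_mul_of_nonneg_left h6 (by positivity)
      have h10 : θ / 2 * (1 / ((k : ℝ) + 1)) ≤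
          (S + a) / ((k : ℝ) + 1) - (S + a) / ((k : ℝ) + 1 + 1) + 1 / ((k : ℝ) + 1) -
            1 / ((k : ℝ) + 1 + 1) := by
        have h11 : (S + a) / ((k : ℝ) + 1) - (S + a) / ((k : ℝ) + 1 + 1) + 1 / ((k : ℝ) + 1) -
            1 / ((k : ℝ) + 1 + 1) = (1 + (S + a)) / (((k : ℝ) + 1) * ((k : ℝ) + 1 + 1)) := by
          field_simp
          ring
        rw [h11, le_div_iff₀ (by positivity)]
        have h12 : θ / 2 * (1 / ((k : ℝ) + 1)) * (((k : ℝ) + 1) * ((k : ℝ) + 1 + 1)) =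
            θ / 2 * ((k : ℝ) + 2) := by
          field_simp
          ring
        rw [h12]
        exact h4
      have h13 : (S + a) / ((k : ℝ) + 1) = S / ((k : ℝ) + 1) + a / ((k : ℝ) + 1) := add_div _ _ _
      have h14 : θ / 2 * (Real.log ((k : ℝ) + 1 + 1) - Real.log ((m : ℝ) + 1)) =
          θ / 2 * (Real.log ((k : ℝ) + 1 + 1) - Real.log ((k : ℝ) + 1)) +
            θ / 2 * (Real.log ((k : ℝ) + 1) - Real.log ((m : ℝ) + 1)) := by ring
      rw [h14]
      linarith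
  have h1 := hind s₁ hm hst
  have h0 : ∑ s ∈ (Icc (m + 1) s₁).filter (fun s => s < t ∧ t - s ∈ T), 1 / (s : ℝ) =
      ∑ s ∈ Icc (m + 1) s₁, (if s < t ∧ t - s ∈ T then 1 / (s : ℝ) else 0) := sum_filter _ _
  rw [← h0] at h1
  have h2 : 0 ≤ (∑ s ∈ Icc 1 s₁, (if s < t ∧ t - s ∈ T then (1 : ℝ) else 0)) /
      ((s₁ : ℝ) + 1) := by
    refine div_nonneg (sum_nonneg fun s _ => by split_ifs <;> norm_num) (by positivity)
  have h3 : 0 ≤ 1 / ((s₁ : ℝ) + 1) := by positivity
  have h4 : 0 ≤ Real.log ((s₁ : ℝ) + 1) - Real.log ((m : ℝ) + 1) := by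
    have : Real.log ((m : ℝ) + 1) ≤ Real.log ((s₁ : ℝ) + 1) := by
      refine Real.log_le_log (by positivity) ?_
      have : (m : ℝ) ≤ s₁ := by exact_mod_cast hm
      linarith
    linarith
  have h5 : θ / 4 * (Real.log ((s₁ : ℝ) + 1) - Real.log ((m : ℝ) + 1)) ≤
      θ / 2 * (Real.log ((s₁ : ℝ) + 1) - Real.log ((m : ℝ) + 1)) :=
    mul_le_mul_of_nonneg_right (by linarith) h4
  push_cast
  linarith

end Pool.Agent.W_7d29a1_S90
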