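import Pool.Agent.W_7d29a1_S90.Plug90
import Pool.Agent.W_7d29a1_S90.KmT71
import Pool.Agent.W_7d29a1_S90.AsO85
import Pool.Agent.W_7d29a1_S90.CsO54
import Pool.Agent.W_7d29a1_S90.InO99
import Pool.Agent.W_7d29a1_S90.RlV19
import Pool.Agent.W_7d29a1_S90.WiT19
import Pool.Agent.W_7d29a1_S90.SeT28
import Pool.Agent.W_7d29a1_S90.MainO28

/-!
Theorem ORI, law level: superdiffusive displacement from the origin in dimension two.
-/

namespace Pool.Agent.W_7d29a1_S90

open MeasureTheory ProbabilityTheory Filter Topology Pool.Agent.W_MP_7d29a1_pr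
  Pool.Agent.W_7d29a1_h46 Pool.Agent.W_7d29a1_h46u Pool.Agent.W_7d29a1_D2.B35
  Pool.Agent.W_7d29a1_Q29

/-- In dimension two, on a segment of tilts on which the free energy is not affine, for every large
`N` not all initial windows `[0, t]`, `N ^ α ≤ t ≤ n ≤ N`, of the polymers of length `n` are
diffusive, even up to the factor `(log N) ^ (1 / 80)`. -/
theorem ori28 {ρ : Measure ℝ} [IsProbabilityMeasure ρ] (hρ : EM ρ) (hnc : ∀ c : ℝ, ρ {c} ≠ 1)
    {β : ℝ} (hβ : 0 < β) : MainO ρ β := by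
  have hd : 0 < 2 := by norm_num
  have hKs : KsT 2 ρ β := ksT18 (kaT10 hd β) (krT28 hd β) (kmT71 hd β)
  have hIn : InO ρ β := inO99 hβ (inT90 hd hρ hnc hβ) (enZ58 hd β) (dlT63 hd hρ hβ)
  exact mainO28 (caT10 hd β) (csT75 hd β) (csO54 hd β) (kcT10 hd β) hKs hIn
    (loV90 hd hρ hnc hβ) (rlV19 hd hρ hnc hβ (siU98 hd hρ hβ)) (wiT19 hd β) (stM86 hd β)
    (vuT31 hd hρ β) (drT56 hd hρ β) jeT41 asO85 seT28

end Pool.Agent.W_7d29a1_S90
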