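import Pool.Agent.W_7d29a1_S90.Top2x17
import Pool.Agent.W_7d29a1_S90.DefsO28

/-!
Theorem ORI: from the main statement to all open sets of tilts, to generic tilts, and to an
arbitrary probability space.
-/

namespace Pool.Agent.W_7d29a1_S90

open MeasureTheory ProbabilityTheory Filter Topology Pool.Agent.W_MP_7d29a1_pr
  Pool.Agent.W_7d29a1_h46 Pool.Agent.W_7d29a1_h46u Pool.Agent.W_7d29a1_D2.B35
  Pool.Agent.W_7d29a1_Q29

variable {d : ℕ} {ρ : Measure ℝ} [IsProbabilityMeasure ρ] {β : ℝ}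

/-- The variance of the displacement from the origin under the averaged polymer measure. -/
noncomputable def VO28 (ρ : Measure ℝ) (β : ℝ) (h : Vec d) (n t : ℕ) : ℝ :=
  vv17 (fun s : Fin n → Step d => pb17 ρ β h s) fun s => emb (pos s t)

lemma VO28_cont (hd : 0 < d) (n t : ℕ) : Continuous fun h : Vec d => VO28 ρ β h n t := by
  unfold VO28 vv17
  refine continuous_finset_sum _ fun s _ => (pb17_cont hd s).mul
    ((continuous_const.sub (continuous_finset_sum _ fun s' _ =>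
      (pb17_cont hd s').smul continuous_const)).norm.pow 2)

lemma lt_VO28 (hd : 0 < d) (h : Vec d) (n t : ℕ) (B : ℝ) :
    B < VO28 ρ β h n t ↔ ∀ m : Vec d,
      B < ∫ η, pe β h η (fun s : Fin n → Step d => ‖emb (pos s t) - m‖ ^ 2) ∂(law d ρ) := by
  have e1 : ∀ m : Vec d, ∫ η, pe β h η (fun s : Fin n → Step d => ‖emb (pos s t) - m‖ ^ 2)
      ∂(law d ρ) = VO28 ρ β h n t +
        ‖∑ s : Fin n → Step d, pb17 ρ β h s • emb (pos s t) - m‖ ^ 2 := by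
    intro m
    rw [pe17 hd h]
    exact vv17_eq _ (pb17_sum hd h n) (fun s : Fin n → Step d => emb (pos s t)) m
  constructor
  · intro h1 m
    rw [e1]
    exact lt_of_lt_of_le h1 (le_add_of_nonneg_right (sq_nonneg _))
  · intro h1
    have h2 := h1 (∑ s : Fin n → Step d, pb17 ρ β h s • emb (pos s t))
    rw [e1, sub_self, norm_zero] at h2
    simpa using h2

lemma not_W0_28 (hd : 0 < d) (h : Vec d) (N : ℕ) (α R : ℝ) :
    ¬ W0 ρ β h N α R ↔ ∃ n t : ℕ, 1 ≤ t ∧ t ≤ n ∧ n ≤ N ∧ (N : ℝ) ^ α ≤ t ∧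
      R * t < VO28 ρ β h n t := by
  unfold W0
  push Not
  constructor
  · rintro ⟨n, t, h1, h2, h3, h4, h5⟩
    exact ⟨n, t, h1, h2, h3, h4, (lt_VO28 hd h n t _).2 h5⟩
  · rintro ⟨n, t, h1, h2, h3, h4, h5⟩
    exact ⟨n, t, h1, h2, h3, h4, (lt_VO28 hd h n t _).1 h5⟩

/-- Every open set of tilts. -/
theorem topOA28 (hρ : EM ρ) (hnc : ∀ c : ℝ, ρ {c} ≠ 1) (hβ : 0 < β) (hM : MainO ρ β)
    {U : Set (Vec 2)} (hU : IsOpen U) (hne : U.Nonempty) {α : ℝ} (hα : α < 1) :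
    ∀ᶠ N : ℕ in atTop, ∃ h ∈ U, ∃ n t : ℕ, 1 ≤ t ∧ t ≤ n ∧ n ≤ N ∧ (N : ℝ) ^ α ≤ t ∧
      Real.log N ^ ((1 : ℝ) / 80) * t < VO28 ρ β h n t := by
  obtain ⟨h, e, l, he, hl, hs, h2⟩ := seg17 hρ hnc hβ (by norm_num) hU hne
  obtain ⟨N₀, hN⟩ := hM h e l α he hl hα h2
  filter_upwards [eventually_ge_atTop N₀] with n hn
  obtain ⟨s, hs1, hs2⟩ := hN n hn
  exact ⟨h + s • e, hs s hs1, (not_W0_28 (by norm_num) _ _ _ _).1 hs2⟩

/-- Generic tilts. -/
theorem topOB28 (hρ : EM ρ) (hnc : ∀ c : ℝ, ρ {c} ≠ 1) (hβ : 0 < β) (hM : MainO ρ β) :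
    ∀ᶠ h : Vec 2 in residual (Vec 2), ∀ α : ℝ, α < 1 → ∃ᶠ n : ℕ in atTop, ∃ t : ℕ,
      1 ≤ t ∧ t ≤ n ∧ (n : ℝ) ^ α ≤ t ∧
        Real.log n ^ ((1 : ℝ) / 80) * t < VO28 ρ β h n t := by
  set V : ℕ → ℕ → Set (Vec 2) := fun j N => {h | ∃ n t : ℕ, N ≤ n ∧ 1 ≤ t ∧ t ≤ n ∧
    (n : ℝ) ^ (1 - 1 / ((j : ℝ) + 1)) ≤ t ∧
      Real.log n ^ ((1 : ℝ) / 80) * t < VO28 ρ β h n t} with hV
  have hopen : ∀ j N, IsOpen (V j N) := by
    intro j N
    have e1 : V j N = ⋃ (n : ℕ) (t : ℕ) (_ : N ≤ n) (_ : 1 ≤ t) (_ : t ≤ n)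
        (_ : (n : ℝ) ^ (1 - 1 / ((j : ℝ) + 1)) ≤ t),
        {h | Real.log n ^ ((1 : ℝ) / 80) * t < VO28 ρ β h n t} := by
      ext h
      simp only [hV, Set.mem_setOf_eq, Set.mem_iUnion, exists_prop]
    rw [e1]
    refine isOpen_iUnion fun n => isOpen_iUnion fun t => isOpen_iUnion fun _ =>
      isOpen_iUnion fun _ => isOpen_iUnion fun _ => isOpen_iUnion fun _ =>
      isOpen_lt continuous_const (VO28_cont (by norm_num) n t)
  have hdense : ∀ j N, Dense (V j N) := by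
    intro j N
    rw [dense_iff_inter_open]
    intro U hU hne
    obtain ⟨a, ha⟩ : ∃ a : ℝ, a = max (1 - 1 / ((j : ℝ) + 1)) (1 / 2) := ⟨_, rfl⟩
    have hj : (0 : ℝ) < 1 / ((j : ℝ) + 1) := by positivity
    have ha1 : a < 1 := by rw [ha]; exact max_lt (by linarith) (by norm_num)
    have ha2 : (1 : ℝ) / 2 ≤ a := by rw [ha]; exact le_max_right _ _
    have ha3 : 1 - 1 / ((j : ℝ) + 1) ≤ a := by rw [ha]; exact le_max_left _ _
    obtain ⟨M, ⟨h, hh, n, t, h1, h2, h3, h4, h5⟩, hM1⟩ :=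
      ((topOA28 hρ hnc hβ hM hU hne ha1).and (eventually_ge_atTop (max (N ^ 2) 1))).exists
    have hM2 : 1 ≤ M := (le_max_right _ _).trans hM1
    have hM3 : N ^ 2 ≤ M := (le_max_left _ _).trans hM1
    have hM4 : (1 : ℝ) ≤ M := by exact_mod_cast hM2
    have hn1 : 1 ≤ n := h1.trans h2
    have hn2 : (1 : ℝ) ≤ n := by exact_mod_cast hn1
    have hnM : (n : ℝ) ≤ M := by exact_mod_cast h3
    have hNn : N ≤ n := by
      have h6 : (N : ℝ) ≤ (M : ℝ) ^ a := by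
        calc (N : ℝ) = ((N : ℝ) ^ 2) ^ ((1 : ℝ) / 2) := by
              rw [← Real.sqrt_eq_rpow, Real.sqrt_sq (Nat.cast_nonneg _)]
          _ ≤ (M : ℝ) ^ ((1 : ℝ) / 2) := by
              refine Real.rpow_le_rpow (by positivity) ?_ (by norm_num)
              exact_mod_cast hM3
          _ ≤ (M : ℝ) ^ a := Real.rpow_le_rpow_of_exponent_le hM4 ha2
      have h7 : (t : ℝ) ≤ n := by exact_mod_cast h2
      exact_mod_cast (h6.trans h4).trans h7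
    refine ⟨h, hh, n, t, hNn, h1, h2, ?_, ?_⟩
    · calc (n : ℝ) ^ (1 - 1 / ((j : ℝ) + 1)) ≤ (n : ℝ) ^ a :=
            Real.rpow_le_rpow_of_exponent_le hn2 ha3
        _ ≤ (M : ℝ) ^ a := Real.rpow_le_rpow (by linarith) hnM (by linarith)
        _ ≤ t := h4
    · refine lt_of_le_of_lt (mul_le_mul_of_nonneg_right ?_ (Nat.cast_nonneg t)) h5
      exact Real.rpow_le_rpow (Real.log_nonneg hn2) (Real.log_le_log (by linarith) hnM)
        (by norm_num)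
  have hres : ∀ᶠ h : Vec 2 in residual (Vec 2), ∀ j N : ℕ, h ∈ V j N := by
    rw [eventually_countable_forall]
    intro j
    rw [eventually_countable_forall]
    intro N
    exact residual_of_dense_open (hopen j N) (hdense j N)
  filter_upwards [hres] with h hh α hα
  obtain ⟨j, hj⟩ := exists_nat_one_div_lt (sub_pos.2 hα)
  rw [frequently_atTop]
  intro N
  obtain ⟨n, t, hn, h1, h2, h3, h4⟩ := hh j (max N 1)
  have hn1 : (1 : ℝ) ≤ n := by exact_mod_cast (le_max_right N 1).trans hn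
  exact ⟨n, (le_max_left _ _).trans hn, t, h1, h2,
    (Real.rpow_le_rpow_of_exponent_le hn1 (by linarith)).trans h3, h4⟩

variable {Ω : Type*} [MeasurableSpace Ω] {μ : Measure Ω} [IsProbabilityMeasure μ]
  {ω : ℕ × Site d → Ω → ℝ}

/-- **Superdiffusive displacement from the origin in dimension two**, from the main statement. -/
theorem topO28 (hω : IID μ ρ ω) (hρ : EM ρ) (hnc : ∀ c : ℝ, ρ {c} ≠ 1) (hβ : 0 < β)
    (hM : MainO ρ β) (hd : d = 2) {α : ℝ} (hα : α < 1) :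
    (∀ U : Set (Vec d), IsOpen U → U.Nonempty → ∀ᶠ N : ℕ in atTop, ∃ h ∈ U, ∃ n t : ℕ,
      1 ≤ t ∧ t ≤ n ∧ n ≤ N ∧ (N : ℝ) ^ α ≤ t ∧ ∀ m : Vec d,
        Real.log N ^ ((1 : ℝ) / 80) * t <
          ∫ x, ∑ s : Fin n → Step d, PolT β h (fun p => ω p x) {s} *
            ‖emb (pos s t) - m‖ ^ 2 ∂μ) ∧
    ∀ᶠ h : Vec d in residual (Vec d), ∃ᶠ n : ℕ in atTop, ∃ t : ℕ,
      1 ≤ t ∧ t ≤ n ∧ (n : ℝ) ^ α ≤ t ∧ ∀ m : Vec d,
        Real.log n ^ ((1 : ℝ) / 80) * t <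
          ∫ x, ∑ s : Fin n → Step d, PolT β h (fun p => ω p x) {s} *
            ‖emb (pos s t) - m‖ ^ 2 ∂μ := by
  subst hd
  have key : ∀ (h : Vec 2) (n t : ℕ) (B : ℝ), B < VO28 ρ β h n t → ∀ m : Vec 2,
      B < ∫ x, ∑ s : Fin n → Step 2, PolT β h (fun p => ω p x) {s} *
        ‖emb (pos s t) - m‖ ^ 2 ∂μ := by
    intro h n t B hB m
    rw [tr17 (β := β) (by norm_num : 0 < 2) hω h (fun s : Fin n → Step 2 => ‖emb (pos s t) - m‖ ^ 2)]
    exact (lt_VO28 (by norm_num) h n t B).1 hB m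
  refine ⟨fun U hU hne => ?_, ?_⟩
  · filter_upwards [topOA28 hρ hnc hβ hM hU hne hα] with N hN
    obtain ⟨h, hh, n, t, h1, h2, h3, h4, h5⟩ := hN
    exact ⟨h, hh, n, t, h1, h2, h3, h4, key h n t _ h5⟩
  · filter_upwards [topOB28 hρ hnc hβ hM] with h hh
    refine (hh α hα).mono fun n hn => ?_
    obtain ⟨t, h1, h2, h3, h4⟩ := hn
    exact ⟨t, h1, h2, h3, key h n t _ h4⟩

end Pool.Agent.W_7d29a1_S90
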