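import Pool.Agent.W_7d29a1_S90.Ori28
import Pool.Agent.W_7d29a1_S90.TopO28

/-!
Theorem ORI in the letters of the problem.
-/

namespace Pool.Agent.W_7d29a1_S90

open MeasureTheory ProbabilityTheory Filter Topology Pool.Agent.W_MP_7d29a1_pr
  Pool.Agent.W_7d29a1_h46 Pool.Agent.W_7d29a1_h46u Pool.Agent.W_7d29a1_D2.B35
  Pool.Agent.W_7d29a1_Q29

variable {d : ℕ} {ρ : Measure ℝ} [IsProbabilityMeasure ρ] {β : ℝ} {Ω : Type*}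
  [MeasurableSpace Ω] {μ : Measure Ω} [IsProbabilityMeasure μ] {ω : ℕ × Site d → Ω → ℝ}

/-- Theorem ORI: the averaged mean square displacement from the origin is superdiffusive in
dimension two. -/
theorem oriP28 (hω : IID μ ρ ω) (hρ : EM ρ) (hnc : ∀ c : ℝ, ρ {c} ≠ 1) (hβ : 0 < β)
    (hd : d = 2) {α : ℝ} (hα : α < 1) :
    (∀ U : Set (Vec d), IsOpen U → U.Nonempty → ∀ᶠ N : ℕ in atTop, ∃ h ∈ U, ∃ n t : ℕ,
      1 ≤ t ∧ t ≤ n ∧ n ≤ N ∧ (N : ℝ) ^ α ≤ t ∧ ∀ m : Vec d,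
        Real.log N ^ ((1 : ℝ) / 80) * t <
          ∫ x, ∑ s : Fin n → Step d, PolT β h (fun p => ω p x) {s} *
            ‖emb (pos s t) - m‖ ^ 2 ∂μ) ∧
    ∀ᶠ h : Vec d in residual (Vec d), ∃ᶠ n : ℕ in atTop, ∃ t : ℕ,
      1 ≤ t ∧ t ≤ n ∧ (n : ℝ) ^ α ≤ t ∧ ∀ m : Vec d,
        Real.log n ^ ((1 : ℝ) / 80) * t <
          ∫ x, ∑ s : Fin n → Step d, PolT β h (fun p => ω p x) {s} *
            ‖emb (pos s t) - m‖ ^ 2 ∂μ :=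
  topO28 hω hρ hnc hβ (ori28 hρ hnc hβ) hd hα

end Pool.Agent.W_7d29a1_S90
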