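import Pool.Agent.W_7d29a1_S90.TopO52
import Pool.Agent.W_7d29a1_Q29.Lit29

/-!
Theorem ORI in the short letters of Lit29.
-/

namespace Pool.Agent.W_7d29a1_S90

open MeasureTheory ProbabilityTheory Filter Topology Pool.Agent.W_MP_7d29a1_pr
  Pool.Agent.W_7d29a1_h46 Pool.Agent.W_7d29a1_h46u Pool.Agent.W_7d29a1_Q29

variable {Ω : Type*} [MeasurableSpace Ω] {μ : Measure Ω} {d : ℕ}
  {ω : ℕ × Site d → Ω → ℝ} {β : ℝ}

lemma sq_zero52 (h : Vec d) (n t : ℕ) (m : Vec d) :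
    Lit29.sq μ ω β h n 0 t m = ∫ x, ∑ s : Fin n → Step d, PolT β h (fun p => ω p x) {s} *
      ‖emb (pos s t) - m‖ ^ 2 ∂μ := by
  unfold Lit29.sq
  simp only [pos_zero73, emb_zero73, sub_zero]

variable [IsProbabilityMeasure μ] {ρ : Measure ℝ} [IsProbabilityMeasure ρ]

/-- The clause of the final text. -/
theorem oriQ52 (hω : IID μ ρ ω) (hρ : EM ρ) (hnc : ∀ c, ρ {c} ≠ 1) (hβ : 0 < β) (hd : d = 2)
    {U : Set (Vec d)} (hU : IsOpen U) (hne : U.Nonempty) {α : ℝ} (hα : α < 1) :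
    ∀ᶠ N : ℕ in atTop, ∃ h ∈ U, ∃ t n : ℕ, (N : ℝ) ^ α ≤ t ∧ t ≤ n ∧ n ≤ N ∧ ∀ m : Vec d,
      Real.log N ^ ((1 : ℝ) / 80) * t < Lit29.sq μ ω β h n 0 t m := by
  filter_upwards [(topO52 hω hρ hnc hβ hd).1 U hU hne α hα] with N hN
  obtain ⟨h, hh, n, t, h1, h2, h3, h4, h5⟩ := hN
  refine ⟨h, hh, t, n, h4, h2, h3, fun m => ?_⟩
  rw [sq_zero52]
  exact h5 m

/-- The generic clause. -/
theorem oriQr52 (hω : IID μ ρ ω) (hρ : EM ρ) (hnc : ∀ c, ρ {c} ≠ 1) (hβ : 0 < β) (hd : d = 2) :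
    ∀ᶠ h : Vec d in residual (Vec d), ∀ α : ℝ, α < 1 → ∃ᶠ n : ℕ in atTop,
      ∃ t : ℕ, (n : ℝ) ^ α ≤ t ∧ t ≤ n ∧ ∀ m : Vec d,
        Real.log n ^ ((1 : ℝ) / 80) * t < Lit29.sq μ ω β h n 0 t m := by
  filter_upwards [(topO52 hω hρ hnc hβ hd).2] with h hh α hα
  refine (hh α hα).mono fun n hn => ?_
  obtain ⟨t, h1, h2, h3, h4⟩ := hn
  refine ⟨t, h3, h2, fun m => ?_⟩
  rw [sq_zero52]
  exact h4 m

end Pool.Agent.W_7d29a1_S90
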