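import Pool.Agent.W_7d29a1_S90.DefsO28
import Pool.Agent.W_7d29a1_S90.MainB45
import Pool.Agent.W_7d29a1_S90.AsK85

/-!
Theorem ORI: facts on a segment of tilts whose initial windows are diffusive, and the choice of the
tilts on three scales.
-/

namespace Pool.Agent.W_7d29a1_S90

open MeasureTheory ProbabilityTheory Filter Topology Pool.Agent.W_MP_7d29a1_pr
  Pool.Agent.W_7d29a1_h46 Pool.Agent.W_7d29a1_h46u Pool.Agent.W_7d29a1_D2.B35
  Pool.Agent.W_7d29a1_Q29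

/-- Second moments at a tilt whose initial windows are diffusive. -/
theorem secO28 {d : ℕ} {ρ : Measure ℝ} {β : ℝ} (hCs : CsT d ρ β) (hCo : CsO d ρ β) {h e : Vec d}
    (he : ‖e‖ = 1) {n t : ℕ} {α R : ℝ} (h1t : 1 ≤ t) (htn : t ≤ n) (ht : (n : ℝ) ^ α ≤ t)
    (hR : 0 ≤ R) (hW : W0 ρ β h n α R) :
    Sm ρ β h e n t (Ft ρ β h e n t) ≤ R * n ∧ Vr ρ β h e n t ≤ R * n := by
  have h1 := (hCo h e n n t α R he h1t htn le_rfl ht hR hW).1
  have h2 : R * (t : ℝ) ≤ R * n := mul_le_mul_of_nonneg_left (by exact_mod_cast htn) hR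
  obtain ⟨-, -, h3, -⟩ := hCs h e n t htn
  exact ⟨h1.trans h2, ((h3 0).1.trans h1).trans h2⟩

/-- The covariance at a tilt whose initial windows are diffusive. -/
theorem covO28 {d : ℕ} {ρ : Measure ℝ} {β : ℝ} (hCs : CsT d ρ β) (hCo : CsO d ρ β) {h e : Vec d}
    (he : ‖e‖ = 1) {n t : ℕ} {α R : ℝ} (h1t : 1 ≤ t) (htn : t ≤ n) (ht : (n : ℝ) ^ α ≤ t)
    (hR : 0 ≤ R) (hW : W0 ρ β h n α R) : |Cv ρ β h e n t| ≤ R * n := by
  have h1 := (secO28 hCs hCo he h1t htn ht hR hW).2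
  have h2 := (secO28 hCs hCo he (h1t.trans htn) le_rfl
    (ht.trans (by exact_mod_cast htn)) hR hW).2
  obtain ⟨h3, h4, -⟩ := hCs h e n t htn
  obtain ⟨h5, -, -⟩ := hCs h e n n le_rfl
  have h6 : 0 ≤ R * n := by positivity
  refine abs_le_of_sq_le_sq (h4.trans ?_) h6
  calc Vr ρ β h e n t * Vr ρ β h e n n ≤ (R * n) * (R * n) := mul_le_mul h1 h2 h5 h6
    _ = _ := by ring

/-- The increment of the drift is at most `R n |w - u|`. -/
theorem incleO28 {d : ℕ} {ρ : Measure ℝ} {β : ℝ} (hCa : CaT d ρ β) (hCs : CsT d ρ β)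
    (hCo : CsO d ρ β) {h e : Vec d} (he : ‖e‖ = 1) {n t : ℕ} {α R l : ℝ} (h1t : 1 ≤ t)
    (htn : t ≤ n) (ht : (n : ℝ) ^ α ≤ t) (hR : 0 ≤ R)
    (hW : ∀ s ∈ Set.Icc (0 : ℝ) l, W0 ρ β (h + s • e) n α R) {u w : ℝ} (hu : u ∈ Set.Icc (0 : ℝ) l)
    (hw : w ∈ Set.Icc (0 : ℝ) l) :
    |Ft ρ β (h + w • e) e n t - Ft ρ β (h + u • e) e n t| ≤ R * n * |w - u| := by
  rw [← inc45 hCa h e htn u w]
  have := intervalIntegral.norm_integral_le_of_norm_le_const (a := u) (b := w) (C := R * n)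
    (f := fun s => Cv ρ β (h + s • e) e n t) (fun s hs => ?_)
  · simpa [Real.norm_eq_abs] using this
  · rw [Real.norm_eq_abs]
    refine covO28 hCs hCo he h1t htn ht hR (hW s ?_)
    have h1 := Set.uIoc_subset_uIcc hs
    exact (Set.uIcc_subset_Icc hu hw) h1

/-- The mass of the tilts with separated replicas in one interval of the middle scale. -/
theorem cellO28 {d : ℕ} {ρ : Measure ℝ} {β : ℝ} (hCa : CaT d ρ β) (hCs : CsT d ρ β)
    (hCo : CsO d ρ β) (hKc : KcT d ρ β) (hKs : KsT d ρ β) {h e : Vec d}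
    (he : ‖e‖ = 1) {n t : ℕ} {α R l c q : ℝ} {A₁ : ℕ} (hn : 1 ≤ n) (hR : 1 ≤ R)
    (hc : 0 < c) (hc1 : c ≤ 1) (hq : 0 < q) (hA₁ : 0 < A₁)
    (hW : ∀ s ∈ Set.Icc (0 : ℝ) l, W0 ρ β (h + s • e) n α R)
    (hk1 : 128 * R ≤ c ^ 2 * (n * (q / A₁) ^ 2)) (hk2 : c ^ 2 * (n * (q / A₁) ^ 2) ≤ 512 * R)
    (h1 : 1 ≤ t) (h2 : t ≤ n) (h3 : (n : ℝ) ^ α ≤ t) {u : ℝ} (hu0 : 0 ≤ u) (hul : u + q ≤ l)
    (hi : c / 2 * q ≤ ∫ s in u..(u + q), Cv ρ β (h + s • e) e n t / n) :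
    ENNReal.ofReal (c ^ 2 / (128 * R ^ 2) * q) ≤
      volume ({s : ℝ | c ^ 4 / (524288 * R ^ 4) ≤
        Rp ρ β (h + s • e) n t (Real.sqrt (c ^ 2 / 1024 / R * n))} ∩ Set.Icc u (u + q)) := by
  have hn' : (0 : ℝ) < n := by exact_mod_cast hn
  have hR0 : 0 < R := by linarith
  have hA' : (0 : ℝ) < A₁ := by exact_mod_cast hA₁
  set P : Set ℝ := {s : ℝ | c ^ 4 / (524288 * R ^ 4) ≤
        Rp ρ β (h + s • e) n t (Real.sqrt (c ^ 2 / 1024 / R * n))} with hP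
  have hPm : MeasurableSet P := (isClosed_le continuous_const (hKc h e n t _ h2)).measurableSet
  -- the cells
  have key : ∀ u : ℝ, 0 ≤ u → u + q / A₁ ≤ l →
      c / 2 / 2 * (q / A₁) ≤ ∫ s in u..(u + q / A₁), Cv ρ β (h + s • e) e n t / n →
      ENNReal.ofReal (c / (32 * R) * (q / A₁)) ≤ volume (P ∩ Set.Icc u (u + q / A₁)) := by
    intro u hu0 hul hi
    have hkA : 0 < q / A₁ := by positivity
    rw [intervalIntegral.integral_div, inc45 hCa h e h2, le_div_iff₀ hn'] at hi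
    have hu : u ∈ Set.Icc (0 : ℝ) l := ⟨hu0, by linarith⟩
    have hw : u + q / A₁ ∈ Set.Icc (0 : ℝ) l := ⟨by linarith, hul⟩
    have h4 := incleO28 hCa hCs hCo he h1 h2 h3 hR0.le hW hu hw
    have h5 : u + q / A₁ - u = q / A₁ := by ring
    have h6 := hKs h e n t u (u + q / A₁) R (c / 4) he hn h2 (by linarith) hR (by linarith)
      (by linarith) (fun s hs => by
        have hs' : s ∈ Set.Icc (0 : ℝ) l := ⟨hu0.trans hs.1, hs.2.trans hul⟩
        have h7 := secO28 hCs hCo he h1 h2 h3 hR0.le (hW s hs')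
        exact ⟨h7.1, h7.2, (secO28 hCs hCo he hn le_rfl
          (h3.trans (by exact_mod_cast h2)) hR0.le (hW s hs')).2⟩)
      (by rw [h5]; linarith) (by
        refine (le_abs_self _).trans (h4.trans (le_of_eq ?_))
        rw [h5, abs_of_pos hkA]) (by rw [h5]; nlinarith)
    rw [h5] at h6
    have h8 : c / (32 * R) * (q / A₁) = c / 4 * (q / A₁) / (8 * R) := by
      field_simp
      ring
    rw [h8]
    refine h6.trans (measure_mono (Set.inter_subset_inter_left _ fun s hs => ?_))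
    simp only [hP, Set.mem_ofPred_eq] at hs ⊢
    have h9 : c ^ 2 / 1024 / R * n = (c / 4) ^ 2 / (64 * R) * n := by
      field_simp
      ring
    rw [h9]
    refine le_trans ?_ hs
    rw [div_le_div_iff₀ (by positivity) (by positivity)]
    have h10 : (0 : ℝ) ≤ c ^ 2 * R ^ 3 := by positivity
    have h11 := mul_le_mul_of_nonneg_left hk2 h10
    nlinarith [h11]
  -- the indicator
  set F : ℝ → ℝ := P.indicator fun _ => (1 : ℝ) with hF
  have hFi : ∀ u v : ℝ, IntervalIntegrable F volume u v := by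
    intro u v
    rw [intervalIntegrable_iff]
    have : IntegrableOn (fun _ : ℝ => (1 : ℝ)) (Set.uIoc u v) volume := by
      refine integrableOn_const ?_
      simp [Set.uIoc]
    exact this.indicator hPm
  have hFm : ∀ u v : ℝ, u ≤ v → ∫ s in u..v, F s = (volume (P ∩ Set.Icc u v)).toReal := by
    intro u v huv
    rw [intervalIntegral.integral_of_le huv, ← integral_Icc_eq_integral_Ioc, hF]
    rw [integral_indicator hPm, Measure.restrict_restrict hPm]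
    simp [measureReal_def]
  have hfin : ∀ u v : ℝ, volume (P ∩ Set.Icc u v) ≠ ⊤ := fun u v =>
    ne_top_of_le_ne_top (by simp) (measure_mono Set.inter_subset_right)
  have hg : Continuous fun s : ℝ => Cv ρ β (h + s • e) e n t / n := (hCa h e n t h2).1.div_const _
  have hone := P85k.one (g := fun s : ℝ => Cv ρ β (h + s • e) e n t / n) (F := F) (a := u) (k := q)
    (R := R) (c := c / 2) (δ := c / (32 * R)) (A := A₁) hq hR (by linarith) (by positivity) hA₁ hg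
    (fun s hs => by
      have hs' : s ∈ Set.Icc (0 : ℝ) l := ⟨hu0.trans hs.1, hs.2.trans hul⟩
      rw [div_le_iff₀ hn']
      exact (le_abs_self _).trans (covO28 hCs hCo he h1 h2 h3 hR0.le (hW s hs')))
    hFi (fun s => Set.indicator_nonneg (fun _ _ => zero_le_one) s) hi
    (fun u1 hu1 hu2 hu3 => by
      have h4 := key u1 (hu0.trans hu1) (hu2.trans hul) hu3
      have hkA : 0 < q / A₁ := by positivity
      rw [hFm _ _ (by linarith)]
      exact (ENNReal.ofReal_le_iff_le_toReal (hfin _ _)).mp h4)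
  rw [hFm _ _ (by linarith)] at hone
  refine (ENNReal.ofReal_le_iff_le_toReal (hfin _ _)).mpr (le_trans (le_of_eq ?_) hone)
  field_simp
  ring

/-- The choice of the tilts. -/
theorem pickO28 {d : ℕ} {ρ : Measure ℝ} {β : ℝ} (hCa : CaT d ρ β) (hCs : CsT d ρ β)
    (hCo : CsO d ρ β) (hKc : KcT d ρ β) (hKs : KsT d ρ β) (hAs : AsO) {h e : Vec d}
    (he : ‖e‖ = 1) {n : ℕ} {α R l c k : ℝ} {J A A₁ : ℕ} (hn : 1 ≤ n) (hR : 1 ≤ R) (hl : 0 < l)
    (hc : 0 < c) (hc1 : c ≤ 1) (hk : 0 < k) (hA : 0 < A) (hA₁ : 0 < A₁) (hJ : J * k = l)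
    (hW : ∀ s ∈ Set.Icc (0 : ℝ) l, W0 ρ β (h + s • e) n α R)
    (hk1 : 128 * R ≤ c ^ 2 * (n * (k / A / A₁) ^ 2))
    (hk2 : c ^ 2 * (n * (k / A / A₁) ^ 2) ≤ 512 * R)
    {T : Finset ℕ} (hT : T.Nonempty) (hT1 : ∀ t ∈ T, 1 ≤ t ∧ t ≤ n ∧ (n : ℝ) ^ α ≤ t)
    (hT2 : ∀ t ∈ T, 2 * c * l * n ≤ Ft ρ β (h + l • e) e n t - Ft ρ β h e n t) :
    ∃ s ∈ Set.Icc (0 : ℝ) l, ∃ s' ∈ Set.Icc (0 : ℝ) l, ∃ s'' ∈ Set.Icc (0 : ℝ) l,
      |s - s'| ≤ k ∧ |s - s''| ≤ k / A ∧ ∃ T' ⊆ T,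
      c ^ 4 / (1024 * R ^ 4) * T.card ≤ (T'.card : ℝ) ∧
        ∀ t ∈ T', c ^ 4 / (524288 * R ^ 4) ≤
          Rp ρ β (h + s • e) n t (Real.sqrt (c ^ 2 / 1024 / R * n)) ∧
          c * k / 2 * n ≤ |Ft ρ β (h + s • e) e n t - Ft ρ β (h + s' • e) e n t| ∧
          c * (k / A) / 4 * n ≤ |Ft ρ β (h + s • e) e n t - Ft ρ β (h + s'' • e) e n t| := by
  have hn' : (0 : ℝ) < n := by exact_mod_cast hn
  have hR0 : 0 < R := by linarith
  have hA' : (0 : ℝ) < A := by exact_mod_cast hA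
  have hkA : 0 < k / A := by positivity
  have hδ1 : c ^ 2 / (128 * R ^ 2) ≤ 1 := by
    rw [div_le_one (by positivity)]
    have h1 : c ^ 2 ≤ 1 := pow_le_one₀ hc.le hc1
    have h2 : 1 ≤ R ^ 2 := one_le_pow₀ hR
    linarith
  obtain ⟨s, hs, s', hs', s'', hs'', hss, hss2, T', hT', hcard, hgood⟩ :=
    hAs l k R c (c ^ 2 / (128 * R ^ 2)) J A T
    (fun t s => Cv ρ β (h + s • e) e n t / n)
    (fun t => {s : ℝ | c ^ 4 / (524288 * R ^ 4) ≤
      Rp ρ β (h + s • e) n t (Real.sqrt (c ^ 2 / 1024 / R * n))})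
    hl hk hR hc hc1 (by positivity) hδ1 hA hJ hT
    (fun t ht => (hCa h e n t (hT1 t ht).2.1).1.div_const _)
    (fun t ht s hs => by
      obtain ⟨h1, h2, h3⟩ := hT1 t ht
      rw [abs_div, abs_of_pos hn', div_le_iff₀ hn']
      exact covO28 hCs hCo he h1 h2 h3 hR0.le (hW s hs))
    (fun t ht => by
      rw [intervalIntegral.integral_div, inc45 hCa h e (hT1 t ht).2.1, le_div_iff₀ hn']
      simpa using hT2 t ht)
    (fun t ht => (isClosed_le continuous_const (hKc h e n t _ (hT1 t ht).2.1)).measurableSet)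
    (fun t ht u hu0 hul hi => by
      obtain ⟨h1, h2, h3⟩ := hT1 t ht
      exact cellO28 hCa hCs hCo hKc hKs he hn hR hc hc1 hkA hA₁ hW hk1 hk2 h1 h2 h3 hu0 hul hi)
  refine ⟨s, hs, s', hs', s'', hs'', hss, hss2, T', hT', ?_, fun t ht => ?_⟩
  · refine le_trans (le_of_eq ?_) hcard
    field_simp
    ring
  · obtain ⟨h1, h2, h3⟩ := hgood t ht
    refine ⟨h1, ?_, ?_⟩
    · rw [intervalIntegral.integral_div, inc45 hCa h e (hT1 t (hT' ht)).2.1, abs_div,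
        abs_of_pos hn', le_div_iff₀ hn'] at h2
      rwa [abs_sub_comm] at h2
    · rw [intervalIntegral.integral_div, inc45 hCa h e (hT1 t (hT' ht)).2.1, abs_div,
        abs_of_pos hn', le_div_iff₀ hn'] at h3
      rwa [abs_sub_comm] at h3

end Pool.Agent.W_7d29a1_S90
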