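import Pool.Agent.W_7d29a1_S90.Plug90
import Pool.Agent.W_7d29a1_S90.DI63

/-!
Theorem DI, plugged.
-/

namespace Pool.Agent.W_7d29a1_S90

open MeasureTheory ProbabilityTheory Filter Topology Pool.Agent.W_MP_7d29a1_pr
  Pool.Agent.W_7d29a1_h46 Pool.Agent.W_7d29a1_h46u Pool.Agent.W_7d29a1_D2.B35
  Pool.Agent.W_7d29a1_Q29

theorem diK90 {ρ : Measure ℝ} [IsProbabilityMeasure ρ] (hρ : EM ρ)
    (hnc : ∀ c : ℝ, ρ {c} ≠ 1) {β : ℝ} (hβ : 0 < β) : DiK ρ β :=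
  di63 hρ hnc hβ (inK90 hρ hnc hβ) jeT41

end Pool.Agent.W_7d29a1_S90
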