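import Pool.Agent.W_7d29a1_S90.DefsS90
import Pool.Agent.W_7d29a1_Q29.Site39
import Pool.Agent.W_7d29a1_Q29.Dual85

/-!
The influence of one site of the row `τ` on the law of `S_t`: the scalar form.
-/

namespace Pool.Agent.W_7d29a1_S90

open MeasureTheory ProbabilityTheory Filter Topology Pool.Agent.W_MP_7d29a1_pr
  Pool.Agent.W_7d29a1_h46 Pool.Agent.W_7d29a1_h46u Pool.Agent.W_7d29a1_D2.B35
  Pool.Agent.W_7d29a1_Q29

variable {ρ : Measure ℝ} [IsProbabilityMeasure ρ]

/-- Two values with a gap. -/
lemma two39 (hρ : EM ρ) (hnc : ∀ c : ℝ, ρ {c} ≠ 1) :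
    ∃ q₁ q₂ : ℝ, q₁ < q₂ ∧ 0 < ρ.real (Set.Iic q₁) ∧ 0 < ρ.real (Set.Ici q₂) := by
  set m : ℝ := ∫ s, s ∂ρ with hm
  have h1 : 0 < ρ.real (Set.Iic m) := by
    rw [measureReal_def, ENNReal.toReal_pos_iff]
    refine ⟨pos_iff_ne_zero.2 fun h0 => ?_, measure_lt_top _ _⟩
    have h2 : ∀ᵐ r ∂ρ, m < r := by
      have := measure_eq_zero_iff_ae_notMem.1 h0
      filter_upwards [this] with r hr
      exact not_le.1 hr
    have h3 : ∀ᵐ r ∂ρ, 0 ≤ r - m := by
      filter_upwards [h2] with r hr
      linarith
    have h4 := (integral_eq_zero_iff_of_nonneg_ae h3 (s39_int_id hρ m)).1 (s39_mean hρ)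
    have h5 : ∀ᵐ r ∂ρ, False := by
      filter_upwards [h2, h4] with r hr hr'
      have : r - m = 0 := hr'
      linarith
    simp only [ae_iff, not_false_eq_true, Set.ofPred_true, measure_univ] at h5
    exact one_ne_zero h5
  have h2 : ∃ k : ℕ, 0 < ρ.real (Set.Ici (m + 1 / ((k : ℝ) + 1))) := by
    by_contra hcon
    push Not at hcon
    have h3 : ∀ᵐ r ∂ρ, ∀ k : ℕ, r < m + 1 / ((k : ℝ) + 1) := by
      rw [ae_all_iff]
      intro k
      have h4 : ρ (Set.Ici (m + 1 / ((k : ℝ) + 1))) = 0 := by
        have h5 := le_antisymm (hcon k) measureReal_nonneg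
        rwa [measureReal_eq_zero_iff] at h5
      have := measure_eq_zero_iff_ae_notMem.1 h4
      filter_upwards [this] with r hr
      exact not_le.1 hr
    have h4 : ∀ᵐ r ∂ρ, (max (r - m) 0) ^ 2 = 0 := by
      filter_upwards [h3] with r hr
      have h5 : r ≤ m := by
        refine le_of_forall_pos_lt_add fun ε hε => ?_
        obtain ⟨k, hk⟩ := exists_nat_one_div_lt hε
        have := hr k
        linarith
      rw [max_eq_right (by linarith)]
      norm_num
    have h5 := s39_up_pos hρ hnc
    rw [integral_congr_ae (g := fun _ => (0 : ℝ)) h4] at h5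
    simp at h5
  obtain ⟨k, hk⟩ := h2
  exact ⟨m, m + 1 / ((k : ℝ) + 1), by
    have : (0 : ℝ) < 1 / ((k : ℝ) + 1) := by positivity
    linarith, h1, hk⟩

/-! ### The scalar form -/

section scalar

variable {β a b e f : ℝ}

lemma den39 (ha : 0 ≤ a) (hb : 0 ≤ b) (hab : 0 < a + b) (r : ℝ) :
    0 < b + a * Real.exp (β * r) := by
  have := Real.exp_pos (β * r)
  rcases eq_or_lt_of_le ha with h | h
  · rw [← h] at hab ⊢
    linarith
  · have := mul_pos h this
    linarith

/-- The probability of the site is increasing, with a Harnack inequality. -/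
lemma harP39 (hβ : 0 < β) (ha : 0 ≤ a) (hb : 0 ≤ b) (hab : 0 < a + b) (r r' : ℝ) :
    a * Real.exp (β * r) / (b + a * Real.exp (β * r)) ≤
      Real.exp (β * max (r - r') 0) *
        (a * Real.exp (β * r') / (b + a * Real.exp (β * r'))) := by
  have h1 := den39 (β := β) ha hb hab r
  have h2 := den39 (β := β) ha hb hab r'
  rw [mul_div_assoc', div_le_div_iff₀ h1 h2]
  have e0 := Real.exp_pos (β * r)
  have e1 := Real.exp_pos (β * r')
  rcases le_total r' r with h | h
  · rw [max_eq_left (by linarith)]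
    have e2 : Real.exp (β * (r - r')) * Real.exp (β * r') = Real.exp (β * r) := by
      rw [← Real.exp_add]; congr 1; ring
    have e3 : Real.exp (β * r') ≤ Real.exp (β * r) := Real.exp_le_exp.2 (by nlinarith)
    have e4 : Real.exp (β * (r - r')) * (a * Real.exp (β * r')) = a * Real.exp (β * r) := by
      rw [← e2]; ring
    rw [e4]
    have h5 : 0 ≤ a * Real.exp (β * r) := by positivity
    have h6 : b + a * Real.exp (β * r') ≤ b + a * Real.exp (β * r) := by
      have := mul_le_mul_of_nonneg_left e3 ha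
      linarith
    exact mul_le_mul_of_nonneg_left h6 h5
  · rw [max_eq_right (by linarith), mul_zero, Real.exp_zero, one_mul]
    have e3 : Real.exp (β * r) ≤ Real.exp (β * r') := Real.exp_le_exp.2 (by nlinarith)
    have h5 : 0 ≤ a * b := mul_nonneg ha hb
    nlinarith [mul_le_mul_of_nonneg_left e3 h5]

/-- The same for the other walks. -/
lemma harF39 (hβ : 0 < β) (ha : 0 ≤ a) (hb : 0 ≤ b) (hab : 0 < a + b) (hf : 0 ≤ f) (r r' : ℝ) :
    f / (b + a * Real.exp (β * r)) ≤
      Real.exp (β * max (r' - r) 0) * (f / (b + a * Real.exp (β * r'))) := by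
  have h1 := den39 (β := β) ha hb hab r
  have h2 := den39 (β := β) ha hb hab r'
  rw [mul_div_assoc', div_le_div_iff₀ h1 h2, mul_comm (Real.exp _) f, mul_assoc]
  refine mul_le_mul_of_nonneg_left ?_ hf
  have e0 := Real.exp_pos (β * r)
  have e1 := Real.exp_pos (β * r')
  rcases le_total r r' with h | h
  · rw [max_eq_left (by linarith)]
    have e2 : Real.exp (β * (r' - r)) * Real.exp (β * r) = Real.exp (β * r') := by
      rw [← Real.exp_add]; congr 1; ring
    have e3 : 1 ≤ Real.exp (β * (r' - r)) := Real.one_le_exp (by nlinarith)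
    have e4 : Real.exp (β * (r' - r)) * (b + a * Real.exp (β * r)) =
        Real.exp (β * (r' - r)) * b + a * Real.exp (β * r') := by
      rw [← e2]; ring
    rw [e4]
    nlinarith [mul_le_mul_of_nonneg_right e3 hb]
  · rw [max_eq_right (by linarith), mul_zero, Real.exp_zero, one_mul]
    have e3 : Real.exp (β * r') ≤ Real.exp (β * r) := Real.exp_le_exp.2 (by nlinarith)
    have := mul_le_mul_of_nonneg_left e3 ha
    linarith

/-- The one site identity, lower bound. -/
lemma ident39 (hβ : 0 < β) (he : 0 ≤ e) (hea : e ≤ a) (hf : 0 ≤ f) (hfb : f ≤ b)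
    (hab : 0 < a + b) {r r' : ℝ} (hr : r' ≤ r) :
    ((a - e) * Real.exp (β * r') + (b - f)) / (b + a * Real.exp (β * r')) +
        (1 - Real.exp (-(β * (r - r')))) *
          (a * Real.exp (β * r) / (b + a * Real.exp (β * r))) *
            (f / (b + a * Real.exp (β * r'))) ≤
      ((a - e) * Real.exp (β * r) + (b - f)) / (b + a * Real.exp (β * r)) +
        e * Real.exp (β * r) / (b + a * Real.exp (β * r)) := by
  have ha : 0 ≤ a := he.trans hea
  have hb : 0 ≤ b := hf.trans hfb
  have h1 := den39 (β := β) ha hb hab r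
  have h2 := den39 (β := β) ha hb hab r'
  have e0 := Real.exp_pos (β * r)
  have e1 := Real.exp_pos (β * r')
  have e2 : Real.exp (-(β * (r - r'))) * Real.exp (β * r) = Real.exp (β * r') := by
    rw [← Real.exp_add]; congr 1; ring
  have e3 : Real.exp (β * r') ≤ Real.exp (β * r) := Real.exp_le_exp.2 (by nlinarith)
  set x := Real.exp (β * r) with hx
  set x' := Real.exp (β * r') with hx'
  set z := Real.exp (-(β * (r - r'))) with hz
  have hz0 : 0 < z := Real.exp_pos _
  have g1 : ((a - e) * x + (b - f)) / (b + a * x) + e * x / (b + a * x) =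
      1 - f / (b + a * x) := by
    field_simp
    ring
  have g2 : ((a - e) * x' + (b - f)) / (b + a * x') =
      1 - e * x' / (b + a * x') - f / (b + a * x') := by
    field_simp
    ring
  have g3 : (1 - z) * (a * x / (b + a * x)) * (f / (b + a * x')) =
      f / (b + a * x') - f / (b + a * x) := by
    have e5 : z * x = x' := e2
    have e6 : (1 - z) * (a * x) * f = f * (b + a * x) - (b + a * x') * f := by
      rw [← e5]; ring
    have e7 : (1 - z) * (a * x / (b + a * x)) * (f / (b + a * x')) =
        (1 - z) * (a * x) * f / ((b + a * x) * (b + a * x')) := by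
      field_simp
    rw [e7, e6]
    field_simp
  have g4 : 0 ≤ e * x' / (b + a * x') := by positivity
  linarith

lemma meas39 (β a b c e : ℝ) :
    Measurable fun r : ℝ => (c * Real.exp (β * r) + e) / (b + a * Real.exp (β * r)) := by
  fun_prop

/-- A fraction of masses. -/
lemma frac39 (ha : 0 ≤ a) (hb : 0 ≤ b) (hab : 0 < a + b) (he : 0 ≤ e) (hea : e ≤ a) (hf : 0 ≤ f)
    (hfb : f ≤ b) (r : ℝ) :
    0 ≤ (e * Real.exp (β * r) + f) / (b + a * Real.exp (β * r)) ∧
      (e * Real.exp (β * r) + f) / (b + a * Real.exp (β * r)) ≤ 1 := by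
  have h1 := den39 (β := β) ha hb hab r
  have h2 := Real.exp_pos (β * r)
  refine ⟨by positivity, ?_⟩
  rw [div_le_one h1]
  have := mul_le_mul_of_nonneg_right hea h2.le
  linarith

lemma int_frac39 (ha : 0 ≤ a) (hb : 0 ≤ b) (hab : 0 < a + b) (he : 0 ≤ e) (hea : e ≤ a)
    (hf : 0 ≤ f) (hfb : f ≤ b) :
    Integrable (fun r => (e * Real.exp (β * r) + f) / (b + a * Real.exp (β * r))) ρ := by
  refine Integrable.of_bound (meas39 β a b e f).aestronglyMeasurable 1
    (Eventually.of_forall fun r => ?_)
  have h1 := frac39 (β := β) ha hb hab he hea hf hfb r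
  rw [Real.norm_eq_abs, abs_of_nonneg h1.1]
  exact h1.2

open Classical in
/-- The scalar form of the one site inequality. -/
theorem scalarI39 (hρ : EM ρ) (hnc : ∀ c : ℝ, ρ {c} ≠ 1) {β : ℝ} (hβ : 0 < β) :
    ∃ q c : ℝ, 0 < c ∧ c ≤ 1 ∧ ∀ a b e f : ℝ, 0 ≤ e → e ≤ a → 0 ≤ f → f ≤ b → 0 < a + b →
      c * ∫ r, a * Real.exp (β * r) / (b + a * Real.exp (β * r)) *
          (f / (b + a * Real.exp (β * r))) ∂ρ -
        ∫ r, e * Real.exp (β * r) / (b + a * Real.exp (β * r)) ∂ρ ≤
      ∫ r, zt ρ q r * (((a - e) * Real.exp (β * r) + (b - f)) /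
        (b + a * Real.exp (β * r))) ∂ρ := by
  obtain ⟨q, q₂, hq, hp1, hp2⟩ := two39 hρ hnc
  set p₁ : ℝ := ρ.real (Set.Iic q) with hp₁
  set p₂ : ℝ := ρ.real (Set.Ici q₂) with hp₂
  set κ : ℝ := 1 - Real.exp (-(β * (q₂ - q))) with hκ
  set C : ℝ := Real.exp (β * (q₂ - q)) * ∫ r, Real.exp (2 * β * |r - q|) ∂ρ with hC
  have hκ0 : 0 < κ := by
    have := Real.exp_lt_exp.2 (show -(β * (q₂ - q)) < 0 by nlinarith)
    rw [Real.exp_zero] at this
    linarith
  have hκ1 : κ ≤ 1 := by
    have := Real.exp_pos (-(β * (q₂ - q)))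
    linarith
  have hp₁1 : p₁ ≤ 1 := measureReal_le_one
  have hp₂1 : p₂ ≤ 1 := measureReal_le_one
  have hC1 : 1 ≤ C := by
    have h1 : 1 ≤ Real.exp (β * (q₂ - q)) := Real.one_le_exp (by nlinarith)
    have h2 : 1 ≤ ∫ r, Real.exp (2 * β * |r - q|) ∂ρ := by
      have h3 := integral_mono (integrable_const (1 : ℝ)) (s39_int_exp_abs hρ (2 * β) q)
        (fun r => Real.one_le_exp (mul_nonneg (by linarith) (abs_nonneg (r - q))))
      simpa using h3
    nlinarith
  refine ⟨q, p₁ * p₂ * κ / C, by positivity, ?_, fun a b e f he hea hf hfb hab => ?_⟩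
  · rw [div_le_one (by linarith)]
    have h1 : p₁ * p₂ ≤ 1 := mul_le_one₀ hp₁1 hp2.le hp₂1
    have h2 : p₁ * p₂ * κ ≤ 1 := mul_le_one₀ h1 hκ0.le hκ1
    linarith
  have ha : 0 ≤ a := he.trans hea
  have hb : 0 ≤ b := hf.trans hfb
  set P : ℝ → ℝ := fun r => a * Real.exp (β * r) / (b + a * Real.exp (β * r)) with hP
  set F : ℝ → ℝ := fun r => f / (b + a * Real.exp (β * r)) with hF
  set E : ℝ → ℝ := fun r => e * Real.exp (β * r) / (b + a * Real.exp (β * r)) with hE
  set g : ℝ → ℝ := fun r => ((a - e) * Real.exp (β * r) + (b - f)) /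
    (b + a * Real.exp (β * r)) with hg
  have hP0 : ∀ r, 0 ≤ P r := fun r => by
    have h1 := den39 (β := β) ha hb hab r
    have h2 := Real.exp_pos (β * r)
    simp only [hP]
    positivity
  have hF0 : ∀ r, 0 ≤ F r := fun r => by
    have h1 := den39 (β := β) ha hb hab r
    simp only [hF]
    positivity
  have hE0 : ∀ r, 0 ≤ E r := fun r => by
    have h1 := den39 (β := β) ha hb hab r
    have h2 := Real.exp_pos (β * r)
    simp only [hE]
    positivity
  have hPm : Measurable P := by simpa using meas39 β a b a 0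
  have hFm : Measurable F := by simpa using meas39 β a b 0 f
  have hgi : Integrable g ρ := int_frac39 ha hb hab (by linarith) (by linarith) (by linarith)
    (by linarith)
  have hEi : Integrable E ρ := by
    have := int_frac39 (ρ := ρ) (β := β) ha hb hab he hea le_rfl hb
    simpa using this
  -- the upper bound of the product
  set G : ℝ := P q₂ * F q with hG
  have hG0 : 0 ≤ G := mul_nonneg (hP0 _) (hF0 _)
  have hup : ∫ r, P r * F r ∂ρ ≤ C * G := by
    have h1 : ∀ r, P r * F r ≤ Real.exp (β * (q₂ - q)) * Real.exp (2 * β * |r - q|) * G := by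
      intro r
      have h2 := harP39 (β := β) hβ ha hb hab r q₂
      have h3 := harF39 (β := β) hβ ha hb hab hf r q
      have h4 : P r * F r ≤ (Real.exp (β * max (r - q₂) 0) * P q₂) *
          (Real.exp (β * max (q - r) 0) * F q) :=
        mul_le_mul h2 h3 (hF0 r) (mul_nonneg (Real.exp_pos _).le (hP0 _))
      have h5 : Real.exp (β * max (r - q₂) 0) * Real.exp (β * max (q - r) 0) ≤
          Real.exp (β * (q₂ - q)) * Real.exp (2 * β * |r - q|) := by
        rw [← Real.exp_add, ← Real.exp_add]
        refine Real.exp_le_exp.2 ?_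
        have h6 : max (r - q₂) 0 ≤ |r - q| := max_le (by
          have := le_abs_self (r - q)
          linarith) (abs_nonneg _)
        have h7 : max (q - r) 0 ≤ |r - q| := max_le (by
          have := neg_le_abs (r - q)
          linarith) (abs_nonneg _)
        have h8 := mul_le_mul_of_nonneg_left h6 hβ.le
        have h9 := mul_le_mul_of_nonneg_left h7 hβ.le
        have h10 : 0 ≤ β * (q₂ - q) := mul_nonneg hβ.le (by linarith)
        linarith
      calc P r * F r ≤ _ := h4
        _ = Real.exp (β * max (r - q₂) 0) * Real.exp (β * max (q - r) 0) * G := by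
          rw [hG]; ring
        _ ≤ _ := mul_le_mul_of_nonneg_right h5 hG0
    have h2 : Integrable (fun r => Real.exp (β * (q₂ - q)) * Real.exp (2 * β * |r - q|) * G) ρ :=
      ((s39_int_exp_abs hρ (2 * β) q).const_mul _).mul_const _
    have h3 := integral_mono_of_nonneg
      (Eventually.of_forall fun r => mul_nonneg (hP0 r) (hF0 r)) h2 (Eventually.of_forall h1)
    rwa [integral_mul_const, integral_const_mul] at h3
  -- the separating number
  have hsep : ∀ r r' : ℝ, q < r → r' ≤ q →
      g r' ≤ g r - (if q₂ ≤ r then κ * G else 0) + E r := by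
    intro r r' hr hr'
    have h1 := ident39 (β := β) hβ he hea hf hfb hab (r := r) (r' := r') (by linarith)
    have h2 : (if q₂ ≤ r then κ * G else 0) ≤
        (1 - Real.exp (-(β * (r - r')))) * P r * F r' := by
      have h3 : 0 ≤ 1 - Real.exp (-(β * (r - r'))) := by
        have : Real.exp (-(β * (r - r'))) ≤ 1 := Real.exp_le_one_iff.2 (by nlinarith)
        linarith
      split_ifs with h4
      · have h5 : κ ≤ 1 - Real.exp (-(β * (r - r'))) := by
          have : Real.exp (-(β * (r - r'))) ≤ Real.exp (-(β * (q₂ - q))) :=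
            Real.exp_le_exp.2 (by nlinarith)
          rw [hκ]
          linarith
        have h6 : P q₂ ≤ P r := by
          have := harP39 (β := β) hβ ha hb hab q₂ r
          rwa [max_eq_right (by linarith), mul_zero, Real.exp_zero, one_mul] at this
        have h7 : F q ≤ F r' := by
          have := harF39 (β := β) hβ ha hb hab hf q r'
          rwa [max_eq_right (by linarith), mul_zero, Real.exp_zero, one_mul] at this
        rw [hG, ← mul_assoc]
        exact mul_le_mul (mul_le_mul h5 h6 (hP0 _) h3) h7 (hF0 _) (mul_nonneg h3 (hP0 _))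
      · exact mul_nonneg (mul_nonneg h3 (hP0 _)) (hF0 _)
    have h3 : g r' + (1 - Real.exp (-(β * (r - r')))) * P r * F r' ≤ g r + E r := h1
    linarith
  obtain ⟨M, hM1, hM2⟩ : ∃ M : ℝ, (∀ r', r' ≤ q → g r' ≤ M) ∧
      ∀ r, q < r → M ≤ g r - (if q₂ ≤ r then κ * G else 0) + E r := by
    have hne : (g '' Set.Iic q).Nonempty := ⟨g q, q, Set.mem_Iic.2 le_rfl, rfl⟩
    have hbd : BddAbove (g '' Set.Iic q) :=
      ⟨g (q + 1) - (if q₂ ≤ q + 1 then κ * G else 0) + E (q + 1), by
        rintro _ ⟨r', hr', rfl⟩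
        exact hsep (q + 1) r' (by linarith) hr'⟩
    refine ⟨sSup (g '' Set.Iic q), fun r' hr' => le_csSup hbd ⟨r', hr', rfl⟩, fun r hr => ?_⟩
    refine csSup_le hne ?_
    rintro _ ⟨r', hr', rfl⟩
    exact hsep r r' hr hr'
  -- the integrals
  set p : ℝ := ρ.real (Set.Ioi q) with hp
  have hpp : p₁ + p = 1 := by
    have h1 : (Set.Iic q)ᶜ = Set.Ioi q := Set.compl_Iic
    have h2 := probReal_compl_eq_one_sub (μ := ρ) (measurableSet_Iic (a := q))
    rw [h1] at h2
    rw [hp, h2]
    ring
  have hp0 : 0 ≤ p := measureReal_nonneg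
  have i1 : ∀ K : ℝ, Integrable (fun r => if q < r then K else 0) ρ := fun K => by
    have h1 : (fun r => if q < r then K else 0) = (Set.Ioi q).indicator fun _ => K := by
      funext r
      simp [Set.indicator_apply]
    rw [h1]
    exact (integrable_const K).indicator measurableSet_Ioi
  have i2 : ∀ K : ℝ, Integrable (fun r => if q < r then 0 else K) ρ := fun K => by
    have h1 : (fun r => if q < r then 0 else K) = (Set.Iic q).indicator fun _ => K := by
      funext r
      by_cases h : q < r
      · simp [h]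
      · simp [h, not_lt.1 h]
    rw [h1]
    exact (integrable_const K).indicator measurableSet_Iic
  have i3 : ∀ K : ℝ, Integrable (fun r => if q₂ ≤ r then K else 0) ρ := fun K => by
    have h1 : (fun r => if q₂ ≤ r then K else 0) = (Set.Ici q₂).indicator fun _ => K := by
      funext r
      simp [Set.indicator_apply]
    rw [h1]
    exact (integrable_const K).indicator measurableSet_Ici
  have v1 : ∀ K : ℝ, ∫ r, (if q < r then K else 0) ∂ρ = p * K := fun K => by
    have h1 : (fun r => if q < r then K else 0) = (Set.Ioi q).indicator fun _ => K := by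
      funext r
      simp [Set.indicator_apply]
    rw [h1, integral_indicator_const K measurableSet_Ioi, smul_eq_mul]
  have v2 : ∀ K : ℝ, ∫ r, (if q < r then 0 else K) ∂ρ = p₁ * K := fun K => by
    have h1 : (fun r => if q < r then 0 else K) = (Set.Iic q).indicator fun _ => K := by
      funext r
      by_cases h : q < r
      · simp [h]
      · simp [h, not_lt.1 h]
    rw [h1, integral_indicator_const K measurableSet_Iic, smul_eq_mul]
  have v3 : ∀ K : ℝ, ∫ r, (if q₂ ≤ r then K else 0) ∂ρ = p₂ * K := fun K => by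
    have h1 : (fun r => if q₂ ≤ r then K else 0) = (Set.Ici q₂).indicator fun _ => K := by
      funext r
      simp [Set.indicator_apply]
    rw [h1, integral_indicator_const K measurableSet_Ici, smul_eq_mul]
  have iu : Integrable (fun r => if q < r then g r else 0) ρ := by
    have h1 : (fun r => if q < r then g r else 0) = (Set.Ioi q).indicator g := by
      funext r
      simp [Set.indicator_apply]
    rw [h1]
    exact hgi.indicator measurableSet_Ioi
  have iw : Integrable (fun r => if q < r then 0 else g r) ρ := by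
    have h1 : (fun r => if q < r then 0 else g r) = (Set.Iic q).indicator g := by
      funext r
      by_cases h : q < r
      · simp [h]
      · simp [h, not_lt.1 h]
    rw [h1]
    exact hgi.indicator measurableSet_Iic
  set u : ℝ := ∫ r, (if q < r then g r else 0) ∂ρ with hu
  set w : ℝ := ∫ r, (if q < r then 0 else g r) ∂ρ with hw
  have hz : ∫ r, zt ρ q r * g r ∂ρ = p₁ * u - p * w := by
    have h1 : ∀ r, zt ρ q r * g r =
        p₁ * (if q < r then g r else 0) - p * (if q < r then 0 else g r) := by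
      intro r
      unfold zt
      rw [← hp]
      have h2 : p₁ = 1 - p := by linarith
      rw [h2]
      split_ifs <;> ring
    simp only [h1]
    rw [integral_sub (iu.const_mul _) (iw.const_mul _), integral_const_mul, integral_const_mul]
  have hw1 : w ≤ p₁ * M := by
    rw [← v2 M]
    refine integral_mono iw (i2 M) fun r => ?_
    show (if q < r then 0 else g r) ≤ (if q < r then 0 else M)
    split_ifs with h
    · exact le_rfl
    · exact hM1 r (not_lt.1 h)
  have hu1 : p * M + p₂ * (κ * G) - ∫ r, E r ∂ρ ≤ u := by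
    have j1 : Integrable (fun r => (if q < r then M else 0) + (if q₂ ≤ r then κ * G else 0)) ρ :=
      (i1 M).add (i3 _)
    have j2 : ∫ r, ((if q < r then M else 0) + (if q₂ ≤ r then κ * G else 0)) ∂ρ =
        p * M + p₂ * (κ * G) := by
      rw [integral_add (i1 M) (i3 _), v1, v3]
    have j3 : ∫ r, ((if q < r then M else 0) + (if q₂ ≤ r then κ * G else 0) - E r) ∂ρ =
        p * M + p₂ * (κ * G) - ∫ r, E r ∂ρ := by
      rw [integral_sub j1 hEi, j2]
    rw [← j3]
    refine integral_mono (((i1 M).add (i3 _)).sub hEi) iu fun r => ?_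
    show (if q < r then M else 0) + (if q₂ ≤ r then κ * G else 0) - E r ≤
      (if q < r then g r else 0)
    by_cases h : q < r
    · rw [if_pos h, if_pos h]
      have := hM2 r h
      linarith
    · rw [if_neg h, if_neg h, if_neg (by linarith)]
      have := hE0 r
      linarith
  rw [hz]
  have h1 : p₁ * p₂ * κ / C * ∫ r, P r * F r ∂ρ ≤ p₁ * p₂ * κ * G := by
    have h2 : 0 ≤ p₁ * p₂ * κ / C := by positivity
    have h3 := mul_le_mul_of_nonneg_left hup h2
    have h4 : p₁ * p₂ * κ / C * (C * G) = p₁ * p₂ * κ * G := by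
      have : C ≠ 0 := by linarith
      field_simp
    linarith
  have h2 := mul_le_mul_of_nonneg_left hu1 hp1.le
  have h3 := mul_le_mul_of_nonneg_left hw1 hp0
  have hEI : 0 ≤ ∫ r, E r ∂ρ := integral_nonneg hE0
  have h4 : p₁ * ∫ r, E r ∂ρ ≤ ∫ r, E r ∂ρ := mul_le_of_le_one_left hEI hp₁1
  have h5 : p₁ * p₂ * κ / C * ∫ r, P r * F r ∂ρ - ∫ r, E r ∂ρ ≤ p₁ * u - p * w := by
    nlinarith [h1, h2, h3, h4]
  exact h5

end scalar

end Pool.Agent.W_7d29a1_S90
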