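import Pool.Agent.W_7d29a1_S90.DefsO28

/-!
A set of times of positive density contains a time with many differences.
-/

namespace Pool.Agent.W_7d29a1_S90

open Finset

/-- The harmonic sum over an interval. -/
lemma harmI52 (a b : ℕ) (ha : 1 ≤ a) (hab : a ≤ b + 1) :
    Real.log ((b : ℝ) + 1) - Real.log a ≤ ∑ s ∈ Finset.Icc a b, 1 / (s : ℝ) := by
  have ha0 : (0 : ℝ) < a := by exact_mod_cast ha
  induction b with
  | zero =>
    have h1 : a = 1 := by omega
    subst h1
    simp
  | succ b ih =>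
    rcases Nat.lt_or_ge (b + 1) a with h1 | h1
    · have h2 : a = b + 1 + 1 := by omega
      subst h2
      simp
    · rw [Finset.sum_Icc_succ_top h1]
      have h2 := ih h1
      have hb : (0 : ℝ) < (b : ℝ) + 1 := by positivity
      have h3 : Real.log (((b + 1 : ℕ) : ℝ) + 1) ≤ Real.log ((b : ℝ) + 1) +
          1 / ((b + 1 : ℕ) : ℝ) := by
        have h4 : Real.log ((((b + 1 : ℕ) : ℝ) + 1) / ((b : ℝ) + 1)) ≤
            (((b + 1 : ℕ) : ℝ) + 1) / ((b : ℝ) + 1) - 1 :=
          Real.log_le_sub_one_of_pos (by positivity)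
        rw [Real.log_div (by positivity) (by positivity)] at h4
        have h5 : (((b + 1 : ℕ) : ℝ) + 1) / ((b : ℝ) + 1) - 1 = 1 / ((b + 1 : ℕ) : ℝ) := by
          push_cast
          field_simp
          ring
        linarith
      linarith

/-- The sum of the differences of order `j`. -/
lemma diffs52 (a : ℕ → ℝ) (M j : ℕ) (n : ℝ) (hj : j ≤ M) (h0 : ∀ i, 0 ≤ a i)
    (hn : ∀ i, a i ≤ n) : ∑ i ∈ Finset.Ico j M, (a i - a (i - j)) ≤ j * n := by
  have h1 : ∑ i ∈ Finset.Ico j M, a (i - j) = ∑ i ∈ Finset.range (M - j), a i := by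
    rw [Finset.sum_Ico_eq_sum_range]
    exact Finset.sum_congr rfl fun i _ => by rw [Nat.add_sub_cancel_left]
  rw [Finset.sum_sub_distrib, h1]
  have h2 := Finset.sum_range_add_sum_Ico a hj
  have h3 := Finset.sum_range_add_sum_Ico a (Nat.sub_le M j)
  have h4 : 0 ≤ ∑ i ∈ Finset.range j, a i := Finset.sum_nonneg fun i _ => h0 i
  have h5 : ∑ i ∈ Finset.Ico (M - j) M, a i ≤ j * n := by
    calc ∑ i ∈ Finset.Ico (M - j) M, a i ≤ (Finset.Ico (M - j) M).card • n :=
          Finset.sum_le_card_nsmul _ _ _ fun i _ => hn i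
      _ = j * n := by
          rw [Nat.card_Ico, nsmul_eq_mul]
          congr 2
          omega
  linarith

theorem seT52 : SeT := by
  intro n s₀ s₁ θ T hs₀ hθ hT hne hcard hs₁
  classical
  obtain ⟨M, hM⟩ : ∃ M : ℕ, M = T.card := ⟨_, rfl⟩
  have hM0 : 0 < M := by rw [hM]; exact hne.card_pos
  have hn0 : 0 < n := by
    obtain ⟨t, ht⟩ := hne
    have := Finset.mem_Icc.1 (hT ht)
    omega
  have hn0' : (0 : ℝ) < n := by exact_mod_cast hn0
  have hM0' : (0 : ℝ) < M := by exact_mod_cast hM0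
  set e := T.orderEmbOfFin hM.symm with he
  obtain ⟨a, ha⟩ : ∃ a : ℕ → ℕ, a = fun i => if h : i < M then e ⟨i, h⟩ else 1 := ⟨_, rfl⟩
  have ha_eq : ∀ i (h : i < M), a i = e ⟨i, h⟩ := fun i h => by rw [ha]; simp [h]
  have ha_mem : ∀ i, i < M → a i ∈ T := fun i h => by
    rw [ha_eq i h]
    exact Finset.orderEmbOfFin_mem T hM.symm ⟨i, h⟩
  have ha_lt : ∀ i j, i < j → j < M → a i < a j := fun i j hij hj => by
    rw [ha_eq i (hij.trans hj), ha_eq j hj]
    exact e.strictMono (by simpa using hij)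
  have ha1 : ∀ i, 1 ≤ a i := fun i => by
    by_cases h : i < M
    · exact (Finset.mem_Icc.1 (hT (ha_mem i h))).1
    · rw [ha]; simp [h]
  have han : ∀ i, a i ≤ n := fun i => by
    by_cases h : i < M
    · exact (Finset.mem_Icc.1 (hT (ha_mem i h))).2
    · rw [ha]; simp [h]; omega
  -- differences are at least the order
  have hdiff : ∀ j i, j ≤ i → i < M → a (i - j) + j ≤ a i := by
    intro j
    induction j with
    | zero => intro i _ _; simp
    | succ j ih =>
      intro i hji hi
      have h1 := ih i (by omega) hi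
      have h2 := ha_lt (i - (j + 1)) (i - j) (by omega) (by omega)
      omega
  -- the sum of the inverse differences of order `j`
  have hinv : ∀ j, 1 ≤ j → j ≤ s₁ → θ * M / 4 * (1 / (j : ℝ)) ≤
      ∑ i ∈ Finset.Ico j M, 1 / ((a i : ℝ) - a (i - j)) := by
    intro j hj1 hj2
    have hj0 : (0 : ℝ) < j := by exact_mod_cast (by omega : 0 < j)
    have hjM : 2 * j ≤ M := by omega
    have hpos : ∀ i ∈ Finset.Ico j M, 0 < (a i : ℝ) - a (i - j) := by
      intro i hi
      have h1 := Finset.mem_Ico.1 hi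
      have h2 := hdiff j i h1.1 h1.2
      have h3 : ((a (i - j) + j : ℕ) : ℝ) ≤ a i := by exact_mod_cast h2
      push_cast at h3
      linarith
    have h1 := Finset.sq_sum_div_le_sum_sq_div (Finset.Ico j M) (fun _ => (1 : ℝ)) hpos
    have h2 := diffs52 (fun i => (a i : ℝ)) M j n (by omega) (fun i => Nat.cast_nonneg _)
      (fun i => by exact_mod_cast han i)
    simp only [Finset.sum_const, nsmul_eq_mul, mul_one, Nat.card_Ico, one_pow] at h1
    have hne' : (Finset.Ico j M).Nonempty := ⟨j, Finset.mem_Ico.2 ⟨le_rfl, by omega⟩⟩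
    have h3 : 0 < ∑ i ∈ Finset.Ico j M, ((a i : ℝ) - a (i - j)) := Finset.sum_pos hpos hne'
    refine le_trans ?_ h1
    have h4 : (M : ℝ) / 2 ≤ ((M - j : ℕ) : ℝ) := by
      rw [Nat.cast_sub (by omega)]
      have : (2 : ℝ) * j ≤ M := by exact_mod_cast hjM
      linarith
    have h5 : ((M : ℝ) / 2) ^ 2 ≤ ((M - j : ℕ) : ℝ) ^ 2 := pow_le_pow_left₀ (by positivity) h4 2
    calc θ * M / 4 * (1 / (j : ℝ)) = ((M : ℝ) / 2) * (θ * n / 2) / (j * n) := by
          field_simp
          ring
      _ ≤ ((M : ℝ) / 2) * ((M : ℝ) / 2) / (j * n) := by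
          refine div_le_div_of_nonneg_right (mul_le_mul_of_nonneg_left ?_ (by positivity))
            (by positivity)
          rw [hM]
          linarith
      _ = ((M : ℝ) / 2) ^ 2 / (j * n) := by ring
      _ ≤ ((M - j : ℕ) : ℝ) ^ 2 / (j * n) := div_le_div_of_nonneg_right h5 (by positivity)
      _ ≤ ((M - j : ℕ) : ℝ) ^ 2 / ∑ i ∈ Finset.Ico j M, ((a i : ℝ) - a (i - j)) :=
          div_le_div_of_nonneg_left (by positivity) h3 h2
  -- one time
  have hone : ∀ i, i < M → ∑ j ∈ (Finset.Icc s₀ s₁).filter (fun j => j ≤ i),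
      1 / ((a i : ℝ) - a (i - j)) ≤
      ∑ s ∈ (Finset.Icc s₀ s₁).filter (fun s => s < a i ∧ a i - s ∈ T), 1 / (s : ℝ) + 1 := by
    intro i hi
    set J := (Finset.Icc s₀ s₁).filter (fun j => j ≤ i) with hJ
    have hcast : ∀ j ∈ J, (a i : ℝ) - a (i - j) = ((a i - a (i - j) : ℕ) : ℝ) := by
      intro j hj
      have h1 := (Finset.mem_filter.1 hj).2
      have h2 := hdiff j i h1 hi
      rw [Nat.cast_sub (by omega)]
    rw [Finset.sum_congr rfl fun j hj => by rw [hcast j hj]]
    rw [← Finset.sum_filter_add_sum_filter_not J (fun j => a i - a (i - j) ≤ s₁)]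
    refine add_le_add ?_ ?_
    · -- small differences
      rw [← Finset.sum_image (f := fun s : ℕ => 1 / (s : ℝ))
        (g := fun j => a i - a (i - j)) (s := J.filter fun j => a i - a (i - j) ≤ s₁)]
      · refine Finset.sum_le_sum_of_subset_of_nonneg ?_ fun s _ _ => by positivity
        intro s hs
        obtain ⟨j, hj, rfl⟩ := Finset.mem_image.1 hs
        obtain ⟨hj1, hj2⟩ := Finset.mem_filter.1 hj
        obtain ⟨hj3, hj4⟩ := Finset.mem_filter.1 hj1
        have hj5 := Finset.mem_Icc.1 hj3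
        have h2 := hdiff j i hj4 hi
        have h3 := ha1 (i - j)
        refine Finset.mem_filter.2 ⟨Finset.mem_Icc.2 ⟨by omega, hj2⟩, by omega, ?_⟩
        have h4 : a i - (a i - a (i - j)) = a (i - j) := by omega
        rw [h4]
        exact ha_mem _ (by omega)
      · intro j hj j' hj' hjj
        obtain ⟨hj1, _⟩ := Finset.mem_filter.1 hj
        obtain ⟨_, hj4⟩ := Finset.mem_filter.1 hj1
        obtain ⟨hj1', _⟩ := Finset.mem_filter.1 hj'
        obtain ⟨_, hj4'⟩ := Finset.mem_filter.1 hj1'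
        have h2 := hdiff j i hj4 hi
        have h2' := hdiff j' i hj4' hi
        have h3 : a (i - j) = a (i - j') := by
          simp only at hjj
          omega
        by_contra hne2
        rcases Nat.lt_or_gt_of_ne hne2 with h | h
        · have := ha_lt (i - j') (i - j) (by omega) (by omega)
          omega
        · have := ha_lt (i - j) (i - j') (by omega) (by omega)
          omega
    · -- large differences
      rcases Nat.eq_zero_or_pos s₁ with h0 | h0
      · have : J = ∅ := by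
          rw [hJ, Finset.filter_eq_empty_iff]
          intro j hj
          have := Finset.mem_Icc.1 hj
          omega
        rw [this]
        simp
      · have hs0 : (0 : ℝ) < s₁ := by exact_mod_cast h0
        calc ∑ j ∈ J.filter (fun j => ¬ a i - a (i - j) ≤ s₁), 1 / ((a i - a (i - j) : ℕ) : ℝ)
            ≤ (J.filter (fun j => ¬ a i - a (i - j) ≤ s₁)).card • (1 / (s₁ : ℝ)) := by
              refine Finset.sum_le_card_nsmul _ _ _ fun j hj => ?_
              have h1 := (Finset.mem_filter.1 hj).2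
              refine one_div_le_one_div_of_le hs0 ?_
              exact_mod_cast (not_le.1 h1).le
          _ ≤ s₁ * (1 / (s₁ : ℝ)) := by
              rw [nsmul_eq_mul]
              refine mul_le_mul_of_nonneg_right ?_ (by positivity)
              have h1 : (J.filter (fun j => ¬ a i - a (i - j) ≤ s₁)).card ≤ (Finset.Icc s₀ s₁).card :=
                Finset.card_le_card ((Finset.filter_subset _ _).trans (Finset.filter_subset _ _))
              rw [Nat.card_Icc] at h1
              exact_mod_cast (by omega : (J.filter (fun j => ¬ a i - a (i - j) ≤ s₁)).card ≤ s₁)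
          _ = 1 := by field_simp
  -- the conclusion
  rcases Nat.lt_or_ge (s₁ + 1) s₀ with hlt | hge
  · obtain ⟨t, ht⟩ := hne
    refine ⟨t, ht, ?_⟩
    have h1 : Real.log ((s₁ : ℝ) + 1) ≤ Real.log s₀ := by
      refine Real.log_le_log (by positivity) ?_
      exact_mod_cast hlt.le
    have h2 : 0 ≤ ∑ s ∈ (Finset.Icc s₀ s₁).filter (fun s => s < t ∧ t - s ∈ T), 1 / (s : ℝ) :=
      Finset.sum_nonneg fun s _ => by positivity
    nlinarith
  · have hL := harmI52 s₀ s₁ hs₀ hge
    set L := Real.log ((s₁ : ℝ) + 1) - Real.log s₀ with hLdef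
    have htot : θ * M / 4 * L ≤ ∑ i ∈ Finset.range M,
        ∑ j ∈ (Finset.Icc s₀ s₁).filter (fun j => j ≤ i), 1 / ((a i : ℝ) - a (i - j)) := by
      have h1 : ∑ i ∈ Finset.range M, ∑ j ∈ (Finset.Icc s₀ s₁).filter (fun j => j ≤ i),
          1 / ((a i : ℝ) - a (i - j)) =
          ∑ j ∈ Finset.Icc s₀ s₁, ∑ i ∈ Finset.Ico j M, 1 / ((a i : ℝ) - a (i - j)) := by
        refine Finset.sum_comm' fun i j => ?_
        simp only [Finset.mem_range, Finset.mem_filter, Finset.mem_Icc, Finset.mem_Ico]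
        constructor
        · rintro ⟨h1, h2, h3⟩
          exact ⟨⟨h3, h1⟩, h2⟩
        · rintro ⟨⟨h3, h1⟩, h2⟩
          exact ⟨h1, h2, h3⟩
      rw [h1]
      calc θ * M / 4 * L ≤ θ * M / 4 * ∑ j ∈ Finset.Icc s₀ s₁, 1 / (j : ℝ) :=
            mul_le_mul_of_nonneg_left hL (by positivity)
        _ = ∑ j ∈ Finset.Icc s₀ s₁, θ * M / 4 * (1 / (j : ℝ)) := by rw [Finset.mul_sum]
        _ ≤ _ := Finset.sum_le_sum fun j hj => by
            have := Finset.mem_Icc.1 hj
            exact hinv j (by omega) this.2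
    have hsum : ∑ i ∈ Finset.range M, (θ / 4 * L - 1) ≤ ∑ i ∈ Finset.range M,
        ∑ s ∈ (Finset.Icc s₀ s₁).filter (fun s => s < a i ∧ a i - s ∈ T), 1 / (s : ℝ) := by
      have h1 : ∑ i ∈ Finset.range M,
          ∑ j ∈ (Finset.Icc s₀ s₁).filter (fun j => j ≤ i), 1 / ((a i : ℝ) - a (i - j)) ≤
          ∑ i ∈ Finset.range M,
            (∑ s ∈ (Finset.Icc s₀ s₁).filter (fun s => s < a i ∧ a i - s ∈ T), 1 / (s : ℝ) + 1) :=
        Finset.sum_le_sum fun i hi => hone i (Finset.mem_range.1 hi)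
      rw [Finset.sum_add_distrib] at h1
      simp only [Finset.sum_const, Finset.card_range, nsmul_eq_mul, mul_one] at h1 ⊢
      have h2 : (M : ℝ) * (θ / 4 * L - 1) = θ * M / 4 * L - M := by ring
      rw [h2]
      linarith
    obtain ⟨i, hi, hle⟩ := Finset.exists_le_of_sum_le
      (Finset.nonempty_range_iff.2 hM0.ne') hsum
    exact ⟨a i, ha_mem i (Finset.mem_range.1 hi), hle⟩

end Pool.Agent.W_7d29a1_S90
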