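import Pool.Agent.W_7d29a1_S90.WinO28

/-!
Theorem ORI: the inequality for one length, with free parameters.
-/

namespace Pool.Agent.W_7d29a1_S90

open MeasureTheory ProbabilityTheory Filter Topology Pool.Agent.W_MP_7d29a1_pr
  Pool.Agent.W_7d29a1_h46 Pool.Agent.W_7d29a1_h46u Pool.Agent.W_7d29a1_D2.B35
  Pool.Agent.W_7d29a1_Q29

/-- The terms which are at most four times the average bound. -/
theorem cntO28 {T : Finset ℕ} {f : ℕ → ℝ} {V : ℝ} (hV : 0 < V) (hf : ∀ t ∈ T, 0 ≤ f t)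
    (hs : ∑ t ∈ T, f t ≤ V) :
    ((T.filter fun t => 4 * V / T.card < f t).card : ℝ) ≤ T.card / 4 := by
  rcases T.eq_empty_or_nonempty with h | h
  · subst h
    simp
  have hT : (0 : ℝ) < T.card := by exact_mod_cast h.card_pos
  set G := T.filter fun t => 4 * V / T.card < f t with hG
  have h1 : (G.card : ℝ) * (4 * V / T.card) ≤ V := by
    calc (G.card : ℝ) * (4 * V / T.card) = ∑ t ∈ G, 4 * V / T.card := by
          rw [Finset.sum_const, nsmul_eq_mul]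
      _ ≤ ∑ t ∈ G, f t := Finset.sum_le_sum fun t ht => (Finset.mem_filter.mp ht).2.le
      _ ≤ ∑ t ∈ T, f t := Finset.sum_le_sum_of_subset_of_nonneg (Finset.filter_subset _ _)
          fun t ht _ => hf t ht
      _ ≤ V := hs
  rw [← mul_div_assoc, div_le_iff₀ hT] at h1
  have h2 : (G.card : ℝ) * 4 ≤ T.card := by
    have : V * ((G.card : ℝ) * 4) ≤ V * T.card := by linarith
    exact le_of_mul_le_mul_left this hV
  linarith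

/-- The inequality for one length. -/
theorem stepO28 {ρ : Measure ℝ} [IsProbabilityMeasure ρ] {β : ℝ} (hCa : CaT 2 ρ β)
    (hCs : CsT 2 ρ β) (hCo : CsO 2 ρ β) (hKc : KcT 2 ρ β) (hKs : KsT 2 ρ β) (hSt : StM 2 ρ β)
    (hVu : VuT 2 ρ β) (hJe : JeT) (hWi : WiT 2 ρ β) (hAs : AsO) (hSe : SeT)
    {cB CB cL CL cI CI : ℝ} (hcB : 0 < cB) (hCB : 0 ≤ CB)
    (hRl : ∀ (h h' : Vec 2) (n : ℕ) (T : Finset ℕ), T ⊆ Finset.Icc 1 n →
      ∑ t ∈ T, ∫ η, ∑ y ∈ boxF 2 n, bw ρ β h h' n t cB CB y η ^ 2 ∂(law 2 ρ) ≤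
        ∫ η, (X β h η n - X β h' η n - (A ρ β h n - A ρ β h' n)) ^ 2 ∂(law 2 ρ))
    (hcL : 0 < cL) (hcL1 : cL ≤ 1) (hCL : 0 ≤ CL)
    (hLo : ∀ (h h' : Vec 2) (n : ℕ) (T : Finset ℕ), T ⊆ Finset.Icc 1 n →
      ∑ t ∈ T, ∫ η, ∑ y ∈ boxF 2 n, aw ρ β h h' n t cL CL y η ^ 2 ∂(law 2 ρ) ≤
        ∫ η, (X β h η n - X β h' η n - (A ρ β h n - A ρ β h' n)) ^ 2 ∂(law 2 ρ))
    (hcI : 0 < cI) (hcI1 : cI ≤ 1)
    (hIn : ∀ (h : Vec 2) (n t s₀ s₁ : ℕ) (T : Finset ℕ) (R a κ K : ℝ), 1 ≤ n → 1 ≤ t → t ≤ n →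
      1 ≤ s₀ → s₁ < t → 1 ≤ R → 0 < a → 0 < κ → κ ≤ 1 → 1 ≤ K → 4 * K * s₁ ≤ a * n →
      (∃ m : Vec 2, ∫ η, pe β h η (fun s : Fin n → Step 2 => ‖emb (pos s t) - m‖ ^ 2)
        ∂(law 2 ρ) ≤ R * n) →
      (∀ s ∈ Finset.Icc s₀ s₁, t - s ∈ T → ∃ m : Vec 2,
        Tl ρ β h n (t - s) t m (Real.sqrt (K * s)) ≤ cI * κ ^ 2) →
      κ ≤ Rp ρ β h n t (Real.sqrt (a * n)) →
        En ρ β h n t (t - 1) ≤ Real.log n + Real.log R + CI -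
          cI * κ ^ 4 / K * ∑ s ∈ (Finset.Icc s₀ s₁).filter (fun s => t - s ∈ T), 1 / (s : ℝ))
    {h e : Vec 2} (he : ‖e‖ = 1) {n : ℕ} {α R l c k θ κ ϑ K V₂ V₃ a₂ a₃ γ E : ℝ}
    {J A' A₁ s₀ s₁ : ℕ} (hn : 1 ≤ n) (hαn : (n : ℝ) ^ α ≤ n) (hR : 1 ≤ R) (hl : 0 < l)
    (hc : 0 < c) (hc1 : c ≤ 1) (hk : 0 < k) (hA : 0 < A') (hA₁ : 0 < A₁) (hJ : J * k = l)
    (hW : ∀ s ∈ Set.Icc (0 : ℝ) l, W0 ρ β (h + s • e) n α R)
    (hk1 : 128 * R ≤ c ^ 2 * (n * (k / A' / A₁) ^ 2))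
    (hk2 : c ^ 2 * (n * (k / A' / A₁) ^ 2) ≤ 512 * R)
    {T : Finset ℕ} (hT : T.Nonempty)
    (hT1 : ∀ t ∈ T, 1 ≤ t ∧ t ≤ n ∧ (n : ℝ) ^ α ≤ t ∧ s₁ < t)
    (hT2 : ∀ t ∈ T, 2 * c * l * n ≤ Ft ρ β (h + l • e) e n t - Ft ρ β h e n t)
    (hθ : 0 < θ) (hθT : θ * n ≤ c ^ 4 / (1024 * R ^ 4) * T.card)
    (hκ : κ = c ^ 4 / (524288 * R ^ 4)) (hϑ : ϑ = cI * κ ^ 2)
    (hV2 : 8 * a₂ ^ 2 * R + 16 * R ^ 2 * a₂ ^ 4 ≤ V₂) (hV20 : 0 < V₂)
    (hV3 : 8 * a₃ ^ 2 * R + 16 * R ^ 2 * a₃ ^ 4 ≤ V₃) (hV30 : 0 < V₃)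
    (ha2 : k ^ 2 * n ≤ 4 * a₂ ^ 2) (ha3 : (k / A') ^ 2 * n ≤ 4 * a₃ ^ 2)
    (hq2 : 192 * (1 + CB / cB) * R ≤ c ^ 2 * ϑ * ((k / A') ^ 2 * n)) (hK1 : 1 ≤ K)
    (hK2 : 972 * V₃ * R ^ 2 ≤ K * (θ * cB ^ 2 * ϑ ^ 3))
    (hs0 : 1 ≤ s₀) (hs0α : (n : ℝ) ^ α ≤ s₀) (hs1 : 4 * K * s₁ ≤ c ^ 2 / 1024 / R * n)
    (hs1θ : 4 * (s₁ : ℝ) ≤ θ * n) (hγ : 0 < γ) (hγ1 : γ ≤ 1) (hE : 0 ≤ E)
    (hka : 64 * R * (cL + CL) ≤ cL * c ^ 2 * γ * (k ^ 2 * n))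
    (hnum : Real.log n + Real.log R + CI - cI * κ ^ 4 / K *
      (θ / 2 / 4 * (Real.log ((s₁ : ℝ) + 1) - Real.log s₀) - 1) ≤ (1 - γ) * Real.log n + E) :
    cL / 2 * Real.exp (-((1 - γ / 2) * Real.log n + 2 * E + 2 / cL)) ≤ 4 * V₂ / (θ * n) := by
  have hn' : (0 : ℝ) < n := by exact_mod_cast hn
  have hR0 : 0 < R := by linarith
  have hA0 : (0 : ℝ) < A' := by exact_mod_cast hA
  have hκ0 : 0 < κ := by rw [hκ]; positivity
  have hκ1 : κ ≤ 1 := by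
    rw [hκ, div_le_one (by positivity)]
    have h1 : c ^ 4 ≤ 1 := pow_le_one₀ hc.le hc1
    have h2 : 1 ≤ R ^ 4 := one_le_pow₀ hR
    linarith
  have hϑ0 : 0 < ϑ := by rw [hϑ]; positivity
  have hϑ1 : ϑ ≤ 1 := by
    rw [hϑ]
    exact mul_le_one₀ hcI1 (by positivity) (pow_le_one₀ hκ0.le hκ1)
  obtain ⟨s, hs, s', hs', s'', hs'', hss, hss2, T', hT', hcard, hgood⟩ :=
    pickO28 hCa hCs hCo hKc hKs hAs he hn hR hl hc hc1 hk hA hA₁ hJ hW hk1 hk2 hT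
      (fun t ht => ⟨(hT1 t ht).1, (hT1 t ht).2.1, (hT1 t ht).2.2.1⟩) hT2
  have hcard' : θ * n ≤ (T'.card : ℝ) := hθT.trans hcard
  have hN : (0 : ℝ) < T'.card := lt_of_lt_of_le (by positivity) hcard'
  have hTI : T' ⊆ Finset.Icc 1 n := fun t ht => by
    obtain ⟨h1, h2, -⟩ := hT1 t (hT' ht)
    exact Finset.mem_Icc.mpr ⟨h1, h2⟩
  set g := h + s • e with hg
  set fP : ℕ → ℝ := fun t => ∫ η, ∑ y ∈ boxF 2 n, bw ρ β g (h + s'' • e) n t cB CB y η ^ 2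
    ∂(law 2 ρ) with hfP
  set fM : ℕ → ℝ := fun t => ∫ η, ∑ y ∈ boxF 2 n, aw ρ β g (h + s' • e) n t cL CL y η ^ 2
    ∂(law 2 ρ) with hfM
  have hP0 : ∀ t ∈ T', 0 ≤ fP t := fun t _ =>
    integral_nonneg fun η => Finset.sum_nonneg fun y _ => sq_nonneg _
  have hM0 : ∀ t ∈ T', 0 ≤ fM t := fun t _ =>
    integral_nonneg fun η => Finset.sum_nonneg fun y _ => sq_nonneg _
  have hPs : ∑ t ∈ T', fP t ≤ V₃ := ((hRl g (h + s'' • e) n T' hTI).trans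
    (upO28 hCa hCs hCo hVu he hn hαn hR hW hs hs'' hss2 ha3)).trans hV3
  have hMs : ∑ t ∈ T', fM t ≤ V₂ := ((hLo g (h + s' • e) n T' hTI).trans
    (upO28 hCa hCs hCo hVu he hn hαn hR hW hs hs' hss ha2)).trans hV2
  have hcP := cntO28 hV30 hP0 hPs
  have hcM := cntO28 hV20 hM0 hMs
  set T₃ := T'.filter fun t => fP t ≤ 4 * V₃ / T'.card ∧ fM t ≤ 4 * V₂ / T'.card with hT3
  have hcov : T' ⊆ T₃ ∪ ((T'.filter fun t => 4 * V₃ / T'.card < fP t) ∪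
      (T'.filter fun t => 4 * V₂ / T'.card < fM t)) := by
    intro t ht
    by_cases h1 : fP t ≤ 4 * V₃ / T'.card
    · by_cases h2 : fM t ≤ 4 * V₂ / T'.card
      · exact Finset.mem_union_left _ (Finset.mem_filter.mpr ⟨ht, h1, h2⟩)
      · exact Finset.mem_union_right _ (Finset.mem_union_right _
          (Finset.mem_filter.mpr ⟨ht, not_le.mp h2⟩))
    · exact Finset.mem_union_right _ (Finset.mem_union_left _
        (Finset.mem_filter.mpr ⟨ht, not_le.mp h1⟩))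
  have hc3 : (T'.card : ℝ) / 2 ≤ T₃.card := by
    have h1 : T'.card ≤ T₃.card + ((T'.filter fun t => 4 * V₃ / T'.card < fP t).card +
        (T'.filter fun t => 4 * V₂ / T'.card < fM t).card) :=
      (Finset.card_le_card hcov).trans ((Finset.card_union_le _ _).trans
        (Nat.add_le_add_left (Finset.card_union_le _ _) _))
    have h2 : (T'.card : ℝ) ≤ T₃.card + (((T'.filter fun t => 4 * V₃ / T'.card < fP t).card : ℝ) +
        ((T'.filter fun t => 4 * V₂ / T'.card < fM t).card : ℝ)) := by exact_mod_cast h1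
    linarith
  have hT3T : T₃ ⊆ T' := Finset.filter_subset _ _
  have hc3' : θ / 2 * n ≤ (T₃.card : ℝ) := by linarith
  have hT3n : T₃.Nonempty := by
    rw [← Finset.card_pos]
    have : (0 : ℝ) < T₃.card := lt_of_lt_of_le (by positivity) hc3'
    exact_mod_cast this
  obtain ⟨t, ht, hsum⟩ := hSe n s₀ s₁ (θ / 2) T₃ hs0 (by positivity) (hT3T.trans hTI) hT3n hc3'
    (by
      have h1 : ((2 * s₁ : ℕ) : ℝ) ≤ T₃.card := by push_cast; linarith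
      exact_mod_cast h1)
  have htT' := hT3T ht
  obtain ⟨ht1, ht2, ht3, ht4⟩ := hT1 t (hT' htT')
  obtain ⟨hg1, hg2, -⟩ := hgood t htT'
  have hEn := hIn g n t s₀ s₁ T₃ R (c ^ 2 / 1024 / R) κ K hn ht1 ht2 hs0 ht4 hR (by positivity)
    hκ0 hκ1 hK1 hs1
    (by
      obtain ⟨m, hm⟩ := hW s hs n t ht1 ht2 le_rfl ht3
      exact ⟨m, hm.trans (mul_le_mul_of_nonneg_left (by exact_mod_cast ht2) hR0.le)⟩)
    (fun u hu huT => by
      obtain ⟨hu1, hu2⟩ := Finset.mem_Icc.mp hu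
      have hut : u < t := lt_of_le_of_lt hu2 ht4
      have h1 := hT1 (t - u) (hT' (hT3T huT))
      have h2 := (hgood (t - u) (hT3T huT)).2.2
      have h3 := (Finset.mem_filter.mp huT).2.1
      have h4 : t - (t - u) = u := by omega
      have h5 : fP (t - u) ≤ 4 * V₃ / (θ * n) := h3.trans
        (div_le_div_of_nonneg_left (by positivity) (by positivity) hcard')
      have h6 := winO28 (n := n) (τ := t - u) (t := t) hWi hCo he h1.1 (by omega) ht2 h1.2.2.1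
        (by rw [h4]; exact hs0α.trans (by exact_mod_cast hu1)) hR (hW s hs) (hW s'' hs'')
        hcB hCB hc (by positivity : 0 < k / A') hθ (by linarith) hϑ0 hϑ1 h2 h5 hq2 hK2
      rw [h4, hϑ] at h6
      exact h6)
    (by rw [hκ]; exact hg1)
  have hfil : (Finset.Icc s₀ s₁).filter (fun s => s < t ∧ t - s ∈ T₃) =
      (Finset.Icc s₀ s₁).filter (fun s => t - s ∈ T₃) := by
    refine Finset.filter_congr fun u hu => ?_
    have := (Finset.mem_Icc.mp hu).2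
    exact ⟨fun h => h.2, fun h => ⟨lt_of_le_of_lt this ht4, h⟩⟩
  rw [hfil] at hsum
  have hEn' : En ρ β g n t (t - 1) ≤ (1 - γ) * Real.log n + E := by
    refine hEn.trans (le_trans ?_ hnum)
    have h1 : 0 ≤ cI * κ ^ 4 / K := by positivity
    have h2 := mul_le_mul_of_nonneg_left hsum h1
    linarith
  have hLL : 0 ≤ Real.log n := Real.log_nonneg (by exact_mod_cast hn)
  have hlow := low45 (k := k) (by norm_num) hJe hSt he ht1 ht2 hcL hcL1 hCL hc hk hγ hγ1 hLL hE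
    (secO28 hCs hCo he ht1 ht2 ht3 hR0.le (hW s hs)).1
    (secO28 hCs hCo he ht1 ht2 ht3 hR0.le (hW s' hs')).1 hg2 hka hEn'
  refine hlow.trans ?_
  have h7 : fM t ≤ 4 * V₂ / T'.card := (Finset.mem_filter.mp ht).2.2
  exact h7.trans (div_le_div_of_nonneg_left (by positivity) (by positivity) hcard')

end Pool.Agent.W_7d29a1_S90
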