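import Pool.Agent.W_7d29a1_S90.Plug90
import Pool.Agent.W_7d29a1_S90.KmT71
import Pool.Agent.W_7d29a1_S90.AsK85
import Pool.Agent.W_7d29a1_S90.MainK45

/-!
Theorem SUP with second moments.
-/

namespace Pool.Agent.W_7d29a1_S90

open MeasureTheory ProbabilityTheory Filter Topology Pool.Agent.W_MP_7d29a1_pr
  Pool.Agent.W_7d29a1_h46 Pool.Agent.W_7d29a1_h46u Pool.Agent.W_7d29a1_D2.B35
  Pool.Agent.W_7d29a1_Q29

/-- Dimension two: on every segment of tilts on which the free energy is not affine there is, for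
all large `n`, a tilt with a superdiffusive window. -/
theorem supK90 {ρ : Measure ℝ} [IsProbabilityMeasure ρ] (hρ : EM ρ)
    (hnc : ∀ c : ℝ, ρ {c} ≠ 1) {β : ℝ} (hβ : 0 < β) : MainK ρ β := by
  have hd : 0 < 2 := by norm_num
  have hKr : KrT 2 ρ β := krT28 hd β
  have hKs : KsT 2 ρ β := ksT18 (kaT10 hd β) hKr (kmT71 hd β)
  exact mainK45 (caT10 hd β) (csT75 hd β) (csK54 hd β) (kcT10 hd β) hKs (inK90 hρ hnc hβ)
    (loV90 hd hρ hnc hβ) (stM86 hd β) (vuT31 hd hρ β) (drT56 hd hρ β) jeT41 asK85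

end Pool.Agent.W_7d29a1_S90
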