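import Pool.Agent.W_7d29a1_S90.SupK90
import Pool.Agent.W_7d29a1_S90.Top2x17

/-!
Theorem SUP with second moments, in the letters of the problem.
-/

namespace Pool.Agent.W_7d29a1_S90

open MeasureTheory ProbabilityTheory Filter Topology Pool.Agent.W_MP_7d29a1_pr
  Pool.Agent.W_7d29a1_h46 Pool.Agent.W_7d29a1_h46u Pool.Agent.W_7d29a1_D2.B35
  Pool.Agent.W_7d29a1_Q29

variable {d : ℕ} {ρ : Measure ℝ} [IsProbabilityMeasure ρ] {β : ℝ} {Ω : Type*}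
  [MeasurableSpace Ω] {μ : Measure Ω} [IsProbabilityMeasure μ] {ω : ℕ × Site d → Ω → ℝ}

/-- Theorem SUP. -/
theorem supP90 (hω : IID μ ρ ω) (hρ : EM ρ) (hnc : ∀ c : ℝ, ρ {c} ≠ 1) (hβ : 0 < β)
    (hd : d = 2) {α : ℝ} (hα : α < 1) :
    (∀ U : Set (Vec d), IsOpen U → U.Nonempty → ∀ᶠ n : ℕ in atTop, ∃ h ∈ U, ∃ τ t : ℕ,
      τ < t ∧ t ≤ n ∧ (n : ℝ) ^ α ≤ (t : ℝ) - τ ∧ ∀ m : Vec d,
        Real.log n ^ ((1 : ℝ) / 30) * ((t : ℝ) - τ) <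
          ∫ x, ∑ s : Fin n → Step d, PolT β h (fun p => ω p x) {s} *
            ‖emb (pos s t) - emb (pos s τ) - m‖ ^ 2 ∂μ) ∧
    ∀ᶠ h : Vec d in residual (Vec d), ∃ᶠ n : ℕ in atTop, ∃ τ t : ℕ,
      τ < t ∧ t ≤ n ∧ (n : ℝ) ^ α ≤ (t : ℝ) - τ ∧ ∀ m : Vec d,
        Real.log n ^ ((1 : ℝ) / 30) * ((t : ℝ) - τ) <
          ∫ x, ∑ s : Fin n → Step d, PolT β h (fun p => ω p x) {s} *
            ‖emb (pos s t) - emb (pos s τ) - m‖ ^ 2 ∂μ :=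
  top2P17 hω hρ hnc hβ (supK90 hρ hnc hβ) hd hα

end Pool.Agent.W_7d29a1_S90
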