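import Pool.Agent.W_7d29a1_S90.DefsS90
import Pool.Agent.W_7d29a1_v.Final
import Pool.Agent.W_7d29a1_V.DimA33

/-!
Theorem SUP: from the main statement to all open sets of tilts, to generic tilts, and to an arbitrary
probability space.
-/

namespace Pool.Agent.W_7d29a1_S90

open MeasureTheory ProbabilityTheory Filter Topology Pool.Agent.W_MP_7d29a1_pr
  Pool.Agent.W_7d29a1_h46 Pool.Agent.W_7d29a1_h46u Pool.Agent.W_7d29a1_D2.B35
  Pool.Agent.W_7d29a1_Q29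

section Finite

variable {S : Type*} [Fintype S] {E : Type*} [SeminormedAddCommGroup E]

/-- The fourth moment of the difference of two independent copies. -/
noncomputable def kk17 (p : S → ℝ) (v : S → E) : ℝ := ∑ s, ∑ s', p s * p s' * ‖v s - v s'‖ ^ 4

lemma kk17_le (p : S → ℝ) (hp : ∀ s, 0 ≤ p s) (h1 : ∑ s, p s = 1) (v : S → E) (m : E) :
    kk17 p v ≤ 16 * ∑ s, p s * ‖v s - m‖ ^ 4 := by
  have hpt : ∀ s s', p s * p s' * ‖v s - v s'‖ ^ 4 ≤
      p s * p s' * (8 * ‖v s - m‖ ^ 4 + 8 * ‖v s' - m‖ ^ 4) := by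
    intro s s'
    refine mul_le_mul_of_nonneg_left ?_ (mul_nonneg (hp s) (hp s'))
    have h2 : ‖v s - v s'‖ ≤ ‖v s - m‖ + ‖v s' - m‖ := by
      have h3 : v s - v s' = (v s - m) - (v s' - m) := by abel
      rw [h3]
      exact norm_sub_le _ _
    have h4 := pow_le_pow_left₀ (norm_nonneg _) h2 4
    have h5 : (‖v s - m‖ + ‖v s' - m‖) ^ 4 ≤ 8 * ‖v s - m‖ ^ 4 + 8 * ‖v s' - m‖ ^ 4 := by
      nlinarith [sq_nonneg (‖v s - m‖ - ‖v s' - m‖), sq_nonneg (‖v s - m‖ + ‖v s' - m‖),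
        sq_nonneg (‖v s - m‖ ^ 2 - ‖v s' - m‖ ^ 2), sq_nonneg (‖v s - m‖ ^ 2 + ‖v s' - m‖ ^ 2),
        mul_nonneg (sq_nonneg (‖v s - m‖ - ‖v s' - m‖)) (sq_nonneg (‖v s - m‖ + ‖v s' - m‖)),
        mul_nonneg (sq_nonneg (‖v s - m‖ - ‖v s' - m‖))
          (add_nonneg (sq_nonneg ‖v s - m‖) (sq_nonneg ‖v s' - m‖)),
        mul_nonneg (sq_nonneg (‖v s - m‖ - ‖v s' - m‖))
          (mul_nonneg (norm_nonneg (v s - m)) (norm_nonneg (v s' - m)))]
    linarith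
  have h6 : kk17 p v ≤ ∑ s, ∑ s', p s * p s' * (8 * ‖v s - m‖ ^ 4 + 8 * ‖v s' - m‖ ^ 4) :=
    Finset.sum_le_sum fun s _ => Finset.sum_le_sum fun s' _ => hpt s s'
  refine h6.trans (le_of_eq ?_)
  have e1 : ∀ s, ∑ s', p s * p s' * (8 * ‖v s - m‖ ^ 4 + 8 * ‖v s' - m‖ ^ 4) =
      8 * (p s * ‖v s - m‖ ^ 4) + p s * (8 * ∑ s', p s' * ‖v s' - m‖ ^ 4) := by
    intro s
    have e2 : ∀ s', p s * p s' * (8 * ‖v s - m‖ ^ 4 + 8 * ‖v s' - m‖ ^ 4) =
        8 * (p s * ‖v s - m‖ ^ 4) * p s' + p s * 8 * (p s' * ‖v s' - m‖ ^ 4) := by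
      intro s'
      ring
    simp only [e2]
    rw [Finset.sum_add_distrib, ← Finset.mul_sum, ← Finset.mul_sum, h1]
    ring
  simp only [e1]
  rw [Finset.sum_add_distrib, ← Finset.sum_mul, h1, ← Finset.mul_sum]
  ring

lemma lt_kk17 (p : S → ℝ) (hp : ∀ s, 0 ≤ p s) (h1 : ∑ s, p s = 1) (v : S → E) {B : ℝ}
    (hB : ∀ m, B < ∑ s, p s * ‖v s - m‖ ^ 4) : B < kk17 p v := by
  have e1 : kk17 p v = ∑ s', p s' * ∑ s, p s * ‖v s - v s'‖ ^ 4 := by
    unfold kk17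
    rw [Finset.sum_comm]
    refine Finset.sum_congr rfl fun s' _ => ?_
    rw [Finset.mul_sum]
    refine Finset.sum_congr rfl fun s _ => ?_
    ring
  have e2 : B = ∑ s', p s' * B := by rw [← Finset.sum_mul, h1, one_mul]
  rw [e1]
  obtain ⟨s₀, hs₀⟩ : ∃ s, 0 < p s := by
    by_contra hcon
    push Not at hcon
    have : ∑ s, p s ≤ 0 := Finset.sum_nonpos fun s _ => hcon s
    linarith
  rw [e2]
  refine Finset.sum_lt_sum (fun s _ => mul_le_mul_of_nonneg_left (hB _).le (hp s))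
    ⟨s₀, Finset.mem_univ _, ?_⟩
  exact mul_lt_mul_of_pos_left (hB _) hs₀

end Finite

variable {d : ℕ} {ρ : Measure ℝ} [IsProbabilityMeasure ρ] {β : ℝ}

/-- The mean probability of the walk `s`. -/
noncomputable def pb17 (ρ : Measure ℝ) (β : ℝ) (h : Vec d) {n : ℕ} (s : Fin n → Step d) : ℝ :=
  ∫ η, wgt β h η s / Z β h η n ∂(law d ρ)

lemma pw17_nonneg (β : ℝ) (h : Vec d) (η : Env d) {n : ℕ} (s : Fin n → Step d) :
    0 ≤ wgt β h η s / Z β h η n :=
  div_nonneg (wgt_pos β h η s).le (ZT_nonneg β h η _)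

lemma Z_eq17 (β : ℝ) (h : Vec d) (η : Env d) (n : ℕ) :
    Z β h η n = ∑ s : Fin n → Step d, wgt β h η s := by
  unfold Z ZT
  exact Finset.sum_congr rfl fun s _ => if_pos (Set.mem_univ s)

lemma Z_pos17 (hd : 0 < d) (β : ℝ) (h : Vec d) (η : Env d) (n : ℕ) : 0 < Z β h η n :=
  ZT_univ_pos hd β h η

lemma pw17_sum (hd : 0 < d) (β : ℝ) (h : Vec d) (η : Env d) (n : ℕ) :
    ∑ s : Fin n → Step d, wgt β h η s / Z β h η n = 1 := by
  rw [← Finset.sum_div, ← Z_eq17, div_self (Z_pos17 hd β h η n).ne']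

lemma pw17_le_one (hd : 0 < d) (β : ℝ) (h : Vec d) (η : Env d) {n : ℕ} (s : Fin n → Step d) :
    wgt β h η s / Z β h η n ≤ 1 := by
  rw [← pw17_sum hd β h η n]
  exact Finset.single_le_sum (f := fun s => wgt β h η s / Z β h η n)
    (fun s _ => pw17_nonneg β h η s) (Finset.mem_univ s)

lemma pw17_meas (β : ℝ) (h : Vec d) {n : ℕ} (s : Fin n → Step d) :
    Measurable fun η : Env d => wgt β h η s / Z β h η n := by
  unfold Z
  exact (measurable_wgt β h s).div (measurable_ZT β h _)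

lemma pw17_int (hd : 0 < d) (β : ℝ) (h : Vec d) {n : ℕ} (s : Fin n → Step d) :
    Integrable (fun η : Env d => wgt β h η s / Z β h η n) (law d ρ) := by
  refine Integrable.of_bound (pw17_meas β h s).aestronglyMeasurable 1 (ae_of_all _ fun η => ?_)
  rw [Real.norm_eq_abs, abs_of_nonneg (pw17_nonneg β h η s)]
  exact pw17_le_one hd β h η s

lemma pb17_nonneg (h : Vec d) {n : ℕ} (s : Fin n → Step d) : 0 ≤ pb17 ρ β h s :=
  integral_nonneg fun η => pw17_nonneg β h η s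

lemma pe17 (hd : 0 < d) (h : Vec d) {n : ℕ} (f : (Fin n → Step d) → ℝ) :
    ∫ η, pe β h η f ∂(law d ρ) = ∑ s, pb17 ρ β h s * f s := by
  have e1 : ∀ η : Env d, pe β h η f = ∑ s, wgt β h η s / Z β h η n * f s := by
    intro η
    unfold pe
    rw [Finset.sum_div]
    refine Finset.sum_congr rfl fun s _ => ?_
    ring
  simp only [e1]
  rw [integral_finset_sum _ fun s _ => (pw17_int hd β h s).mul_const _]
  refine Finset.sum_congr rfl fun s _ => ?_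
  rw [integral_mul_const, pb17]

lemma pb17_sum (hd : 0 < d) (h : Vec d) (n : ℕ) :
    ∑ s : Fin n → Step d, pb17 ρ β h s = 1 := by
  unfold pb17
  rw [← integral_finset_sum _ fun s _ => pw17_int hd β h s]
  simp only [pw17_sum hd β]
  simp

lemma pb17_cont (hd : 0 < d) {n : ℕ} (s : Fin n → Step d) :
    Continuous fun h : Vec d => pb17 ρ β h s := by
  unfold pb17
  refine continuous_of_dominated (bound := fun _ => (1 : ℝ))
    (fun h => (pw17_meas β h s).aestronglyMeasurable) (fun h => ae_of_all _ fun η => ?_)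
    (integrable_const _) (ae_of_all _ fun η => ?_)
  · rw [Real.norm_eq_abs, abs_of_nonneg (pw17_nonneg β h η s)]
    exact pw17_le_one hd β h η s
  · have h1 : ∀ s : Fin n → Step d, Continuous fun h : Vec d => wgt β h η s := by
      intro s
      unfold wgt
      fun_prop
    refine (h1 s).div ?_ fun h => (Z_pos17 hd β h η n).ne'
    simp only [Z_eq17]
    exact continuous_finset_sum _ fun s _ => h1 s

/-- The fourth moment of the difference of the increments of two independent polymers in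
independent environments. -/
noncomputable def KK17 (ρ : Measure ℝ) (β : ℝ) (h : Vec d) (n τ t : ℕ) : ℝ :=
  kk17 (fun s : Fin n → Step d => pb17 ρ β h s) fun s => emb (pos s t) - emb (pos s τ)

lemma KK17_cont (hd : 0 < d) (n τ t : ℕ) : Continuous fun h : Vec d => KK17 ρ β h n τ t := by
  unfold KK17 kk17
  exact continuous_finset_sum _ fun s _ => continuous_finset_sum _ fun s' _ =>
    ((pb17_cont hd s).mul (pb17_cont hd s')).mul continuous_const

/-- A window which is not diffusive. -/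
lemma W4_lt17 (hd : 0 < d) {h : Vec d} {n : ℕ} {α R : ℝ} (hW : ¬ W4 ρ β h n α R) :
    ∃ τ t : ℕ, τ < t ∧ t ≤ n ∧ (n : ℝ) ^ α ≤ (t : ℝ) - τ ∧
      R * ((t : ℝ) - τ) ^ 2 < KK17 ρ β h n τ t := by
  unfold W4 at hW
  push Not at hW
  obtain ⟨τ, t, h1, h2, h3, h4⟩ := hW
  refine ⟨τ, t, h1, h2, h3, lt_kk17 _ (fun s => pb17_nonneg h s) (pb17_sum hd h n) _ fun m => ?_⟩
  have h5 := h4 m
  rw [pe17 hd h] at h5
  exact h5

lemma W4_of17 (hd : 0 < d) {h : Vec d} {n τ t : ℕ} {α R : ℝ} (h1 : τ < t) (h2 : t ≤ n)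
    (h3 : (n : ℝ) ^ α ≤ (t : ℝ) - τ) (h4 : 16 * R * ((t : ℝ) - τ) ^ 2 < KK17 ρ β h n τ t)
    (m : Vec d) :
    R * ((t : ℝ) - τ) ^ 2 < ∫ η, pe β h η (fun s : Fin n → Step d => inc τ t m s ^ 4)
      ∂(law d ρ) := by
  have h5 := kk17_le _ (fun s : Fin n → Step d => pb17_nonneg (ρ := ρ) (β := β) h s)
    (pb17_sum hd h n) (fun s => emb (pos s t) - emb (pos s τ)) m
  rw [pe17 hd h]
  unfold KK17 at h4
  unfold inc
  linarith

/-- In every open set of tilts there is a segment on which the free energy is not affine. -/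
lemma seg17 (hρ : EM ρ) (hnc : ∀ c : ℝ, ρ {c} ≠ 1) (hβ : 0 < β) (hd : 0 < d) {U : Set (Vec d)}
    (hU : IsOpen U) (hne : U.Nonempty) :
    ∃ (h e : Vec d) (l : ℝ), ‖e‖ = 1 ∧ 0 < l ∧ (∀ s ∈ Set.Icc (0 : ℝ) l, h + s • e ∈ U) ∧
      2 * lam ρ β (h + (l / 2) • e) < lam ρ β h + lam ρ β (h + l • e) := by
  obtain ⟨x, hx⟩ := hne
  obtain ⟨r, hr, hb⟩ := Metric.isOpen_iff.1 hU x hx
  obtain ⟨v, hv⟩ := Pool.Agent.W_7d29a1_V.DimP33.exists_sub (lam_convex (d := d) hd hρ β) x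
  obtain ⟨k, hk, hkne⟩ := W_7d29a1_v.not_affine hρ hnc hβ hd (U := Metric.ball x r)
    Metric.isOpen_ball ⟨x, Metric.mem_ball_self hr⟩ v (lam ρ β x - inner ℝ x v)
  set u := k - x with hu
  have hk' : k = x + u := by rw [hu]; abel
  have hur : ‖u‖ < r := by
    rw [Metric.mem_ball, dist_eq_norm] at hk
    exact hk
  have h1 : lam ρ β x + inner ℝ v u < lam ρ β (x + u) := by
    have h2 := hv k
    rw [← hu, hk'] at h2
    refine lt_of_le_of_ne h2 fun h3 => hkne ?_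
    rw [hk', ← h3, inner_add_left, real_inner_comm v u]
    ring
  have h2 : lam ρ β x - inner ℝ v u ≤ lam ρ β (x - u) := by
    have h3 := hv (x - u)
    rw [show x - u - x = -u by abel, inner_neg_right] at h3
    linarith
  have hu0 : u ≠ 0 := by
    intro h3
    rw [h3] at h1
    simp at h1
  have hun : 0 < ‖u‖ := norm_pos_iff.2 hu0
  refine ⟨x - u, (‖u‖)⁻¹ • u, 2 * ‖u‖, ?_, by positivity, ?_, ?_⟩
  · rw [norm_smul, norm_inv, norm_norm, inv_mul_cancel₀ hun.ne']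
  · intro s hs
    apply hb
    rw [Metric.mem_ball, dist_eq_norm]
    have e1 : x - u + s • (‖u‖)⁻¹ • u - x = (s * (‖u‖)⁻¹ - 1) • u := by
      rw [sub_smul, one_smul, smul_smul]
      abel
    rw [e1, norm_smul, Real.norm_eq_abs]
    have h3 : s * (‖u‖)⁻¹ ≤ 2 := by
      rw [← div_eq_mul_inv, div_le_iff₀ hun]
      exact hs.2
    have h4 : 0 ≤ s * (‖u‖)⁻¹ := mul_nonneg hs.1 (inv_nonneg.2 hun.le)
    have h5 : |s * (‖u‖)⁻¹ - 1| ≤ 1 := abs_le.2 ⟨by linarith, by linarith⟩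
    calc |s * (‖u‖)⁻¹ - 1| * ‖u‖ ≤ 1 * ‖u‖ := mul_le_mul_of_nonneg_right h5 hun.le
      _ < r := by rw [one_mul]; exact hur
  · have e1 : x - u + (2 * ‖u‖ / 2) • (‖u‖)⁻¹ • u = x := by
      rw [smul_smul, show 2 * ‖u‖ / 2 * (‖u‖)⁻¹ = 1 by field_simp, one_smul]
      abel
    have e2 : x - u + (2 * ‖u‖) • (‖u‖)⁻¹ • u = x + u := by
      rw [smul_smul, show 2 * ‖u‖ * (‖u‖)⁻¹ = 2 by field_simp, two_smul]
      abel
    rw [e1, e2]
    linarith

/-- Every open set of tilts. -/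
theorem topA17 (hρ : EM ρ) (hnc : ∀ c : ℝ, ρ {c} ≠ 1) (hβ : 0 < β) (hM : MainS ρ β)
    {U : Set (Vec 2)} (hU : IsOpen U) (hne : U.Nonempty) {α : ℝ} (hα : α < 1) :
    ∀ᶠ n : ℕ in atTop, ∃ h ∈ U, ¬ W4 ρ β h n α (Real.log n ^ ((1 : ℝ) / 18)) := by
  obtain ⟨h, e, l, he, hl, hs, h2⟩ := seg17 hρ hnc hβ (by norm_num) hU hne
  obtain ⟨N₀, hN⟩ := hM h e l α he hl hα h2
  filter_upwards [eventually_ge_atTop N₀] with n hn
  obtain ⟨s, hs1, hs2⟩ := hN n hn
  exact ⟨h + s • e, hs s hs1, hs2⟩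

lemma log17 : ∀ᶠ n : ℕ in atTop,
    16 * Real.log n ^ ((1 : ℝ) / 20) ≤ Real.log n ^ ((1 : ℝ) / 18) := by
  have h1 : Tendsto (fun n : ℕ => Real.log n) atTop atTop :=
    Real.tendsto_log_atTop.comp tendsto_natCast_atTop_atTop
  have h2 : Tendsto (fun x : ℝ => x ^ ((1 : ℝ) / 180)) atTop atTop :=
    tendsto_rpow_atTop (by norm_num)
  filter_upwards [(h2.comp h1).eventually_ge_atTop 16, h1.eventually_gt_atTop 0] with n hn hn0
  have h3 : Real.log n ^ ((1 : ℝ) / 18) =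
      Real.log n ^ ((1 : ℝ) / 180) * Real.log n ^ ((1 : ℝ) / 20) := by
    rw [← Real.rpow_add hn0]
    norm_num
  rw [h3]
  exact mul_le_mul_of_nonneg_right hn (Real.rpow_nonneg hn0.le _)

/-- Generic tilts. -/
theorem topB17 (hρ : EM ρ) (hnc : ∀ c : ℝ, ρ {c} ≠ 1) (hβ : 0 < β) (hM : MainS ρ β) :
    ∀ᶠ h : Vec 2 in residual (Vec 2), ∀ α : ℝ, α < 1 → ∃ᶠ n : ℕ in atTop,
      ¬ W4 ρ β h n α (Real.log n ^ ((1 : ℝ) / 20)) := by
  set V : ℕ → ℕ → Set (Vec 2) := fun j N => {h | ∃ n : ℕ, N ≤ n ∧ ∃ τ t : ℕ, τ < t ∧ t ≤ n ∧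
    (n : ℝ) ^ (1 - 1 / ((j : ℝ) + 1)) ≤ (t : ℝ) - τ ∧
      16 * Real.log n ^ ((1 : ℝ) / 20) * ((t : ℝ) - τ) ^ 2 < KK17 ρ β h n τ t} with hV
  have hopen : ∀ j N, IsOpen (V j N) := by
    intro j N
    have e1 : V j N = ⋃ (n : ℕ) (_ : N ≤ n) (τ : ℕ) (t : ℕ) (_ : τ < t) (_ : t ≤ n)
        (_ : (n : ℝ) ^ (1 - 1 / ((j : ℝ) + 1)) ≤ (t : ℝ) - τ),
        {h | 16 * Real.log n ^ ((1 : ℝ) / 20) * ((t : ℝ) - τ) ^ 2 < KK17 ρ β h n τ t} := by
      ext h
      simp only [hV, Set.mem_setOf_eq, Set.mem_iUnion, exists_prop]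
    rw [e1]
    refine isOpen_iUnion fun n => isOpen_iUnion fun _ => isOpen_iUnion fun τ =>
      isOpen_iUnion fun t => isOpen_iUnion fun _ => isOpen_iUnion fun _ => isOpen_iUnion fun _ =>
      isOpen_lt continuous_const (KK17_cont (by norm_num) n τ t)
  have hdense : ∀ j N, Dense (V j N) := by
    intro j N
    rw [dense_iff_inter_open]
    intro U hU hne
    have hα : (1 : ℝ) - 1 / ((j : ℝ) + 1) < 1 := by
      have : (0 : ℝ) < 1 / ((j : ℝ) + 1) := by positivity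
      linarith
    obtain ⟨n, ⟨⟨h, hh, hW⟩, hn⟩, hl⟩ :=
      (((topA17 hρ hnc hβ hM hU hne hα).and (eventually_ge_atTop N)).and log17).exists
    obtain ⟨τ, t, h1, h2, h3, h4⟩ := W4_lt17 (by norm_num) hW
    refine ⟨h, hh, n, hn, τ, t, h1, h2, h3, lt_of_le_of_lt ?_ h4⟩
    exact mul_le_mul_of_nonneg_right hl (sq_nonneg _)
  have hres : ∀ᶠ h : Vec 2 in residual (Vec 2), ∀ j N : ℕ, h ∈ V j N := by
    rw [eventually_countable_forall]
    intro j
    rw [eventually_countable_forall]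
    intro N
    exact residual_of_dense_open (hopen j N) (hdense j N)
  filter_upwards [hres] with h hh α hα
  obtain ⟨j, hj⟩ := exists_nat_one_div_lt (sub_pos.2 hα)
  rw [frequently_atTop]
  intro N
  obtain ⟨n, hn, τ, t, h1, h2, h3, h4⟩ := hh j (max N 1)
  refine ⟨n, (le_max_left _ _).trans hn, ?_⟩
  have hn1 : (1 : ℝ) ≤ n := by exact_mod_cast (le_max_right N 1).trans hn
  have h5 : (n : ℝ) ^ α ≤ (t : ℝ) - τ :=
    (Real.rpow_le_rpow_of_exponent_le hn1 (by linarith)).trans h3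
  unfold W4
  push Not
  exact ⟨τ, t, h1, h2, h5, fun m => W4_of17 (by norm_num) h1 h2 h5 h4 m⟩

end Pool.Agent.W_7d29a1_S90
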