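import Pool.Agent.W_7d29a1_S90.DefsP45
import Pool.Agent.W_7d29a1_S90.RpT73
import Pool.Agent.W_7d29a1_Q29.Fin29
import Pool.Agent.W_7d29a1_v.Final
import Pool.Agent.W_7d29a1_D2.Gen10

/-!
Superdiffusive windows in dimension two, second moments: from the main statement on segments to
all open sets of tilts, to a residual set of tilts and to an arbitrary i.i.d. environment.
-/

namespace Pool.Agent.W_7d29a1_S90

open MeasureTheory ProbabilityTheory Filter Topology Pool.Agent.W_MP_7d29a1_pr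
  Pool.Agent.W_7d29a1_h46 Pool.Agent.W_7d29a1_h46u Pool.Agent.W_7d29a1_D2.B35
  Pool.Agent.W_7d29a1_Q29

/-- Some window of length at least `n ^ α` of the polymer of length `n` is not diffusive with the
constant `R` (second moments around any point). -/
def Wd52 {d : ℕ} (ρ : Measure ℝ) (β : ℝ) (h : Vec d) (n : ℕ) (α R : ℝ) : Prop :=
  ∃ τ t : ℕ, τ < t ∧ t ≤ n ∧ (n : ℝ) ^ α ≤ (t : ℝ) - τ ∧ ∀ m : Vec d, R * ((t : ℝ) - τ) <
    ∫ η, pe β h η (fun s : Fin n → Step d => inc τ t m s ^ 2) ∂(law d ρ)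

/-- The main statement with the growth `φ`. -/
def MainF52 (ρ : Measure ℝ) (β : ℝ) (φ : ℕ → ℝ) : Prop := ∀ (h e : Vec 2) (l α : ℝ), ‖e‖ = 1 →
  0 < l → α < 1 → 2 * lam ρ β (h + (l / 2) • e) < lam ρ β h + lam ρ β (h + l • e) →
    ∃ N₀ : ℕ, ∀ n : ℕ, N₀ ≤ n → ∃ s ∈ Set.Icc (0 : ℝ) l, ¬ W2 ρ β (h + s • e) n α (φ n)

lemma mainF52 {ρ : Measure ℝ} {β : ℝ} (hM : MainK ρ β) :
    MainF52 ρ β fun n => Real.log n ^ ((1 : ℝ) / 30) := hM

section G

variable {d n : ℕ} {ρ : Measure ℝ}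

lemma not_W2_52 {β : ℝ} {h : Vec d} {α R : ℝ} : ¬ W2 ρ β h n α R ↔ Wd52 ρ β h n α R := by
  unfold W2 Wd52
  push Not
  rfl

/-- The annealed probability of a walk. -/
noncomputable def pA52 (ρ : Measure ℝ) (β : ℝ) (h : Vec d) (s : Fin n → Step d) : ℝ :=
  ∫ η, wgt β h η s / Z β h η n ∂(law d ρ)

lemma frac_nonneg52 (hd : 0 < d) (β : ℝ) (h : Vec d) (η : Env d) (s : Fin n → Step d) :
    0 ≤ wgt β h η s / Z β h η n :=
  div_nonneg (wgt_pos β h η s).le (Z_pos hd β h η n).le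

lemma frac_le52 (hd : 0 < d) (β : ℝ) (h : Vec d) (η : Env d) (s : Fin n → Step d) :
    wgt β h η s / Z β h η n ≤ 1 := by
  rw [div_le_one (Z_pos hd β h η n), Z_eq]
  exact Finset.single_le_sum (f := fun s : Fin n → Step d => wgt β h η s)
    (fun s _ => (wgt_pos β h η s).le) (Finset.mem_univ s)

lemma meas_frac52 (β : ℝ) (h : Vec d) (s : Fin n → Step d) :
    Measurable fun η : Env d => wgt β h η s / Z β h η n :=
  (measurable_wgt β h s).div (measurable_Z β h n)

lemma int_frac52 [IsProbabilityMeasure ρ] (hd : 0 < d) (β : ℝ) (h : Vec d)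
    (s : Fin n → Step d) : Integrable (fun η : Env d => wgt β h η s / Z β h η n) (law d ρ) := by
  refine (integrable_const (1 : ℝ)).mono' (meas_frac52 β h s).aestronglyMeasurable
    (Eventually.of_forall fun η => ?_)
  rw [Real.norm_eq_abs, abs_of_nonneg (frac_nonneg52 hd β h η s)]
  exact frac_le52 hd β h η s

lemma pe_eq52 (β : ℝ) (h : Vec d) (η : Env d) (f : (Fin n → Step d) → ℝ) :
    pe β h η f = ∑ s, wgt β h η s / Z β h η n * f s := by
  unfold pe
  rw [Finset.sum_div]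
  exact Finset.sum_congr rfl fun s _ => by ring

lemma int_pe52 [IsProbabilityMeasure ρ] (hd : 0 < d) (β : ℝ) (h : Vec d)
    (f : (Fin n → Step d) → ℝ) :
    ∫ η, pe β h η f ∂(law d ρ) = ∑ s, pA52 ρ β h s * f s := by
  simp_rw [pe_eq52]
  rw [integral_finset_sum _ fun s _ => (int_frac52 hd β h s).mul_const _]
  exact Finset.sum_congr rfl fun s _ => integral_mul_const _ _

lemma sum_pA52 [IsProbabilityMeasure ρ] (hd : 0 < d) (β : ℝ) (h : Vec d) :
    ∑ s : Fin n → Step d, pA52 ρ β h s = 1 := by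
  have h1 := int_pe52 (ρ := ρ) (n := n) hd β h fun _ => 1
  simp only [pe_const73 hd, mul_one] at h1
  rw [← h1]
  simp

lemma cont_wgt52 (β : ℝ) (η : Env d) (s : Fin n → Step d) :
    Continuous fun h : Vec d => wgt β h η s := by
  unfold wgt
  fun_prop

lemma cont_Z52 (β : ℝ) (η : Env d) (n : ℕ) : Continuous fun h : Vec d => Z β h η n := by
  simp_rw [Z_eq]
  exact continuous_finset_sum _ fun s _ => cont_wgt52 β η s

lemma cont_pA52 [IsProbabilityMeasure ρ] (hd : 0 < d) (β : ℝ) (s : Fin n → Step d) :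
    Continuous fun h : Vec d => pA52 ρ β h s := by
  unfold pA52
  refine continuous_of_dominated (bound := fun _ => (1 : ℝ))
    (fun h => (meas_frac52 β h s).aestronglyMeasurable)
    (fun h => Eventually.of_forall fun η => ?_) (integrable_const _)
    (Eventually.of_forall fun η => ?_)
  · rw [Real.norm_eq_abs, abs_of_nonneg (frac_nonneg52 hd β h η s)]
    exact frac_le52 hd β h η s
  · exact (cont_wgt52 β η s).div (cont_Z52 β η n) fun h => (Z_pos hd β h η n).ne'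

/-- The displacement of the window. -/
noncomputable def dsp52 (τ t : ℕ) (s : Fin n → Step d) : Vec d := emb (pos s t) - emb (pos s τ)

/-- The annealed variance of the displacement of the window. -/
noncomputable def vA52 (ρ : Measure ℝ) (β : ℝ) (h : Vec d) (n τ t : ℕ) : ℝ :=
  ∑ s : Fin n → Step d, pA52 ρ β h s * ‖dsp52 τ t s‖ ^ 2 -
    ‖∑ s : Fin n → Step d, pA52 ρ β h s • dsp52 τ t s‖ ^ 2

lemma cont_vA52 [IsProbabilityMeasure ρ] (hd : 0 < d) (β : ℝ) (n τ t : ℕ) :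
    Continuous fun h : Vec d => vA52 ρ β h n τ t := by
  unfold vA52
  refine (continuous_finset_sum _ fun s _ => (cont_pA52 hd β s).mul continuous_const).sub ?_
  exact (continuous_finset_sum _ fun s _ => (cont_pA52 hd β s).smul continuous_const).norm.pow 2

/-- The best centre is the mean. -/
lemma mom_eq52 [IsProbabilityMeasure ρ] (hd : 0 < d) (β : ℝ) (h : Vec d) (τ t : ℕ) (m : Vec d) :
    ∫ η, pe β h η (fun s : Fin n → Step d => inc τ t m s ^ 2) ∂(law d ρ) =
      vA52 ρ β h n τ t + ‖(∑ s : Fin n → Step d, pA52 ρ β h s • dsp52 τ t s) - m‖ ^ 2 := by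
  rw [int_pe52 hd]
  set M : Vec d := ∑ s : Fin n → Step d, pA52 ρ β h s • dsp52 τ t s with hM
  have h1 : ∀ s : Fin n → Step d, pA52 ρ β h s * inc τ t m s ^ 2 =
      pA52 ρ β h s * ‖dsp52 τ t s‖ ^ 2 - 2 * inner ℝ (pA52 ρ β h s • dsp52 τ t s) m +
        pA52 ρ β h s * ‖m‖ ^ 2 := by
    intro s
    have h2 : inc τ t m s = ‖dsp52 τ t s - m‖ := rfl
    rw [h2, norm_sub_sq_real, real_inner_smul_left]
    ring
  simp_rw [h1]
  rw [Finset.sum_add_distrib, Finset.sum_sub_distrib, ← Finset.mul_sum, ← sum_inner, ← hM,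
    ← Finset.sum_mul, sum_pA52 hd, one_mul, norm_sub_sq_real]
  unfold vA52
  rw [← hM]
  ring

lemma forall_iff52 [IsProbabilityMeasure ρ] (hd : 0 < d) (β : ℝ) (h : Vec d) (τ t : ℕ) (R : ℝ) :
    (∀ m : Vec d, R < ∫ η, pe β h η (fun s : Fin n → Step d => inc τ t m s ^ 2) ∂(law d ρ)) ↔
      R < vA52 ρ β h n τ t := by
  constructor
  · intro h1
    have h2 := h1 (∑ s : Fin n → Step d, pA52 ρ β h s • dsp52 τ t s)
    rw [mom_eq52 hd, sub_self, norm_zero] at h2
    linarith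
  · intro h1 m
    rw [mom_eq52 hd]
    have := sq_nonneg ‖(∑ s : Fin n → Step d, pA52 ρ β h s • dsp52 τ t s) - m‖
    linarith

/-- The tilts with a superdiffusive window form an open set. -/
lemma open52 [IsProbabilityMeasure ρ] (hd : 0 < d) (β : ℝ) (n : ℕ) (α R : ℝ) :
    IsOpen {h : Vec d | Wd52 ρ β h n α R} := by
  have h1 : {h : Vec d | Wd52 ρ β h n α R} = ⋃ (τ : ℕ) (t : ℕ)
      (_ : τ < t ∧ t ≤ n ∧ (n : ℝ) ^ α ≤ (t : ℝ) - τ),
        {h : Vec d | R * ((t : ℝ) - τ) < vA52 ρ β h n τ t} := by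
    ext h
    simp only [Set.mem_setOf_eq, Set.mem_iUnion, exists_prop]
    unfold Wd52
    simp only [forall_iff52 hd]
    constructor
    · rintro ⟨τ, t, h1, h2, h3, h4⟩
      exact ⟨τ, t, ⟨h1, h2, h3⟩, h4⟩
    · rintro ⟨τ, t, ⟨h1, h2, h3⟩, h4⟩
      exact ⟨τ, t, h1, h2, h3, h4⟩
  rw [h1]
  exact isOpen_iUnion fun τ => isOpen_iUnion fun t => isOpen_iUnion fun _ =>
    isOpen_lt continuous_const (cont_vA52 hd β n τ t)

/-- Every nonempty open set contains a segment on which the free energy is not affine. -/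
lemma seg52 [IsProbabilityMeasure ρ] (hd : 0 < d) (hρ : EM ρ) (hnc : ∀ c, ρ {c} ≠ 1) {β : ℝ}
    (hβ : 0 < β) {U : Set (Vec d)} (hU : IsOpen U) (hne : U.Nonempty) :
    ∃ (h e : Vec d) (l : ℝ), ‖e‖ = 1 ∧ 0 < l ∧ (∀ s ∈ Set.Icc (0 : ℝ) l, h + s • e ∈ U) ∧
      2 * lam ρ β (h + (l / 2) • e) < lam ρ β h + lam ρ β (h + l • e) := by
  obtain ⟨x, hx⟩ := hne
  obtain ⟨r, hr, hball⟩ := Metric.isOpen_iff.1 hU x hx
  by_contra hcon
  push Not at hcon
  have hconv := lam_convex hd hρ β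
  have hR : 0 < r / 2 := by positivity
  have hD : W_7d29a1_D2.D10 (fun h : Vec d => lam ρ β h) x (r / 2) = 0 := by
    refine le_antisymm ?_ ?_
    · unfold W_7d29a1_D2.D10
      refine Finset.sum_nonpos fun j _ => ?_
      have hj : ‖(ej j : Vec d)‖ = 1 := by
        unfold ej
        simp
      have h1 := hcon (x - (r / 2) • ej j) (ej j) r hj hr ?_
      · have e1 : x - (r / 2) • ej j + (r / 2) • ej j = x := by abel
        have e2 : x - (r / 2) • ej j + r • ej j =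
            x + (r / 2) • ej j := by module
        rw [e1, e2] at h1
        simp only
        linarith
      · intro s hs
        refine hball ?_
        rw [Metric.mem_ball, dist_eq_norm]
        have e1 : x - (r / 2) • ej j + s • ej j - x =
            (s - r / 2) • (ej j : Vec d) := by module
        rw [e1, norm_smul, hj, mul_one, Real.norm_eq_abs, abs_lt]
        constructor <;> linarith [hs.1, hs.2]
    · unfold W_7d29a1_D2.D10
      exact Finset.sum_nonneg fun j _ => W_7d29a1_D2.D10_term_nonneg hconv _ _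
  obtain ⟨v, c, hvc⟩ := W_7d29a1_D2.flat10 hd hconv hR hD
  have hd0 : (0 : ℝ) < d := by exact_mod_cast hd
  obtain ⟨y, hy, hy'⟩ := W_7d29a1_v.not_affine hρ hnc hβ hd
    (Metric.isOpen_ball (x := x) (ε := r / 2 / d)) ⟨x, Metric.mem_ball_self (by positivity)⟩ v c
  apply hy'
  have h1 := hvc (y - x) (by rwa [Metric.mem_ball, dist_eq_norm] at hy)
  rwa [add_sub_cancel] at h1

end G

section Two

variable {ρ : Measure ℝ} [IsProbabilityMeasure ρ] {β : ℝ} {φ : ℕ → ℝ}

/-- Superdiffusive windows at a tilt in every open set. -/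
theorem openK52 (hρ : EM ρ) (hnc : ∀ c, ρ {c} ≠ 1) (hβ : 0 < β) (hM : MainF52 ρ β φ)
    {U : Set (Vec 2)} (hU : IsOpen U) (hne : U.Nonempty) {α : ℝ} (hα : α < 1) :
    ∀ᶠ n : ℕ in atTop, ∃ h ∈ U, Wd52 ρ β h n α (φ n) := by
  obtain ⟨h, e, l, he, hl, hs, hlt⟩ := seg52 two_pos hρ hnc hβ hU hne
  obtain ⟨N₀, hN⟩ := hM h e l α he hl hα hlt
  filter_upwards [eventually_ge_atTop N₀] with n hn
  obtain ⟨s, hs', hW⟩ := hN n hn
  exact ⟨h + s • e, hs s hs', not_W2_52.1 hW⟩

omit [IsProbabilityMeasure ρ] in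
lemma mono52 {h : Vec 2} {n : ℕ} {α α' R : ℝ} (hn : 1 ≤ n) (hα : α ≤ α')
    (hW : Wd52 ρ β h n α' R) : Wd52 ρ β h n α R := by
  obtain ⟨τ, t, h1, h2, h3, h4⟩ := hW
  refine ⟨τ, t, h1, h2, le_trans ?_ h3, h4⟩
  exact Real.rpow_le_rpow_of_exponent_le (by exact_mod_cast hn) hα

/-- Superdiffusive windows for infinitely many lengths, at a residual set of tilts. -/
theorem resK52 (hρ : EM ρ) (hnc : ∀ c, ρ {c} ≠ 1) (hβ : 0 < β) (hM : MainF52 ρ β φ) :
    {h : Vec 2 | ∀ α : ℝ, α < 1 → ∃ᶠ n : ℕ in atTop, Wd52 ρ β h n α (φ n)} ∈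
      residual (Vec 2) := by
  have h1 : ∀ k N : ℕ, (⋃ n ∈ Set.Ici (max N 1), {h : Vec 2 |
      Wd52 ρ β h n (1 - 1 / ((k : ℝ) + 1)) (φ n)}) ∈ residual (Vec 2) := by
    intro k N
    refine residual_of_dense_open (isOpen_biUnion fun n _ => open52 two_pos β n _ _) ?_
    rw [dense_iff_inter_open]
    intro U hU hne
    have h2 := openK52 hρ hnc hβ hM hU hne (α := 1 - 1 / ((k : ℝ) + 1))
      (by have : (0 : ℝ) < 1 / ((k : ℝ) + 1) := by positivity
          linarith)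
    obtain ⟨n, hn, h, hhU, hW⟩ := ((eventually_ge_atTop (max N 1)).and h2).exists
    exact ⟨h, hhU, Set.mem_biUnion hn hW⟩
  have h2 : (⋂ (k : ℕ) (N : ℕ), ⋃ n ∈ Set.Ici (max N 1), {h : Vec 2 |
      Wd52 ρ β h n (1 - 1 / ((k : ℝ) + 1)) (φ n)}) ∈ residual (Vec 2) :=
    countable_iInter_mem.2 fun k => countable_iInter_mem.2 fun N => h1 k N
  filter_upwards [h2] with h hh α hα
  obtain ⟨k, hk⟩ := exists_nat_one_div_lt (show (0 : ℝ) < 1 - α by linarith)
  rw [Filter.frequently_atTop]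
  intro N
  have h3 := Set.mem_iInter.1 (Set.mem_iInter.1 hh k) N
  obtain ⟨n, hn, hW⟩ := Set.mem_iUnion₂.1 h3
  have hn' : max N 1 ≤ n := hn
  exact ⟨n, (le_max_left _ _).trans hn', mono52 ((le_max_right _ _).trans hn')
    (by linarith) hW⟩

end Two

section Prob

variable {Ω : Type*} [MeasurableSpace Ω] {μ : Measure Ω} [IsProbabilityMeasure μ] {d n : ℕ}
  {ρ : Measure ℝ} [IsProbabilityMeasure ρ] {ω : ℕ × Site d → Ω → ℝ}

/-- The second moment of the window, for an arbitrary i.i.d. environment. -/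
lemma prob52 (hω : IID μ ρ ω) (β : ℝ) (h m : Vec d) (τ t : ℕ) :
    ∫ x, ∑ s : Fin n → Step d, PolT β h (fun p => ω p x) {s} *
      ‖emb (pos s t) - emb (pos s τ) - m‖ ^ 2 ∂μ =
    ∫ η, pe β h η (fun s : Fin n → Step d => inc τ t m s ^ 2) ∂(law d ρ) := by
  rw [← StrA_int hω (measurable_pe73 β h (f := fun _ s => inc τ t m s ^ 2)
    fun s => measurable_const)]
  refine integral_congr_ae (Eventually.of_forall fun x => ?_)
  beta_reduce
  rw [pe_eq52]
  refine Finset.sum_congr rfl fun s _ => ?_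
  have h1 : PolT β h (fun p => ω p x) {s} =
      wgt β h (fun p => ω p x) s / Z β h (fun p => ω p x) n := by
    unfold PolT Z
    congr 1
    unfold ZT
    simp
  rw [h1]
  rfl

end Prob

end Pool.Agent.W_7d29a1_S90
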