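import Pool.Agent.W_7d29a1_S90.Top2x17
import Pool.Agent.W_7d29a1_S90.Ori45

/-!
Theorem ORI: from the main statement to all open sets of tilts, to generic tilts, and to an
arbitrary probability space.
-/

namespace Pool.Agent.W_7d29a1_S90

open MeasureTheory ProbabilityTheory Filter Topology Pool.Agent.W_MP_7d29a1_pr
  Pool.Agent.W_7d29a1_h46 Pool.Agent.W_7d29a1_h46u Pool.Agent.W_7d29a1_D2.B35
  Pool.Agent.W_7d29a1_Q29

variable {d : ℕ} {ρ : Measure ℝ} [IsProbabilityMeasure ρ] {β : ℝ}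

lemma lt_VVO45 (hd : 0 < d) (h : Vec d) (n t : ℕ) (B : ℝ) :
    B < VV17 ρ β h n 0 t ↔ ∀ m : Vec d,
      B < ∫ η, pe β h η (fun s : Fin n → Step d => ‖emb (pos s t) - m‖ ^ 2) ∂(law d ρ) := by
  rw [lt_VV17 hd]
  simp only [inc_zero54]

lemma not_W0_45 (hd : 0 < d) (h : Vec d) (N : ℕ) (α R : ℝ) :
    ¬ W0 ρ β h N α R ↔ ∃ n t : ℕ, 1 ≤ t ∧ t ≤ n ∧ n ≤ N ∧ (N : ℝ) ^ α ≤ t ∧
      R * t < VV17 ρ β h n 0 t := by
  unfold W0
  push Not
  constructor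
  · rintro ⟨n, t, h1, h2, h3, h4, h5⟩
    exact ⟨n, t, h1, h2, h3, h4, (lt_VVO45 hd h n t _).2 h5⟩
  · rintro ⟨n, t, h1, h2, h3, h4, h5⟩
    exact ⟨n, t, h1, h2, h3, h4, (lt_VVO45 hd h n t _).1 h5⟩

/-- Every open set of tilts. -/
theorem topOA45 (hρ : EM ρ) (hnc : ∀ c : ℝ, ρ {c} ≠ 1) (hβ : 0 < β) (hM : MainO ρ β)
    {U : Set (Vec 2)} (hU : IsOpen U) (hne : U.Nonempty) {α : ℝ} (hα : α < 1) :
    ∀ᶠ N : ℕ in atTop, ∃ h ∈ U, ¬ W0 ρ β h N α (Real.log N ^ ((1 : ℝ) / 80)) := by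
  obtain ⟨h, e, l, he, hl, hs, h2⟩ := seg17 hρ hnc hβ (by norm_num) hU hne
  obtain ⟨N₀, hN⟩ := hM h e l α he hl hα h2
  filter_upwards [eventually_ge_atTop N₀] with n hn
  obtain ⟨s, hs1, hs2⟩ := hN n hn
  exact ⟨h + s • e, hs s hs1, hs2⟩

/-- Generic tilts. -/
theorem topOB45 (hρ : EM ρ) (hnc : ∀ c : ℝ, ρ {c} ≠ 1) (hβ : 0 < β) (hM : MainO ρ β) :
    ∀ᶠ h : Vec 2 in residual (Vec 2), ∀ α : ℝ, α < 1 → ∃ᶠ N : ℕ in atTop,
      ¬ W0 ρ β h N α (Real.log N ^ ((1 : ℝ) / 80)) := by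
  set V : ℕ → ℕ → Set (Vec 2) := fun j N => {h | ∃ n : ℕ, N ≤ n ∧
    ¬ W0 ρ β h n (1 - 1 / ((j : ℝ) + 1)) (Real.log n ^ ((1 : ℝ) / 80))} with hV
  have hopen : ∀ j N, IsOpen (V j N) := by
    intro j N
    have e1 : V j N = ⋃ (n : ℕ) (_ : N ≤ n) (n' : ℕ) (t : ℕ) (_ : 1 ≤ t) (_ : t ≤ n')
        (_ : n' ≤ n) (_ : (n : ℝ) ^ (1 - 1 / ((j : ℝ) + 1)) ≤ (t : ℝ)),
        {h | Real.log n ^ ((1 : ℝ) / 80) * (t : ℝ) < VV17 ρ β h n' 0 t} := by
      ext h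
      simp only [hV, Set.mem_ofPred_eq, Set.mem_iUnion, exists_prop]
      refine exists_congr fun n => and_congr_right fun _ => ?_
      exact not_W0_45 (by norm_num) h n _ _
    rw [e1]
    refine isOpen_iUnion fun n => isOpen_iUnion fun _ => isOpen_iUnion fun n' =>
      isOpen_iUnion fun t => isOpen_iUnion fun _ => isOpen_iUnion fun _ => isOpen_iUnion fun _ =>
      isOpen_iUnion fun _ => isOpen_lt continuous_const (VV17_cont (by norm_num) n' 0 t)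
  have hdense : ∀ j N, Dense (V j N) := by
    intro j N
    rw [dense_iff_inter_open]
    intro U hU hne
    have hα : (1 : ℝ) - 1 / ((j : ℝ) + 1) < 1 := by
      have : (0 : ℝ) < 1 / ((j : ℝ) + 1) := by positivity
      linarith
    obtain ⟨n, hn1, h, hh, hW⟩ :=
      ((eventually_ge_atTop N).and (topOA45 hρ hnc hβ hM hU hne hα)).exists
    exact ⟨h, hh, n, hn1, hW⟩
  have hres : ∀ᶠ h : Vec 2 in residual (Vec 2), ∀ j N, h ∈ V j N := by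
    rw [eventually_countable_forall]
    intro j
    rw [eventually_countable_forall]
    intro N
    exact residual_of_dense_open (hopen j N) (hdense j N)
  filter_upwards [hres] with h hh α hα
  obtain ⟨j, hj⟩ := exists_nat_one_div_lt (sub_pos.2 hα)
  rw [frequently_atTop]
  intro N
  obtain ⟨n, hn, hW⟩ := hh j (max N 1)
  refine ⟨n, (le_max_left _ _).trans hn, fun hcon => hW ?_⟩
  have hn1 : (1 : ℝ) ≤ n := by exact_mod_cast (le_max_right N 1).trans hn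
  intro n' t h1 h2 h3 h4
  exact hcon n' t h1 h2 h3 ((Real.rpow_le_rpow_of_exponent_le hn1 (by linarith)).trans h4)

variable {Ω : Type*} [MeasurableSpace Ω] {μ : Measure Ω} [IsProbabilityMeasure μ]
  {ω : ℕ × Site d → Ω → ℝ}

/-- **The mean square displacement from the origin in dimension two**, from the main statement. -/
theorem topOP45 (hω : IID μ ρ ω) (hρ : EM ρ) (hnc : ∀ c : ℝ, ρ {c} ≠ 1) (hβ : 0 < β)
    (hM : MainO ρ β) (hd : d = 2) {α : ℝ} (hα : α < 1) :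
    (∀ U : Set (Vec d), IsOpen U → U.Nonempty → ∀ᶠ N : ℕ in atTop, ∃ h ∈ U, ∃ n t : ℕ,
      1 ≤ t ∧ t ≤ n ∧ n ≤ N ∧ (N : ℝ) ^ α ≤ t ∧ ∀ m : Vec d,
        Real.log N ^ ((1 : ℝ) / 80) * t <
          ∫ x, ∑ s : Fin n → Step d, PolT β h (fun p => ω p x) {s} *
            ‖emb (pos s t) - m‖ ^ 2 ∂μ) ∧
    ∀ᶠ h : Vec d in residual (Vec d), ∃ᶠ n : ℕ in atTop, ∃ t : ℕ,
      1 ≤ t ∧ t ≤ n ∧ (n : ℝ) ^ α ≤ t ∧ ∀ m : Vec d,
        Real.log n ^ ((1 : ℝ) / 80) * t <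
          ∫ x, ∑ s : Fin n → Step d, PolT β h (fun p => ω p x) {s} *
            ‖emb (pos s t) - m‖ ^ 2 ∂μ := by
  subst hd
  have key : ∀ (h : Vec 2) (N : ℕ) (a R : ℝ), ¬ W0 ρ β h N a R → ∃ n t : ℕ,
      1 ≤ t ∧ t ≤ n ∧ n ≤ N ∧ (N : ℝ) ^ a ≤ t ∧ ∀ m : Vec 2, R * t <
          ∫ x, ∑ s : Fin n → Step 2, PolT β h (fun p => ω p x) {s} *
            ‖emb (pos s t) - m‖ ^ 2 ∂μ := by
    intro h N a R hW
    unfold W0 at hW
    push Not at hW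
    obtain ⟨n, t, h1, h2, h3, h4, h5⟩ := hW
    refine ⟨n, t, h1, h2, h3, h4, fun m => ?_⟩
    rw [tr17 (β := β) (by norm_num : 0 < 2) hω h
      (fun s : Fin n → Step 2 => ‖emb (pos s t) - m‖ ^ 2)]
    exact h5 m
  refine ⟨fun U hU hne => ?_, ?_⟩
  · filter_upwards [topOA45 hρ hnc hβ hM hU hne hα] with n hn
    obtain ⟨h, hh, hW⟩ := hn
    exact ⟨h, hh, key h n _ _ hW⟩
  · filter_upwards [topOB45 hρ hnc hβ hM] with h hh
    have hα' : max α (1 / 2) < 1 := max_lt hα (by norm_num)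
    rw [frequently_atTop]
    intro M
    obtain ⟨N, hN, hW⟩ := (frequently_atTop.mp (hh (max α (1 / 2)) hα')) (max (M ^ 2) 3)
    obtain ⟨n, t, h1, h2, h3, h4, h5⟩ := key h N _ _ hW
    have hN3 : 3 ≤ N := (le_max_right _ _).trans hN
    have hNM : M ^ 2 ≤ N := (le_max_left _ _).trans hN
    have hN1 : (1 : ℝ) ≤ N := by exact_mod_cast (by omega : 1 ≤ N)
    have hnt : (t : ℝ) ≤ n := by exact_mod_cast h2
    have hn1 : (1 : ℝ) ≤ n := by exact_mod_cast h1.trans h2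
    have hnN : (n : ℝ) ≤ N := by exact_mod_cast h3
    have hMt : (M : ℝ) ≤ t := by
      refine le_trans ?_ ((Real.rpow_le_rpow_of_exponent_le hN1 (le_max_right α (1 / 2))).trans h4)
      rw [← Real.sqrt_eq_rpow]
      refine Real.le_sqrt_of_sq_le ?_
      exact_mod_cast hNM
    refine ⟨n, by exact_mod_cast hMt.trans hnt, t, h1, h2, ?_, fun m => ?_⟩
    · calc (n : ℝ) ^ α ≤ (n : ℝ) ^ (max α (1 / 2)) :=
            Real.rpow_le_rpow_of_exponent_le hn1 (le_max_left _ _)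
        _ ≤ (N : ℝ) ^ (max α (1 / 2)) := Real.rpow_le_rpow (by linarith) hnN
            (le_trans (by norm_num) (le_max_right α (1 / 2)))
        _ ≤ t := h4
    · refine lt_of_le_of_lt (mul_le_mul_of_nonneg_right ?_ (by positivity)) (h5 m)
      exact Real.rpow_le_rpow (Real.log_nonneg hn1) (Real.log_le_log (by linarith) hnN)
        (by norm_num)

/-- **The mean square displacement from the origin in dimension two**, without hypotheses. -/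
theorem oriTop45 (hω : IID μ ρ ω) (hρ : EM ρ) (hnc : ∀ c : ℝ, ρ {c} ≠ 1) (hβ : 0 < β)
    (hd : d = 2) {α : ℝ} (hα : α < 1) :
    (∀ U : Set (Vec d), IsOpen U → U.Nonempty → ∀ᶠ N : ℕ in atTop, ∃ h ∈ U, ∃ n t : ℕ,
      1 ≤ t ∧ t ≤ n ∧ n ≤ N ∧ (N : ℝ) ^ α ≤ t ∧ ∀ m : Vec d,
        Real.log N ^ ((1 : ℝ) / 80) * t <
          ∫ x, ∑ s : Fin n → Step d, PolT β h (fun p => ω p x) {s} *
            ‖emb (pos s t) - m‖ ^ 2 ∂μ) ∧
    ∀ᶠ h : Vec d in residual (Vec d), ∃ᶠ n : ℕ in atTop, ∃ t : ℕ,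
      1 ≤ t ∧ t ≤ n ∧ (n : ℝ) ^ α ≤ t ∧ ∀ m : Vec d,
        Real.log n ^ ((1 : ℝ) / 80) * t <
          ∫ x, ∑ s : Fin n → Step d, PolT β h (fun p => ω p x) {s} *
            ‖emb (pos s t) - m‖ ^ 2 ∂μ :=
  topOP45 hω hρ hnc hβ (ori45 hρ hnc hβ) hd hα

end Pool.Agent.W_7d29a1_S90
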