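import Pool.Agent.W_7d29a1_S90.DefsO28
import Pool.Agent.W_7d29a1_S90.StM86
import Pool.Agent.W_7d29a1_S90.RpT73
import Pool.Agent.W_7d29a1_Q29.Brid72

/-!
Leaf O2 of Theorem ORI: the transfer of the initial windows of the polymers of length `n - τ` to
the windows `[τ, t]` of the polymer of length `n`.
-/

namespace Pool.Agent.W_7d29a1_S90

open MeasureTheory ProbabilityTheory Filter Topology Pool.Agent.W_MP_7d29a1_pr
  Pool.Agent.W_7d29a1_h46 Pool.Agent.W_7d29a1_h46u Pool.Agent.W_7d29a1_D2.B35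
  Pool.Agent.W_7d29a1_Q29

variable {d : ℕ} {ρ : Measure ℝ}

open Classical in
/-- The probability of a long increment of the polymer of length `k` started at `(τ, y)`. -/
noncomputable def by18 (β : ℝ) (h : Vec d) (k τ u : ℕ) (m : Vec d) (r : ℝ) (y : Site d)
    (η : Env d) : ℝ :=
  pe β h (sh τ y η) (fun q : Fin k → Step d => if r < inc 0 u m q then (1 : ℝ) else 0)

lemma pos_zero18 {n : ℕ} (s : Fin n → Step d) : pos s 0 = 0 := by
  unfold pos
  simp

lemma inc_glue18 {i k : ℕ} (s : Fin i → Step d) (q : Fin k → Step d) (u : ℕ) (m : Vec d) :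
    inc i (i + u) m (Fin.append s q) = inc 0 u m q := by
  unfold inc
  rw [pos_glue_add, pos_glue_le s q le_rfl, pos_zero18, Walk_emb_add]
  have h0 : emb (0 : Site d) = 0 := by
    ext j
    simp [emb]
  rw [h0]
  congr 1
  abel

open Classical in
/-- The Markov property. -/
lemma markov18 (hd : 0 < d) (β : ℝ) (h : Vec d) (η : Env d) (τ k u : ℕ) (m : Vec d) (r : ℝ) :
    pe β h η (fun s : Fin (τ + k) → Step d => if r < inc τ (τ + u) m s then (1 : ℝ) else 0) =
      ∑ y ∈ boxF d (τ + k), Qt β h (τ + k) τ y η * by18 β h k τ u m r y η := by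
  have hN : ∑ s : Fin (τ + k) → Step d,
      wgt β h η s * (if r < inc τ (τ + u) m s then (1 : ℝ) else 0) =
      ∑ s : Fin τ → Step d, wgt β h η s * Z β h (sh τ (pos s τ) η) k *
        by18 β h k τ u m r (pos s τ) η := by
    rw [sum_glue]
    refine Finset.sum_congr rfl fun s _ => ?_
    unfold by18 pe
    rw [mul_assoc, mul_div_cancel₀ _ (Z_pos hd β h (sh τ (pos s τ) η) k).ne', Finset.mul_sum]
    refine Finset.sum_congr rfl fun q _ => ?_
    rw [wgt_glue, inc_glue18, mul_assoc]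
  have hy : ∀ y ∈ boxF d (τ + k), Qt β h (τ + k) τ y η * by18 β h k τ u m r y η =
      (∑ s : Fin τ → Step d, if pos s τ = y then
        wgt β h η s * Z β h (sh τ (pos s τ) η) k * by18 β h k τ u m r (pos s τ) η else 0) /
          Z β h η (τ + k) := by
    intro y _
    unfold Qt PP ZT
    rw [Nat.add_sub_cancel_left, div_mul_eq_mul_div, mul_assoc, Finset.sum_mul]
    congr 1
    refine Finset.sum_congr rfl fun s _ => ?_
    by_cases hs : pos s τ = y
    · rw [if_pos (show s ∈ {s : Fin τ → Step d | pos s τ = y} from hs), if_pos hs, hs]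
      ring
    · rw [if_neg (show s ∉ {s : Fin τ → Step d | pos s τ = y} from hs), if_neg hs, zero_mul]
  rw [Finset.sum_congr rfl hy, ← Finset.sum_div, Finset.sum_comm]
  unfold pe
  rw [hN]
  congr 1
  refine Finset.sum_congr rfl fun s _ => ?_
  rw [Finset.sum_ite_eq, if_pos (pos_mem_boxF39 s (Nat.le_add_right τ k))]

lemma by_meas18 (β : ℝ) (h : Vec d) (k τ u : ℕ) (m : Vec d) (r : ℝ) (y : Site d) :
    Measurable (by18 β h k τ u m r y) := by
  classical
  have h1 : Measurable fun η : Env d =>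
      pe β h η (fun q : Fin k → Step d => if r < inc 0 u m q then (1 : ℝ) else 0) :=
    measurable_pe73 β h (f := fun _ q => if r < inc 0 u m q then (1 : ℝ) else 0)
      (fun _ => measurable_const)
  exact h1.comp (measurable_sh τ y)

lemma by_nonneg18 (hd : 0 < d) (β : ℝ) (h : Vec d) (k τ u : ℕ) (m : Vec d) (r : ℝ) (y : Site d)
    (η : Env d) : 0 ≤ by18 β h k τ u m r y η := by
  classical
  exact pe_nonneg73 hd β h _ fun s => by split_ifs <;> norm_num

lemma by_le18 (hd : 0 < d) (β : ℝ) (h : Vec d) (k τ u : ℕ) (m : Vec d) (r : ℝ) (y : Site d)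
    (η : Env d) : by18 β h k τ u m r y η ≤ 1 := by
  classical
  have h1 := pe_mono73 hd β h (sh τ y η)
    (f := fun q : Fin k → Step d => if r < inc 0 u m q then (1 : ℝ) else 0) (g := fun _ => 1)
    fun s => by split_ifs <;> norm_num
  rwa [pe_const73 hd] at h1

lemma by_int18 [IsProbabilityMeasure ρ] (β : ℝ) (h : Vec d) (k τ u : ℕ) (m : Vec d) (r : ℝ)
    (y : Site d) : ∫ η, by18 β h k τ u m r y η ∂(law d ρ) = Tl ρ β h k 0 u m r := by
  classical
  have h1 : Measurable fun η : Env d =>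
      pe β h η (fun q : Fin k → Step d => if r < inc 0 u m q then (1 : ℝ) else 0) :=
    measurable_pe73 β h (f := fun _ q => if r < inc 0 u m q then (1 : ℝ) else 0)
      (fun _ => measurable_const)
  exact integral_sh τ y h1

lemma by_dep18 (β : ℝ) (h : Vec d) (k τ u : ℕ) (m : Vec d) (r : ℝ) (y : Site d) :
    DependsOn (by18 β h k τ u m r y) (Pa d τ)ᶜ := by
  classical
  intro η η' hη
  have hw : ∀ q : Fin k → Step d, wgt β h (sh τ y η) q = wgt β h (sh τ y η') q := by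
    intro q
    unfold wgt energy
    congr 3
    refine Finset.sum_congr rfl fun i _ => ?_
    refine hη _ ?_
    show ¬ ((i : ℕ) + 1 + τ ≤ τ)
    omega
  unfold by18 pe
  rw [Z_eq, Z_eq]
  simp only [hw]

/-- Cauchy-Schwarz for sums of random variables. -/
lemma cs18 {ι : Type*} {P : Measure (Env d)} (G : Finset ι) {f g : ι → Env d → ℝ}
    (hff : ∀ y, Integrable (fun η => f y η ^ 2) P) (hgg : ∀ y, Integrable (fun η => g y η ^ 2) P)
    (hfg : ∀ y, Integrable (fun η => f y η * g y η) P) :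
    (∫ η, ∑ y ∈ G, f y η * g y η ∂P) ^ 2 ≤
      (∫ η, ∑ y ∈ G, f y η ^ 2 ∂P) * ∫ η, ∑ y ∈ G, g y η ^ 2 ∂P := by
  have i1 := integrable_finsetSum G fun y _ => hff y
  have i2 := integrable_finsetSum G fun y _ => hgg y
  have i3 := integrable_finsetSum G fun y _ => hfg y
  have key : ∀ x : ℝ, 0 ≤ (∫ η, ∑ y ∈ G, f y η ^ 2 ∂P) * (x * x) +
      2 * (∫ η, ∑ y ∈ G, f y η * g y η ∂P) * x + ∫ η, ∑ y ∈ G, g y η ^ 2 ∂P := by
    intro x
    have h1 : ∫ η, ((∑ y ∈ G, f y η ^ 2) * (x * x) + (∑ y ∈ G, f y η * g y η) * (2 * x) +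
        ∑ y ∈ G, g y η ^ 2) ∂P = (∫ η, ∑ y ∈ G, f y η ^ 2 ∂P) * (x * x) +
        (∫ η, ∑ y ∈ G, f y η * g y η ∂P) * (2 * x) + ∫ η, ∑ y ∈ G, g y η ^ 2 ∂P := by
      have i4 : Integrable (fun η => (∑ y ∈ G, f y η ^ 2) * (x * x) +
          (∑ y ∈ G, f y η * g y η) * (2 * x)) P := (i1.mul_const _).add (i3.mul_const _)
      rw [integral_add i4 i2, integral_add (i1.mul_const _) (i3.mul_const _), integral_mul_const,
        integral_mul_const]
    have h2 : 0 ≤ ∫ η, ((∑ y ∈ G, f y η ^ 2) * (x * x) + (∑ y ∈ G, f y η * g y η) * (2 * x) +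
        ∑ y ∈ G, g y η ^ 2) ∂P := by
      refine integral_nonneg fun η => ?_
      have h3 : (∑ y ∈ G, f y η ^ 2) * (x * x) + (∑ y ∈ G, f y η * g y η) * (2 * x) +
          ∑ y ∈ G, g y η ^ 2 = ∑ y ∈ G, (x * f y η + g y η) ^ 2 := by
        rw [Finset.sum_mul, Finset.sum_mul, ← Finset.sum_add_distrib, ← Finset.sum_add_distrib]
        exact Finset.sum_congr rfl fun y _ => by ring
      show 0 ≤ (∑ y ∈ G, f y η ^ 2) * (x * x) + (∑ y ∈ G, f y η * g y η) * (2 * x) +
          ∑ y ∈ G, g y η ^ 2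
      rw [h3]
      exact Finset.sum_nonneg fun y _ => sq_nonneg _
    rw [h1] at h2
    linarith
  have h4 := discrim_le_zero key
  unfold discrim at h4
  nlinarith

/-- Chebyshev for the norm. -/
lemma chebN18 [IsProbabilityMeasure ρ] (β : ℝ) (h : Vec d) {n t : ℕ} (ht : t ≤ n) (M : Vec d)
    {L B : ℝ} (hL : 0 < L)
    (hB : ∫ η, pe β h η (fun s : Fin n → Step d => ‖emb (pos s t) - M‖ ^ 2) ∂(law d ρ) ≤ B)
    (G : Finset (Site d)) (hG : G ⊆ boxF d n) (hfar : ∀ y ∈ G, L ≤ ‖emb y - M‖) :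
    ∫ η, ∑ y ∈ G, Qt β h n t y η ∂(law d ρ) ≤ B / L ^ 2 := by
  rw [le_div_iff₀ (by positivity), ← integral_mul_const]
  refine le_trans ?_ hB
  have h0 : ∀ η : Env d, pe β h η (fun s : Fin n → Step d => ‖emb (pos s t) - M‖ ^ 2) =
      ∑ y ∈ boxF d n, Qt β h n t y η * ‖emb y - M‖ ^ 2 := fun η =>
    pe_pos86 β h η ht fun y => ‖emb y - M‖ ^ 2
  simp only [h0]
  refine integral_mono ?_ ?_ fun η => ?_
  · exact (integrable_finsetSum _ fun y _ => int_Qt86 β h ht y).mul_const _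
  · exact integrable_finsetSum _ fun y _ => (int_Qt86 β h ht y).mul_const _
  · show (∑ y ∈ G, Qt β h n t y η) * L ^ 2 ≤ ∑ y ∈ boxF d n, Qt β h n t y η * ‖emb y - M‖ ^ 2
    rw [Finset.sum_mul]
    refine (Finset.sum_le_sum fun y hy => ?_).trans
      (Finset.sum_le_sum_of_subset_of_nonneg hG fun y _ _ =>
        mul_nonneg (Qt_nonneg39 β h n t y η) (sq_nonneg _))
    exact mul_le_mul_of_nonneg_left (pow_le_pow_left₀ hL.le (hfar y hy) 2)
      (Qt_nonneg39 β h n t y η)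

/-- Leaf O2. -/
theorem wiT18 [IsProbabilityMeasure ρ] (hd : 0 < d) (β : ℝ) : WiT d ρ β := by
  classical
  intro h h' e n τ t m M c C r r₁ L B B' he hτ1 hτt htn hc hC hr hr₁ hL hsep hS hS' hM
  obtain ⟨k, rfl⟩ := Nat.exists_eq_add_of_le (hτt.le.trans htn)
  obtain ⟨u, rfl⟩ := Nat.exists_eq_add_of_le hτt.le
  rw [Nat.add_sub_cancel_left, Nat.add_sub_cancel_left]
  have hτn : τ ≤ τ + k := Nat.le_add_right τ k
  set F : ℝ := Ft ρ β h e (τ + k) τ with hF
  set F' : ℝ := Ft ρ β h' e (τ + k) τ with hF'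
  set S : Set (ℕ × Site d) := (Pa d τ)ᶜ with hSdef
  set b : Site d → Env d → ℝ := fun y η => by18 β h k τ u m r y η with hb
  set T' : ℝ := Tl ρ β h k 0 u m r with hT'
  have hb0 : ∀ y η, 0 ≤ b y η := fun y η => by_nonneg18 hd β h k τ u m r y η
  have hb1 : ∀ y η, b y η ≤ 1 := fun y η => by_le18 hd β h k τ u m r y η
  have hbm : ∀ y, Measurable (b y) := fun y => by_meas18 β h k τ u m r y
  have hbi : ∀ y, Integrable (b y) (law d ρ) := fun y =>
    Integrable.mono' (integrable_const 1) (hbm y).aestronglyMeasurable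
      (Eventually.of_forall fun η => by
        rw [Real.norm_eq_abs, abs_of_nonneg (hb0 y η)]
        exact hb1 y η)
  have hbI : ∀ y, ∫ η, b y η ∂(law d ρ) = T' := fun y => by_int18 β h k τ u m r y
  have hT0 : 0 ≤ T' := by
    rw [← hbI 0]
    exact integral_nonneg fun η => hb0 0 η
  have hbS : ∀ y, DependsOn (b y) S := fun y => by_dep18 β h k τ u m r y
  -- the marginals
  have hQ0 : ∀ (g : Vec d) (y : Site d) (η : Env d), 0 ≤ Qt β g (τ + k) τ y η := fun g y η =>
    Qt_nonneg39 β g (τ + k) τ y η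
  have hQ1 : ∀ (g : Vec d) (y : Site d) (η : Env d), Qt β g (τ + k) τ y η ≤ 1 := fun g y η =>
    Qt_le_one39 β g hτn y η
  have hQm : ∀ (g : Vec d) (y : Site d), Measurable (Qt β g (τ + k) τ y) := fun g y =>
    measurable_Qt39 β g (τ + k) τ y
  have hQi : ∀ (g : Vec d) (y : Site d), Integrable (Qt β g (τ + k) τ y) (law d ρ) := fun g y =>
    int_Qt86 β g hτn y
  have hQb : ∀ y : Site d, Integrable (fun η => Qt β h (τ + k) τ y η * b y η) (law d ρ) :=
    fun y => (hQi h y).mono' ((hQm h y).mul (hbm y)).aestronglyMeasurable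
      (Eventually.of_forall fun η => by
        rw [Real.norm_eq_abs, abs_of_nonneg (mul_nonneg (hQ0 h y η) (hb0 y η))]
        exact mul_le_of_le_one_right (hQ0 h y η) (hb1 y η))
  -- conditional marginals
  have hc0 : ∀ (g : Vec d) (y : Site d) (η : Env d), 0 ≤ cE ρ S (Qt β g (τ + k) τ y) η :=
    fun g y η => cE_nonneg (fun η => hQ0 g y η) S η
  have hc1 : ∀ (g : Vec d) (y : Site d) (η : Env d), cE ρ S (Qt β g (τ + k) τ y) η ≤ 1 :=
    fun g y η => cE_le (hQm g y) (fun η => hQ0 g y η) (fun η => hQ1 g y η) S η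
  have hcm : ∀ (g : Vec d) (y : Site d), Measurable (cE ρ S (Qt β g (τ + k) τ y)) := fun g y =>
    measurable_cE (hQm g y) S
  have hci : ∀ (g : Vec d) (y : Site d), Integrable (cE ρ S (Qt β g (τ + k) τ y)) (law d ρ) :=
    fun g y => Integrable.mono' (integrable_const 1) (hcm g y).aestronglyMeasurable
      (Eventually.of_forall fun η => by
        rw [Real.norm_eq_abs, abs_of_nonneg (hc0 g y η)]
        exact hc1 g y η)
  have hcb : ∀ y : Site d,
      Integrable (fun η => cE ρ S (Qt β h (τ + k) τ y) η * b y η) (law d ρ) :=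
    fun y => (hci h y).mono' ((hcm h y).mul (hbm y)).aestronglyMeasurable
      (Eventually.of_forall fun η => by
        rw [Real.norm_eq_abs, abs_of_nonneg (mul_nonneg (hc0 h y η) (hb0 y η))]
        exact mul_le_of_le_one_right (hc0 h y η) (hb1 y η))
  -- the positive part
  set w : Site d → Env d → ℝ := fun y η => bw ρ β h h' (τ + k) τ c C y η with hw
  have hw0 : ∀ y η, 0 ≤ w y η := fun y η => le_max_left _ _
  have hwc : ∀ y η, w y η ≤ c := fun y η => by
    refine max_le hc.le ?_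
    have h1 : c * cE ρ S (Qt β h (τ + k) τ y) η ≤ c * 1 :=
      mul_le_mul_of_nonneg_left (hc1 h y η) hc.le
    have h2 : 0 ≤ C * cE ρ S (Qt β h' (τ + k) τ y) η := mul_nonneg hC (hc0 h' y η)
    show c * cE ρ S (Qt β h (τ + k) τ y) η - C * cE ρ S (Qt β h' (τ + k) τ y) η ≤ c
    linarith
  have hwm : ∀ y, Measurable (w y) := fun y =>
    measurable_const.max (((hcm h y).const_mul c).sub ((hcm h' y).const_mul C))
  have hwle : ∀ y η, c * cE ρ S (Qt β h (τ + k) τ y) η ≤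
      w y η + C * cE ρ S (Qt β h' (τ + k) τ y) η := fun y η => by
    have h1 : c * cE ρ S (Qt β h (τ + k) τ y) η - C * cE ρ S (Qt β h' (τ + k) τ y) η ≤ w y η :=
      le_max_right _ _
    linarith
  have hw2 : ∀ y, Integrable (fun η => w y η ^ 2) (law d ρ) := fun y =>
    Integrable.mono' (integrable_const (c ^ 2)) ((hwm y).pow_const 2).aestronglyMeasurable
      (Eventually.of_forall fun η => by
        rw [Real.norm_eq_abs, abs_of_nonneg (sq_nonneg _)]
        exact pow_le_pow_left₀ (hw0 y η) (hwc y η) 2)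
  have hb2 : ∀ y, Integrable (fun η => b y η ^ 2) (law d ρ) := fun y =>
    (hbi y).mono' ((hbm y).pow_const 2).aestronglyMeasurable (Eventually.of_forall fun η => by
        rw [Real.norm_eq_abs, abs_of_nonneg (sq_nonneg _), sq]
        exact mul_le_of_le_one_right (hb0 y η) (hb1 y η))
  have hwb : ∀ y, Integrable (fun η => w y η * b y η) (law d ρ) := fun y =>
    Integrable.mono' (integrable_const c) ((hwm y).mul (hbm y)).aestronglyMeasurable
      (Eventually.of_forall fun η => by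
        rw [Real.norm_eq_abs, abs_of_nonneg (mul_nonneg (hw0 y η) (hb0 y η))]
        exact (mul_le_of_le_one_right (hw0 y η) (hb1 y η)).trans (hwc y η))
  -- the three sets of sites
  set G₁ : Finset (Site d) := (boxF d (τ + k)).filter fun y => L ≤ ‖emb y - M‖ with hG₁
  set H₁ : Finset (Site d) := (boxF d (τ + k)).filter fun y => ¬ L ≤ ‖emb y - M‖ with hH₁
  set G₂ : Finset (Site d) := H₁.filter fun y => r₁ ≤ |inner ℝ e (emb y) - F| with hG₂
  set G₃ : Finset (Site d) := H₁.filter fun y => ¬ r₁ ≤ |inner ℝ e (emb y) - F| with hG₃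
  have hH₁s : H₁ ⊆ boxF d (τ + k) := Finset.filter_subset _ _
  have hG₁s : G₁ ⊆ boxF d (τ + k) := Finset.filter_subset _ _
  have hG₂s : G₂ ⊆ boxF d (τ + k) := (Finset.filter_subset _ _).trans hH₁s
  have hG₃s : G₃ ⊆ boxF d (τ + k) := (Finset.filter_subset _ _).trans hH₁s
  have hL0 : 0 < L := by linarith
  -- the decomposition
  have hdec : Tl ρ β h (τ + k) τ (τ + u) m r =
      (∫ η, ∑ y ∈ G₁, Qt β h (τ + k) τ y η * b y η ∂(law d ρ)) +
        ((∫ η, ∑ y ∈ G₂, Qt β h (τ + k) τ y η * b y η ∂(law d ρ)) +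
          ∫ η, ∑ y ∈ G₃, Qt β h (τ + k) τ y η * b y η ∂(law d ρ)) := by
    have j : ∀ G : Finset (Site d),
        Integrable (fun η => ∑ y ∈ G, Qt β h (τ + k) τ y η * b y η) (law d ρ) := fun G =>
      integrable_finsetSum _ fun y _ => hQb y
    have j2 : Integrable (fun η => (∑ y ∈ G₂, Qt β h (τ + k) τ y η * b y η) +
        ∑ y ∈ G₃, Qt β h (τ + k) τ y η * b y η) (law d ρ) := (j G₂).add (j G₃)
    rw [← integral_add (j G₂) (j G₃), ← integral_add (j G₁) j2]
    unfold Tl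
    refine integral_congr_ae (Eventually.of_forall fun η => ?_)
    show pe β h η (fun s : Fin (τ + k) → Step d => if r < inc τ (τ + u) m s then (1 : ℝ) else 0) =
      (∑ y ∈ G₁, Qt β h (τ + k) τ y η * b y η) +
        ((∑ y ∈ G₂, Qt β h (τ + k) τ y η * b y η) + ∑ y ∈ G₃, Qt β h (τ + k) τ y η * b y η)
    rw [markov18 hd, hG₂, hG₃, Finset.sum_filter_add_sum_filter_not H₁, hG₁, hH₁,
      Finset.sum_filter_add_sum_filter_not]
  -- the three bounds
  have hle : ∀ G : Finset (Site d), ∫ η, ∑ y ∈ G, Qt β h (τ + k) τ y η * b y η ∂(law d ρ) ≤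
      ∫ η, ∑ y ∈ G, Qt β h (τ + k) τ y η ∂(law d ρ) := fun G =>
    integral_mono (integrable_finsetSum _ fun y _ => hQb y)
      (integrable_finsetSum _ fun y _ => hQi h y) fun η =>
      Finset.sum_le_sum fun y _ => mul_le_of_le_one_right (hQ0 h y η) (hb1 y η)
  have h1 : ∫ η, ∑ y ∈ G₁, Qt β h (τ + k) τ y η * b y η ∂(law d ρ) ≤ B' / L ^ 2 :=
    (hle G₁).trans (chebN18 β h hτn M hL0 hM G₁ hG₁s fun y hy => (Finset.mem_filter.1 hy).2)
  have h2 : ∫ η, ∑ y ∈ G₂, Qt β h (τ + k) τ y η * b y η ∂(law d ρ) ≤ B / r₁ ^ 2 :=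
    (hle G₂).trans (cheb86 β h e hτn hr₁ hS G₂ hG₂s fun y hy => (Finset.mem_filter.1 hy).2)
  have h3 : ∫ η, ∑ y ∈ G₃, Qt β h' (τ + k) τ y η ∂(law d ρ) ≤ B / r₁ ^ 2 := by
    refine cheb86 β h' e hτn hr₁ hS' G₃ hG₃s fun y hy => ?_
    have a1 : |inner ℝ e (emb y) - F| < r₁ := not_le.1 (Finset.mem_filter.1 hy).2
    have a2 : |F - F'| ≤ |inner ℝ e (emb y) - F| + |inner ℝ e (emb y) - F'| := by
      have a3 : F - F' = -(inner ℝ e (emb y) - F) + (inner ℝ e (emb y) - F') := by ring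
      rw [a3]
      exact (abs_add_le _ _).trans (by rw [abs_neg])
    linarith
  -- the good sites
  have h4 : ∫ η, ∑ y ∈ G₃, Qt β h (τ + k) τ y η * b y η ∂(law d ρ) =
      ∫ η, ∑ y ∈ G₃, cE ρ S (Qt β h (τ + k) τ y) η * b y η ∂(law d ρ) := by
    rw [integral_finsetSum _ fun y _ => hQb y, integral_finsetSum _ fun y _ => hcb y]
    exact Finset.sum_congr rfl fun y _ => int_mul_cE S (hQb y) (hbS y)
  have h5 : ∫ η, ∑ y ∈ G₃, cE ρ S (Qt β h' (τ + k) τ y) η ∂(law d ρ) ≤ B / r₁ ^ 2 := by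
    refine le_trans (le_of_eq ?_) h3
    rw [integral_finsetSum _ fun y _ => hci h' y, integral_finsetSum _ fun y _ => hQi h' y]
    exact Finset.sum_congr rfl fun y _ => int_cE S (hQi h' y)
  have h6 : c * ∫ η, ∑ y ∈ G₃, cE ρ S (Qt β h (τ + k) τ y) η * b y η ∂(law d ρ) ≤
      (∫ η, ∑ y ∈ G₃, w y η * b y η ∂(law d ρ)) +
        C * ∫ η, ∑ y ∈ G₃, cE ρ S (Qt β h' (τ + k) τ y) η ∂(law d ρ) := by
    rw [← integral_const_mul, ← integral_const_mul,
      ← integral_add (integrable_finsetSum _ fun y _ => hwb y)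
        ((integrable_finsetSum _ fun y _ => hci h' y).const_mul C)]
    refine integral_mono ((integrable_finsetSum _ fun y _ => hcb y).const_mul c)
      ((integrable_finsetSum _ fun y _ => hwb y).add
        ((integrable_finsetSum _ fun y _ => hci h' y).const_mul C)) fun η => ?_
    show c * ∑ y ∈ G₃, cE ρ S (Qt β h (τ + k) τ y) η * b y η ≤
      (∑ y ∈ G₃, w y η * b y η) + C * ∑ y ∈ G₃, cE ρ S (Qt β h' (τ + k) τ y) η
    rw [Finset.mul_sum, Finset.mul_sum, ← Finset.sum_add_distrib]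
    refine Finset.sum_le_sum fun y _ => ?_
    have a1 := mul_le_mul_of_nonneg_right (hwle y η) (hb0 y η)
    have a2 : C * cE ρ S (Qt β h' (τ + k) τ y) η * b y η ≤
        C * cE ρ S (Qt β h' (τ + k) τ y) η :=
      mul_le_of_le_one_right (mul_nonneg hC (hc0 h' y η)) (hb1 y η)
    nlinarith
  -- Cauchy-Schwarz
  have hwB : ∫ η, ∑ y ∈ G₃, w y η ^ 2 ∂(law d ρ) ≤
      ∫ η, ∑ y ∈ boxF d (τ + k), w y η ^ 2 ∂(law d ρ) :=
    integral_mono (integrable_finsetSum _ fun y _ => hw2 y)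
      (integrable_finsetSum _ fun y _ => hw2 y) fun η =>
      Finset.sum_le_sum_of_subset_of_nonneg hG₃s fun y _ _ => sq_nonneg _
  have hbB : ∫ η, ∑ y ∈ G₃, b y η ^ 2 ∂(law d ρ) ≤ (3 * L) ^ d * T' := by
    have a1 : ∫ η, ∑ y ∈ G₃, b y η ^ 2 ∂(law d ρ) ≤ ∫ η, ∑ y ∈ G₃, b y η ∂(law d ρ) :=
      integral_mono (integrable_finsetSum _ fun y _ => hb2 y)
        (integrable_finsetSum _ fun y _ => hbi y) fun η =>
        Finset.sum_le_sum fun y _ => by
          rw [sq]
          exact mul_le_of_le_one_right (hb0 y η) (hb1 y η)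
    have a2 : ∫ η, ∑ y ∈ G₃, b y η ∂(law d ρ) = G₃.card * T' := by
      rw [integral_finsetSum _ fun y _ => hbi y, Finset.sum_congr rfl fun y _ => hbI y]
      simp
    have a3 : (G₃.card : ℝ) ≤ (3 * L) ^ d := by
      have a4 : G₃ ⊆ ballW M L := by
        intro y hy
        have a5 := (Finset.mem_filter.1 hy).1
        exact mem_ballW (not_le.1 (Finset.mem_filter.1 a5).2).le
      calc (G₃.card : ℝ) ≤ ((ballW M L).card : ℝ) := by exact_mod_cast Finset.card_le_card a4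
        _ ≤ (2 * L + 1) ^ d := card_ballW _ hL0.le
        _ ≤ (3 * L) ^ d := pow_le_pow_left₀ (by linarith) (by linarith) d
    rw [a2] at a1
    exact a1.trans (mul_le_mul_of_nonneg_right a3 hT0)
  have h7 : ∫ η, ∑ y ∈ G₃, w y η * b y η ∂(law d ρ) ≤
      Real.sqrt ((∫ η, ∑ y ∈ boxF d (τ + k), w y η ^ 2 ∂(law d ρ)) * ((3 * L) ^ d * T')) := by
    refine Real.le_sqrt_of_sq_le ((cs18 G₃ hw2 hb2 hwb).trans ?_)
    exact mul_le_mul hwB hbB (integral_nonneg fun η => Finset.sum_nonneg fun y _ => sq_nonneg _)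
      (integral_nonneg fun η => Finset.sum_nonneg fun y _ => sq_nonneg _)
  -- the sum
  have h8 : ∫ η, ∑ y ∈ G₃, cE ρ S (Qt β h (τ + k) τ y) η * b y η ∂(law d ρ) ≤
      1 / c * Real.sqrt ((∫ η, ∑ y ∈ boxF d (τ + k), w y η ^ 2 ∂(law d ρ)) *
        ((3 * L) ^ d * T')) + C / c * (B / r₁ ^ 2) := by
    have a1 := mul_le_mul_of_nonneg_left h5 hC
    have a2 : c * ∫ η, ∑ y ∈ G₃, cE ρ S (Qt β h (τ + k) τ y) η * b y η ∂(law d ρ) ≤
        Real.sqrt ((∫ η, ∑ y ∈ boxF d (τ + k), w y η ^ 2 ∂(law d ρ)) * ((3 * L) ^ d * T')) +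
          C * (B / r₁ ^ 2) := h6.trans (by linarith)
    have a3 := mul_le_mul_of_nonneg_left a2 (by positivity : (0 : ℝ) ≤ 1 / c)
    have a4 : 1 / c * (c * ∫ η, ∑ y ∈ G₃, cE ρ S (Qt β h (τ + k) τ y) η * b y η ∂(law d ρ)) =
        ∫ η, ∑ y ∈ G₃, cE ρ S (Qt β h (τ + k) τ y) η * b y η ∂(law d ρ) := by
      field_simp
    rw [a4] at a3
    refine a3.trans (le_of_eq ?_)
    ring
  rw [hdec, h4]
  have h9 : (1 + C / c) * (B / r₁ ^ 2) = B / r₁ ^ 2 + C / c * (B / r₁ ^ 2) := by ring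
  rw [h9]
  linarith

end Pool.Agent.W_7d29a1_S90
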