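import Pool.Agent.W_7d29a1_S90.PickO28
import Pool.Agent.W_7d29a1_S90.MainC45

/-!
Theorem ORI: the windows `[τ, t]` behind a good time `τ` are diffusive; the upper bound of the
variance.
-/

namespace Pool.Agent.W_7d29a1_S90

open MeasureTheory ProbabilityTheory Filter Topology Pool.Agent.W_MP_7d29a1_pr
  Pool.Agent.W_7d29a1_h46 Pool.Agent.W_7d29a1_h46u Pool.Agent.W_7d29a1_D2.B35
  Pool.Agent.W_7d29a1_Q29

/-- The windows behind a good time. -/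
theorem winO28 {ρ : Measure ℝ} {β : ℝ} (hWi : WiT 2 ρ β) (hCo : CsO 2 ρ β) {g g₂ e : Vec 2}
    (he : ‖e‖ = 1) {n τ t : ℕ} {α R c q cB CB V θ K ϑ : ℝ} (h1τ : 1 ≤ τ) (hτt : τ < t)
    (htn : t ≤ n) (hατ : (n : ℝ) ^ α ≤ τ) (hαs : (n : ℝ) ^ α ≤ ((t - τ : ℕ) : ℝ)) (hR : 1 ≤ R)
    (hWg : W0 ρ β g n α R) (hWg₂ : W0 ρ β g₂ n α R) (hcB : 0 < cB) (hCB : 0 ≤ CB) (hc : 0 < c)
    (hq : 0 < q) (hθ : 0 < θ) (hK : 0 < K) (hϑ : 0 < ϑ) (hϑ1 : ϑ ≤ 1)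
    (hsep : c * q / 4 * n ≤ |Ft ρ β g e n τ - Ft ρ β g₂ e n τ|)
    (hf : ∫ η, ∑ y ∈ boxF 2 n, bw ρ β g g₂ n τ cB CB y η ^ 2 ∂(law 2 ρ) ≤ 4 * V / (θ * n))
    (hq2 : 192 * (1 + CB / cB) * R ≤ c ^ 2 * ϑ * (q ^ 2 * n))
    (hK2 : 972 * V * R ^ 2 ≤ K * (θ * cB ^ 2 * ϑ ^ 3)) :
    ∃ m : Vec 2, Tl ρ β g n τ t m (Real.sqrt (K * ((t - τ : ℕ) : ℝ))) ≤ ϑ := by
  have hn : 1 ≤ n := by omega
  have hn' : (0 : ℝ) < n := by exact_mod_cast hn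
  have hnR : (1 : ℝ) ≤ n := by exact_mod_cast hn
  have hR0 : 0 < R := by linarith
  have hs1 : 1 ≤ t - τ := by omega
  have hs0 : (0 : ℝ) < ((t - τ : ℕ) : ℝ) := by exact_mod_cast hs1
  obtain ⟨-, m, hm⟩ := hCo g e n (n - τ) (t - τ) α R he hs1 (by omega) (by omega) hαs hR0.le hWg
  refine ⟨m, ?_⟩
  set r := Real.sqrt (K * ((t - τ : ℕ) : ℝ)) with hr
  have hr0 : 0 < r := Real.sqrt_pos.mpr (by positivity)
  have hr2 : r ^ 2 = K * ((t - τ : ℕ) : ℝ) := Real.sq_sqrt (by positivity)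
  have hTl : Tl ρ β g (n - τ) 0 (t - τ) m r ≤ R / K := by
    refine (hm r hr0).trans (le_of_eq ?_)
    rw [hr2]
    field_simp
  obtain ⟨M, hM⟩ := hWg n τ h1τ (by omega) le_rfl hατ
  have hτn : (τ : ℝ) ≤ n := by exact_mod_cast (by omega : τ ≤ n)
  have hM' : ∫ η, pe β g η (fun s : Fin n → Step 2 => ‖emb (pos s τ) - M‖ ^ 2) ∂(law 2 ρ) ≤
      R * n := hM.trans (mul_le_mul_of_nonneg_left hτn hR0.le)
  have hS1 : Sm ρ β g e n τ (Ft ρ β g e n τ) ≤ R * n :=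
    ((hCo g e n n τ α R he h1τ (by omega) le_rfl hατ hR0.le hWg).1).trans
      (mul_le_mul_of_nonneg_left hτn hR0.le)
  have hS2 : Sm ρ β g₂ e n τ (Ft ρ β g₂ e n τ) ≤ R * n :=
    ((hCo g₂ e n n τ α R he h1τ (by omega) le_rfl hατ hR0.le hWg₂).1).trans
      (mul_le_mul_of_nonneg_left hτn hR0.le)
  set L := Real.sqrt (3 * R * n / ϑ) with hL
  have hL2 : L ^ 2 = 3 * R * n / ϑ := Real.sq_sqrt (by positivity)
  have hL1 : 1 ≤ L := by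
    rw [hL]
    refine Real.one_le_sqrt.2 ?_
    rw [le_div_iff₀ hϑ]
    nlinarith
  have hr1 : 0 < c * q * n / 8 := by positivity
  have h1 := hWi g g₂ e n τ t m M cB CB r (c * q * n / 8) L (R * n) (R * n) he h1τ hτt htn hcB hCB
    hr0 hr1 hL1 (le_trans (le_of_eq (by ring)) hsep) hS1 hS2 hM'
  refine h1.trans ?_
  have e1 : R * n / L ^ 2 = ϑ / 3 := by
    rw [hL2]
    field_simp
  have e2 : (1 + CB / cB) * (R * n / (c * q * n / 8) ^ 2) ≤ ϑ / 3 := by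
    rw [← mul_div_assoc, div_le_iff₀ (by positivity)]
    have h2 := mul_le_mul_of_nonneg_right hq2 hn'.le
    nlinarith [h2]
  have e3 : 1 / cB * Real.sqrt ((∫ η, ∑ y ∈ boxF 2 n, bw ρ β g g₂ n τ cB CB y η ^ 2 ∂(law 2 ρ)) *
      ((3 * L) ^ 2 * Tl ρ β g (n - τ) 0 (t - τ) m r)) ≤ ϑ / 3 := by
    have h2 : (∫ η, ∑ y ∈ boxF 2 n, bw ρ β g g₂ n τ cB CB y η ^ 2 ∂(law 2 ρ)) *
        ((3 * L) ^ 2 * Tl ρ β g (n - τ) 0 (t - τ) m r) ≤ (cB * ϑ / 3) ^ 2 := by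
      have h3 : (3 * L) ^ 2 * Tl ρ β g (n - τ) 0 (t - τ) m r ≤ (3 * L) ^ 2 * (R / K) :=
        mul_le_mul_of_nonneg_left hTl (by positivity)
      have h4 : (0 : ℝ) ≤ ∫ η, ∑ y ∈ boxF 2 n, bw ρ β g g₂ n τ cB CB y η ^ 2 ∂(law 2 ρ) :=
        integral_nonneg fun η => Finset.sum_nonneg fun y _ => sq_nonneg _
      have h5 : (0 : ℝ) ≤ (3 * L) ^ 2 * (R / K) := by positivity
      calc (∫ η, ∑ y ∈ boxF 2 n, bw ρ β g g₂ n τ cB CB y η ^ 2 ∂(law 2 ρ)) *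
            ((3 * L) ^ 2 * Tl ρ β g (n - τ) 0 (t - τ) m r)
          ≤ (∫ η, ∑ y ∈ boxF 2 n, bw ρ β g g₂ n τ cB CB y η ^ 2 ∂(law 2 ρ)) *
            ((3 * L) ^ 2 * (R / K)) := mul_le_mul_of_nonneg_left h3 h4
        _ ≤ 4 * V / (θ * n) * ((3 * L) ^ 2 * (R / K)) := mul_le_mul_of_nonneg_right hf h5
        _ = 108 * V * R ^ 2 / (θ * ϑ * K) := by
            rw [mul_pow, hL2]
            field_simp
            ring
        _ ≤ (cB * ϑ / 3) ^ 2 := by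
            rw [div_le_iff₀ (by positivity)]
            nlinarith [hK2]
    have h6 : Real.sqrt ((∫ η, ∑ y ∈ boxF 2 n, bw ρ β g g₂ n τ cB CB y η ^ 2 ∂(law 2 ρ)) *
        ((3 * L) ^ 2 * Tl ρ β g (n - τ) 0 (t - τ) m r)) ≤ cB * ϑ / 3 := by
      refine Real.sqrt_le_iff.2 ⟨by positivity, h2⟩
    calc 1 / cB * Real.sqrt ((∫ η, ∑ y ∈ boxF 2 n, bw ρ β g g₂ n τ cB CB y η ^ 2 ∂(law 2 ρ)) *
          ((3 * L) ^ 2 * Tl ρ β g (n - τ) 0 (t - τ) m r))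
        ≤ 1 / cB * (cB * ϑ / 3) := mul_le_mul_of_nonneg_left h6 (by positivity)
      _ = ϑ / 3 := by field_simp
  rw [e1]
  linarith

/-- The upper bound of the variance, ordered form. -/
theorem upoO28 {d : ℕ} {ρ : Measure ℝ} {β : ℝ} (hCa : CaT d ρ β) (hCs : CsT d ρ β)
    (hCo : CsO d ρ β) (hVu : VuT d ρ β) {h e : Vec d} (he : ‖e‖ = 1) {n : ℕ} {α R l k a : ℝ}
    (hn : 1 ≤ n) (hαn : (n : ℝ) ^ α ≤ n) (hR : 1 ≤ R)
    (hW : ∀ s ∈ Set.Icc (0 : ℝ) l, W0 ρ β (h + s • e) n α R) {s s' : ℝ}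
    (hs : s ∈ Set.Icc (0 : ℝ) l) (hs' : s' ∈ Set.Icc (0 : ℝ) l) (hle : s' ≤ s)
    (hss : |s - s'| ≤ k) (hka : k ^ 2 * n ≤ 4 * a ^ 2) :
    ∫ η, (X β (h + s • e) η n - X β (h + s' • e) η n -
      (A ρ β (h + s • e) n - A ρ β (h + s' • e) n)) ^ 2 ∂(law d ρ) ≤
        8 * a ^ 2 * R + 16 * R ^ 2 * a ^ 4 := by
  have hn' : (0 : ℝ) < n := by exact_mod_cast hn
  have hR0 : 0 < R := by linarith
  have h1 := (secO28 hCs hCo he hn le_rfl hαn hR0.le (hW s hs)).1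
  have h2 := (secO28 hCs hCo he hn le_rfl hαn hR0.le (hW s' hs')).1
  have h3 : h + s' • e + (s - s') • e = h + s • e := by
    rw [add_assoc, ← add_smul]
    congr 2
    ring
  have h4 := hVu (h + s' • e) e n (s - s') (R * n) (by linarith) h2 (by rw [h3]; exact h1)
  rw [h3] at h4
  refine h4.trans ?_
  have h5 := incleO28 hCa hCs hCo he hn le_rfl hαn hR0.le hW hs' hs
  have h6 : |s - s'| = s - s' := abs_of_nonneg (by linarith)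
  rw [h6] at h5 hss
  set x := s - s' with hx
  have hx0 : 0 ≤ x := by rw [hx]; linarith
  have h7 : (Ft ρ β (h + s • e) e n n - Ft ρ β (h + s' • e) e n n) ^ 2 ≤ (R * n * x) ^ 2 := by
    rw [← sq_abs]
    exact pow_le_pow_left₀ (abs_nonneg _) h5 2
  have h8 : x ^ 2 * n ≤ 4 * a ^ 2 :=
    le_trans (mul_le_mul_of_nonneg_right (pow_le_pow_left₀ hx0 hss 2) hn'.le) hka
  have h9 : 0 ≤ x ^ 2 * n := by positivity
  calc x ^ 2 * (2 * (R * n) + (Ft ρ β (h + s • e) e n n - Ft ρ β (h + s' • e) e n n) ^ 2)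
      ≤ x ^ 2 * (2 * (R * n) + (R * n * x) ^ 2) := by gcongr
    _ = 2 * R * (x ^ 2 * n) + R ^ 2 * (x ^ 2 * n) ^ 2 := by ring
    _ ≤ 2 * R * (4 * a ^ 2) + R ^ 2 * (4 * a ^ 2) ^ 2 := by gcongr
    _ = _ := by ring

/-- The upper bound of the variance. -/
theorem upO28 {d : ℕ} {ρ : Measure ℝ} {β : ℝ} (hCa : CaT d ρ β) (hCs : CsT d ρ β)
    (hCo : CsO d ρ β) (hVu : VuT d ρ β) {h e : Vec d} (he : ‖e‖ = 1) {n : ℕ} {α R l k a : ℝ}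
    (hn : 1 ≤ n) (hαn : (n : ℝ) ^ α ≤ n) (hR : 1 ≤ R)
    (hW : ∀ s ∈ Set.Icc (0 : ℝ) l, W0 ρ β (h + s • e) n α R) {s s' : ℝ}
    (hs : s ∈ Set.Icc (0 : ℝ) l) (hs' : s' ∈ Set.Icc (0 : ℝ) l)
    (hss : |s - s'| ≤ k) (hka : k ^ 2 * n ≤ 4 * a ^ 2) :
    ∫ η, (X β (h + s • e) η n - X β (h + s' • e) η n -
      (A ρ β (h + s • e) n - A ρ β (h + s' • e) n)) ^ 2 ∂(law d ρ) ≤
        8 * a ^ 2 * R + 16 * R ^ 2 * a ^ 4 := by
  rcases le_total s' s with hle | hle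
  · exact upoO28 hCa hCs hCo hVu he hn hαn hR hW hs hs' hle hss hka
  · have h1 := upoO28 hCa hCs hCo hVu he hn hαn hR hW hs' hs hle (by rwa [abs_sub_comm]) hka
    refine le_trans (le_of_eq (integral_congr_ae (Eventually.of_forall fun η => ?_))) h1
    ring

end Pool.Agent.W_7d29a1_S90
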